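import Pool.Agent.WL.Targets

/-!
# Weak approximation and free lines: moving along a free line
-/

set_option autoImplicit false

open MvPolynomial

namespace Pool.Agent.WL

namespace CB_

section Congr

variable {σ A : Type} [CommRing A]

theorem coeff_congr (F : MvPolynomial σ A) (I : Ideal A) {x x' w w' : σ → A}
    (hx : ∀ i, x i - x' i ∈ I) (hw : ∀ i, w i - w' i ∈ I) (j : ℕ) :
    (onLine F x w).coeff j - (onLine F x' w').coeff j ∈ I := by
  have h1 := onLine_map (Ideal.Quotient.mk I) F x w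
  have h2 := onLine_map (Ideal.Quotient.mk I) F x' w'
  have e1 : (fun i => Ideal.Quotient.mk I (x i)) = fun i => Ideal.Quotient.mk I (x' i) := by
    funext i
    exact Ideal.Quotient.eq.2 (hx i)
  have e2 : (fun i => Ideal.Quotient.mk I (w i)) = fun i => Ideal.Quotient.mk I (w' i) := by
    funext i
    exact Ideal.Quotient.eq.2 (hw i)
  rw [e1, e2, h2] at h1
  have h3 := congrArg (fun p => Polynomial.coeff p j) h1
  simp only [Polynomial.coeff_map] at h3
  exact Ideal.Quotient.eq.1 h3.symm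

theorem dminor_congr (F : MvPolynomial σ A) (d : ℕ) (I : Ideal A) {x x' w w' : σ → A}
    (hx : ∀ i, x i - x' i ∈ I) (hw : ∀ i, w i - w' i ∈ I) (S : Fin d → σ) :
    dminor F d x w S - dminor F d x' w' S ∈ I := by
  have h1 := dminor_map (Ideal.Quotient.mk I) F d x w S
  have h2 := dminor_map (Ideal.Quotient.mk I) F d x' w' S
  have e1 : (fun i => Ideal.Quotient.mk I (x i)) = fun i => Ideal.Quotient.mk I (x' i) := by
    funext i
    exact Ideal.Quotient.eq.2 (hx i)
  have e2 : (fun i => Ideal.Quotient.mk I (w i)) = fun i => Ideal.Quotient.mk I (w' i) := by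
    funext i
    exact Ideal.Quotient.eq.2 (hw i)
  rw [e1, e2, h2] at h1
  exact Ideal.Quotient.eq.1 h1.symm

theorem coeff_congr' (F : MvPolynomial σ (PowerSeries A)) (N : ℕ) {x x' w : σ → PowerSeries A}
    (hx : ∀ i, (PowerSeries.X : PowerSeries A) ^ N ∣ x i - x' i) (j : ℕ) :
    (PowerSeries.X : PowerSeries A) ^ N ∣ (onLine F x w).coeff j - (onLine F x' w).coeff j := by
  rw [← Ideal.mem_span_singleton]
  refine coeff_congr F _ (fun i => ?_) (fun i => ?_) j
  · exact Ideal.mem_span_singleton.2 (hx i)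
  · simp

theorem dminor_congr' (F : MvPolynomial σ (PowerSeries A)) (d N : ℕ)
    {x x' w : σ → PowerSeries A}
    (hx : ∀ i, (PowerSeries.X : PowerSeries A) ^ N ∣ x i - x' i) (S : Fin d → σ) :
    (PowerSeries.X : PowerSeries A) ^ N ∣ dminor F d x w S - dminor F d x' w S := by
  rw [← Ideal.mem_span_singleton]
  refine dminor_congr F d _ (fun i => ?_) (fun i => ?_) S
  · exact Ideal.mem_span_singleton.2 (hx i)
  · simp

end Congr

section Basic

variable {k : Type} [Field k]

theorem up_self : up k k = RingHom.id (PowerSeries k) := by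
  ext f m
  simp [up]

theorem upF_self {σ : Type} (F : MvPolynomial σ (PowerSeries k)) : upF k F = F := by
  unfold upF
  rw [up_self]
  exact MvPolynomial.map_id F

theorem phiS_self {n N M : ℕ} (e : Fin M → PowerSeries k) (z : Idx n N M → k)
    (i : Fin (n + 1)) : phiS e z i = ∑ b, z (Sum.inr (Sum.inr (i, b))) • e b := by
  unfold phiS
  refine Finset.sum_congr rfl fun b _ => ?_
  rw [PowerSeries.smul_eq_C_mul]
  congr 1

/-- Nonzero power series are powers of the variable times units. -/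
theorem exists_factor {f : PowerSeries k} (hf : f ≠ 0) : ∃ (u : ℕ) (g : PowerSeries k),
    f = PowerSeries.X ^ u * g ∧ PowerSeries.constantCoeff g ≠ 0 ∧
      (PowerSeries.coeff u f ≠ 0 ∧ ∀ m < u, PowerSeries.coeff m f = 0) := by
  classical
  have hex : ∃ m, PowerSeries.coeff m f ≠ 0 := by
    by_contra hcon
    push Not at hcon
    exact hf (PowerSeries.ext fun m => by simpa using hcon m)
  have h1 : ∀ m < Nat.find hex, PowerSeries.coeff m f = 0 := by
    intro m hm
    have := Nat.find_min hex hm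
    simpa using this
  have h2 := Nat.find_spec hex
  generalize Nat.find hex = u at h1 h2
  obtain ⟨g, hg⟩ := PowerSeries.X_pow_dvd_iff.2 h1
  refine ⟨u, g, hg, ?_, h2, h1⟩
  intro h0
  apply h2
  rw [hg]
  have h3 := PowerSeries.coeff_X_pow_mul g u 0
  rw [zero_add] at h3
  rw [h3]
  simpa using h0

theorem not_dvd_of_coeff {L : Type} [Field L] {f : PowerSeries L} {c : ℕ}
    (h : PowerSeries.coeff c f ≠ 0) : ¬ (PowerSeries.X : PowerSeries L) ^ (c + 1) ∣ f := by
  intro hd
  exact h (PowerSeries.X_pow_dvd_iff.1 hd c (Nat.lt_succ_self c))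

/-- The minor at the base point. -/
theorem base_minor (n d : ℕ) (h9 : T_TRI)
    (F : MvPolynomial (Fin (n + 1)) (PowerSeries k)) (hF : F.IsHomogeneous d)
    (x₀ y : Fin (n + 1) → PowerSeries k) (S : Fin d → Fin (n + 1))
    (N u v : ℕ) (p' m' : PowerSeries k)
    (hp' : PowerSeries.constantCoeff p' ≠ 0)
    (hm : dminor F d x₀ y S = PowerSeries.X ^ v * m')
    (hm' : PowerSeries.constantCoeff m' ≠ 0)
    (x : Fin (n + 1) → PowerSeries k)
    (hx : ∀ i, (PowerSeries.X : PowerSeries k) ^ N ∣ x i - x₀ i)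
    (hN : u * (d * (d - 1) / 2) + v < N) :
    PowerSeries.coeff (u * (d * (d - 1) / 2) + v)
      (dminor F d x (fun i => PowerSeries.X ^ u * p' * y i) S) ≠ 0 := by
  have h1 := dminor_congr' F d N (w := fun i => PowerSeries.X ^ u * p' * y i) hx S
  have h2 := PowerSeries.X_pow_dvd_iff.1 h1 _ hN
  rw [map_sub, sub_eq_zero] at h2
  rw [h2]
  have h3 := (h9 _ _ F d hF x₀ y 0 (PowerSeries.X ^ u * p')).2 S
  have e1 : (fun i => 0 * x₀ i + PowerSeries.X ^ u * p' * y i) =
      fun i => PowerSeries.X ^ u * p' * y i := by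
    funext i
    ring
  rw [e1] at h3
  rw [h3, hm, mul_pow, ← pow_mul]
  have e2 : (PowerSeries.X : PowerSeries k) ^ (u * (d * (d - 1) / 2)) *
      p' ^ (d * (d - 1) / 2) * (PowerSeries.X ^ v * m') =
      PowerSeries.X ^ (u * (d * (d - 1) / 2) + v) * (p' ^ (d * (d - 1) / 2) * m') := by
    rw [pow_add]
    ring
  rw [e2]
  have h4 := PowerSeries.coeff_X_pow_mul (p' ^ (d * (d - 1) / 2) * m')
    (u * (d * (d - 1) / 2) + v) 0
  rw [zero_add] at h4
  rw [h4]
  simpa using ⟨fun h => absurd h hp', hm'⟩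

/-- The coefficients at the base point. -/
theorem base_coeff (n d : ℕ) (h9 : T_TRI)
    (F : MvPolynomial (Fin (n + 1)) (PowerSeries k)) (hF : F.IsHomogeneous d)
    (x₀ y : Fin (n + 1) → PowerSeries k) (hl : onLine F x₀ y = 0) (P : PowerSeries k) (N : ℕ)
    (x : Fin (n + 1) → PowerSeries k)
    (hx : ∀ i, (PowerSeries.X : PowerSeries k) ^ N ∣ x i - x₀ i) (j : ℕ) :
    (PowerSeries.X : PowerSeries k) ^ N ∣ (onLine F x (fun i => P * y i)).coeff j := by
  have h1 := coeff_congr' F N (w := fun i => P * y i) hx j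
  have h3 := (h9 _ _ F d hF x₀ y 0 P).1 j
  have e1 : (fun i => 0 * x₀ i + P * y i) = fun i => P * y i := by
    funext i
    ring
  rw [e1, hl] at h3
  rw [h3] at h1
  simpa using h1

/-- The value of the form at the base point. -/
theorem base_eval (n d : ℕ) (h9 : T_TRI) (h10 : T_DEG)
    (F : MvPolynomial (Fin (n + 1)) (PowerSeries k)) (hF : F.IsHomogeneous d)
    (x₀ y : Fin (n + 1) → PowerSeries k) (hl : onLine F x₀ y = 0) (P : PowerSeries k) :
    eval (fun i => P * y i) F = 0 := by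
  have h3 := (h9 _ _ F d hF x₀ y 0 P).1 d
  have e1 : (fun i => 0 * x₀ i + P * y i) = fun i => P * y i := by
    funext i
    ring
  rw [e1, hl, (h10 _ _ F d hF x₀ _).2.2] at h3
  rw [h3]
  simp

end Basic

section Point

variable {k : Type} [Field k] {n N M : ℕ}

/-- The base point. -/
noncomputable def bpt (x₀ : Fin (n + 1) → PowerSeries k) (t : Fin (n + 1) → Fin M → k) :
    Idx n N M → k
  | Sum.inl (i, b) => PowerSeries.coeff (b : ℕ) (x₀ i)
  | Sum.inr (Sum.inl _) => 0
  | Sum.inr (Sum.inr (i, b)) => t i b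

theorem bpt_q (x₀ : Fin (n + 1) → PowerSeries k) (t : Fin (n + 1) → Fin M → k) :
    qS (bpt x₀ t : Idx n N M → k) = 0 := by
  ext a
  simp [qS, bpt]

theorem qS_eq_zero {A : Type} [CommRing A] (z : Idx n N M → A)
    (hz : ∀ b, z (Sum.inr (Sum.inl b)) = 0) : qS z = 0 := by
  ext a
  simp [qS, hz]

theorem xS_dvd {e₀ : ℕ} (he : e₀ ≤ N) (x₀ : Fin (n + 1) → PowerSeries k) (z : Idx n N M → k)
    (hz : ∀ (i : Fin (n + 1)) (b : Fin N), (b : ℕ) < e₀ →
      z (Sum.inl (i, b)) = PowerSeries.coeff (b : ℕ) (x₀ i)) (i : Fin (n + 1)) :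
    (PowerSeries.X : PowerSeries k) ^ e₀ ∣ xS z i - x₀ i := by
  refine PowerSeries.X_pow_dvd_iff.2 fun m hm => ?_
  rw [map_sub, sub_eq_zero, xS, PowerSeries.coeff_mk, dif_pos (hm.trans_le he)]
  exact hz i ⟨m, hm.trans_le he⟩ hm

theorem bpt_x (x₀ : Fin (n + 1) → PowerSeries k) (t : Fin (n + 1) → Fin M → k)
    (i : Fin (n + 1)) :
    (PowerSeries.X : PowerSeries k) ^ N ∣ xS (bpt x₀ t : Idx n N M → k) i - x₀ i :=
  xS_dvd le_rfl x₀ _ (fun _ _ _ => rfl) i

theorem bpt_phi (x₀ : Fin (n + 1) → PowerSeries k) (t : Fin (n + 1) → Fin M → k)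
    (e : Fin M → PowerSeries k) (i : Fin (n + 1)) :
    phiS e (bpt x₀ t : Idx n N M → k) i = ∑ b, t i b • e b := by
  rw [phiS_self]
  rfl

theorem bpt_psi (x₀ : Fin (n + 1) → PowerSeries k) (t : Fin (n + 1) → Fin M → k)
    (e : Fin M → PowerSeries k) (i : Fin (n + 1)) (ψ : PowerSeries k)
    (h : ∑ b, t i b • e b = PowerSeries.X ^ N * ψ) :
    psiS e (bpt x₀ t : Idx n N M → k) i = ψ := by
  ext a
  rw [psiS, PowerSeries.coeff_mk, bpt_q, bpt_phi, h, zero_mul, sub_zero]
  exact PowerSeries.coeff_X_pow_mul ψ N a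

/-- The base point is a solution of the refined system. -/
theorem bpt_sys (d : ℕ) (h9 : T_TRI)
    (F : MvPolynomial (Fin (n + 1)) (PowerSeries k)) (hF : F.IsHomogeneous d)
    (x₀ y : Fin (n + 1) → PowerSeries k) (hl : onLine F x₀ y = 0) (P : PowerSeries k)
    (t : Fin (n + 1) → Fin M → k) (e : Fin M → PowerSeries k)
    (h : ∀ i, ∑ b, t i b • e b = PowerSeries.X ^ N * (P * y i)) :
    Sys F d N (xS (bpt x₀ t : Idx n N M → k)) (qS (bpt x₀ t : Idx n N M → k))
      (phiS e (bpt x₀ t : Idx n N M → k)) := by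
  have h1 := base_coeff n d h9 F hF x₀ y hl P N (xS (bpt x₀ t : Idx n N M → k))
    (bpt_x x₀ t)
  choose B hB using h1
  refine ⟨fun i => P * y i, B, fun i => ?_, hB 0, fun j _ => ?_⟩
  · rw [bpt_q, bpt_phi, h, zero_mul, zero_add]
  · rw [hB (j + 1), bpt_q, zero_mul, sub_zero]

/-- The equations that fix the first coefficients of the arc. -/
theorem eqX (n N M e₀ : ℕ) (x₀ : Fin (n + 1) → PowerSeries k) :
    ∃ f : Finset (MvPolynomial (Idx n N M) k), f.card ≤ (n + 1) * e₀ ∧
      ∀ (L : Type) [Field L] [Algebra k L] (z : Idx n N M → L), (∀ g ∈ f, aeval z g = 0) ↔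
        ∀ (i : Fin (n + 1)) (b : Fin N), (b : ℕ) < e₀ →
          z (Sum.inl (i, b)) = algebraMap k L (PowerSeries.coeff (b : ℕ) (x₀ i)) := by
  classical
  refine ⟨((Finset.univ : Finset (Fin (n + 1))) ×ˢ
    (Finset.univ.filter fun b : Fin N => (b : ℕ) < e₀)).image
      (fun ib => X (Sum.inl (ib.1, ib.2)) - C (PowerSeries.coeff (ib.2 : ℕ) (x₀ ib.1))), ?_, ?_⟩
  · refine Finset.card_image_le.trans ?_
    rw [Finset.card_product, Finset.card_univ, Fintype.card_fin]
    refine Nat.mul_le_mul_left _ ?_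
    have h1 : (Finset.univ.filter fun b : Fin N => (b : ℕ) < e₀).card ≤ (Finset.range e₀).card := by
      refine Finset.card_le_card_of_injOn (fun b : Fin N => (b : ℕ)) ?_ ?_
      · intro b hb
        simpa using hb
      · intro b _ b' _ hbb
        exact Fin.ext hbb
    simpa using h1
  · intro L _ _ z
    constructor
    · intro h i b hb
      have hmem : (i, b) ∈ (Finset.univ : Finset (Fin (n + 1))) ×ˢ
          (Finset.univ.filter fun b : Fin N => (b : ℕ) < e₀) := by
        simp [hb]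
      have h1 := h _ (Finset.mem_image_of_mem _ hmem)
      simpa [sub_eq_zero] using h1
    · intro h g hg
      obtain ⟨⟨i, b⟩, hib, rfl⟩ := Finset.mem_image.1 hg
      have hb := (Finset.mem_filter.1 (Finset.mem_product.1 hib).2).2
      have h1 := h i b hb
      simp [h1]

/-- The equations that kill the last coefficients of the factor. -/
theorem eqQ (n N M i₁ : ℕ) (hi : i₁ ≤ N) :
    ∃ f : Finset (MvPolynomial (Idx n N M) k), f.card + i₁ ≤ N ∧
      ∀ (L : Type) [Field L] [Algebra k L] (z : Idx n N M → L), (∀ g ∈ f, aeval z g = 0) ↔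
        ∀ b : Fin N, i₁ ≤ (b : ℕ) → z (Sum.inr (Sum.inl b)) = 0 := by
  classical
  refine ⟨(Finset.univ.filter fun b : Fin N => i₁ ≤ (b : ℕ)).image
      (fun b => X (Sum.inr (Sum.inl b))), ?_, ?_⟩
  · have h1 : (Finset.univ.filter fun b : Fin N => i₁ ≤ (b : ℕ)).card ≤
        (Finset.Ico i₁ N).card := by
      refine Finset.card_le_card_of_injOn (fun b : Fin N => (b : ℕ)) ?_ ?_
      · intro b hb
        have hb' := (Finset.mem_filter.1 (Finset.mem_coe.1 hb)).2
        exact Finset.mem_coe.2 (Finset.mem_Ico.2 ⟨hb', b.2⟩)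
      · intro b _ b' _ hbb
        exact Fin.ext hbb
    rw [Nat.card_Ico] at h1
    have h2 := (Finset.card_image_le (s := Finset.univ.filter fun b : Fin N => i₁ ≤ (b : ℕ))
      (f := fun b => (X (Sum.inr (Sum.inl b)) : MvPolynomial (Idx n N M) k)))
    omega
  · intro L _ _ z
    constructor
    · intro h b hb
      have h1 := h _ (Finset.mem_image_of_mem _ (Finset.mem_filter.2 ⟨Finset.mem_univ b, hb⟩))
      simpa using h1
    · intro h g hg
      obtain ⟨b, hb, rfl⟩ := Finset.mem_image.1 hg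
      have h1 := h b (Finset.mem_filter.1 hb).2
      simp [h1]

/-- Linear equations in the coordinates of the section. -/
theorem eqL (n N M s : ℕ) (Λ : Fin s → Fin M → k) (t : Fin (n + 1) → Fin M → k) :
    ∃ f : Finset (MvPolynomial (Idx n N M) k), f.card ≤ (n + 1) * s ∧
      ∀ (L : Type) [Field L] [Algebra k L] (z : Idx n N M → L), (∀ g ∈ f, aeval z g = 0) ↔
        ∀ (i : Fin (n + 1)) (l : Fin s), ∑ b, algebraMap k L (Λ l b) *
          (z (Sum.inr (Sum.inr (i, b))) - algebraMap k L (t i b)) = 0 := by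
  classical
  refine ⟨(Finset.univ : Finset (Fin (n + 1) × Fin s)).image
      (fun il => ∑ b, C (Λ il.2 b) * (X (Sum.inr (Sum.inr (il.1, b))) - C (t il.1 b))), ?_, ?_⟩
  · refine Finset.card_image_le.trans ?_
    rw [Finset.card_univ, Fintype.card_prod, Fintype.card_fin, Fintype.card_fin]
  · intro L _ _ z
    constructor
    · intro h i l
      have h1 := h _ (Finset.mem_image_of_mem _ (Finset.mem_univ (i, l)))
      simpa using h1
    · intro h g hg
      obtain ⟨⟨i, l⟩, hb, rfl⟩ := Finset.mem_image.1 hg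
      have h1 := h i l
      simpa using h1

end Point

section Functional

variable {k : Type} [Field k]

/-- A subspace of small codimension is given by few linear functionals. -/
theorem exists_functionals (V U : Submodule k (PowerSeries k)) [FiniteDimensional k V] (c' : ℕ)
    (h : Module.finrank k V ≤ Module.finrank k (V ⊓ U : Submodule k (PowerSeries k)) + c')
    (M : ℕ) (e : Fin M → PowerSeries k) (he : ∀ b, e b ∈ V) :
    ∃ (s : ℕ) (Λ : Fin s → Fin M → k), s ≤ c' ∧
      ∀ t : Fin M → k, (∀ l, ∑ b, Λ l b * t b = 0) → ∑ b, t b • e b ∈ U := by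
  set W : Submodule k V := Submodule.comap V.subtype U with hW
  have h1 := Submodule.finrank_quotient_add_finrank W
  have h2 : Module.finrank k W = Module.finrank k (V ⊓ U : Submodule k (PowerSeries k)) := by
    rw [← Submodule.map_comap_subtype V U]
    exact (Submodule.finrank_map_subtype_eq V _).symm
  let bs := Module.finBasis k (V ⧸ W)
  refine ⟨Module.finrank k (V ⧸ W), fun l b => bs.coord l (W.mkQ ⟨e b, he b⟩), by omega, ?_⟩
  intro t ht
  have h3 : W.mkQ (∑ b, t b • (⟨e b, he b⟩ : V)) = 0 := by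
    apply bs.ext_elem
    intro l
    have h4 := ht l
    rw [map_sum, map_sum]
    simp only [map_smul, Finsupp.coe_finsetSum, Finset.sum_apply, Finsupp.smul_apply,
      smul_eq_mul, map_zero, Finsupp.coe_zero, Pi.zero_apply]
    rw [← h4]
    refine Finset.sum_congr rfl fun b _ => ?_
    rw [mul_comm]
    rfl
  rw [Submodule.mkQ_apply, Submodule.Quotient.mk_eq_zero, hW, Submodule.mem_comap] at h3
  simpa using h3

end Functional

section Count

variable {k L : Type} [Field k] [Field L] [Algebra k L] {n N M : ℕ}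

/-- The quotient when the factor vanishes. -/
theorem psi_of_zero (e : Fin M → PowerSeries k) (z : Idx n N M → L) (hq : qS z = 0)
    (i : Fin (n + 1)) (ψ : PowerSeries L) (h : phiS e z i = PowerSeries.X ^ N * ψ) :
    psiS e z i = ψ := by
  ext a
  rw [psiS, PowerSeries.coeff_mk, hq, h, zero_mul, sub_zero]
  exact PowerSeries.coeff_X_pow_mul ψ N a

/-- The coefficients of the quotient are generated by the coordinates of the section. -/
theorem psi_mem (e : Fin M → PowerSeries k) (z : Idx n N M → L) (hq : qS z = 0)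
    (E : IntermediateField k L) (i : Fin (n + 1))
    (hE : ∀ b, z (Sum.inr (Sum.inr (i, b))) ∈ E) (a : ℕ) :
    PowerSeries.coeff a (psiS e z i) ∈ E := by
  rw [psiS, PowerSeries.coeff_mk, hq, zero_mul, sub_zero, phiS, map_sum]
  refine sum_mem fun b _ => ?_
  rw [PowerSeries.coeff_C_mul, PowerSeries.coeff_map]
  exact mul_mem (hE b) (E.algebraMap_mem _)

/-- The count when the factor vanishes. -/
theorem count (h4 : T_COMB) (h8 : T_CNT) (d c₁ D : ℕ)
    (F : MvPolynomial (Fin (n + 1)) (PowerSeries k)) (V : Submodule k (PowerSeries k))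
    (eb : Fin M → PowerSeries k) (o : Fin M → ℕ) (had : Adapted V M eb o)
    (hD : ∀ b, o b < D) (S : Fin d → Fin (n + 1)) (z : Idx n N M → L)
    (hz : ∀ b, z (Sum.inr (Sum.inl b)) = 0)
    (hS : Sys (upF L F) d N (xS z) (qS z) (phiS eb z))
    (hm : PowerSeries.coeff c₁ (dminor (upF L F) d (xS z) (psiS eb z) S) ≠ 0) :
    ∃ T : Finset L, (∀ i, z i ∈ IntermediateField.adjoin k (T : Set L)) ∧
      T.card + d * N ≤ (n + 1) * (D - N) + (n + 1) * N + d * (2 * c₁ + 1) := by
  classical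
  have hq : qS z = 0 := qS_eq_zero z hz
  obtain ⟨ψ, B, hφ, hB0, hB⟩ := hS
  rw [hq] at hφ hB
  have hφ' : ∀ i, phiS eb z i = PowerSeries.X ^ N * ψ i := by
    intro i
    rw [hφ i, zero_mul, zero_add]
  have hψ : psiS eb z = ψ := by
    funext i
    exact psi_of_zero eb z hq i (ψ i) (hφ' i)
  -- coordinates of small order vanish
  have hsmall : ∀ i b, o b < N → z (Sum.inr (Sum.inr (i, b))) = 0 := by
    intro i
    refine (h4 k V M eb o had L (fun b => z (Sum.inr (Sum.inr (i, b))))).1 N ?_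
    intro a ha
    have h1 : phiS eb z i = ∑ b, PowerSeries.C (z (Sum.inr (Sum.inr (i, b)))) *
      up k L (eb b) := rfl
    rw [← h1, hφ' i]
    exact PowerSeries.X_pow_dvd_iff.1 (Dvd.intro _ rfl) a ha
  -- the other coordinates
  let T₁ : Finset L := (((Finset.univ : Finset (Fin (n + 1))) ×ˢ
    (Finset.univ.filter fun b : Fin M => N ≤ o b)).image
      fun ib => z (Sum.inr (Sum.inr (ib.1, ib.2))))
  have hT₁ : T₁.card ≤ (n + 1) * (D - N) := by
    refine Finset.card_image_le.trans ?_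
    rw [Finset.card_product, Finset.card_univ, Fintype.card_fin]
    refine Nat.mul_le_mul_left _ ?_
    rw [← Nat.card_Ico]
    refine Finset.card_le_card_of_injOn o ?_ ?_
    · intro b hb
      have hb' := (Finset.mem_filter.1 (Finset.mem_coe.1 hb)).2
      exact Finset.mem_coe.2 (Finset.mem_Ico.2 ⟨hb', hD b⟩)
    · exact had.mono.injective.injOn
  let E : IntermediateField k L := IntermediateField.adjoin k (T₁ : Set L)
  have hE : ∀ i b, z (Sum.inr (Sum.inr (i, b))) ∈ E := by
    intro i b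
    by_cases hb : o b < N
    · rw [hsmall i b hb]
      exact zero_mem _
    · refine IntermediateField.subset_adjoin k (T₁ : Set L) (Finset.mem_coe.2 ?_)
      have hmem : (i, b) ∈ (Finset.univ : Finset (Fin (n + 1))) ×ˢ
          (Finset.univ.filter fun b : Fin M => N ≤ o b) := by
        simpa using Nat.not_lt.1 hb
      exact Finset.mem_image_of_mem (fun ib : Fin (n + 1) × Fin M =>
        z (Sum.inr (Sum.inr (ib.1, ib.2)))) hmem
  let y' : Fin (n + 1) → PowerSeries E := fun i => PowerSeries.mk fun a =>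
    ⟨PowerSeries.coeff a (psiS eb z i), psi_mem eb z hq E i (hE i) a⟩
  have hy' : (fun i => up E L (y' i)) = ψ := by
    funext i
    rw [← hψ]
    ext a
    simp only [up, PowerSeries.coeff_map, y', PowerSeries.coeff_mk]
    rfl
  have hdiv : ∀ j < d, (PowerSeries.X : PowerSeries L) ^ N ∣
      (onLine (upF L F) (xS z) (fun i => up E L (y' i))).coeff j := by
    intro j hj
    rw [hy']
    cases j with
    | zero => exact ⟨B 0, hB0⟩
    | succ j =>
      refine ⟨B (j + 1), ?_⟩
      rw [hB j hj, zero_mul, sub_zero]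
  have hmin : ¬ (PowerSeries.X : PowerSeries L) ^ (c₁ + 1) ∣
      dminor (upF L F) d (xS z) (fun i => up E L (y' i)) S := by
    rw [hy', ← hψ]
    exact not_dvd_of_coeff hm
  obtain ⟨T, hTc, hT⟩ := h8 k E L n d N N c₁ F (xS z) y' S le_rfl hdiv hmin
  have hEm : ∀ w : L, w ∈ IntermediateField.adjoin E (T : Set L) →
      w ∈ IntermediateField.adjoin k ((T₁ ∪ T : Finset L) : Set L) := by
    intro w hw
    have h1 := IntermediateField.adjoin_adjoin_left k (T₁ : Set L) (T : Set L)
    rw [Finset.coe_union, ← h1]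
    exact hw
  refine ⟨T₁ ∪ T, ?_, ?_⟩
  · rintro (⟨i, b⟩ | b | ⟨i, b⟩)
    · have h1 := hEm _ (hT i b b.2)
      rw [xS, PowerSeries.coeff_mk, dif_pos b.2] at h1
      exact h1
    · rw [hz b]
      exact zero_mem _
    · refine IntermediateField.adjoin.mono k _ _ ?_ (hE i b)
      rw [Finset.coe_union]
      exact Set.subset_union_left
  · have h1 := Finset.card_union_le T₁ T
    omega

end Count

/-- The final arithmetic. -/
theorem arith (n d δ c m₀ mN m N M D u D' v c₁ c' s e₀ i₁ fc Oc fx fq fl tc : ℕ)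
    (hm : m = mN + m₀ + c) (hmN : δ * mN ≤ N + c) (hM : δ * m ≤ M + c) (hNm : N ≤ δ * mN + c)
    (hD : D = δ * m + c + 1) (hu : u ≤ 2 * c) (hc₁ : c₁ = u * D' + v) (hs : s ≤ c')
    (hO : Oc ≤ δ * (d * m + (d + 1) * c) + c + 1 - d * N)
    (hf : fc ≤ (n + 1) * N + d * N + Oc) (hfx : fx ≤ (n + 1) * e₀) (hfq : fq + i₁ ≤ N)
    (hfl : fl ≤ (n + 1) * s)
    (htc : tc + d * N ≤ (n + 1) * (D - N) + (n + 1) * N + d * (2 * c₁ + 1))
    (hht : (n + 1) * N + (N + (n + 1) * M) ≤ tc + (fc + fx + fq + fl)) :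
    i₁ ≤ (n + 1) * (2 * c + δ * m₀ + δ * c + 1) + (n + 1) * (2 * c) +
      d * (2 * (2 * c * D' + v) + 1) + (d * (c + δ * m₀ + δ * c) + δ * ((d + 1) * c) + c + 1) +
      (n + 1) * e₀ + (n + 1) * c' := by
  have e1 : δ * m = δ * mN + δ * m₀ + δ * c := by rw [hm]; ring
  have h1 : Oc ≤ d * (c + δ * m₀ + δ * c) + δ * ((d + 1) * c) + c + 1 := by
    have h2 : δ * (d * m + (d + 1) * c) = d * (δ * m) + δ * ((d + 1) * c) := by ring
    have h3 : d * (δ * m) ≤ d * (N + (c + δ * m₀ + δ * c)) := by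
      refine Nat.mul_le_mul_left d ?_
      omega
    rw [Nat.mul_add] at h3
    omega
  have h2 : (n + 1) * (D - N) ≤ (n + 1) * (2 * c + δ * m₀ + δ * c + 1) := by
    refine Nat.mul_le_mul_left _ ?_
    omega
  have h3 : (n + 1) * N ≤ (n + 1) * M + (n + 1) * (2 * c) := by
    rw [← Nat.mul_add]
    refine Nat.mul_le_mul_left _ ?_
    omega
  have h4 : d * (2 * c₁ + 1) ≤ d * (2 * (2 * c * D' + v) + 1) := by
    refine Nat.mul_le_mul_left _ ?_
    have h5 : u * D' ≤ 2 * c * D' := Nat.mul_le_mul_right _ hu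
    omega
  have h5 : (n + 1) * s ≤ (n + 1) * c' := Nat.mul_le_mul_left _ hs
  generalize (n + 1) * (D - N) = A1 at *
  generalize (n + 1) * (2 * c + δ * m₀ + δ * c + 1) = A2 at *
  generalize (n + 1) * N = A3 at *
  generalize (n + 1) * M = A4 at *
  generalize (n + 1) * (2 * c) = A5 at *
  generalize d * (2 * c₁ + 1) = A6 at *
  generalize d * (2 * (2 * c * D' + v) + 1) = A7 at *
  generalize d * (c + δ * m₀ + δ * c) + δ * ((d + 1) * c) + c + 1 = A8 at *
  generalize (n + 1) * s = A9 at *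
  generalize (n + 1) * c' = A10 at *
  generalize (n + 1) * e₀ = A11 at *
  generalize d * N = A12 at *
  omega

end CB_

open CB_ in
/-- Moving along a free line. -/
theorem p_B (h1 : T_HT) (h2 : T_NS) (h3 : T_ORD) (h4 : T_COMB) (h5 : T_ZR) (h6 : T_SYSF)
    (h7 : T_MINP) (h8 : T_CNT) (h9 : T_TRI) (h10 : T_DEG) : T_B := by
  classical
  intro k _ _ n d F δ c V x₀ a m₀ y S p mp U c' hd hF hV ha hy hl hmin hp hU e₀
  -- the order of the minor
  obtain ⟨v, m', hm, hm', -, -⟩ := exists_factor hmin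
  -- constants
  obtain ⟨D', hD'⟩ : ∃ D', D' = d * (d - 1) / 2 := ⟨_, rfl⟩
  obtain ⟨i₁, hi₁⟩ : ∃ i₁, i₁ = (n + 1) * (2 * c + δ * m₀ + δ * c + 1) + (n + 1) * (2 * c) +
      d * (2 * (2 * c * D' + v) + 1) + (d * (c + δ * m₀ + δ * c) + δ * ((d + 1) * c) + c + 1) +
      (n + 1) * e₀ + (n + 1) * c' + 1 := ⟨_, rfl⟩
  obtain ⟨N, hN⟩ : ∃ N, N = i₁ + e₀ + (2 * c * D' + v) + 1 := ⟨_, rfl⟩
  obtain ⟨hpV, hpX, hp0, hpm⟩ := hp N
  obtain ⟨m, hmdef⟩ : ∃ m, m = mp N + m₀ + c := ⟨_, rfl⟩
  have := hV.fin m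
  obtain ⟨M, eb, o, had⟩ := h3 k (V m)
  -- the base section
  have hstar : ∀ i, p N * y i ∈ V m := by
    intro i
    rw [hmdef]
    exact hV.mul _ _ _ hpV _ (hy i)
  choose t ht using fun i => had.span _ (hstar i)
  obtain ⟨P, hP⟩ := hpX
  have hP0 : P ≠ 0 := by
    rintro rfl
    exact hp0 (by rw [hP, mul_zero])
  obtain ⟨u, p', hPu, hp', -, -⟩ := exists_factor hP0
  have hu : u ≤ 2 * c := by
    by_contra hcon
    refine hp0 (hV.ord (mp N) (p N) hpV ?_)
    rw [hP, hPu, ← mul_assoc, ← pow_add]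
    refine (pow_dvd_pow _ ?_).mul_right _
    omega
  have hNm : N ≤ δ * mp N + c := by
    by_contra hcon
    refine hp0 (hV.ord (mp N) (p N) hpV ?_)
    rw [hP]
    refine (pow_dvd_pow _ ?_).mul_right _
    omega
  have hbase : ∀ i, ∑ b, t i b • eb b = PowerSeries.X ^ N * (P * y i) := by
    intro i
    rw [← ht i, hP, mul_assoc]
  have hsys := bpt_sys (N := N) d h9 F hF x₀ y hl P t eb hbase
  have hev : eval (phiS eb (bpt x₀ t : Idx n N M → k)) F = 0 := by
    have e1 : phiS eb (bpt x₀ t : Idx n N M → k) =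
        fun i => (PowerSeries.X ^ N * P) * y i := by
      funext i
      rw [bpt_phi, hbase, mul_assoc]
    rw [e1]
    exact base_eval n d h9 h10 F hF x₀ y hl _
  have hpsi : psiS eb (bpt x₀ t : Idx n N M → k) = fun i => PowerSeries.X ^ u * p' * y i := by
    funext i
    rw [← hPu]
    exact bpt_psi x₀ t eb i _ (hbase i)
  obtain ⟨c₁, hc₁⟩ : ∃ c₁, c₁ = u * D' + v := ⟨_, rfl⟩
  have huD : u * D' ≤ 2 * c * D' := Nat.mul_le_mul_right _ hu
  have hminb : PowerSeries.coeff c₁ (dminor F d (xS (bpt x₀ t : Idx n N M → k))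
      (psiS eb (bpt x₀ t : Idx n N M → k)) S) ≠ 0 := by
    rw [hpsi, hc₁, hD']
    refine base_minor n d h9 F hF x₀ y S N u v p' m' hp' hm hm' _ (bpt_x x₀ t) ?_
    rw [← hD']
    omega
  -- the equations
  obtain ⟨O, hO, hZ⟩ := h5 k n d F δ c V hd hF hV N m M eb had.mem
  obtain ⟨f, hf, hfz⟩ := h6 k n d N M F eb O hd
  obtain ⟨fx, hfx, hfxz⟩ := eqX (k := k) n N M e₀ x₀
  obtain ⟨fq, hfq, hfqz⟩ := eqQ (k := k) n N M i₁ (by omega)
  obtain ⟨s, Λ, hs, hΛ⟩ := exists_functionals (V m) U c' (hU m) M eb had.mem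
  obtain ⟨fl, hfl, hflz⟩ := eqL (k := k) n N M s Λ t
  obtain ⟨g, hg⟩ := h7 k n d N M c₁ F eb S
  have hall : ∀ (L : Type) [Field L] [Algebra k L] (z : Idx n N M → L),
      (∀ g ∈ f ∪ fx ∪ fq ∪ fl, aeval z g = 0) ↔ ((∀ g ∈ f, aeval z g = 0) ∧
        (∀ g ∈ fx, aeval z g = 0) ∧ (∀ g ∈ fq, aeval z g = 0) ∧ (∀ g ∈ fl, aeval z g = 0)) := by
    intro L _ _ z
    constructor
    · intro h
      refine ⟨fun g hg => h g ?_, fun g hg => h g ?_, fun g hg => h g ?_, fun g hg => h g ?_⟩ <;>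
        simp [hg]
    · rintro ⟨ha, hb, hc, hd⟩ g hg
      simp only [Finset.mem_union] at hg
      rcases hg with ((hg | hg) | hg) | hg
      · exact ha g hg
      · exact hb g hg
      · exact hc g hg
      · exact hd g hg
  -- the base point is a solution
  have hP0 : ∀ g ∈ f ∪ fx ∪ fq ∪ fl, eval (bpt x₀ t : Idx n N M → k) g = 0 := by
    have h := (hall k (bpt x₀ t : Idx n N M → k)).2 ⟨?_, ?_, ?_, ?_⟩
    · intro g hg
      have := h g hg
      rwa [MvPolynomial.aeval_eq_eval] at this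
    · refine (hfz k _).2 ?_
      rw [upF_self]
      refine ⟨hsys, fun o _ => ?_⟩
      rw [hev, map_zero]
    · refine (hfxz k _).2 fun i b _ => ?_
      rfl
    · refine (hfqz k _).2 fun b _ => ?_
      rfl
    · refine (hflz k _).2 fun i l => ?_
      refine Finset.sum_eq_zero fun b _ => ?_
      have : (bpt x₀ t : Idx n N M → k) (Sum.inr (Sum.inr (i, b))) = t i b := rfl
      rw [this]
      simp
  obtain ⟨L, iL, iA, z, hz, hspec, htr⟩ := h1 k (Idx n N M) (bpt x₀ t) _ hP0
  obtain ⟨hz1, hz2, hz3, hz4⟩ := (hall L z).1 hz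
  -- the minor does not vanish at the generic solution
  have hminz : PowerSeries.coeff c₁ (dminor (upF L F) d (xS z) (psiS eb z) S) ≠ 0 := by
    rw [← hg L z]
    intro h0
    have h := hspec g h0
    have h' := hg k (bpt x₀ t : Idx n N M → k)
    rw [MvPolynomial.aeval_eq_eval, h, upF_self] at h'
    exact hminb h'.symm
  -- the factor does not vanish at the generic solution
  have hqz : ∃ b : Fin N, (b : ℕ) < i₁ ∧ z (Sum.inr (Sum.inl b)) ≠ 0 := by
    by_contra hcon
    push Not at hcon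
    have hq0 : ∀ b, z (Sum.inr (Sum.inl b)) = 0 := by
      intro b
      by_cases hb : (b : ℕ) < i₁
      · exact hcon b hb
      · exact (hfqz L z).1 hz3 b (Nat.not_lt.1 hb)
    have hoD : ∀ b, o b < δ * m + c + 1 := by
      intro b
      by_contra hb
      have h0 : eb b = 0 := by
        refine hV.ord m (eb b) (had.mem b) (PowerSeries.X_pow_dvd_iff.2 fun a ha => ?_)
        exact had.low b a (by omega)
      have := had.lead b
      rw [h0, map_zero] at this
      exact zero_ne_one this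
    obtain ⟨T, hT, hTc⟩ := count h4 h8 d c₁ (δ * m + c + 1) F (V m) eb o had hoD S z hq0
      ((hfz L z).1 hz1).1 hminz
    have hcard := htr T hT
    have hc1 : Fintype.card (Idx n N M) = (n + 1) * N + (N + (n + 1) * M) := by
      simp [Idx]
    have hc2 : (f ∪ fx ∪ fq ∪ fl).card ≤ f.card + fx.card + fq.card + fl.card := by
      have ha := Finset.card_union_le (f ∪ fx ∪ fq) fl
      have hb := Finset.card_union_le (f ∪ fx) fq
      have hc := Finset.card_union_le f fx
      omega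
    have hM : δ * m ≤ M + c := by
      rw [had.card]
      exact hV.dim m
    have hfin := arith n d δ c m₀ (mp N) m N M (δ * m + c + 1) u D' v c₁ c' s e₀ i₁ f.card
      O.card fx.card fq.card fl.card T.card hmdef hpm hM hNm rfl hu hc₁ hs hO hf hfx hfq hfl hTc
      (by omega)
    omega
  obtain ⟨b₁, hb₁, hqb⟩ := hqz
  -- descent
  obtain ⟨z₀, hz₀, hqb₀⟩ := h2 k (Idx n N M) (f ∪ fx ∪ fq ∪ fl) (X (Sum.inr (Sum.inl b₁))) L z
    hz (by simpa using hqb)
  have hz₀' : ∀ g ∈ f ∪ fx ∪ fq ∪ fl, aeval z₀ g = 0 := by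
    intro g hg
    rw [MvPolynomial.aeval_eq_eval]
    exact hz₀ g hg
  obtain ⟨hy1, hy2, hy3, hy4⟩ := (hall k z₀).1 hz₀'
  have hS1 := (hfz k z₀).1 hy1
  have hphi : ∀ i, phiS eb z₀ i ∈ V m := by
    intro i
    rw [phiS_self]
    exact sum_mem fun b _ => Submodule.smul_mem _ _ (had.mem b)
  have hev0 : eval (phiS eb z₀) F = 0 := by
    have h := hZ k z₀ hS1.1 hS1.2
    rwa [upF_self] at h
  have hqne : PowerSeries.coeff (b₁ : ℕ) (qS z₀) ≠ 0 := by
    rw [qS, PowerSeries.coeff_mk, dif_pos b₁.2]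
    simpa using hqb₀
  have hq0 : qS z₀ ≠ 0 := by
    intro h
    rw [h, map_zero] at hqne
    exact hqne rfl
  obtain ⟨r, q, hq, hqc, -, hr⟩ := exists_factor hq0
  have hrb : r ≤ b₁ := by
    by_contra hcon
    exact hqne (hr _ (Nat.not_le.1 hcon))
  have hxd := xS_dvd (n := n) (N := N) (M := M) (e₀ := e₀) (by omega) x₀ z₀ (fun i b hb => by
    have h := (hfxz k z₀).1 hy2 i b hb
    simpa using h)
  refine ⟨N, m, phiS eb z₀, r, q, hphi, hev0, hqc, fun i => ?_, fun i => ?_⟩
  · obtain ⟨ψ, B, hφ, -, -⟩ := hS1.1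
    have e1 : phiS eb z₀ i - PowerSeries.X ^ r * q * x₀ i =
        PowerSeries.X ^ r * (xS z₀ i - x₀ i) * q + PowerSeries.X ^ N * ψ i := by
      rw [hφ i, hq]
      ring
    rw [e1]
    refine dvd_add (Dvd.dvd.mul_right ?_ _) (Dvd.dvd.mul_right ?_ _)
    · rw [pow_add]
      exact mul_dvd_mul_left _ (hxd i)
    · refine pow_dvd_pow _ ?_
      omega
  · rw [ht i, phiS_self, ← Finset.sum_sub_distrib]
    have h := hΛ (fun b => z₀ (Sum.inr (Sum.inr (i, b))) - t i b) (fun l => by
      have h' := (hflz k z₀).1 hy4 i l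
      simpa using h')
    simpa [sub_smul] using h

end Pool.Agent.WL
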