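import Pool.Agent.WL.Targets

set_option autoImplicit false

/-! Taylor expansion of order one. -/

open MvPolynomial

namespace Pool.Agent.WL

theorem p_TAY : T_TAY := by
  classical
  intro ι A _ _ G u h t
  induction G using MvPolynomial.induction_on with
  | C a =>
    refine ⟨0, ?_⟩
    simp
  | add p q hp hq =>
    obtain ⟨r, hr⟩ := hp
    obtain ⟨s, hs⟩ := hq
    refine ⟨r + s, ?_⟩
    simp only [map_add, hr, hs, mul_add, Finset.sum_add_distrib]
    ring
  | mul_X p n hp =>
    obtain ⟨r, hr⟩ := hp
    have hX : ∀ i, eval u (pderiv i (X n : MvPolynomial ι A)) = if i = n then 1 else 0 := by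
      intro i
      by_cases h : i = n
      · subst h
        simp
      · rw [pderiv_X_of_ne (Ne.symm h)]
        simp [h]
    have hsum : ∑ i, h i * eval u (pderiv i (p * X n)) =
        (∑ i, h i * eval u (pderiv i p)) * u n + eval u p * h n := by
      have h1 : ∀ i, h i * eval u (pderiv i (p * X n)) =
          h i * eval u (pderiv i p) * u n + (if i = n then h n * eval u p else 0) := by
        intro i
        rw [Derivation.leibniz]
        simp only [smul_eq_mul, map_add, map_mul, hX, eval_X]
        by_cases h : i = n
        · subst h
          simp
          ring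
        · simp [h]
          ring
      simp only [h1, Finset.sum_add_distrib, ← Finset.sum_mul, Finset.sum_ite_eq', Finset.mem_univ,
        if_true]
      ring
    refine ⟨r * (u n + t * h n) + (∑ i, h i * eval u (pderiv i p)) * h n, ?_⟩
    rw [hsum]
    simp only [map_mul, eval_X, hr]
    ring

end Pool.Agent.WL
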