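import Pool.Agent.WL.WAM

/-!
# The final statements from the targets
-/

set_option autoImplicit false

open MvPolynomial WithZero Topology
open Pool.Agent.WA

namespace Pool.Agent.WL

namespace FIN_

variable {K : Type} [Field K] {n : ℕ}

theorem eval_onLine {σ A : Type} [CommRing A] (F : MvPolynomial σ A) (x w : σ → A) (t : A) :
    Polynomial.eval t (onLine F x w) = eval (fun i => x i + t * w i) F := by
  unfold onLine
  have h := MvPolynomial.eval₂_comp_left (Polynomial.evalRingHom t) (Polynomial.C : A →+* _)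
    (fun i => Polynomial.C (x i) + Polynomial.X * Polynomial.C (w i)) F
  rw [← Polynomial.coe_evalRingHom, h]
  rw [MvPolynomial.eval, coe_eval₂Hom]
  congr 1
  · ext a
    simp
  · funext i
    simp only [Function.comp_apply, Polynomial.coe_evalRingHom, Polynomial.eval_add,
      Polynomial.eval_C, Polynomial.eval_mul, Polynomial.eval_X]

theorem aeval_line {M : Type} [Field M] [Algebra K M] (F : MvPolynomial (Fin (n + 1)) K)
    (x w : Fin (n + 1) → M) :
    aeval (fun j => Polynomial.C (x j) + Polynomial.X * Polynomial.C (w j)) F =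
      onLine (F.map (algebraMap K M)) x w := by
  unfold onLine
  rw [eval₂_map, aeval_def]
  rfl

end FIN_

open FIN_ in
/-- Smooth forms with a point on which all lines are free have good points. -/
theorem good_of_point (hGOOD : T_GOOD) (K : Type) [Field K] (n d : ℕ)
    (F : MvPolynomial (Fin (n + 1)) K) (hd : 1 ≤ d) (hn : d ^ 2 ≤ n) (hF : F.IsHomogeneous d)
    (hsm : SmoothForm F) (x₀ : Fin (n + 1) → AlgebraicClosure K) (hx₀ : x₀ ≠ 0)
    (hFx : aeval x₀ F = 0) (hall : AllFree (F.map (algebraMap K (AlgebraicClosure K))) d x₀) :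
    ∃ Δ, Good K n d F Δ := by
  obtain ⟨Δ, hΔ, hgood⟩ := hGOOD K n d F hd hF (AlgebraicClosure K) x₀ hx₀ hFx hall
  refine ⟨Δ, ⟨hd, hn, hF, hsm, ?_, hgood⟩⟩
  rintro ⟨G, hG⟩
  apply hΔ
  rw [hG, map_mul, hFx, zero_mul]

open FIN_ in
/-- The theorem for forms with good points, in the form of the frozen statement. -/
theorem wa_frozen (hWA : T_WA) (hFIN : T_FIN) (k : Type) [Field k] [IsAlgClosed k]
    (K : Type) [Field K] [Algebra (RatFunc k) K] [FiniteDimensional (RatFunc k) K]
    (n d : ℕ) (F Δ : MvPolynomial (Fin (n + 1)) K) (hG : Good K n d F Δ)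
    (m : ℕ) (v : Fin m → Valuation K (WithZero (Multiplicative ℤ)))
    (hnt : ∀ j, ∃ a : K, v j a ≠ 0 ∧ v j a ≠ 1)
    (htr : ∀ j (c : k), c ≠ 0 → v j (algebraMap (RatFunc k) K (RatFunc.C c)) = 1)
    (hne : ∀ i j, i ≠ j → ¬ (v i).IsEquiv (v j))
    (x : ∀ j, Fin (n + 1) → UniformSpace.Completion (WithVal (v j)))
    (hx : ∀ j, x j ≠ 0 ∧
        MvPolynomial.eval₂
          ((UniformSpace.Completion.coeRingHom : WithVal (v j) →+* _).comp
            (WithVal.equiv (v j)).symm.toRingHom) (x j) F = 0)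
    (U : ∀ j, Set (Fin (n + 1) → UniformSpace.Completion (WithVal (v j))))
    (hU : ∀ j, IsOpen (U j) ∧ x j ∈ U j) :
    ∃ y : Fin (n + 1) → K, y ≠ 0 ∧ MvPolynomial.eval y F = 0 ∧
        ∀ j, ∃ c : UniformSpace.Completion (WithVal (v j)), c ≠ 0 ∧
          (fun i => c * ((UniformSpace.Completion.coeRingHom : WithVal (v j) →+* _).comp
            (WithVal.equiv (v j)).symm.toRingHom) (y i)) ∈ U j := by
  let _ : Algebra k K := ((algebraMap (RatFunc k) K).comp RatFunc.C).toAlgebra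
  have : IsScalarTower k (RatFunc k) K := by
    refine IsScalarTower.of_algebraMap_eq fun c => ?_
    rw [RatFunc.algebraMap_eq_C]
    rfl
  have hfun : FunField k K := hFIN k K
  refine hWA k K hfun (C1.functionField k K) n d F Δ hG m v (fun j => ⟨hnt j, fun c hc => ?_⟩) hne
    x (fun j => ⟨(hx j).1, ?_⟩) U hU
  · exact htr j c hc
  · rw [eval_map]
    exact (hx j).2

open FIN_ in
/-- The first statement. -/
theorem first (hWA : T_WA) (hFIN : T_FIN) (hGOOD : T_GOOD) (hRANK : T_RANK) (k : Type) [Field k]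
    [IsAlgClosed k] (K : Type) [Field K] [Algebra (RatFunc k) K] [FiniteDimensional (RatFunc k) K]
    (n d : ℕ) (F : MvPolynomial (Fin (n + 1)) K) (hd : 1 ≤ d) (hn : d ^ 2 ≤ n)
    (hF : F.IsHomogeneous d)
    (hsm : ∀ x : Fin (n + 1) → AlgebraicClosure K, x ≠ 0 → MvPolynomial.aeval x F = 0 →
        ∃ i, MvPolynomial.aeval x (MvPolynomial.pderiv i F) ≠ 0)
    (hfree : ∃ x₀ : Fin (n + 1) → AlgebraicClosure K, x₀ ≠ 0 ∧ aeval x₀ F = 0 ∧
      ∀ w : Fin (n + 1) → AlgebraicClosure K, (∀ c : AlgebraicClosure K, w ≠ c • x₀) →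
        (∀ t : AlgebraicClosure K, aeval (x₀ + t • w) F = 0) →
        ∀ g : Polynomial (AlgebraicClosure K), g.natDegree < d →
          ∃ u : Fin (n + 1) → AlgebraicClosure K, ∑ i, Polynomial.C (u i) *
            aeval (fun j => Polynomial.C (x₀ j) + Polynomial.X * Polynomial.C (w j))
              (pderiv i F) = g)
    (m : ℕ) (v : Fin m → Valuation K (WithZero (Multiplicative ℤ)))
    (hnt : ∀ j, ∃ a : K, v j a ≠ 0 ∧ v j a ≠ 1)
    (htr : ∀ j (c : k), c ≠ 0 → v j (algebraMap (RatFunc k) K (RatFunc.C c)) = 1)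
    (hne : ∀ i j, i ≠ j → ¬ (v i).IsEquiv (v j))
    (x : ∀ j, Fin (n + 1) → UniformSpace.Completion (WithVal (v j)))
    (hx : ∀ j, x j ≠ 0 ∧
        MvPolynomial.eval₂
          ((UniformSpace.Completion.coeRingHom : WithVal (v j) →+* _).comp
            (WithVal.equiv (v j)).symm.toRingHom) (x j) F = 0)
    (U : ∀ j, Set (Fin (n + 1) → UniformSpace.Completion (WithVal (v j))))
    (hU : ∀ j, IsOpen (U j) ∧ x j ∈ U j) :
    ∃ y : Fin (n + 1) → K, y ≠ 0 ∧ MvPolynomial.eval y F = 0 ∧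
        ∀ j, ∃ c : UniformSpace.Completion (WithVal (v j)), c ≠ 0 ∧
          (fun i => c * ((UniformSpace.Completion.coeRingHom : WithVal (v j) →+* _).comp
            (WithVal.equiv (v j)).symm.toRingHom) (y i)) ∈ U j := by
  have hsm' : SmoothForm F := smoothForm_of_algebraicClosure hsm
  obtain ⟨x₀, hx₀, hFx, hw⟩ := hfree
  have hall : AllFree (F.map (algebraMap K (AlgebraicClosure K))) d x₀ := by
    intro w hon hne'
    rw [hRANK (Fin (n + 1)) (AlgebraicClosure K) (F.map (algebraMap K (AlgebraicClosure K))) d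
      (hF.map _) hd x₀ w]
    intro g hg
    obtain ⟨u, hu⟩ := hw w hne' (by
      intro t
      have h1 := eval_onLine (F.map (algebraMap K (AlgebraicClosure K))) x₀ w t
      rw [hon, Polynomial.eval_zero, eval_map, ← aeval_def] at h1
      rw [h1]
      rfl) g hg
    refine ⟨u, ?_⟩
    rw [← hu]
    refine Finset.sum_congr rfl fun i _ => ?_
    rw [aeval_line, pderiv_map]
  obtain ⟨Δ, hG⟩ := good_of_point hGOOD K n d F hd hn hF hsm' x₀ hx₀ hFx hall
  exact wa_frozen hWA hFIN k K n d F Δ hG m v hnt htr hne x hx U hU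

open FIN_ in
/-- The second statement. -/
theorem second (hWA : T_WA) (hFIN : T_FIN) (hGOOD : T_GOOD) (hLARGE : T_LARGE) (n d : ℕ)
    (hd : 1 ≤ d) (hn : d ^ 2 ≤ n) :
    ∃ p₀ : ℕ, ∀ (p : ℕ) [Fact p.Prime], p₀ < p → ∀ (k : Type) [Field k] [IsAlgClosed k]
      [CharP k p] (K : Type) [Field K] [Algebra (RatFunc k) K] [FiniteDimensional (RatFunc k) K]
      (F : MvPolynomial (Fin (n + 1)) K), F.IsHomogeneous d →
      (∀ x : Fin (n + 1) → AlgebraicClosure K, x ≠ 0 → MvPolynomial.aeval x F = 0 →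
        ∃ i, MvPolynomial.aeval x (MvPolynomial.pderiv i F) ≠ 0) →
      ∀ (m : ℕ) (v : Fin m → Valuation K (WithZero (Multiplicative ℤ))),
      (∀ j, ∃ a : K, v j a ≠ 0 ∧ v j a ≠ 1) →
      (∀ j (c : k), c ≠ 0 → v j (algebraMap (RatFunc k) K (RatFunc.C c)) = 1) →
      (∀ i j, i ≠ j → ¬ (v i).IsEquiv (v j)) →
      ∀ (x : ∀ j, Fin (n + 1) → UniformSpace.Completion (WithVal (v j))),
      (∀ j, x j ≠ 0 ∧
        MvPolynomial.eval₂
          ((UniformSpace.Completion.coeRingHom : WithVal (v j) →+* _).comp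
            (WithVal.equiv (v j)).symm.toRingHom) (x j) F = 0) →
      ∀ (U : ∀ j, Set (Fin (n + 1) → UniformSpace.Completion (WithVal (v j)))),
      (∀ j, IsOpen (U j) ∧ x j ∈ U j) →
      ∃ y : Fin (n + 1) → K, y ≠ 0 ∧ MvPolynomial.eval y F = 0 ∧
        ∀ j, ∃ c : UniformSpace.Completion (WithVal (v j)), c ≠ 0 ∧
          (fun i => c * ((UniformSpace.Completion.coeRingHom : WithVal (v j) →+* _).comp
            (WithVal.equiv (v j)).symm.toRingHom) (y i)) ∈ U j := by
  have hn' : d = 1 ∨ 2 ≤ n := by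
    rcases Nat.lt_or_ge 1 d with h | h
    · right; nlinarith
    · left; omega
  obtain ⟨p₀, hp₀⟩ := hLARGE n d ((Nat.one_le_pow _ _ hd).trans hn) hd hn'
  refine ⟨p₀, ?_⟩
  intro p _ hp k _ _ _ K _ _ _ F hF hsm m v hnt htr hne x hx U hU
  have hsm' : SmoothForm F := smoothForm_of_algebraicClosure hsm
  have hch : CharP (AlgebraicClosure K) p := by
    have h1 : CharP (RatFunc k) p := inferInstance
    have h2 : CharP K p := charP_of_injective_algebraMap (algebraMap (RatFunc k) K).injective p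
    exact charP_of_injective_algebraMap (algebraMap K (AlgebraicClosure K)).injective p
  obtain ⟨x₀, hx₀, hFx, hall⟩ := hp₀ p hp (AlgebraicClosure K)
    (F.map (algebraMap K (AlgebraicClosure K))) (hF.map _) hsm'.map
  rw [eval_map, ← aeval_def] at hFx
  obtain ⟨Δ, hG⟩ := good_of_point hGOOD K n d F hd hn hF hsm' x₀ hx₀ hFx hall
  exact wa_frozen hWA hFIN k K n d F Δ hG m v hnt htr hne x hx U hU

end Pool.Agent.WL
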