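import Pool.Agent.WL.Targets3
import Pool.Agent.WL.FIN

/-!
# The final statements from the targets, part 2
-/

set_option autoImplicit false

open MvPolynomial WithZero Topology
open Pool.Agent.WA

namespace Pool.Agent.WL

namespace FIN2_

/-- Weak approximation for one form, in the notation of the targets. -/
def WAOne (k K : Type) [Field k] [Field K] [Algebra k K] (n : ℕ)
    (F : MvPolynomial (Fin (n + 1)) K) : Prop :=
  ∀ (m : ℕ) (v : Fin m → Valuation K ℤᵐ⁰), (∀ j, PlaceOf k (v j)) →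
  (∀ i j, i ≠ j → ¬ (v i).IsEquiv (v j)) → ∀ (x : ∀ j, Fin (n + 1) → Compl (v j)),
  (∀ j, x j ≠ 0 ∧ eval (x j) (FE (v j) F) = 0) →
  ∀ (U : ∀ j, Set (Fin (n + 1) → Compl (v j))), (∀ j, IsOpen (U j) ∧ x j ∈ U j) →
  ∃ y : Fin (n + 1) → K, y ≠ 0 ∧ eval y F = 0 ∧
    ∀ j, ∃ c : Compl (v j), c ≠ 0 ∧ (fun i => c * emb (v j) (y i)) ∈ U j

theorem waOne_of_good (hWA : T_WA) (k K : Type) [Field k] [IsAlgClosed k] [Field K] [Algebra k K]
    (hfun : FunField k K) (hC1 : C1 K) (n d : ℕ) (F Δ : MvPolynomial (Fin (n + 1)) K)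
    (hG : Good K n d F Δ) : WAOne k K n F :=
  hWA k K hfun hC1 n d F Δ hG

end FIN2_

open FIN2_ in
/-- From the notation of the targets to the form of the frozen statement. -/
theorem frozen_of_one (k : Type) [Field k] [IsAlgClosed k]
    (K : Type) [Field K] [Algebra (RatFunc k) K] [FiniteDimensional (RatFunc k) K]
    (n : ℕ) (F : MvPolynomial (Fin (n + 1)) K)
    (hone : ∀ [Algebra k K] [IsScalarTower k (RatFunc k) K], WAOne k K n F)
    (m : ℕ) (v : Fin m → Valuation K (WithZero (Multiplicative ℤ)))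
    (hnt : ∀ j, ∃ a : K, v j a ≠ 0 ∧ v j a ≠ 1)
    (htr : ∀ j (c : k), c ≠ 0 → v j (algebraMap (RatFunc k) K (RatFunc.C c)) = 1)
    (hne : ∀ i j, i ≠ j → ¬ (v i).IsEquiv (v j))
    (x : ∀ j, Fin (n + 1) → UniformSpace.Completion (WithVal (v j)))
    (hx : ∀ j, x j ≠ 0 ∧
        MvPolynomial.eval₂
          ((UniformSpace.Completion.coeRingHom : WithVal (v j) →+* _).comp
            (WithVal.equiv (v j)).symm.toRingHom) (x j) F = 0)
    (U : ∀ j, Set (Fin (n + 1) → UniformSpace.Completion (WithVal (v j))))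
    (hU : ∀ j, IsOpen (U j) ∧ x j ∈ U j) :
    ∃ y : Fin (n + 1) → K, y ≠ 0 ∧ MvPolynomial.eval y F = 0 ∧
        ∀ j, ∃ c : UniformSpace.Completion (WithVal (v j)), c ≠ 0 ∧
          (fun i => c * ((UniformSpace.Completion.coeRingHom : WithVal (v j) →+* _).comp
            (WithVal.equiv (v j)).symm.toRingHom) (y i)) ∈ U j := by
  let _ : Algebra k K := ((algebraMap (RatFunc k) K).comp RatFunc.C).toAlgebra
  have : IsScalarTower k (RatFunc k) K := by
    refine IsScalarTower.of_algebraMap_eq fun c => ?_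
    rw [RatFunc.algebraMap_eq_C]
    rfl
  refine hone m v (fun j => ⟨hnt j, fun c hc => ?_⟩) hne x (fun j => ⟨(hx j).1, ?_⟩) U hU
  · exact htr j c hc
  · rw [eval_map]
    exact (hx j).2

open FIN2_ in
/-- The second statement: all dimensions. -/
theorem second' (hWA : T_WA) (hFIN : T_FIN) (hGOOD : T_GOOD) (hLARGE : T_LARGE) (hRED : T_RED)
    (hONE : T_ONE) (d : ℕ) (hd : 1 ≤ d) :
    ∃ p₀ : ℕ, ∀ (p : ℕ) [Fact p.Prime], p₀ < p → ∀ (k : Type) [Field k] [IsAlgClosed k]
      [CharP k p] (K : Type) [Field K] [Algebra (RatFunc k) K] [FiniteDimensional (RatFunc k) K]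
      (n : ℕ), d ^ 2 ≤ n → ∀ F : MvPolynomial (Fin (n + 1)) K, F.IsHomogeneous d →
      (∀ x : Fin (n + 1) → AlgebraicClosure K, x ≠ 0 → MvPolynomial.aeval x F = 0 →
        ∃ i, MvPolynomial.aeval x (MvPolynomial.pderiv i F) ≠ 0) →
      ∀ (m : ℕ) (v : Fin m → Valuation K (WithZero (Multiplicative ℤ))),
      (∀ j, ∃ a : K, v j a ≠ 0 ∧ v j a ≠ 1) →
      (∀ j (c : k), c ≠ 0 → v j (algebraMap (RatFunc k) K (RatFunc.C c)) = 1) →
      (∀ i j, i ≠ j → ¬ (v i).IsEquiv (v j)) →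
      ∀ (x : ∀ j, Fin (n + 1) → UniformSpace.Completion (WithVal (v j))),
      (∀ j, x j ≠ 0 ∧
        MvPolynomial.eval₂
          ((UniformSpace.Completion.coeRingHom : WithVal (v j) →+* _).comp
            (WithVal.equiv (v j)).symm.toRingHom) (x j) F = 0) →
      ∀ (U : ∀ j, Set (Fin (n + 1) → UniformSpace.Completion (WithVal (v j)))),
      (∀ j, IsOpen (U j) ∧ x j ∈ U j) →
      ∃ y : Fin (n + 1) → K, y ≠ 0 ∧ MvPolynomial.eval y F = 0 ∧
        ∀ j, ∃ c : UniformSpace.Completion (WithVal (v j)), c ≠ 0 ∧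
          (fun i => c * ((UniformSpace.Completion.coeRingHom : WithVal (v j) →+* _).comp
            (WithVal.equiv (v j)).symm.toRingHom) (y i)) ∈ U j := by
  have hn' : d = 1 ∨ 2 ≤ d ^ 2 := by
    rcases Nat.lt_or_ge 1 d with h | h
    · right; nlinarith
    · left; omega
  obtain ⟨p₀, hp₀⟩ := hLARGE (d ^ 2) d (Nat.one_le_pow _ _ hd) hd hn'
  refine ⟨p₀, ?_⟩
  intro p _ hp k _ _ _ K _ _ _ n hn F hF hsm m v hnt htr hne x hx U hU
  have hsm' : SmoothForm F := smoothForm_of_algebraicClosure hsm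
  have hch : CharP (AlgebraicClosure K) p := by
    have h1 : CharP (RatFunc k) p := inferInstance
    have h2 : CharP K p := charP_of_injective_algebraMap (algebraMap (RatFunc k) K).injective p
    exact charP_of_injective_algebraMap (algebraMap K (AlgebraicClosure K)).injective p
  refine frozen_of_one k K n F ?_ m v hnt htr hne x hx U hU
  intro _ _
  have hfun : FunField k K := hFIN k K
  have hC1 : C1 K := C1.functionField k K
  rcases eq_or_lt_of_le hd with h1 | h2
  · -- linear forms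
    subst h1
    exact waOne_of_good hWA k K hfun hC1 n 1 F 1 (hONE K n F (by simpa using hn) hF hsm')
  · -- the base case
    have hbase : WAll k K (d ^ 2) d := by
      intro G hG hGs
      obtain ⟨x₀, hx₀, hFx, hall⟩ := hp₀ p hp (AlgebraicClosure K)
        (G.map (algebraMap K (AlgebraicClosure K))) (hG.map _) hGs.map
      rw [eval_map, ← aeval_def] at hFx
      obtain ⟨Δ, hΔ⟩ := good_of_point hGOOD K (d ^ 2) d G hd le_rfl hG hGs x₀ hx₀ hFx hall
      exact waOne_of_good hWA k K hfun hC1 (d ^ 2) d G Δ hΔ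
    have hall : ∀ t, WAll k K (d ^ 2 + t) d := by
      intro t
      induction t with
      | zero => exact hbase
      | succ t ih => exact hRED k K (d ^ 2 + t) d h2 (by nlinarith) ih
    obtain ⟨t, rfl⟩ := Nat.exists_eq_add_of_le hn
    exact hall t F hF hsm'

namespace FIN2_

theorem finite_mon (n d : ℕ) : Finite (Mon n d) := by
  have h1 : (Set.univ : Set (Mon n d)).Finite := by
    refine Set.Finite.of_finite_image (f := Subtype.val) ?_ Subtype.val_injective.injOn
    refine ((Finset.univ : Finset (Fin (n + 1))).finsuppAntidiag d).finite_toSet.subset ?_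
    rintro _ ⟨μ, -, rfl⟩
    simp only [Finset.mem_coe, Finset.mem_finsuppAntidiag, Finset.subset_univ, and_true]
    exact μ.2
  exact Set.finite_univ_iff.mp h1

theorem one_le_of_sq {n d : ℕ} (hd : 1 ≤ d) (hn : d ^ 2 ≤ n) : 1 ≤ n :=
  (Nat.one_le_pow _ _ hd).trans hn

/-- The form with given coefficients. -/
theorem exists_form {M : Type} [Field M] (n d : ℕ) (a : Mon n d → M) :
    ∃ G : MvPolynomial (Fin (n + 1)) M, G.IsHomogeneous d ∧ ∀ μ : Mon n d, G.coeff μ.1 = a μ := by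
  classical
  have := finite_mon n d
  let _ : Fintype (Mon n d) := Fintype.ofFinite _
  refine ⟨∑ μ : Mon n d, monomial μ.1 (a μ), ?_, ?_⟩
  · refine IsHomogeneous.sum _ _ _ fun μ _ => ?_
    refine isHomogeneous_monomial _ ?_
    rw [Finsupp.degree_eq_sum]
    exact μ.2
  · intro μ
    simp only [coeff_sum, coeff_monomial]
    rw [Finset.sum_eq_single μ]
    · simp
    · intro b _ hb
      rw [if_neg]
      intro h
      exact hb (Subtype.ext h)
    · intro h
      exact absurd (Finset.mem_univ μ) h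

/-- A field with algebraically independent elements. -/
theorem exists_indep (k₀ : Type) [Field k₀] (ι : Type) : ∃ (M : Type) (_ : Field M)
    (_ : IsAlgClosed M) (_ : Algebra k₀ M) (a : ι → M), AlgebraicIndependent k₀ a := by
  refine ⟨AlgebraicClosure (FractionRing (MvPolynomial ι k₀)), inferInstance, inferInstance,
    inferInstance, fun μ => algebraMap (MvPolynomial ι k₀) _ (X μ), ?_⟩
  have hinj : Function.Injective (algebraMap (MvPolynomial ι k₀)
      (AlgebraicClosure (FractionRing (MvPolynomial ι k₀)))) := by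
    rw [IsScalarTower.algebraMap_eq (MvPolynomial ι k₀) (FractionRing (MvPolynomial ι k₀)) _]
    exact (algebraMap (FractionRing (MvPolynomial ι k₀))
      (AlgebraicClosure (FractionRing (MvPolynomial ι k₀)))).injective.comp
        (IsFractionRing.injective (MvPolynomial ι k₀) (FractionRing (MvPolynomial ι k₀)))
  have h2 : AlgebraicIndependent k₀ (X : ι → MvPolynomial ι k₀) := algebraicIndependent_X _ _
  exact h2.map' (f := IsScalarTower.toAlgHom k₀ (MvPolynomial ι k₀) _) hinj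

/-- Substitution of a form. -/
theorem eval_subst {k₀ K M' : Type} [Field k₀] [Field K] [Field M'] (n d : ℕ) (φ : k₀ →+* K)
    (ψ : K →+* M') (F : MvPolynomial (Fin (n + 1)) K) (x' : Fin (n + 1) → M')
    (Δ : MvPolynomial (Mon n d ⊕ Fin (n + 1)) k₀) :
    eval₂ ψ x' (eval₂ (C.comp φ) (Sum.elim (fun μ : Mon n d => C (F.coeff μ.1)) X) Δ) =
      eval₂ (ψ.comp φ) (Sum.elim (fun μ : Mon n d => (F.map ψ).coeff μ.1) x') Δ := by
  have h3 := MvPolynomial.eval₂_comp_left (eval₂Hom ψ x') (C.comp φ)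
    (Sum.elim (fun μ : Mon n d => C (F.coeff μ.1)) X) Δ
  have h4 : eval₂ ψ x' (eval₂ (C.comp φ) (Sum.elim (fun μ : Mon n d => C (F.coeff μ.1)) X) Δ) =
      eval₂Hom ψ x' (eval₂ (C.comp φ) (Sum.elim (fun μ : Mon n d => C (F.coeff μ.1)) X) Δ) := rfl
  rw [h4, h3]
  congr 1
  · ext c
    simp
  · funext i
    rcases i with μ | i
    · simp [coeff_map]
    · simp

/-- Most forms are good. -/
theorem exists_good (hGPT : T_GPT) (hUNI : T_UNI) (hDIVR : T_DIVR) (k₀ : Type) [Field k₀]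
    (n d : ℕ) (hd : 1 ≤ d) (hn : d ^ 2 ≤ n) :
    ∃ ρ : MvPolynomial (Mon n d) k₀, ρ ≠ 0 ∧ ∀ (K : Type) [Field K] (φ : k₀ →+* K)
      (F : MvPolynomial (Fin (n + 1)) K), F.IsHomogeneous d → SmoothForm F →
      eval₂ φ (fun μ => F.coeff μ.1) ρ ≠ 0 → ∃ Δ, Good K n d F Δ := by
  obtain ⟨M, _, _, _, a, ha⟩ := exists_indep k₀ (Mon n d)
  obtain ⟨G, hGhom, hGc⟩ := exists_form n d a
  have hind : AlgebraicIndependent k₀ (fun μ : Mon n d => G.coeff μ.1) := by
    have h1 : (fun μ : Mon n d => G.coeff μ.1) = a := funext hGc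
    rw [h1]
    exact ha
  obtain ⟨x₀, hx₀, hGx, hall⟩ := hGPT k₀ n d M G hd (one_le_of_sq hd hn) hGhom hind
  obtain ⟨Δ, hΔ, hgood⟩ := hUNI k₀ n d M G hd hGhom x₀ hx₀ hGx hall
  obtain ⟨ρ, hρ, hρ'⟩ := hDIVR k₀ n d M G x₀ Δ hd hGhom hind hGx hΔ
  refine ⟨ρ, hρ, fun K _ φ F hF hsm hgen => ?_⟩
  have h1 := hρ' K φ F hF hgen
  have h2 : ∀ (M' : Type) [Field M'] (ψ : K →+* M') (x' : Fin (n + 1) → M'),
      eval₂ ψ x' (eval₂ (C.comp φ) (Sum.elim (fun μ : Mon n d => C (F.coeff μ.1)) X) Δ) ≠ 0 →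
      AllFree (F.map ψ) d x' := by
    intro M' _ ψ x' hx'
    rw [eval_subst] at hx'
    exact hgood M' (ψ.comp φ) (F.map ψ) x' (hF.map _) hx'
  exact ⟨_, ⟨hd, hn, hF, hsm, h1, h2⟩⟩

end FIN2_

open FIN2_ in
/-- The third statement: most forms, in every characteristic. -/
theorem third (hWA : T_WA) (hFIN : T_FIN) (hGPT : T_GPT) (hUNI : T_UNI) (hDIVR : T_DIVR) (n d : ℕ)
    (hd : 1 ≤ d) (hn : d ^ 2 ≤ n) (p : ℕ) [Fact p.Prime] :
    ∃ Δ : MvPolynomial {μ : Fin (n + 1) →₀ ℕ // ∑ i, μ i = d} (ZMod p), Δ ≠ 0 ∧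
      ∀ (k : Type) [Field k] [IsAlgClosed k]
      [CharP k p] (K : Type) [Field K] [Algebra (RatFunc k) K] [FiniteDimensional (RatFunc k) K]
      (F : MvPolynomial (Fin (n + 1)) K), F.IsHomogeneous d →
      (∀ x : Fin (n + 1) → AlgebraicClosure K, x ≠ 0 → MvPolynomial.aeval x F = 0 →
        ∃ i, MvPolynomial.aeval x (MvPolynomial.pderiv i F) ≠ 0) →
      (∀ φ : ZMod p →+* K, MvPolynomial.eval₂ φ (fun μ => F.coeff μ.1) Δ ≠ 0) →
      ∀ (m : ℕ) (v : Fin m → Valuation K (WithZero (Multiplicative ℤ))),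
      (∀ j, ∃ a : K, v j a ≠ 0 ∧ v j a ≠ 1) →
      (∀ j (c : k), c ≠ 0 → v j (algebraMap (RatFunc k) K (RatFunc.C c)) = 1) →
      (∀ i j, i ≠ j → ¬ (v i).IsEquiv (v j)) →
      ∀ (x : ∀ j, Fin (n + 1) → UniformSpace.Completion (WithVal (v j))),
      (∀ j, x j ≠ 0 ∧
        MvPolynomial.eval₂
          ((UniformSpace.Completion.coeRingHom : WithVal (v j) →+* _).comp
            (WithVal.equiv (v j)).symm.toRingHom) (x j) F = 0) →
      ∀ (U : ∀ j, Set (Fin (n + 1) → UniformSpace.Completion (WithVal (v j)))),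
      (∀ j, IsOpen (U j) ∧ x j ∈ U j) →
      ∃ y : Fin (n + 1) → K, y ≠ 0 ∧ MvPolynomial.eval y F = 0 ∧
        ∀ j, ∃ c : UniformSpace.Completion (WithVal (v j)), c ≠ 0 ∧
          (fun i => c * ((UniformSpace.Completion.coeRingHom : WithVal (v j) →+* _).comp
            (WithVal.equiv (v j)).symm.toRingHom) (y i)) ∈ U j := by
  obtain ⟨ρ, hρ, hgood⟩ := exists_good hGPT hUNI hDIVR (ZMod p) n d hd hn
  refine ⟨ρ, hρ, ?_⟩
  intro k _ _ _ K _ _ _ F hF hsm hgen m v hnt htr hne x hx U hU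
  have hsm' : SmoothForm F := smoothForm_of_algebraicClosure hsm
  have hchK : CharP K p := by
    have h1 : CharP (RatFunc k) p := inferInstance
    exact charP_of_injective_algebraMap (algebraMap (RatFunc k) K).injective p
  refine frozen_of_one k K n F ?_ m v hnt htr hne x hx U hU
  intro _ _
  have hfun : FunField k K := hFIN k K
  have hC1 : C1 K := C1.functionField k K
  obtain ⟨Δ, hΔ⟩ := hgood K (ZMod.castHom (dvd_refl p) K) F hF hsm' (hgen _)
  exact waOne_of_good hWA k K hfun hC1 n d F Δ hΔ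

end Pool.Agent.WL
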