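import Pool.Agent.WL.Targets3

/-!
# ONE: smooth linear forms
-/

set_option autoImplicit false

open MvPolynomial
open Pool.Agent.WA

namespace Pool.Agent.WL

namespace ONE_

theorem pderiv_const {K : Type} [Field K] {n : ℕ} (F : MvPolynomial (Fin (n + 1)) K)
    (h : F.IsHomogeneous 1) (i : Fin (n + 1)) : ∃ a : K, pderiv i F = C a := by
  have h1 : (pderiv i F).IsHomogeneous 0 := by simpa using h.pderiv (i := i)
  have h2 : (pderiv i F).totalDegree = 0 := by
    by_cases h0 : pderiv i F = 0
    · rw [h0, totalDegree_zero]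
    · exact h1.totalDegree h0
  exact ⟨_, totalDegree_eq_zero_iff_eq_C.mp h2⟩

theorem exists_ne {K : Type} [Field K] {n : ℕ} (F : MvPolynomial (Fin (n + 1)) K)
    (h : F.IsHomogeneous 1) (hs : SmoothForm F) : ∃ i : Fin (n + 1), pderiv i F ≠ 0 := by
  by_contra hcon
  push Not at hcon
  have h1 := h.sum_X_mul_pderiv
  simp only [hcon, mul_zero, Finset.sum_const_zero, one_smul] at h1
  have h2 := hs K (fun _ => (1 : K)) (by rw [← h1]; simp) (fun i => by rw [hcon i]; simp)
  have h3 := congrFun h2 0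
  simp at h3

end ONE_

open ONE_ in
theorem p_ONE : T_ONE := by
  intro K _ n F hn h hs
  obtain ⟨i, hi⟩ := exists_ne F h hs
  obtain ⟨a, ha⟩ := pderiv_const F h i
  have ha0 : a ≠ 0 := by
    rintro rfl
    rw [ha, C_0] at hi
    exact hi rfl
  refine ⟨le_rfl, by simpa using hn, h, hs, ?_, ?_⟩
  · intro hdvd
    have hu : IsUnit F := isUnit_of_dvd_one hdvd
    have h3 : F.totalDegree = 1 := by
      apply h.totalDegree
      rintro rfl
      simp at hi
    obtain ⟨r, hr, hr'⟩ := (MvPolynomial.isUnit_iff_eq_C_of_isReduced).mp hu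
    rw [hr', totalDegree_C] at h3
    exact absurd h3 (by norm_num)
  · intro M _ φ x _ w _ _
    refine ⟨fun _ => i, ?_⟩
    unfold dminor
    rw [Matrix.det_unique]
    simp only [Matrix.submatrix_apply, id, dmat]
    rw [pderiv_map, ha, map_C]
    unfold onLine
    rw [eval₂_C]
    simp only [Fin.default_eq_zero, Fin.coe_ofNat_eq_mod, Nat.zero_mod, Polynomial.coeff_C_zero]
    intro h4
    exact ha0 ((map_eq_zero φ).mp h4)

end Pool.Agent.WL
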