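import Pool.Agent.WL.Targets2

set_option autoImplicit false

open MvPolynomial

namespace Pool.Agent.WL

namespace GENF_

section Alg

variable {M : Type} [Field M] [IsAlgClosed M]

/-- A space of polynomials closed under division by the variable and without common roots. -/
lemma full (W : Submodule M (Polynomial M)) (hcl : ∀ f, Polynomial.X * f ∈ W → f ∈ W)
    (hroot : ∀ t : M, t ≠ 0 → ∃ f ∈ W, f.eval t ≠ 0) (m : ℕ) (f₀ : Polynomial M) (hf₀ : f₀ ∈ W)
    (hm : f₀.natDegree = m) (hf0 : f₀ ≠ 0) :
    ∀ g : Polynomial M, g.natDegree ≤ m → g ∈ W := by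
  classical
  -- an element of least degree
  have hex : ∃ n, ∃ g ∈ W, g ≠ 0 ∧ g.natDegree = n := ⟨m, f₀, hf₀, hf0, hm⟩
  obtain ⟨g, hgW, hg0, hgn⟩ := Nat.find_spec hex
  have hmin : ∀ f ∈ W, f ≠ 0 → g.natDegree ≤ f.natDegree := by
    intro f hf hf'
    rw [hgn]
    exact Nat.find_min' hex ⟨f, hf, hf', rfl⟩
  have hgc : g.coeff 0 ≠ 0 := by
    intro h0
    obtain ⟨g', hg'⟩ := Polynomial.X_dvd_iff.2 h0
    have h1 : g' ∈ W := hcl g' (by rw [← hg']; exact hgW)
    have h2 : g' ≠ 0 := by
      rintro rfl
      exact hg0 (by rw [hg', mul_zero])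
    have h3 := hmin g' h1 h2
    rw [hg', Polynomial.natDegree_X_mul h2] at h3
    omega
  have hdvd : ∀ n, ∀ f ∈ W, f.natDegree ≤ n → g ∣ f := by
    intro n
    induction n using Nat.strong_induction_on with
    | _ n ih =>
      intro f hf hfn
      set c : M := f.coeff 0 / g.coeff 0 with hc
      have h1 : f - c • g ∈ W := W.sub_mem hf (W.smul_mem _ hgW)
      have h2 : (f - c • g).coeff 0 = 0 := by
        rw [Polynomial.coeff_sub, Polynomial.coeff_smul, smul_eq_mul, hc]
        field_simp
        ring
      obtain ⟨f', hf'⟩ := Polynomial.X_dvd_iff.2 h2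
      have h3 : f' ∈ W := hcl f' (by rw [← hf']; exact h1)
      have h4 : f = Polynomial.X * f' + c • g := by rw [← hf']; ring
      have h6 : g ∣ f' := by
        by_cases h5 : f' = 0
        · rw [h5]; exact dvd_zero _
        · have h7 := hmin f' h3 h5
          have h8 : (f - c • g).natDegree = f'.natDegree + 1 := by
            rw [hf', Polynomial.natDegree_X_mul h5]
          have h9 : (f - c • g).natDegree ≤ max f.natDegree g.natDegree := by
            refine (Polynomial.natDegree_sub_le _ _).trans ?_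
            exact max_le_max le_rfl (Polynomial.natDegree_smul_le _ _)
          have h10 : f'.natDegree < n := by
            rcases le_max_iff.1 h9 with h | h <;> omega
          exact ih f'.natDegree h10 f' h3 le_rfl
      rw [h4]
      refine dvd_add (h6.mul_left _) ?_
      rw [Polynomial.smul_eq_C_mul]
      exact Dvd.intro_left _ rfl
  have hdeg : g.degree = 0 := by
    by_contra h0
    obtain ⟨t, ht⟩ := IsAlgClosed.exists_root g h0
    have ht0 : t ≠ 0 := by
      rintro rfl
      rw [Polynomial.IsRoot, ← Polynomial.coeff_zero_eq_eval_zero] at ht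
      exact hgc ht
    obtain ⟨f, hf, hft⟩ := hroot t ht0
    obtain ⟨q, rfl⟩ := hdvd f.natDegree f hf le_rfl
    apply hft
    rw [Polynomial.eval_mul, ht.eq_zero, zero_mul]
  have hone : (1 : Polynomial M) ∈ W := by
    have h1 := Polynomial.eq_C_of_degree_eq_zero hdeg
    have h2 : (1 : Polynomial M) = (g.coeff 0)⁻¹ • g := by
      conv_rhs => rw [h1]
      rw [Polynomial.smul_C, smul_eq_mul, Polynomial.coeff_C_zero, inv_mul_cancel₀ hgc, map_one]
    rw [h2]
    exact W.smul_mem _ hgW
  have hC : ∀ a : M, Polynomial.C a ∈ W := by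
    intro a
    rw [← mul_one (Polynomial.C a), ← Polynomial.smul_eq_C_mul]
    exact W.smul_mem _ hone
  have hdiv : ∀ f ∈ W, f.divX ∈ W := by
    intro f hf
    apply hcl
    have h1 := Polynomial.X_mul_divX_add f
    have h2 : Polynomial.X * f.divX = f - Polynomial.C (f.coeff 0) := by
      rw [eq_sub_iff_add_eq]
      exact h1
    rw [h2]
    exact W.sub_mem hf (hC _)
  -- all polynomials of smaller degree
  have key : ∀ m, ∀ f ∈ W, f.natDegree = m → f ≠ 0 → ∀ h : Polynomial M, h.natDegree ≤ m →
      h ∈ W := by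
    intro m
    induction m with
    | zero =>
      intro f hf hfm hf0 h hh
      rw [Polynomial.eq_C_of_natDegree_le_zero hh]
      exact hC _
    | succ m ih =>
      intro f hf hfm hf0 h hh
      have h1 : f.divX.natDegree = m := by
        rw [Polynomial.natDegree_divX_eq_natDegree_tsub_one, hfm]
        rfl
      have h2 : f.divX ≠ 0 := by
        intro h0
        have := Polynomial.divX_eq_zero_iff.1 h0
        rw [this, Polynomial.natDegree_C] at hfm
        omega
      have h3 := ih f.divX (hdiv f hf) h1 h2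
      have h4 : f.leadingCoeff ≠ 0 := Polynomial.leadingCoeff_ne_zero.2 hf0
      have h5 : h = (h - (h.coeff (m + 1) / f.leadingCoeff) • f) +
        (h.coeff (m + 1) / f.leadingCoeff) • f := by ring
      rw [h5]
      refine W.add_mem (h3 _ ?_) (W.smul_mem _ hf)
      have h6 : (h - (h.coeff (m + 1) / f.leadingCoeff) • f).natDegree ≤ m + 1 := by
        refine (Polynomial.natDegree_sub_le _ _).trans ?_
        refine max_le hh ((Polynomial.natDegree_smul_le _ _).trans ?_)
        rw [hfm]
      rw [Polynomial.natDegree_le_iff_coeff_eq_zero] at h6 ⊢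
      intro N hN
      rcases Nat.lt_or_ge (m + 1) N with h7 | h7
      · exact h6 N h7
      · have h8 : N = m + 1 := by omega
        rw [h8, Polynomial.coeff_sub, Polynomial.coeff_smul, smul_eq_mul]
        have h9 : f.coeff (m + 1) = f.leadingCoeff := by rw [Polynomial.leadingCoeff, hfm]
        rw [h9]
        field_simp
        ring
  exact key m f₀ hf₀ hm hf0

end Alg

section Der

variable {k M σ : Type} [Field k] [Field M] [Algebra k M] [Fintype σ]

/-- the derivation of polynomials with values `v` at the point `ξ` -/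
noncomputable def d1 (ξ v : σ → M) (p : MvPolynomial σ k) : M :=
  ∑ i, v i * aeval ξ (pderiv i p)

lemma d1_add (ξ v : σ → M) (p q : MvPolynomial σ k) : d1 ξ v (p + q) = d1 ξ v p + d1 ξ v q := by
  unfold d1
  rw [← Finset.sum_add_distrib]
  refine Finset.sum_congr rfl fun i _ => ?_
  rw [map_add, map_add]
  ring

lemma d1_mul (ξ v : σ → M) (p q : MvPolynomial σ k) :
    d1 ξ v (p * q) = aeval ξ p * d1 ξ v q + aeval ξ q * d1 ξ v p := by
  unfold d1
  rw [Finset.mul_sum, Finset.mul_sum, ← Finset.sum_add_distrib]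
  refine Finset.sum_congr rfl fun i _ => ?_
  rw [pderiv_mul, map_add, map_mul, map_mul]
  ring

lemma d1_C (ξ v : σ → M) (a : k) : d1 ξ v (C a : MvPolynomial σ k) = 0 := by
  unfold d1
  refine Finset.sum_eq_zero fun i _ => ?_
  rw [pderiv_C, map_zero, mul_zero]

lemma d1_X (ξ v : σ → M) (i : σ) : d1 ξ v (X i : MvPolynomial σ k) = v i := by
  classical
  unfold d1
  rw [Finset.sum_eq_single i]
  · rw [pderiv_X_self, map_one, mul_one]
  · intro j _ hj
    rw [pderiv_X_of_ne hj.symm, map_zero, mul_zero]
  · intro h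
    exact absurd (Finset.mem_univ _) h

lemma d1_wd (F : MvPolynomial σ k) (ξ v : σ → M) (hF : ∀ g, aeval ξ g = 0 → F ∣ g)
    (hF0 : aeval ξ F = 0) (hv : d1 ξ v F = 0) (p q : MvPolynomial σ k)
    (hpq : aeval ξ p = aeval ξ q) : d1 ξ v p = d1 ξ v q := by
  obtain ⟨r, hr⟩ := hF (p - q) (by rw [map_sub, hpq, sub_self])
  have h1 : p = F * r + q := by rw [← hr]; ring
  rw [h1, d1_add, d1_mul, hF0, hv]
  ring

open scoped IntermediateField.algebraAdjoinAdjoin in
open TensorProduct in
/-- derivations with given values at a generic point -/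
lemma exists_der [CharZero k] (F : MvPolynomial σ k) (ξ v : σ → M)
    (hF : ∀ g, aeval ξ g = 0 → F ∣ g) (hF0 : aeval ξ F = 0) (hv : d1 ξ v F = 0)
    (halg : Algebra.IsAlgebraic (IntermediateField.adjoin k (Set.range ξ)) M) :
    ∃ D : Derivation k M M, ∀ i, D (ξ i) = v i := by
  classical
  let S := Algebra.adjoin k (Set.range ξ)
  let L := IntermediateField.adjoin k (Set.range ξ)
  have hsurj : ∀ s : S, ∃ p : MvPolynomial σ k, aeval ξ p = (s : M) := by
    rintro ⟨s, hs⟩
    have h2 : s ∈ Algebra.adjoin k (Set.range ξ) := hs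
    rw [Algebra.adjoin_range_eq_range_aeval] at h2
    obtain ⟨p, hp⟩ := h2
    exact ⟨p, hp⟩
  choose lf hlf using hsurj
  have wd := d1_wd F ξ v hF hF0 hv
  let l0 : S →ₗ[k] M :=
    { toFun := fun s => d1 ξ v (lf s)
      map_add' := fun s t => by
        rw [← d1_add]
        apply wd
        rw [hlf, map_add, hlf, hlf]
        rfl
      map_smul' := fun c s => by
        have h1 : d1 ξ v (lf (c • s)) = d1 ξ v (C c * lf s) := by
          apply wd
          rw [hlf, map_mul, hlf, aeval_C]
          rw [← Algebra.smul_def]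
          rfl
        rw [h1, d1_mul, d1_C, aeval_C, mul_zero, add_zero, ← Algebra.smul_def]
        rfl }
  let D0 : Derivation k S M := Derivation.mk' l0 (fun s t => by
    change d1 ξ v (lf (s * t)) = s • d1 ξ v (lf t) + t • d1 ξ v (lf s)
    have h1 : d1 ξ v (lf (s * t)) = d1 ξ v (lf s * lf t) := by
      apply wd
      rw [hlf, map_mul, hlf, hlf]
      rfl
    rw [h1, d1_mul, hlf, hlf]
    rfl)
  have hD0 : ∀ p : MvPolynomial σ k, ∀ s : S, aeval ξ p = (s : M) → D0 s = d1 ξ v p := by
    intro p s hs
    change d1 ξ v (lf s) = _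
    apply wd
    rw [hlf, hs]
  have : CharZero L := charZero_of_injective_algebraMap (algebraMap k L).injective
  have : Algebra.FormallyEtale S L :=
    Algebra.FormallyEtale.of_isLocalization (nonZeroDivisors S)
  have : Algebra.IsSeparable L M := inferInstance
  have : Algebra.FormallyEtale L M := Algebra.FormallyEtale.of_isSeparable _ _
  have : Algebra.FormallyEtale S M := Algebra.FormallyEtale.comp S L M
  let l : M ⊗[S] Ω[S⁄k] →ₗ[M] M := LinearMap.liftBaseChange M D0.liftKaehlerDifferential
  let e := KaehlerDifferential.tensorKaehlerEquivOfFormallyEtale k S M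
  let D : Derivation k M M := (l.comp e.symm.toLinearMap).compDer (KaehlerDifferential.D k M)
  refine ⟨D, fun i => ?_⟩
  have hmem : ξ i ∈ S := Algebra.subset_adjoin ⟨i, rfl⟩
  have h1 : ξ i = algebraMap S M ⟨ξ i, hmem⟩ := rfl
  rw [h1]
  change l (e.symm (KaehlerDifferential.D k M (algebraMap S M ⟨ξ i, hmem⟩))) = _
  rw [KaehlerDifferential.tensorKaehlerEquivOfFormallyEtale_symm_D_algebraMap]
  change l (1 ⊗ₜ _) = _
  rw [LinearMap.liftBaseChange_tmul]
  change (1 : M) • D0.liftKaehlerDifferential (KaehlerDifferential.D k S ⟨ξ i, hmem⟩) = _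
  rw [Derivation.liftKaehlerDifferential_comp_D, one_smul]
  rw [hD0 (X i) ⟨ξ i, hmem⟩ (aeval_X _ _), d1_X]

/-- chain rule -/
lemma chain {B : Type} [CommRing B] [Algebra k B] (D : Derivation k B B) (y : σ → B)
    (F : MvPolynomial σ k) : D (aeval y F) = ∑ i, aeval y (pderiv i F) * D (y i) := by
  classical
  induction F using MvPolynomial.induction_on with
  | C a =>
    rw [aeval_C, Derivation.map_algebraMap]
    symm
    refine Finset.sum_eq_zero fun i _ => ?_
    rw [pderiv_C, map_zero, zero_mul]
  | add p q hp hq =>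
    rw [map_add, map_add, hp, hq, ← Finset.sum_add_distrib]
    refine Finset.sum_congr rfl fun i _ => ?_
    rw [map_add, map_add, add_mul]
  | mul_X p j hp =>
    rw [map_mul, Derivation.leibniz, hp, aeval_X, smul_eq_mul, smul_eq_mul]
    have h1 : ∀ i, aeval y (pderiv i (p * X j)) * D (y i) =
        y j * (aeval y (pderiv i p) * D (y i)) + (if j = i then aeval y p * D (y i) else 0) := by
      intro i
      rw [pderiv_mul, map_add, map_mul, map_mul, aeval_X]
      by_cases hij : j = i
      · subst hij
        rw [pderiv_X_self, map_one, if_pos rfl]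
        ring
      · rw [pderiv_X_of_ne hij, map_zero, if_neg hij]
        ring
    simp only [h1]
    rw [Finset.sum_add_distrib, ← Finset.mul_sum, Finset.sum_ite_eq, if_pos (Finset.mem_univ _)]
    ring

end Der

section Lines

variable {k M σ : Type} [Field k] [Field M] [Algebra k M] [Fintype σ]

omit [Fintype σ] in
lemma onLine_aeval (F : MvPolynomial σ k) (x w : σ → M) :
    onLine (F.map (algebraMap k M)) x w =
      aeval (fun i => Polynomial.C (x i) + Polynomial.X * Polynomial.C (w i)) F := by
  unfold onLine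
  rw [eval₂_map, aeval_def]
  rfl

omit [Fintype σ] in
lemma eval_onLine (G : MvPolynomial σ M) (x w : σ → M) (t : M) :
    (onLine G x w).eval t = eval (fun i => x i + t * w i) G := by
  unfold onLine
  have h := MvPolynomial.eval₂_comp_left (Polynomial.evalRingHom t) (Polynomial.C : M →+* _)
    (fun i => Polynomial.C (x i) + Polynomial.X * Polynomial.C (w i)) G
  rw [← Polynomial.coe_evalRingHom, h, eval₂_eq_eval_map]
  have h2 : (Polynomial.evalRingHom t).comp (Polynomial.C : M →+* Polynomial M) =
      RingHom.id M := by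
    ext a
    simp
  rw [h2, MvPolynomial.map_id]
  have h3 : (⇑(Polynomial.evalRingHom t) ∘
      fun i => Polynomial.C (x i) + Polynomial.X * Polynomial.C (w i)) =
      fun i => x i + t * w i := by
    funext i
    simp
    ring
  rw [h3]

/-- a derivation of the coefficients of polynomials -/
lemma exists_coeffDer (D : Derivation k M M) :
    ∃ D' : Derivation k (Polynomial M) (Polynomial M), D' Polynomial.X = 0 ∧
      ∀ a, D' (Polynomial.C a) = Polynomial.C (D a) := by
  refine ⟨(PolynomialModule.equivPolynomialSelf (R := M)).toLinearMap.compDer D.mapCoeffs,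
    ?_, ?_⟩
  · change PolynomialModule.equivPolynomialSelf (D.mapCoeffs Polynomial.X) = 0
    rw [Derivation.mapCoeffs_X, map_zero]
  · intro a
    change PolynomialModule.equivPolynomialSelf (D.mapCoeffs (Polynomial.C a)) = _
    rw [Derivation.mapCoeffs_C]
    exact PolynomialModule.equivPolynomial_single 0 (D a)

end Lines

end GENF_

open GENF_ in
theorem p_GENF (h1 : T_RANK) (h2 : T_DEG) : T_GENF := by
  classical
  intro k _ _ n d F hd hFd hsm M _ _ _ ξ hgen halg w hw hwne
  have hdF : ∀ i, (pderiv i F).IsHomogeneous (d - 1) := fun i => hFd.pderiv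
  have hF0 : aeval ξ F = 0 := (hgen F).2 dvd_rfl
  have hmapd : (F.map (algebraMap k M)).IsHomogeneous d := hFd.map _
  have hmapdd : ∀ i, (pderiv i (F.map (algebraMap k M))).IsHomogeneous (d - 1) :=
    fun i => hmapd.pderiv
  set Wi : Fin (n + 1) → Polynomial M := fun i => onLine (pderiv i (F.map (algebraMap k M))) ξ w
    with hWi
  set W : Submodule M (Polynomial M) := Submodule.span M (Set.range Wi) with hW
  have hWmem : ∀ f, f ∈ W ↔ ∃ c : Fin (n + 1) → M, ∑ i, c i • Wi i = f := fun f =>
    Submodule.mem_span_range_iff_exists_fun M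
  have hWa : ∀ i, Wi i = aeval
      (fun i => Polynomial.C (ξ i) + Polynomial.X * Polynomial.C (w i)) (pderiv i F) := by
    intro i
    rw [hWi]
    simp only
    rw [pderiv_map, onLine_aeval]
  have hW0 : ∀ i, (Wi i).coeff 0 = aeval ξ (pderiv i F) := by
    intro i
    have h3 := (h2 _ _ _ _ (hmapdd i) ξ w).2.1
    rw [hWi]
    simp only
    rw [h3, pderiv_map, eval_map, aeval_def]
  have hcl : ∀ f, Polynomial.X * f ∈ W → f ∈ W := by
    intro f hf
    obtain ⟨v, hv⟩ := (hWmem _).1 hf
    have hv0 : d1 ξ v F = 0 := by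
      have h3 := congrArg (fun p => Polynomial.coeff p 0) hv
      simp only [Polynomial.finsetSum_coeff, Polynomial.coeff_smul, smul_eq_mul, hW0,
        Polynomial.coeff_X_mul_zero] at h3
      exact h3
    obtain ⟨D, hD⟩ := exists_der F ξ v (fun g hg => (hgen g).1 hg) hF0 hv0 halg
    obtain ⟨D', hD'X, hD'C⟩ := exists_coeffDer D
    have h4 := chain D' (fun i => Polynomial.C (ξ i) + Polynomial.X * Polynomial.C (w i)) F
    rw [← onLine_aeval, hw, map_zero] at h4
    have h5 : ∀ i, D' (Polynomial.C (ξ i) + Polynomial.X * Polynomial.C (w i)) =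
        Polynomial.C (v i) + Polynomial.X * Polynomial.C (D (w i)) := by
      intro i
      rw [map_add, hD'C, Derivation.leibniz, hD'X, hD'C, hD, smul_eq_mul, smul_zero, add_zero]
    have h6 : Polynomial.X * (f + ∑ i, (D (w i)) • Wi i) = 0 := by
      rw [mul_add, ← hv, Finset.mul_sum, ← Finset.sum_add_distrib]
      rw [h4]
      refine Finset.sum_congr rfl fun i _ => ?_
      rw [h5, ← hWa i, Polynomial.smul_eq_C_mul, Polynomial.smul_eq_C_mul]
      ring
    have h7 : f + ∑ i, (D (w i)) • Wi i = 0 := by
      rcases mul_eq_zero.1 h6 with h | h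
      · exact absurd h Polynomial.X_ne_zero
      · exact h
    rw [hWmem]
    refine ⟨fun i => - D (w i), ?_⟩
    rw [eq_neg_of_add_eq_zero_left h7, ← Finset.sum_neg_distrib]
    refine Finset.sum_congr rfl fun i _ => ?_
    rw [neg_smul]
  have hWin : ∀ i, Wi i ∈ W := fun i => Submodule.subset_span ⟨i, rfl⟩
  have hroot : ∀ t : M, t ≠ 0 → ∃ f ∈ W, f.eval t ≠ 0 := by
    intro t ht
    by_contra hc
    push Not at hc
    have h3 : ∀ i, aeval (fun i => ξ i + t * w i) (pderiv i F) = 0 := by
      intro i
      have h4 := hc (Wi i) (hWin i)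
      rw [hWi] at h4
      simp only at h4
      rw [eval_onLine, pderiv_map, eval_map] at h4
      rw [aeval_def]
      exact h4
    have h5 : aeval (fun i => ξ i + t * w i) F = 0 := by
      have h6 := eval_onLine (F.map (algebraMap k M)) ξ w t
      rw [hw, Polynomial.eval_zero, eval_map] at h6
      rw [aeval_def]
      exact h6.symm
    have h7 := hsm M _ h5 h3
    apply hwne (-t⁻¹)
    funext i
    have h8 := congrFun h7 i
    simp only [Pi.zero_apply] at h8
    simp only [Pi.smul_apply, smul_eq_mul]
    have h9 : ξ i = - (t * w i) := eq_neg_of_add_eq_zero_left h8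
    rw [h9]
    field_simp
  have hwF : aeval w F = 0 := by
    have h3 := (h2 _ _ _ _ hmapd ξ w).2.2
    rw [hw, Polynomial.coeff_zero, eval_map] at h3
    rw [aeval_def]
    exact h3.symm
  obtain ⟨i, hi⟩ : ∃ i, aeval w (pderiv i F) ≠ 0 := by
    by_contra hc
    push Not at hc
    apply hwne 0
    rw [zero_smul]
    exact hsm M w hwF hc
  have htop : (Wi i).coeff (d - 1) ≠ 0 := by
    have h3 := (h2 _ _ _ _ (hmapdd i) ξ w).2.2
    rw [hWi]
    simp only
    rw [h3, pderiv_map, eval_map]
    rw [aeval_def] at hi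
    exact hi
  have hdeg : (Wi i).natDegree = d - 1 := by
    apply le_antisymm
    · exact (h2 _ _ _ _ (hmapdd i) ξ w).1
    · exact Polynomial.le_natDegree_of_ne_zero htop
  have hall := full W hcl hroot (d - 1) (Wi i) (hWin i) hdeg (by
    intro h0
    rw [h0, Polynomial.coeff_zero] at htop
    exact htop rfl)
  rw [h1 _ _ (F.map (algebraMap k M)) d hmapd hd ξ w]
  intro g hg
  obtain ⟨u, hu⟩ := (hWmem g).1 (hall g (by omega))
  refine ⟨u, ?_⟩
  rw [← hu]
  refine Finset.sum_congr rfl fun j _ => ?_
  rw [Polynomial.smul_eq_C_mul]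

end Pool.Agent.WL
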