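import Pool.Agent.WL.Targets4
import Pool.Agent.WL.GENF

/-!
# The dimension of the family of free lines through a point
-/

set_option autoImplicit false

open MvPolynomial

namespace Pool.Agent.WL

namespace DIMF_

open Pool.Agent.WL.GENF_

/-- a derivation that kills the base point and the free coordinates kills the direction -/
lemma der_zero {K L σ : Type} [Field K] [Field L] [Algebra K L] [Fintype σ]
    (F : MvPolynomial σ K) (d : ℕ) (ξ w : σ → L) (S : Fin d → σ) (hinj : Function.Injective S)
    (h0 : onLine (F.map (algebraMap K L)) ξ w = 0)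
    (hS : dminor (F.map (algebraMap K L)) d ξ w S ≠ 0) (D : Derivation K L L)
    (hξ : ∀ i, D (ξ i) = 0) (hw : ∀ i, i ∉ Set.range S → D (w i) = 0) (i : σ) : D (w i) = 0 := by
  classical
  obtain ⟨D', hX, hC⟩ := exists_coeffDer D
  have h1 := chain D' (fun i => Polynomial.C (ξ i) + Polynomial.X * Polynomial.C (w i)) F
  rw [← onLine_aeval, h0, map_zero] at h1
  have h2 : ∀ i, D' (Polynomial.C (ξ i) + Polynomial.X * Polynomial.C (w i)) =
      Polynomial.X * Polynomial.C (D (w i)) := by
    intro i
    rw [map_add, hC, Derivation.leibniz, hX, hC, hξ, map_zero, smul_eq_mul, smul_zero, add_zero,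
      zero_add]
  have h3 : Polynomial.X * ∑ i, onLine (pderiv i (F.map (algebraMap K L))) ξ w *
      Polynomial.C (D (w i)) = 0 := by
    rw [h1, Finset.mul_sum]
    refine Finset.sum_congr rfl fun i _ => ?_
    rw [h2, pderiv_map, onLine_aeval]
    ring
  have h4 : ∑ i, onLine (pderiv i (F.map (algebraMap K L))) ξ w * Polynomial.C (D (w i)) = 0 := by
    rcases mul_eq_zero.1 h3 with h | h
    · exact absurd h Polynomial.X_ne_zero
    · exact h
  have h5 : ∀ l : Fin d, ∑ m : Fin d, dmat (F.map (algebraMap K L)) d ξ w l (S m) *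
      D (w (S m)) = 0 := by
    intro l
    have h6 := congrArg (fun p => Polynomial.coeff p l) h4
    simp only [Polynomial.finsetSum_coeff, Polynomial.coeff_mul_C, Polynomial.coeff_zero] at h6
    have h7 : ∑ m : Fin d, dmat (F.map (algebraMap K L)) d ξ w l (S m) * D (w (S m)) =
        ∑ i ∈ Finset.univ.image S, dmat (F.map (algebraMap K L)) d ξ w l i * D (w i) := by
      rw [Finset.sum_image (fun a _ b _ h => hinj h)]
    rw [h7, ← h6]
    refine Finset.sum_subset (Finset.subset_univ _) fun i _ hi => ?_
    rw [hw i, mul_zero]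
    rintro ⟨m, rfl⟩
    exact hi (Finset.mem_image_of_mem _ (Finset.mem_univ _))
  have h8 : ((dmat (F.map (algebraMap K L)) d ξ w).submatrix id S).mulVec
      (fun m => D (w (S m))) = 0 := by
    funext l
    exact h5 l
  have h9 := Matrix.eq_zero_of_mulVec_eq_zero hS h8
  by_cases hi : i ∈ Set.range S
  · obtain ⟨m, rfl⟩ := hi
    exact congrFun h9 m
  · exact hw i hi

/-- fields generated by finitely many elements, without derivations, are algebraic -/
lemma alg_of_der {E L : Type} [Field E] [Field L] [Algebra E L] [Algebra.EssFiniteType E L]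
    (h : ∀ D : Derivation E L L, D = 0) : Algebra.IsAlgebraic E L := by
  have h1 : Subsingleton (Ω[L⁄E] →ₗ[L] L) := by
    refine ⟨fun a b => ?_⟩
    apply (KaehlerDifferential.linearMapEquivDerivation E L).injective
    rw [h (KaehlerDifferential.linearMapEquivDerivation E L a),
      h (KaehlerDifferential.linearMapEquivDerivation E L b)]
  have h2 : Subsingleton Ω[L⁄E] := by
    refine subsingleton_of_forall_eq 0 fun x => ?_
    rw [← Module.forall_dual_apply_eq_zero_iff L]
    intro f
    have h3 : f = 0 := h1.elim _ _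
    rw [h3, LinearMap.zero_apply]
  have h3 : Algebra.FormallyUnramified E L := ⟨h2⟩
  have h4 : Algebra.IsSeparable E L := (Algebra.FormallyUnramified.iff_isSeparable E L).1 h3
  infer_instance

end DIMF_

open DIMF_ in
theorem p_DIMF (_h1 : T_DEG) : T_DIMF := by
  classical
  intro K _ n d F hF M _ _ ξ w S h0 hS
  have hinj : Function.Injective S := by
    intro a b hab
    by_contra hne
    apply hS
    unfold dminor
    refine Matrix.det_zero_of_column_eq hne fun k => ?_
    rw [Matrix.submatrix_apply, Matrix.submatrix_apply, hab]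
  let T : Finset M := (Finset.univ \ Finset.univ.image S).image w
  have hTc : T.card + d ≤ n + 1 := by
    have h1 : T.card ≤ (Finset.univ \ Finset.univ.image S).card := Finset.card_image_le
    have h2 : (Finset.univ.image S).card = d := by
      rw [Finset.card_image_of_injective _ hinj, Finset.card_univ, Fintype.card_fin]
    have h3 : (Finset.univ \ Finset.univ.image S).card + (Finset.univ.image S).card =
        (Finset.univ : Finset (Fin (n + 1))).card :=
      Finset.card_sdiff_add_card_eq_card (Finset.subset_univ _)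
    rw [Finset.card_univ, Fintype.card_fin, h2] at h3
    omega
  refine ⟨T, hTc, ?_⟩
  let E := IntermediateField.adjoin K (Set.range ξ ∪ (T : Set M))
  let L := IntermediateField.adjoin E (Set.range w)
  have hfin : (L : IntermediateField E M).FG := by
    refine ⟨Finset.univ.image w, ?_⟩
    rw [Finset.coe_image, Finset.coe_univ, Set.image_univ]
  have hess : Algebra.EssFiniteType E L := IntermediateField.essFiniteType_iff.2 hfin
  let ξE : Fin (n + 1) → E := fun i => ⟨ξ i, IntermediateField.subset_adjoin K _ (Or.inl ⟨i, rfl⟩)⟩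
  let ξL : Fin (n + 1) → L := fun i => algebraMap E L (ξE i)
  let wL : Fin (n + 1) → L := fun i => ⟨w i, IntermediateField.subset_adjoin E _ ⟨i, rfl⟩⟩
  have hξM : ∀ i, algebraMap L M (ξL i) = ξ i := fun i => rfl
  have hwM : ∀ i, algebraMap L M (wL i) = w i := fun i => rfl
  have hmap : (F.map (algebraMap K L)).map (algebraMap L M) = F.map (algebraMap K M) := by
    rw [MvPolynomial.map_map]
    rfl
  have h0L : onLine (F.map (algebraMap K L)) ξL wL = 0 := by
    have h1 := onLine_map (algebraMap L M) (F.map (algebraMap K L)) ξL wL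
    rw [hmap] at h1
    have h2 : (onLine (F.map (algebraMap K L)) ξL wL).map (algebraMap L M) = 0 := by
      rw [← h1]
      exact h0
    exact (Polynomial.map_eq_zero _).1 h2
  have hSL : dminor (F.map (algebraMap K L)) d ξL wL S ≠ 0 := by
    intro hcon
    have h1 := dminor_map (algebraMap L M) (F.map (algebraMap K L)) d ξL wL S
    rw [hmap, hcon, map_zero] at h1
    exact hS h1
  have hder : ∀ D : Derivation E L L, D = 0 := by
    intro D
    have hDw : ∀ i, D (wL i) = 0 := by
      intro i
      have hD : ∀ x, (D.restrictScalars K) x = D x := fun x => rfl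
      rw [← hD]
      refine der_zero F d ξL wL S hinj h0L hSL (D.restrictScalars K) (fun j => ?_)
        (fun j hj => ?_) i
      · exact D.map_algebraMap (ξE j)
      · have hjT : w j ∈ (T : Set M) := by
          refine Finset.mem_coe.2 (Finset.mem_image_of_mem _ ?_)
          rw [Finset.mem_sdiff, Finset.mem_image]
          refine ⟨Finset.mem_univ _, ?_⟩
          rintro ⟨m, -, hm⟩
          exact hj ⟨m, hm⟩
        have hjE : w j ∈ E := IntermediateField.subset_adjoin K _ (Or.inr hjT)
        have hw : wL j = algebraMap E L ⟨w j, hjE⟩ := rfl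
        rw [hD, hw]
        exact D.map_algebraMap _
    ext x
    obtain ⟨x, hx⟩ := x
    have key : ∀ (x : M) (hx : x ∈ L), D ⟨x, hx⟩ = 0 := by
      intro x hx
      refine IntermediateField.adjoin_induction (F := E) (s := Set.range w)
        (p := fun x hx => D ⟨x, hx⟩ = 0) ?_ ?_ ?_ ?_ ?_ hx
      · rintro _ ⟨i, rfl⟩
        exact hDw i
      · intro x
        exact D.map_algebraMap x
      · intro x y hx hy h1 h2
        have h3 : (⟨x + y, add_mem hx hy⟩ : L) = ⟨x, hx⟩ + ⟨y, hy⟩ := rfl
        rw [h3, map_add, h1, h2, add_zero]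
      · intro x hx h1
        have h3 : (⟨x⁻¹, inv_mem hx⟩ : L) = (⟨x, hx⟩ : L)⁻¹ := rfl
        rw [h3, Derivation.leibniz_inv, h1, smul_zero]
      · intro x y hx hy h1 h2
        have h3 : (⟨x * y, mul_mem hx hy⟩ : L) = ⟨x, hx⟩ * ⟨y, hy⟩ := rfl
        rw [h3, Derivation.leibniz, h1, h2, smul_zero, smul_zero, add_zero]
    rw [key x hx]
    rfl
  have halg : Algebra.IsAlgebraic E L := alg_of_der hder
  intro i
  have h1 : IsAlgebraic E (wL i) := halg.isAlgebraic _
  exact h1.algebraMap (A := M)

end Pool.Agent.WL
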