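import Pool.Agent.WL.Targets

/-!
# Maximal minors and surjectivity
-/

set_option autoImplicit false

open MvPolynomial

namespace Pool.Agent.WL

namespace RANK_

variable {σ M : Type} [Fintype σ] [Field M]

/-- Surjectivity of a matrix in terms of its maximal minors. -/
theorem minors (d : ℕ) (A : Matrix (Fin d) σ M) :
    (∃ S : Fin d → σ, (A.submatrix id S).det ≠ 0) ↔ ∀ v : Fin d → M, ∃ u : σ → M,
      A.mulVec u = v := by
  classical
  constructor
  · rintro ⟨S, hS⟩ v
    have hu : IsUnit (A.submatrix id S).det := isUnit_iff_ne_zero.mpr hS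
    set u' := (A.submatrix id S)⁻¹.mulVec v with hu'
    refine ⟨fun i => ∑ k, if S k = i then u' k else 0, ?_⟩
    have h1 : (A.submatrix id S).mulVec u' = v := by
      rw [hu', Matrix.mulVec_mulVec, Matrix.mul_nonsing_inv _ hu, Matrix.one_mulVec]
    rw [← h1]
    funext l
    simp only [Matrix.mulVec, dotProduct, Matrix.submatrix_apply, id, Finset.mul_sum]
    rw [Finset.sum_comm]
    refine Finset.sum_congr rfl fun k _ => ?_
    rw [Finset.sum_eq_single (S k)]
    · rw [if_pos rfl]
    · intro i _ hi
      rw [if_neg (fun h => hi h.symm), mul_zero]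
    · intro h; exact absurd (Finset.mem_univ _) h
  · intro h
    have hspan : Submodule.span M (Set.range A.col) = ⊤ := by
      rw [eq_top_iff]
      intro v _
      obtain ⟨u, hu⟩ := h v
      rw [← hu]
      have : A.mulVec u = ∑ i, u i • A.col i := by
        funext l
        simp only [Matrix.mulVec, dotProduct, Finset.sum_apply, Pi.smul_apply, smul_eq_mul,
          Matrix.col_apply]
        exact Finset.sum_congr rfl fun i _ => mul_comm _ _
      rw [this]
      exact Submodule.sum_mem _ fun i _ =>
        Submodule.smul_mem _ _ (Submodule.subset_span ⟨i, rfl⟩)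
    obtain ⟨b, hb, hbs, hbi⟩ := exists_linearIndependent M (Set.range A.col)
    rw [hspan] at hbs
    have hbfin : b.Finite := (Set.finite_range _).subset hb
    have : Fintype b := hbfin.fintype
    have hbas := Module.Basis.mk hbi (by rw [Subtype.range_coe, hbs])
    have hcard : Fintype.card b = d := by
      have := Module.finrank_eq_card_basis hbas
      rw [← this, Module.finrank_fin_fun]
    let e : Fin d ≃ b := (Fintype.equivFinOfCardEq hcard).symm
    have hc : ∀ k : Fin d, ∃ i, A.col i = (e k : Fin d → M) := fun k => hb (e k).2
    choose S hS using hc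
    refine ⟨S, ?_⟩
    have hli : LinearIndependent M (A.submatrix id S).col := by
      have : (A.submatrix id S).col = (fun k => ((e k : b) : Fin d → M)) := by
        funext k
        rw [← hS k]
        rfl
      rw [this]
      exact hbi.comp e e.injective
    have := (Matrix.linearIndependent_cols_iff_isUnit).mp hli
    exact ((Matrix.isUnit_iff_isUnit_det _).mp this).ne_zero

end RANK_

open RANK_ in
theorem p_RANK (h1 : T_DEG) : T_RANK := by
  classical
  intro σ M _ _ F d hF hd x w
  have hdeg : ∀ i, (onLine (pderiv i F) x w).natDegree < d := by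
    intro i
    have := (h1 σ M (pderiv i F) (d - 1) hF.pderiv x w).1
    omega
  have key : ∀ (u : σ → M) (g : Polynomial M), g.natDegree < d →
      (∑ i, Polynomial.C (u i) * onLine (pderiv i F) x w = g ↔
        (dmat F d x w).mulVec u = fun l : Fin d => g.coeff l) := by
    intro u g hg
    have hco : ∀ n, (∑ i, Polynomial.C (u i) * onLine (pderiv i F) x w).coeff n =
        ∑ i, (onLine (pderiv i F) x w).coeff n * u i := by
      intro n
      rw [Polynomial.finsetSum_coeff]
      exact Finset.sum_congr rfl fun i _ => by rw [Polynomial.coeff_C_mul, mul_comm]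
    constructor
    · intro h
      funext l
      rw [← h, hco]
      rfl
    · intro h
      ext n
      rcases Nat.lt_or_ge n d with hn | hn
      · have := congrFun h ⟨n, hn⟩
        rw [hco]
        exact this
      · rw [hco, Polynomial.coeff_eq_zero_of_natDegree_lt (lt_of_lt_of_le hg hn)]
        refine Finset.sum_eq_zero fun i _ => ?_
        rw [Polynomial.coeff_eq_zero_of_natDegree_lt (lt_of_lt_of_le (hdeg i) hn), zero_mul]
  have hmin := minors d (dmat F d x w)
  change (∃ S : Fin d → σ, ((dmat F d x w).submatrix id S).det ≠ 0) ↔ _
  rw [hmin]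
  constructor
  · intro h g hg
    obtain ⟨u, hu⟩ := h fun l => g.coeff l
    exact ⟨u, (key u g hg).mpr hu⟩
  · intro h v
    set g : Polynomial M := ∑ l : Fin d, Polynomial.monomial (l : ℕ) (v l) with hgdef
    have hgc : ∀ l : Fin d, g.coeff l = v l := by
      intro l
      rw [hgdef, Polynomial.finsetSum_coeff, Finset.sum_eq_single l]
      · rw [Polynomial.coeff_monomial, if_pos rfl]
      · intro k _ hk
        rw [Polynomial.coeff_monomial, if_neg (fun h => hk (Fin.ext h))]
      · intro h; exact absurd (Finset.mem_univ _) h
    have hgd : g.natDegree < d := by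
      have : g.natDegree ≤ d - 1 := by
        rw [hgdef]
        refine Polynomial.natDegree_sum_le_of_forall_le _ _ fun l _ => ?_
        refine (Polynomial.natDegree_monomial_le _).trans ?_
        have := l.2
        omega
      omega
    obtain ⟨u, hu⟩ := h g hgd
    refine ⟨u, ?_⟩
    rw [(key u g hgd).mp hu]
    funext l
    exact hgc l

end Pool.Agent.WL
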