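import Pool.Agent.WL.Targets
import Pool.Agent.WA.Valuative

/-!
# Generic points through a point

The dimension inequality `card σ ≤ height P + trdeg` for primes of a polynomial ring, and a
generic point specialising to a given common zero.
-/

set_option autoImplicit false

namespace Pool.Agent.WL

open MvPolynomial

namespace HT_

/-- Extension of a prime to the polynomial ring does not lower the height. -/
theorem height_le_height_map_C {R : Type} [CommRing R] (p : Ideal R) [hp : p.IsPrime] :
    p.height ≤ (p.map Polynomial.C : Ideal (Polynomial R)).height := by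
  let f : PrimeSpectrum R → PrimeSpectrum (Polynomial R) := fun q =>
    ⟨q.asIdeal.map Polynomial.C, Ideal.isPrime_map_C_of_isPrime⟩
  have hf : StrictMono f := by
    intro a b hab
    have hle : a.asIdeal ≤ b.asIdeal := hab.le
    refine lt_of_le_of_ne ?_ ?_
    · exact Ideal.map_mono hle
    · intro h
      have h1 : a.asIdeal.map (Polynomial.C : R →+* Polynomial R) =
          b.asIdeal.map Polynomial.C := congrArg PrimeSpectrum.asIdeal h
      have h2 : a.asIdeal = b.asIdeal := by
        ext x
        have h3 : ∀ q : Ideal R, x ∈ q ↔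
            Polynomial.C x ∈ (q.map Polynomial.C : Ideal (Polynomial R)) := by
          intro q
          rw [Ideal.mem_map_C_iff]
          constructor
          · intro hx n
            rw [Polynomial.coeff_C]
            split_ifs
            · exact hx
            · exact q.zero_mem
          · intro h
            have := h 0
            rwa [Polynomial.coeff_C_zero] at this
        rw [h3 a.asIdeal, h3 b.asIdeal, h1]
      exact hab.ne (PrimeSpectrum.ext h2)
  have h1 := Order.height_le_height_apply_of_strictMono f hf ⟨p, hp⟩
  rw [← PrimeSpectrum.height_eq_orderHeight, ← PrimeSpectrum.height_eq_orderHeight] at h1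
  exact h1

/-- The property carried by the induction on the number of variables. -/
def Q (k : Type) [Field k] (R : Type) [CommRing R] [Algebra k R] (n : ℕ) : Prop :=
  ∀ P : Ideal R, P.IsPrime → ∃ (m : ℕ) (u : Fin m → R),
    (∀ g : MvPolynomial (Fin m) k, aeval u g ∈ P → g = 0) ∧ (n : ℕ∞) ≤ P.height + m

theorem Q_congr (k : Type) [Field k] (R S : Type) [CommRing R] [Algebra k R] [CommRing S]
    [Algebra k S] (e : R ≃ₐ[k] S) (n : ℕ) (h : Q k R n) : Q k S n := by
  intro P hP
  have hP' : (P.comap (e : R →+* S)).IsPrime := Ideal.comap_isPrime _ _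
  obtain ⟨m, u, h1, h2⟩ := h (P.comap (e : R →+* S)) hP'
  refine ⟨m, fun i => e (u i), ?_, ?_⟩
  · intro g hg
    apply h1
    rw [Ideal.mem_comap]
    have : aeval (fun i => e (u i)) g = e (aeval u g) := by
      rw [← AlgEquiv.coe_toAlgHom, MvPolynomial.comp_aeval_apply]
    rw [this] at hg
    exact hg
  · have h3 := RingEquiv.height_comap e.toRingEquiv P
    have h4 : (P.comap (e : R →+* S)) = P.comap e.toRingEquiv := rfl
    rw [h4, h3] at h2
    exact h2

theorem aeval_cons {k : Type} [Field k] {R : Type} [CommRing R] [Algebra k R] {m : ℕ}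
    (u : Fin m → R) (g : MvPolynomial (Fin (m + 1)) k) :
    aeval (Fin.cons Polynomial.X (fun i => Polynomial.C (u i)) : Fin (m + 1) → Polynomial R) g =
      Polynomial.map (aeval u : MvPolynomial (Fin m) k →ₐ[k] R).toRingHom
        (finSuccEquiv k m g) := by
  induction g using MvPolynomial.induction_on with
  | C a =>
    rw [MvPolynomial.finSuccEquiv_apply]
    simp
  | add p q hp hq =>
    rw [map_add, hp, hq, map_add, Polynomial.map_add]
  | mul_X p i hp =>
    rw [map_mul, hp, map_mul, Polynomial.map_mul]
    congr 1
    refine Fin.cases ?_ (fun j => ?_) i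
    · simp [MvPolynomial.finSuccEquiv_X_zero]
    · simp [MvPolynomial.finSuccEquiv_X_succ]

theorem Q_poly (k : Type) [Field k] (R : Type) [CommRing R] [Algebra k R] (n : ℕ)
    (h : Q k R n) : Q k (Polynomial R) (n + 1) := by
  intro P hP
  have hp : (P.comap (Polynomial.C : R →+* Polynomial R)).IsPrime := Ideal.comap_isPrime _ _
  set p := P.comap (Polynomial.C : R →+* Polynomial R) with hpdef
  obtain ⟨m, u, h1, h2⟩ := h p hp
  have hle : p.map Polynomial.C ≤ P := Ideal.map_comap_le
  have hprime : (p.map Polynomial.C : Ideal (Polynomial R)).IsPrime :=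
    Ideal.isPrime_map_C_of_isPrime
  have hh := height_le_height_map_C p
  by_cases hP1 : p.map Polynomial.C = P
  · refine ⟨m + 1, Fin.cons Polynomial.X (fun i => Polynomial.C (u i)), ?_, ?_⟩
    · intro g hg
      rw [aeval_cons u g, ← hP1, Ideal.mem_map_C_iff] at hg
      have h3 : finSuccEquiv k m g = 0 := by
        ext1 j
        rw [Polynomial.coeff_zero]
        apply h1
        have := hg j
        rw [Polynomial.coeff_map] at this
        exact this
      exact (finSuccEquiv k m).injective (by rw [h3, map_zero])
    · rw [hP1] at hh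
      calc ((n + 1 : ℕ) : ℕ∞) = (n : ℕ∞) + 1 := by push_cast; rfl
        _ ≤ (p.height + m) + 1 := by gcongr
        _ ≤ (P.height + m) + 1 := by gcongr
        _ = P.height + ((m + 1 : ℕ) : ℕ∞) := by push_cast; rw [add_assoc]
  · refine ⟨m, fun i => Polynomial.C (u i), ?_, ?_⟩
    · intro g hg
      apply h1
      rw [hpdef, Ideal.mem_comap]
      have key : aeval (fun i => Polynomial.C (u i)) g =
          Polynomial.C (aeval u g) := by
        have := MvPolynomial.comp_aeval_apply u (Polynomial.CAlgHom (R := k) (A := R)) g
        exact this.symm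
      rw [key] at hg
      exact hg
    · have hlt : p.map Polynomial.C < P := lt_of_le_of_ne hle hP1
      have h3 := Ideal.height_add_one_le_of_lt_of_isPrime hlt
      calc ((n + 1 : ℕ) : ℕ∞) = (n : ℕ∞) + 1 := by push_cast; rfl
        _ ≤ (p.height + m) + 1 := by gcongr
        _ = (p.height + 1) + m := by rw [add_right_comm]
        _ ≤ ((p.map Polynomial.C : Ideal (Polynomial R)).height + 1) + m := by gcongr
        _ ≤ P.height + m := by gcongr

theorem Q_fin (k : Type) [Field k] (n : ℕ) : Q k (MvPolynomial (Fin n) k) n := by
  induction n with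
  | zero =>
    intro P hP
    refine ⟨0, Fin.elim0, ?_, by simp⟩
    intro g hg
    by_contra hne
    have h1 : g = C (coeff 0 g) := MvPolynomial.eq_C_of_isEmpty g
    have h2 : coeff 0 g ≠ 0 := by
      intro h0
      apply hne
      rw [h1, h0, map_zero]
    rw [h1, MvPolynomial.aeval_C] at hg
    have h3 : IsUnit (algebraMap k (MvPolynomial (Fin 0) k) (coeff 0 g)) :=
      (IsUnit.mk0 _ h2).map _
    exact hP.ne_top (Ideal.eq_top_of_isUnit_mem _ hg h3)
  | succ n ih =>
    exact Q_congr k _ _ (finSuccEquiv k n).symm (n + 1) (Q_poly k _ n ih)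

theorem Q_fintype (k : Type) [Field k] (σ : Type) [Fintype σ] :
    Q k (MvPolynomial σ k) (Fintype.card σ) :=
  Q_congr k _ _ (renameEquiv k (Fintype.equivFin σ).symm) _ (Q_fin k _)

end HT_

open HT_ in
theorem p_HT : T_HT := by
  intro k _ σ _ P f hf
  classical
  let mP : Ideal (MvPolynomial σ k) := RingHom.ker (eval P)
  have hmP : mP.IsPrime := RingHom.ker_isPrime _
  have hle : Ideal.span (f : Set (MvPolynomial σ k)) ≤ mP := by
    rw [Ideal.span_le]
    intro g hg
    exact hf g hg
  obtain ⟨p, hpmin, hpm⟩ := Ideal.exists_minimalPrimes_le hle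
  have hpprime : p.IsPrime := hpmin.1.1
  have hht : p.height ≤ f.card := Ideal.height_le_card_of_mem_minimalPrimes_span_finset hpmin
  obtain ⟨m, u, hu, hcard⟩ := Q_fintype k σ p hpprime
  have hcard' : Fintype.card σ ≤ f.card + m := by
    have : (Fintype.card σ : ℕ∞) ≤ (f.card : ℕ∞) + m := hcard.trans (by gcongr)
    exact_mod_cast this
  let B := MvPolynomial σ k ⧸ p
  let L := FractionRing B
  let z : σ → L := fun i => algebraMap B L (Ideal.Quotient.mk p (X i))
  have hz : ∀ g : MvPolynomial σ k, aeval z g = algebraMap B L (Ideal.Quotient.mk p g) := by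
    intro g
    let φ : MvPolynomial σ k →ₐ[k] L := (IsScalarTower.toAlgHom k B L).comp (Ideal.Quotient.mkₐ k p)
    have : φ = aeval z := by
      apply MvPolynomial.algHom_ext
      intro i
      rw [aeval_X]
      rfl
    rw [← this]
    rfl
  have hz0 : ∀ g : MvPolynomial σ k, aeval z g = 0 ↔ g ∈ p := by
    intro g
    rw [hz g]
    constructor
    · intro h
      have h1 : Ideal.Quotient.mk p g = 0 := by
        apply IsFractionRing.injective B L
        rw [h, map_zero]
      exact Ideal.Quotient.eq_zero_iff_mem.mp h1
    · intro h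
      rw [Ideal.Quotient.eq_zero_iff_mem.mpr h, map_zero]
  refine ⟨L, inferInstance, inferInstance, z, ?_, ?_, ?_⟩
  · intro g hg
    rw [hz0]
    exact hpmin.1.2 (Ideal.subset_span hg)
  · intro g hg
    rw [hz0] at hg
    exact hpm hg
  · intro T hT
    let v : Fin m → L := fun i => aeval z (u i)
    have hv : AlgebraicIndependent k v := by
      rw [algebraicIndependent_iff]
      intro g hg
      apply hu
      rw [← hz0]
      have : aeval v g = aeval z (aeval u g) := by
        rw [MvPolynomial.comp_aeval_apply]
      rw [← this]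
      exact hg
    have hvT : ∀ i, v i ∈ IntermediateField.adjoin k (T : Set L) := by
      intro i
      have h1 : (aeval z : MvPolynomial σ k →ₐ[k] L).range ≤
          (IntermediateField.adjoin k (T : Set L)).toSubalgebra := by
        rw [← Algebra.adjoin_range_eq_range_aeval, Algebra.adjoin_le_iff]
        rintro _ ⟨j, rfl⟩
        exact hT j
      exact h1 ⟨u i, rfl⟩
    have h2 := Pool.Agent.WA.card_le_of_algebraic v hv T (fun i => by
      apply IntermediateField.isAlgebraic_adjoin_iff.mp
      exact isAlgebraic_algebraMap
        (⟨v i, hvT i⟩ : IntermediateField.adjoin k (T : Set L)))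
    rw [Fintype.card_fin] at h2
    omega

end Pool.Agent.WL
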