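import Pool.Agent.WL.Targets2

/-!
# WL-MOVE: moving along a free line over a completion
-/

set_option autoImplicit false

open MvPolynomial WithZero Topology
open Pool.Agent.WA

namespace Pool.Agent.WL

namespace MOVE_

/-! ### Lines -/

theorem onLine_C_mul {σ A : Type} [CommRing A] (c : A) (F : MvPolynomial σ A) (x w : σ → A) :
    onLine (C c * F) x w = Polynomial.C c * onLine F x w := by
  unfold onLine
  rw [eval₂_mul, eval₂_C]

theorem dminor_C_mul {σ A : Type} [CommRing A] (c : A) (F : MvPolynomial σ A) (d : ℕ)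
    (x w : σ → A) (S : Fin d → σ) : dminor (C c * F) d x w S = c ^ d * dminor F d x w S := by
  have h1 : dmat (C c * F) d x w = c • dmat F d x w := by
    ext l i
    rw [Matrix.smul_apply, smul_eq_mul]
    unfold dmat
    rw [pderiv_C_mul, onLine_C_mul, Polynomial.coeff_C_mul]
  unfold dminor
  rw [h1]
  have h2 : (c • dmat F d x w).submatrix id S = c • (dmat F d x w).submatrix id S := rfl
  rw [h2, Matrix.det_smul, Fintype.card_fin]

theorem onLine_smul_right (hTRI : T_TRI) {σ A : Type} [CommRing A] (F : MvPolynomial σ A) (d : ℕ)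
    (hF : F.IsHomogeneous d) (x w : σ → A) (β : A) (j : ℕ) :
    (onLine F x (fun i => β * w i)).coeff j = β ^ j * (onLine F x w).coeff j := by
  have h1 := (hTRI σ A F d hF x w 0 β).1 j
  have h2 : (fun i => (0 : A) * x i + β * w i) = fun i => β * w i := by
    funext i
    ring
  rw [h2] at h1
  rw [h1, Finset.sum_eq_single j]
  · simp
  · intro i hi hne
    have h3 : j - i ≠ 0 := by
      have := Finset.mem_range.1 hi
      omega
    rw [zero_pow h3]
    ring
  · intro h
    exact absurd (Finset.mem_range.2 (Nat.lt_succ_self j)) h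

theorem dminor_smul_right (hTRI : T_TRI) {σ A : Type} [CommRing A] (F : MvPolynomial σ A) (d : ℕ)
    (hF : F.IsHomogeneous d) (x w : σ → A) (β : A) (S : Fin d → σ) :
    dminor F d x (fun i => β * w i) S = β ^ (d * (d - 1) / 2) * dminor F d x w S := by
  have h1 := (hTRI σ A F d hF x w 0 β).2 S
  have h2 : (fun i => (0 : A) * x i + β * w i) = fun i => β * w i := by
    funext i
    ring
  rw [h2] at h1
  exact h1

theorem onLine_smul_left (hTRI : T_TRI) (hSYM : T_SYM) (hDEG : T_DEG) {σ A : Type} [CommRing A]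
    (F : MvPolynomial σ A) (d : ℕ) (hF : F.IsHomogeneous d) (x w : σ → A) (α : A)
    (h : onLine F x w = 0) : onLine F (fun i => α * x i) w = 0 := by
  ext j
  rw [Polynomial.coeff_zero]
  by_cases hj : j ≤ d
  · have h1 := (hSYM σ A F d hF w (fun i => α * x i)).1 j hj
    rw [h1, onLine_smul_right hTRI F d hF w x α, (hSYM σ A F d hF x w).1 _ (Nat.sub_le _ _), h]
    simp
  · exact Polynomial.coeff_eq_zero_of_natDegree_lt
      (lt_of_le_of_lt (hDEG σ A F d hF _ _).1 (not_le.1 hj))

theorem dminor_smul_left (hTRI : T_TRI) (hSYM : T_SYM) {σ A : Type} [Field A]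
    (F : MvPolynomial σ A) (d : ℕ) (hF : F.IsHomogeneous d) (x w : σ → A) (α : A) (hα : α ≠ 0)
    (S : Fin d → σ) (h : dminor F d x w S ≠ 0) : dminor F d (fun i => α * x i) w S ≠ 0 := by
  have h1 := (hSYM σ A F d hF w (fun i => α * x i)).2 S
  have h2 := (hSYM σ A F d hF x w).2 S
  rw [dminor_smul_right hTRI F d hF w x α S] at h1
  have h3 : dminor F d w x S ≠ 0 := by
    rcases h2 with h2 | h2
    · rw [h2]; exact h
    · rw [h2]; exact neg_ne_zero.2 h
  have h4 := mul_ne_zero (pow_ne_zero (d * (d - 1) / 2) hα) h3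
  rcases h1 with h1 | h1
  · rw [h1]; exact h4
  · rw [h1]; exact neg_ne_zero.2 h4

theorem map_eval' {σ A B : Type} [CommRing A] [CommRing B] (φ : A →+* B) (x : σ → A)
    (F : MvPolynomial σ A) : φ (eval x F) = eval (fun i => φ (x i)) (F.map φ) := by
  rw [eval_map]
  have h := eval₂_comp_left φ (RingHom.id A) x F
  rw [RingHom.comp_id] at h
  exact h

theorem eval_smul' (hTRI : T_TRI) (hDEG : T_DEG) {σ A : Type} [CommRing A]
    (F : MvPolynomial σ A) (d : ℕ) (hF : F.IsHomogeneous d) (w : σ → A) (β : A) :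
    eval (fun i => β * w i) F = β ^ d * eval w F := by
  rw [← (hDEG σ A F d hF w (fun i => β * w i)).2.2, ← (hDEG σ A F d hF w w).2.2,
    onLine_smul_right hTRI F d hF w w β d]

/-! ### Subspaces -/

section Pull

variable {k K : Type} [Field k] [Field K] [Algebra k K] {v : Valuation K ℤᵐ⁰} {s : K}
  {io : PowerSeries k →+* Compl v}

theorem io_smul (he : Emb v s io) (a : k) (g : PowerSeries k) (f : K) (h : io g = emb v f) :
    io (a • g) = emb v (a • f) := by
  rw [PowerSeries.smul_eq_C_mul, map_mul, he.const, h, Algebra.smul_def, map_mul]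

/-- the preimage of a subspace of `K` -/
def pull (he : Emb v s io) (W : Submodule k K) : Submodule k (PowerSeries k) where
  carrier := {g | ∃ f ∈ W, io g = emb v f}
  add_mem' := by
    rintro g g' ⟨f, hf, h⟩ ⟨f', hf', h'⟩
    exact ⟨f + f', W.add_mem hf hf', by rw [map_add, map_add, h, h']⟩
  zero_mem' := ⟨0, W.zero_mem, by rw [map_zero, map_zero]⟩
  smul_mem' := by
    rintro a g ⟨f, hf, h⟩
    exact ⟨a • f, W.smul_mem a hf, io_smul he a g f h⟩

theorem mem_pull (he : Emb v s io) (W : Submodule k K) (g : PowerSeries k) :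
    g ∈ pull he W ↔ ∃ f ∈ W, io g = emb v f := Iff.rfl

theorem finrank_pull (he : Emb v s io) (W : Submodule k K) (h : ∀ f ∈ W, ∃ g, io g = emb v f) :
    Module.finrank k (pull he W) = Module.finrank k W := by
  choose φ hφ using h
  let L : W →ₗ[k] pull he W :=
    { toFun := fun f => ⟨φ f.1 f.2, f.1, f.2, hφ f.1 f.2⟩
      map_add' := by
        intro f g
        apply Subtype.ext
        apply he.inj
        change io (φ (f + g).1 (f + g).2) = io (φ f.1 f.2 + φ g.1 g.2)
        rw [hφ, map_add, hφ, hφ, ← map_add]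
        rfl
      map_smul' := by
        intro a f
        apply Subtype.ext
        apply he.inj
        change io (φ (a • f).1 (a • f).2) = io (a • φ f.1 f.2)
        rw [hφ, io_smul he a _ f.1 (hφ f.1 f.2)]
        rfl }
  have hinj : Function.Injective L := by
    intro f g hfg
    have h1 : φ f.1 f.2 = φ g.1 g.2 := congrArg Subtype.val hfg
    apply Subtype.ext
    apply (emb v).injective
    rw [← hφ f.1 f.2, ← hφ g.1 g.2, h1]
  have hsurj : Function.Surjective L := by
    rintro ⟨g, f, hf, hg⟩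
    refine ⟨⟨f, hf⟩, ?_⟩
    apply Subtype.ext
    apply he.inj
    change io (φ f hf) = io g
    rw [hφ, hg]
  exact (LinearEquiv.ofBijective L ⟨hinj, hsurj⟩).finrank_eq.symm

theorem pull_inf (he : Emb v s io) (W W' : Submodule k K) :
    pull he W ⊓ pull he W' = pull he (W ⊓ W') := by
  ext g
  constructor
  · rintro ⟨⟨f, hf, h⟩, ⟨f', hf', h'⟩⟩
    have h1 : f = f' := (emb v).injective (h.symm.trans h')
    exact ⟨f, ⟨hf, by rw [h1]; exact hf'⟩, h⟩
  · rintro ⟨f, hf, h⟩
    exact ⟨⟨f, hf.1, h⟩, ⟨f, hf.2, h⟩⟩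

theorem val_X (he : Emb v s io) : vE v (io PowerSeries.X) = v s := by
  rw [he.par, val_emb]

theorem val_le_one (he : Emb v s io) (g : PowerSeries k) : vE v (io g) ≤ 1 := by
  have := (he.ord g 0).2 (by simp)
  rwa [pow_zero] at this

theorem val_unit (he : Emb v s io) (q : PowerSeries k) (hq : PowerSeries.constantCoeff q ≠ 0) :
    vE v (io q) = 1 := by
  have h1 : vE v (io q) * vE v (io q⁻¹) = 1 := by
    rw [← map_mul, ← map_mul, PowerSeries.mul_inv_cancel _ hq, map_one, map_one]
  refine le_antisymm (val_le_one he q) ?_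
  rw [← h1]
  calc vE v (io q) * vE v (io q⁻¹) ≤ vE v (io q) * 1 := by
        gcongr
        exact val_le_one he _
    _ = _ := mul_one _

theorem val_Xpow (he : Emb v s io) (r : ℕ) (q : PowerSeries k)
    (hq : PowerSeries.constantCoeff q ≠ 0) : vE v (io (PowerSeries.X ^ r * q)) = v s ^ r := by
  rw [map_mul, map_mul, map_pow, map_pow, val_X he, val_unit he q hq, mul_one]

end Pull

end MOVE_

open MOVE_

theorem p_MOVE (hPKG : T_PKG) (hB : T_B) (hCOD : T_COD) (hRES : T_RES) (hTRI : T_TRI)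
    (hSYM : T_SYM) (hDEG : T_DEG) : T_MOVE := by
  classical
  intro k K _ _ _ _ hfun n d r F v w hv hw hind hd hF x y S hx hline hmin θ η hθ hη
  obtain ⟨s, io, δ, c, V, V', b, F', κ, hP⟩ := hPKG k K hfun n d r F v w hv hw hind hF
  have he := hP.emb
  have hs0 : v s ≠ 0 := he.unif.ne_zero
  have hs1 : v s < 1 := he.unif.lt_one
  have hFE : (FE v F).IsHomogeneous d := hF.map _
  -- scaling of `x`
  obtain ⟨a, ha⟩ := Finite.exists_max (fun i => vE v (x i))
  have hxa : x a ≠ 0 := by
    intro h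
    apply hx
    funext i
    have h1 := ha i
    rw [h, map_zero] at h1
    exact (Valuation.zero_iff _).1 (le_antisymm h1 zero_le)
  have hva : vE v (x a) ≠ 0 := (Valuation.ne_zero_iff _).2 hxa
  have hle : ∀ i, vE v ((x a)⁻¹ * x i) ≤ 1 := by
    intro i
    rw [map_mul, map_inv₀, inv_mul_le_iff₀ (zero_lt_iff.2 hva), mul_one]
    exact ha i
  choose x₀ hx₀ using fun i => he.surj _ (hle i)
  have hx₀a : PowerSeries.constantCoeff (x₀ a) ≠ 0 := by
    have h1 : x₀ a = 1 := by
      apply he.inj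
      rw [hx₀ a, inv_mul_cancel₀ hxa, map_one]
    rw [h1, map_one]
    exact one_ne_zero
  -- the point `y`
  obtain ⟨b', hb', m₀, hm₀⟩ := hP.exh (Finset.univ.image y)
  have hy' : ∀ i, ∃ g ∈ V' m₀, io g = emb v (b' * y i) := fun i =>
    hP.lift m₀ _ (hm₀ _ (Finset.mem_image_of_mem y (Finset.mem_univ i)))
  choose yy hyy1 hyy2 using hy'
  have hioy : (fun i => io (yy i)) = fun i => emb v b' * emb v (y i) := by
    funext i
    rw [hyy2, map_mul]
  have hiox : (fun i => io (x₀ i)) = fun i => (x a)⁻¹ * x i := funext hx₀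
  have hbe : emb v b ≠ 0 := fun h => hP.ne ((emb v).injective (by rw [h, map_zero]))
  have hb'e : emb v b' ≠ 0 := fun h => hb' ((emb v).injective (by rw [h, map_zero]))
  have hline' : onLine F' x₀ yy = 0 := by
    apply Polynomial.map_injective io he.inj
    rw [← onLine_map, hP.map, onLine_C_mul, hioy, hiox, Polynomial.map_zero]
    have h1 : onLine (FE v F) (fun i => (x a)⁻¹ * x i) (fun i => emb v b' * emb v (y i)) = 0 := by
      apply onLine_smul_left hTRI hSYM hDEG _ d hFE
      ext j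
      rw [onLine_smul_right hTRI _ d hFE, hline]
      simp
    rw [h1, mul_zero]
  have hmin' : dminor F' d x₀ yy S ≠ 0 := by
    intro h
    have h1 : io (dminor F' d x₀ yy S) = 0 := by rw [h, map_zero]
    rw [← dminor_map, hP.map, dminor_C_mul, hioy, hiox] at h1
    refine mul_ne_zero (pow_ne_zero _ hbe) ?_ h1
    apply dminor_smul_left hTRI hSYM _ d hFE _ _ _ (inv_ne_zero hxa)
    rw [dminor_smul_right hTRI _ d hFE]
    exact mul_ne_zero (pow_ne_zero _ hb'e) hmin
  -- the functions `p`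
  have hp : ∀ N : ℕ, ∃ (p : PowerSeries k) (m : ℕ) (pK : K), (p ∈ V' m ∧
      (PowerSeries.X : PowerSeries k) ^ N ∣ p ∧ p ≠ 0 ∧ δ * m ≤ N + c) ∧ pK ≠ 0 ∧
      io p = emb v pK ∧ ∀ l, κ l ≤ w l pK := by
    intro N
    obtain ⟨pK, m, h1, h2, h3, h4, h5⟩ := hP.pi N
    obtain ⟨p, hp1, hp2⟩ := hP.lift m pK h1
    refine ⟨p, m, pK, ⟨hp1, ?_, ?_, h4⟩, h2, hp2, h5⟩
    · rw [← he.ord, hp2, val_emb]
      exact h3
    · intro h
      rw [h, map_zero] at hp2
      exact h2 ((emb v).injective (by rw [← hp2, map_zero]))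
  choose p mp pK hp1 hpK0 hpK hpκ using hp
  -- the subspace
  obtain ⟨U₀, c', hU₀, hcod⟩ := hCOD k K r w hw (fun l => hRES k K hfun (w l) (hw l))
    (fun l => η l * (κ l * w l b')) (fun l => mul_ne_zero (hη l)
      (mul_ne_zero (hP.κne l) ((Valuation.ne_zero_iff _).2 hb')))
  have hV' : ∀ m, V' m = pull he (V m) := by
    intro m
    ext g
    exact hP.mem_iff m g
  have hfr : ∀ m, Module.finrank k (V' m) ≤
      Module.finrank k (V' m ⊓ pull he U₀ : Submodule k (PowerSeries k)) + c' := by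
    intro m
    have hlift : ∀ f ∈ V m, ∃ g, io g = emb v f := fun f hf => by
      obtain ⟨g, -, hg⟩ := hP.lift m f hf
      exact ⟨g, hg⟩
    rw [hV' m, pull_inf, finrank_pull he (V m) hlift, finrank_pull he (V m ⊓ U₀)
      (fun f hf => hlift f (Submodule.mem_inf.1 hf).1)]
    have := hP.fin m
    exact hcod (V m) this (hP.wle m)
  -- the precision
  obtain ⟨e, hee⟩ := exists_pow_le hs1 (mul_ne_zero hθ (inv_ne_zero hva))
  have hee' : vE v (x a) * v s ^ e ≤ θ := by
    calc vE v (x a) * v s ^ e ≤ vE v (x a) * (θ * (vE v (x a))⁻¹) := by gcongr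
      _ = θ := by
        rw [mul_comm θ, ← mul_assoc, mul_inv_cancel₀ hva, one_mul]
  obtain ⟨N, m, φ, r', q, hφ1, hφ2, hq, hφ3, hφ4⟩ := hB k n d F' δ c V' x₀ a m₀ yy S p mp
    (pull he U₀) c' hd hP.hom hP.fam hx₀a hyy1 hline' hmin' hp1 hfr e
  choose f hf1 hf2 using fun i => (hP.mem_iff m (φ i)).1 (hφ1 i)
  -- the factor
  obtain ⟨D, hD⟩ : ∃ D, D = io (PowerSeries.X ^ r' * q) := ⟨_, rfl⟩
  have hvD : vE v D = v s ^ r' := by rw [hD, val_Xpow he r' q hq]
  have hvD0 : vE v D ≠ 0 := by
    rw [hvD]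
    exact pow_ne_zero _ hs0
  have hD0 : D ≠ 0 := (Valuation.ne_zero_iff _).1 hvD0
  have hρ0 : vE v (x a * D⁻¹) ≠ 0 := by
    rw [map_mul, map_inv₀]
    exact mul_ne_zero hva (inv_ne_zero hvD0)
  obtain ⟨Cc, hCc⟩ := dense_emb he.unif (x a * D⁻¹) (min (θ * (vE v D)⁻¹)
    (v s * vE v (x a * D⁻¹))) (by
      rcases min_choice (θ * (vE v D)⁻¹) (v s * vE v (x a * D⁻¹)) with h | h
      · rw [h]; exact mul_ne_zero hθ (inv_ne_zero hvD0)
      · rw [h]; exact mul_ne_zero hs0 hρ0)
  have hC1 : vE v (emb v Cc * D - x a) ≤ θ := by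
    have h1 : emb v Cc * D - x a = (emb v Cc - x a * D⁻¹) * D := by
      rw [sub_mul, mul_assoc, inv_mul_cancel₀ hD0, mul_one]
    rw [h1, map_mul]
    calc vE v (emb v Cc - x a * D⁻¹) * vE v D ≤ (θ * (vE v D)⁻¹) * vE v D := by
          gcongr
          exact hCc.trans (min_le_left _ _)
      _ = θ := by rw [mul_assoc, inv_mul_cancel₀ hvD0, mul_one]
  have hC2 : vE v (emb v Cc) = vE v (x a * D⁻¹) := by
    apply Valuation.map_eq_of_sub_lt
    refine lt_of_le_of_lt (hCc.trans (min_le_right _ _)) ?_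
    calc v s * vE v (x a * D⁻¹) < 1 * vE v (x a * D⁻¹) := by
          gcongr
          exact zero_lt_iff.2 hρ0
      _ = _ := one_mul _
  have hCc0 : Cc ≠ 0 := by
    rintro rfl
    rw [map_zero, map_zero] at hC2
    exact hρ0 hC2.symm
  have hioφ : (fun i => io (φ i)) = fun i => emb v (f i) := funext hf2
  refine ⟨fun i => Cc * f i, ?_, ?_, ?_⟩
  · rw [eval_smul' hTRI hDEG F d hF]
    have h1 : io (eval φ F') = 0 := by rw [hφ2, map_zero]
    rw [map_eval', hP.map, map_mul, eval_C, hioφ] at h1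
    have h2 : emb v (eval f F) = 0 := by
      rw [map_eval']
      rcases mul_eq_zero.1 h1 with h | h
      · exact absurd h hbe
      · exact h
    have h3 : eval f F = 0 := (emb v).injective (by rw [h2, map_zero])
    rw [h3, mul_zero]
  · intro i
    have h1 : emb v (Cc * f i) - x i = emb v Cc * (io (φ i) - io (PowerSeries.X ^ r' * q * x₀ i)) +
        (emb v Cc * D - x a) * io (x₀ i) := by
      have h2 : x a * io (x₀ i) = x i := by
        rw [hx₀ i, ← mul_assoc, mul_inv_cancel₀ hxa, one_mul]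
      rw [map_mul, ← hf2 i, map_mul io (PowerSeries.X ^ r' * q), ← hD]
      linear_combination h2
    rw [h1]
    refine Valuation.map_add_le _ ?_ ?_
    · rw [map_mul, hC2, ← map_sub]
      have h3 := (he.ord _ _).2 (hφ3 i)
      calc vE v (x a * D⁻¹) * vE v (io (φ i - PowerSeries.X ^ r' * q * x₀ i)) ≤
          vE v (x a * D⁻¹) * v s ^ (r' + e) := by gcongr
        _ = vE v (x a) * v s ^ e := by
          rw [map_mul, map_inv₀, hvD, pow_add]
          have h4 : v s ^ r' ≠ 0 := pow_ne_zero _ hs0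
          field_simp
        _ ≤ θ := hee'
    · rw [map_mul]
      calc vE v (emb v Cc * D - x a) * vE v (io (x₀ i)) ≤ θ * 1 := by
            gcongr
            exact val_le_one he _
        _ = θ := mul_one _
  · intro l
    have hpb0 : pK N * b' ≠ 0 := mul_ne_zero (hpK0 N) hb'
    refine ⟨(Cc * (pK N * b'))⁻¹, inv_ne_zero (mul_ne_zero hCc0 hpb0), fun i => ?_⟩
    obtain ⟨u, hu1, hu2⟩ := hφ4 i
    have h1 : f i - pK N * (b' * y i) = u := by
      apply (emb v).injective
      rw [← hu2, map_sub (emb v), map_mul (emb v) (pK N), ← hf2 i, ← hyy2 i, ← hpK N, map_sub io,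
        map_mul io]
    have h2 : (Cc * (pK N * b'))⁻¹ * (Cc * f i) - y i = (pK N * b')⁻¹ * u := by
      rw [← h1]
      have := hpK0 N
      field_simp
    rw [h2, map_mul, map_inv₀, map_mul, inv_mul_le_iff₀ (zero_lt_iff.2 (mul_ne_zero
      ((Valuation.ne_zero_iff _).2 (hpK0 N)) ((Valuation.ne_zero_iff _).2 hb')))]
    calc w l u ≤ η l * (κ l * w l b') := (hU₀ u).1 hu1 l
      _ ≤ η l * (w l (pK N) * w l b') := by
        gcongr
        exact hpκ N l
      _ = _ := by rw [mul_comm]

end Pool.Agent.WL
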