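import Pool.Agent.WL.Targets

/-!
# The refined system is given by polynomial equations in the unknowns
-/

set_option autoImplicit false

open MvPolynomial

namespace Pool.Agent.WL

namespace SYSF_

section general

variable {A B σ : Type} [CommRing A] [CommRing B]

/-- Division by `X ^ N`, forgetting the first `N` coefficients. -/
noncomputable def sh (N : ℕ) (f : PowerSeries A) : PowerSeries A :=
  PowerSeries.mk fun a => PowerSeries.coeff (a + N) f

lemma map_sh (ρ : A →+* B) (N : ℕ) (f : PowerSeries A) :
    PowerSeries.map ρ (sh N f) = sh N (PowerSeries.map ρ f) := by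
  ext a
  simp [sh]

lemma eq_of_coeff {N : ℕ} {f : PowerSeries A} (h : ∀ a < N, PowerSeries.coeff a f = 0) :
    f = PowerSeries.X ^ N * sh N f := by
  ext a
  rw [PowerSeries.coeff_X_pow_mul']
  split_ifs with ha
  · rw [sh, PowerSeries.coeff_mk, Nat.sub_add_cancel ha]
  · exact h a (not_le.mp ha)

lemma sh_X_pow_mul (N : ℕ) (f : PowerSeries A) : sh N (PowerSeries.X ^ N * f) = f := by
  ext a
  rw [sh, PowerSeries.coeff_mk, PowerSeries.coeff_X_pow_mul']
  simp

lemma coeff_X_pow_mul_zero (N : ℕ) (f : PowerSeries A) (a : ℕ) (ha : a < N) :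
    PowerSeries.coeff a (PowerSeries.X ^ N * f) = 0 := by
  rw [PowerSeries.coeff_X_pow_mul', if_neg (not_le.mpr ha)]

/-- The partial remainders. -/
noncomputable def AA (F : MvPolynomial σ (PowerSeries A)) (N : ℕ) (x ψ : σ → PowerSeries A)
    (q : PowerSeries A) : ℕ → PowerSeries A
  | 0 => (onLine F x ψ).coeff 0
  | (j + 1) => q * sh N (AA F N x ψ q j) + (onLine F x ψ).coeff (j + 1)

lemma map_AA (ρ : A →+* B) (F : MvPolynomial σ (PowerSeries A)) (N : ℕ)
    (x ψ : σ → PowerSeries A) (q : PowerSeries A) (j : ℕ) :
    PowerSeries.map ρ (AA F N x ψ q j) =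
      AA (F.map (PowerSeries.map ρ)) N (fun i => PowerSeries.map ρ (x i))
        (fun i => PowerSeries.map ρ (ψ i)) (PowerSeries.map ρ q) j := by
  induction j with
  | zero =>
    simp only [AA]
    rw [onLine_map, Polynomial.coeff_map]
  | succ j ih =>
    simp only [AA]
    rw [map_add, map_mul, map_sh, ih, onLine_map, Polynomial.coeff_map]

/-- The refined system in terms of the partial remainders. -/
lemma sys_iff (F : MvPolynomial σ (PowerSeries A)) (d N : ℕ) (hd : 1 ≤ d)
    (x : σ → PowerSeries A) (q : PowerSeries A) (φ : σ → PowerSeries A) :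
    Sys F d N x q φ ↔ (∀ i, ∀ a < N, PowerSeries.coeff a (φ i - q * x i) = 0) ∧
      ∀ j < d, ∀ a < N, PowerSeries.coeff a
        (AA F N x (fun i => sh N (φ i - q * x i)) q j) = 0 := by
  constructor
  · rintro ⟨ψ, B, h1, h2, h3⟩
    have e1 : ∀ i, φ i - q * x i = PowerSeries.X ^ N * ψ i := by
      intro i
      rw [h1 i]
      ring
    have e2 : (fun i => sh N (φ i - q * x i)) = ψ := by
      funext i
      rw [e1 i, sh_X_pow_mul]
    rw [e2]
    have e3 : ∀ j < d, AA F N x ψ q j = PowerSeries.X ^ N * B j := by
      intro j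
      induction j with
      | zero =>
        intro _
        simp only [AA]
        exact h2
      | succ j ih =>
        intro hj
        simp only [AA]
        rw [ih (by omega), sh_X_pow_mul, h3 j hj]
        ring
    refine ⟨?_, ?_⟩
    · intro i a ha
      rw [e1 i]
      exact coeff_X_pow_mul_zero N _ a ha
    · intro j hj a ha
      rw [e3 j hj]
      exact coeff_X_pow_mul_zero N _ a ha
  · rintro ⟨h1, h2⟩
    set ψ : σ → PowerSeries A := fun i => sh N (φ i - q * x i) with hψ
    refine ⟨ψ, fun j => sh N (AA F N x ψ q j), ?_, ?_, ?_⟩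
    · intro i
      have e1 := eq_of_coeff (h1 i)
      rw [hψ]
      simp only
      rw [← e1]
      ring
    · have e1 := eq_of_coeff (h2 0 (by omega))
      simp only [AA] at e1 ⊢
      exact e1
    · intro j hj
      have e1 := eq_of_coeff (h2 (j + 1) hj)
      have e2 : AA F N x ψ q (j + 1) =
        q * sh N (AA F N x ψ q j) + (onLine F x ψ).coeff (j + 1) := rfl
      simp only
      rw [← e1, e2]
      ring

end general

section nat

variable {n N M : ℕ} {k : Type} [Field k] {A B : Type} [CommRing A] [CommRing B] [Algebra k A]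
  [Algebra k B] (ρ : A →ₐ[k] B)

lemma map_xS (z : Idx n N M → A) (i : Fin (n + 1)) :
    PowerSeries.map (ρ : A →+* B) (xS z i) = xS (fun j => ρ (z j)) i := by
  ext a
  simp only [xS, PowerSeries.coeff_map, PowerSeries.coeff_mk]
  split_ifs
  · rfl
  · exact map_zero _

lemma map_qS (z : Idx n N M → A) :
    PowerSeries.map (ρ : A →+* B) (qS z) = qS (fun j => ρ (z j)) := by
  ext a
  simp only [qS, PowerSeries.coeff_map, PowerSeries.coeff_mk]
  split_ifs
  · rfl
  · exact map_zero _

lemma map_phiS (e : Fin M → PowerSeries k) (z : Idx n N M → A) (i : Fin (n + 1)) :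
    PowerSeries.map (ρ : A →+* B) (phiS e z i) = phiS e (fun j => ρ (z j)) i := by
  simp only [phiS, map_sum, map_mul, PowerSeries.map_C]
  refine Finset.sum_congr rfl fun b _ => ?_
  congr 1
  ext a
  simp only [PowerSeries.coeff_map]
  exact ρ.commutes _

end nat

end SYSF_

open SYSF_ in
theorem p_SYSF : T_SYSF := by
  classical
  intro k _ n d N M F e O hd
  set U : Type := MvPolynomial (Idx n N M) k with hU
  set zU : Idx n N M → U := fun j => X j with hzU
  set FU : MvPolynomial (Fin (n + 1)) (PowerSeries U) :=
    F.map (PowerSeries.map (algebraMap k U)) with hFU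
  set f1 : Finset U := (Finset.univ : Finset (Fin (n + 1) × Fin N)).image
    fun p => PowerSeries.coeff (p.2 : ℕ) (phiS e zU p.1 - qS zU * xS zU p.1) with hf1
  set f2 : Finset U := (Finset.univ : Finset (Fin d × Fin N)).image
    fun p => PowerSeries.coeff (p.2 : ℕ)
      (AA FU N (xS zU) (fun i => sh N (phiS e zU i - qS zU * xS zU i)) (qS zU) (p.1 : ℕ)) with hf2
  set f3 : Finset U := O.image fun o => PowerSeries.coeff o (eval (phiS e zU) FU) with hf3
  refine ⟨f1 ∪ f2 ∪ f3, ?_, ?_⟩
  · refine (Finset.card_union_le _ _).trans ?_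
    refine add_le_add ((Finset.card_union_le _ _).trans (add_le_add ?_ ?_)) ?_
    · refine Finset.card_image_le.trans ?_
      simp
    · refine Finset.card_image_le.trans ?_
      simp
    · exact Finset.card_image_le
  · intro L _ _ z
    set ρ : U →ₐ[k] L := aeval z with hρ
    have hz : (fun j => ρ (zU j)) = z := by
      funext j
      exact MvPolynomial.aeval_X z j
    have hFL : FU.map (PowerSeries.map (ρ : U →+* L)) = upF L F := by
      have hcomp : (PowerSeries.map (ρ : U →+* L)).comp (PowerSeries.map (algebraMap k U)) =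
          PowerSeries.map (algebraMap k L) := by
        ext f a
        simp only [RingHom.comp_apply, PowerSeries.coeff_map]
        exact ρ.commutes _
      rw [hFU, upF, up, MvPolynomial.map_map, hcomp]
    have hx : ∀ i, PowerSeries.map (ρ : U →+* L) (xS zU i) = xS z i := by
      intro i
      rw [map_xS, hz]
    have hq : PowerSeries.map (ρ : U →+* L) (qS zU) = qS z := by rw [map_qS, hz]
    have hphi : ∀ i, PowerSeries.map (ρ : U →+* L) (phiS e zU i) = phiS e z i := by
      intro i
      rw [map_phiS, hz]
    have hc1 : ∀ i a, ρ (PowerSeries.coeff a (phiS e zU i - qS zU * xS zU i)) =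
        PowerSeries.coeff a (phiS e z i - qS z * xS z i) := by
      intro i a
      rw [← hx, ← hq, ← hphi, ← map_mul, ← map_sub, PowerSeries.coeff_map]
      rfl
    have hc2 : ∀ j a, ρ (PowerSeries.coeff a
        (AA FU N (xS zU) (fun i => sh N (phiS e zU i - qS zU * xS zU i)) (qS zU) j)) =
        PowerSeries.coeff a (AA (upF L F) N (xS z) (fun i => sh N (phiS e z i - qS z * xS z i))
          (qS z) j) := by
      intro j a
      have e1 := map_AA (ρ : U →+* L) FU N (xS zU)
        (fun i => sh N (phiS e zU i - qS zU * xS zU i)) (qS zU) j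
      have e2 : (fun i => PowerSeries.map (ρ : U →+* L)
          (sh N (phiS e zU i - qS zU * xS zU i))) =
          fun i => sh N (phiS e z i - qS z * xS z i) := by
        funext i
        rw [map_sh, map_sub, map_mul, hx, hq, hphi]
      have e3 : (fun i => PowerSeries.map (ρ : U →+* L) (xS zU i)) = xS z := funext hx
      rw [hFL, hq, e2, e3] at e1
      rw [← e1, PowerSeries.coeff_map]
      rfl
    have hc3 : ∀ o, ρ (PowerSeries.coeff o (eval (phiS e zU) FU)) =
        PowerSeries.coeff o (eval (phiS e z) (upF L F)) := by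
      intro o
      have e1 : PowerSeries.map (ρ : U →+* L) (eval (phiS e zU) FU) =
          eval (phiS e z) (upF L F) := by
        rw [← hFL, MvPolynomial.eval_map (PowerSeries.map (ρ : U →+* L)) (phiS e z) FU]
        have e2 := MvPolynomial.eval₂_comp_left (PowerSeries.map (ρ : U →+* L))
          (RingHom.id (PowerSeries U)) (phiS e zU) FU
        rw [RingHom.comp_id] at e2
        have e3 : (⇑(PowerSeries.map (ρ : U →+* L)) ∘ phiS e zU) = phiS e z := funext hphi
        rw [e3] at e2
        exact e2
      rw [← e1, PowerSeries.coeff_map]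
      rfl
    rw [sys_iff (upF L F) d N hd]
    constructor
    · intro h
      refine ⟨⟨?_, ?_⟩, ?_⟩
      · intro i a ha
        rw [← hc1]
        apply h
        rw [Finset.mem_union, Finset.mem_union]
        left
        left
        rw [hf1, Finset.mem_image]
        exact ⟨(i, ⟨a, ha⟩), Finset.mem_univ _, rfl⟩
      · intro j hj a ha
        rw [← hc2]
        apply h
        rw [Finset.mem_union, Finset.mem_union]
        left
        right
        rw [hf2, Finset.mem_image]
        exact ⟨(⟨j, hj⟩, ⟨a, ha⟩), Finset.mem_univ _, rfl⟩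
      · intro o ho
        rw [← hc3]
        apply h
        rw [Finset.mem_union]
        right
        rw [hf3, Finset.mem_image]
        exact ⟨o, ho, rfl⟩
    · rintro ⟨⟨h1, h2⟩, h3⟩ g hg
      rw [Finset.mem_union, Finset.mem_union] at hg
      rcases hg with (hg | hg) | hg
      · rw [hf1, Finset.mem_image] at hg
        obtain ⟨⟨i, a⟩, -, rfl⟩ := hg
        rw [hc1]
        exact h1 i a a.2
      · rw [hf2, Finset.mem_image] at hg
        obtain ⟨⟨j, a⟩, -, rfl⟩ := hg
        rw [hc2]
        exact h2 j j.2 a a.2
      · rw [hf3, Finset.mem_image] at hg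
        obtain ⟨o, ho, rfl⟩ := hg
        rw [hc3]
        exact h3 o ho

end Pool.Agent.WL
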