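import Pool.Agent.WL.Targets

/-!
# Few equations force the vanishing of the form
-/

set_option autoImplicit false

open MvPolynomial

namespace Pool.Agent.WL

namespace ZR_

variable {k L : Type} [Field k] [Field L] [Algebra k L]

theorem C_mul_eq (a : L) (f : PowerSeries L) : PowerSeries.C a * f = a • f := by
  rw [PowerSeries.smul_eq_C_mul]

theorem up_smul (t : k) (f : PowerSeries k) :
    up k L (t • f) = (algebraMap k L t) • up k L f := by
  rw [PowerSeries.smul_eq_C_mul, map_mul, PowerSeries.smul_eq_C_mul]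
  congr 1
  exact PowerSeries.map_C _ _

/-- elements of the extended space are combinations of an adapted basis -/
theorem mem_span {V : Submodule k (PowerSeries k)} {M : ℕ} {e : Fin M → PowerSeries k}
    {o : Fin M → ℕ} (hA : Adapted V M e o) (f : PowerSeries L)
    (hf : f ∈ Submodule.span L (up k L '' (V : Set (PowerSeries k)))) :
    ∃ t : Fin M → L, f = ∑ b, PowerSeries.C (t b) * up k L (e b) := by
  induction hf using Submodule.span_induction with
  | mem x hx =>
    obtain ⟨g, hg, rfl⟩ := hx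
    obtain ⟨t, ht⟩ := hA.span g hg
    refine ⟨fun b => algebraMap k L (t b), ?_⟩
    rw [ht, map_sum]
    refine Finset.sum_congr rfl fun b _ => ?_
    rw [up_smul, C_mul_eq]
  | zero => exact ⟨fun _ => 0, by simp⟩
  | add x y _ _ hx hy =>
    obtain ⟨t, rfl⟩ := hx
    obtain ⟨s, rfl⟩ := hy
    refine ⟨fun b => t b + s b, ?_⟩
    rw [← Finset.sum_add_distrib]
    refine Finset.sum_congr rfl fun b _ => ?_
    rw [map_add, add_mul]
  | smul a x _ hx =>
    obtain ⟨t, rfl⟩ := hx
    refine ⟨fun b => a * t b, ?_⟩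
    rw [Finset.smul_sum]
    refine Finset.sum_congr rfl fun b _ => ?_
    rw [map_mul, mul_assoc, C_mul_eq a]

end ZR_

theorem p_ZR (hORD : T_ORD) (hCOMB : T_COMB) (hSPAN : T_SPAN) (hSTR : T_STR) : T_ZR := by
  intro k _ n d F δ c V hd hF hV N m M e he
  have := hV.fin (d * m + (d + 1) * c)
  obtain ⟨M', e', o', hA⟩ := hORD k (V (d * m + (d + 1) * c))
  have ho : ∀ b, o' b < δ * (d * m + (d + 1) * c) + c + 1 := by
    intro b
    by_contra hcon
    have h1 : (PowerSeries.X : PowerSeries k) ^ (δ * (d * m + (d + 1) * c) + c + 1) ∣ e' b := by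
      rw [PowerSeries.X_pow_dvd_iff]
      intro a ha
      exact hA.low b a (by omega)
    have h2 := hV.ord _ _ (hA.mem b) h1
    have h3 := hA.lead b
    rw [h2] at h3
    simp at h3
  refine ⟨(Finset.univ.filter fun b => d * N ≤ o' b).image o', ?_, ?_⟩
  · have hsub : (Finset.univ.filter fun b => d * N ≤ o' b).image o' ⊆
        Finset.Ico (d * N) (δ * (d * m + (d + 1) * c) + c + 1) := by
      intro a ha
      obtain ⟨b, hb, rfl⟩ := Finset.mem_image.1 ha
      exact Finset.mem_Ico.2 ⟨(Finset.mem_filter.1 hb).2, ho b⟩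
    refine (Finset.card_le_card hsub).trans ?_
    rw [Nat.card_Ico]
  · intro L _ _ z hS hO
    have hdvd := hSTR (Fin (n + 1)) L (upF L F) d N (xS z) (qS z) (phiS e z) hd
      (hF.map _) hS
    have hmem := hSPAN k n d F δ c V hd hF hV m L (phiS e z) (by
      intro i
      unfold phiS
      refine Submodule.sum_mem _ fun b _ => ?_
      rw [ZR_.C_mul_eq]
      exact Submodule.smul_mem _ _ (Submodule.subset_span ⟨e b, he b, rfl⟩))
    obtain ⟨t, ht⟩ := ZR_.mem_span hA _ hmem
    have h0 : ∀ b, t b = 0 := by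
      refine (hCOMB k _ M' e' o' hA L t).2 fun b => ?_
      rw [← ht]
      by_cases hb : d * N ≤ o' b
      · exact hO _ (Finset.mem_image.2 ⟨b, Finset.mem_filter.2 ⟨Finset.mem_univ b, hb⟩, rfl⟩)
      · exact PowerSeries.X_pow_dvd_iff.1 hdvd _ (by omega)
    rw [ht]
    exact Finset.sum_eq_zero fun b _ => by rw [h0 b, map_zero, zero_mul]

end Pool.Agent.WL
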