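import Pool.Agent.WL.Targets2

/-!
# WL-DENS: algebraic points outside of `Δ = 0` are dense
-/

set_option autoImplicit false

open MvPolynomial WithZero Topology
open Pool.Agent.WA

namespace Pool.Agent.WL

namespace DENS_

theorem infinite_ball {K E : Type} [Field K] [Field E] [Algebra K E] [hv : Valued E ℤᵐ⁰] {π : E}
    (hπ : IsUnif hv.v π)
    (hdense : ∀ (e : E) (c : ℤᵐ⁰), c ≠ 0 → ∃ k : K, hv.v (algebraMap K E k - e) ≤ c)
    (e : E) {c : ℤᵐ⁰} (hc : c ≠ 0) :
    {k : K | hv.v (algebraMap K E k - e) ≤ c}.Infinite := by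
  obtain ⟨N, hN⟩ := exists_pow_le hπ.lt_one hc
  have hg0 : hv.v π ≠ 0 := hπ.ne_zero
  have hg1 : hv.v π < 1 := hπ.lt_one
  have hlt : ∀ {m m' : ℕ}, m < m' → hv.v π ^ m' < hv.v π ^ m := fun {m m'} h =>
    pow_lt_pow_right_of_lt_one₀ (zero_lt_iff.mpr hg0) hg1 h
  have h : ∀ m : ℕ, ∃ k : K,
      hv.v (algebraMap K E k - (e + π ^ (N + m))) ≤ hv.v π ^ (N + m + 1) :=
    fun m => hdense _ _ (pow_ne_zero _ hg0)
  choose k hk using h
  have hval : ∀ m, hv.v (algebraMap K E (k m) - e) = hv.v π ^ (N + m) := by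
    intro m
    have e1 : algebraMap K E (k m) - e =
        (algebraMap K E (k m) - (e + π ^ (N + m))) + π ^ (N + m) := by ring
    have h2 : hv.v (algebraMap K E (k m) - (e + π ^ (N + m))) < hv.v (π ^ (N + m)) := by
      rw [map_pow]
      exact (hk m).trans_lt (hlt (Nat.lt_succ_self _))
    rw [e1, Valuation.map_add_eq_of_lt_right _ h2, map_pow]
  refine Set.infinite_of_injective_forall_mem (f := k) ?_ ?_
  · intro m m' hmm
    by_contra hne
    have h1 := hval m
    rw [hmm, hval m'] at h1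
    rcases lt_or_gt_of_ne hne with h2 | h2
    · exact absurd h1 (ne_of_lt (hlt (by omega)))
    · exact absurd h1 (ne_of_gt (hlt (by omega)))
  · intro m
    change hv.v (algebraMap K E (k m) - e) ≤ c
    rw [hval m]
    refine le_trans ?_ hN
    rcases Nat.eq_zero_or_pos m with rfl | hm
    · simp
    · exact (hlt (by omega)).le

theorem aeval_congr {K E σ : Type} [Field K] [Field E] [Algebra K E] [DecidableEq σ]
    (R : MvPolynomial σ K) (i : σ) (hi : i ∉ R.vars) (a : σ → E) (s : E) :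
    aeval (a + Pi.single i s) R = aeval a R := by
  refine MvPolynomial.eval₂Hom_congr' rfl ?_ rfl
  intro j hj _
  have hji : j ≠ i := by
    rintro rfl
    exact hi hj
  simp [hji]

theorem main (h2 : T_RSLT) {K E : Type} [Field K] [Field E] [Algebra K E] [Infinite K]
    [hv : Valued E ℤᵐ⁰] [CompleteSpace E] {π : E} (hπ : IsUnif hv.v π)
    (hdense : ∀ (e : E) (c : ℤᵐ⁰), c ≠ 0 → ∃ k : K, hv.v (algebraMap K E k - e) ≤ c)
    {n : ℕ} (F Δ : MvPolynomial (Fin (n + 1)) K)
    (hsm : SmoothForm F) (hirr : Irreducible F) (hndvd : ¬ F ∣ Δ) (x : Fin (n + 1) → E)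
    (hx0 : x ≠ 0) (hx : aeval x F = 0) {θ : ℤᵐ⁰} (hθ : θ ≠ 0) :
    ∃ x' : Fin (n + 1) → E, (∀ i, hv.v (x' i - x i) ≤ θ) ∧ aeval x' F = 0 ∧
      aeval x' Δ ≠ 0 ∧ ∀ i, IsAlgebraic K (x' i) := by
  classical
  have hx' : eval x (F.map (algebraMap K E)) = 0 := by
    rw [eval_map, ← aeval_def]
    exact hx
  obtain ⟨i, hi⟩ : ∃ i, eval x (pderiv i (F.map (algebraMap K E))) ≠ 0 := by
    by_contra hall
    simp only [not_exists, not_not] at hall
    apply hx0
    apply hsm E x hx
    intro i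
    have h := hall i
    rw [pderiv_map, eval_map, ← aeval_def] at h
    exact h
  have hpd : pderiv i F ≠ 0 := by
    intro h
    apply hi
    rw [pderiv_map, h, map_zero, map_zero]
  obtain ⟨A, B, R, hAB, hR0, hRi⟩ := h2 K (Fin (n + 1)) F Δ i
    hirr hpd hndvd
  obtain ⟨ρ, hρ0, hρ⟩ := newton hπ (F.map (algebraMap K E)) x hx' i hi hθ
  have hmin : min ρ θ ≠ 0 := by
    rcases min_choice ρ θ with h | h <;> rw [h] <;> assumption
  obtain ⟨a, haS, haR⟩ : ∃ a ∈ Set.pi Set.univ
      (fun l => {k : K | hv.v (algebraMap K E k - x l) ≤ min ρ θ}), eval a R ≠ 0 := by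
    by_contra hall
    apply hR0
    refine MvPolynomial.funext_set
      (fun l => {k : K | hv.v (algebraMap K E k - x l) ≤ min ρ θ})
      (fun l => infinite_ball hπ hdense (x l) hmin) fun y hy => ?_
    by_contra hne
    rw [map_zero] at hne
    exact hall ⟨y, hy, hne⟩
  have ha : ∀ l, hv.v (algebraMap K E (a l) - x l) ≤ min ρ θ := fun l => haS l (Set.mem_univ l)
  obtain ⟨s, hs, hFs, s', hs'⟩ := hρ (fun l => algebraMap K E (a l))
    (fun l => (ha l).trans (min_le_left _ _))
  have hFs0 := hFs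
  rw [← aeval_restrictLine] at hFs hs'
  have hP0 : restrictLine F a i ≠ 0 := by
    intro h
    rw [h, map_zero] at hs'
    exact hs' rfl
  have halg : IsAlgebraic K s := ⟨_, hP0, hFs⟩
  have hFx : aeval ((fun l => algebraMap K E (a l)) + Pi.single i s) F = 0 := by
    rw [eval_map, ← aeval_def] at hFs0
    exact hFs0
  have q1 : ∀ l, hv.v (((fun l => algebraMap K E (a l)) + Pi.single i s : Fin (n + 1) → E) l -
      x l) ≤ θ := by
    intro l
    have e : ((fun l => algebraMap K E (a l)) + Pi.single i s : Fin (n + 1) → E) l - x l =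
        (algebraMap K E (a l) - x l) + (Pi.single i s : Fin (n + 1) → E) l := by
      simp only [Pi.add_apply]; ring
    rw [e]
    refine hv.v.map_add_le ((ha l).trans (min_le_right _ _)) ?_
    by_cases hl : l = i
    · subst hl; simpa using hs
    · simp [hl]
  have q2 : aeval ((fun l => algebraMap K E (a l)) + Pi.single i s : Fin (n + 1) → E) Δ ≠ 0 := by
    intro hΔ
    have h3 := congrArg (aeval ((fun l => algebraMap K E (a l)) + Pi.single i s)) hAB
    rw [map_add, map_mul, map_mul, hFx, hΔ, mul_zero, mul_zero, add_zero] at h3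
    rw [aeval_congr R i hRi] at h3
    apply haR
    have h4 : aeval (fun l => algebraMap K E (a l)) R = algebraMap K E (eval a R) :=
      aeval_algebraMap_apply E a R
    rw [h4] at h3
    exact (map_eq_zero (algebraMap K E)).1 h3.symm
  have q3 : ∀ l, IsAlgebraic K
      (((fun l => algebraMap K E (a l)) + Pi.single i s : Fin (n + 1) → E) l) := by
    intro l
    by_cases hl : l = i
    · subst hl
      simp only [Pi.add_apply, Pi.single_eq_same]
      exact (isAlgebraic_algebraMap _).add halg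
    · simp only [Pi.add_apply, Pi.single_eq_of_ne hl, add_zero]
      exact isAlgebraic_algebraMap _
  exact ⟨_, q1, hFx, q2, q3⟩

end DENS_

open DENS_ in
theorem p_DENS (h1 : T_IRR) (h2 : T_RSLT) : T_DENS := by
  intro K E _ _ _ _ hv _ π hπ hdense n d F Δ hd1 hdn hF hsm hndvd x hx0 hx θ hθ
  exact main h2 hπ hdense F Δ hsm (h1 K n d F hd1 hdn hF hsm) hndvd x hx0 hx hθ

end Pool.Agent.WL
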