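import Pool.Agent.WL.Targets3

/-!
# Pseudo-division by the universal form
-/

set_option autoImplicit false

open MvPolynomial

namespace Pool.Agent.WL

namespace DIVR_

/-- Pseudo-division of polynomials in one variable. -/
theorem pdiv {S : Type} [CommRing S] (f : Polynomial S) (d : ℕ) (hf : f.natDegree ≤ d) :
    ∀ (m : ℕ) (g : Polynomial S), (∀ i, m ≤ i → g.coeff i = 0) →
      ∃ (N : ℕ) (q r : Polynomial S), Polynomial.C (f.coeff d) ^ N * g = q * f + r ∧
        ∀ i, d ≤ i → r.coeff i = 0 := by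
  intro m
  induction m with
  | zero =>
    intro g hg
    exact ⟨0, 0, g, by ring, fun i _ => hg i (Nat.zero_le i)⟩
  | succ m ih =>
    intro g hg
    rcases Nat.lt_or_ge m d with hmd | hmd
    · exact ⟨0, 0, g, by ring, fun i hi => hg i (by omega)⟩
    · obtain ⟨N, q, r, h1, h2⟩ := ih (Polynomial.C (f.coeff d) * g -
          Polynomial.C (g.coeff m) * (Polynomial.X ^ (m - d) * f)) (by
        intro i hi
        rw [Polynomial.coeff_sub, Polynomial.coeff_C_mul, Polynomial.coeff_C_mul,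
          Polynomial.coeff_X_pow_mul', if_pos (by omega)]
        rcases Nat.eq_or_lt_of_le hi with h | h
        · rw [← h, show m - (m - d) = d by omega]
          ring
        · have h5 : f.coeff (i - (m - d)) = 0 :=
            Polynomial.coeff_eq_zero_of_natDegree_lt (by omega)
          rw [hg i h, h5]
          ring)
      refine ⟨N + 1, q + Polynomial.C (f.coeff d) ^ N * (Polynomial.C (g.coeff m) *
        Polynomial.X ^ (m - d)), r, ?_, h2⟩
      linear_combination h1

/-- Pseudo-division with respect to the first variable. -/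
theorem mdiv {A : Type} [CommRing A] (n d : ℕ) (F G : MvPolynomial (Fin (n + 1)) A)
    (hF : F.IsHomogeneous d) : ∃ (N : ℕ) (q r : MvPolynomial (Fin (n + 1)) A),
      C (F.coeff (Finsupp.single 0 d)) ^ N * G = q * F + r ∧ ∀ m, coeff m r ≠ 0 → m 0 < d := by
  have hdeg : ∀ m : Fin (n + 1) →₀ ℕ, coeff m F ≠ 0 → ∑ i, m i = d := by
    intro m hm
    by_contra h
    exact hm (hF.coeff_eq_zero (by rwa [Finsupp.degree_eq_sum]))
  have h1 : (finSuccEquiv A n F).natDegree ≤ d := by
    rw [natDegree_finSuccEquiv, degreeOf_le_iff]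
    intro m hm
    rw [← hdeg m (mem_support_iff.1 hm)]
    exact Finset.single_le_sum (f := fun i => m i) (fun i _ => Nat.zero_le _) (Finset.mem_univ 0)
  have h2 : (finSuccEquiv A n F).coeff d = C (F.coeff (Finsupp.single 0 d)) := by
    ext m
    rw [finSuccEquiv_coeff_coeff, coeff_C]
    by_cases hm : 0 = m
    · rw [if_pos hm, ← hm]
      congr 1
      ext i
      refine Fin.cases ?_ (fun j => ?_) i
      · simp
      · simp
    · rw [if_neg hm]
      by_contra h
      have h3 := hdeg _ h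
      rw [Fin.sum_univ_succ, Finsupp.cons_zero] at h3
      apply hm
      ext j
      have h4 : ∑ i : Fin n, (Finsupp.cons d m) i.succ = 0 := by omega
      have h5 := (Finset.sum_eq_zero_iff.1 h4) j (Finset.mem_univ j)
      rw [Finsupp.cons_succ] at h5
      exact h5.symm
  obtain ⟨N, q, r, h3, h4⟩ := pdiv (finSuccEquiv A n F) d h1 _ (finSuccEquiv A n G)
    (fun i hi => Polynomial.coeff_eq_zero_of_natDegree_lt (Nat.lt_of_succ_le hi))
  refine ⟨N, (finSuccEquiv A n).symm q, (finSuccEquiv A n).symm r, ?_, ?_⟩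
  · apply (finSuccEquiv A n).injective
    rw [map_mul, map_add, map_mul, AlgEquiv.apply_symm_apply, AlgEquiv.apply_symm_apply, map_pow,
      ← h3, h2]
    congr 2
    rw [finSuccEquiv_apply, coe_eval₂Hom, eval₂_C]
    rfl
  · intro m hm
    by_contra h
    apply hm
    have h5 := finSuccEquiv_coeff_coeff m.tail ((finSuccEquiv A n).symm r) (m 0)
    rw [Finsupp.cons_tail, AlgEquiv.apply_symm_apply, h4 _ (not_lt.1 h), coeff_zero] at h5
    exact h5.symm

/-- Degrees with respect to the first variable. -/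
theorem not_dvd {K : Type} [Field K] (n d : ℕ) (F r : MvPolynomial (Fin (n + 1)) K)
    (h : F.coeff (Finsupp.single 0 d) ≠ 0) (hr : r ≠ 0) (hrd : ∀ m, coeff m r ≠ 0 → m 0 < d) :
    ¬ F ∣ r := by
  intro hd
  have h1 : finSuccEquiv K n F ∣ finSuccEquiv K n r := map_dvd _ hd
  have h2 : finSuccEquiv K n r ≠ 0 := by
    intro h0
    apply hr
    apply (finSuccEquiv K n).injective
    rw [h0, map_zero]
  have h3 := Polynomial.natDegree_le_of_dvd h1 h2
  have h4 : d ≤ (finSuccEquiv K n F).natDegree := by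
    apply Polynomial.le_natDegree_of_ne_zero
    intro h0
    apply h
    have h5 := finSuccEquiv_coeff_coeff 0 F d
    rw [h0, coeff_zero] at h5
    have h6 : (Finsupp.single 0 d : Fin (n + 1) →₀ ℕ) = Finsupp.cons d 0 := by
      ext i
      refine Fin.cases ?_ (fun j => ?_) i
      · simp
      · simp
    rw [h6, ← h5]
  have h5 : (finSuccEquiv K n r).coeff (finSuccEquiv K n r).natDegree ≠ 0 := by
    rw [Polynomial.coeff_natDegree]
    exact Polynomial.leadingCoeff_ne_zero.2 h2
  obtain ⟨m, hm⟩ := ne_zero_iff.1 h5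
  rw [finSuccEquiv_coeff_coeff] at hm
  have h6 := hrd _ hm
  rw [Finsupp.cons_zero] at h6
  omega

theorem mon_finite (n d : ℕ) : Finite (Mon n d) := by
  have h : ∀ μ : Mon n d, μ.1 ∈ Finset.finsuppAntidiag Finset.univ d := by
    intro μ
    rw [Finset.mem_finsuppAntidiag]
    exact ⟨μ.2, Finset.subset_univ _⟩
  exact Finite.of_injective (fun μ : Mon n d =>
    (⟨μ.1, h μ⟩ : (Finset.finsuppAntidiag (Finset.univ : Finset (Fin (n + 1))) d :
      Finset (Fin (n + 1) →₀ ℕ)))) (by
    intro μ ν hμν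
    have h1 : μ.1 = ν.1 := (Subtype.mk.injEq _ _ _ _).mp hμν
    exact Subtype.ext h1)

/-- The universal form. -/
theorem exists_univ (k₀ : Type) [Field k₀] (n d : ℕ) :
    ∃ Fu : MvPolynomial (Fin (n + 1)) (MvPolynomial (Mon n d) k₀), Fu.IsHomogeneous d ∧
      (∀ μ : Mon n d, Fu.coeff μ.1 = X μ) ∧
      ∀ (K : Type) [Field K] (s : MvPolynomial (Mon n d) k₀ →+* K)
        (F' : MvPolynomial (Fin (n + 1)) K), F'.IsHomogeneous d →
        (∀ μ : Mon n d, s (X μ) = F'.coeff μ.1) → Fu.map s = F' := by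
  classical
  have := mon_finite n d
  have := Fintype.ofFinite (Mon n d)
  set Fu : MvPolynomial (Fin (n + 1)) (MvPolynomial (Mon n d) k₀) :=
    ∑ μ : Mon n d, monomial μ.1 (X μ) with hFu
  have hco : ∀ m : Fin (n + 1) →₀ ℕ, Fu.coeff m =
      if h : ∑ i, m i = d then X ⟨m, h⟩ else 0 := by
    intro m
    rw [hFu, coeff_sum]
    by_cases h : ∑ i, m i = d
    · rw [dif_pos h, Finset.sum_eq_single ⟨m, h⟩]
      · rw [coeff_monomial, if_pos rfl]
      · intro μ _ hμ
        rw [coeff_monomial, if_neg]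
        intro h1
        exact hμ (Subtype.ext h1)
      · intro h1
        exact absurd (Finset.mem_univ _) h1
    · rw [dif_neg h]
      apply Finset.sum_eq_zero
      intro μ _
      rw [coeff_monomial, if_neg]
      intro h1
      apply h
      rw [← h1]
      exact μ.2
  refine ⟨Fu, ?_, ?_, ?_⟩
  · rw [hFu]
    apply IsHomogeneous.sum
    intro μ _
    apply isHomogeneous_monomial
    rw [Finsupp.degree_eq_sum]
    exact μ.2
  · intro μ
    rw [hco, dif_pos μ.2]
  · intro K _ s F' hF' hs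
    ext m
    rw [coeff_map, hco]
    by_cases h : ∑ i, m i = d
    · rw [dif_pos h, hs]
    · rw [dif_neg h, map_zero, hF'.coeff_eq_zero]
      rwa [Finsupp.degree_eq_sum]

end DIVR_

open DIVR_ in
theorem p_DIVR : T_DIVR := by
  intro k₀ _ n d M _ _ F x₀ Δ hd hF hind hx hΔ
  obtain ⟨Fu, hFuh, hFuc, hFum⟩ := exists_univ k₀ n d
  set Δu : MvPolynomial (Fin (n + 1)) (MvPolynomial (Mon n d) k₀) :=
    eval₂ ((C : MvPolynomial (Mon n d) k₀ →+* MvPolynomial (Fin (n + 1))
      (MvPolynomial (Mon n d) k₀)).comp C) (Sum.elim (fun μ => C (X μ)) X) Δ with hΔu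
  set μ₀ : Mon n d := ⟨Finsupp.single 0 d, by
    rw [← Finsupp.degree_eq_sum, Finsupp.degree_single]⟩ with hμ₀
  obtain ⟨N, q, r, hdiv, hrd⟩ := mdiv n d Fu Δu hFuh
  have ha : Fu.coeff (Finsupp.single 0 d) = X μ₀ := hFuc μ₀
  rw [ha] at hdiv
  -- specialization
  have hspec : ∀ (K : Type) [Field K] (φ : k₀ →+* K) (c : Mon n d → K),
      Δu.map (eval₂Hom φ c) = eval₂ (C.comp φ) (Sum.elim (fun μ => C (c μ)) X) Δ := by
    intro K _ φ c
    have h1 : (MvPolynomial.map (σ := Fin (n + 1)) (eval₂Hom φ c)).comp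
        (eval₂Hom ((C : MvPolynomial (Mon n d) k₀ →+* MvPolynomial (Fin (n + 1))
          (MvPolynomial (Mon n d) k₀)).comp C) (Sum.elim (fun μ => C (X μ)) X)) =
        eval₂Hom (C.comp φ) (Sum.elim (fun μ => C (c μ)) X) := by
      apply ringHom_ext
      · intro a
        simp
      · rintro (μ | i)
        · simp
        · simp
    exact congrArg (fun f => f Δ) h1
  -- the remainder is not zero
  set sM : MvPolynomial (Mon n d) k₀ →+* M :=
    eval₂Hom (algebraMap k₀ M) (fun μ : Mon n d => F.coeff μ.1) with hsM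
  have hsMinj : Function.Injective sM := hind
  have hr : r ≠ 0 := by
    intro h0
    have h1 := congrArg (fun p => eval x₀ (MvPolynomial.map sM p)) hdiv
    simp only [map_mul, map_pow, map_C, eval_C, h0, add_zero] at h1
    rw [hFum M sM F hF (fun μ => by rw [hsM, coe_eval₂Hom, eval₂_X]), hx, mul_zero] at h1
    rcases mul_eq_zero.1 h1 with h2 | h2
    · have h3 := eq_zero_of_pow_eq_zero h2
      exact X_ne_zero μ₀ (hsMinj (by rw [h3, map_zero]))
    · apply hΔ
      rw [← h2, hsM, hspec, ← coe_eval₂Hom, ← RingHom.comp_apply]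
      have h3 : (eval x₀).comp (eval₂Hom (C.comp (algebraMap k₀ M))
          (Sum.elim (fun μ : Mon n d => C (F.coeff μ.1)) X)) =
          eval₂Hom (algebraMap k₀ M) (Sum.elim (fun μ : Mon n d => F.coeff μ.1) x₀) := by
        apply ringHom_ext
        · intro a
          simp
        · rintro (μ | i)
          · simp
          · simp
      rw [h3]
      rfl
  obtain ⟨m, hm⟩ := ne_zero_iff.1 hr
  refine ⟨X μ₀ * coeff m r, mul_ne_zero (X_ne_zero μ₀) hm, ?_⟩
  intro K _ φ F' hF' hρ hdvd
  rw [eval₂_mul, eval₂_X] at hρ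
  have h1 : F'.coeff (Finsupp.single 0 d) ≠ 0 := left_ne_zero_of_mul hρ
  have h2 : eval₂Hom φ (fun μ : Mon n d => F'.coeff μ.1) (coeff m r) ≠ 0 :=
    right_ne_zero_of_mul hρ
  have h3 := congrArg (MvPolynomial.map (eval₂Hom φ (fun μ : Mon n d => F'.coeff μ.1))) hdiv
  rw [map_mul, map_add, map_mul, hspec,
    hFum K _ F' hF' (fun μ => by rw [coe_eval₂Hom, eval₂_X])] at h3
  have h4 : F' ∣ MvPolynomial.map (eval₂Hom φ (fun μ : Mon n d => F'.coeff μ.1)) r := by
    have h5 : MvPolynomial.map (eval₂Hom φ (fun μ : Mon n d => F'.coeff μ.1)) r =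
        MvPolynomial.map (eval₂Hom φ (fun μ : Mon n d => F'.coeff μ.1)) (C (X μ₀) ^ N) *
          eval₂ (C.comp φ) (Sum.elim (fun μ => C (F'.coeff μ.1)) X) Δ -
        MvPolynomial.map (eval₂Hom φ (fun μ : Mon n d => F'.coeff μ.1)) q * F' := by
      rw [h3]
      ring
    rw [h5]
    exact dvd_sub (Dvd.dvd.mul_left hdvd _) (Dvd.intro_left _ rfl)
  refine not_dvd n d F' _ h1 ?_ ?_ h4
  · rw [ne_zero_iff]
    exact ⟨m, by rwa [coeff_map]⟩
  · intro m' hm'
    apply hrd
    intro h0
    apply hm'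
    rw [coeff_map, h0, map_zero]

end Pool.Agent.WL
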