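import Pool.Agent.WL.Targets2

/-!
# Weak approximation and free lines: good points in characteristic zero (CHAR0)
-/

set_option autoImplicit false

open MvPolynomial WithZero Topology
open Pool.Agent.WA

namespace Pool.Agent.WL

namespace CHAR0_

/-- The target, for `1 ≤ n`. -/
def T_CHAR0' : Prop := ∀ (k : Type) [Field k] [IsAlgClosed k] [CharZero k] (n d : ℕ)
  (F : MvPolynomial (Fin (n + 1)) k), 1 ≤ n → 1 ≤ d → (d = 1 ∨ 2 ≤ n) → F.IsHomogeneous d →
  SmoothForm F → ∃ x : Fin (n + 1) → k, x ≠ 0 ∧ eval x F = 0 ∧ AllFree F d x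

/-- The generic point of an irreducible hypersurface. -/
theorem exists_generic {k : Type} [Field k] {σ : Type} (F : MvPolynomial σ k)
    (hF : Irreducible F) : ∃ (M : Type) (_ : Field M) (_ : IsAlgClosed M) (_ : Algebra k M)
      (ξ : σ → M), (∀ g : MvPolynomial σ k, aeval ξ g = 0 ↔ F ∣ g) ∧
      Algebra.IsAlgebraic (IntermediateField.adjoin k (Set.range ξ)) M := by
  have hp : Prime F := hF.prime
  have hI : (Ideal.span {F} : Ideal (MvPolynomial σ k)).IsPrime :=
    (Ideal.span_singleton_prime hF.ne_zero).2 hp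
  let A := MvPolynomial σ k ⧸ (Ideal.span {F} : Ideal (MvPolynomial σ k))
  let L := FractionRing A
  let M := AlgebraicClosure L
  let ψ : MvPolynomial σ k →ₐ[k] M := (IsScalarTower.toAlgHom k L M).comp
    ((IsScalarTower.toAlgHom k A L).comp (Ideal.Quotient.mkₐ k (Ideal.span {F})))
  have hψ : ∀ g, ψ g = algebraMap L M (algebraMap A L (Ideal.Quotient.mk _ g)) := fun g => rfl
  have hae : aeval (ψ ∘ X) = ψ := (aeval_unique ψ).symm
  refine ⟨M, inferInstance, inferInstance, inferInstance, ψ ∘ X, fun g => ?_, ?_⟩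
  · rw [hae, hψ, map_eq_zero, map_eq_zero_iff _ (IsFractionRing.injective A L),
      Ideal.Quotient.eq_zero_iff_mem, Ideal.mem_span_singleton]
  · set E0 := IntermediateField.adjoin k (Set.range (ψ ∘ X)) with hE0
    have hA : ∀ a : A, algebraMap L M (algebraMap A L a) ∈ E0 := by
      intro a
      obtain ⟨g, rfl⟩ := Ideal.Quotient.mk_surjective a
      rw [← hψ, ← hae]
      have h1 : aeval (ψ ∘ X) g ∈ Algebra.adjoin k (Set.range (ψ ∘ X)) := by
        rw [Algebra.adjoin_range_eq_range_aeval]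
        exact ⟨g, rfl⟩
      exact IntermediateField.algebra_adjoin_le_adjoin k _ h1
    have hL : ∀ l : L, algebraMap L M l ∈ E0 := by
      intro l
      obtain ⟨a, b, hb, rfl⟩ := IsFractionRing.div_surjective (A := A) l
      rw [map_div₀]
      exact E0.div_mem (hA a) (hA b)
    let j : L →+* E0 := (algebraMap L M).codRestrict E0 hL
    have hj : (algebraMap E0 M).comp j = algebraMap L M := by
      ext l
      rfl
    refine ⟨fun y => ?_⟩
    obtain ⟨p, hp0, hpy⟩ := Algebra.IsAlgebraic.isAlgebraic (R := L) y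
    refine ⟨p.map j, (Polynomial.map_ne_zero_iff j.injective).2 hp0, ?_⟩
    rw [Polynomial.aeval_def, Polynomial.eval₂_map, hj, ← Polynomial.aeval_def]
    exact hpy

/-- The generic point is not the zero vector. -/
theorem exists_coord {k : Type} [Field k] {n : ℕ} (hn : 1 ≤ n)
    (F : MvPolynomial (Fin (n + 1)) k) (hF : Irreducible F) {M : Type} [Field M] [Algebra k M]
    (ξ : Fin (n + 1) → M) (hξ : ∀ g : MvPolynomial (Fin (n + 1)) k, aeval ξ g = 0 ↔ F ∣ g) :
    ∃ a, ξ a ≠ 0 := by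
  by_contra hcon
  push Not at hcon
  have hdvd : ∀ a, F ∣ X a := fun a => by
    rw [← hξ, aeval_X]
    exact hcon a
  have h0 : (X 0 : MvPolynomial (Fin (n + 1)) k) ∣ F :=
    ((hF.dvd_irreducible_iff_associated X_prime.irreducible).1 (hdvd 0)).symm.dvd
  have h1 : (X 0 : MvPolynomial (Fin (n + 1)) k) ∣ X (Fin.last n) := h0.trans (hdvd _)
  rw [X_dvd_X] at h1
  have := congrArg Fin.val h1
  simp at this
  omega

end CHAR0_

open CHAR0_ in
/-- Smooth hypersurfaces in characteristic zero have good points. -/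
theorem p_CHAR0' (h1 : T_IRR) (h2 : T_GENF) (h3 : T_GOOD) (h4 : T_NS) : T_CHAR0' := by
  intro k _ _ _ n d F hn hd hdn hF hS
  have hirr : Irreducible F := h1 k n d F hd hdn hF hS
  obtain ⟨M, _, _, _, ξ, hξ, halg⟩ := exists_generic F hirr
  have hfree := h2 k n d F hd hF hS M ξ hξ halg
  obtain ⟨a, ha⟩ := exists_coord hn F hirr ξ hξ
  have hFξ : aeval ξ F = 0 := (hξ F).2 dvd_rfl
  have hξ0 : ξ ≠ 0 := fun h => ha (congrFun h a)
  obtain ⟨Δ, hΔ, hgood⟩ := h3 k n d F hd hF M ξ hξ0 hFξ hfree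
  obtain ⟨z, hz, hz'⟩ := h4 k (Fin (n + 1)) {F} (Δ * X a) M ξ
    (by
      intro h hh
      rw [Finset.mem_singleton.1 hh]
      exact hFξ)
    (by
      rw [map_mul, aeval_X]
      exact mul_ne_zero hΔ ha)
  rw [map_mul, eval_X] at hz'
  refine ⟨z, fun h => right_ne_zero_of_mul hz' (congrFun h a), hz F (Finset.mem_singleton_self F),
    ?_⟩
  have h5 := hgood k (RingHom.id k) z (by
    have : eval₂ (RingHom.id k) z Δ = eval z Δ := rfl
    rw [this]
    exact left_ne_zero_of_mul hz')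
  rwa [MvPolynomial.map_id] at h5

theorem p_CHAR0 (h1 : T_IRR) (h2 : T_GENF) (h3 : T_GOOD) (h4 : T_NS) : T_CHAR0 :=
  p_CHAR0' h1 h2 h3 h4

end Pool.Agent.WL
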