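import Pool.Agent.WL.Targets3
import Pool.Agent.WL.CHAR0

/-!
# Algebraic dependence of the derivatives modulo the form
-/

set_option autoImplicit false

open MvPolynomial

namespace Pool.Agent.WL

namespace DUAL_

theorem dep {K M : Type} [Field K] [Field M] [Algebra K M] {n : ℕ} (ξ : Fin (n + 1) → M)
    (F : MvPolynomial (Fin (n + 1)) K) (hF0 : F ≠ 0) (hF : aeval ξ F = 0)
    (halg : Algebra.IsAlgebraic (IntermediateField.adjoin K (Set.range ξ)) M)
    (ζ : Fin (n + 1) → M) : ¬ AlgebraicIndependent K ζ := by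
  intro hζ
  classical
  have halg' : Algebra.IsAlgebraic (Algebra.adjoin K (Set.range ξ)) M :=
    IntermediateField.isAlgebraic_adjoin_iff_top.1 halg
  obtain ⟨t, ht, hB⟩ := exists_isTranscendenceBasis_subset (R := K) (Set.range ξ)
  have hfin : t.Finite := (Set.finite_range ξ).subset ht
  have h1 := hB.isAlgebraic
  rw [Subtype.range_coe] at h1
  have h2 := Pool.Agent.WA.card_le_of_algebraic ζ hζ hfin.toFinset (by
    intro i
    rw [hfin.coe_toFinset]
    exact h1.isAlgebraic _)
  rw [Fintype.card_fin] at h2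
  have h3 : hfin.toFinset ⊆ Finset.univ.image ξ := by
    intro x hx
    rw [Set.Finite.mem_toFinset] at hx
    obtain ⟨i, hi⟩ := ht hx
    exact Finset.mem_image.2 ⟨i, Finset.mem_univ i, hi⟩
  have h4 : (Finset.univ.image ξ).card ≤ n + 1 := by
    refine Finset.card_image_le.trans ?_
    simp
  have h5 : hfin.toFinset = Finset.univ.image ξ :=
    Finset.eq_of_subset_of_card_le h3 (h4.trans h2)
  have hinj : Function.Injective ξ := by
    have h6 : (Finset.univ.image ξ).card = (Finset.univ : Finset (Fin (n + 1))).card := by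
      rw [Finset.card_univ, Fintype.card_fin]
      rw [← h5]
      have := Finset.card_le_card h3
      omega
    have h7 := Finset.card_image_iff.1 h6
    rw [Finset.coe_univ, Set.injOn_univ] at h7
    exact h7
  have h8 : t = Set.range ξ := by
    refine Set.Subset.antisymm ht ?_
    rintro _ ⟨i, rfl⟩
    have : ξ i ∈ hfin.toFinset := by
      rw [h5]
      exact Finset.mem_image_of_mem ξ (Finset.mem_univ i)
    exact (Set.Finite.mem_toFinset hfin).1 this
  subst h8
  have h9 : AlgebraicIndependent K ξ := AlgebraicIndependent.of_subtype_range hinj hB.1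
  exact hF0 (algebraicIndependent_iff.1 h9 F hF)

theorem dvd_component {K σ : Type} [Field K] {F G : MvPolynomial σ K} {d : ℕ}
    (hF : F.IsHomogeneous d) (h : F ∣ G) (m : ℕ) : F ∣ homogeneousComponent m G := by
  obtain ⟨H, rfl⟩ := h
  have h1 : F * H = ∑ j ∈ Finset.range (H.totalDegree + 1), F * homogeneousComponent j H := by
    rw [← Finset.mul_sum, sum_homogeneousComponent]
  rw [h1, map_sum]
  refine Finset.dvd_sum fun j _ => ?_
  rw [homogeneousComponent_of_mem (hF.mul (homogeneousComponent_isHomogeneous j H))]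
  split_ifs
  · exact dvd_mul_right _ _
  · exact dvd_zero _

theorem component_aeval {K σ τ : Type} [Field K] {g : σ → MvPolynomial τ K} {d : ℕ} (hd : 0 < d)
    (hg : ∀ i, (g i).IsHomogeneous d) (Δ : MvPolynomial σ K) (e : ℕ) :
    homogeneousComponent (d * e) (aeval g Δ) = aeval g (homogeneousComponent e Δ) := by
  have h1 : aeval g Δ = ∑ j ∈ Finset.range (Δ.totalDegree + 1),
      aeval g (homogeneousComponent j Δ) := by
    rw [← map_sum, sum_homogeneousComponent]
  rw [h1, map_sum]
  have h2 : ∀ j, homogeneousComponent (d * e) (aeval g (homogeneousComponent j Δ)) =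
      if e = j then aeval g (homogeneousComponent j Δ) else 0 := by
    intro j
    rw [homogeneousComponent_of_mem ((homogeneousComponent_isHomogeneous j Δ).aeval g hg)]
    by_cases hej : e = j
    · rw [if_pos (by rw [hej]), if_pos hej]
    · rw [if_neg (fun h => hej (Nat.eq_of_mul_eq_mul_left hd h)), if_neg hej]
  rw [Finset.sum_congr rfl fun j _ => h2 j, Finset.sum_ite_eq]
  split_ifs with he
  · rfl
  · rw [Finset.mem_range] at he
    rw [homogeneousComponent_eq_zero _ _ (by omega), map_zero]

end DUAL_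

open DUAL_ CHAR0_ in
/-- DUAL -/
theorem p_DUAL : T_DUAL := by
  intro K _ n d F hd hF hirr
  obtain ⟨M, _, _, _, ξ, hξ, halg⟩ := exists_generic F hirr
  have hdep := dep ξ F hirr.ne_zero ((hξ F).2 dvd_rfl) halg (fun i => aeval ξ (pderiv i F))
  rw [algebraicIndependent_iff] at hdep
  push Not at hdep
  obtain ⟨Δ, hΔ, hΔ0⟩ := hdep
  have hdvd : F ∣ aeval (fun i => pderiv i F) Δ := by
    rw [← hξ, ← hΔ]
    have h := MvPolynomial.comp_aeval_apply (fun i => pderiv i F) (aeval ξ : MvPolynomial (Fin (n + 1)) K →ₐ[K] M) Δ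
    exact h
  obtain ⟨e, he⟩ : ∃ e, homogeneousComponent e Δ ≠ 0 := by
    by_contra hc
    push Not at hc
    apply hΔ0
    rw [← sum_homogeneousComponent Δ]
    exact Finset.sum_eq_zero fun j _ => hc j
  refine ⟨e, homogeneousComponent e Δ, he, homogeneousComponent_isHomogeneous e Δ, ?_⟩
  rw [← component_aeval (d := d - 1) (by omega) (fun i => hF.pderiv) Δ e]
  exact dvd_component hF hdvd _

end Pool.Agent.WL
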