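import Pool.Agent.WL.Targets3
import Pool.Agent.WL.RANK

/-!
# Generic forms have points with all lines free
-/

set_option autoImplicit false

open MvPolynomial

namespace Pool.Agent.WL

namespace GPT_

section Line

variable {σ A B : Type} [CommRing A] [CommRing B]

theorem onLine_add (F G : MvPolynomial σ A) (x w : σ → A) :
    onLine (F + G) x w = onLine F x w + onLine G x w := by
  unfold onLine
  rw [eval₂_add]

theorem onLine_smul (c : A) (F : MvPolynomial σ A) (x w : σ → A) :
    onLine (c • F) x w = Polynomial.C c * onLine F x w := by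
  unfold onLine
  rw [smul_eq_C_mul, eval₂_mul, eval₂_C]

theorem onLine_mul (F G : MvPolynomial σ A) (x w : σ → A) :
    onLine (F * G) x w = onLine F x w * onLine G x w := by
  unfold onLine
  rw [eval₂_mul]

theorem onLine_pow (F : MvPolynomial σ A) (m : ℕ) (x w : σ → A) :
    onLine (F ^ m) x w = onLine F x w ^ m := by
  unfold onLine
  rw [eval₂_pow]

theorem onLine_X (i : σ) (x w : σ → A) :
    onLine (X i) x w = Polynomial.C (x i) + Polynomial.X * Polynomial.C (w i) := by
  unfold onLine
  rw [eval₂_X]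

theorem onLine_C (c : A) (x w : σ → A) : onLine (C c) x w = Polynomial.C c := by
  unfold onLine
  rw [eval₂_C]

theorem onLine_zero (x w : σ → A) : onLine (0 : MvPolynomial σ A) x w = 0 := by
  unfold onLine
  rw [eval₂_zero]

theorem onLine_eval (F : MvPolynomial σ A) (x w : σ → A) (s : A) :
    (onLine F x w).eval s = eval (fun i => x i + s * w i) F := by
  induction F using MvPolynomial.induction_on with
  | C a => rw [onLine_C, Polynomial.eval_C, eval_C]
  | add p q hp hq => rw [onLine_add, Polynomial.eval_add, hp, hq, eval_add]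
  | mul_X p i hp =>
    rw [onLine_mul, Polynomial.eval_mul, hp, onLine_X, eval_mul, eval_X]
    simp only [Polynomial.eval_add, Polynomial.eval_C, Polynomial.eval_mul, Polynomial.eval_X]

/-- The linear functionals: coefficients on the line, combinations of the derivatives. -/
noncomputable def fn {ι : Type} (e : ι → σ) (d : ℕ) (x w : σ → A) (lam : Fin d → A) :
    Fin (d + 1) ⊕ ι → MvPolynomial σ A →ₗ[A] A
  | Sum.inl j =>
    { toFun := fun F => (onLine F x w).coeff j
      map_add' := by
        intro F G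
        rw [onLine_add, Polynomial.coeff_add]
      map_smul' := by
        intro c F
        rw [onLine_smul, Polynomial.coeff_C_mul]
        rfl }
  | Sum.inr i =>
    { toFun := fun F => ∑ l, lam l * (onLine (pderiv (e i) F) x w).coeff l
      map_add' := by
        intro F G
        rw [← Finset.sum_add_distrib]
        refine Finset.sum_congr rfl fun l _ => ?_
        rw [map_add, onLine_add, Polynomial.coeff_add, mul_add]
      map_smul' := by
        intro c F
        rw [RingHom.id_apply, smul_eq_mul, Finset.mul_sum]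
        refine Finset.sum_congr rfl fun l _ => ?_
        rw [Derivation.map_smul, onLine_smul, Polynomial.coeff_C_mul]
        ring }

theorem fn_inl {ι : Type} (e : ι → σ) (d : ℕ) (x w : σ → A) (lam : Fin d → A) (j : Fin (d + 1))
    (F : MvPolynomial σ A) : fn e d x w lam (Sum.inl j) F = (onLine F x w).coeff j := rfl

theorem fn_inr {ι : Type} (e : ι → σ) (d : ℕ) (x w : σ → A) (lam : Fin d → A) (i : ι)
    (F : MvPolynomial σ A) : fn e d x w lam (Sum.inr i) F =
      ∑ l, lam l * (onLine (pderiv (e i) F) x w).coeff l := rfl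

theorem fn_map {ι : Type} (φ : A →+* B) (e : ι → σ) (d : ℕ) (x w : σ → A) (lam : Fin d → A)
    (κ : Fin (d + 1) ⊕ ι) (F : MvPolynomial σ A) : φ (fn e d x w lam κ F) =
      fn e d (fun i => φ (x i)) (fun i => φ (w i)) (fun l => φ (lam l)) κ (F.map φ) := by
  cases κ with
  | inl j => rw [fn_inl, fn_inl, onLine_map, Polynomial.coeff_map]
  | inr i =>
    rw [fn_inr, fn_inr, map_sum]
    refine Finset.sum_congr rfl fun l _ => ?_
    rw [map_mul, pderiv_map, onLine_map, Polynomial.coeff_map]

end Line

theorem finite_mon (n d : ℕ) : Finite (Mon n d) := by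
  have hle : ∀ (μ : Mon n d) (i : Fin (n + 1)), μ.1 i < d + 1 := by
    intro μ i
    have h := Finset.single_le_sum (f := fun i => μ.1 i) (fun _ _ => Nat.zero_le _)
      (Finset.mem_univ i)
    have h2 := μ.2
    omega
  refine Finite.of_injective (fun μ : Mon n d => fun i => (⟨μ.1 i, hle μ i⟩ : Fin (d + 1))) ?_
  intro μ ν h
  apply Subtype.ext
  ext i
  have := congrFun h i
  simpa using this

noncomputable instance fintype_mon (n d : ℕ) : Fintype (Mon n d) := by
  have := finite_mon n d
  exact Fintype.ofFinite _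

theorem sum_mon {A : Type} [CommRing A] {n d : ℕ} (F : MvPolynomial (Fin (n + 1)) A)
    (hF : F.IsHomogeneous d) : F = ∑ μ : Mon n d, F.coeff μ.1 • monomial μ.1 (1 : A) := by
  classical
  ext ν
  rw [coeff_sum]
  simp only [coeff_smul, coeff_monomial, smul_eq_mul, mul_ite, mul_one, mul_zero]
  by_cases hν : ∑ i, ν i = d
  · rw [Finset.sum_eq_single (⟨ν, hν⟩ : Mon n d)]
    · rw [if_pos rfl]
    · intro μ _ hμ
      rw [if_neg]
      intro h
      exact hμ (Subtype.ext h)
    · intro h
      exact absurd (Finset.mem_univ _) h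
  · rw [hF.coeff_eq_zero, Finset.sum_eq_zero]
    · intro μ _
      rw [if_neg]
      intro h
      exact hν (h ▸ μ.2)
    · rw [Finsupp.degree_eq_sum]
      exact hν

/-- The functionals are independent on the forms of degree `d`. -/
theorem indep {L : Type} [Field L] {n d : ℕ} (x w : Fin (n + 1) → L) (b : Fin (n + 1))
    (hx : x 0 = 1) (hw0 : w 0 = 0) (hwb : w b = 1) (lam : Fin d → L) (l₀ : Fin d)
    (hl : lam l₀ = 1) : LinearIndependent L
      (fun (κ : Fin (d + 1) ⊕ {i : Fin (n + 1) // i ≠ 0 ∧ i ≠ b}) (μ : Mon n d) =>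
        fn Subtype.val d x w lam κ (monomial μ.1 (1 : L))) := by
  classical
  rw [Fintype.linearIndependent_iff]
  intro c hc
  have key : ∀ G : MvPolynomial (Fin (n + 1)) L, G.IsHomogeneous d →
      ∑ κ, c κ * fn Subtype.val d x w lam κ G = 0 := by
    intro G hG
    have e1 : ∀ κ : Fin (d + 1) ⊕ {i : Fin (n + 1) // i ≠ 0 ∧ i ≠ b},
        fn Subtype.val d x w lam κ G =
        ∑ μ : Mon n d, G.coeff μ.1 * fn Subtype.val d x w lam κ (monomial μ.1 (1 : L)) := by
      intro κ
      conv_lhs => rw [sum_mon G hG]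
      rw [map_sum]
      refine Finset.sum_congr rfl fun μ _ => ?_
      rw [map_smul, smul_eq_mul]
    simp only [e1, Finset.mul_sum]
    rw [Finset.sum_comm]
    refine Finset.sum_eq_zero fun μ _ => ?_
    have h := congrFun hc μ
    simp only [Finset.sum_apply, Pi.smul_apply, smul_eq_mul, Pi.zero_apply] at h
    have e2 : ∀ κ, c κ * (G.coeff μ.1 * fn Subtype.val d x w lam κ (monomial μ.1 (1 : L))) =
        G.coeff μ.1 * (c κ * fn Subtype.val d x w lam κ (monomial μ.1 (1 : L))) := by
      intro κ
      ring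
    simp only [e2]
    rw [← Finset.mul_sum, h, mul_zero]
  -- adapted coordinates
  let y : Fin (n + 1) → MvPolynomial (Fin (n + 1)) L := fun i => X i - C (x i) * X 0
  have hy : ∀ i, (y i).IsHomogeneous 1 := by
    intro i
    have h0 : (C (x i) * X 0 : MvPolynomial (Fin (n + 1)) L).IsHomogeneous (0 + 1) :=
      (isHomogeneous_C _ _).mul (isHomogeneous_X _ _)
    exact (isHomogeneous_X _ _).sub h0
  have oX : onLine (X 0 : MvPolynomial (Fin (n + 1)) L) x w = 1 := by
    rw [onLine_X, hx, hw0]
    simp
  have oy : ∀ i, onLine (y i) x w = Polynomial.X * Polynomial.C (w i) := by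
    intro i
    have e : y i = X i + (-(x i)) • X 0 := by
      simp only [y, smul_eq_C_mul, C_neg]
      ring
    rw [e, onLine_add, onLine_smul, oX, onLine_X]
    simp
  have pX : ∀ k : Fin (n + 1), k ≠ 0 → pderiv k (X 0 : MvPolynomial (Fin (n + 1)) L) = 0 :=
    fun k hk => pderiv_X_of_ne hk.symm
  have py : ∀ k i : Fin (n + 1), k ≠ 0 → k ≠ i → pderiv k (y i) = 0 := by
    intro k i hk hki
    simp only [y]
    rw [map_sub, pderiv_C_mul, pX k hk, pderiv_X_of_ne hki.symm]
    simp
  have py' : ∀ k : Fin (n + 1), k ≠ 0 → pderiv k (y k) = 1 := by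
    intro k hk
    simp only [y]
    rw [map_sub, pderiv_C_mul, pX k hk, pderiv_X_self]
    simp
  have pprod : ∀ (k : Fin (n + 1)) (i j : ℕ), k ≠ 0 → k ≠ b →
      pderiv k ((X 0 : MvPolynomial (Fin (n + 1)) L) ^ i * y b ^ j) = 0 := by
    intro k i j hk hkb
    rw [pderiv_mul, pderiv_pow, pderiv_pow, pX k hk, py k b hk hkb]
    simp
  -- the coefficients on the line
  have c1 : ∀ j, c (Sum.inl j) = 0 := by
    intro j
    have hG : ((X 0 : MvPolynomial (Fin (n + 1)) L) ^ (d - (j : ℕ)) * y b ^ (j : ℕ)).IsHomogeneous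
        d := by
      have h := ((isHomogeneous_X L (0 : Fin (n + 1))).pow (d - (j : ℕ))).mul ((hy b).pow (j : ℕ))
      have e : 1 * (d - (j : ℕ)) + 1 * (j : ℕ) = d := by
        have := j.2
        omega
      rwa [e] at h
    have h := key _ hG
    rw [Fintype.sum_sum_type] at h
    have e1 : ∀ k : {i : Fin (n + 1) // i ≠ 0 ∧ i ≠ b}, fn Subtype.val d x w lam (Sum.inr k)
        ((X 0 : MvPolynomial (Fin (n + 1)) L) ^ (d - (j : ℕ)) * y b ^ (j : ℕ)) = 0 := by
      intro k
      rw [fn_inr, pprod k.1 _ _ k.2.1 k.2.2, onLine_zero]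
      simp
    have e2 : ∀ j' : Fin (d + 1), fn (Subtype.val : {i : Fin (n + 1) // i ≠ 0 ∧ i ≠ b} → _)
        d x w lam (Sum.inl j')
        ((X 0 : MvPolynomial (Fin (n + 1)) L) ^ (d - (j : ℕ)) * y b ^ (j : ℕ)) =
        if j' = j then 1 else 0 := by
      intro j'
      rw [fn_inl, onLine_mul, onLine_pow, onLine_pow, oX, oy, hwb, one_pow, one_mul,
        Polynomial.C_1, mul_one, Polynomial.coeff_X_pow]
      by_cases hj : j' = j
      · rw [if_pos hj, if_pos (congrArg _ hj)]
      · rw [if_neg hj, if_neg (fun h => hj (Fin.ext h))]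
    simp only [e1, e2, mul_zero, mul_ite, mul_one, Finset.sum_const_zero, add_zero,
      Finset.sum_ite_eq', Finset.mem_univ, if_true] at h
    exact h
  have c2 : ∀ i, c (Sum.inr i) = 0 := by
    intro i
    have hG : (((X 0 : MvPolynomial (Fin (n + 1)) L) ^ (d - 1 - (l₀ : ℕ)) * y b ^ (l₀ : ℕ)) *
        y i.1).IsHomogeneous d := by
      have h := (((isHomogeneous_X L (0 : Fin (n + 1))).pow (d - 1 - (l₀ : ℕ))).mul
        ((hy b).pow (l₀ : ℕ))).mul (hy i.1)
      have e : 1 * (d - 1 - (l₀ : ℕ)) + 1 * (l₀ : ℕ) + 1 = d := by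
        have := l₀.2
        omega
      rwa [e] at h
    have h := key _ hG
    rw [Fintype.sum_sum_type] at h
    have e2 : ∀ k : {i : Fin (n + 1) // i ≠ 0 ∧ i ≠ b}, fn Subtype.val d x w lam (Sum.inr k)
        (((X 0 : MvPolynomial (Fin (n + 1)) L) ^ (d - 1 - (l₀ : ℕ)) * y b ^ (l₀ : ℕ)) * y i.1) =
        if k = i then 1 else 0 := by
      intro k
      rw [fn_inr, pderiv_mul, pprod k.1 _ _ k.2.1 k.2.2, zero_mul, zero_add]
      by_cases hk : k = i
      · subst hk
        rw [py' k.1 k.2.1, mul_one, if_pos rfl, onLine_mul, onLine_pow, onLine_pow, oX, oy, hwb,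
          one_pow, one_mul, Polynomial.C_1, mul_one, Finset.sum_eq_single l₀]
        · rw [Polynomial.coeff_X_pow, if_pos rfl, mul_one, hl]
        · intro l _ hne
          rw [Polynomial.coeff_X_pow, if_neg (fun h => hne (Fin.ext h)), mul_zero]
        · intro h
          exact absurd (Finset.mem_univ _) h
      · rw [py k.1 i.1 k.2.1 (fun h => hk (Subtype.ext h)), mul_zero, onLine_zero, if_neg hk]
        simp
    simp only [c1, e2, zero_mul, mul_ite, mul_one, mul_zero, Finset.sum_const_zero, zero_add,
      Finset.sum_ite_eq', Finset.mem_univ, if_true] at h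
    exact h
  intro κ
  cases κ with
  | inl j => exact c1 j
  | inr i => exact c2 i

/-- Solutions of independent linear equations over a smaller field. -/
theorem span_card {L M : Type} [Field L] [Field M] [Algebra L M] {ι κ : Type} [Fintype ι]
    [Fintype κ] (A : κ → ι → L) (hA : LinearIndependent L A) (a : ι → M)
    (h : ∀ k, ∑ i, algebraMap L M (A k i) * a i = 0) :
    ∃ T : Finset M, T.card + Fintype.card κ ≤ Fintype.card ι ∧
      ∀ i, a i ∈ Submodule.span L (T : Set M) := by
  classical
  let f : (ι → L) →ₗ[L] M := Fintype.linearCombination L a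
  have hf : ∀ c, f c = ∑ i, c i • a i := fun c => Fintype.linearCombination_apply L a c
  have h1 := f.finrank_range_add_finrank_ker
  rw [Module.finrank_fintype_fun_eq_card] at h1
  have hk : ∀ k, A k ∈ LinearMap.ker f := by
    intro k
    rw [LinearMap.mem_ker, hf]
    simp only [Algebra.smul_def]
    exact h k
  have h2 : Fintype.card κ ≤ Module.finrank L (LinearMap.ker f) := by
    have hli : LinearIndependent L (fun k => (⟨A k, hk k⟩ : LinearMap.ker f)) := by
      apply LinearIndependent.of_comp (LinearMap.ker f).subtype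
      exact hA
    exact hli.fintype_card_le_finrank
  let bs := Module.finBasis L (LinearMap.range f)
  refine ⟨Finset.univ.image (fun k => ((bs k : LinearMap.range f) : M)), ?_, ?_⟩
  · have h3 : (Finset.univ.image (fun k => ((bs k : LinearMap.range f) : M))).card ≤
        Module.finrank L (LinearMap.range f) := by
      refine Finset.card_image_le.trans ?_
      simp
    omega
  · intro i
    have hmem : a i ∈ LinearMap.range f := by
      refine ⟨Pi.single i 1, ?_⟩
      rw [hf, Finset.sum_eq_single i]
      · rw [Pi.single_eq_same, one_smul]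
      · intro j _ hj
        rw [Pi.single_eq_of_ne hj, zero_smul]
      · intro hi
        exact absurd (Finset.mem_univ _) hi
    have hr := bs.sum_repr ⟨a i, hmem⟩
    have hr' := congrArg (fun z : LinearMap.range f => (z : M)) hr
    simp only [Submodule.coe_sum, Submodule.coe_smul] at hr'
    rw [← hr']
    refine Submodule.sum_mem _ fun k _ => Submodule.smul_mem _ _ (Submodule.subset_span ?_)
    simp

/-- A relation between the rows when all maximal minors vanish. -/
theorem exists_row {σ M : Type} [Fintype σ] [Field M] {d : ℕ} (D : Matrix (Fin d) σ M)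
    (h : ∀ S : Fin d → σ, (D.submatrix id S).det = 0) :
    ∃ (lam : Fin d → M) (l₀ : Fin d), lam l₀ = 1 ∧ ∀ i, ∑ l, lam l * D l i = 0 := by
  classical
  have hns : ¬ ∀ v : Fin d → M, ∃ u : σ → M, D.mulVec u = v := by
    rw [← RANK_.minors]
    push Not
    exact h
  have hlt : LinearMap.range D.mulVecLin < ⊤ := by
    rw [lt_top_iff_ne_top]
    intro htop
    apply hns
    intro v
    have hv : v ∈ LinearMap.range D.mulVecLin := by
      rw [htop]
      exact Submodule.mem_top
    obtain ⟨u, hu⟩ := hv
    exact ⟨u, by rw [← hu, Matrix.mulVecLin_apply]⟩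
  obtain ⟨f, hf0, hf⟩ := Submodule.exists_le_ker_of_lt_top _ hlt
  have hfv : ∀ v, f v = ∑ l, v l * f (Pi.single l 1) := by
    intro v
    rw [LinearMap.pi_apply_eq_sum_univ f v]
    refine Finset.sum_congr rfl fun l _ => ?_
    rw [smul_eq_mul]
    congr 2
    funext j
    by_cases hj : l = j
    · subst hj
      simp
    · rw [if_neg hj, Pi.single_eq_of_ne (fun h => hj h.symm)]
  obtain ⟨l₀, hl₀⟩ : ∃ l₀, f (Pi.single l₀ 1) ≠ 0 := by
    by_contra hcon
    push Not at hcon
    apply hf0
    apply LinearMap.ext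
    intro v
    rw [hfv v]
    simp [hcon]
  refine ⟨fun l => (f (Pi.single l₀ 1))⁻¹ * f (Pi.single l 1), l₀, inv_mul_cancel₀ hl₀, ?_⟩
  intro i
  have h1 : D.mulVecLin (Pi.single i 1) ∈ LinearMap.ker f := hf ⟨_, rfl⟩
  rw [LinearMap.mem_ker, hfv] at h1
  have h2 : ∀ l, (D.mulVecLin (Pi.single i 1)) l = D l i := by
    intro l
    rw [Matrix.mulVecLin_apply, Matrix.mulVec_single_one]
    rfl
  simp only [h2] at h1
  have e : ∀ l, (f (Pi.single l₀ 1))⁻¹ * f (Pi.single l 1) * D l i =
      (f (Pi.single l₀ 1))⁻¹ * (D l i * f (Pi.single l 1)) := by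
    intro l
    ring
  simp only [e]
  rw [← Finset.mul_sum, h1, mul_zero]

/-- The value of a form at a coordinate point. -/
theorem eval_single {A : Type} [CommRing A] {n d : ℕ} (F : MvPolynomial (Fin (n + 1)) A)
    (hF : F.IsHomogeneous d) (i : Fin (n + 1)) :
    eval (Pi.single i 1) F = F.coeff (Finsupp.single i d) := by
  classical
  conv_lhs => rw [sum_mon F hF]
  rw [map_sum, Finset.sum_eq_single (⟨Finsupp.single i d, by
    rw [Finset.sum_eq_single i]
    · simp
    · intro j _ hj
      rw [Finsupp.single_eq_of_ne hj]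
    · intro h
      exact absurd (Finset.mem_univ _) h⟩ : Mon n d)]
  · rw [smul_eval, eval_monomial, Finsupp.prod_single_index]
    · simp
    · simp
  · intro μ _ hμ
    rw [smul_eval, eval_monomial]
    have hj : ∃ j, j ≠ i ∧ μ.1 j ≠ 0 := by
      by_contra hcon
      push Not at hcon
      apply hμ
      apply Subtype.ext
      ext j
      by_cases hji : j = i
      · subst hji
        have h := μ.2
        rw [Finset.sum_eq_single j (fun k _ hk => hcon k hk)
          (fun h => absurd (Finset.mem_univ _) h)] at h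
        simp [h]
      · rw [hcon j hji, Finsupp.single_eq_of_ne hji]
    obtain ⟨j, hji, hj0⟩ := hj
    have hz : (μ.1.prod fun k e => (Pi.single i (1 : A) : Fin (n + 1) → A) k ^ e) = 0 := by
      rw [Finsupp.prod]
      apply Finset.prod_eq_zero (i := j)
      · simp [hj0]
      · rw [Pi.single_eq_of_ne hji, zero_pow hj0]
    rw [hz]
    simp
  · intro h
    exact absurd (Finset.mem_univ _) h

end GPT_

open GPT_ in
theorem p_GPT (h1 : T_TRI) (h2 : T_DEG) : T_GPT := by
  classical
  intro k₀ _ n d M _ _ _ F hd hn hF hind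
  set z : Fin (n + 1) := Fin.last n with hz
  have hz0 : z ≠ 0 := by
    intro h
    have := congrArg Fin.val h
    simp [hz] at this
    omega
  have hc : F.coeff (Finsupp.single z d) ≠ 0 := by
    have h := hind.ne_zero (⟨Finsupp.single z d, by
      rw [Finset.sum_eq_single z]
      · simp
      · intro j _ hj
        rw [Finsupp.single_eq_of_ne hj]
      · intro h
        exact absurd (Finset.mem_univ _) h⟩ : Mon n d)
    exact h
  have hdg := h2 _ _ F d hF (Pi.single 0 1) (Pi.single z 1)
  obtain ⟨s, hs⟩ := IsAlgClosed.exists_root (onLine F (Pi.single 0 1) (Pi.single z 1)) (by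
    intro h
    have h3 : (onLine F (Pi.single 0 1) (Pi.single z 1)).coeff d ≠ 0 := by
      rw [hdg.2.2, eval_single F hF]
      exact hc
    have h4 : (onLine F (Pi.single 0 1) (Pi.single z 1)).natDegree = 0 :=
      Polynomial.natDegree_eq_of_degree_eq_some (by rw [h]; rfl)
    have h5 := Polynomial.le_natDegree_of_ne_zero h3
    omega)
  set x₀ : Fin (n + 1) → M := fun i => (Pi.single 0 1 : Fin (n + 1) → M) i +
    s * (Pi.single z 1 : Fin (n + 1) → M) i with hx₀
  have hx0 : x₀ 0 = 1 := by
    simp only [hx₀]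
    rw [Pi.single_eq_same, Pi.single_eq_of_ne hz0.symm, mul_zero, add_zero]
  refine ⟨x₀, ?_, ?_, ?_⟩
  · intro h
    rw [h] at hx0
    simp at hx0
  · rw [Polynomial.IsRoot, onLine_eval] at hs
    exact hs
  intro w hw hwne
  by_contra hcon
  push Not at hcon
  obtain ⟨b, hb⟩ : ∃ b, w b - w 0 * x₀ b ≠ 0 := by
    by_contra hall
    push Not at hall
    apply hwne (w 0)
    funext i
    rw [Pi.smul_apply, smul_eq_mul]
    exact sub_eq_zero.1 (hall i)
  have hb0 : b ≠ 0 := by
    rintro rfl
    apply hb
    rw [hx0]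
    ring
  set β : M := (w b - w 0 * x₀ b)⁻¹ with hβ
  set α : M := -(β * w 0) with hα
  set w' : Fin (n + 1) → M := fun i => α * x₀ i + β * w i with hw'
  have hw'0 : w' 0 = 0 := by
    simp only [hw', hα, hx0]
    ring
  have hw'b : w' b = 1 := by
    have e : w' b = (w b - w 0 * x₀ b)⁻¹ * (w b - w 0 * x₀ b) := by
      simp only [hw', hα, hβ]
      ring
    rw [e, inv_mul_cancel₀ hb]
  have hl : onLine F x₀ w' = 0 := by
    ext j
    rw [(h1 _ _ F d hF x₀ w α β).1 j, Polynomial.coeff_zero]
    refine Finset.sum_eq_zero fun i _ => ?_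
    rw [hw, Polynomial.coeff_zero, mul_zero]
  have hm : ∀ S : Fin d → Fin (n + 1), ((dmat F d x₀ w').submatrix id S).det = 0 := by
    intro S
    have h := (h1 _ _ F d hF x₀ w α β).2 S
    rw [hcon S, mul_zero] at h
    exact h
  obtain ⟨lam, l₀, hl₀, hlam⟩ := exists_row _ hm
  -- the small field
  set T₀ : Finset M := ({s} ∪ ((Finset.univ.erase b).erase (0 : Fin (n + 1))).image w') ∪
    (Finset.univ.erase l₀).image lam with hT₀
  set L : IntermediateField k₀ M := IntermediateField.adjoin k₀ (T₀ : Set M) with hL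
  have hT₀L : ∀ y ∈ T₀, y ∈ L := fun y hy => IntermediateField.subset_adjoin _ _ hy
  have hsL : s ∈ L := hT₀L s (by simp [hT₀])
  have h01 : ∀ i j : Fin (n + 1), (Pi.single i 1 : Fin (n + 1) → M) j ∈ L := by
    intro i j
    by_cases h : j = i
    · rw [h, Pi.single_eq_same]
      exact one_mem L
    · rw [Pi.single_eq_of_ne h]
      exact zero_mem L
  have hxL : ∀ i, x₀ i ∈ L := fun i => add_mem (h01 0 i) (mul_mem hsL (h01 z i))
  have hwL : ∀ i, w' i ∈ L := by
    intro i
    by_cases hi0 : i = 0
    · rw [hi0, hw'0]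
      exact zero_mem L
    by_cases hib : i = b
    · rw [hib, hw'b]
      exact one_mem L
    · apply hT₀L
      rw [hT₀]
      apply Finset.mem_union_left
      apply Finset.mem_union_right
      exact Finset.mem_image_of_mem _ (by simp [hi0, hib])
  have hlL : ∀ l, lam l ∈ L := by
    intro l
    by_cases h : l = l₀
    · rw [h, hl₀]
      exact one_mem L
    · apply hT₀L
      rw [hT₀]
      apply Finset.mem_union_right
      exact Finset.mem_image_of_mem _ (by simp [h])
  let x₁ : Fin (n + 1) → L := fun i => ⟨x₀ i, hxL i⟩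
  let w₁ : Fin (n + 1) → L := fun i => ⟨w' i, hwL i⟩
  let lam₁ : Fin d → L := fun l => ⟨lam l, hlL l⟩
  have hind1 := indep x₁ w₁ b (Subtype.ext hx0) (Subtype.ext hw'0) (Subtype.ext hw'b) lam₁ l₀
    (Subtype.ext hl₀)
  have hrel : ∀ κ : Fin (d + 1) ⊕ {i : Fin (n + 1) // i ≠ 0 ∧ i ≠ b}, ∑ μ : Mon n d,
      algebraMap L M (fn Subtype.val d x₁ w₁ lam₁ κ (monomial μ.1 (1 : L))) *
        F.coeff μ.1 = 0 := by
    intro κ
    have e1 : ∀ μ : Mon n d, algebraMap L M (fn Subtype.val d x₁ w₁ lam₁ κ
        (monomial μ.1 (1 : L))) = fn Subtype.val d x₀ w' lam κ (monomial μ.1 (1 : M)) := by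
      intro μ
      rw [fn_map, map_monomial, map_one]
      rfl
    have e2 : fn Subtype.val d x₀ w' lam κ F = 0 := by
      cases κ with
      | inl j => rw [fn_inl, hl, Polynomial.coeff_zero]
      | inr i => exact hlam i.1
    rw [sum_mon F hF, map_sum] at e2
    rw [← e2]
    refine Finset.sum_congr rfl fun μ _ => ?_
    rw [e1, map_smul, smul_eq_mul, mul_comm]
  obtain ⟨T, hT, hmem⟩ := span_card _ hind1 (fun μ : Mon n d => F.coeff μ.1) hrel
  have hfin : ∀ μ : Mon n d, F.coeff μ.1 ∈
      IntermediateField.adjoin k₀ ((T₀ ∪ T : Finset M) : Set M) := by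
    intro μ
    have hLle : L ≤ IntermediateField.adjoin k₀ ((T₀ ∪ T : Finset M) : Set M) := by
      apply IntermediateField.adjoin.mono
      intro y hy
      simp only [Finset.coe_union]
      exact Or.inl hy
    refine (?_ : ∀ y ∈ Submodule.span L (T : Set M),
        y ∈ IntermediateField.adjoin k₀ ((T₀ ∪ T : Finset M) : Set M)) _ (hmem μ)
    intro y₀ h
    induction h using Submodule.span_induction with
    | mem y hy =>
      apply IntermediateField.subset_adjoin
      simp only [Finset.coe_union]
      exact Or.inr hy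
    | zero => exact zero_mem _
    | add y y' _ _ h3 h4 => exact add_mem h3 h4
    | smul c y _ h3 =>
      rw [Algebra.smul_def]
      exact mul_mem (hLle c.2) h3
  have hcard := Pool.Agent.WA.card_le_of_algebraic _ hind (T₀ ∪ T) (fun μ =>
    IntermediateField.isAlgebraic_adjoin_iff.mp (isAlgebraic_algebraMap
      (⟨F.coeff μ.1, hfin μ⟩ : IntermediateField.adjoin k₀ ((T₀ ∪ T : Finset M) : Set M))))
  have hT₀c : T₀.card ≤ 1 + (n - 1) + (d - 1) := by
    rw [hT₀]
    refine (Finset.card_union_le _ _).trans ?_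
    have a1 : (({s} : Finset M) ∪
        ((Finset.univ.erase b).erase (0 : Fin (n + 1))).image w').card ≤ 1 + (n - 1) := by
      refine (Finset.card_union_le _ _).trans ?_
      have a2 : (((Finset.univ.erase b).erase (0 : Fin (n + 1))).image w').card ≤ n - 1 := by
        refine Finset.card_image_le.trans ?_
        rw [Finset.card_erase_of_mem (by simp [hb0.symm]), Finset.card_erase_of_mem (by simp)]
        simp
      rw [Finset.card_singleton]
      omega
    have a3 : ((Finset.univ.erase l₀).image lam).card ≤ d - 1 := by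
      refine Finset.card_image_le.trans ?_
      rw [Finset.card_erase_of_mem (by simp)]
      simp
    omega
  have hκ : Fintype.card (Fin (d + 1) ⊕ {i : Fin (n + 1) // i ≠ 0 ∧ i ≠ b}) = d + 1 + (n - 1) := by
    rw [Fintype.card_sum, Fintype.card_fin]
    congr 1
    rw [Fintype.card_subtype]
    have e : (Finset.univ.filter fun i : Fin (n + 1) => i ≠ 0 ∧ i ≠ b) =
        (Finset.univ.erase b).erase 0 := by
      ext i
      simp
    rw [e, Finset.card_erase_of_mem (by simp [hb0.symm]), Finset.card_erase_of_mem (by simp)]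
    simp
  have hU := Finset.card_union_le T₀ T
  omega

end Pool.Agent.WL
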