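import Pool.Agent.WL.Targets3
import Pool.Agent.WA.Valuative

/-!
# Reduction of weak approximation to hyperplane sections
-/

set_option autoImplicit false

open MvPolynomial WithZero Topology
open Pool.Agent.WA

namespace Pool.Agent.WL

namespace RED_

/-- Values of hyperplane sections. -/
theorem eval_sec {A : Type} [CommRing A] {n : ℕ} (F : MvPolynomial (Fin (n + 1 + 1)) A)
    (h y : Fin (n + 1) → A) :
    eval y (sec F h) = eval (Fin.snoc (α := fun _ => A) y (∑ j, h j * y j)) F := by
  unfold sec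
  rw [← MvPolynomial.coe_aeval_eq_eval, ← MvPolynomial.coe_aeval_eq_eval]
  show (aeval y) ((aeval _) F) = (aeval _) F
  rw [← AlgHom.comp_apply]
  congr 1
  apply MvPolynomial.algHom_ext
  intro i
  rw [AlgHom.comp_apply, aeval_X, aeval_X]
  refine Fin.lastCases ?_ (fun j => ?_) i
  · rw [Fin.snoc_last, Fin.snoc_last, map_sum]
    refine Finset.sum_congr rfl fun j _ => ?_
    simp
  · rw [Fin.snoc_castSucc, Fin.snoc_castSucc, aeval_X]

/-- Hyperplane sections and extension of the coefficients. -/
theorem map_sec {A B : Type} [CommRing A] [CommRing B] (φ : A →+* B) {n : ℕ}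
    (F : MvPolynomial (Fin (n + 1 + 1)) A) (h : Fin (n + 1) → A) :
    (sec F h).map φ = sec (F.map φ) (fun j => φ (h j)) := by
  unfold sec
  rw [aeval_def, aeval_def, eval₂_map, MvPolynomial.eval₂_comp_left (MvPolynomial.map φ)]
  congr 1
  · ext a
    simp [MvPolynomial.algebraMap_eq]
  · funext i
    rw [Function.comp_apply]
    refine Fin.lastCases ?_ (fun j => ?_) i
    · rw [Fin.snoc_last, Fin.snoc_last, map_sum]
      refine Finset.sum_congr rfl fun j _ => ?_
      simp
    · rw [Fin.snoc_castSucc, Fin.snoc_castSucc, map_X]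

/-- Smoothness and extension of the field. -/
theorem smooth_map {K E σ : Type} [Field K] [Field E] (φ : K →+* E) (F : MvPolynomial σ K)
    (h : SmoothForm F) : SmoothForm (F.map φ) := by
  intro L _ _ x hx hd
  let _ : Algebra K L := ((algebraMap E L).comp φ).toAlgebra
  have e : ∀ G : MvPolynomial σ K, aeval x (G.map φ) = aeval x G := by
    intro G
    rw [aeval_def, eval₂_map, aeval_def]
    rfl
  refine h L x ?_ fun i => ?_
  · rw [← e]
    exact hx
  · rw [← e, ← pderiv_map]
    exact hd i

/-- Dehomogenisation. -/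
theorem dehom {K : Type} [Field K] [Infinite K] (n e : ℕ) (Δ : MvPolynomial (Fin (n + 1 + 1)) K)
    (h0 : Δ ≠ 0) (hh : Δ.IsHomogeneous e) (s : Fin (n + 1) → Set K) (hs : ∀ i, (s i).Infinite) :
    ∃ h : Fin (n + 1) → K, (∀ i, h i ∈ s i) ∧ eval (Fin.snoc (α := fun _ => K) h (-1)) Δ ≠ 0 := by
  set P : MvPolynomial (Fin (n + 1)) K :=
    aeval (Fin.snoc (α := fun _ => MvPolynomial (Fin (n + 1)) K) (fun j => X j) (-1)) Δ with hP
  have hev : ∀ h : Fin (n + 1) → K, eval h P = eval (Fin.snoc (α := fun _ => K) h (-1)) Δ := by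
    intro h
    rw [hP, ← MvPolynomial.coe_aeval_eq_eval, ← MvPolynomial.coe_aeval_eq_eval]
    show (aeval h) ((aeval _) Δ) = (aeval _) Δ
    rw [← AlgHom.comp_apply]
    congr 1
    apply MvPolynomial.algHom_ext
    intro i
    rw [AlgHom.comp_apply, aeval_X, aeval_X]
    refine Fin.lastCases ?_ (fun j => ?_) i
    · rw [Fin.snoc_last, Fin.snoc_last]
      simp
    · rw [Fin.snoc_castSucc, Fin.snoc_castSucc, aeval_X]
  have hP0 : P ≠ 0 := by
    intro hP0
    have h1 : Δ * X (Fin.last (n + 1)) = 0 := by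
      apply MvPolynomial.funext
      intro z
      rw [map_mul, eval_X, map_zero]
      by_cases hz : z (Fin.last (n + 1)) = 0
      · rw [hz, mul_zero]
      · have h2 := hev (fun j => (-z (Fin.last (n + 1)))⁻¹ * z j.castSucc)
        rw [hP0, map_zero] at h2
        have h3 := aeval_smul_of_homogeneous hh (-z (Fin.last (n + 1)))⁻¹ z
        have e9 : ∀ w : Fin (n + 1 + 1) → K, aeval w Δ = eval w Δ := fun w => by
          rw [← MvPolynomial.coe_aeval_eq_eval]
          rfl
        rw [e9, e9] at h3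
        have h4 : (fun l => (-z (Fin.last (n + 1)))⁻¹ * z l) = Fin.snoc (α := fun _ => K)
            (fun j => (-z (Fin.last (n + 1)))⁻¹ * z j.castSucc) (-1) := by
          funext l
          refine Fin.lastCases ?_ (fun j => ?_) l
          · rw [Fin.snoc_last, inv_neg, neg_mul, inv_mul_cancel₀ hz]
          · rw [Fin.snoc_castSucc]
        rw [h4] at h3
        have h5 : eval z Δ = 0 := by
          have h6 : (-z (Fin.last (n + 1)))⁻¹ ^ e * eval z Δ = 0 := by
            exact h3.symm.trans h2.symm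
          rcases mul_eq_zero.1 h6 with h7 | h7
          · exact absurd h7 (pow_ne_zero e (inv_ne_zero (neg_ne_zero.2 hz)))
          · exact h7
        rw [h5, zero_mul]
    rcases mul_eq_zero.1 h1 with h2 | h2
    · exact h0 h2
    · exact X_ne_zero _ h2
  by_contra hcon
  push Not at hcon
  apply hP0
  apply MvPolynomial.funext_set s hs
  intro h hh'
  rw [map_zero, hev]
  exact hcon h fun i => hh' i (Set.mem_univ i)

/-- A nonzero element that is small at finitely many places. -/
theorem exists_small {K : Type} [Field K] {m : ℕ} (v : Fin m → Valuation K ℤᵐ⁰)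
    (hnt : ∀ j, ∃ a : K, v j a ≠ 0 ∧ v j a ≠ 1)
    (hne : ∀ i j, i ≠ j → ¬ (v i).IsEquiv (v j)) (ρ : Fin m → ℤᵐ⁰) (hρ : ∀ j, ρ j ≠ 0) :
    ∃ z : K, z ≠ 0 ∧ ∀ j, v j z ≤ ρ j := by
  by_cases hm : m = 0
  · subst hm
    exact ⟨1, one_ne_zero, fun j => j.elim0⟩
  · choose π hπ using fun j => exists_isUnif (v j) (hnt j)
    choose N hN using fun j => exists_pow_le (hπ j).lt_one (hρ j)
    obtain ⟨z, hz⟩ := approx_field v hnt hne (fun j => π j ^ N j)
      (fun j => v j (π j) ^ (N j + 1)) (fun j => pow_ne_zero _ (hπ j).ne_zero)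
    refine ⟨z, ?_, fun j => ?_⟩
    · rintro rfl
      have h1 := hz ⟨0, Nat.pos_of_ne_zero hm⟩
      rw [zero_sub, Valuation.map_neg, map_pow] at h1
      refine absurd h1 (not_le.2 ?_)
      exact pow_lt_pow_right_of_lt_one₀ (zero_lt_iff.2 (hπ _).ne_zero) (hπ _).lt_one (Nat.lt_succ_self _)
    · have h2 : z = (z - π j ^ N j) + π j ^ N j := by ring
      rw [h2]
      refine (v j).map_add_le ((hz j).trans ?_) ?_
      · exact (pow_le_pow_right_of_le_one' (hπ j).lt_one.le (Nat.le_succ _)).trans (hN j)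
      · rw [map_pow]
        exact hN j

end RED_

open RED_ in
theorem p_RED (h1 : T_IRR) (h2 : T_DUAL) (h3 : T_SEC) (h4 : T_SECL) (h5 : T_DENS) : T_RED := by
  intro k K _ _ _ _ n d hd hn hW F hF hsm m v hv hne x hx U hU
  classical
  have hinf : Infinite K := Infinite.of_injective (algebraMap k K) (algebraMap k K).injective
  have hirr : Irreducible F := h1 K (n + 1) d F (by omega) (Or.inr (by omega)) hF hsm
  obtain ⟨e, Δ, hΔ0, hΔh, hΔF⟩ := h2 K (n + 1) d F hd hF hirr
  have hndvd : ¬ F ∣ X 0 := by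
    intro h
    have h6 : F.totalDegree = d := hF.totalDegree hirr.ne_zero
    obtain ⟨G, hG⟩ := h
    have hG0 : G ≠ 0 := by
      rintro rfl
      rw [mul_zero] at hG
      exact X_ne_zero _ hG
    have h7 := totalDegree_mul_of_isDomain hirr.ne_zero hG0
    rw [← hG, totalDegree_X, h6] at h7
    omega
  choose π hπ using fun j => exists_isUnif (v j) (hv j).1
  choose c hc0 hc using fun j => exists_ball_subset_pi (hπ j) ((hU j).1.mem_nhds (hU j).2)
  -- points with nonzero first coordinate
  have hpt : ∀ j, ∃ x' : Fin (n + 1 + 1) → Compl (v j), (∀ i, vE (v j) (x' i - x j i) ≤ c j) ∧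
      eval x' (FE (v j) F) = 0 ∧ x' 0 ≠ 0 := by
    intro j
    let _ : Algebra K (Compl (v j)) := (emb (v j)).toAlgebra
    have halg : ∀ (z : Fin (n + 1 + 1) → Compl (v j)) (G : MvPolynomial (Fin (n + 1 + 1)) K),
        aeval z G = eval z (FE (v j) G) := by
      intro z G
      rw [aeval_def, eval_map]
      rfl
    obtain ⟨x', hx'x, hFx', hΔx', -⟩ := h5 K (Compl (v j)) (emb (v j) (π j)) (isUnif_emb (hπ j))
      (fun e c hc => dense_emb (hπ j) e c hc) (n + 1) d F (X 0) (by omega) (Or.inr (by omega)) hF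
      hsm hndvd (x j) (hx j).1 (by rw [halg]; exact (hx j).2) (c j) (hc0 j)
    rw [halg] at hFx'
    rw [aeval_X] at hΔx'
    exact ⟨x', hx'x, hFx', hΔx'⟩
  choose x' hx'x hFx' hx'0 using hpt
  -- local sections
  have hsl := fun j => h4 (Compl (v j)) (emb (v j) (π j)) (isUnif_emb (hπ j)) n d (FE (v j) F)
    (by omega) (hF.map _) (smooth_map _ F hsm) (x' j) ⟨0, hx'0 j⟩ (hFx' j) (c j) (hc0 j)
  choose hh ρ hρ0 hρ using hsl
  -- the global hyperplane
  have hsmall := exists_small v (fun j => (hv j).1) hne ρ hρ0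
  obtain ⟨z, hz0, hz⟩ := hsmall
  let s : Fin (n + 1) → Set K := fun i => {κ | ∀ j, vE (v j) (emb (v j) κ - hh j i) ≤ ρ j}
  have hs : ∀ i, (s i).Infinite := by
    intro i
    obtain ⟨κ, hκ⟩ := dense_emb_pi v (fun j => (hv j).1) hne (fun j => hh j i) ρ hρ0
    have hinfk : Infinite k := inferInstance
    refine Set.infinite_of_injective_forall_mem (f := fun a : k => κ + algebraMap k K a * z)
      ?_ ?_
    · intro a b hab
      have h6 : algebraMap k K a * z = algebraMap k K b * z := add_left_cancel hab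
      exact (algebraMap k K).injective (mul_right_cancel₀ hz0 h6)
    · intro a j
      have e1 : emb (v j) (κ + algebraMap k K a * z) - hh j i =
          (emb (v j) κ - hh j i) + emb (v j) (algebraMap k K a * z) := by
        rw [map_add]; ring
      rw [e1]
      refine (vE (v j)).map_add_le (hκ j) ?_
      rw [val_emb, map_mul]
      have h7 : v j (algebraMap k K a) ≤ 1 := by
        by_cases ha : a = 0
        · rw [ha, map_zero, map_zero]
          exact zero_le_one
        · exact ((hv j).2 a ha).le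
      calc v j (algebraMap k K a) * v j z ≤ 1 * v j z := mul_le_mul' h7 le_rfl
        _ = v j z := one_mul _
        _ ≤ ρ j := hz j
  obtain ⟨h, hhs, hΔh'⟩ := dehom n e Δ hΔ0 hΔh s hs
  obtain ⟨hsec1, hsec2⟩ := h3 K n d F hF hsm e Δ hΔh hΔF h hΔh'
  choose x'' hx''0 hx''s hx''c using fun j => hρ j (fun i => emb (v j) (h i)) (fun i => hhs i j)
  -- weak approximation for the section
  let ξ : ∀ j, (Fin (n + 1) → Compl (v j)) → (Fin (n + 1 + 1) → Compl (v j)) := fun j y =>
    Fin.snoc (α := fun _ => Compl (v j)) y (∑ i, emb (v j) (h i) * y i)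
  have hξ : ∀ j, Continuous (ξ j) := by
    intro j
    refine continuous_pi fun i => ?_
    refine Fin.lastCases ?_ (fun l => ?_) i
    · simp only [ξ, Fin.snoc_last]
      exact continuous_finsetSum _ fun l _ => continuous_const.mul (continuous_apply l)
    · simp only [ξ, Fin.snoc_castSucc]
      exact continuous_apply l
  obtain ⟨y, hy0, hyF, hyU⟩ := hW (sec F h) hsec1 hsec2 m v hv hne x''
    (fun j => ⟨hx''0 j, by
      show eval (x'' j) ((sec F h).map (emb (v j))) = 0
      rw [map_sec]
      exact hx''s j⟩)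
    (fun j => ξ j ⁻¹' U j) (fun j => ⟨(hU j).1.preimage (hξ j), by
      show ξ j (x'' j) ∈ U j
      refine hc j _ fun l => ?_
      have e1 : ξ j (x'' j) l - x j l = (ξ j (x'' j) l - x' j l) + (x' j l - x j l) := by ring
      rw [e1]
      exact (vE (v j)).map_add_le (hx''c j l) (hx'x j l)⟩)
  refine ⟨Fin.snoc (α := fun _ => K) y (∑ i, h i * y i), ?_, ?_, fun j => ?_⟩
  · intro h0
    apply hy0
    funext i
    have := congrFun h0 i.castSucc
    rwa [Fin.snoc_castSucc] at this
  · rw [← eval_sec]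
    exact hyF
  · obtain ⟨b, hb0, hb⟩ := hyU j
    refine ⟨b, hb0, ?_⟩
    have e1 : (fun i => b * emb (v j) (Fin.snoc (α := fun _ => K) y (∑ i, h i * y i) i)) =
        ξ j (fun i => b * emb (v j) (y i)) := by
      funext i
      refine Fin.lastCases ?_ (fun l => ?_) i
      · simp only [ξ, Fin.snoc_last]
        rw [map_sum, Finset.mul_sum]
        refine Finset.sum_congr rfl fun l _ => ?_
        rw [map_mul]
        ring
      · simp only [ξ, Fin.snoc_castSucc]
    rw [e1]
    exact hb

end Pool.Agent.WL
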