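import Pool.Agent.WL.Targets3

/-!
# Smooth hyperplane sections
-/

set_option autoImplicit false

open MvPolynomial
open Pool.Agent.WA

namespace Pool.Agent.WL

namespace SEC_

variable {K : Type} [Field K] {n : ℕ}

/-- the linear forms of the substitution -/
noncomputable def gs (h : Fin (n + 1) → K) : Fin (n + 1 + 1) → MvPolynomial (Fin (n + 1)) K :=
  Fin.snoc (α := fun _ => MvPolynomial (Fin (n + 1)) K) (fun j => X j) (∑ j, C (h j) * X j)

theorem gs_cast (h : Fin (n + 1) → K) (j : Fin (n + 1)) : gs h j.castSucc = X j := by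
  simp [gs]

theorem gs_last (h : Fin (n + 1) → K) : gs h (Fin.last (n + 1)) = ∑ j, C (h j) * X j := by
  simp [gs]

theorem sec_eq (F : MvPolynomial (Fin (n + 1 + 1)) K) (h : Fin (n + 1) → K) :
    sec F h = aeval (gs h) F := rfl

theorem gs_hom (h : Fin (n + 1) → K) (i : Fin (n + 1 + 1)) : (gs h i).IsHomogeneous 1 := by
  refine Fin.lastCases ?_ (fun j => ?_) i
  · rw [gs_last]
    exact IsHomogeneous.sum _ _ _ fun j _ => (isHomogeneous_X _ _).C_mul _
  · rw [gs_cast]
    exact isHomogeneous_X _ _

/-- the chain rule -/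
theorem chain {σ τ : Type} [Fintype σ] (g : σ → MvPolynomial τ K)
    (F : MvPolynomial σ K) (j : τ) :
    pderiv j (aeval g F) = ∑ i, pderiv j (g i) * aeval g (pderiv i F) := by
  classical
  induction F using MvPolynomial.induction_on with
  | C a => simp
  | add p q hp hq =>
    rw [map_add, map_add, hp, hq, ← Finset.sum_add_distrib]
    refine Finset.sum_congr rfl fun i _ => ?_
    rw [map_add, map_add, mul_add]
  | mul_X p i0 hp =>
    rw [map_mul, aeval_X, pderiv_mul, hp, Finset.sum_mul]
    have h1 : ∀ i, pderiv j (g i) * aeval g (pderiv i (p * X i0)) =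
        pderiv j (g i) * aeval g (pderiv i p) * g i0 +
          if i = i0 then aeval g p * pderiv j (g i0) else 0 := by
      intro i
      rw [pderiv_mul, map_add, map_mul, map_mul, aeval_X]
      by_cases hi : i = i0
      · subst hi
        rw [pderiv_X_self, map_one, if_pos rfl]
        ring
      · rw [pderiv_X_of_ne (Ne.symm hi), map_zero, if_neg hi]
        ring
    simp only [h1]
    rw [Finset.sum_add_distrib, Finset.sum_ite_eq' Finset.univ i0]
    simp

theorem pderiv_sec (F : MvPolynomial (Fin (n + 1 + 1)) K) (h : Fin (n + 1) → K)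
    (j : Fin (n + 1)) : pderiv j (sec F h) =
      aeval (gs h) (pderiv j.castSucc F) + C (h j) * aeval (gs h) (pderiv (Fin.last (n + 1)) F) := by
  classical
  rw [sec_eq, chain, Fin.sum_univ_castSucc]
  congr 1
  · rw [Finset.sum_eq_single j]
    · rw [gs_cast, pderiv_X_self, one_mul]
    · intro i _ hi
      rw [gs_cast, pderiv_X_of_ne hi, zero_mul]
    · intro hj
      exact absurd (Finset.mem_univ j) hj
  · rw [gs_last, map_sum, Finset.sum_eq_single j]
    · rw [pderiv_C_mul, pderiv_X_self, mul_one]
    · intro i _ hi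
      rw [pderiv_C_mul, pderiv_X_of_ne hi, mul_zero]
    · intro hj
      exact absurd (Finset.mem_univ j) hj

theorem hom_scale {σ L : Type} [Field L] [Algebra K L] {e : ℕ} {Δ : MvPolynomial σ K}
    (hΔ : Δ.IsHomogeneous e) (c : L) (z : σ → L) :
    aeval (fun i => c * z i) Δ = c ^ e * aeval z Δ := by
  classical
  rw [aeval_def, aeval_def, eval₂_eq, eval₂_eq, Finset.mul_sum]
  refine Finset.sum_congr rfl fun μ hμ => ?_
  have h1 : ∑ i ∈ μ.support, μ i = e := by
    have := hΔ (mem_support_iff.1 hμ)
    rw [← this, Finsupp.weight_apply, Finsupp.sum]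
    simp
  simp only [mul_pow]
  rw [Finset.prod_mul_distrib, Finset.prod_pow_eq_pow_sum, h1]
  ring

end SEC_

open SEC_ in
theorem p_SEC : T_SEC := by
  intro K _ n d F hF hS e Δ hΔ hdiv h hne
  refine ⟨?_, ?_⟩
  · have := hF.aeval (gs h) (gs_hom h)
    rw [one_mul] at this
    exact this
  · intro L _ _ x hx0 hxd
    set y : Fin (n + 1 + 1) → L :=
      Fin.snoc (α := fun _ => L) x (∑ j, algebraMap K L (h j) * x j) with hy
    have hyc : ∀ j : Fin (n + 1), y j.castSucc = x j := fun j => by simp [hy]
    have hyl : y (Fin.last (n + 1)) = ∑ j, algebraMap K L (h j) * x j := by simp [hy]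
    have hcomp : ∀ G : MvPolynomial (Fin (n + 1 + 1)) K, aeval x (aeval (gs h) G) = aeval y G := by
      intro G
      have : (aeval x).comp (aeval (gs h)) = (aeval y : MvPolynomial (Fin (n + 1 + 1)) K →ₐ[K] L) := by
        apply MvPolynomial.algHom_ext
        intro i
        rw [AlgHom.comp_apply, aeval_X, aeval_X]
        refine Fin.lastCases ?_ (fun j => ?_) i
        · rw [gs_last, hyl, map_sum]
          refine Finset.sum_congr rfl fun j _ => ?_
          rw [map_mul, aeval_X, aeval_C]
        · rw [gs_cast, aeval_X, hyc]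
      exact DFunLike.congr_fun this G
    rw [sec_eq, hcomp] at hx0
    have hd1 : ∀ j : Fin (n + 1), aeval y (pderiv j.castSucc F) +
        algebraMap K L (h j) * aeval y (pderiv (Fin.last (n + 1)) F) = 0 := by
      intro j
      have := hxd j
      rw [pderiv_sec, map_add, map_mul, aeval_C, hcomp, hcomp] at this
      exact this
    set c : L := - aeval y (pderiv (Fin.last (n + 1)) F) with hc
    set z : Fin (n + 1 + 1) → K := Fin.snoc (α := fun _ => K) h (-1) with hz
    have hgrad : ∀ i, aeval y (pderiv i F) = c * algebraMap K L (z i) := by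
      intro i
      refine Fin.lastCases ?_ (fun j => ?_) i
      · rw [hz, hc, Fin.snoc_last]
        simp
      · rw [hz, hc, Fin.snoc_castSucc]
        linear_combination hd1 j
    have hz0 : aeval (fun i => c * algebraMap K L (z i)) Δ = 0 := by
      obtain ⟨Q, hQ⟩ := hdiv
      have h1 : aeval y (aeval (fun i => pderiv i F) Δ) = 0 := by
        rw [hQ, map_mul, hx0, zero_mul]
      have h2 : (aeval y).comp (aeval (fun i => pderiv i F)) =
          (aeval (fun i => c * algebraMap K L (z i)) : MvPolynomial (Fin (n + 1 + 1)) K →ₐ[K] L) := by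
        apply MvPolynomial.algHom_ext
        intro i
        rw [AlgHom.comp_apply, aeval_X, aeval_X, hgrad]
      rw [← h2]
      exact h1
    rw [hom_scale hΔ] at hz0
    have hne' : aeval (fun i => algebraMap K L (z i)) Δ ≠ 0 := by
      have h3 : aeval (fun i => algebraMap K L (z i)) Δ = algebraMap K L (eval z Δ) := by
        have := MvPolynomial.aeval_algebraMap_apply L z Δ
        rw [MvPolynomial.aeval_eq_eval] at this
        exact this
      rw [h3, Ne, map_eq_zero]
      exact hne
    have hc0 : c = 0 := by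
      rcases mul_eq_zero.1 hz0 with h0 | h0
      · by_contra hcne
        exact pow_ne_zero e hcne h0
      · exact absurd h0 hne'
    have hy0 := hS L y hx0 (fun i => by rw [hgrad, hc0, zero_mul])
    funext j
    rw [← hyc j, hy0]
    rfl

end Pool.Agent.WL
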