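import Pool.Agent.WL.Targets3

/-!
# WL-SECL: local points of hyperplane sections near a given point
-/

set_option autoImplicit false

open MvPolynomial WithZero Topology
open Pool.Agent.WA

namespace Pool.Agent.WL

namespace SECL_

theorem ae {σ E : Type} [CommRing E] (x : σ → E) (F : MvPolynomial σ E) :
    aeval x F = eval x F := by
  rw [← coe_aeval_eq_eval]
  rfl

/-- chain rule -/
theorem chain {k B σ : Type} [CommRing k] [Fintype σ] [CommRing B] [Algebra k B]
    (D : Derivation k B B) (y : σ → B) (F : MvPolynomial σ k) :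
    D (aeval y F) = ∑ i, aeval y (pderiv i F) * D (y i) := by
  classical
  induction F using MvPolynomial.induction_on with
  | C a =>
    rw [aeval_C, Derivation.map_algebraMap]
    symm
    refine Finset.sum_eq_zero fun i _ => ?_
    rw [pderiv_C, map_zero, zero_mul]
  | add p q hp hq =>
    rw [map_add, map_add, hp, hq, ← Finset.sum_add_distrib]
    refine Finset.sum_congr rfl fun i _ => ?_
    rw [map_add, map_add, add_mul]
  | mul_X p j hp =>
    rw [map_mul, Derivation.leibniz, hp, aeval_X, smul_eq_mul, smul_eq_mul]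
    have h1 : ∀ i, aeval y (pderiv i (p * X j)) * D (y i) =
        y j * (aeval y (pderiv i p) * D (y i)) + (if j = i then aeval y p * D (y i) else 0) := by
      intro i
      rw [pderiv_mul, map_add, map_mul, map_mul, aeval_X]
      by_cases hij : j = i
      · subst hij
        rw [pderiv_X_self, map_one, if_pos rfl]
        ring
      · rw [pderiv_X_of_ne hij, map_zero, if_neg hij]
        ring
    simp only [h1]
    rw [Finset.sum_add_distrib, ← Finset.mul_sum, Finset.sum_ite_eq, if_pos (Finset.mem_univ _)]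
    ring

section

variable {E : Type} [Field E] {n : ℕ}

/-- the point of the cone over the section -/
def pt (h x : Fin (n + 1) → E) : Fin (n + 1 + 1) → E :=
  Fin.snoc (α := fun _ => E) x (∑ j, h j * x j)

theorem eval_sec (F : MvPolynomial (Fin (n + 1 + 1)) E) (h x : Fin (n + 1) → E) :
    eval x (sec F h) = eval (pt h x) F := by
  unfold sec
  rw [← ae, MvPolynomial.comp_aeval_apply, ← ae]
  have h2 : (fun i => aeval x ((Fin.snoc (α := fun _ => MvPolynomial (Fin (n + 1)) E)
      (fun j => X j) (∑ j, C (h j) * X j) : Fin (n + 1 + 1) → MvPolynomial (Fin (n + 1)) E) i)) =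
      pt h x := by
    funext i
    refine Fin.lastCases ?_ (fun j => ?_) i
    · simp [pt]
    · simp [pt]
  rw [h2]

/-- the substitution with variable coefficients -/
noncomputable def sb : Fin (n + 1 + 1) → MvPolynomial (Fin (n + 1) ⊕ Fin (n + 1)) E :=
  Fin.snoc (α := fun _ => MvPolynomial (Fin (n + 1) ⊕ Fin (n + 1)) E) (fun j => X (Sum.inr j))
    (∑ j, X (Sum.inl j) * X (Sum.inr j))

theorem eval_sb (h x : Fin (n + 1) → E) (i : Fin (n + 1 + 1)) :
    eval (Sum.elim h x) (sb i) = pt h x i := by
  refine Fin.lastCases ?_ (fun j => ?_) i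
  · simp [pt, sb]
  · simp [pt, sb]

theorem eval_G (F : MvPolynomial (Fin (n + 1 + 1)) E) (h x : Fin (n + 1) → E) :
    eval (Sum.elim h x) (aeval sb F) = eval (pt h x) F := by
  rw [← ae, MvPolynomial.comp_aeval_apply]
  have h2 : (fun i => aeval (Sum.elim h x) ((sb : Fin (n + 1 + 1) →
      MvPolynomial (Fin (n + 1) ⊕ Fin (n + 1)) E) i)) = pt h x := by
    funext i
    rw [ae]
    exact eval_sb h x i
  rw [h2, ae]

theorem eval_dG (F : MvPolynomial (Fin (n + 1 + 1)) E) (h x : Fin (n + 1) → E) (j : Fin (n + 1)) :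
    eval (Sum.elim h x) (pderiv (Sum.inr j) (aeval sb F)) =
      eval (pt h x) (pderiv j.castSucc F) + h j * eval (pt h x) (pderiv (Fin.last (n + 1)) F) := by
  classical
  rw [chain, map_sum, Fin.sum_univ_castSucc]
  simp only [map_mul, eval_G]
  have h1 : ∀ i : Fin (n + 1), pderiv (Sum.inr j : Fin (n + 1) ⊕ Fin (n + 1))
      (sb (Fin.castSucc i) : MvPolynomial (Fin (n + 1) ⊕ Fin (n + 1)) E) =
      if i = j then 1 else 0 := by
    intro i
    simp only [sb, Fin.snoc_castSucc]
    by_cases hij : i = j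
    · subst hij
      rw [pderiv_X_self, if_pos rfl]
    · rw [if_neg hij, pderiv_X_of_ne]
      intro h
      exact hij (Sum.inr_injective h)
  have h2 : eval (Sum.elim h x) (pderiv (Sum.inr j : Fin (n + 1) ⊕ Fin (n + 1))
      (sb (Fin.last (n + 1)) : MvPolynomial (Fin (n + 1) ⊕ Fin (n + 1)) E)) = h j := by
    simp only [sb, Fin.snoc_last]
    rw [map_sum, map_sum, Finset.sum_eq_single j]
    · rw [pderiv_mul, pderiv_X_self, pderiv_X_of_ne (by simp)]
      simp
    · intro b _ hb
      rw [pderiv_mul, pderiv_X_of_ne (by simp), pderiv_X_of_ne]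
      · simp
      · intro h
        exact hb (Sum.inr_injective h)
    · simp
  rw [h2]
  simp only [h1]
  rw [Finset.sum_eq_single j]
  · simp [mul_comm]
  · intro b _ hb
    simp [hb]
  · simp

end

end SECL_

open SECL_ in
theorem p_SECL : T_SECL := by
  classical
  intro E _ hv _ π hπ n d F hn hF hsm x hx hx0 θ hθ
  obtain ⟨j₀, hj₀⟩ := hx
  have hxne : x ≠ 0 := by
    intro h
    apply hj₀
    rw [h]
    rfl
  obtain ⟨i, hi⟩ : ∃ i, eval x (pderiv i F) ≠ 0 := by
    by_contra hcon
    push Not at hcon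
    apply hxne
    apply hsm E x
    · rw [ae]; exact hx0
    · intro i
      rw [ae]; exact hcon i
  set l : E := eval x (pderiv (Fin.last (n + 1)) F) with hl
  -- the choice of the hyperplane
  obtain ⟨h, hh, j₁, hj₁⟩ : ∃ h : Fin (n + 1) → E,
      (∑ j, h j * x j.castSucc = x (Fin.last (n + 1))) ∧
      ∃ j, eval x (pderiv j.castSucc F) + h j * l ≠ 0 := by
    set h0 : Fin (n + 1) → E := Pi.single j₀ (x (Fin.last (n + 1)) / x j₀.castSucc) with hh0
    have hs0 : ∑ j, h0 j * x j.castSucc = x (Fin.last (n + 1)) := by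
      rw [Finset.sum_eq_single j₀]
      · rw [hh0, Pi.single_eq_same]
        field_simp
      · intro b _ hb
        rw [hh0, Pi.single_eq_of_ne hb, zero_mul]
      · simp
    by_cases hex : ∃ j, eval x (pderiv j.castSucc F) + h0 j * l ≠ 0
    · exact ⟨h0, hs0, hex⟩
    · push Not at hex
      have hl0 : l ≠ 0 := by
        intro hl0
        apply hi
        revert i
        intro i
        refine Fin.lastCases ?_ (fun j => ?_) i
        · intro _
          exact hl0
        · intro _
          have := hex j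
          rwa [hl0, mul_zero, add_zero] at this
      obtain ⟨j₁, hj₁⟩ : ∃ j₁ : Fin (n + 1), j₁ ≠ j₀ := by
        have : Nontrivial (Fin (n + 1)) := Fin.nontrivial_iff_two_le.2 (by omega)
        exact exists_ne j₀
      refine ⟨h0 + Pi.single j₁ (x j₀.castSucc) - Pi.single j₀ (x j₁.castSucc), ?_, j₁, ?_⟩
      · simp only [Pi.add_apply, Pi.sub_apply, add_mul, sub_mul, Finset.sum_add_distrib,
          Finset.sum_sub_distrib]
        rw [hs0]
        have e1 : ∑ j, (Pi.single j₁ (x j₀.castSucc) : Fin (n + 1) → E) j * x j.castSucc =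
            x j₀.castSucc * x j₁.castSucc := by
          rw [Finset.sum_eq_single j₁]
          · rw [Pi.single_eq_same]
          · intro b _ hb
            rw [Pi.single_eq_of_ne hb, zero_mul]
          · simp
        have e2 : ∑ j, (Pi.single j₀ (x j₁.castSucc) : Fin (n + 1) → E) j * x j.castSucc =
            x j₁.castSucc * x j₀.castSucc := by
          rw [Finset.sum_eq_single j₀]
          · rw [Pi.single_eq_same]
          · intro b _ hb
            rw [Pi.single_eq_of_ne hb, zero_mul]
          · simp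
        rw [e1, e2]
        ring
      · have e3 := hex j₁
        simp only [Pi.add_apply, Pi.sub_apply, Pi.single_eq_same, Pi.single_eq_of_ne hj₁, sub_zero]
        rw [add_mul, ← add_assoc, e3, zero_add]
        exact mul_ne_zero hj₀ hl0
  set x₁ : Fin (n + 1) → E := fun j => x j.castSucc with hx₁
  have hpt : pt h x₁ = x := by
    funext i
    refine Fin.lastCases ?_ (fun j => ?_) i
    · simp only [pt, Fin.snoc_last]
      exact hh
    · simp only [pt, Fin.snoc_castSucc]
      rfl
  -- constants
  obtain ⟨H, hH1, hH⟩ := exists_common_bound hv.v h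
  obtain ⟨B₁, hB₁, hB⟩ := exists_common_bound hv.v x₁
  have hH0 : H ≠ 0 := fun h => by rw [h] at hH1; exact absurd hH1 (by simp)
  have hvx : hv.v (x j₀.castSucc) ≠ 0 := (Valuation.ne_zero_iff _).mpr hj₀
  set θ' : ℤᵐ⁰ := min (θ * H⁻¹) (hv.v π * hv.v (x j₀.castSucc)) with hθ'
  have hθ'0 : θ' ≠ 0 := by
    rw [hθ']
    rcases min_choice (θ * H⁻¹) (hv.v π * hv.v (x j₀.castSucc)) with e | e
    · rw [e]; exact mul_ne_zero hθ (inv_ne_zero hH0)
    · rw [e]; exact mul_ne_zero hπ.ne_zero hvx
  have hHθ : H * θ' ≤ θ := by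
    calc H * θ' ≤ H * (θ * H⁻¹) := mul_le_mul' le_rfl (min_le_left _ _)
      _ = θ := by rw [mul_comm θ, mul_inv_cancel_left₀ hH0]
  have hθθ : θ' ≤ θ := by
    calc θ' = 1 * θ' := (one_mul _).symm
      _ ≤ H * θ' := mul_le_mul' hH1 le_rfl
      _ ≤ θ := hHθ
  have hlt : θ' < hv.v (x j₀.castSucc) := by
    refine lt_of_le_of_lt (min_le_right _ _) ?_
    calc hv.v π * hv.v (x j₀.castSucc) < 1 * hv.v (x j₀.castSucc) := by
          rw [mul_lt_mul_iff_left₀ (zero_lt_iff.mpr hvx)]
          exact hπ.lt_one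
      _ = _ := one_mul _
  set B : ℤᵐ⁰ := max B₁ θ' with hBdef
  have hB0 : B ≠ 0 := fun h => by
    have : (1 : ℤᵐ⁰) ≤ 0 := by
      rw [← h]
      exact hB₁.trans (le_max_left _ _)
    exact absurd this (by simp)
  -- Newton
  have hG0 : eval (Sum.elim h x₁) (aeval sb F : MvPolynomial (Fin (n + 1) ⊕ Fin (n + 1)) E) = 0 := by
    rw [eval_G, hpt]
    exact hx0
  have hG1 : eval (Sum.elim h x₁) (pderiv (Sum.inr j₁)
      (aeval sb F : MvPolynomial (Fin (n + 1) ⊕ Fin (n + 1)) E)) ≠ 0 := by
    rw [eval_dG, hpt]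
    exact hj₁
  obtain ⟨ρ₀, hρ₀, hN⟩ := newton hπ _ _ hG0 (Sum.inr j₁) hG1 hθ'0
  refine ⟨h, min ρ₀ (θ * B⁻¹), ?_, ?_⟩
  · rcases min_choice ρ₀ (θ * B⁻¹) with e | e
    · rw [e]; exact hρ₀
    · rw [e]; exact mul_ne_zero hθ (inv_ne_zero hB0)
  intro h' hh'
  obtain ⟨s, hs, hs0, -⟩ := hN (Sum.elim h' x₁) (by
    rintro (j | j)
    · simp only [Sum.elim_inl]
      exact (hh' j).trans (min_le_left _ _)
    · simp)
  set x' : Fin (n + 1) → E := x₁ + Pi.single j₁ s with hx'
  have hel : Sum.elim h' x₁ + Pi.single (Sum.inr j₁) s = Sum.elim h' x' := by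
    funext z
    rcases z with j | j
    · simp
    · simp only [Pi.add_apply, Sum.elim_inr, hx']
      congr 1
      by_cases hj : j = j₁
      · subst hj
        simp
      · rw [Pi.single_eq_of_ne hj, Pi.single_eq_of_ne]
        intro h
        exact hj (Sum.inr_injective h)
  rw [hel, eval_G] at hs0
  have hdiff : ∀ j, hv.v (x' j - x₁ j) ≤ θ' := by
    intro j
    have e : x' j - x₁ j = (Pi.single j₁ s : Fin (n + 1) → E) j := by
      rw [hx', Pi.add_apply]
      ring
    rw [e]
    by_cases hj : j = j₁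
    · subst hj
      simpa using hs
    · rw [Pi.single_eq_of_ne hj]
      simp
  refine ⟨x', ?_, ?_, ?_⟩
  · intro h0
    have h1 := hdiff j₀
    rw [h0, Pi.zero_apply, zero_sub, Valuation.map_neg] at h1
    exact absurd (lt_of_le_of_lt h1 hlt) (lt_irrefl _)
  · rw [eval_sec]
    exact hs0
  · intro i
    refine Fin.lastCases ?_ (fun j => ?_) i
    · rw [Fin.snoc_last, ← hh]
      have e : ∑ j, h' j * x' j - ∑ j, h j * x j.castSucc =
          ∑ j, ((h' j - h j) * x' j + h j * (x' j - x₁ j)) := by
        rw [← Finset.sum_sub_distrib]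
        refine Finset.sum_congr rfl fun j _ => ?_
        rw [hx₁]
        ring
      rw [e]
      refine Valuation.map_sum_le _ fun j _ => ?_
      refine hv.v.map_add_le ?_ ?_
      · rw [map_mul]
        have h1 : hv.v (x' j) ≤ B := by
          have e1 : x' j = (x' j - x₁ j) + x₁ j := by ring
          rw [e1]
          exact hv.v.map_add_le ((hdiff j).trans (le_max_right _ _))
            ((hB j).trans (le_max_left _ _))
        calc hv.v (h' j - h j) * hv.v (x' j) ≤ (θ * B⁻¹) * B :=
              mul_le_mul' ((hh' j).trans (min_le_right _ _)) h1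
          _ = θ := inv_mul_cancel_right₀ hB0 θ
      · rw [map_mul]
        exact (mul_le_mul' (hH j) (hdiff j)).trans hHθ
    · rw [Fin.snoc_castSucc]
      exact (hdiff j).trans hθθ

end Pool.Agent.WL
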