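import Pool.Agent.WL.Targets3

set_option autoImplicit false

/-!
# Good pairs of a form and a point form an open set
-/

open MvPolynomial

namespace Pool.Agent.WL

namespace UNI_

theorem finMon (n d : ℕ) : Finite (Mon n d) := by
  classical
  have hlt : ∀ (μ : Mon n d) (i : Fin (n + 1)), μ.1 i < d + 1 := by
    intro μ i
    have h : μ.1 i ≤ ∑ i, μ.1 i := Finset.single_le_sum (f := fun i => μ.1 i)
      (fun _ _ => Nat.zero_le _) (Finset.mem_univ i)
    rw [μ.2] at h
    omega
  refine Finite.of_injective (β := Fin (n + 1) → Fin (d + 1))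
    (fun μ i => ⟨μ.1 i, hlt μ i⟩) ?_
  intro μ ν h
  apply Subtype.ext
  ext i
  have := congrFun h i
  simpa using congrArg Fin.val this

attribute [local instance] finMon

/-- The monomials form a finite type. -/
@[reducible] noncomputable def ftMon (n d : ℕ) : Fintype (Mon n d) := Fintype.ofFinite _

attribute [local instance] ftMon

/-- The form with given coefficients. -/
noncomputable def frm {A : Type} [CommRing A] (n d : ℕ) (c : Mon n d → A) :
    MvPolynomial (Fin (n + 1)) A := ∑ μ : Mon n d, monomial μ.1 (c μ)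

theorem frm_map {A B : Type} [CommRing A] [CommRing B] (n d : ℕ) (c : Mon n d → A)
    (ψ : A →+* B) : (frm n d c).map ψ = frm n d (fun μ => ψ (c μ)) := by
  unfold frm
  rw [map_sum]
  refine Finset.sum_congr rfl fun μ _ => ?_
  rw [map_monomial]

theorem frm_hom {A : Type} [CommRing A] (n d : ℕ) (c : Mon n d → A) :
    (frm n d c).IsHomogeneous d := by
  unfold frm
  refine IsHomogeneous.sum _ _ _ fun μ _ => ?_
  refine isHomogeneous_monomial _ ?_
  rw [Finsupp.degree_eq_sum]
  exact μ.2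

theorem frm_eq {A : Type} [CommRing A] (n d : ℕ) (F : MvPolynomial (Fin (n + 1)) A)
    (hF : F.IsHomogeneous d) : frm n d (fun μ => F.coeff μ.1) = F := by
  classical
  ext ν
  unfold frm
  rw [coeff_sum]
  by_cases h : ∑ i, ν i = d
  · rw [Finset.sum_eq_single (⟨ν, h⟩ : Mon n d)]
    · rw [coeff_monomial, if_pos rfl]
    · intro μ _ hμ
      rw [coeff_monomial, if_neg]
      intro he
      exact hμ (Subtype.ext he)
    · intro hn
      exact absurd (Finset.mem_univ _) hn
  · rw [hF.coeff_eq_zero (by rw [Finsupp.degree_eq_sum]; exact h)]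
    refine Finset.sum_eq_zero fun μ _ => ?_
    rw [coeff_monomial, if_neg]
    intro he
    exact h (by rw [← he]; exact μ.2)

variable {k₀ : Type} [Field k₀] {n : ℕ}

/-- The ring of the coefficients and of the coordinates of the point. -/
abbrev R (k₀ : Type) [Field k₀] (n d : ℕ) : Type := MvPolynomial (Mon n d ⊕ Fin (n + 1)) k₀

/-- The universal form. -/
noncomputable def Fu (k₀ : Type) [Field k₀] (n d : ℕ) : MvPolynomial (Fin (n + 1)) (R k₀ n d) :=
  frm n d (fun μ => X (Sum.inl μ))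

/-- The coefficients of the form on the universal line. -/
noncomputable def H (k₀ : Type) [Field k₀] (n d : ℕ) (j : ℕ) :
    MvPolynomial (Fin (n + 1)) (R k₀ n d) :=
  (onLine ((Fu k₀ n d).map C) (fun i => C (X (Sum.inr i))) (fun i => X i)).coeff j

/-- The minors on the universal line. -/
noncomputable def Mi (k₀ : Type) [Field k₀] (n d : ℕ) (S : Fin d → Fin (n + 1)) :
    MvPolynomial (Fin (n + 1)) (R k₀ n d) :=
  dminor ((Fu k₀ n d).map C) d (fun i => C (X (Sum.inr i))) (fun i => X i) S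

theorem map_FF {M : Type} [Field M] (d : ℕ) (ψ : R k₀ n d →+* M) (w : Fin (n + 1) → M)
    (F' : MvPolynomial (Fin (n + 1)) M) (hF : F'.IsHomogeneous d)
    (hψ : ∀ μ : Mon n d, ψ (X (Sum.inl μ)) = F'.coeff μ.1) :
    (((Fu k₀ n d).map C : MvPolynomial (Fin (n + 1)) (MvPolynomial (Fin (n + 1))
      (R k₀ n d)))).map (eval₂Hom ψ w) = F' := by
  rw [MvPolynomial.map_map, eval₂Hom_comp_C]
  unfold Fu
  rw [frm_map]
  conv_rhs => rw [← frm_eq n d F' hF]
  congr 1
  funext μ
  exact hψ μ

theorem eval_H {M : Type} [Field M] (d : ℕ) (ψ : R k₀ n d →+* M) (w : Fin (n + 1) → M)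
    (F' : MvPolynomial (Fin (n + 1)) M) (hF : F'.IsHomogeneous d)
    (hψ : ∀ μ : Mon n d, ψ (X (Sum.inl μ)) = F'.coeff μ.1) (j : ℕ) :
    eval₂Hom ψ w (H k₀ n d j) = (onLine F' (fun i => ψ (X (Sum.inr i))) w).coeff j := by
  have h := onLine_map (eval₂Hom ψ w)
    ((Fu k₀ n d).map C : MvPolynomial (Fin (n + 1)) (MvPolynomial (Fin (n + 1))
      (R k₀ n d))) (fun i => C (X (Sum.inr i))) (fun i => X i)
  rw [map_FF d ψ w F' hF hψ] at h
  simp only [eval₂Hom_C, eval₂Hom_X'] at h
  rw [h, Polynomial.coeff_map]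
  rfl

theorem eval_Mi {M : Type} [Field M] (d : ℕ) (ψ : R k₀ n d →+* M) (w : Fin (n + 1) → M)
    (F' : MvPolynomial (Fin (n + 1)) M) (hF : F'.IsHomogeneous d)
    (hψ : ∀ μ : Mon n d, ψ (X (Sum.inl μ)) = F'.coeff μ.1) (S : Fin d → Fin (n + 1)) :
    eval₂Hom ψ w (Mi k₀ n d S) = dminor F' d (fun i => ψ (X (Sum.inr i))) w S := by
  have h := dminor_map (eval₂Hom ψ w)
    ((Fu k₀ n d).map C : MvPolynomial (Fin (n + 1)) (MvPolynomial (Fin (n + 1))
      (R k₀ n d))) d (fun i => C (X (Sum.inr i))) (fun i => X i) S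
  rw [map_FF d ψ w F' hF hψ] at h
  simp only [eval₂Hom_C, eval₂Hom_X'] at h
  exact h.symm

/-- The index set of the equations. -/
abbrev Ix (n d : ℕ) : Type := Fin (d + 1) ⊕ ((Fin d → Fin (n + 1)) ⊕ Unit)

/-- The equations. -/
noncomputable def eqn (k₀ : Type) [Field k₀] (n d : ℕ) (a : Fin (n + 1)) :
    Ix n d → MvPolynomial (Fin (n + 1)) (R k₀ n d) :=
  Sum.elim (fun j => H k₀ n d j) (Sum.elim (fun S => Mi k₀ n d S) fun _ => X a)

/-- Their degrees. -/
def dgr (n d : ℕ) : Ix n d → ℕ :=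
  Sum.elim (fun j => (j : ℕ)) (Sum.elim (fun _ => d * (d - 1) / 2) fun _ => 1)

theorem hom_eqn (h2 : T_HOMJ) (d : ℕ) (a : Fin (n + 1)) (i : Ix n d) :
    (eqn k₀ n d a i).IsHomogeneous (dgr n d i) := by
  obtain ⟨e1, e2⟩ := h2 (Fin (n + 1)) (R k₀ n d) (Fu k₀ n d) (fun i => X (Sum.inr i))
  rcases i with j | S | u
  · exact e1 j
  · exact e2 d S
  · exact isHomogeneous_X _ a

end UNI_

open UNI_ in
/-- UNI. -/
theorem p_UNI (h1 : T_ELIM) (h2 : T_HOMJ) (h3 : T_DEG) (h4 : T_TRI) : T_UNI := by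
  intro k₀ _ n d M _ _ _ F _ hF x₀ hx₀ _ hfree
  haveI := finMon n d
  obtain ⟨a, ha⟩ : ∃ a, x₀ a ≠ 0 := by
    by_contra h
    push Not at h
    exact hx₀ (funext h)
  set pt : Mon n d ⊕ Fin (n + 1) → M := Sum.elim (fun μ => F.coeff μ.1) x₀ with hpt
  obtain ⟨Δ, N, hΔ, hspan⟩ := h1 k₀ (Mon n d ⊕ Fin (n + 1)) (Fin (n + 1)) M pt (Ix n d)
    (eqn k₀ n d a) (dgr n d) (hom_eqn h2 d a) (by
      intro w hw
      set ψ : R k₀ n d →+* M := (aeval pt : R k₀ n d →ₐ[k₀] M).toRingHom with hψ
      have hψF : ∀ μ : Mon n d, ψ (X (Sum.inl μ)) = F.coeff μ.1 := by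
        intro μ
        simp [hψ, hpt]
      have hψX : (fun i => ψ (X (Sum.inr i))) = x₀ := by
        funext i
        simp [hψ, hpt]
      have hw' : ∀ i, eval₂Hom ψ w (eqn k₀ n d a i) = 0 := hw
      have hcoef : ∀ j : Fin (d + 1), (onLine F x₀ w).coeff j = 0 := by
        intro j
        have h := hw' (Sum.inl j)
        change eval₂Hom ψ w (H k₀ n d j) = 0 at h
        rw [eval_H d ψ w F hF hψF, hψX] at h
        exact h
      have hmin : ∀ S, dminor F d x₀ w S = 0 := by
        intro S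
        have h := hw' (Sum.inr (Sum.inl S))
        change eval₂Hom ψ w (Mi k₀ n d S) = 0 at h
        rw [eval_Mi d ψ w F hF hψF, hψX] at h
        exact h
      have hwa : w a = 0 := by
        have h := hw' (Sum.inr (Sum.inr ()))
        change eval₂Hom ψ w (X a) = 0 at h
        rwa [eval₂Hom_X'] at h
      have hline : onLine F x₀ w = 0 := by
        ext j
        rw [Polynomial.coeff_zero]
        by_cases hj : j ≤ d
        · exact hcoef ⟨j, by omega⟩
        · have hd := (h3 _ M F d hF x₀ w).1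
          exact Polynomial.coeff_eq_zero_of_natDegree_lt (by omega)
      by_cases hc : ∀ c : M, w ≠ c • x₀
      · obtain ⟨S, hS⟩ := hfree w hline hc
        exact absurd (hmin S) hS
      · push Not at hc
        obtain ⟨c, hc⟩ := hc
        rw [hc] at hwa
        rw [Pi.smul_apply, smul_eq_mul] at hwa
        rcases mul_eq_zero.1 hwa with h | h
        · rw [hc, h, zero_smul]
        · exact absurd h ha)
  refine ⟨X (Sum.inr a) * Δ, ?_, ?_⟩
  · rw [map_mul, aeval_X]
    exact mul_ne_zero ha hΔ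
  · intro M' _ φ F' x hF' hx w hline hne
    by_contra hno
    push Not at hno
    set ψ : R k₀ n d →+* M' := eval₂Hom φ (Sum.elim (fun μ => F'.coeff μ.1) x) with hψ
    have hψF : ∀ μ : Mon n d, ψ (X (Sum.inl μ)) = F'.coeff μ.1 := by
      intro μ
      rw [hψ, eval₂Hom_X']
      rfl
    have hψX : (fun i => ψ (X (Sum.inr i))) = x := by
      funext i
      rw [hψ, eval₂Hom_X']
      rfl
    have hxΔ : ψ (X (Sum.inr a) * Δ) ≠ 0 := hx
    rw [map_mul] at hxΔ
    have hxa : x a ≠ 0 := by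
      have h := left_ne_zero_of_mul hxΔ
      rwa [hψ, eval₂Hom_X'] at h
    have hΔ' : ψ Δ ≠ 0 := right_ne_zero_of_mul hxΔ
    set w' : Fin (n + 1) → M' := fun i => (-w a) * x i + x a * w i with hw'
    obtain ⟨t1, t2⟩ := h4 _ M' F' d hF' x w (-w a) (x a)
    have hker : ∀ i, eval₂Hom ψ w' (eqn k₀ n d a i) = 0 := by
      intro i
      rcases i with j | S | u
      · change eval₂Hom ψ w' (H k₀ n d j) = 0
        rw [eval_H d ψ w' F' hF' hψF, hψX, hw', t1]
        refine Finset.sum_eq_zero fun i _ => ?_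
        rw [hline, Polynomial.coeff_zero, mul_zero]
      · change eval₂Hom ψ w' (Mi k₀ n d S) = 0
        rw [eval_Mi d ψ w' F' hF' hψF, hψX, hw', t2, hno S, mul_zero]
      · change eval₂Hom ψ w' (X a) = 0
        rw [eval₂Hom_X', hw']
        ring
    have hle : Ideal.span (Set.range (eqn k₀ n d a)) ≤ RingHom.ker (eval₂Hom ψ w') := by
      rw [Ideal.span_le]
      rintro _ ⟨i, rfl⟩
      exact hker i
    have hzero : ∀ b, w' b = 0 := by
      intro b
      have h := hle (hspan b)
      rw [RingHom.mem_ker, map_mul, map_pow, eval₂Hom_C, eval₂Hom_X'] at h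
      rcases mul_eq_zero.1 h with h | h
      · exact absurd h hΔ'
      · by_contra hb
        exact pow_ne_zero N hb h
    refine hne (w a / x a) ?_
    funext b
    have h := hzero b
    rw [hw'] at h
    simp only at h
    rw [Pi.smul_apply, smul_eq_mul]
    field_simp
    linear_combination h

end Pool.Agent.WL
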