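import Pool.Agent.WL.ALL1
import Pool.Agent.WL.DENS
import Pool.Agent.WL.DUAL
import Pool.Agent.WL.SEC
import Pool.Agent.WL.SECL
import Pool.Agent.WL.RED
import Pool.Agent.WL.ONE
import Pool.Agent.WL.GPT
import Pool.Agent.WL.UNI
import Pool.Agent.WL.DIVR

/-!
# All targets, part 2
-/

set_option autoImplicit false

namespace Pool.Agent.WL

theorem a_DENS : T_DENS := p_DENS p_IRR p_RSLT
theorem a_WA2 : T_WA := a_WA a_DENS
theorem a_RED : T_RED := p_RED p_IRR p_DUAL p_SEC p_SECL a_DENS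
theorem a_GPT : T_GPT := p_GPT a_TRI p_DEG
theorem a_UNI : T_UNI := p_UNI p_ELIM p_HOMJ p_DEG a_TRI

end Pool.Agent.WL
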