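import Pool.Agent.WL.Targets

/-!
# Weak approximation and free lines: targets, part 2 (function fields and completions)
-/

set_option autoImplicit false

open MvPolynomial WithZero Topology
open Pool.Agent.WA

namespace Pool.Agent.WL

/-! ## Definitions -/

/-- `K` is a function field of one variable over `k`. -/
def FunField (k K : Type) [Field k] [Field K] [Algebra k K] : Prop :=
  ∀ s : K, Transcendental k s → FiniteDimensional (IntermediateField.adjoin k {s}) K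

/-- A nontrivial discrete valuation that is trivial on `k`. -/
def PlaceOf (k : Type) {K : Type} [Field k] [Field K] [Algebra k K] (v : Valuation K ℤᵐ⁰) : Prop :=
  (∃ a : K, v a ≠ 0 ∧ v a ≠ 1) ∧ ∀ c : k, c ≠ 0 → v (algebraMap k K c) = 1

/-- Pairwise inequivalent valuations `v, w 0, ..., w (r - 1)`. -/
def Indep {K : Type} [Field K] {r : ℕ} (v : Valuation K ℤᵐ⁰) (w : Fin r → Valuation K ℤᵐ⁰) :
    Prop :=
  (∀ l, ¬ v.IsEquiv (w l)) ∧ ∀ l l', l ≠ l' → ¬ (w l).IsEquiv (w l')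

/-- The valuation of the completion. -/
noncomputable abbrev vE {K : Type} [Field K] (v : Valuation K ℤᵐ⁰) : Valuation (Compl v) ℤᵐ⁰ :=
  (Valued.v : Valuation (Compl v) ℤᵐ⁰)

/-- The form `F` over the completion. -/
noncomputable abbrev FE {K σ : Type} [Field K] (v : Valuation K ℤᵐ⁰) (F : MvPolynomial σ K) :
    MvPolynomial σ (Compl v) := F.map (emb v)

/-! ## Function fields -/

def T_FIN : Prop := ∀ (k K : Type) [Field k] [Field K] [Algebra (RatFunc k) K] [Algebra k K]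
  [IsScalarTower k (RatFunc k) K] [FiniteDimensional (RatFunc k) K], FunField k K

/-- Residues. -/
def T_RES : Prop := ∀ (k K : Type) [Field k] [IsAlgClosed k] [Field K] [Algebra k K],
  FunField k K → ∀ v : Valuation K ℤᵐ⁰, PlaceOf k v → ∀ x : K, v x ≤ 1 →
  ∃ c : k, v (x - algebraMap k K c) < 1

/-- Spaces of functions with bounded poles. -/
def T_G : Prop := ∀ (k K : Type) [Field k] [Field K] [Algebra k K] (s : K),
  Transcendental k s → FiniteDimensional (IntermediateField.adjoin k {s}) K →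
  ∃ (δ c : ℕ) (V : ℕ → Submodule k K), 0 < δ ∧ Monotone V ∧ (∀ m, FiniteDimensional k (V m)) ∧
    (∀ m, δ * m ≤ Module.finrank k (V m)) ∧
    (∀ m m', ∀ f ∈ V m, ∀ g ∈ V m', f * g ∈ V (m + m' + c)) ∧
    (∀ T : Finset K, ∃ b : K, b ≠ 0 ∧ ∃ m, ∀ a ∈ T, b * a ∈ V m) ∧
    ∀ m, ∀ f ∈ V m, IsIntegral (Algebra.adjoin k {s}) f ∧ (f ≠ 0 → ∃ (g : K) (P : Polynomial k),
      P ≠ 0 ∧ P.natDegree ≤ δ * m + c ∧ IsIntegral (Algebra.adjoin k {s}) g ∧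
      f * g = Polynomial.aeval s P)

/-- A parameter at `v` that is near `1` at the other places. -/
def T_PAR : Prop := ∀ (k K : Type) [Field k] [Field K] [Algebra k K] (r : ℕ)
  (v : Valuation K ℤᵐ⁰) (w : Fin r → Valuation K ℤᵐ⁰), PlaceOf k v → (∀ l, PlaceOf k (w l)) →
  Indep v w → ∃ s : K, IsUnif v s ∧ (∀ l, w l (s - 1) < 1) ∧ Transcendental k s

/-- Valuations of functions with bounded poles. -/
def T_ZERO : Prop := ∀ (k K : Type) [Field k] [Field K] [Algebra k K] (s : K) (f : K) (D : ℕ),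
  IsIntegral (Algebra.adjoin k {s}) f → (∃ (g : K) (P : Polynomial k), P ≠ 0 ∧
    P.natDegree ≤ D ∧ IsIntegral (Algebra.adjoin k {s}) g ∧ f * g = Polynomial.aeval s P) →
  ∀ v w : Valuation K ℤᵐ⁰, PlaceOf k v → PlaceOf k w → IsUnif v s → w (s - 1) < 1 →
  v f ≤ 1 ∧ w f ≤ 1 ∧ ∀ a : ℕ, v f ≤ v s ^ a → a ≤ D ∧ w (s - 1) ^ (D - a) ≤ w f

/-- Functions that are small at a place have bounded codimension among the integral functions. -/
def T_COD : Prop := ∀ (k K : Type) [Field k] [Field K] [Algebra k K] (r : ℕ)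
  (w : Fin r → Valuation K ℤᵐ⁰), (∀ l, PlaceOf k (w l)) →
  (∀ l, ∀ x : K, w l x ≤ 1 → ∃ c : k, w l (x - algebraMap k K c) < 1) →
  ∀ η : Fin r → ℤᵐ⁰, (∀ l, η l ≠ 0) → ∃ (U : Submodule k K) (c' : ℕ),
    (∀ f, f ∈ U ↔ ∀ l, w l f ≤ η l) ∧ ∀ V : Submodule k K, FiniteDimensional k V →
      (∀ f ∈ V, ∀ l, w l f ≤ 1) →
      Module.finrank k V ≤ Module.finrank k (V ⊓ U : Submodule k K) + c'

/-- The map `io` identifies power series over `k` with the valuation ring of the completion. -/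
structure Emb {k K : Type} [Field k] [Field K] [Algebra k K] (v : Valuation K ℤᵐ⁰) (s : K)
    (io : PowerSeries k →+* Compl v) : Prop where
  unif : IsUnif v s
  inj : Function.Injective io
  ord : ∀ (g : PowerSeries k) (N : ℕ), vE v (io g) ≤ v s ^ N ↔ PowerSeries.X ^ N ∣ g
  surj : ∀ x : Compl v, vE v x ≤ 1 → ∃ g, io g = x
  const : ∀ a : k, io (PowerSeries.C a) = emb v (algebraMap k K a)
  par : io PowerSeries.X = emb v s

/-- The completion and power series. -/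
def T_E : Prop := ∀ (k K : Type) [Field k] [Field K] [Algebra k K] (v : Valuation K ℤᵐ⁰) (s : K),
  PlaceOf k v → (∀ x : K, v x ≤ 1 → ∃ c : k, v (x - algebraMap k K c) < 1) → IsUnif v s →
  ∃ io : PowerSeries k →+* Compl v, Emb v s io

/-- All data attached to a place `v` and to further places `w l`. -/
structure Pkg {k K : Type} [Field k] [Field K] [Algebra k K] (n d r : ℕ)
    (F : MvPolynomial (Fin (n + 1)) K) (v : Valuation K ℤᵐ⁰) (w : Fin r → Valuation K ℤᵐ⁰)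
    (s : K) (io : PowerSeries k →+* Compl v) (δ c : ℕ) (V : ℕ → Submodule k K)
    (V' : ℕ → Submodule k (PowerSeries k)) (b : K) (F' : MvPolynomial (Fin (n + 1)) (PowerSeries k))
    (κ : Fin r → ℤᵐ⁰) : Prop where
  emb : Emb v s io
  mem_iff : ∀ m g, g ∈ V' m ↔ ∃ f ∈ V m, io g = WA.emb v f
  lift : ∀ m, ∀ f ∈ V m, ∃ g ∈ V' m, io g = WA.emb v f
  fam : Fam F' δ c V'
  ne : b ≠ 0
  map : F'.map io = C (WA.emb v b) * FE v F
  hom : F'.IsHomogeneous d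
  exh : ∀ T : Finset K, ∃ b' : K, b' ≠ 0 ∧ ∃ m, ∀ a ∈ T, b' * a ∈ V m
  fin : ∀ m, FiniteDimensional k (V m)
  wle : ∀ m, ∀ f ∈ V m, ∀ l, w l f ≤ 1
  κne : ∀ l, κ l ≠ 0
  pi : ∀ N : ℕ, ∃ p m, p ∈ V m ∧ p ≠ 0 ∧ v p ≤ v s ^ N ∧ δ * m ≤ N + c ∧ ∀ l, κ l ≤ w l p

def T_PKG : Prop := ∀ (k K : Type) [Field k] [IsAlgClosed k] [Field K] [Algebra k K],
  FunField k K → ∀ (n d r : ℕ) (F : MvPolynomial (Fin (n + 1)) K) (v : Valuation K ℤᵐ⁰)
  (w : Fin r → Valuation K ℤᵐ⁰), PlaceOf k v → (∀ l, PlaceOf k (w l)) → Indep v w →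
  F.IsHomogeneous d → ∃ (s : K) (io : PowerSeries k →+* Compl v) (δ c : ℕ)
    (V : ℕ → Submodule k K) (V' : ℕ → Submodule k (PowerSeries k)) (b : K)
    (F' : MvPolynomial (Fin (n + 1)) (PowerSeries k)) (κ : Fin r → ℤᵐ⁰),
    Pkg n d r F v w s io δ c V V' b F' κ

/-! ## Points with good lines -/

/-- Good points form an open set. -/
def T_GOOD : Prop := ∀ (K : Type) [Field K] (n d : ℕ) (F : MvPolynomial (Fin (n + 1)) K),
  1 ≤ d → F.IsHomogeneous d → ∀ (M : Type) [Field M] [IsAlgClosed M] [Algebra K M]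
  (x₀ : Fin (n + 1) → M), x₀ ≠ 0 → aeval x₀ F = 0 → AllFree (F.map (algebraMap K M)) d x₀ →
  ∃ Δ : MvPolynomial (Fin (n + 1)) K, aeval x₀ Δ ≠ 0 ∧ ∀ (M' : Type) [Field M'] (φ : K →+* M')
    (x : Fin (n + 1) → M'), eval₂ φ x Δ ≠ 0 → AllFree (F.map φ) d x

/-- Smooth forms are irreducible. -/
def T_IRR : Prop := ∀ (K : Type) [Field K] (n d : ℕ) (F : MvPolynomial (Fin (n + 1)) K),
  1 ≤ d → (d = 1 ∨ 2 ≤ n) → F.IsHomogeneous d → SmoothForm F → Irreducible F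

/-- Elimination of a variable. -/
def T_RSLT : Prop := ∀ (K σ : Type) [Field K] [Fintype σ] (F Δ : MvPolynomial σ K) (i : σ),
  Irreducible F → pderiv i F ≠ 0 → ¬ F ∣ Δ → ∃ A B R : MvPolynomial σ K,
    A * F + B * Δ = R ∧ R ≠ 0 ∧ i ∉ R.vars

/-- Algebraic points outside of `Δ = 0` are dense in the points over a complete field. -/
def T_DENS : Prop := ∀ (K E : Type) [Field K] [Field E] [Algebra K E] [Infinite K]
  [hv : Valued E ℤᵐ⁰] [CompleteSpace E] (π : E), IsUnif hv.v π →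
  (∀ (e : E) (c : ℤᵐ⁰), c ≠ 0 → ∃ k : K, hv.v (algebraMap K E k - e) ≤ c) →
  ∀ (n d : ℕ) (F Δ : MvPolynomial (Fin (n + 1)) K), 1 ≤ d → (d = 1 ∨ 2 ≤ n) →
  F.IsHomogeneous d → SmoothForm F → ¬ F ∣ Δ → ∀ (x : Fin (n + 1) → E), x ≠ 0 → aeval x F = 0 →
  ∀ θ : ℤᵐ⁰, θ ≠ 0 → ∃ x' : Fin (n + 1) → E, (∀ i, hv.v (x' i - x i) ≤ θ) ∧ aeval x' F = 0 ∧
    aeval x' Δ ≠ 0 ∧ ∀ i, IsAlgebraic K (x' i)

/-- Chains of two lines. -/
def T_CHAIN : Prop := ∀ (K E : Type) [Field K] [Field E] [Algebra K E], C1 K → ∀ (n d : ℕ)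
  (F : MvPolynomial (Fin (n + 1)) K), 1 ≤ d → d ^ 2 ≤ n → F.IsHomogeneous d →
  ∀ (y : Fin (n + 1) → K) (x : Fin (n + 1) → E), eval y F = 0 → aeval x F = 0 →
  (∀ i, IsAlgebraic K (x i)) → ∃ z : Fin (n + 1) → E, z ≠ 0 ∧
    onLine (F.map (algebraMap K E)) (fun i => algebraMap K E (y i)) z = 0 ∧
    onLine (F.map (algebraMap K E)) x z = 0

/-! ## Approximation -/

/-- One place. -/
def T_SINGLE : Prop := ∀ (k K : Type) [Field k] [IsAlgClosed k] [Field K] [Algebra k K],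
  FunField k K → ∀ (n d : ℕ) (F : MvPolynomial (Fin (n + 1)) K) (v : Valuation K ℤᵐ⁰),
  PlaceOf k v → 1 ≤ d → d ^ 2 ≤ n → F.IsHomogeneous d → ∀ x : Fin (n + 1) → Compl v, x ≠ 0 →
  eval x (FE v F) = 0 → GoodPt (FE v F) d x → ∀ θ : ℤᵐ⁰, θ ≠ 0 → ∃ y : Fin (n + 1) → K,
    eval y F = 0 ∧ ∀ i, vE v (emb v (y i) - x i) ≤ θ

/-- Moving along a free line over a completion. -/
def T_MOVE : Prop := ∀ (k K : Type) [Field k] [IsAlgClosed k] [Field K] [Algebra k K],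
  FunField k K → ∀ (n d r : ℕ) (F : MvPolynomial (Fin (n + 1)) K) (v : Valuation K ℤᵐ⁰)
  (w : Fin r → Valuation K ℤᵐ⁰), PlaceOf k v → (∀ l, PlaceOf k (w l)) → Indep v w → 1 ≤ d →
  F.IsHomogeneous d → ∀ (x : Fin (n + 1) → Compl v) (y : Fin (n + 1) → K) (S : Fin d → Fin (n + 1)),
  x ≠ 0 → onLine (FE v F) x (fun i => emb v (y i)) = 0 →
  dminor (FE v F) d x (fun i => emb v (y i)) S ≠ 0 →
  ∀ (θ : ℤᵐ⁰) (η : Fin r → ℤᵐ⁰), θ ≠ 0 → (∀ l, η l ≠ 0) → ∃ y' : Fin (n + 1) → K,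
    eval y' F = 0 ∧ (∀ i, vE v (emb v (y' i) - x i) ≤ θ) ∧
    ∀ l, ∃ c : K, c ≠ 0 ∧ ∀ i, w l (c * y' i - y i) ≤ η l

/-- Free lines near a free line. -/
def T_NEAR : Prop := ∀ (k K : Type) [Field k] [IsAlgClosed k] [Field K] [Algebra k K],
  FunField k K → ∀ (n d : ℕ) (F : MvPolynomial (Fin (n + 1)) K) (v : Valuation K ℤᵐ⁰),
  PlaceOf k v → 1 ≤ d → F.IsHomogeneous d → ∀ (x z : Fin (n + 1) → Compl v)
  (S : Fin d → Fin (n + 1)), onLine (FE v F) x z = 0 → dminor (FE v F) d x z S ≠ 0 →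
  ∀ θ : ℤᵐ⁰, θ ≠ 0 → ∃ ρ : ℤᵐ⁰, ρ ≠ 0 ∧ ∀ y : Fin (n + 1) → Compl v,
    (∀ i, vE v (y i - z i) ≤ ρ) → eval y (FE v F) = 0 → ∃ x' : Fin (n + 1) → Compl v,
      (∀ i, vE v (x' i - x i) ≤ θ) ∧ onLine (FE v F) x' y = 0 ∧ dminor (FE v F) d x' y S ≠ 0

/-- The standing assumptions: a smooth form with an open set `Δ ≠ 0` of good points. -/
structure Good (K : Type) [Field K] (n d : ℕ) (F Δ : MvPolynomial (Fin (n + 1)) K) : Prop where
  one_le : 1 ≤ d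
  sq_le : d ^ 2 ≤ n
  hom : F.IsHomogeneous d
  smooth : SmoothForm F
  ndvd : ¬ F ∣ Δ
  good : ∀ (M : Type) [Field M] (φ : K →+* M) (x : Fin (n + 1) → M), eval₂ φ x Δ ≠ 0 →
    AllFree (F.map φ) d x

/-- The first place. -/
def T_FIRST : Prop := ∀ (k K : Type) [Field k] [IsAlgClosed k] [Field K] [Algebra k K],
  FunField k K → ∀ (n d : ℕ) (F Δ : MvPolynomial (Fin (n + 1)) K), Good K n d F Δ →
  ∀ v : Valuation K ℤᵐ⁰, PlaceOf k v → ∀ x : Fin (n + 1) → Compl v, x ≠ 0 →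
  eval x (FE v F) = 0 → ∀ θ : ℤᵐ⁰, θ ≠ 0 → ∃ y : Fin (n + 1) → K,
    eval y F = 0 ∧ eval y Δ ≠ 0 ∧ ∀ i, vE v (emb v (y i) - x i) ≤ θ

/-- One more place. -/
def T_STEP : Prop := ∀ (k K : Type) [Field k] [IsAlgClosed k] [Field K] [Algebra k K],
  FunField k K → C1 K → ∀ (n d r : ℕ) (F Δ : MvPolynomial (Fin (n + 1)) K), Good K n d F Δ →
  ∀ (v : Valuation K ℤᵐ⁰) (w : Fin r → Valuation K ℤᵐ⁰), PlaceOf k v → (∀ l, PlaceOf k (w l)) →
  Indep v w → ∀ (x : Fin (n + 1) → Compl v) (y : Fin (n + 1) → K), x ≠ 0 →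
  eval x (FE v F) = 0 → eval y F = 0 → eval y Δ ≠ 0 →
  ∀ (θ : ℤᵐ⁰) (η : Fin r → ℤᵐ⁰), θ ≠ 0 → (∀ l, η l ≠ 0) → ∃ y' : Fin (n + 1) → K,
    eval y' F = 0 ∧ eval y' Δ ≠ 0 ∧ (∀ i, vE v (emb v (y' i) - x i) ≤ θ) ∧
    ∀ l, ∃ c : K, c ≠ 0 ∧ ∀ i, w l (c * y' i - y i) ≤ η l

/-- Weak approximation. -/
def T_WA : Prop := ∀ (k K : Type) [Field k] [IsAlgClosed k] [Field K] [Algebra k K],
  FunField k K → C1 K → ∀ (n d : ℕ) (F Δ : MvPolynomial (Fin (n + 1)) K), Good K n d F Δ →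
  ∀ (m : ℕ) (v : Fin m → Valuation K ℤᵐ⁰), (∀ j, PlaceOf k (v j)) →
  (∀ i j, i ≠ j → ¬ (v i).IsEquiv (v j)) → ∀ (x : ∀ j, Fin (n + 1) → Compl (v j)),
  (∀ j, x j ≠ 0 ∧ eval (x j) (FE (v j) F) = 0) →
  ∀ (U : ∀ j, Set (Fin (n + 1) → Compl (v j))), (∀ j, IsOpen (U j) ∧ x j ∈ U j) →
  ∃ y : Fin (n + 1) → K, y ≠ 0 ∧ eval y F = 0 ∧
    ∀ j, ∃ c : Compl (v j), c ≠ 0 ∧ (fun i => c * emb (v j) (y i)) ∈ U j

/-! ## Large characteristic -/

/-- The generic point of a smooth hypersurface in characteristic zero is good. -/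
def T_GENF : Prop := ∀ (k : Type) [Field k] [CharZero k] (n d : ℕ)
  (F : MvPolynomial (Fin (n + 1)) k), 1 ≤ d → F.IsHomogeneous d → SmoothForm F →
  ∀ (M : Type) [Field M] [IsAlgClosed M] [Algebra k M] (ξ : Fin (n + 1) → M),
  (∀ g : MvPolynomial (Fin (n + 1)) k, aeval ξ g = 0 ↔ F ∣ g) →
  Algebra.IsAlgebraic (IntermediateField.adjoin k (Set.range ξ)) M →
  AllFree (F.map (algebraMap k M)) d ξ

/-- Smooth hypersurfaces in characteristic zero have good points. -/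
def T_CHAR0 : Prop := ∀ (k : Type) [Field k] [IsAlgClosed k] [CharZero k] (n d : ℕ)
  (F : MvPolynomial (Fin (n + 1)) k), 1 ≤ n → 1 ≤ d → (d = 1 ∨ 2 ≤ n) → F.IsHomogeneous d →
  SmoothForm F → ∃ x : Fin (n + 1) → k, x ≠ 0 ∧ eval x F = 0 ∧ AllFree F d x

/-- The same in large characteristic. -/
def T_LARGE : Prop := ∀ n d : ℕ, 1 ≤ n → 1 ≤ d → (d = 1 ∨ 2 ≤ n) → ∃ p₀ : ℕ,
  ∀ (p : ℕ) [Fact p.Prime], p₀ < p → ∀ (k : Type) [Field k] [IsAlgClosed k] [CharP k p]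
  (F : MvPolynomial (Fin (n + 1)) k), F.IsHomogeneous d → SmoothForm F →
  ∃ x : Fin (n + 1) → k, x ≠ 0 ∧ eval x F = 0 ∧ AllFree F d x

end Pool.Agent.WL
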