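import Pool.Agent.WL.Targets

/-!
# Minors without one column
-/

set_option autoImplicit false

open MvPolynomial

namespace Pool.Agent.WL

namespace AVOID_

/-- Cramer's determinants with a vector in an ideal. -/
lemma cramer_mem {A : Type} [CommRing A] {d : ℕ} (M : Matrix (Fin d) (Fin d) A) (J : Ideal A)
    (u : Fin d → A) (hu : ∀ l, u l ∈ J) (k : Fin d) : M.cramer u k ∈ J := by
  rw [Matrix.cramer_eq_adjugate_mulVec]
  unfold Matrix.mulVec dotProduct
  exact J.sum_mem fun l _ => J.mul_mem_left _ (hu l)

end AVOID_

open AVOID_ in
/-- AVOID -/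
theorem p_AVOID (h1 : T_EUL) : T_AVOID := by
  intro σ A _ _ F d hF x w a J ha hJ hS S
  classical
  by_cases hSa : ∀ l, S l ≠ a
  · exact hS S hSa
  push Not at hSa
  obtain ⟨l₀, hl₀⟩ := hSa
  by_cases hinj : Function.Injective S
  · -- Cramer's rule
    set M := (dmat F d x w).submatrix id S with hM
    have hE : (fun l : Fin d => ((d - (l : ℕ) : ℕ) : A) * (onLine F x w).coeff l) =
        ∑ i, x i • fun l => dmat F d x w l i := by
      funext l
      rw [Finset.sum_apply, ← h1 σ A F d hF x w l]
      rfl
    have h2 : M.cramer (fun l : Fin d => ((d - (l : ℕ) : ℕ) : A) * (onLine F x w).coeff l) l₀ ∈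
        J := cramer_mem M J _ (fun l => J.mul_mem_left _ (hJ l l.2)) l₀
    rw [hE, map_sum, Finset.sum_apply] at h2
    have h3 : ∀ i, M.cramer (x i • fun l => dmat F d x w l i) l₀ =
        x i * (M.updateCol l₀ fun l => dmat F d x w l i).det := by
      intro i
      rw [map_smul, Pi.smul_apply, smul_eq_mul, Matrix.cramer_apply]
    have h4 : ∀ i, M.updateCol l₀ (fun l => dmat F d x w l i) =
        (dmat F d x w).submatrix id (Function.update S l₀ i) := by
      intro i
      ext l k
      rw [Matrix.updateCol_apply, Matrix.submatrix_apply, Function.update_apply]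
      split_ifs with hk
      · rfl
      · rfl
    simp only [h3, h4] at h2
    rw [← Finset.add_sum_erase _ _ (Finset.mem_univ a)] at h2
    have h5 : ∑ i ∈ Finset.univ.erase a,
        x i * ((dmat F d x w).submatrix id (Function.update S l₀ i)).det ∈ J := by
      refine J.sum_mem fun i hi => J.mul_mem_left _ ?_
      have hia : i ≠ a := Finset.ne_of_mem_erase hi
      refine hS (Function.update S l₀ i) fun l => ?_
      rw [Function.update_apply]
      split_ifs with hl
      · exact hia
      · intro hc
        exact hl (hinj (hc.trans hl₀.symm))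
    have h6 : x a * ((dmat F d x w).submatrix id (Function.update S l₀ a)).det ∈ J :=
      (J.add_mem_iff_left h5).1 h2
    have h7 : Function.update S l₀ a = S := by
      rw [← hl₀, Function.update_eq_self]
    rw [h7] at h6
    exact (J.unit_mul_mem_iff_mem ha).1 h6
  · -- two equal columns
    unfold Function.Injective at hinj
    push Not at hinj
    obtain ⟨k, k', hkk, hne⟩ := hinj
    have h0 : dminor F d x w S = 0 := by
      unfold dminor
      refine Matrix.det_zero_of_column_eq hne fun l => ?_
      rw [Matrix.submatrix_apply, Matrix.submatrix_apply, hkk]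
    rw [h0]
    exact J.zero_mem

end Pool.Agent.WL
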