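import Pool.Agent.WL.Targets

/-!
# The expansion of a form on a line
-/

set_option autoImplicit false

open MvPolynomial

namespace Pool.Agent.WL

namespace BIN_

variable {σ A : Type} [CommRing A]

theorem onLine_C (a : A) (x w : σ → A) : onLine (C a : MvPolynomial σ A) x w = Polynomial.C a := by
  unfold onLine; rw [eval₂_C]

theorem onLine_mul_X (p : MvPolynomial σ A) (i : σ) (x w : σ → A) :
    onLine (p * X i) x w =
      onLine p x w * (Polynomial.C (x i) + Polynomial.X * Polynomial.C (w i)) := by
  unfold onLine; rw [eval₂_mul, eval₂_X]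

theorem onLine_sum {ι : Type} (s : Finset ι) (f : ι → MvPolynomial σ A) (x w : σ → A) :
    onLine (∑ i ∈ s, f i) x w = ∑ i ∈ s, onLine (f i) x w := by
  unfold onLine; rw [eval₂_sum]

/-- Homogenisation. -/
noncomputable def hm (n : ℕ) (p : Polynomial A) (α β : A) : A :=
  ∑ j ∈ Finset.range (n + 1), α ^ (n - j) * β ^ j * p.coeff j

theorem hm_step (n : ℕ) (p : Polynomial A) (hp : p.natDegree ≤ n) (a b α β : A) :
    hm (n + 1) (p * (Polynomial.C a + Polynomial.X * Polynomial.C b)) α β =
      hm n p α β * (α * a + β * b) := by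
  have hc : ∀ j, (p * (Polynomial.C a + Polynomial.X * Polynomial.C b)).coeff j =
      p.coeff j * a + (p * Polynomial.X).coeff j * b := by
    intro j
    rw [mul_add, Polynomial.coeff_add, Polynomial.coeff_mul_C, ← mul_assoc, Polynomial.coeff_mul_C]
  have h0 : p.coeff (n + 1) = 0 := Polynomial.coeff_eq_zero_of_natDegree_lt (by omega)
  unfold hm
  rw [Finset.sum_congr rfl (fun j _ => by rw [hc j, mul_add]), Finset.sum_add_distrib, mul_add]
  have e1 : ∑ j ∈ Finset.range (n + 1 + 1), α ^ (n + 1 - j) * β ^ j * (p.coeff j * a) =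
      (∑ j ∈ Finset.range (n + 1), α ^ (n - j) * β ^ j * p.coeff j) * (α * a) := by
    rw [Finset.sum_range_succ, h0, zero_mul, mul_zero, add_zero, Finset.sum_mul]
    refine Finset.sum_congr rfl fun j hj => ?_
    have hj' : j ≤ n := by have := Finset.mem_range.mp hj; omega
    rw [Nat.succ_sub hj', pow_succ]; ring
  have e2 : ∑ j ∈ Finset.range (n + 1 + 1), α ^ (n + 1 - j) * β ^ j *
      ((p * Polynomial.X).coeff j * b) =
      (∑ j ∈ Finset.range (n + 1), α ^ (n - j) * β ^ j * p.coeff j) * (β * b) := by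
    rw [Finset.sum_range_succ', Polynomial.coeff_mul_X_zero, zero_mul, mul_zero, add_zero,
      Finset.sum_mul]
    refine Finset.sum_congr rfl fun j hj => ?_
    rw [Polynomial.coeff_mul_X, Nat.add_sub_add_right, pow_succ]; ring
  rw [e1, e2]

theorem mono (x w : σ → A) (α β : A) (s : σ →₀ ℕ) (a : A) :
    ∃ n, (monomial s a).IsHomogeneous n ∧ (onLine (monomial s a) x w).natDegree ≤ n ∧
      hm n (onLine (monomial s a) x w) α β =
        eval (fun i => α * x i + β * w i) (monomial s a) := by
  refine MvPolynomial.induction_on_monomial (motive := fun p => ∃ n, p.IsHomogeneous n ∧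
    (onLine p x w).natDegree ≤ n ∧
      hm n (onLine p x w) α β = eval (fun i => α * x i + β * w i) p) ?_ ?_ s a
  · intro c
    refine ⟨0, isHomogeneous_C σ c, ?_, ?_⟩
    · rw [onLine_C]; simp
    · rw [onLine_C, eval_C]
      unfold hm
      simp
  · rintro p i ⟨n, h1, h2, h3⟩
    refine ⟨n + 1, h1.mul (isHomogeneous_X A i), ?_, ?_⟩
    · rw [onLine_mul_X]
      refine Polynomial.natDegree_mul_le.trans (Nat.add_le_add h2 ?_)
      refine (Polynomial.natDegree_add_le _ _).trans ?_
      rw [Polynomial.natDegree_C]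
      refine max_le (Nat.zero_le _) ?_
      refine (Polynomial.natDegree_mul_le).trans ?_
      rw [Polynomial.natDegree_C, add_zero]
      exact Polynomial.natDegree_X_le
    · rw [onLine_mul_X, hm_step n _ h2, h3, eval_mul, eval_X]

theorem hm_sum {ι : Type} (n : ℕ) (s : Finset ι) (f : ι → Polynomial A) (α β : A) :
    hm n (∑ i ∈ s, f i) α β = ∑ i ∈ s, hm n (f i) α β := by
  unfold hm
  simp only [Polynomial.finsetSum_coeff, Finset.mul_sum]
  rw [Finset.sum_comm]

end BIN_

open BIN_ in
theorem p_BIN : T_BIN := by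
  classical
  intro σ A _ F d hF x w α β
  change _ = hm d (onLine F x w) α β
  have e : F = ∑ s ∈ F.support, monomial s (coeff s F) := F.as_sum
  conv_lhs => rw [e]
  conv_rhs => rw [e]
  rw [onLine_sum, hm_sum, map_sum]
  refine Finset.sum_congr rfl fun s hs => ?_
  obtain ⟨n, h1, -, h3⟩ := mono x w α β s (coeff s F)
  have hne : coeff s F ≠ 0 := mem_support_iff.mp hs
  have hn : n = d := by
    have e1 := h1 (d := s) (by rw [coeff_monomial, if_pos rfl]; exact hne)
    have e2 := hF (d := s) hne
    rw [← e1, ← e2]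
  rw [← hn, h3]

end Pool.Agent.WL
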