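import Pool.Agent.WL.Targets

/-!
# WL-CA: approximation of one arc (Krull height and counting)
-/

set_option autoImplicit false

open MvPolynomial

namespace Pool.Agent.WL

namespace CA_

/-! ### Basic facts -/

section Basic

theorem up_self (k : Type) [Field k] : up k k = RingHom.id (PowerSeries k) := by
  ext f n
  simp [up]

theorem upF_self {σ k : Type} [Field k] (F : MvPolynomial σ (PowerSeries k)) : upF k F = F := by
  unfold upF
  rw [up_self, MvPolynomial.map_id]

theorem up_up (k E L : Type) [Field k] [Field E] [Field L] [Algebra k E] [Algebra k L]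
    [Algebra E L] [IsScalarTower k E L] : (up E L).comp (up k E) = up k L := by
  ext f n
  simp only [up, RingHom.comp_apply, PowerSeries.coeff_map]
  exact (IsScalarTower.algebraMap_apply k E L _).symm

theorem upF_upF {σ k E L : Type} [Field k] [Field E] [Field L] [Algebra k E] [Algebra k L]
    [Algebra E L] [IsScalarTower k E L] (F : MvPolynomial σ (PowerSeries k)) :
    (upF E F).map (up E L) = upF L F := by
  unfold upF
  rw [MvPolynomial.map_map, up_up]

theorem up_inj (E L : Type) [Field E] [Field L] [Algebra E L] :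
    Function.Injective (up E L) := by
  intro f g h
  ext n
  have h1 := congrArg (PowerSeries.coeff n) h
  simp only [up, PowerSeries.coeff_map] at h1
  exact (algebraMap E L).injective h1

theorem map_eval' {σ A B : Type} [CommRing A] [CommRing B] (φ : A →+* B) (x : σ → A)
    (F : MvPolynomial σ A) : φ (eval x F) = eval (fun i => φ (x i)) (F.map φ) := by
  rw [eval_map]
  have h := eval₂_comp_left φ (RingHom.id A) x F
  rw [RingHom.comp_id] at h
  exact h

theorem eval_congr_dvd {σ A : Type} [CommRing A] (F : MvPolynomial σ A) (x x' : σ → A) (c : A)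
    (h : ∀ i, c ∣ x i - x' i) : c ∣ eval x F - eval x' F := by
  rw [← Ideal.mem_span_singleton, ← Ideal.Quotient.eq, map_eval', map_eval']
  congr 2
  funext i
  rw [Ideal.Quotient.eq, Ideal.mem_span_singleton]
  exact h i

theorem onLine_zero {σ A : Type} [CommRing A] (F : MvPolynomial σ A) (x w : σ → A)
    (hw : ∀ i, w i = 0) : onLine F x w = Polynomial.C (eval x F) := by
  unfold onLine
  have h1 : (fun i => Polynomial.C (x i) + Polynomial.X * Polynomial.C (w i)) =
      fun i => Polynomial.C (x i) := by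
    funext i
    rw [hw i, Polynomial.C_0, mul_zero, add_zero]
  rw [h1]
  have h := eval₂_comp_left (Polynomial.C : A →+* Polynomial A) (RingHom.id A) x F
  rw [RingHom.comp_id] at h
  exact h.symm

/-- scaling of the direction -/
theorem coeff_scale (hTRI : T_TRI) {σ A : Type} [CommRing A] (F : MvPolynomial σ A) (d : ℕ)
    (hF : F.IsHomogeneous d) (x w y : σ → A) (β : A) (hy : ∀ i, y i = β * w i) (j : ℕ) :
    (onLine F x y).coeff j = β ^ j * (onLine F x w).coeff j := by
  have h1 := (hTRI σ A F d hF x w 0 β).1 j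
  have h2 : (fun i => (0 : A) * x i + β * w i) = y := by
    funext i
    rw [hy i]
    ring
  rw [h2] at h1
  rw [h1, Finset.sum_eq_single j]
  · simp
  · intro i hi hne
    have h3 : j - i ≠ 0 := by
      have := Finset.mem_range.1 hi
      omega
    rw [zero_pow h3]
    ring
  · intro h
    exact absurd (Finset.mem_range.2 (Nat.lt_succ_self j)) h

theorem eval_scale (hTRI : T_TRI) (hDEG : T_DEG) {σ A : Type} [CommRing A]
    (F : MvPolynomial σ A) (d : ℕ) (hF : F.IsHomogeneous d) (w y : σ → A) (β : A)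
    (hy : ∀ i, y i = β * w i) : eval y F = β ^ d * eval w F := by
  rw [← (hDEG σ A F d hF w y).2.2, ← (hDEG σ A F d hF w w).2.2,
    coeff_scale hTRI F d hF w w y β hy d]

end Basic

section Coeffs

variable {n N M : ℕ} {k L : Type} [Field k] [Field L] [Algebra k L]

theorem coeff_xS (z : Idx n N M → L) (i : Fin (n + 1)) (b : Fin N) :
    PowerSeries.coeff (b : ℕ) (xS z i) = z (Sum.inl (i, b)) := by
  rw [xS, PowerSeries.coeff_mk, dif_pos b.2]

theorem coeff_qS (z : Idx n N M → L) (b : Fin N) :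
    PowerSeries.coeff (b : ℕ) (qS z) = z (Sum.inr (Sum.inl b)) := by
  rw [qS, PowerSeries.coeff_mk, dif_pos b.2]

theorem coeff_qS_ge (z : Idx n N M → L) (b : ℕ) (hb : N ≤ b) :
    PowerSeries.coeff b (qS z) = 0 := by
  rw [qS, PowerSeries.coeff_mk, dif_neg (by omega)]

theorem coeff_phiS (e : Fin M → PowerSeries k) (z : Idx n N M → L) (i : Fin (n + 1)) (a : ℕ) :
    PowerSeries.coeff a (phiS e z i) =
      ∑ b, z (Sum.inr (Sum.inr (i, b))) * algebraMap k L (PowerSeries.coeff a (e b)) := by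
  unfold phiS
  rw [map_sum]
  refine Finset.sum_congr rfl fun b _ => ?_
  rw [PowerSeries.coeff_C_mul, PowerSeries.coeff_map]

theorem phiS_up (e : Fin M → PowerSeries k) (z : Idx n N M → L) (i : Fin (n + 1)) :
    phiS e z i = ∑ b, PowerSeries.C (z (Sum.inr (Sum.inr (i, b)))) * up k L (e b) := rfl

/-- the coordinates vanish if the coefficients vanish -/
theorem coord_zero (hCOMB : T_COMB) {V : Submodule k (PowerSeries k)} {e : Fin M → PowerSeries k}
    {o : Fin M → ℕ} (had : Adapted V M e o) (z : Idx n N M → L) (i : Fin (n + 1)) (A : ℕ)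
    (h : ∀ a < A, PowerSeries.coeff a (phiS e z i) = 0) (b : Fin M) (hb : o b < A) :
    z (Sum.inr (Sum.inr (i, b))) = 0 :=
  (hCOMB k V M e o had L (fun b => z (Sum.inr (Sum.inr (i, b))))).1 A
    (fun a ha => by rw [← phiS_up]; exact h a ha) b hb

/-- the factor lies in the field generated by the arc and the section -/
theorem q_mem (W : IntermediateField k L) (q x φ ψ : PowerSeries L) (N : ℕ)
    (h : φ = q * x + PowerSeries.X ^ N * ψ) (hx0 : PowerSeries.coeff 0 x ≠ 0)
    (hx : ∀ a < N, PowerSeries.coeff a x ∈ W) (hφ : ∀ a < N, PowerSeries.coeff a φ ∈ W) :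
    ∀ b < N, PowerSeries.coeff b q ∈ W := by
  intro b
  induction b using Nat.strong_induction_on with
  | _ b ih =>
    intro hb
    have h1 : PowerSeries.coeff b φ = PowerSeries.coeff b (q * x) := by
      rw [h, map_add]
      have : PowerSeries.coeff b ((PowerSeries.X : PowerSeries L) ^ N * ψ) = 0 :=
        (PowerSeries.X_pow_dvd_iff.1 (Dvd.intro ψ rfl)) b hb
      rw [this, add_zero]
    rw [PowerSeries.coeff_mul, Finset.Nat.sum_antidiagonal_eq_sum_range_succ
      (fun i j => PowerSeries.coeff i q * PowerSeries.coeff j x), Finset.sum_range_succ,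
      Nat.sub_self] at h1
    have h2 : PowerSeries.coeff b q = (PowerSeries.coeff b φ - ∑ i ∈ Finset.range b,
        PowerSeries.coeff i q * PowerSeries.coeff (b - i) x) * (PowerSeries.coeff 0 x)⁻¹ := by
      rw [h1]
      field_simp
      ring
    rw [h2]
    refine W.mul_mem (W.sub_mem (hφ b hb) (W.sum_mem fun i hi => W.mul_mem ?_ ?_))
      (W.inv_mem (hx 0 (by omega)))
    · have := Finset.mem_range.1 hi
      exact ih i this (by omega)
    · exact hx _ (by omega)

end Coeffs

/-! ### The special solution -/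

/-- the special point `(x₀, 0, 0)` -/
noncomputable def P0 (n N M : ℕ) {k : Type} [Field k] (x₀ : Fin (n + 1) → PowerSeries k) :
    Idx n N M → k :=
  Sum.elim (fun p => PowerSeries.coeff (p.2 : ℕ) (x₀ p.1)) (Sum.elim (fun _ => 0) fun _ => 0)

theorem P0_sys {n N M d : ℕ} {k : Type} [Field k] (F : MvPolynomial (Fin (n + 1)) (PowerSeries k))
    (hd : 1 ≤ d) (hF : F.IsHomogeneous d) (e : Fin M → PowerSeries k)
    (x₀ : Fin (n + 1) → PowerSeries k) (h0 : eval x₀ F = 0) :
    Sys F d N (xS (P0 n N M x₀)) (qS (P0 n N M x₀)) (phiS e (P0 n N M x₀)) ∧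
      eval (phiS e (P0 n N M x₀)) F = 0 := by
  have hphi : ∀ i, phiS e (P0 n N M x₀) i = 0 := by
    intro i
    unfold phiS
    refine Finset.sum_eq_zero fun b _ => ?_
    simp [P0]
  have hq : qS (P0 n N M x₀) = 0 := by
    ext b
    rw [qS, PowerSeries.coeff_mk]
    split_ifs with h
    · rfl
    · rfl
  have hx : ∀ i, (PowerSeries.X : PowerSeries k) ^ N ∣ xS (P0 n N M x₀) i - x₀ i := by
    intro i
    rw [PowerSeries.X_pow_dvd_iff]
    intro b hb
    rw [map_sub, coeff_xS (P0 n N M x₀) i ⟨b, hb⟩]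
    simp [P0]
  have hev := eval_congr_dvd F _ _ _ hx
  rw [h0, sub_zero] at hev
  obtain ⟨B0, hB0⟩ := hev
  refine ⟨⟨fun _ => 0, fun j => if j = 0 then B0 else 0, ?_, ?_, ?_⟩, ?_⟩
  · intro i
    rw [hphi, hq]
    ring
  · rw [onLine_zero F _ _ (fun _ => rfl), Polynomial.coeff_C_zero]
    simpa using hB0
  · intro j _
    rw [onLine_zero F _ _ (fun _ => rfl), Polynomial.coeff_C_succ, hq]
    simp
  · have : phiS e (P0 n N M x₀) = fun _ => 0 := funext hphi
    rw [this]
    have h1 : eval (fun _ => (0 : PowerSeries k)) F = eval (0 : Fin (n + 1) → PowerSeries k) F :=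
      rfl
    rw [h1, MvPolynomial.eval_zero]
    exact hF.coeff_eq_zero (by simp; omega)

/-! ### Counting -/

section Count

/-- the arcs -/
theorem card_xpart {n N M : ℕ} {L : Type} (z : Idx n N M → L) :
    ∃ T : Finset L, T.card ≤ (n + 1) * N ∧ ∀ p, z (Sum.inl p) ∈ T := by
  classical
  refine ⟨Finset.univ.image fun p : Fin (n + 1) × Fin N => z (Sum.inl p), ?_, fun p =>
    Finset.mem_image_of_mem _ (Finset.mem_univ p)⟩
  refine Finset.card_image_le.trans ?_
  simp

variable {n N M : ℕ} {k L : Type} [Field k] [Field L] [Algebra k L]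

/-- the section -/
theorem card_phipart (z : Idx n N M → L) (o : Fin M → ℕ) (ho : StrictMono o) (h R H : ℕ)
    (hoH : ∀ b, o b < H) (hR : H = h + R)
    (hz : ∀ i b, o b < h → z (Sum.inr (Sum.inr (i, b))) = 0) :
    ∃ T : Finset L, T.card ≤ (n + 1) * R ∧
      ∀ (W : IntermediateField k L), (∀ t ∈ T, t ∈ W) → ∀ p, z (Sum.inr (Sum.inr p)) ∈ W := by
  classical
  refine ⟨((Finset.univ : Finset (Fin (n + 1))) ×ˢ (Finset.univ.filter fun b : Fin M =>
    h ≤ o b)).image fun p => z (Sum.inr (Sum.inr p)), ?_, ?_⟩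
  · refine Finset.card_image_le.trans ?_
    rw [Finset.card_product, Finset.card_univ, Fintype.card_fin]
    refine Nat.mul_le_mul_left _ ?_
    have h1 : ((Finset.univ.filter fun b : Fin M => h ≤ o b).image o) ⊆ Finset.Ico h H := by
      intro a ha
      obtain ⟨b, hb, rfl⟩ := Finset.mem_image.1 ha
      rw [Finset.mem_filter] at hb
      exact Finset.mem_Ico.2 ⟨hb.2, hoH b⟩
    have h2 := Finset.card_le_card h1
    rw [Finset.card_image_of_injective _ ho.injective, Nat.card_Ico] at h2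
    omega
  · intro W hW p
    obtain ⟨i, b⟩ := p
    by_cases hb : o b < h
    · rw [hz i b hb]
      exact W.zero_mem
    · exact hW _ (Finset.mem_image_of_mem (fun p => z (Sum.inr (Sum.inr p)))
        (Finset.mem_product.2 ⟨Finset.mem_univ _,
          Finset.mem_filter.2 ⟨Finset.mem_univ _, not_lt.1 hb⟩⟩))

/-- all unknowns are in a field which contains the arc and the section -/
theorem all_mem (e : Fin M → PowerSeries k) (z : Idx n N M → L) (a : Fin (n + 1))
    (W : IntermediateField k L) (ψ : Fin (n + 1) → PowerSeries L)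
    (hφ : ∀ i, phiS e z i = qS z * xS z i + PowerSeries.X ^ N * ψ i)
    (hxa : PowerSeries.coeff 0 (xS z a) ≠ 0) (hx : ∀ p, z (Sum.inl p) ∈ W)
    (hp : ∀ p, z (Sum.inr (Sum.inr p)) ∈ W) : ∀ i, z i ∈ W := by
  have hq : ∀ b < N, PowerSeries.coeff b (qS z) ∈ W := by
    refine q_mem W _ _ _ _ N (hφ a) hxa (fun b hb => ?_) (fun b _ => ?_)
    · rw [coeff_xS z a ⟨b, hb⟩]
      exact hx _
    · rw [coeff_phiS]
      exact W.sum_mem fun b' _ => W.mul_mem (hp _) (W.algebraMap_mem _)
  intro i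
  rcases i with p | p | p
  · exact hx p
  · rw [← coeff_qS z p]
    exact hq p p.2
  · exact hp p

/-- the field generated over a subfield -/
theorem adjoin_sub (E W : IntermediateField k L) (hE : E ≤ W) (T : Set L) (hT : ∀ t ∈ T, t ∈ W)
    (x : L) (hx : x ∈ IntermediateField.adjoin E T) : x ∈ W := by
  have h1 : IntermediateField.adjoin E T ≤ IntermediateField.extendScalars hE := by
    rw [IntermediateField.adjoin_le_iff]
    intro t ht
    exact (IntermediateField.mem_extendScalars hE).2 (hT t ht)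
  exact (IntermediateField.mem_extendScalars hE).1 (h1 hx)

/-- the count if the factor vanishes to a high order -/
theorem count_ii (hTRI : T_TRI) (hDEG : T_DEG) (hCOMB : T_COMB) (hCON : T_CON) {d : ℕ}
    (F : MvPolynomial (Fin (n + 1)) (PowerSeries k)) (hd : 1 ≤ d) (hF : F.IsHomogeneous d)
    {U : Submodule k (PowerSeries k)} {e : Fin M → PowerSeries k} {o : Fin M → ℕ}
    (had : Adapted U M e o) (x₀ : Fin (n + 1) → PowerSeries k) (a : Fin (n + 1)) (CL C3 e0 H : ℕ)
    (hC3 : C3 ≤ N) (he0 : CL ≤ e0) (he01 : 1 ≤ e0)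
    (hx₀a : PowerSeries.constantCoeff (x₀ a) ≠ 0) (hoH : ∀ b, o b < H)
    (hloss : ∀ (E L : Type) [Field E] [Field L] [Algebra k E] [Algebra k L] [Algebra E L]
      [IsScalarTower k E L] (N g : ℕ) (x : Fin (n + 1) → PowerSeries L)
      (y : Fin (n + 1) → PowerSeries E),
      (∀ i, (PowerSeries.X : PowerSeries L) ^ CL ∣ x i - up k L (x₀ i)) →
      (∃ b, PowerSeries.constantCoeff (y b) ≠ 0) → eval y (upF E F) = 0 →
      (∀ j < d, (PowerSeries.X : PowerSeries L) ^ N ∣
        PowerSeries.X ^ (j * g) * (onLine (upF L F) x (fun i => up E L (y i))).coeff j) →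
      ∃ T : Finset L, T.card + d * N ≤ (n + 1) * N + (n + 1) * g + CL ∧
        ∀ i, ∀ b < N, PowerSeries.coeff b (x i) ∈ IntermediateField.adjoin E (T : Set L))
    (z : Idx n N M → L) (hsys : Sys (upF L F) d N (xS z) (qS z) (phiS e z))
    (hev : eval (phiS e z) (upF L F) = 0)
    (hlin : ∀ i, ∀ b < e0, PowerSeries.coeff b (xS z i) =
      algebraMap k L (PowerSeries.coeff b (x₀ i)))
    (hq : (PowerSeries.X : PowerSeries L) ^ (N - C3) ∣ qS z)
    (hne : ∃ l, phiS e z l ≠ 0) :
    ∃ (T : Finset L) (hh g R : ℕ), T.card + d * N ≤ (n + 1) * R + (n + 1) * N + (n + 1) * g + CL ∧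
      H = hh + R ∧ hh + C3 = N + g ∧
      ∀ i, z i ∈ IntermediateField.adjoin k (T : Set L) := by
  classical
  obtain ⟨y, q', hy1, -, hy3, -, hy5⟩ := hCON (Fin (n + 1)) L (upF L F) d N (N - C3) (xS z) (qS z)
    (phiS e z) hd (hF.map _) hsys hev (Nat.sub_le _ _) hq
  -- the order of the section
  have hex : ∃ h, ∃ l, PowerSeries.coeff h (phiS e z l) ≠ 0 := by
    obtain ⟨l, hl⟩ := hne
    by_contra hcon
    push Not at hcon
    exact hl (PowerSeries.ext fun h => by rw [hcon h l, map_zero])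
  obtain ⟨hh, hhdef⟩ : ∃ hh, hh = Nat.find hex := ⟨_, rfl⟩
  obtain ⟨l₀, hl₀⟩ : ∃ l, PowerSeries.coeff hh (phiS e z l) ≠ 0 := by
    rw [hhdef]
    exact Nat.find_spec hex
  have hlow : ∀ l, ∀ b < hh, PowerSeries.coeff b (phiS e z l) = 0 := by
    intro l b hb
    rw [hhdef] at hb
    by_contra hcon
    exact Nat.find_min hex hb ⟨l, hcon⟩
  have hge : N - C3 ≤ hh := by
    by_contra hcon
    push Not at hcon
    have h1 : (PowerSeries.X : PowerSeries L) ^ (N - C3) ∣ phiS e z l₀ := ⟨y l₀, hy1 l₀⟩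
    exact hl₀ (PowerSeries.X_pow_dvd_iff.1 h1 hh hcon)
  have hhH : hh < H := by
    by_contra hcon
    push Not at hcon
    apply hl₀
    rw [coeff_phiS]
    refine Finset.sum_eq_zero fun b _ => ?_
    have h1 := coord_zero hCOMB had z l₀ hh (hlow l₀) b ((hoH b).trans_le hcon)
    rw [h1, zero_mul]
  obtain ⟨g, hg⟩ : ∃ g, hh = N - C3 + g := ⟨hh - (N - C3), by omega⟩
  -- the primitive direction
  have hdvd : ∀ l, (PowerSeries.X : PowerSeries L) ^ hh ∣ phiS e z l := fun l =>
    PowerSeries.X_pow_dvd_iff.2 (hlow l)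
  choose y' hy' using hdvd
  have hyy' : ∀ l, y l = PowerSeries.X ^ g * y' l := by
    intro l
    have h1 : (PowerSeries.X : PowerSeries L) ^ (N - C3) * y l =
        PowerSeries.X ^ (N - C3) * (PowerSeries.X ^ g * y' l) := by
      rw [← hy1 l, hy' l, hg, pow_add]
      ring
    exact mul_left_cancel₀ (pow_ne_zero _ PowerSeries.X_ne_zero) h1
  -- the field of the section
  let E : IntermediateField k L := IntermediateField.adjoin k
    (Set.range fun p : Fin (n + 1) × Fin M => z (Sum.inr (Sum.inr p)))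
  have hzE : ∀ p : Fin (n + 1) × Fin M, z (Sum.inr (Sum.inr p)) ∈ E := fun p =>
    IntermediateField.subset_adjoin _ _ ⟨p, rfl⟩
  have hcoef : ∀ l b, PowerSeries.coeff b (y' l) ∈ E := by
    intro l b
    have h1 : PowerSeries.coeff (b + hh) (phiS e z l) = PowerSeries.coeff b (y' l) := by
      rw [hy' l, add_comm, PowerSeries.coeff_X_pow_mul']
      rw [if_pos (Nat.le_add_right _ _), Nat.add_sub_cancel_left]
    rw [← h1, coeff_phiS]
    exact E.sum_mem fun b' _ => E.mul_mem (hzE _) (E.algebraMap_mem _)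
  let yE : Fin (n + 1) → PowerSeries E := fun l => PowerSeries.mk fun b => ⟨_, hcoef l b⟩
  have hyE : ∀ l, up E L (yE l) = y' l := by
    intro l
    ext b
    simp only [up, yE, PowerSeries.coeff_map, PowerSeries.coeff_mk]
    rfl
  have hFhom : (upF L F).IsHomogeneous d := hF.map _
  have hevy' : eval y' (upF L F) = 0 := by
    have h1 := eval_scale hTRI hDEG (upF L F) d hFhom y' y (PowerSeries.X ^ g) hyy'
    rw [hy3] at h1
    rcases mul_eq_zero.1 h1.symm with h2 | h2
    · exact absurd h2 (pow_ne_zero _ (pow_ne_zero _ PowerSeries.X_ne_zero))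
    · exact h2
  have hevE : eval yE (upF E F) = 0 := by
    apply up_inj E L
    rw [map_eval', upF_upF, map_zero]
    have h1 : (fun i => up E L (yE i)) = y' := funext hyE
    rw [h1]
    exact hevy'
  have hprim : ∃ b, PowerSeries.constantCoeff (yE b) ≠ 0 := by
    refine ⟨l₀, fun h => hl₀ ?_⟩
    have h1 : PowerSeries.coeff 0 (y' l₀) = 0 := by
      rw [← hyE l₀]
      simp only [up, PowerSeries.coeff_map, PowerSeries.coeff_zero_eq_constantCoeff]
      have h2 : PowerSeries.constantCoeff (yE l₀) = 0 := h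
      rw [h2, map_zero]
    rw [hy' l₀, PowerSeries.coeff_X_pow_mul', if_pos le_rfl, Nat.sub_self, h1]
  obtain ⟨T, hT1, hT2⟩ := hloss E L N g (xS z) yE (by
      intro i
      rw [PowerSeries.X_pow_dvd_iff]
      intro b hb
      rw [map_sub, hlin i b (hb.trans_le he0), up, PowerSeries.coeff_map, sub_self])
    hprim hevE (by
      intro j _
      have h1 : (fun i => up E L (yE i)) = y' := funext hyE
      rw [h1]
      have h2 := coeff_scale hTRI (upF L F) d hFhom (xS z) y' y (PowerSeries.X ^ g) hyy' j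
      have h3 := hy5 j
      rw [h2, ← pow_mul, mul_comm g j] at h3
      exact h3)
  obtain ⟨T1, hT11, hT12⟩ := card_phipart (k := k) z o had.mono hh (H - hh) H hoH (by omega)
    (fun i b hb => coord_zero hCOMB had z i hh (hlow i) b hb)
  refine ⟨T1 ∪ T, hh, g, H - hh, ?_, by omega, by omega, ?_⟩
  · have h1 := Finset.card_union_le T1 T
    omega
  · set W := IntermediateField.adjoin k ((T1 ∪ T : Finset L) : Set L) with hW
    have hTW : ∀ t ∈ T1 ∪ T, t ∈ W := fun t ht =>
      IntermediateField.subset_adjoin _ _ (Finset.mem_coe.2 ht)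
    have hpW : ∀ p : Fin (n + 1) × Fin M, z (Sum.inr (Sum.inr p)) ∈ W :=
      hT12 W fun t ht => hTW t (Finset.mem_union_left _ ht)
    have hEW : E ≤ W := by
      rw [IntermediateField.adjoin_le_iff]
      rintro _ ⟨p, rfl⟩
      exact hpW p
    obtain ⟨ψ, B, hφ, -, -⟩ := hsys
    refine all_mem e z a W ψ hφ ?_ ?_ hpW
    · rw [hlin a 0 he01]
      intro h
      apply hx₀a
      rw [← PowerSeries.coeff_zero_eq_constantCoeff_apply]
      exact (algebraMap k L).injective (by rw [h, map_zero])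
    · rintro ⟨i, b⟩
      rw [← coeff_xS z i b]
      exact adjoin_sub E W hEW T (fun t ht => hTW t (Finset.mem_union_right _ ht)) _
        (hT2 i b b.2)

end Count

theorem arith_ii {nN N nM T fc dN nR ng CL O ne0 ddm dc c ndm nc n1 nh nC X t e0 C3 : ℕ}
    (h1 : nN + (N + nM) ≤ T + fc) (hT1 : T + dN ≤ nR + nN + ng + CL)
    (hf : fc ≤ nN + dN + O + ne0) (hO : O + dN ≤ ddm + dc + c + 1) (hd : ndm ≤ nM + nc)
    (h2 : ndm + nc + n1 = nh + nR) (h3 : nh + nC = nN + ng) (hr : dN + N = ddm + X) (htX : t ≤ X)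
    (ht : t = 2 * nc + n1 + nC + nc + CL + dc + c + ne0 + e0 + C3 + 2) : False := by
  omega

theorem arith_i {nN N nM T fc dN CL O ne0 ddm dc c ndm nc n1 nC X t e0 C3 sdm nN' : ℕ}
    (h1 : nN + (N + nM) ≤ T + fc) (hT1 : T ≤ nN)
    (hf : fc ≤ nN + dN + O + ne0) (hO : O + dN ≤ ddm + dc + c + 1) (hd : ndm ≤ nM + nc)
    (h2 : ndm = ddm + sdm) (h6 : nN = nN' + N) (hr : sdm = nN' + X) (htX : t ≤ X)
    (ht : t = 2 * nc + n1 + nC + nc + CL + dc + c + ne0 + e0 + C3 + 2) : False := by
  omega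

end CA_

open CA_

theorem p_A (hHT : T_HT) (hNS : T_NS) (hORD : T_ORD) (hCOMB : T_COMB) (hZR : T_ZR)
    (hSYSF : T_SYSF) (hCON : T_CON) (hLOSS : T_LOSS) (hTRI : T_TRI) (hDEG : T_DEG) : T_A := by
  classical
  intro k _ _ n d F δ c V x₀ a hd hdn hF hfam h0 hx₀a hfree ε
  obtain ⟨CL, hCL⟩ := hLOSS k n d F x₀ a hd hdn hF hx₀a hfree
  -- parameters
  have hdn1 : d ≤ n := le_trans (Nat.le_self_pow (by norm_num) d) hdn
  obtain ⟨s, hs⟩ : ∃ s, n + 1 = d + s := ⟨n + 1 - d, by omega⟩
  obtain ⟨u, hu⟩ : ∃ u, n = d ^ 2 + u := ⟨n - d ^ 2, by omega⟩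
  have hs1 : 1 ≤ s := by omega
  have hsn : s ≤ n := by omega
  have hδ : 1 ≤ δ := hfam.pos
  obtain ⟨e0, he0⟩ : ∃ e0, e0 = CL + ε + 1 := ⟨_, rfl⟩
  obtain ⟨C3, hC3⟩ : ∃ C3, C3 = ε + 1 := ⟨_, rfl⟩
  obtain ⟨t, ht⟩ : ∃ t, t = (n + 1) * (2 * c + 1 + C3) + (n + 1) * c + CL + δ * ((d + 1) * c) + c +
    (n + 1) * e0 + e0 + C3 + 2 := ⟨_, rfl⟩
  obtain ⟨N, hN⟩ : ∃ N, N = 2 * d * s * δ * t := ⟨_, rfl⟩
  obtain ⟨m, hm⟩ : ∃ m, m = t * (2 * d * n + u + 1) := ⟨_, rfl⟩
  have hrel1 : s * (δ * m) = n * N + (s * δ * (u + 1)) * t := by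
    rw [hm, hN]
    ring
  have hss : (d + 1) * s = d * n + u + 1 := by
    have h1 : (d + 1) * (n + 1) = (d + 1) * (d + s) := by rw [hs]
    nlinarith
  have hrel2 : (d + 1) * N = d * (δ * m) + (d * δ * (u + 1)) * t := by
    have h1 : (d + 1) * N = 2 * d * δ * t * ((d + 1) * s) := by
      rw [hN]
      ring
    rw [h1, hss, hm]
    ring
  have ht1 : t ≤ (s * δ * (u + 1)) * t :=
    Nat.le_mul_of_pos_left _ (Nat.mul_pos (Nat.mul_pos hs1 hδ) (Nat.succ_pos u))
  have ht2 : t ≤ (d * δ * (u + 1)) * t :=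
    Nat.le_mul_of_pos_left _ (Nat.mul_pos (Nat.mul_pos hd hδ) (Nat.succ_pos u))
  have htN : t ≤ N := by
    rw [hN]
    exact Nat.le_mul_of_pos_left _
      (Nat.mul_pos (Nat.mul_pos (Nat.mul_pos (by norm_num) hd) hs1) hδ)
  have hNm : N ≤ δ * m := by
    have h1 : s * N ≤ n * N := Nat.mul_le_mul_right _ hsn
    have h2 : s * N ≤ s * (δ * m) := by
      rw [hrel1]
      omega
    exact Nat.le_of_mul_le_mul_left h2 hs1
  have he0N : e0 ≤ N := le_trans (by omega) htN
  have hC3N : C3 ≤ N := le_trans (by omega) htN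
  -- the basis
  have := hfam.fin m
  obtain ⟨M, e, o, had⟩ := hORD k (V m)
  have hdim : δ * m ≤ M + c := by
    rw [had.card]
    exact hfam.dim m
  have hoH : ∀ b, o b < δ * m + c + 1 := by
    intro b
    by_contra hcon
    push Not at hcon
    have h1 : (PowerSeries.X : PowerSeries k) ^ (δ * m + c + 1) ∣ e b := by
      rw [PowerSeries.X_pow_dvd_iff]
      intro j hj
      exact had.low b j (hj.trans_le hcon)
    have h2 := hfam.ord m (e b) (had.mem b) h1
    have h3 := had.lead b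
    rw [h2, map_zero] at h3
    exact zero_ne_one h3
  -- the equations
  obtain ⟨O, hO1, hO2⟩ := hZR k n d F δ c V hd hF hfam N m M e had.mem
  obtain ⟨f, hf1, hf2⟩ := hSYSF k n d N M F e O hd
  obtain ⟨f2, hf2def⟩ : ∃ f2 : Finset (MvPolynomial (Idx n N M) k), f2 =
    (Finset.univ : Finset (Fin (n + 1) × Fin e0)).image (fun p =>
      X (Sum.inl (p.1, ⟨(p.2 : ℕ), p.2.2.trans_le he0N⟩)) -
        C (PowerSeries.coeff (p.2 : ℕ) (x₀ p.1))) := ⟨_, rfl⟩
  have hf2card : f2.card ≤ (n + 1) * e0 := by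
    rw [hf2def]
    refine Finset.card_image_le.trans ?_
    simp
  have hP0 : ∀ g ∈ f ∪ f2, eval (P0 n N M x₀) g = 0 := by
    intro g hg
    rcases Finset.mem_union.1 hg with h1 | h1
    · have h2 := P0_sys (N := N) (M := M) F hd hF e x₀ h0
      have h3 := (hf2 k (P0 n N M x₀)).2 (by
        rw [upF_self]
        refine ⟨h2.1, fun o _ => ?_⟩
        rw [h2.2, map_zero])
      exact h3 g h1
    · rw [hf2def] at h1
      obtain ⟨p, -, rfl⟩ := Finset.mem_image.1 h1
      rw [map_sub, eval_X, eval_C]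
      exact sub_self _
  obtain ⟨L, iL, iA, z, hz1, -, hz3⟩ := hHT k (Idx n N M) (P0 n N M x₀) (f ∪ f2) hP0
  obtain ⟨hsys, hOz⟩ := (hf2 L z).1 fun g hg => hz1 g (Finset.mem_union_left _ hg)
  have hev := hO2 L z hsys hOz
  have hlinz : ∀ (A : Type) [Field A] [Algebra k A] (z : Idx n N M → A),
      (∀ g ∈ f2, aeval z g = 0) → ∀ i, ∀ b < e0, PowerSeries.coeff b (xS z i) =
        algebraMap k A (PowerSeries.coeff b (x₀ i)) := by
    intro A _ _ z hz i b hb
    have h1 := hz (X (Sum.inl (i, ⟨b, hb.trans_le he0N⟩)) - C (PowerSeries.coeff b (x₀ i))) (by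
      rw [hf2def]
      exact Finset.mem_image.2 ⟨(i, ⟨b, hb⟩), Finset.mem_univ _, rfl⟩)
    rw [map_sub, aeval_X, aeval_C, sub_eq_zero] at h1
    rw [coeff_xS z i ⟨b, hb.trans_le he0N⟩]
    exact h1
  have hlin := hlinz L z fun g hg => hz1 g (Finset.mem_union_right _ hg)
  have hcardI : Fintype.card (Idx n N M) = (n + 1) * N + (N + (n + 1) * M) := by
    simp [Idx]
  have hcardf : (f ∪ f2).card ≤ (n + 1) * N + d * N + O.card + (n + 1) * e0 := by
    have h1 := Finset.card_union_le f f2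
    omega
  have hOcard : O.card + d * N ≤ d * (δ * m) + δ * ((d + 1) * c) + c + 1 := by
    have h1 : d * N ≤ d * (δ * m) := Nat.mul_le_mul_left _ hNm
    have h2 : δ * (d * m + (d + 1) * c) = d * (δ * m) + δ * ((d + 1) * c) := by ring
    omega
  have hdim' : (n + 1) * (δ * m) ≤ (n + 1) * M + (n + 1) * c := by
    have := Nat.mul_le_mul_left (n + 1) hdim
    rw [Nat.mul_add] at this
    exact this
  -- the factor does not vanish to a high order
  have key : ∃ b : Fin N, (b : ℕ) < N - C3 ∧ z (Sum.inr (Sum.inl b)) ≠ 0 := by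
    by_contra hcon
    push Not at hcon
    have hq : (PowerSeries.X : PowerSeries L) ^ (N - C3) ∣ qS z := by
      rw [PowerSeries.X_pow_dvd_iff]
      intro b hb
      rw [coeff_qS z ⟨b, by omega⟩]
      exact hcon _ hb
    by_cases hne : ∃ l, phiS e z l ≠ 0
    · obtain ⟨T, hh, g, R, hT1, hT2, hT3, hT4⟩ := count_ii hTRI hDEG hCOMB hCON F hd hF had x₀ a
        CL C3 e0 (δ * m + c + 1) hC3N (by omega) (by omega) hx₀a hoH hCL z hsys hev hlin hq hne
      have h1 := hz3 T hT4
      rw [hcardI] at h1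
      have h2 : (n + 1) * (δ * m + c + 1) = (n + 1) * hh + (n + 1) * R := by rw [hT2]; ring
      have h3 : (n + 1) * hh + (n + 1) * C3 = (n + 1) * N + (n + 1) * g := by
        rw [← Nat.mul_add, hT3]
        ring
      have h4 : (n + 1) * (δ * m + c + 1) = (n + 1) * (δ * m) + (n + 1) * c + (n + 1) := by ring
      have h5 : (n + 1) * (2 * c + 1 + C3) = 2 * ((n + 1) * c) + (n + 1) + (n + 1) * C3 := by
        ring
      have h6 : (d + 1) * N = d * N + N := by ring
      rw [h5] at ht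
      rw [h4] at h2
      rw [h6] at hrel2
      exact arith_ii h1 hT1 hcardf hOcard hdim' h2 h3 hrel2 ht2 ht
    · push Not at hne
      obtain ⟨T, hT1, hT2⟩ := card_xpart z
      have hphi0 : ∀ p, z (Sum.inr (Sum.inr p)) = 0 := by
        rintro ⟨i, b⟩
        exact coord_zero hCOMB had z i (δ * m + c + 1) (fun b _ => by rw [hne i, map_zero]) b
          (hoH b)
      have hmem : ∀ i, z i ∈ IntermediateField.adjoin k (T : Set L) := by
        obtain ⟨ψ, B, hφ, -, -⟩ := hsys
        refine all_mem e z a _ ψ hφ ?_ ?_ ?_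
        · rw [hlin a 0 (by omega)]
          intro h
          apply hx₀a
          rw [← PowerSeries.coeff_zero_eq_constantCoeff_apply]
          exact (algebraMap k L).injective (by rw [h, map_zero])
        · exact fun p => IntermediateField.subset_adjoin _ _ (Finset.mem_coe.2 (hT2 p))
        · intro p
          rw [hphi0 p]
          exact IntermediateField.zero_mem _
      have h1 := hz3 T hmem
      rw [hcardI] at h1
      have h2 : (n + 1) * (δ * m) = d * (δ * m) + s * (δ * m) := by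
        rw [hs]
        ring
      have h5 : (n + 1) * (2 * c + 1 + C3) = 2 * ((n + 1) * c) + (n + 1) + (n + 1) * C3 := by
        ring
      have h6 : (n + 1) * N = n * N + N := by ring
      rw [h5] at ht
      exact arith_i h1 hT1 hcardf hOcard hdim' h2 h6 hrel1 ht1 ht
  -- descent
  obtain ⟨b₀, hb₀, hzb₀⟩ := key
  obtain ⟨z₀, hz₀1, hz₀2⟩ := hNS k (Idx n N M) (f ∪ f2) (X (Sum.inr (Sum.inl b₀))) L z hz1 (by
    rw [aeval_X]
    exact hzb₀)
  rw [eval_X] at hz₀2
  obtain ⟨hsys₀, hOz₀⟩ := (hf2 k z₀).1 fun g hg => hz₀1 g (Finset.mem_union_left _ hg)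
  have hev₀ := hO2 k z₀ hsys₀ hOz₀
  rw [upF_self] at hsys₀ hev₀
  have hlin₀ := hlinz k z₀ fun g hg => hz₀1 g (Finset.mem_union_right _ hg)
  obtain ⟨ψ, B, hφ, -, -⟩ := hsys₀
  have hex : ∃ r, PowerSeries.coeff r (qS z₀) ≠ 0 := ⟨b₀, by rw [coeff_qS]; exact hz₀2⟩
  obtain ⟨r, hr⟩ : ∃ r, r = Nat.find hex := ⟨_, rfl⟩
  have hrb : r ≤ b₀ := by
    rw [hr]
    exact Nat.find_min' hex (by rw [coeff_qS]; exact hz₀2)
  have hr1 : PowerSeries.coeff r (qS z₀) ≠ 0 := by
    rw [hr]
    exact Nat.find_spec hex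
  have hr2 : (PowerSeries.X : PowerSeries k) ^ r ∣ qS z₀ := by
    rw [PowerSeries.X_pow_dvd_iff]
    intro b hb
    rw [hr] at hb
    exact not_not.1 (Nat.find_min hex hb)
  obtain ⟨q, hq⟩ := hr2
  refine ⟨m, phiS e z₀, r, q, ?_, hev₀, ?_, ?_⟩
  · intro i
    rw [phiS_up]
    refine Submodule.sum_mem _ fun b _ => ?_
    rw [up_self, RingHom.id_apply, ← PowerSeries.smul_eq_C_mul]
    exact Submodule.smul_mem _ _ (had.mem b)
  · rw [hq, PowerSeries.coeff_X_pow_mul', if_pos le_rfl, Nat.sub_self,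
      PowerSeries.coeff_zero_eq_constantCoeff_apply] at hr1
    exact hr1
  · intro i
    have h1 : (PowerSeries.X : PowerSeries k) ^ ε ∣ xS z₀ i - x₀ i := by
      rw [PowerSeries.X_pow_dvd_iff]
      intro b hb
      rw [map_sub, hlin₀ i b (by omega), Algebra.algebraMap_self, RingHom.id_apply, sub_self]
    obtain ⟨w, hw⟩ := h1
    obtain ⟨N', hN'⟩ : ∃ N', N = r + ε + N' := ⟨N - (r + ε), by omega⟩
    refine ⟨q * w + PowerSeries.X ^ N' * ψ i, ?_⟩
    have h2 : xS z₀ i = x₀ i + PowerSeries.X ^ ε * w := by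
      rw [← hw]
      ring
    rw [hφ i, hq, h2, hN']
    ring

end Pool.Agent.WL
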