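import Pool.Agent.WL.Targets

/-!
# Homogeneity of the expansion coefficients
-/

set_option autoImplicit false

open MvPolynomial

namespace Pool.Agent.WL

namespace HOMJ_

variable {σ A : Type} [CommRing A]

/-- The coefficient of degree `j` is a form of degree `j`. -/
def Gr (g : Polynomial (MvPolynomial σ A)) : Prop := ∀ j, (g.coeff j).IsHomogeneous j

lemma gr_add {g h : Polynomial (MvPolynomial σ A)} (hg : Gr g) (hh : Gr h) : Gr (g + h) := by
  intro j
  rw [Polynomial.coeff_add]
  exact (hg j).add (hh j)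

lemma gr_mul {g h : Polynomial (MvPolynomial σ A)} (hg : Gr g) (hh : Gr h) : Gr (g * h) := by
  intro j
  rw [Polynomial.coeff_mul]
  refine IsHomogeneous.sum _ _ _ fun p hp => ?_
  rw [Finset.HasAntidiagonal.mem_antidiagonal] at hp
  rw [← hp]
  exact (hg p.1).mul (hh p.2)

lemma gr_C (a : A) : Gr (Polynomial.C (C a : MvPolynomial σ A)) := by
  intro j
  rw [Polynomial.coeff_C]
  split_ifs with hj
  · rw [hj]
    exact isHomogeneous_C σ a
  · exact isHomogeneous_zero σ A j

lemma gr_X (i : σ) : Gr (Polynomial.X * Polynomial.C (X i : MvPolynomial σ A)) := by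
  intro j
  rw [Polynomial.coeff_mul_C, Polynomial.coeff_X]
  split_ifs with hj
  · rw [← hj, one_mul]
    exact isHomogeneous_X A i
  · rw [zero_mul]
    exact isHomogeneous_zero σ A j

lemma gr_onLine (F : MvPolynomial σ A) (x : σ → A) :
    Gr (onLine (F.map C) (fun i => C (x i)) (fun i => (X i : MvPolynomial σ A))) := by
  unfold onLine
  rw [eval₂_map]
  induction F using MvPolynomial.induction_on with
  | C a =>
    rw [eval₂_C]
    exact gr_C a
  | add p q hp hq =>
    rw [eval₂_add]
    exact gr_add hp hq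
  | mul_X p i hp =>
    rw [eval₂_mul, eval₂_X]
    exact gr_mul hp (gr_add (gr_C (x i)) (gr_X i))

end HOMJ_

open HOMJ_ in
/-- HOMJ -/
theorem p_HOMJ : T_HOMJ := by
  intro σ A _ F x
  refine ⟨fun j => gr_onLine F x j, fun d S => ?_⟩
  unfold dminor
  rw [Matrix.det_apply]
  refine IsHomogeneous.sum _ _ _ fun τ _ => ?_
  have h1 : (∏ i, (dmat (F.map C) d (fun i => C (x i)) (fun i => (X i : MvPolynomial σ A))).submatrix
      id S (τ i) i).IsHomogeneous (∑ i : Fin d, ((τ i : Fin d) : ℕ)) := by
    refine IsHomogeneous.prod _ _ _ fun i _ => ?_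
    rw [Matrix.submatrix_apply]
    unfold dmat
    rw [pderiv_map]
    exact gr_onLine _ x _
  have h2 : ∑ i : Fin d, ((τ i : Fin d) : ℕ) = d * (d - 1) / 2 := by
    rw [Equiv.sum_comp τ (fun i : Fin d => (i : ℕ)), Fin.sum_univ_eq_sum_range (fun l => l) d,
      Finset.sum_range_id]
  rw [h2] at h1
  rcases Int.units_eq_one_or (Equiv.Perm.sign τ) with h | h
  · rw [h, one_smul]
    exact h1
  · rw [h, Units.neg_smul, one_smul]
    exact h1.neg

end Pool.Agent.WL
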