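import Pool.Agent.WL.Targets2
import Pool.Agent.WL.HOMJ

/-!
# Chains of two lines
-/

set_option autoImplicit false

open MvPolynomial
open Pool.Agent.WA

namespace Pool.Agent.WL

namespace CHAIN_

/-- The coefficients of the restriction to a line are forms in the direction. -/
theorem isForm_coeff {K σ : Type} [Field K] (F : MvPolynomial σ K) (x : σ → K) (j : ℕ) :
    IsForm K j (fun z : σ → K => (onLine F x z).coeff j) := by
  have h1 := IsForm.of_mvPolynomial ((p_HOMJ σ K F x).1 j)
  have h2 : (fun z : σ → K => eval z ((onLine (F.map C) (fun i => C (x i))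
      (fun i => X i)).coeff j)) = fun z => (onLine F x z).coeff j := by
    funext z
    have h3 := onLine_map (eval z) (F.map C) (fun i => C (x i)) (fun i => X i)
    have h4 : (F.map (C : K →+* MvPolynomial σ K)).map (eval z) = F := by
      rw [map_map]
      have h5 : (eval z).comp (C : K →+* MvPolynomial σ K) = RingHom.id K := by
        ext a
        simp
      rw [h5, map_id]
    rw [h4] at h3
    simp only [eval_C, eval_X] at h3
    rw [h3, Polynomial.coeff_map]
  rwa [h2] at h1

theorem sum_deg (m : ℕ) : 2 * ∑ j : Fin m, ((j : ℕ) + 1) = m * (m + 1) := by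
  rw [Fin.sum_univ_eq_sum_range (fun j => j + 1) m]
  induction m with
  | zero => rfl
  | succ m ih =>
    rw [Finset.sum_range_succ, mul_add, ih]
    ring

/-- A polynomial of degree at most `d` all of whose coefficients vanish. -/
theorem onLine_eq_zero (h1 : T_DEG) {σ A : Type} [CommRing A] {F : MvPolynomial σ A} {d : ℕ}
    (hd : 1 ≤ d) (hF : F.IsHomogeneous d) {x z : σ → A} (hx : eval x F = 0) (hz : eval z F = 0)
    (h : ∀ j : Fin (d - 1), (onLine F x z).coeff (j + 1) = 0) : onLine F x z = 0 := by
  obtain ⟨hdeg, h0, hdd⟩ := h1 σ A F d hF x z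
  ext j
  rw [Polynomial.coeff_zero]
  rcases Nat.eq_zero_or_pos j with hj | hj
  · rw [hj, h0, hx]
  · rcases lt_trichotomy j d with h2 | h2 | h2
    · have h3 := h ⟨j - 1, by omega⟩
      have h4 : ((⟨j - 1, by omega⟩ : Fin (d - 1)) : ℕ) + 1 = j := by
        simp only
        omega
      rwa [h4] at h3
    · rw [h2, hdd, hz]
    · exact Polynomial.coeff_eq_zero_of_natDegree_lt (lt_of_le_of_lt hdeg h2)

end CHAIN_

open CHAIN_ in
theorem p_CHAIN (h1 : T_DEG) : T_CHAIN := by
  intro K E _ _ _ hC1 n d F hd hdn hF y x hy hx halg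
  classical
  set K' : IntermediateField K E := IntermediateField.adjoin K (Set.range x) with hK'
  have hfin : FiniteDimensional K K' := by
    apply IntermediateField.finiteDimensional_adjoin
    rintro _ ⟨i, rfl⟩
    exact (halg i).isIntegral
  have hC1' : C1 K' := hC1.of_finite
  have hmem : ∀ i, x i ∈ K' := fun i => IntermediateField.subset_adjoin K _ ⟨i, rfl⟩
  set x' : Fin (n + 1) → K' := fun i => ⟨x i, hmem i⟩ with hx'
  set y' : Fin (n + 1) → K' := fun i => algebraMap K K' (y i) with hy'
  set F' : MvPolynomial (Fin (n + 1)) K' := F.map (algebraMap K K') with hF'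
  have hF'h : F'.IsHomogeneous d := hF.map _
  have hFE : F.map (algebraMap K E) = F'.map (algebraMap K' E) := by
    rw [hF', map_map, ← IsScalarTower.algebraMap_eq]
  have hy0 : eval y' F' = 0 := by
    rw [hF', eval_map, ← aeval_def, aeval_algebraMap_eq, hy, map_zero]
  have hx0 : eval x' F' = 0 := by
    apply (algebraMap K' E).injective
    rw [map_zero, ← aeval_algebraMap_eq, hF', aeval_map_algebraMap, ← hx]
    rfl
  -- the system
  obtain ⟨z, hz, hzero⟩ := hC1' (Fin (n + 1)) ((Fin (d - 1) ⊕ Fin (d - 1)) ⊕ Unit)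
    (fun i z => match i with
      | Sum.inl (Sum.inl j) => (onLine F' y' z).coeff (j + 1)
      | Sum.inl (Sum.inr j) => (onLine F' x' z).coeff (j + 1)
      | Sum.inr _ => eval z F')
    (fun i => match i with
      | Sum.inl (Sum.inl j) => (j : ℕ) + 1
      | Sum.inl (Sum.inr j) => (j : ℕ) + 1
      | Sum.inr _ => d)
    (by
      rintro ((j | j) | j)
      · exact Nat.succ_pos _
      · exact Nat.succ_pos _
      · exact hd)
    (by
      rintro ((j | j) | j)
      · exact isForm_coeff F' y' (j + 1)
      · exact isForm_coeff F' x' (j + 1)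
      · exact IsForm.of_mvPolynomial hF'h)
    (by
      simp only [Fintype.sum_sum_type, Finset.univ_unique, Finset.sum_singleton,
        Fintype.card_fin]
      have h2 := sum_deg (d - 1)
      have h3 : (d - 1) * (d - 1 + 1) + d = d ^ 2 := by
        obtain ⟨e, rfl⟩ : ∃ e, d = e + 1 := ⟨d - 1, by omega⟩
        simp only [Nat.add_sub_cancel]
        ring
      omega)
  have hz0 : eval z F' = 0 := hzero (Sum.inr ())
  have hly : onLine F' y' z = 0 :=
    onLine_eq_zero h1 hd hF'h hy0 hz0 (fun j => hzero (Sum.inl (Sum.inl j)))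
  have hlx : onLine F' x' z = 0 :=
    onLine_eq_zero h1 hd hF'h hx0 hz0 (fun j => hzero (Sum.inl (Sum.inr j)))
  refine ⟨fun i => algebraMap K' E (z i), ?_, ?_, ?_⟩
  · intro h
    apply hz
    funext i
    have h2 : algebraMap K' E (z i) = 0 := congrFun h i
    exact (map_eq_zero _).mp h2
  · have h2 := onLine_map (algebraMap K' E) F' y' z
    rw [hly, Polynomial.map_zero] at h2
    rw [hFE, ← h2]
    rfl
  · have h2 := onLine_map (algebraMap K' E) F' x' z
    rw [hlx, Polynomial.map_zero] at h2
    rw [hFE, ← h2]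
    rfl

end Pool.Agent.WL
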