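import Pool.Agent.WL.Targets

/-!
# The count of the arcs near a free line
-/

set_option autoImplicit false

open MvPolynomial

namespace Pool.Agent.WL

namespace CNT_

theorem up_up (k E L : Type) [Field k] [Field E] [Field L] [Algebra k E] [Algebra k L]
    [Algebra E L] [IsScalarTower k E L] (f : PowerSeries k) :
    up E L (up k E f) = up k L f := by
  unfold up
  ext n
  simp only [PowerSeries.coeff_map]
  exact (IsScalarTower.algebraMap_apply k E L _).symm

theorem upF_upF {σ : Type} (k E L : Type) [Field k] [Field E] [Field L] [Algebra k E]
    [Algebra k L] [Algebra E L] [IsScalarTower k E L] (F : MvPolynomial σ (PowerSeries k)) :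
    (upF E F).map (up E L) = upF L F := by
  unfold upF
  rw [map_map]
  have h : (up E L).comp (up k E) = up k L := RingHom.ext fun f => up_up k E L f
  rw [h]

/-- The set of pairs `(i, b)` whose coefficients are adjoined. -/
theorem card_pairs (n d N P c : ℕ) (R : Finset (Fin (n + 1))) (hR : R.card = d) (hPN : P ≤ N)
    (hc : 2 * c + 2 ≤ P) :
    ((((Finset.univ : Finset (Fin (n + 1))) ×ˢ Finset.range N).filter
      (fun p => ¬ (p.1 ∈ R ∧ c < p.2 ∧ p.2 + c < P))).card) + d * P ≤
      (n + 1) * N + d * (2 * c + 1) := by
  classical
  have h1 := Finset.card_filter_add_card_filter_not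
    (s := (Finset.univ : Finset (Fin (n + 1))) ×ˢ Finset.range N)
    (fun p => (p.1 ∈ R ∧ c < p.2 ∧ p.2 + c < P))
  have h2 : R ×ˢ (Finset.Ioo c (P - c)) ⊆ ((Finset.univ : Finset (Fin (n + 1))) ×ˢ
      Finset.range N).filter (fun p => (p.1 ∈ R ∧ c < p.2 ∧ p.2 + c < P)) := by
    intro p hp
    rw [Finset.mem_product, Finset.mem_Ioo] at hp
    rw [Finset.mem_filter, Finset.mem_product, Finset.mem_range]
    refine ⟨⟨Finset.mem_univ _, by omega⟩, hp.1, hp.2.1, by omega⟩
  have h3 := Finset.card_le_card h2
  rw [Finset.card_product, Nat.card_Ioo, hR] at h3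
  rw [Finset.card_product, Finset.card_univ, Fintype.card_fin, Finset.card_range] at h1
  have h4 : d * (P - c - c - 1) + d * (2 * c + 1) = d * P := by
    rw [← Nat.mul_add]
    congr 1
    omega
  omega

end CNT_

open CNT_ in
theorem p_CNT (h1 : T_NC) (h2 : T_GL) : T_CNT := by
  classical
  intro k E L _ _ _ _ _ _ _ n d N P c F x y S hPN hj hm
  by_cases hP : P ≤ 2 * c + 1
  · refine ⟨((Finset.univ : Finset (Fin (n + 1))) ×ˢ Finset.range N).image
      (fun p => PowerSeries.coeff p.2 (x p.1)), ?_, fun i b hb => ?_⟩
    · refine Nat.add_le_add ?_ (Nat.mul_le_mul_left _ hP)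
      refine Finset.card_image_le.trans ?_
      rw [Finset.card_product, Finset.card_univ, Fintype.card_fin, Finset.card_range]
    · refine IntermediateField.subset_adjoin _ _ ?_
      rw [Finset.mem_coe, Finset.mem_image]
      exact ⟨(i, b), Finset.mem_product.mpr ⟨Finset.mem_univ _, Finset.mem_range.mpr hb⟩, rfl⟩
  · rw [not_le] at hP
    have hS : Function.Injective S := by
      intro l l' hll
      by_contra hne
      apply hm
      have : dminor (upF L F) d x (fun i => up E L (y i)) S = 0 := by
        unfold dminor
        refine Matrix.det_zero_of_column_eq hne fun r => ?_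
        simp only [Matrix.submatrix_apply, hll]
      rw [this]
      exact dvd_zero _
    set R : Finset (Fin (n + 1)) := Finset.univ.image S with hRdef
    have hR : R.card = d := by
      rw [hRdef, Finset.card_image_of_injective _ hS, Finset.card_univ, Fintype.card_fin]
    set Q := ((Finset.univ : Finset (Fin (n + 1))) ×ˢ Finset.range N).filter
      (fun p => ¬ (p.1 ∈ R ∧ c < p.2 ∧ p.2 + c < P)) with hQ
    set T : Finset L := Q.image (fun p => PowerSeries.coeff p.2 (x p.1)) with hT
    have hmem : ∀ i b, b < N → ¬ (i ∈ R ∧ c < b ∧ b + c < P) →
        PowerSeries.coeff b (x i) ∈ IntermediateField.adjoin E (T : Set L) := by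
      intro i b hb hn
      refine IntermediateField.subset_adjoin _ _ ?_
      rw [Finset.mem_coe, hT, Finset.mem_image]
      refine ⟨(i, b), ?_, rfl⟩
      rw [hQ, Finset.mem_filter, Finset.mem_product]
      exact ⟨⟨Finset.mem_univ _, Finset.mem_range.mpr hb⟩, hn⟩
    refine ⟨T, ?_, ?_⟩
    · have := card_pairs n d N P c R hR hPN (by omega)
      rw [← hQ] at this
      have h3 : T.card ≤ Q.card := Finset.card_image_le
      omega
    · -- the polynomials of the expansion coefficients
      have hG := fun j : Fin d => h2 (Fin (n + 1)) (Fin (n + 1)) (PowerSeries E) (upF E F)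
        (fun _ => 0) y (fun i l => if i = l then 1 else 0) (fun _ _ => 0) j
      choose G hG using hG
      have hG' := fun j : Fin d => hG j (PowerSeries L) (up E L) x x (fun i => up E L (y i))
        (by
          intro i
          rw [map_zero, zero_add, Finset.sum_eq_single i]
          · rw [if_pos rfl, map_one, one_mul]
          · intro b _ hb
            rw [if_neg (Ne.symm hb), map_zero, zero_mul]
          · intro hi; exact absurd (Finset.mem_univ i) hi)
        (by
          intro i
          rw [Finset.sum_eq_zero, add_zero]
          intro l _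
          rw [map_zero, zero_mul])
      have key := h1 E L (Fin (n + 1)) d P c G S x (IntermediateField.adjoin E (T : Set L))
        ?_ ?_ ?_ ?_
      · intro i b hb
        by_cases hbP : b + c < P
        · exact key i b hbP
        · exact hmem i b hb (fun h => hbP h.2.2)
      · intro j
        have := (hG' j).1
        rw [upF_upF] at this
        change _ ∣ eval x ((G j).map (up E L))
        rw [this]
        exact hj j j.2
      · intro hdvd
        apply hm
        convert hdvd using 1
        unfold dminor
        congr 1
        refine Matrix.ext fun j l => ?_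
        simp only [Matrix.submatrix_apply, Matrix.of_apply, dmat, id]
        have := (hG' j).2 (S l)
        rw [upF_upF] at this
        change _ = eval x (pderiv (S l) ((G j).map (up E L)))
        rw [this, Finset.sum_eq_single (S l)]
        · rw [if_pos rfl, map_one, one_mul, Finset.sum_eq_zero, add_zero]
          intro i _
          rw [map_zero, zero_mul]
        · intro b _ hb
          rw [if_neg hb, map_zero, zero_mul]
        · intro hi; exact absurd (Finset.mem_univ _) hi
      · intro i hi a ha
        refine hmem i a (by omega) fun h => hi ?_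
        obtain ⟨l, -, hl⟩ := Finset.mem_image.mp h.1
        exact ⟨l, hl⟩
      · intro i a ha
        exact hmem i a (by omega) (fun h => by omega)

end Pool.Agent.WL
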