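import Pool.Agent.WL.Targets

/-!
# The count of arcs near a free line through a near point
-/

set_option autoImplicit false

open MvPolynomial

namespace Pool.Agent.WL

namespace CNT2_

section Basic

variable {E L : Type} [Field E] [Field L] [Algebra E L] (B : IntermediateField E L)

theorem coeff_up (g : PowerSeries E) (b : ℕ) :
    PowerSeries.coeff b (up E L g) = algebraMap E L (PowerSeries.coeff b g) := by
  unfold up; rw [PowerSeries.coeff_map]

theorem mul_mem (g : PowerSeries E) (f : PowerSeries L) (N : ℕ)
    (h : ∀ b < N, PowerSeries.coeff b f ∈ B) :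
    ∀ b < N, PowerSeries.coeff b (up E L g * f) ∈ B := by
  intro b hb
  rw [PowerSeries.coeff_mul]
  refine B.sum_mem fun p hp => ?_
  have hp' := Finset.HasAntidiagonal.mem_antidiagonal.mp hp
  refine B.mul_mem ?_ (h _ (by omega))
  rw [coeff_up]
  exact B.algebraMap_mem _

theorem xpow_mem (f : PowerSeries L) (N e : ℕ) (h : ∀ b, b + e < N → PowerSeries.coeff b f ∈ B) :
    ∀ b < N, PowerSeries.coeff b (PowerSeries.X ^ e * f) ∈ B := by
  intro b hb
  rw [PowerSeries.coeff_X_pow_mul']
  split_ifs with hle
  · exact h _ (by omega)
  · exact B.zero_mem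

theorem up_comp (k E L : Type) [Field k] [Field E] [Field L] [Algebra k E] [Algebra k L]
    [Algebra E L] [IsScalarTower k E L] : (up E L).comp (up k E) = up k L := by
  ext f b
  rw [RingHom.comp_apply, coeff_up, coeff_up, coeff_up, ← IsScalarTower.algebraMap_apply]

end Basic

/-- Determinant of a matrix changed by a unipotent shift. -/
theorem det_shift {R : Type} [CommRing R] (d : ℕ) (s : R) (D : ℕ → Fin d → R)
    (hD : ∀ l, D d l = 0) :
    (Matrix.of fun j l : Fin d => D j l - s * D (j + 1) l).det =
      (Matrix.of fun j l : Fin d => D j l).det := by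
  set U : Matrix (Fin d) (Fin d) R := fun j m =>
    if m = j then 1 else if (m : ℕ) = j + 1 then -s else 0 with hU
  have h1 : (Matrix.of fun j l : Fin d => D j l - s * D (j + 1) l) =
      U * (Matrix.of fun j l : Fin d => D j l) := by
    ext j l
    rw [Matrix.mul_apply]
    simp only [Matrix.of_apply]
    have e1 : ∀ m : Fin d, U j m * D m l =
        (if m = j then D j l else 0) + (if (m : ℕ) = j + 1 then -s * D (j + 1) l else 0) := by
      intro m
      rw [hU]
      simp only
      by_cases h : m = j
      · subst h
        rw [if_pos rfl, if_pos rfl, if_neg (by omega)]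
        ring
      · rw [if_neg h, if_neg h]
        by_cases h' : (m : ℕ) = j + 1
        · rw [if_pos h', if_pos h', h', zero_add]
        · rw [if_neg h', if_neg h']; ring
    rw [Finset.sum_congr rfl (fun m _ => e1 m), Finset.sum_add_distrib,
      Finset.sum_ite_eq' Finset.univ j, if_pos (Finset.mem_univ _)]
    have e2 : ∑ m : Fin d, (if (m : ℕ) = j + 1 then -s * D (j + 1) l else 0) =
        -s * D (j + 1) l := by
      by_cases hj : (j : ℕ) + 1 < d
      · rw [Finset.sum_eq_single (⟨j + 1, hj⟩ : Fin d)]
        · rw [if_pos rfl]
        · intro m _ hm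
          rw [if_neg (fun h => hm (Fin.ext h))]
        · intro h; exact absurd (Finset.mem_univ _) h
      · have hjd : (j : ℕ) + 1 = d := by have := j.2; omega
        rw [hjd, hD, mul_zero]
        refine Finset.sum_eq_zero fun m _ => ?_
        split_ifs <;> rfl
    rw [e2]; ring
  have h2 : U.det = 1 := by
    rw [Matrix.det_of_isUpperTriangular]
    · refine Finset.prod_eq_one fun j _ => ?_
      rw [hU]; simp
    · intro i j hij
      have hij' : (j : ℕ) < i := hij
      rw [hU]; simp only
      rw [if_neg (fun h => by rw [h] at hij'; omega), if_neg (by omega)]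
  rw [h1, Matrix.det_mul, h2, one_mul]

end CNT2_

open CNT2_ in
theorem p_CNT2 (h1 : T_NC) (h2 : T_GL) (h3 : T_DEG) : T_CNT2 := by
  classical
  intro k E L _ _ _ _ _ _ _ n d N P c e F x η y a S hd hF hPN hxa hya hrel hdiv hSa hmin
  set φ : PowerSeries E →+* PowerSeries L := up E L with hφ
  set v : PowerSeries E := (y a)⁻¹ with hv
  have hvy : v * y a = 1 := PowerSeries.inv_mul_cancel _ hya
  have hφvy : φ v * φ (y a) = 1 := by rw [← map_mul, hvy, map_one]
  have hηa : η a = 0 := by
    have h := hrel a
    have h0 : x a * φ (y a) - φ (y a) * x a = 0 := by ring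
    rw [h0] at h
    have hX : (PowerSeries.X : PowerSeries L) ^ e ≠ 0 := pow_ne_zero _ PowerSeries.X_ne_zero
    exact (mul_eq_zero.mp h.symm).resolve_left hX
  have hxi : ∀ i, x i = φ (v * y i) * x a - φ v * (PowerSeries.X ^ e * η i) := by
    intro i
    rw [← hrel i, map_mul]
    have : φ v * φ (y a) * x i = x i := by rw [hφvy, one_mul]
    calc x i = φ v * φ (y a) * x i := this.symm
      _ = _ := by ring
  -- the affine family
  set α : Fin (n + 1) → Fin (n + 1) → PowerSeries E := fun i l =>
    if l = a then v * y i else if l = i then -(v * PowerSeries.X ^ e) else 0 with hα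
  set β : Fin (n + 1) → Fin (n + 1) → PowerSeries E := fun i l =>
    if l = i then (if i = a then 0 else 1) else 0 with hβ
  set u : Fin (n + 1) → PowerSeries L := fun l => if l = a then x a else η l with hu
  have hφX : φ (PowerSeries.X ^ e) = PowerSeries.X ^ e := by
    rw [hφ]; unfold up; rw [map_pow, PowerSeries.map_X]
  have hux : ∀ i, x i = φ ((fun _ => (0 : PowerSeries E)) i) + ∑ l, φ (α i l) * u l := by
    intro i
    have e1 : ∀ l, φ (α i l) * u l = (if l = a then φ (v * y i) * x a else 0) +
        (if l = i then (if i = a then 0 else -(φ v * (PowerSeries.X ^ e * η i))) else 0) := by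
      intro l
      rw [hα, hu]
      simp only
      by_cases hl : l = a
      · rw [if_pos hl, if_pos hl, if_pos hl]
        by_cases hi : i = a
        · rw [if_pos hi]; simp
        · rw [if_neg (fun h : l = i => hi (h ▸ hl))]; ring
      · rw [if_neg hl, if_neg hl, if_neg hl]
        by_cases hi : l = i
        · rw [if_pos hi, if_pos hi, if_neg (fun h => hl (hi.trans h)), map_neg, map_mul, hφX, hi]
          ring
        · rw [if_neg hi, if_neg hi, map_zero]; ring
    rw [Finset.sum_congr rfl (fun l _ => e1 l), Finset.sum_add_distrib,
      Finset.sum_ite_eq' Finset.univ a, Finset.sum_ite_eq' Finset.univ i,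
      if_pos (Finset.mem_univ _), if_pos (Finset.mem_univ _), map_zero, zero_add]
    by_cases hi : i = a
    · rw [if_pos hi, add_zero, hi, hvy, map_one, one_mul]
    · rw [if_neg hi, hxi i]; ring
  have huη : ∀ i, η i = φ ((fun _ => (0 : PowerSeries E)) i) + ∑ l, φ (β i l) * u l := by
    intro i
    have e1 : ∀ l, φ (β i l) * u l = if l = i then (if i = a then 0 else η i) else 0 := by
      intro l
      rw [hβ, hu]
      simp only
      by_cases hl : l = i
      · rw [if_pos hl, if_pos hl]
        by_cases hi : i = a
        · rw [if_pos hi, if_pos hi, map_zero, zero_mul]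
        · rw [if_neg hi, if_neg hi, map_one, one_mul, if_neg (fun h => hi (hl ▸ h)), hl]
      · rw [if_neg hl, if_neg hl, map_zero, zero_mul]
    rw [Finset.sum_congr rfl (fun l _ => e1 l), Finset.sum_ite_eq' Finset.univ i,
      if_pos (Finset.mem_univ _), map_zero, zero_add]
    by_cases hi : i = a
    · rw [if_pos hi, hi, hηa]
    · rw [if_neg hi]
  set FE : MvPolynomial (Fin (n + 1)) (PowerSeries E) := F.map (up k E) with hFE
  have hFE' : FE.map φ = upF L F := by
    rw [hFE, map_map, hφ, up_comp]; rfl
  have hG := fun j : Fin d => h2 (Fin (n + 1)) (Fin (n + 1)) (PowerSeries E) FE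
    (fun _ => 0) (fun _ => 0) α β ((j : ℕ) + 1)
  choose G hG using hG
  have hG1 : ∀ j, eval u (upF L (G j)) = (onLine (upF L F) x η).coeff ((j : ℕ) + 1) := by
    intro j
    have := (hG j (PowerSeries L) φ u x η hux huη).1
    rw [hFE'] at this
    exact this
  set D : ℕ → Fin d → PowerSeries L := fun j l =>
    (onLine (pderiv (S l) (upF L F)) x η).coeff j with hD
  have hG2 : ∀ j l : Fin d, eval u (pderiv (S l) (upF L (G j))) =
      D j l - (φ v * PowerSeries.X ^ e) * D ((j : ℕ) + 1) l := by
    intro j l
    have := (hG j (PowerSeries L) φ u x η hux huη).2 (S l)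
    rw [hFE'] at this
    have e0 : eval u (pderiv (S l) (upF L (G j))) = eval u (pderiv (S l) ((G j).map φ)) := rfl
    rw [e0, this]
    have hSl := hSa l
    have e1 : ∀ i, φ (α i (S l)) * (onLine (pderiv i (upF L F)) x η).coeff ((j : ℕ) + 1) =
        if i = S l then -(φ v * PowerSeries.X ^ e) * D ((j : ℕ) + 1) l else 0 := by
      intro i
      rw [hα]
      simp only
      rw [if_neg hSl]
      by_cases hi : i = S l
      · rw [if_pos hi.symm, if_pos hi, map_neg, map_mul, hφX, hD, hi]
      · rw [if_neg (fun h => hi h.symm), if_neg hi, map_zero, zero_mul]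
    have e2 : ∀ i, φ (β i (S l)) * (if (j : ℕ) + 1 = 0 then 0 else
        (onLine (pderiv i (upF L F)) x η).coeff ((j : ℕ) + 1 - 1)) =
        if i = S l then D j l else 0 := by
      intro i
      rw [hβ]
      simp only
      rw [if_neg (Nat.succ_ne_zero _), Nat.add_sub_cancel]
      by_cases hi : i = S l
      · rw [if_pos hi.symm, if_pos hi, if_neg (fun h => hSl (hi ▸ h)), map_one, one_mul, hD, hi]
      · rw [if_neg (fun h => hi h.symm), if_neg hi, map_zero, zero_mul]
    rw [Finset.sum_congr rfl (fun i _ => e1 i), Finset.sum_congr rfl (fun i _ => e2 i),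
      Finset.sum_ite_eq' Finset.univ (S l), Finset.sum_ite_eq' Finset.univ (S l),
      if_pos (Finset.mem_univ _), if_pos (Finset.mem_univ _)]
    ring
  have hDd : ∀ l, D d l = 0 := by
    intro l
    rw [hD]
    simp only
    have hFL : (upF L F).IsHomogeneous d := hF.map _
    have hdeg := (h3 (Fin (n + 1)) (PowerSeries L) (pderiv (S l) (upF L F)) (d - 1)
      hFL.pderiv x η).1
    exact Polynomial.coeff_eq_zero_of_natDegree_lt (by omega)
  have hdet : (Matrix.of fun j l : Fin d => eval u (pderiv (S l) (upF L (G j)))).det =
      dminor (upF L F) d x η S := by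
    have e1 : (Matrix.of fun j l : Fin d => eval u (pderiv (S l) (upF L (G j)))) =
        (Matrix.of fun j l : Fin d => D j l - (φ v * PowerSeries.X ^ e) * D ((j : ℕ) + 1) l) := by
      ext j l
      rw [Matrix.of_apply, Matrix.of_apply, hG2]
    rw [e1, det_shift d _ D hDd]
    rfl
  have hSinj : Function.Injective S := by
    intro l l' hll
    by_contra hne
    apply hmin
    have : dminor (upF L F) d x η S = 0 := by
      unfold dminor
      refine Matrix.det_zero_of_column_eq hne fun i => ?_
      rw [Matrix.submatrix_apply, Matrix.submatrix_apply, hll]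
    rw [this]
    exact dvd_zero _
  -- the set of coefficients
  set I : Fin (n + 1) → Finset ℕ := fun i =>
    if i ∈ Set.range S then (Finset.range (N - e)).filter (fun b => b ≤ c ∨ P ≤ b + c)
    else Finset.range (N - e) with hI
  set T : Finset L := (Finset.range N).image (fun b => PowerSeries.coeff b (x a)) ∪
    (Finset.univ.erase a).biUnion (fun i => (I i).image (fun b => PowerSeries.coeff b (η i)))
    with hT
  refine ⟨T, ?_, ?_⟩
  · have c1 : T.card ≤ N + ∑ i ∈ Finset.univ.erase a, (I i).card := by
      rw [hT]
      refine (Finset.card_union_le _ _).trans (Nat.add_le_add ?_ ?_)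
      · exact Finset.card_image_le.trans (by rw [Finset.card_range])
      · exact Finset.card_biUnion_le.trans
          (Finset.sum_le_sum fun i _ => Finset.card_image_le)
    have c2 : ∀ i ∈ Finset.univ.erase a, (I i).card + (if i ∈ Set.range S then P else 0) + e ≤
        N + (if i ∈ Set.range S then 2 * c + 1 else 0) := by
      intro i _
      rw [hI]
      simp only
      by_cases hi : i ∈ Set.range S
      · rw [if_pos hi, if_pos hi, if_pos hi]
        rcases Nat.lt_or_ge c P with hcP | hcP
        · have s1 : (Finset.range (N - e)).filter (fun b => b ≤ c ∨ P ≤ b + c) ⊆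
              Finset.range (c + 1) ∪ Finset.Ico (P - c) (N - e) := by
            intro b hb
            rw [Finset.mem_filter, Finset.mem_range] at hb
            rw [Finset.mem_union, Finset.mem_range, Finset.mem_Ico]
            omega
          have s2 := (Finset.card_le_card s1).trans (Finset.card_union_le _ _)
          rw [Finset.card_range, Nat.card_Ico] at s2
          omega
        · have s2 := Finset.card_filter_le (Finset.range (N - e)) (fun b => b ≤ c ∨ P ≤ b + c)
          rw [Finset.card_range] at s2
          omega
      · rw [if_neg hi, if_neg hi, if_neg hi, Finset.card_range]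
        omega
    have c3 := Finset.sum_le_sum c2
    rw [Finset.sum_add_distrib, Finset.sum_add_distrib, Finset.sum_add_distrib,
      Finset.sum_const, Finset.sum_const, Finset.card_erase_of_mem (Finset.mem_univ a),
      Finset.card_univ, Fintype.card_fin] at c3
    have c4 : ∀ m : ℕ, ∑ i ∈ Finset.univ.erase a, (if i ∈ Set.range S then m else 0) = d * m := by
      intro m
      rw [← Finset.sum_filter, Finset.sum_const, smul_eq_mul]
      congr 1
      have : (Finset.univ.erase a).filter (fun i => i ∈ Set.range S) = Finset.univ.image S := by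
        ext i
        simp only [Finset.mem_filter, Finset.mem_erase, Finset.mem_univ, and_true, Set.mem_range,
          Finset.mem_image, true_and]
        constructor
        · rintro ⟨-, l, hl⟩; exact ⟨l, hl⟩
        · rintro ⟨l, hl⟩
          exact ⟨fun h => hSa l (hl.trans h), l, hl⟩
      rw [this, Finset.card_image_of_injective _ hSinj, Finset.card_univ, Fintype.card_fin]
    rw [c4, c4] at c3
    simp only [smul_eq_mul, Nat.add_sub_cancel] at c3
    have c5 : (n + 1) * N = n * N + N := by ring
    rw [c5]
    omega
  · set B := IntermediateField.adjoin E (T : Set L) with hB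
    have hTB : ∀ t ∈ T, t ∈ B := fun t ht => IntermediateField.subset_adjoin E (T : Set L) ht
    have hxB : ∀ b < N, PowerSeries.coeff b (x a) ∈ B := by
      intro b hb
      apply hTB
      rw [hT]
      exact Finset.mem_union_left _ (Finset.mem_image.mpr ⟨b, Finset.mem_range.mpr hb, rfl⟩)
    have hIB : ∀ i, i ≠ a → ∀ b ∈ I i, PowerSeries.coeff b (η i) ∈ B := by
      intro i hi b hb
      apply hTB
      rw [hT]
      refine Finset.mem_union_right _ (Finset.mem_biUnion.mpr ⟨i, ?_, ?_⟩)
      · exact Finset.mem_erase.mpr ⟨hi, Finset.mem_univ _⟩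
      · exact Finset.mem_image.mpr ⟨b, hb, rfl⟩
    have hIout : ∀ i, i ∉ Set.range S → ∀ b < N - e, b ∈ I i := by
      intro i hi b hb
      rw [hI]; simp only
      rw [if_neg hi]
      exact Finset.mem_range.mpr hb
    have hIin : ∀ i, i ∈ Set.range S → ∀ b < N - e, (b ≤ c ∨ P ≤ b + c) → b ∈ I i := by
      intro i hi b hb hbc
      rw [hI]; simp only
      rw [if_pos hi]
      exact Finset.mem_filter.mpr ⟨Finset.mem_range.mpr hb, hbc⟩
    have hηB : ∀ i, i ≠ a → ∀ b, b + e < N → PowerSeries.coeff b (η i) ∈ B := by
      intro i hi b hb
      by_cases hiS : i ∈ Set.range S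
      · by_cases hbc : b ≤ c ∨ P ≤ b + c
        · exact hIB i hi b (hIin i hiS b (by omega) hbc)
        · push Not at hbc
          have hnc := h1 E L (Fin (n + 1)) d P c G S u B
            (by
              intro j
              rw [hG1]
              exact hdiv _ (by omega) (by have := j.2; omega))
            (by rw [hdet]; exact hmin)
            (by
              intro i' hi' b' hb'
              rw [hu]; simp only
              by_cases hia : i' = a
              · rw [if_pos hia]; exact hxB b' (by omega)
              · rw [if_neg hia]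
                exact hIB i' hia b' (hIout i' hi' b' (by omega)))
            (by
              intro i' b' hb'
              rw [hu]; simp only
              by_cases hia : i' = a
              · rw [if_pos hia]; exact hxB b' (by omega)
              · rw [if_neg hia]
                by_cases hi'S : i' ∈ Set.range S
                · exact hIB i' hia b' (hIin i' hi'S b' (by omega) (Or.inl hb'))
                · exact hIB i' hia b' (hIout i' hi'S b' (by omega)))
            i b (by omega)
          rw [hu] at hnc
          simp only at hnc
          rw [if_neg hi] at hnc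
          exact hnc
      · exact hIB i hi b (hIout i hiS b (by omega))
    intro i b hb
    by_cases hia : i = a
    · rw [hia]; exact hxB b hb
    · rw [hxi i, map_sub]
      refine B.sub_mem ?_ ?_
      · exact mul_mem B (v * y i) (x a) N hxB b hb
      · exact mul_mem B v (PowerSeries.X ^ e * η i) N
          (xpow_mem B (η i) N e (hηB i hia)) b hb

end Pool.Agent.WL
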