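import Pool.Agent.WL.Targets

/-!
# The count of the arcs near a given point
-/

set_option autoImplicit false

open PowerSeries

namespace Pool.Agent.WL

namespace CNT3_

/-- The coefficients below `N` of a product are in a subfield if those of the factors are. -/
theorem mul_mem {E L : Type} [Field E] [Field L] [Algebra E L] (K : IntermediateField E L)
    (N : ℕ) (f g : PowerSeries L) (hf : ∀ b < N, coeff b f ∈ K) (hg : ∀ b < N, coeff b g ∈ K) :
    ∀ b < N, coeff b (f * g) ∈ K := by
  intro b hb
  rw [PowerSeries.coeff_mul]
  refine sum_mem fun p hp => ?_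
  have h1 := Finset.HasAntidiagonal.mem_antidiagonal.1 hp
  exact K.mul_mem (hf _ (by omega)) (hg _ (by omega))

/-- The coefficients of a series with coefficients in the small field. -/
theorem up_mem {E L : Type} [Field E] [Field L] [Algebra E L] (K : IntermediateField E L)
    (f : PowerSeries E) (b : ℕ) : coeff b (up E L f) ∈ K := by
  have h : coeff b (up E L f) = algebraMap E L (coeff b f) := by
    simp [up]
  rw [h]
  exact K.algebraMap_mem _

end CNT3_

open CNT3_ in
theorem p_CNT3 : T_CNT3 := by
  classical
  intro E L _ _ _ n N e x η y a heN hy h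
  set T : Finset L := (Finset.range N).image (fun b => coeff b (x a)) ∪
    (((Finset.univ.erase a) ×ˢ (Finset.range (N - e))).image
      (fun p : Fin (n + 1) × ℕ => coeff p.2 (η p.1))) with hT
  refine ⟨T, ?_, ?_⟩
  · have h1 : T.card ≤ N + n * (N - e) := by
      refine (Finset.card_union_le _ _).trans ?_
      refine Nat.add_le_add ?_ ?_
      · exact Finset.card_image_le.trans (by simp)
      · refine Finset.card_image_le.trans ?_
        rw [Finset.card_product, Finset.card_erase_of_mem (Finset.mem_univ a)]
        simp
    obtain ⟨c, hc⟩ := Nat.exists_eq_add_of_le heN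
    subst hc
    have h2 : e + c - e = c := by omega
    rw [h2] at h1
    nlinarith [h1]
  · set K := IntermediateField.adjoin E (T : Set L) with hK
    have hsub : ∀ t ∈ T, t ∈ K := fun t ht => IntermediateField.subset_adjoin E (T : Set L) ht
    have hxa : ∀ b < N, coeff b (x a) ∈ K := by
      intro b hb
      refine hsub _ ?_
      rw [hT]
      exact Finset.mem_union_left _ (Finset.mem_image.2 ⟨b, Finset.mem_range.2 hb, rfl⟩)
    intro i
    by_cases hi : i = a
    · subst hi
      exact hxa
    · have hη : ∀ b < N, coeff b (X ^ e * η i) ∈ K := by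
        intro b hb
        rw [PowerSeries.coeff_X_pow_mul']
        split_ifs with hbe
        · refine hsub _ ?_
          rw [hT]
          refine Finset.mem_union_right _ (Finset.mem_image.2 ⟨(i, b - e), ?_, rfl⟩)
          rw [Finset.mem_product]
          exact ⟨Finset.mem_erase.2 ⟨hi, Finset.mem_univ _⟩, Finset.mem_range.2 (by omega)⟩
        · exact K.zero_mem
      have hinv : (y a)⁻¹ * y a = 1 := PowerSeries.inv_mul_cancel _ hy
      have hup : up E L ((y a)⁻¹) * up E L (y a) = 1 := by
        rw [← map_mul, hinv, map_one]
      have hx : x i = up E L ((y a)⁻¹) * (x a * up E L (y i) - X ^ e * η i) := by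
        rw [← h i]
        calc x i = (up E L ((y a)⁻¹) * up E L (y a)) * x i := by rw [hup, one_mul]
          _ = _ := by ring
      rw [hx]
      refine mul_mem K N _ _ (fun b _ => up_mem K _ b) ?_
      intro b hb
      rw [map_sub]
      exact K.sub_mem (mul_mem K N _ _ hxa (fun b _ => up_mem K _ b) b hb) (hη b hb)

end Pool.Agent.WL
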