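import Pool.Agent.WL.Targets2

/-!
# Bounded codimension of functions that are small at places
-/

set_option autoImplicit false

open WithZero
open Pool.Agent.WA

namespace Pool.Agent.WL.COD_

variable {k K : Type} [Field k] [Field K] [Algebra k K]

theorem val_const {v : Valuation K ℤᵐ⁰} (hv : PlaceOf k v) (c : k) :
    v (algebraMap k K c) ≤ 1 := by
  by_cases hc : c = 0
  · simp [hc]
  · exact (hv.2 c hc).le

/-- The functions of valuation at most `η`. -/
def Uu {v : Valuation K ℤᵐ⁰} (hv : PlaceOf k v) (η : ℤᵐ⁰) : Submodule k K where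
  carrier := {f | v f ≤ η}
  zero_mem' := by simp
  add_mem' := fun {a b} ha hb => v.map_add_le ha hb
  smul_mem' := fun c x hx => by
    show v (c • x) ≤ η
    rw [Algebra.smul_def, map_mul]
    calc v (algebraMap k K c) * v x ≤ 1 * v x := mul_le_mul' (val_const hv c) le_rfl
      _ = v x := one_mul _
      _ ≤ η := hx

theorem mem_Uu {v : Valuation K ℤᵐ⁰} (hv : PlaceOf k v) (η : ℤᵐ⁰) (f : K) :
    f ∈ Uu hv η ↔ v f ≤ η := Iff.rfl

theorem const_unique {v : Valuation K ℤᵐ⁰} (hv : PlaceOf k v) {c : k}
    (h : v (algebraMap k K c) < 1) : c = 0 := by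
  by_contra hc
  rw [hv.2 c hc] at h
  exact lt_irrefl _ h

theorem le_of_lt_zpow {v : Valuation K ℤᵐ⁰} {π : K} (hπ : IsUnif v π) {N : ℕ} {x : K}
    (h : v x < v π ^ N) : v x ≤ v π ^ (N + 1) := by
  by_cases hx : x = 0
  · simp [hx]
  · obtain ⟨m, hm⟩ := hπ.gen x hx
    rw [hm] at h ⊢
    rw [← zpow_natCast] at h ⊢
    have h1 : (N : ℤ) < m := by
      by_contra hle
      push Not at hle
      have := zpow_le_zpow_right_of_le_one₀ (zero_lt_iff.mpr hπ.ne_zero) hπ.lt_one.le hle
      exact absurd h (not_lt.mpr this)
    exact zpow_le_zpow_right_of_le_one₀ (zero_lt_iff.mpr hπ.ne_zero) hπ.lt_one.le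
      (by push_cast; omega)

/-- One step. -/
theorem step {v : Valuation K ℤᵐ⁰} (hv : PlaceOf k v) {π : K} (hπ : IsUnif v π)
    (hres : ∀ x : K, v x ≤ 1 → ∃ c : k, v (x - algebraMap k K c) < 1) (N : ℕ)
    (V : Submodule k K) (hfin : FiniteDimensional k V) (hV : ∀ f ∈ V, v f ≤ v π ^ N) :
    Module.finrank k V ≤
      Module.finrank k (V ⊓ Uu hv (v π ^ (N + 1)) : Submodule k K) + 1 := by
  have hπ0 : π ≠ 0 := fun h => hπ.ne_zero (by simp [h])
  have hpow : v (π ^ N) ≠ 0 := by rw [map_pow]; exact pow_ne_zero _ hπ.ne_zero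
  have hle : ∀ f : V, v ((f : K) / π ^ N) ≤ 1 := by
    intro f
    rw [map_div₀, div_le_one₀ (zero_lt_iff.mpr hpow), map_pow]
    exact hV f f.2
  choose c hc using fun f : V => hres _ (hle f)
  let φ : V →ₗ[k] k :=
    { toFun := c
      map_add' := by
        intro f g
        have h1 : v (algebraMap k K (c f + c g - c (f + g))) < 1 := by
          have e : algebraMap k K (c f + c g - c (f + g)) =
              (((f + g : V) : K) / π ^ N - algebraMap k K (c (f + g))) -
              ((f : K) / π ^ N - algebraMap k K (c f)) -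
              ((g : K) / π ^ N - algebraMap k K (c g)) := by
            rw [map_sub, map_add, Submodule.coe_add]
            ring
          rw [e]
          exact v.map_sub_lt (v.map_sub_lt (hc _) (hc _)) (hc _)
        have h2 := const_unique hv h1
        rw [sub_eq_zero] at h2
        exact h2.symm
      map_smul' := by
        intro a f
        have h1 : v (algebraMap k K (a * c f - c (a • f))) < 1 := by
          have e : algebraMap k K (a * c f - c (a • f)) =
              (((a • f : V) : K) / π ^ N - algebraMap k K (c (a • f))) -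
              algebraMap k K a * ((f : K) / π ^ N - algebraMap k K (c f)) := by
            rw [map_sub, map_mul, Submodule.coe_smul, Algebra.smul_def]
            ring
          rw [e]
          refine v.map_sub_lt (hc _) ?_
          rw [map_mul]
          exact lt_of_le_of_lt (mul_le_mul' (val_const hv a) le_rfl)
            (by rw [one_mul]; exact hc f)
        have h2 := const_unique hv h1
        rw [sub_eq_zero] at h2
        simpa using h2.symm }
  have hker : ∀ f : V, φ f = 0 → (f : K) ∈ V ⊓ Uu hv (v π ^ (N + 1)) := by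
    intro f hf
    refine ⟨f.2, ?_⟩
    show v (f : K) ≤ v π ^ (N + 1)
    apply le_of_lt_zpow hπ
    have h1 := hc f
    have h2 : c f = 0 := hf
    rw [h2, map_zero, sub_zero, map_div₀, div_lt_one₀ (zero_lt_iff.mpr hpow), map_pow] at h1
    exact h1
  have h1 := LinearMap.finrank_range_add_finrank_ker φ
  have h2 : Module.finrank k (LinearMap.range φ) ≤ 1 := by
    have := Submodule.finrank_le (LinearMap.range φ)
    simpa using this
  have hfin' : FiniteDimensional k (V ⊓ Uu hv (v π ^ (N + 1)) : Submodule k K) :=
    Submodule.finiteDimensional_inf_left _ _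
  have h3 : Module.finrank k (LinearMap.ker φ) ≤
      Module.finrank k (V ⊓ Uu hv (v π ^ (N + 1)) : Submodule k K) := by
    let L : LinearMap.ker φ →ₗ[k] (V ⊓ Uu hv (v π ^ (N + 1)) : Submodule k K) :=
      LinearMap.codRestrict _ (V.subtype ∘ₗ (LinearMap.ker φ).subtype)
        (fun f => hker f.1 f.2)
    refine LinearMap.finrank_le_finrank_of_injective (f := L) ?_
    intro f g hfg
    have : ((f : V) : K) = ((g : V) : K) :=
      congrArg (fun x : (V ⊓ Uu hv (v π ^ (N + 1)) : Submodule k K) => (x : K)) hfg
    exact Subtype.ext (Subtype.ext this)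
  omega

/-- Many steps. -/
theorem steps {v : Valuation K ℤᵐ⁰} (hv : PlaceOf k v) {π : K} (hπ : IsUnif v π)
    (hres : ∀ x : K, v x ≤ 1 → ∃ c : k, v (x - algebraMap k K c) < 1) (N : ℕ)
    (V : Submodule k K) (hfin : FiniteDimensional k V) (hV : ∀ f ∈ V, v f ≤ 1) :
    Module.finrank k V ≤
      Module.finrank k (V ⊓ Uu hv (v π ^ N) : Submodule k K) + N := by
  induction N with
  | zero =>
    have h : V ⊓ Uu hv (v π ^ 0) = V := by
      refine le_antisymm inf_le_left (le_inf le_rfl fun f hf => ?_)
      rw [mem_Uu, pow_zero]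
      exact hV f hf
    rw [h]
    exact le_rfl
  | succ N ih =>
    have hfin' : FiniteDimensional k (V ⊓ Uu hv (v π ^ N) : Submodule k K) :=
      Submodule.finiteDimensional_inf_left _ _
    have hfin2 : FiniteDimensional k (V ⊓ Uu hv (v π ^ (N + 1)) : Submodule k K) :=
      Submodule.finiteDimensional_inf_left _ _
    have h1 := step hv hπ hres N (V ⊓ Uu hv (v π ^ N)) hfin' (fun f hf => hf.2)
    have h2 : Module.finrank k (V ⊓ Uu hv (v π ^ N) ⊓ Uu hv (v π ^ (N + 1)) : Submodule k K) ≤
        Module.finrank k (V ⊓ Uu hv (v π ^ (N + 1)) : Submodule k K) :=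
      Submodule.finrank_mono (inf_le_inf_right _ inf_le_left)
    omega

end Pool.Agent.WL.COD_

namespace Pool.Agent.WL

open COD_

theorem p_COD : T_COD := by
  classical
  intro k K _ _ _ r w hw hres η hη
  choose π hπ using fun l => exists_isUnif (w l) (hw l).1
  choose N hN using fun l => exists_pow_le (hπ l).lt_one (hη l)
  let U : Submodule k K := ⨅ l, Uu (hw l) (η l)
  refine ⟨U, ∑ l, N l, ?_, ?_⟩
  · intro f
    simp only [U, Submodule.mem_iInf]
    rfl
  · intro V hfin hV
    have key : ∀ S : Finset (Fin r), Module.finrank k V ≤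
        Module.finrank k (V ⊓ ⨅ l ∈ S, Uu (hw l) (η l) : Submodule k K) + ∑ l ∈ S, N l := by
      intro S
      induction S using Finset.induction_on with
      | empty =>
        have h : (V ⊓ ⨅ l ∈ (∅ : Finset (Fin r)), Uu (hw l) (η l)) = V := by simp
        rw [h]
        simp
      | insert a S ha ih =>
        rw [Finset.sum_insert ha]
        have hfin' : FiniteDimensional k
            (V ⊓ ⨅ l ∈ S, Uu (hw l) (η l) : Submodule k K) :=
          Submodule.finiteDimensional_inf_left _ _
        have h1 := steps (hw a) (hπ a) (hres a) (N a) (V ⊓ ⨅ l ∈ S, Uu (hw l) (η l)) hfin'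
          (fun f hf => hV f hf.1 a)
        have hfin2 : FiniteDimensional k
            (V ⊓ ⨅ l ∈ insert a S, Uu (hw l) (η l) : Submodule k K) :=
          Submodule.finiteDimensional_inf_left _ _
        have h2 : Module.finrank k (V ⊓ (⨅ l ∈ S, Uu (hw l) (η l)) ⊓
            Uu (hw a) (w a (π a) ^ N a) : Submodule k K) ≤
            Module.finrank k (V ⊓ ⨅ l ∈ insert a S, Uu (hw l) (η l) : Submodule k K) := by
          refine Submodule.finrank_mono ?_
          intro f hf
          refine ⟨hf.1.1, ?_⟩
          simp only [SetLike.mem_coe, Submodule.mem_iInf]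
          intro l hl
          rcases Finset.mem_insert.1 hl with rfl | hl
          · exact le_trans hf.2 (hN l)
          · have h3 := hf.1.2
            simp only [SetLike.mem_coe, Submodule.mem_iInf] at h3
            exact h3 l hl
        omega
    have := key Finset.univ
    have h : (⨅ l ∈ (Finset.univ : Finset (Fin r)), Uu (hw l) (η l)) = U := by simp [U]
    rw [h] at this
    exact this

end Pool.Agent.WL
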