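import Pool.Agent.WL.Targets

/-!
# Combinations of an adapted basis
-/

set_option autoImplicit false

open MvPolynomial

namespace Pool.Agent.WL

namespace COMB_

variable {k : Type} [Field k] {V : Submodule k (PowerSeries k)} {M : ℕ}
  {e : Fin M → PowerSeries k} {o : Fin M → ℕ} {L : Type} [Field L] [Algebra k L]

theorem coeff_comb (t : Fin M → L) (a : ℕ) :
    PowerSeries.coeff a (∑ b, PowerSeries.C (t b) * up k L (e b)) =
      ∑ b, t b * algebraMap k L (PowerSeries.coeff a (e b)) := by
  rw [map_sum]
  refine Finset.sum_congr rfl fun b _ => ?_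
  rw [PowerSeries.coeff_C_mul]
  unfold up
  rw [PowerSeries.coeff_map]

theorem zero_of (h : Adapted V M e o) (t : Fin M → L) (n : ℕ) : ∀ b : Fin M, (b : ℕ) = n →
    (∀ b' ≤ b, PowerSeries.coeff (o b') (∑ c, PowerSeries.C (t c) * up k L (e c)) = 0) →
    t b = 0 := by
  induction n using Nat.strong_induction_on with
  | _ n ih =>
    intro b hb hz
    have h0 := hz b le_rfl
    rw [coeff_comb, Finset.sum_eq_single b] at h0
    · rw [h.lead b, map_one, mul_one] at h0
      exact h0
    · intro c _ hc
      rcases lt_or_gt_of_ne hc with hlt | hgt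
      · have : t c = 0 := ih c (by rw [← hb]; exact hlt) c rfl
          (fun b' hb' => hz b' (hb'.trans hlt.le))
        rw [this, zero_mul]
      · rw [h.low c (o b) (h.mono hgt), map_zero, mul_zero]
    · intro hn
      exact absurd (Finset.mem_univ b) hn

end COMB_

open COMB_ in
theorem p_COMB : T_COMB := by
  intro k _ V M e o h L _ _ t
  refine ⟨fun A hA b hb => ?_, fun hz b => zero_of h t _ b rfl (fun b' _ => hz b')⟩
  refine zero_of h t _ b rfl (fun b' hb' => hA _ ?_)
  exact lt_of_le_of_lt (h.mono.monotone hb') hb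

end Pool.Agent.WL
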