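import Pool.Agent.WL.Targets

set_option autoImplicit false

/-! Contact of solutions of the refined system. -/

open MvPolynomial

namespace Pool.Agent.WL

theorem p_CON (h1 : T_TRI) (h2 : T_DEG) : T_CON := by
  intro σ L _ F d N i x q φ hd hF hS h0 hiN hq
  obtain ⟨ψ, B, hφ, hB0, hB⟩ := hS
  obtain ⟨q', hq'⟩ := hq
  have hpow : (PowerSeries.X : PowerSeries L) ^ N =
      PowerSeries.X ^ i * PowerSeries.X ^ (N - i) := by
    rw [← pow_add, Nat.add_sub_of_le hiN]
  have hy : ∀ l, φ l = PowerSeries.X ^ i * (q' * x l + PowerSeries.X ^ (N - i) * ψ l) := by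
    intro l
    rw [hφ l, hq', hpow]
    ring
  have hev : eval (fun l => q' * x l + PowerSeries.X ^ (N - i) * ψ l) F = 0 := by
    have h3 := WA.aeval_smul_of_homogeneous (k := PowerSeries L) (A := PowerSeries L) hF
      (PowerSeries.X ^ i) (fun l => q' * x l + PowerSeries.X ^ (N - i) * ψ l)
    have h4 : (fun l => PowerSeries.X ^ i * (q' * x l + PowerSeries.X ^ (N - i) * ψ l)) = φ := by
      funext l
      exact (hy l).symm
    have h5 : ∀ v : σ → PowerSeries L, aeval v F = eval v F := fun v => rfl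
    rw [h4, h5, h5, h0] at h3
    rcases mul_eq_zero.1 h3.symm with h | h
    · exact absurd h (pow_ne_zero _ (pow_ne_zero _ PowerSeries.X_ne_zero))
    · exact h
  refine ⟨fun l => q' * x l + PowerSeries.X ^ (N - i) * ψ l, q', hy, hq', hev, ?_, ?_⟩
  · intro l
    exact ⟨ψ l, by ring⟩
  · intro j
    rcases lt_trichotomy j d with hj | hj | hj
    · rw [(h1 σ _ F d hF x ψ q' (PowerSeries.X ^ (N - i))).1 j]
      refine Finset.dvd_sum fun l hl => ?_
      have hl' : l < d := by
        have := Finset.mem_range.1 hl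
        omega
      rcases Nat.eq_zero_or_pos l with h | h
      · subst h
        rw [hB0]
        exact Dvd.dvd.mul_left (Dvd.intro _ rfl) _
      · obtain ⟨k, rfl⟩ : ∃ k, l = k + 1 := ⟨l - 1, by omega⟩
        rw [hB k hl', hq', hpow]
        refine ⟨((d - (k + 1)).choose (j - (k + 1)) : PowerSeries L) * q' ^ (j - (k + 1)) *
          (PowerSeries.X ^ (N - i)) ^ k *
            (PowerSeries.X ^ (N - i) * B (k + 1) - q' * B k), ?_⟩
        ring
    · subst hj
      rw [(h2 σ _ F j hF _ _).2.2, hev]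
      exact dvd_zero _
    · rw [Polynomial.coeff_eq_zero_of_natDegree_lt (lt_of_le_of_lt (h2 σ _ F d hF _ _).1 hj)]
      exact dvd_zero _

end Pool.Agent.WL
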