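import Pool.Agent.WL.Targets

/-!
# Weak approximation and free lines: degree and extreme coefficients (DEG)
-/

set_option autoImplicit false

open MvPolynomial

namespace Pool.Agent.WL

namespace DEG_

variable {σ A : Type} [CommRing A]

/-- the linear factor of the variable `i` -/
theorem lin_deg (x w : A) : (Polynomial.C x + Polynomial.X * Polynomial.C w).natDegree ≤ 1 := by
  refine (Polynomial.natDegree_add_le _ _).trans (max_le ?_ ?_)
  · simp
  · refine Polynomial.natDegree_mul_le.trans ?_
    have h := Polynomial.natDegree_X_le (R := A)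
    simpa using h

theorem lin_coeff (x w : A) : (Polynomial.C x + Polynomial.X * Polynomial.C w).coeff 1 = w := by
  rw [Polynomial.coeff_add, Polynomial.coeff_X_mul, Polynomial.coeff_C_zero]
  simp

theorem prod_aux (x w : σ → A) (m : σ → ℕ) (s : Finset σ) :
    (∏ i ∈ s, (Polynomial.C (x i) + Polynomial.X * Polynomial.C (w i)) ^ m i).natDegree ≤
      ∑ i ∈ s, m i ∧
    (∏ i ∈ s, (Polynomial.C (x i) + Polynomial.X * Polynomial.C (w i)) ^ m i).coeff
      (∑ i ∈ s, m i) = ∏ i ∈ s, w i ^ m i := by
  classical
  induction s using Finset.induction_on with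
  | empty => simp
  | insert a s ha ih =>
    rw [Finset.prod_insert ha, Finset.prod_insert ha, Finset.sum_insert ha]
    have h1 : ((Polynomial.C (x a) + Polynomial.X * Polynomial.C (w a)) ^ m a).natDegree ≤
        m a := by
      refine (Polynomial.natDegree_pow_le_of_le (m a) (lin_deg (x a) (w a))).trans ?_
      simp
    have h2 : ((Polynomial.C (x a) + Polynomial.X * Polynomial.C (w a)) ^ m a).coeff (m a) =
        w a ^ m a := by
      have := Polynomial.coeff_pow_of_natDegree_le (m := m a) (lin_deg (x a) (w a))
      rw [mul_one, lin_coeff] at this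
      exact this
    refine ⟨Polynomial.natDegree_mul_le_of_le h1 ih.1, ?_⟩
    rw [Polynomial.coeff_mul_add_eq_of_natDegree_le h1 ih.1, h2, ih.2]

theorem deg_of_mem {F : MvPolynomial σ A} {d : ℕ} (hF : F.IsHomogeneous d) {m : σ →₀ ℕ}
    (hm : m ∈ F.support) : ∑ i ∈ m.support, m i = d := by
  have h := hF (mem_support_iff.1 hm)
  have h' : Finsupp.degree m = d := by
    rw [Finsupp.degree_eq_weight_one]
    exact h
  exact h'

end DEG_

open DEG_ in
/-- Degree and extreme coefficients. -/
theorem p_DEG : T_DEG := by
  intro σ A _ F d hF x w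
  refine ⟨?_, ?_, ?_⟩
  · unfold onLine
    rw [eval₂_eq]
    refine Polynomial.natDegree_sum_le_of_forall_le _ _ fun m hm => ?_
    refine (Polynomial.natDegree_C_mul_le _ _).trans ?_
    rw [← deg_of_mem hF hm]
    exact (prod_aux x w m m.support).1
  · rw [Polynomial.coeff_zero_eq_eval_zero]
    unfold onLine
    rw [← Polynomial.coe_evalRingHom, MvPolynomial.eval₂_comp_left]
    unfold MvPolynomial.eval
    congr 1
    · ext a
      simp
    · funext i
      simp
  · unfold onLine
    rw [eval₂_eq, eval_eq, Polynomial.finsetSum_coeff]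
    refine Finset.sum_congr rfl fun m hm => ?_
    rw [Polynomial.coeff_C_mul]
    congr 1
    rw [← deg_of_mem hF hm]
    exact (prod_aux x w m m.support).2

end Pool.Agent.WL
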