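import Pool.Agent.WL.Targets2

/-!
# WL-EE: the completion at a place is the field of Laurent series
-/

set_option autoImplicit false

open MvPolynomial WithZero Topology
open Pool.Agent.WA

namespace Pool.Agent.WL

namespace EE_

/-! ### A complete discretely valued field with a field of representatives -/

section abs

variable {k E : Type} [Field k] [Field E] [hv : Valued E ℤᵐ⁰]

/-- Standing assumptions. -/
structure Hyp (ι : k →+* E) (π : E) : Prop where
  unif : IsUnif hv.v π
  one : ∀ c : k, c ≠ 0 → hv.v (ι c) = 1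

/-- The partial sums. -/
noncomputable def S (ι : k →+* E) (π : E) (g : PowerSeries k) (N : ℕ) : E :=
  (PowerSeries.trunc N g).eval₂ ι π

variable {ι : k →+* E} {π : E}

lemma Hyp.le (h : Hyp ι π) (c : k) : hv.v (ι c) ≤ 1 := by
  by_cases hc : c = 0
  · rw [hc, map_zero, map_zero]
    exact zero_le_one
  · exact (h.one c hc).le

lemma val_le (h : Hyp ι π) (p : Polynomial k) : hv.v (p.eval₂ ι π) ≤ 1 := by
  rw [Polynomial.eval₂_eq_sum_range]
  refine Valuation.map_sum_le _ fun i _ => ?_
  rw [map_mul, map_pow]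
  exact mul_le_one' (h.le _) (pow_le_one' h.unif.lt_one.le _)

lemma val_dvd (h : Hyp ι π) (p : Polynomial k) (N : ℕ) (hp : Polynomial.X ^ N ∣ p) :
    hv.v (p.eval₂ ι π) ≤ hv.v π ^ N := by
  obtain ⟨q, rfl⟩ := hp
  rw [Polynomial.eval₂_mul, Polynomial.eval₂_pow, Polynomial.eval₂_X, map_mul, map_pow]
  calc hv.v π ^ N * hv.v (q.eval₂ ι π) ≤ hv.v π ^ N * 1 := mul_le_mul' le_rfl (val_le h q)
    _ = _ := mul_one _

lemma dvd_coe (p : Polynomial k) (N : ℕ) (hp : (PowerSeries.X : PowerSeries k) ^ N ∣ (p : PowerSeries k)) :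
    Polynomial.X ^ N ∣ p := by
  rw [PowerSeries.X_pow_dvd_iff] at hp
  rw [Polynomial.X_pow_dvd_iff]
  intro d hd
  rw [← hp d hd, Polynomial.coeff_coe]

lemma dvd_trunc (g : PowerSeries k) (N : ℕ) :
    (PowerSeries.X : PowerSeries k) ^ N ∣ g - (PowerSeries.trunc N g : PowerSeries k) := by
  rw [PowerSeries.X_pow_dvd_iff]
  intro d hd
  rw [map_sub, Polynomial.coeff_coe, PowerSeries.coeff_trunc, if_pos hd, sub_self]

/-- Two polynomials that are congruent to `g` have nearby values. -/
lemma val_cong (h : Hyp ι π) (g : PowerSeries k) (p : Polynomial k) (N : ℕ)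
    (hp : (PowerSeries.X : PowerSeries k) ^ N ∣ g - p) :
    hv.v (S ι π g N - p.eval₂ ι π) ≤ hv.v π ^ N := by
  rw [S, ← Polynomial.eval₂_sub]
  apply val_dvd h
  apply dvd_coe
  have h1 := dvd_sub hp (dvd_trunc g N)
  rw [Polynomial.coe_sub]
  convert h1 using 1
  ring

lemma eq_of_small (h : Hyp ι π) {x y : E} (hxy : ∀ N : ℕ, hv.v (x - y) ≤ hv.v π ^ N) : x = y := by
  by_contra hne
  have h0 : hv.v (x - y) ≠ 0 := (Valuation.ne_zero_iff _).2 (sub_ne_zero.2 hne)
  obtain ⟨m, hm⟩ := h.unif.gen _ (sub_ne_zero.2 hne)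
  have hpos : 0 < hv.v π := zero_lt_iff.2 h.unif.ne_zero
  have h1 := hxy (m.toNat + 1)
  rw [hm, ← zpow_natCast] at h1
  have h2 : hv.v π ^ ((m.toNat + 1 : ℕ) : ℤ) < hv.v π ^ m :=
    zpow_lt_zpow_right_of_lt_one₀ hpos h.unif.lt_one (by
      have := Int.self_le_toNat m
      push_cast
      omega)
  exact absurd h1 (not_le.2 h2)

variable [CompleteSpace E]

lemma exists_io (h : Hyp ι π) (g : PowerSeries k) :
    ∃ l : E, ∀ N, hv.v (l - S ι π g N) ≤ hv.v π ^ N := by
  obtain ⟨l, hl⟩ := exists_limit h.unif (S ι π g) 1 (by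
    intro n
    rw [one_mul]
    have h1 := val_cong h g (PowerSeries.trunc (n + 1) g) n
      ((pow_dvd_pow _ (Nat.le_succ n)).trans (dvd_trunc g (n + 1)))
    rw [Valuation.map_sub_swap]
    exact h1)
  exact ⟨l, fun N => by simpa using hl N⟩

/-- The sum of the series. -/
noncomputable def io (h : Hyp ι π) (g : PowerSeries k) : E := Classical.choose (exists_io h g)

lemma io_spec (h : Hyp ι π) (g : PowerSeries k) (N : ℕ) :
    hv.v (io h g - S ι π g N) ≤ hv.v π ^ N := Classical.choose_spec (exists_io h g) N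

lemma io_cong (h : Hyp ι π) (g : PowerSeries k) (p : Polynomial k) (N : ℕ)
    (hp : (PowerSeries.X : PowerSeries k) ^ N ∣ g - p) :
    hv.v (io h g - p.eval₂ ι π) ≤ hv.v π ^ N := by
  have h1 : io h g - p.eval₂ ι π =
      (io h g - S ι π g N) + (S ι π g N - p.eval₂ ι π) := by ring
  rw [h1]
  exact Valuation.map_add_le _ (io_spec h g N) (val_cong h g p N hp)

lemma io_eq (h : Hyp ι π) (g : PowerSeries k) (l : E)
    (hl : ∀ N, hv.v (l - S ι π g N) ≤ hv.v π ^ N) : io h g = l := by
  apply eq_of_small h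
  intro N
  have h1 : io h g - l = (io h g - S ι π g N) - (l - S ι π g N) := by ring
  rw [h1]
  exact Valuation.map_sub_le _ (io_spec h g N) (hl N)

lemma io_poly (h : Hyp ι π) (p : Polynomial k) : io h (p : PowerSeries k) = p.eval₂ ι π := by
  apply eq_of_small h
  intro N
  apply io_cong
  rw [sub_self]
  exact dvd_zero _

lemma io_le (h : Hyp ι π) (g : PowerSeries k) : hv.v (io h g) ≤ 1 := by
  have h1 := io_spec h g 0
  have h2 : S ι π g 0 = 0 := by simp [S]
  rw [h2, sub_zero, pow_zero] at h1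
  exact h1

/-- The sum of series as a ring homomorphism. -/
noncomputable def ioHom (h : Hyp ι π) : PowerSeries k →+* E where
  toFun := io h
  map_one' := by
    have := io_poly h (1 : Polynomial k)
    simpa using this
  map_zero' := by
    have := io_poly h (0 : Polynomial k)
    simpa using this
  map_add' g f := by
    apply io_eq
    intro N
    have h1 : S ι π (g + f) N = S ι π g N + S ι π f N := by
      rw [S, S, S, map_add, Polynomial.eval₂_add]
    rw [h1]
    have h2 : io h g + io h f - (S ι π g N + S ι π f N) =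
        (io h g - S ι π g N) + (io h f - S ι π f N) := by ring
    rw [h2]
    exact Valuation.map_add_le _ (io_spec h g N) (io_spec h f N)
  map_mul' g f := by
    apply io_eq
    intro N
    have h1 := val_cong h (g * f) (PowerSeries.trunc N g * PowerSeries.trunc N f) N (by
      rw [Polynomial.coe_mul]
      have e : g * f - (PowerSeries.trunc N g : PowerSeries k) * (PowerSeries.trunc N f : PowerSeries k) =
          (g - (PowerSeries.trunc N g : PowerSeries k)) * f +
          (PowerSeries.trunc N g : PowerSeries k) * (f - (PowerSeries.trunc N f : PowerSeries k)) := by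
        ring
      rw [e]
      exact dvd_add (dvd_mul_of_dvd_left (dvd_trunc g N) _) (dvd_mul_of_dvd_right (dvd_trunc f N) _))
    rw [Polynomial.eval₂_mul] at h1
    have h2 : io h g * io h f - S ι π (g * f) N =
        io h g * (io h f - S ι π f N) + (io h g - S ι π g N) * S ι π f N -
          (S ι π (g * f) N - S ι π g N * S ι π f N) := by ring
    rw [h2]
    refine Valuation.map_sub_le _ (Valuation.map_add_le _ ?_ ?_) h1
    · rw [map_mul]
      calc hv.v (io h g) * hv.v (io h f - S ι π f N) ≤ 1 * hv.v π ^ N :=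
            mul_le_mul' (io_le h g) (io_spec h f N)
        _ = _ := one_mul _
    · rw [map_mul]
      calc hv.v (io h g - S ι π g N) * hv.v (S ι π f N) ≤ hv.v π ^ N * 1 :=
            mul_le_mul' (io_spec h g N) (val_le h _)
        _ = _ := mul_one _

lemma ioHom_apply (h : Hyp ι π) (g : PowerSeries k) : ioHom h g = io h g := rfl

lemma val_unit (h : Hyp ι π) (u : PowerSeries k) (hu : PowerSeries.constantCoeff u ≠ 0) :
    hv.v (ioHom h u) = 1 := by
  have h1 := io_cong h u (Polynomial.C (PowerSeries.constantCoeff u)) 1 (by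
    rw [pow_one, PowerSeries.X_dvd_iff, map_sub, Polynomial.coe_C]
    simp)
  rw [pow_one, Polynomial.eval₂_C] at h1
  have h2 : hv.v (ι (PowerSeries.constantCoeff u)) = 1 := h.one _ hu
  have h3 : hv.v (io h u - ι (PowerSeries.constantCoeff u)) <
      hv.v (ι (PowerSeries.constantCoeff u)) := by
    rw [h2]
    exact lt_of_le_of_lt h1 h.unif.lt_one
  have h4 := Valuation.map_add_eq_of_lt_left _ h3
  rw [add_sub_cancel, h2] at h4
  exact h4

lemma ioHom_X (h : Hyp ι π) : ioHom h PowerSeries.X = π := by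
  have := io_poly h (Polynomial.X : Polynomial k)
  rw [Polynomial.coe_X, Polynomial.eval₂_X] at this
  exact this

lemma ioHom_C (h : Hyp ι π) (a : k) : ioHom h (PowerSeries.C a) = ι a := by
  have := io_poly h (Polynomial.C a : Polynomial k)
  rw [Polynomial.coe_C, Polynomial.eval₂_C] at this
  exact this

lemma ord (h : Hyp ι π) (g : PowerSeries k) (N : ℕ) :
    hv.v (ioHom h g) ≤ hv.v π ^ N ↔ PowerSeries.X ^ N ∣ g := by
  constructor
  · intro h1
    by_contra hN
    have hg : g ≠ 0 := fun h0 => hN (h0 ▸ dvd_zero _)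
    obtain ⟨u, hu⟩ := PowerSeries.X_pow_order_dvd (φ := g)
    set m := g.order.toNat with hm
    have hu0 : PowerSeries.constantCoeff u ≠ 0 := by
      intro h0
      rw [← PowerSeries.X_dvd_iff] at h0
      obtain ⟨w, hw⟩ := h0
      have h2 : PowerSeries.coeff m g ≠ 0 := PowerSeries.coeff_order hg
      have h3 : (PowerSeries.X : PowerSeries k) ^ (m + 1) ∣ g := by
        rw [hu, hw, pow_succ]
        exact mul_dvd_mul_left _ (dvd_mul_right _ _)
      rw [PowerSeries.X_pow_dvd_iff] at h3
      exact h2 (h3 m (Nat.lt_succ_self m))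
    have hmN : m < N := by
      by_contra h2
      exact hN ((pow_dvd_pow _ (not_lt.1 h2)).trans ⟨u, hu⟩)
    rw [hu, map_mul, map_pow, ioHom_X, map_mul, map_pow, val_unit h u hu0, mul_one] at h1
    have h2 : hv.v π ^ N < hv.v π ^ m :=
      pow_lt_pow_right_of_lt_one₀ (zero_lt_iff.2 h.unif.ne_zero) h.unif.lt_one hmN
    exact absurd h1 (not_le.2 h2)
  · intro h1
    have h2 := io_cong h g 0 N (by
      rw [Polynomial.coe_zero, sub_zero]
      exact h1)
    rw [Polynomial.eval₂_zero, sub_zero] at h2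
    exact h2

omit [CompleteSpace E] in
lemma le_unif (h : Hyp ι π) {y : E} (hy : hv.v y < 1) : hv.v y ≤ hv.v π := by
  by_cases h0 : y = 0
  · rw [h0, map_zero]
    exact zero_le
  · obtain ⟨m, hm⟩ := h.unif.gen y h0
    rw [hm] at hy ⊢
    have hpos : 0 < hv.v π := zero_lt_iff.2 h.unif.ne_zero
    have hm0 : 0 < m := by
      by_contra h1
      have h2 : (1 : ℤᵐ⁰) ≤ hv.v π ^ m := by
        have := zpow_le_zpow_right_of_le_one₀ hpos h.unif.lt_one.le (not_lt.1 h1)
        simpa using this
      exact absurd hy (not_lt.2 h2)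
    have := zpow_le_zpow_right_of_le_one₀ hpos h.unif.lt_one.le (show (1 : ℤ) ≤ m by omega)
    simpa using this

omit [CompleteSpace E] in
/-- One step of the expansion. -/
lemma step (h : Hyp ι π) (hres : ∀ x : E, hv.v x ≤ 1 → ∃ c : k, hv.v (x - ι c) < 1)
    (x : {x : E // hv.v x ≤ 1}) : ∃ (c : k) (y : {x : E // hv.v x ≤ 1}),
      x.1 = ι c + π * y.1 := by
  obtain ⟨c, hc⟩ := hres x.1 x.2
  have hπ0 : π ≠ 0 := (Valuation.ne_zero_iff _).1 h.unif.ne_zero
  refine ⟨c, ⟨(x.1 - ι c) / π, ?_⟩, ?_⟩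
  · rw [map_div₀, div_le_one₀ (zero_lt_iff.2 h.unif.ne_zero)]
    exact le_unif h hc
  · field_simp
    ring

lemma surj (h : Hyp ι π) (hres : ∀ x : E, hv.v x ≤ 1 → ∃ c : k, hv.v (x - ι c) < 1)
    (x : E) (hx : hv.v x ≤ 1) : ∃ g, ioHom h g = x := by
  choose dig nxt hs using step h hres
  let seq : ℕ → {x : E // hv.v x ≤ 1} := fun n => nxt^[n] ⟨x, hx⟩
  have hseq : ∀ n, seq (n + 1) = nxt (seq n) := fun n => Function.iterate_succ_apply' _ _ _
  let g : PowerSeries k := PowerSeries.mk fun n => dig (seq n)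
  refine ⟨g, io_eq h g x ?_⟩
  have key : ∀ N, x = S ι π g N + π ^ N * (seq N).1 := by
    intro N
    induction N with
    | zero => simp [S, seq]
    | succ N ih =>
      have h1 : S ι π g (N + 1) = S ι π g N + ι (dig (seq N)) * π ^ N := by
        rw [S, S, PowerSeries.trunc_succ, Polynomial.eval₂_add, Polynomial.eval₂_monomial]
        simp [g]
      rw [h1, hseq]
      conv_lhs => rw [ih, hs (seq N)]
      ring
  intro N
  have h1 : x - S ι π g N = π ^ N * (seq N).1 := by
    conv_lhs => rw [key N]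
    ring
  rw [h1, map_mul, map_pow]
  calc hv.v π ^ N * hv.v (seq N).1 ≤ hv.v π ^ N * 1 := mul_le_mul' le_rfl (seq N).2
    _ = _ := mul_one _

lemma inj (h : Hyp ι π) : Function.Injective (ioHom h) := by
  rw [injective_iff_map_eq_zero]
  intro g hg
  ext n
  have h1 : PowerSeries.X ^ (n + 1) ∣ g := by
    rw [← ord h, hg, map_zero]
    exact zero_le
  rw [PowerSeries.X_pow_dvd_iff] at h1
  rw [h1 n (Nat.lt_succ_self n), map_zero]

end abs

end EE_

open EE_

theorem p_E : T_E := by
  intro k K _ _ _ v s hP hres hs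
  have hU := isUnif_emb hs
  have hyp : Hyp (hv := (inferInstance : Valued (Compl v) ℤᵐ⁰))
      ((emb v).comp (algebraMap k K)) (emb v s) := by
    refine ⟨hU, fun c hc => ?_⟩
    rw [RingHom.comp_apply, val_emb]
    exact hP.2 c hc
  have hres' : ∀ x : Compl v, vE v x ≤ 1 →
      ∃ c : k, vE v (x - ((emb v).comp (algebraMap k K)) c) < 1 := by
    intro x hx
    obtain ⟨y, hy⟩ := dense_emb hs x (v s) hs.ne_zero
    have hy1 : v y ≤ 1 := by
      rw [← val_emb]
      have e : emb v y = (emb v y - x) + x := by ring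
      rw [e]
      exact Valuation.map_add_le _ (hy.trans hs.lt_one.le) hx
    obtain ⟨c, hc⟩ := hres y hy1
    refine ⟨c, ?_⟩
    have e : x - ((emb v).comp (algebraMap k K)) c =
        (emb v (y - algebraMap k K c)) - (emb v y - x) := by
      rw [RingHom.comp_apply, map_sub]
      ring
    rw [e]
    refine lt_of_le_of_lt (Valuation.map_sub _ _ _) (max_lt ?_ ?_)
    · rw [val_emb]
      exact hc
    · exact lt_of_le_of_lt hy hs.lt_one
  refine ⟨ioHom hyp, hs, inj hyp, ?_, surj hyp hres', ?_, ioHom_X hyp⟩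
  · intro g N
    have := ord hyp g N
    rw [val_emb] at this
    exact this
  · intro a
    exact ioHom_C hyp a

end Pool.Agent.WL
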