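import Pool.Agent.WL.Targets

set_option autoImplicit false

open MvPolynomial

namespace Pool.Agent.WL

namespace ELIM_

/-- A matrix which is right invertible over a field is right invertible up to a nonzero factor. -/
lemma mat {R M B J : Type*} [CommRing R] [Field M] [Fintype B] [DecidableEq B] [Fintype J]
    (φ : R →+* M) (P : Matrix B J R) (Cm : Matrix J B M) (h : P.map φ * Cm = 1) :
    ∃ (Δ : R) (D : Matrix J B R), φ Δ ≠ 0 ∧ P * D = Δ • (1 : Matrix B B R) := by
  classical
  set T : Matrix J B (MvPolynomial (J × B) R) := Matrix.of fun j b => X (j, b) with hT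
  set P' : Matrix B J (MvPolynomial (J × B) R) := P.map MvPolynomial.C with hP'
  set Q : Matrix B B (MvPolynomial (J × B) R) := P' * T with hQd
  have hQ : P' * (T * Q.adjugate) = Q.det • 1 := by
    rw [← Matrix.mul_assoc]
    exact Matrix.mul_adjugate Q
  obtain ⟨m, hm⟩ : ∃ m, φ (coeff m Q.det) ≠ 0 := by
    by_contra hc
    push Not at hc
    have h0 : MvPolynomial.map φ Q.det = 0 := by
      ext m
      rw [coeff_map, hc, coeff_zero]
    have h1 : MvPolynomial.eval₂Hom φ (fun jb : J × B => Cm jb.1 jb.2) Q.det = 0 := by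
      rw [coe_eval₂Hom, eval₂_eq_eval_map, h0, map_zero]
    rw [RingHom.map_det] at h1
    have h2 : (MvPolynomial.eval₂Hom φ (fun jb : J × B => Cm jb.1 jb.2)).mapMatrix Q = 1 := by
      rw [← h]
      ext a b
      simp [hQd, hP', hT, Matrix.mul_apply]
    rw [h2, Matrix.det_one] at h1
    exact one_ne_zero h1
  refine ⟨coeff m Q.det, (T * Q.adjugate).map (coeff m), hm, ?_⟩
  ext a b
  have h3 : coeff m ((P' * (T * Q.adjugate)) a b) =
      coeff m ((Q.det • (1 : Matrix B B (MvPolynomial (J × B) R))) a b) := by rw [hQ]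
  rw [Matrix.mul_apply, coeff_sum, Matrix.smul_apply] at h3
  rw [Matrix.mul_apply, Matrix.smul_apply]
  refine Eq.trans (Finset.sum_congr rfl fun j _ => ?_) (h3.trans ?_)
  · exact (coeff_C_mul _ _ _).symm
  · by_cases hab : a = b
    · subst hab
      simp
    · simp [Matrix.one_apply_ne hab]

attribute [local instance] MvPolynomial.gradedAlgebra in
lemma comp_mem {R τ ι : Type} [CommRing R] (h : ι → MvPolynomial τ R) (e : ι → ℕ)
    (hh : ∀ i, (h i).IsHomogeneous (e i)) (N : ℕ) (y : MvPolynomial τ R)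
    (hy : y ∈ Ideal.span (Set.range h)) :
    homogeneousComponent N y ∈ Ideal.span (Set.range h) := by
  have hhom : (Ideal.span (Set.range h)).IsHomogeneous (homogeneousSubmodule τ R) := by
    apply Ideal.homogeneous_span
    rintro _ ⟨i, rfl⟩
    exact ⟨e i, (mem_homogeneousSubmodule _ _).2 (hh i)⟩
  exact (mem_iff_homogeneousComponent_mem hhom y).1 hy N

/-- the elimination theorem, from the Nullstellensatz in a given degree -/
lemma lift {R M τ ι : Type} [CommRing R] [Field M] [Finite τ] [Fintype ι] (φ : R →+* M)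
    (h : ι → MvPolynomial τ R) (e : ι → ℕ) (hh : ∀ i, (h i).IsHomogeneous (e i)) (N : ℕ)
    (hN : ∀ α : τ →₀ ℕ, α.degree = N →
      (monomial α (1 : M)) ∈ Ideal.span (Set.range fun i => MvPolynomial.map φ (h i))) :
    ∃ Δ : R, φ Δ ≠ 0 ∧ ∀ α : τ →₀ ℕ, α.degree = N →
      monomial α Δ ∈ Ideal.span (Set.range h) := by
  classical
  have := Fintype.ofFinite τ
  have hg : ∀ α : τ →₀ ℕ, ∃ c : ι → MvPolynomial τ M, α.degree = N →
      ∑ i, c i * MvPolynomial.map φ (h i) = monomial α (1 : M) := by
    intro α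
    by_cases hα : α.degree = N
    · obtain ⟨c, hc⟩ := Ideal.mem_span_range_iff_exists_fun.1 (hN α hα)
      exact ⟨c, fun _ => hc⟩
    · exact ⟨0, fun h => absurd h hα⟩
  choose g hg using hg
  set S : Finset (τ →₀ ℕ) := (Finset.univ : Finset τ).finsuppAntidiag N with hS
  have hSmem : ∀ α : τ →₀ ℕ, α ∈ S ↔ α.degree = N := by
    intro α
    rw [hS, Finset.mem_finsuppAntidiag, Finsupp.degree_eq_sum]
    simp
  set T : Finset (τ →₀ ℕ) := S.biUnion fun α => Finset.univ.biUnion fun i => (g α i).support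
    with hT
  have hTs : ∀ α ∈ S, ∀ i, (g α i).support ⊆ T := by
    intro α hα i β hβ
    rw [hT]
    exact Finset.mem_biUnion.2 ⟨α, hα, Finset.mem_biUnion.2 ⟨i, Finset.mem_univ _, hβ⟩⟩
  have hsum : ∀ α ∈ S, ∀ i, ∑ β ∈ T, monomial β (coeff β (g α i)) = g α i := by
    intro α hα i
    conv_rhs => rw [(g α i).as_sum]
    refine (Finset.sum_subset (hTs α hα i) ?_).symm
    intro β _ hβ
    rw [notMem_support_iff.1 hβ, map_zero]
  set P : Matrix S (ι × T) R := Matrix.of fun α' j => coeff α'.1 (monomial j.2.1 1 * h j.1)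
    with hP
  set Cm : Matrix (ι × T) S M := Matrix.of fun j α => coeff j.2.1 (g α.1 j.1) with hC
  have hPC : P.map φ * Cm = 1 := by
    ext α' α
    have h1 := hg α.1 ((hSmem _).1 α.2)
    have h2 : ∀ i, g α.1 i * MvPolynomial.map φ (h i) =
        ∑ β : T, monomial β.1 (coeff β.1 (g α.1 i)) * MvPolynomial.map φ (h i) := by
      intro i
      rw [← Finset.sum_mul]
      congr 1
      rw [Finset.sum_coe_sort T (fun β => monomial β (coeff β (g α.1 i)))]
      exact (hsum α.1 α.2 i).symm
    simp only [h2] at h1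
    have h3 := congrArg (coeff α'.1) h1
    rw [Matrix.mul_apply, Fintype.sum_prod_type]
    rw [coeff_sum] at h3
    simp only [coeff_sum] at h3
    rw [coeff_monomial] at h3
    have h4 : (1 : Matrix S S M) α' α = if α.1 = α'.1 then 1 else 0 := by
      rw [Matrix.one_apply]
      by_cases hh' : α' = α
      · rw [if_pos hh', if_pos (by rw [hh'])]
      · rw [if_neg hh', if_neg (fun h => hh' (Subtype.ext h.symm))]
    rw [h4, ← h3]
    refine Finset.sum_congr rfl fun i _ => Finset.sum_congr rfl fun β _ => ?_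
    simp only [hP, hC, Matrix.map_apply, Matrix.of_apply]
    rw [← coeff_map, map_mul, map_monomial, map_one]
    rw [show (monomial β.1 (coeff β.1 (g α.1 i)) : MvPolynomial τ M) =
      C (coeff β.1 (g α.1 i)) * monomial β.1 1 by rw [C_mul_monomial, mul_one]]
    rw [mul_assoc, coeff_C_mul, mul_comm]
  obtain ⟨Δ, D, hΔ, hD⟩ := mat φ P Cm hPC
  refine ⟨Δ, hΔ, ?_⟩
  intro α hα
  have hαS : α ∈ S := (hSmem α).2 hα
  set y : MvPolynomial τ R := ∑ j : ι × T, C (D j ⟨α, hαS⟩) * (monomial j.2.1 1 * h j.1) with hy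
  have hyI : y ∈ Ideal.span (Set.range h) := by
    rw [hy]
    refine Ideal.sum_mem _ fun j _ => ?_
    rw [← mul_assoc]
    exact Ideal.mul_mem_left _ _ (Ideal.subset_span ⟨j.1, rfl⟩)
  have hcomp := comp_mem h e hh N y hyI
  have hE : homogeneousComponent N y = monomial α Δ := by
    ext α'
    rw [coeff_homogeneousComponent, coeff_monomial]
    by_cases hα' : α'.degree = N
    · rw [if_pos hα']
      have hα'S : α' ∈ S := (hSmem α').2 hα'
      have h5 := congrFun (congrFun hD ⟨α', hα'S⟩) ⟨α, hαS⟩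
      rw [Matrix.mul_apply, Matrix.smul_apply, Matrix.one_apply] at h5
      rw [hy, coeff_sum]
      calc _ = ∑ j : ι × T, P ⟨α', hα'S⟩ j * D j ⟨α, hαS⟩ := by
            refine Finset.sum_congr rfl fun j _ => ?_
            rw [coeff_C_mul, mul_comm]
            rfl
        _ = _ := by
            rw [h5]
            by_cases hh' : α = α'
            · subst hh'
              simp
            · rw [if_neg hh', if_neg (fun h => hh' (congrArg Subtype.val h).symm)]
              simp
    · rw [if_neg hα', if_neg]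
      rintro rfl
      exact hα' hα
  rw [← hE]
  exact hcomp

end ELIM_

theorem p_ELIM : T_ELIM := by
  classical
  intro K _ σ τ _ _ M _ _ _ x₀ ι _ h e hh hz
  have := Fintype.ofFinite ι
  have := Fintype.ofFinite τ
  set φ : MvPolynomial σ K →+* M := (aeval x₀ : MvPolynomial σ K →ₐ[K] M).toRingHom with hφ
  set I : Ideal (MvPolynomial τ M) := Ideal.span (Set.range fun i => MvPolynomial.map φ (h i))
    with hI
  have hX : ∀ b : τ, (X b : MvPolynomial τ M) ∈ I.radical := by
    intro b
    rw [← vanishingIdeal_zeroLocus_eq_radical (K := M) I, mem_vanishingIdeal_iff]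
    intro w hw
    have hw0 : w = 0 := by
      apply hz w
      intro i
      have h1 := hw _ (Ideal.subset_span ⟨i, rfl⟩ : MvPolynomial.map φ (h i) ∈ I)
      rw [eval₂_eq_eval_map]
      rw [← h1, aeval_def, eval₂_eq_eval_map]
      simp
    rw [hw0]
    simp
  choose Nb hNb using hX
  obtain ⟨Δ, hΔ, hD⟩ := ELIM_.lift φ h e hh (∑ b, Nb b + 1) (by
    intro α hα
    obtain ⟨b, hb⟩ : ∃ b, Nb b ≤ α b := by
      by_contra hc
      push Not at hc
      have h1 : α.degree ≤ ∑ b, Nb b := by
        rw [Finsupp.degree_eq_sum]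
        exact Finset.sum_le_sum fun b _ => (hc b).le
      omega
    have h2 : (monomial α (1 : M)) = monomial (α - Finsupp.single b (Nb b)) 1 * X b ^ Nb b := by
      rw [X_pow_eq_monomial, monomial_mul, mul_one]
      refine congrArg (fun x => monomial x (1 : M)) ?_
      ext c
      rw [Finsupp.add_apply, Finsupp.tsub_apply]
      by_cases hcb : b = c
      · subst hcb
        simp only [Finsupp.single_eq_same]
        omega
      · rw [Finsupp.single_apply, if_neg hcb]
        simp
    rw [h2]
    exact Ideal.mul_mem_left _ _ (hNb b))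
  refine ⟨Δ, ∑ b, Nb b + 1, hΔ, ?_⟩
  intro b
  have h3 := hD (Finsupp.single b (∑ b, Nb b + 1)) (by simp)
  rw [X_pow_eq_monomial, C_mul_monomial, mul_one]
  exact h3

end Pool.Agent.WL
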