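import Pool.Agent.WL.Targets

/-!
# Euler's relation on a line
-/

set_option autoImplicit false

open MvPolynomial

namespace Pool.Agent.WL

namespace EUL_

variable {σ A : Type} [CommRing A]

/-- restriction to a line as a ring homomorphism -/
noncomputable def ln (x w : σ → A) : MvPolynomial σ A →+* Polynomial A :=
  eval₂Hom Polynomial.C (fun i => Polynomial.C (x i) + Polynomial.X * Polynomial.C (w i))

theorem onLine_eq (F : MvPolynomial σ A) (x w : σ → A) : onLine F x w = ln x w F := rfl

theorem ln_C (x w : σ → A) (a : A) : ln x w (C a) = Polynomial.C a := by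
  simp [ln]

theorem ln_X (x w : σ → A) (i : σ) :
    ln x w (X i) = Polynomial.C (x i) + Polynomial.X * Polynomial.C (w i) := by
  simp [ln]

/-- the chain rule -/
theorem deriv_ln [Fintype σ] (F : MvPolynomial σ A) (x w : σ → A) :
    Polynomial.derivative (ln x w F) = ∑ i, Polynomial.C (w i) * ln x w (pderiv i F) := by
  classical
  induction F using MvPolynomial.induction_on with
  | C a => simp [ln_C]
  | add p q hp hq =>
    rw [map_add, map_add, hp, hq, ← Finset.sum_add_distrib]
    refine Finset.sum_congr rfl fun i _ => ?_
    rw [map_add, map_add, mul_add]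
  | mul_X p j hp =>
    rw [map_mul, Polynomial.derivative_mul, hp, ln_X]
    have h1 : ∀ i, ln x w (pderiv i (p * X j)) =
        ln x w (pderiv i p) * (Polynomial.C (x j) + Polynomial.X * Polynomial.C (w j)) +
          (if i = j then ln x w p else 0) := by
      intro i
      rw [Derivation.leibniz, smul_eq_mul, smul_eq_mul, pderiv_X, map_add, map_mul, map_mul,
        ln_X]
      by_cases hij : i = j
      · subst hij
        simp
        ring
      · rw [if_neg hij, Pi.single_apply, if_neg (fun h => hij h.symm)]
        simp
        ring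
    have h2 : ∑ i, Polynomial.C (w i) * (if i = j then ln x w p else 0) =
        ln x w p * Polynomial.C (w j) := by
      simp [mul_comm]
    have h3 : Polynomial.derivative (Polynomial.C (x j) + Polynomial.X * Polynomial.C (w j)) =
        Polynomial.C (w j) := by
      simp
    have h4 : ∑ i, Polynomial.C (w i) * ln x w (pderiv i (p * X j)) =
        ∑ i, (Polynomial.C (w i) * ln x w (pderiv i p) *
          (Polynomial.C (x j) + Polynomial.X * Polynomial.C (w j)) +
          Polynomial.C (w i) * (if i = j then ln x w p else 0)) := by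
      refine Finset.sum_congr rfl fun i _ => ?_
      rw [h1, mul_add, ← mul_assoc]
    rw [h4, Finset.sum_add_distrib, ← Finset.sum_mul, h2, h3]

end EUL_

theorem p_EUL : T_EUL := by
  intro σ A _ _ F d hF x w l
  have hE : ∑ i, (Polynomial.C (x i) + Polynomial.X * Polynomial.C (w i)) *
      onLine (pderiv i F) x w = (d : Polynomial A) * onLine F x w := by
    have h := congrArg (EUL_.ln x w) hF.sum_X_mul_pderiv
    rw [map_sum, nsmul_eq_mul, map_mul, map_natCast] at h
    rw [EUL_.onLine_eq, ← h]
    refine Finset.sum_congr rfl fun i _ => ?_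
    rw [map_mul, EUL_.ln_X, EUL_.onLine_eq]
  have hD := EUL_.deriv_ln F x w
  have hS : ∑ i, Polynomial.C (x i) * onLine (pderiv i F) x w =
      (d : Polynomial A) * onLine F x w - Polynomial.X * Polynomial.derivative (onLine F x w) := by
    rw [← hE, EUL_.onLine_eq, hD, Finset.mul_sum, ← Finset.sum_sub_distrib]
    refine Finset.sum_congr rfl fun i _ => ?_
    rw [EUL_.onLine_eq]
    ring
  have hc := congrArg (fun p => Polynomial.coeff p (l : ℕ)) hS
  simp only [Polynomial.finsetSum_coeff, Polynomial.coeff_C_mul, Polynomial.coeff_sub] at hc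
  have hX : (Polynomial.X * Polynomial.derivative (onLine F x w)).coeff (l : ℕ) =
      ((l : ℕ) : A) * (onLine F x w).coeff l := by
    rcases Nat.eq_zero_or_pos (l : ℕ) with h0 | h0
    · rw [h0]; simp
    · obtain ⟨m, hm⟩ := Nat.exists_eq_succ_of_ne_zero h0.ne'
      rw [hm, Polynomial.coeff_X_mul, Polynomial.coeff_derivative]
      push_cast
      ring
  rw [hX] at hc
  have hN : ((d : Polynomial A) * onLine F x w).coeff (l : ℕ) =
      (d : A) * (onLine F x w).coeff l := by
    rw [← Polynomial.C_eq_natCast, Polynomial.coeff_C_mul]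
  rw [hN] at hc
  rw [Nat.cast_sub l.2.le, sub_mul, ← hc]
  rfl

end Pool.Agent.WL
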