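import Pool.Agent.WL.Targets2

/-!
# Finite extensions of the rational function field are function fields
-/

set_option autoImplicit false

open MvPolynomial WithZero Topology
open Pool.Agent.WA

namespace Pool.Agent.WL

namespace FINN_

open Cardinal

variable (k K : Type) [Field k] [Field K] [Algebra (RatFunc k) K] [Algebra k K]
  [IsScalarTower k (RatFunc k) K] [FiniteDimensional (RatFunc k) K]

theorem ess : Algebra.EssFiniteType k K := by
  have h1 : Algebra.EssFiniteType (Polynomial k) (RatFunc k) :=
    Algebra.EssFiniteType.of_isLocalization (RatFunc k) (nonZeroDivisors (Polynomial k))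
  have h2 : Algebra.EssFiniteType k (RatFunc k) :=
    Algebra.EssFiniteType.comp k (Polynomial k) (RatFunc k)
  exact Algebra.EssFiniteType.comp k (RatFunc k) K

theorem trdeg_eq : Algebra.trdeg k K = 1 := by
  have h0 : IsTranscendenceBasis k fun _ : Unit => (Polynomial.X : Polynomial k) :=
    IsTranscendenceBasis.polynomial Unit k
  have h1 : Algebra.IsAlgebraic (Polynomial k) (RatFunc k) :=
    IsLocalization.isAlgebraic (RatFunc k) (nonZeroDivisors (Polynomial k))
  have h2 := h0.algebraMap_comp (A := RatFunc k)
  have h3 : Algebra.IsAlgebraic (RatFunc k) K := Algebra.IsAlgebraic.of_finite _ _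
  have h4 := h2.algebraMap_comp (A := K)
  have h5 := h4.cardinalMk_eq_trdeg
  rw [← h5]
  simp

end FINN_

theorem p_FIN : T_FIN := by
  intro k K _ _ _ _ _ _ s hs
  have h1 : AlgebraicIndependent k (fun _ : Unit => s) :=
    (algebraicIndependent_unique_type_iff).2 hs
  have h2 : IsTranscendenceBasis k (fun _ : Unit => s) :=
    h1.isTranscendenceBasis_of_trdeg_le_of_finite (by
      rw [FINN_.trdeg_eq k K]
      simp)
  have h3 := h2.isAlgebraic_field
  rw [Set.range_const] at h3
  have h4 := FINN_.ess k K
  have h5 : Algebra.EssFiniteType (IntermediateField.adjoin k {s}) K :=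
    Algebra.EssFiniteType.of_comp k (IntermediateField.adjoin k {s}) K
  exact Algebra.finite_of_essFiniteType_of_isAlgebraic

end Pool.Agent.WL
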