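import Pool.Agent.WL.Targets2

/-!
# Weak approximation: the first place
-/

set_option autoImplicit false

open MvPolynomial WithZero Topology
open Pool.Agent.WA

namespace Pool.Agent.WL

namespace FIRST_

/-- A form does not vanish near a point where it does not vanish. -/
theorem exists_near {K : Type} [Field K] {v : Valuation K ℤᵐ⁰} {π : K} (hπ : IsUnif v π) (n : ℕ)
    (Δ : MvPolynomial (Fin (n + 1)) K) (x : Fin (n + 1) → Compl v) (hx : eval x (FE v Δ) ≠ 0)
    (θ : ℤᵐ⁰) (hθ : θ ≠ 0) :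
    ∃ ρ : ℤᵐ⁰, ρ ≠ 0 ∧ ρ ≤ θ ∧ ∀ y : Fin (n + 1) → K, (∀ i, vE v (emb v (y i) - x i) ≤ ρ) →
      eval y Δ ≠ 0 := by
  obtain ⟨B, hB1, hB⟩ := exists_common_bound (vE v) x
  obtain ⟨C, hC⟩ := exists_lipschitz (vE v) (FE v Δ) B
  set g := v π with hg
  have hg0 : g ≠ 0 := hπ.ne_zero
  have hg1 : g < 1 := hπ.lt_one
  set μ := vE v (eval x (FE v Δ)) with hμ
  have hμ0 : μ ≠ 0 := (Valuation.ne_zero_iff _).mpr hx
  obtain ⟨N₀, hN₀⟩ := exists_pow_le hg1 hθ
  obtain ⟨N₁, hN₁⟩ := exists_mul_pow_le_one hg0 hg1 (C * μ⁻¹)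
  refine ⟨g ^ (N₀ + N₁ + 1), pow_ne_zero _ hg0, ?_, ?_⟩
  · exact (pow_le_pow_right_of_le_one' hg1.le (by omega)).trans hN₀
  · intro y hy h0
    have h1 := hC x (fun i => emb v (y i) - x i) (g ^ (N₀ + N₁ + 1)) hB hy
      ((pow_le_one' hg1.le _).trans hB1)
    have e1 : x + (fun i => emb v (y i) - x i) = fun i => emb v (y i) := by
      funext i
      simp
    have e2 : eval (fun i => emb v (y i)) (FE v Δ) = 0 := by
      have := MvPolynomial.map_eval (emb v) y Δ
      rw [h0, map_zero] at this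
      exact this.symm
    rw [e1, e2, zero_sub, Valuation.map_neg] at h1
    have h2 : C * g ^ (N₀ + N₁) ≤ μ := by
      have h3 := hN₁ (N₀ + N₁) (by omega)
      calc C * g ^ (N₀ + N₁) = (C * μ⁻¹ * g ^ (N₀ + N₁)) * μ := by
            rw [mul_right_comm, inv_mul_cancel_right₀ hμ0]
        _ ≤ 1 * μ := mul_le_mul' h3 le_rfl
        _ = μ := one_mul μ
    have h4 : C * g ^ (N₀ + N₁ + 1) < μ := by
      calc C * g ^ (N₀ + N₁ + 1) = (C * g ^ (N₀ + N₁)) * g := by rw [pow_succ, mul_assoc]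
        _ ≤ μ * g := mul_le_mul' h2 le_rfl
        _ < μ * 1 := by
            rw [mul_lt_mul_iff_right₀ (zero_lt_iff.mpr hμ0)]
            exact hg1
        _ = μ := mul_one μ
    exact absurd h1 (not_le.mpr h4)

end FIRST_

open FIRST_ in
theorem p_FIRST (h2 : T_DENS) (h3 : T_SINGLE) : T_FIRST := by
  intro k K _ _ _ _ hfun n d F Δ hG v hv x hx hFx θ hθ
  obtain ⟨π, hπ⟩ := exists_isUnif v hv.1
  have : Infinite K := Infinite.of_injective (algebraMap k K) (algebraMap k K).injective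
  let _ : Algebra K (Compl v) := (emb v).toAlgebra
  have halg : ∀ (z : Fin (n + 1) → Compl v) (G : MvPolynomial (Fin (n + 1)) K),
      aeval z G = eval z (FE v G) := by
    intro z G
    rw [aeval_def, eval_map]
    rfl
  have hd2 : d = 1 ∨ 2 ≤ n := by
    have h1 := hG.one_le
    have h4 := hG.sq_le
    rcases Nat.lt_or_ge d 2 with h | h
    · left
      omega
    · right
      nlinarith
  obtain ⟨l, hl⟩ : ∃ l, x l ≠ 0 := by
    by_contra h
    simp only [not_exists, not_not] at h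
    exact hx (funext h)
  have hxl : vE v (x l) ≠ 0 := (Valuation.ne_zero_iff _).mpr hl
  have hlt : vE v (emb v π) * vE v (x l) < vE v (x l) := by
    calc vE v (emb v π) * vE v (x l) < 1 * vE v (x l) := by
          rw [mul_lt_mul_iff_left₀ (zero_lt_iff.mpr hxl)]
          exact (isUnif_emb hπ).lt_one
      _ = vE v (x l) := one_mul _
  set θ' : ℤᵐ⁰ := min θ (vE v (emb v π) * vE v (x l)) with hθ'
  have hθ'0 : θ' ≠ 0 := by
    rcases min_choice θ (vE v (emb v π) * vE v (x l)) with h | h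
    · rw [hθ', h]
      exact hθ
    · rw [hθ', h]
      exact mul_ne_zero (isUnif_emb hπ).ne_zero hxl
  obtain ⟨x', hx'x, hFx', hΔx', -⟩ := h2 K (Compl v) (emb v π) (isUnif_emb hπ)
    (fun e c hc => dense_emb hπ e c hc) n d F Δ hG.one_le hd2 hG.hom hG.smooth hG.ndvd x hx
    (by rw [halg]; exact hFx) θ' hθ'0
  rw [halg] at hFx' hΔx'
  have hx'0 : x' ≠ 0 := by
    rintro rfl
    have h4 := hx'x l
    rw [Pi.zero_apply, zero_sub, Valuation.map_neg] at h4
    exact absurd (h4.trans (min_le_right _ _)) (not_le.mpr hlt)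
  have hgood : GoodPt (FE v F) d x' := by
    intro M _ φ hφ
    have h4 := hG.good M (φ.comp (emb v)) (fun i => φ (x' i)) (by
      have e : eval₂ (φ.comp (emb v)) (fun i => φ (x' i)) Δ = φ (eval x' (FE v Δ)) := by
        rw [eval_map, MvPolynomial.eval₂_comp_left φ (emb v) x' Δ]
        rfl
      rw [e]
      exact (map_ne_zero_iff φ hφ).mpr hΔx')
    rw [MvPolynomial.map_map]
    exact h4
  obtain ⟨ρ, hρ0, hρθ, hρ⟩ := exists_near hπ n Δ x' hΔx' θ hθ
  obtain ⟨y, hy, hyx⟩ := h3 k K hfun n d F v hv hG.one_le hG.sq_le hG.hom x' hx'0 hFx' hgood ρ hρ0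
  refine ⟨y, hy, hρ y hyx, fun i => ?_⟩
  have e : emb v (y i) - x i = (emb v (y i) - x' i) + (x' i - x i) := by ring
  rw [e]
  exact (vE v).map_add_le ((hyx i).trans hρθ) ((hx'x i).trans (min_le_left _ _))

end Pool.Agent.WL
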