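import Pool.Agent.WL.Targets

/-!
# From exact freeness to approximate freeness
-/

set_option autoImplicit false

open MvPolynomial

namespace Pool.Agent.WL

namespace FREE_

section Gen

variable {σ R B : Type} [CommRing R] [CommRing B]

/-- The coefficients of the form on the line through `x₀` with generic direction. -/
noncomputable def gj (F : MvPolynomial σ R) (x₀ : σ → R) (j : ℕ) : MvPolynomial σ R :=
  (onLine (F.map C) (fun i => C (x₀ i)) (fun i => X i)).coeff j

/-- The minors at `x₀` with generic direction. -/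
noncomputable def gS (F : MvPolynomial σ R) (d : ℕ) (x₀ : σ → R) (S : Fin d → σ) :
    MvPolynomial σ R :=
  dminor (F.map C) d (fun i => C (x₀ i)) (fun i => X i) S

theorem gj_eval (F : MvPolynomial σ R) (x₀ : σ → R) (j : ℕ) (ψ : MvPolynomial σ R →+* B) :
    ψ (gj F x₀ j) = (onLine (F.map (ψ.comp C)) (fun i => ψ (C (x₀ i)))
      (fun i => ψ (X i))).coeff j := by
  unfold gj
  rw [← Polynomial.coeff_map, ← onLine_map, MvPolynomial.map_map]

theorem gS_eval (F : MvPolynomial σ R) (d : ℕ) (x₀ : σ → R) (S : Fin d → σ)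
    (ψ : MvPolynomial σ R →+* B) :
    ψ (gS F d x₀ S) = dminor (F.map (ψ.comp C)) d (fun i => ψ (C (x₀ i)))
      (fun i => ψ (X i)) S := by
  unfold gS
  rw [← dminor_map, MvPolynomial.map_map]

/-- The ideal of the bad directions with coordinates `0` at `a` and `1` at `b`. -/
noncomputable def Ib (F : MvPolynomial σ R) (d : ℕ) (x₀ : σ → R) (a b : σ) :
    Ideal (MvPolynomial σ R) :=
  Ideal.span ((gj F x₀) '' {j | j ≤ d} ∪ (gS F d x₀) '' {S | ∀ l, S l ≠ a} ∪ {X a, X b - 1})

theorem Ib_le (F : MvPolynomial σ R) (d : ℕ) (x₀ : σ → R) (a b : σ) (J : Ideal (MvPolynomial σ R))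
    (h1 : ∀ j ≤ d, gj F x₀ j ∈ J) (h2 : ∀ S : Fin d → σ, (∀ l, S l ≠ a) → gS F d x₀ S ∈ J)
    (h3 : X a ∈ J) (h4 : X b - 1 ∈ J) : Ib F d x₀ a b ≤ J := by
  unfold Ib
  rw [Ideal.span_le]
  rintro f ((⟨j, hj, rfl⟩ | ⟨S, hS, rfl⟩) | hf)
  · exact h1 j hj
  · exact h2 S hS
  · rcases hf with rfl | hf
    · exact h3
    · rw [Set.mem_singleton_iff] at hf
      rw [hf]
      exact h4

theorem mem_of_Ib_le {F : MvPolynomial σ R} {d : ℕ} {x₀ : σ → R} {a b : σ}
    {J : Ideal (MvPolynomial σ R)} (h : Ib F d x₀ a b ≤ J) :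
    (∀ j ≤ d, gj F x₀ j ∈ J) ∧ (∀ S : Fin d → σ, (∀ l, S l ≠ a) → gS F d x₀ S ∈ J) ∧
    X a ∈ J ∧ X b - 1 ∈ J := by
  refine ⟨fun j hj => h (Ideal.subset_span ?_), fun S hS => h (Ideal.subset_span ?_),
    h (Ideal.subset_span ?_), h (Ideal.subset_span ?_)⟩
  · exact Or.inl (Or.inl ⟨j, hj, rfl⟩)
  · exact Or.inl (Or.inr ⟨S, hS, rfl⟩)
  · exact Or.inr (Or.inl rfl)
  · exact Or.inr (Or.inr rfl)

end Gen

theorem exists_const (h1 : T_AVOID) (h3 : T_DEG) {σ R : Type} [Fintype σ] [CommRing R]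
    [IsDomain R] (F : MvPolynomial σ R) (d : ℕ) (hF : F.IsHomogeneous d) (x₀ : σ → R) (a b : σ)
    (ha : x₀ a ≠ 0) (hg : GoodPt F d x₀) : ∃ r : R, r ≠ 0 ∧ C r ∈ Ib F d x₀ a b := by
  classical
  by_contra hcon
  push Not at hcon
  have hdisj : Disjoint ((Ib F d x₀ a b : Ideal (MvPolynomial σ R)) : Set (MvPolynomial σ R))
      (((nonZeroDivisors R).map (C : R →+* MvPolynomial σ R) :
        Submonoid (MvPolynomial σ R)) : Set (MvPolynomial σ R)) := by
    rw [Set.disjoint_left]
    rintro f hf ⟨r, hr, rfl⟩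
    exact hcon r (nonZeroDivisors.ne_zero hr) hf
  obtain ⟨P, hP, hle, hPd⟩ := Ideal.exists_le_prime_disjoint _ _ hdisj
  let ψ : MvPolynomial σ R →+* FractionRing (MvPolynomial σ R ⧸ P) :=
    (algebraMap (MvPolynomial σ R ⧸ P) (FractionRing (MvPolynomial σ R ⧸ P))).comp
      (Ideal.Quotient.mk P)
  have hψ : ∀ f, f ∈ P → ψ f = 0 := by
    intro f hf
    change algebraMap (MvPolynomial σ R ⧸ P) (FractionRing (MvPolynomial σ R ⧸ P))
      (Ideal.Quotient.mk P f) = 0
    rw [Ideal.Quotient.eq_zero_iff_mem.2 hf, map_zero]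
  have hψ' : ∀ f, ψ f = 0 → f ∈ P := by
    intro f hf
    have h : algebraMap (MvPolynomial σ R ⧸ P) (FractionRing (MvPolynomial σ R ⧸ P))
      (Ideal.Quotient.mk P f) = 0 := hf
    rw [← map_zero (algebraMap (MvPolynomial σ R ⧸ P) (FractionRing (MvPolynomial σ R ⧸ P)))] at h
    exact Ideal.Quotient.eq_zero_iff_mem.1 (IsFractionRing.injective _ _ h)
  have hinj : Function.Injective (ψ.comp (C : R →+* MvPolynomial σ R)) := by
    rw [injective_iff_map_eq_zero]
    intro r hr
    by_contra hr0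
    have hm : (C r : MvPolynomial σ R) ∈ P := hψ' _ hr
    exact (Set.disjoint_left.1 hPd) hm ⟨r, mem_nonZeroDivisors_of_ne_zero hr0, rfl⟩
  obtain ⟨m1, m2, m3, m4⟩ := mem_of_Ib_le hle
  have hFφ : (F.map (ψ.comp C)).IsHomogeneous d := hF.map _
  have hw0 : onLine (F.map (ψ.comp C)) (fun i => (ψ.comp C) (x₀ i)) (fun i => ψ (X i)) = 0 := by
    ext j
    rw [Polynomial.coeff_zero]
    by_cases hj : j ≤ d
    · have := gj_eval F x₀ j ψ
      rw [hψ _ (m1 j hj)] at this
      exact this.symm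
    · push Not at hj
      exact Polynomial.coeff_eq_zero_of_natDegree_lt
        (lt_of_le_of_lt (h3 _ _ _ d hFφ _ _).1 hj)
  have hne : ∀ c : FractionRing (MvPolynomial σ R ⧸ P),
      (fun i => ψ (X i)) ≠ c • (fun i => (ψ.comp C) (x₀ i)) := by
    intro c hc
    have ea := congrFun hc a
    have eb := congrFun hc b
    simp only [Pi.smul_apply, smul_eq_mul] at ea eb
    rw [hψ _ m3] at ea
    have hx : (ψ.comp C) (x₀ a) ≠ 0 := by
      intro h
      apply ha
      exact hinj (by rw [h, map_zero])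
    have hc0 : c = 0 := by
      rcases mul_eq_zero.1 ea.symm with h | h
      · exact h
      · exact absurd h hx
    rw [hc0, zero_mul] at eb
    have h4 := hψ _ m4
    rw [map_sub, map_one, eb, zero_sub, neg_eq_zero] at h4
    exact one_ne_zero h4
  obtain ⟨S, hS⟩ := hg _ (ψ.comp C) hinj _ hw0 hne
  apply hS
  have := h1 σ _ (F.map (ψ.comp C)) d hFφ (fun i => (ψ.comp C) (x₀ i)) (fun i => ψ (X i)) a ⊥
    ?_ ?_ ?_ S
  · simpa using this
  · apply IsUnit.mk0
    intro h
    apply ha
    exact hinj (by rw [h, map_zero])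
  · intro j _
    rw [hw0, Polynomial.coeff_zero]
    exact Ideal.zero_mem _
  · intro S' hS'
    have e := gS_eval F d x₀ S' ψ
    rw [hψ _ (m2 S' hS')] at e
    rw [Ideal.mem_bot]
    exact e.symm

end FREE_

open FREE_ in
theorem p_FREE (h1 : T_AVOID) (h2 : T_TRI) (h3 : T_DEG) : T_FREE := by
  classical
  intro k _ n d F x₀ a _hd hF ha hg
  have ha' : x₀ a ≠ 0 := by
    intro h
    apply ha
    rw [h, map_zero]
  -- the constants
  have hex : ∀ b : Fin (n + 1), ∃ (m : ℕ) (r : PowerSeries k), PowerSeries.coeff m r ≠ 0 ∧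
      C r ∈ Ib F d x₀ a b := by
    intro b
    obtain ⟨r, hr, hm⟩ := exists_const h1 h3 F d hF x₀ a b ha' hg
    obtain ⟨m, hm'⟩ := PowerSeries.exists_coeff_ne_zero_iff_ne_zero.2 hr
    exact ⟨m, r, hm', hm⟩
  choose m r hr hI using hex
  refine ⟨1 + ∑ b, (m b + 1), ?_⟩
  intro L _ _ x w hx hxw hjd
  have hFu : (upF L F).IsHomogeneous d := hF.map _
  set N : ℕ := 1 + ∑ b, (m b + 1) with hN
  have hmN : ∀ b, m b < N := by
    intro b
    have : m b + 1 ≤ ∑ b, (m b + 1) :=
      Finset.single_le_sum (f := fun b => m b + 1) (fun _ _ => Nat.zero_le _) (Finset.mem_univ b)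
    omega
  -- `x a` is a unit
  have hxa : PowerSeries.constantCoeff (x a) ≠ 0 := by
    have h0 := (PowerSeries.X_pow_dvd_iff.1 (hx a)) 0 (by omega)
    rw [map_sub, sub_eq_zero] at h0
    have e1 : PowerSeries.constantCoeff (x a) = PowerSeries.coeff 0 (x a) := by simp
    rw [e1, h0]
    unfold up
    rw [PowerSeries.coeff_map]
    intro h
    apply ha
    rw [map_eq_zero] at h
    simpa using h
  -- some coordinate of `w'` is a unit
  obtain ⟨b, hb⟩ : ∃ b, PowerSeries.constantCoeff (x a * w b - w a * x b) ≠ 0 := by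
    by_contra hcon
    push Not at hcon
    obtain ⟨i, j, hij⟩ := hxw
    have hi := hcon i
    have hj := hcon j
    simp only [map_sub, map_mul] at hi hj hij
    apply hij
    have : PowerSeries.constantCoeff (x a) *
        (PowerSeries.constantCoeff (x i) * PowerSeries.constantCoeff (w j) -
          PowerSeries.constantCoeff (x j) * PowerSeries.constantCoeff (w i)) = 0 := by
      linear_combination PowerSeries.constantCoeff (x i) * hj -
        PowerSeries.constantCoeff (x j) * hi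
    rcases mul_eq_zero.1 this with h | h
    · exact absurd h hxa
    · exact h
  have hbu : IsUnit (x a * w b - w a * x b) := by
    rw [PowerSeries.isUnit_iff_constantCoeff]
    exact IsUnit.mk0 _ hb
  obtain ⟨u, hu⟩ := hbu
  set v : PowerSeries L := ((u⁻¹ : (PowerSeries L)ˣ) : PowerSeries L) with hv
  have hvu : v * (x a * w b - w a * x b) = 1 := by
    rw [← hu, hv, Units.inv_mul]
  by_contra hcon
  push Not at hcon
  -- the new direction
  set α : PowerSeries L := -(v * w a) with hα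
  set β : PowerSeries L := v * x a with hβ
  have hwa : α * x a + β * w a = 0 := by
    rw [hα, hβ]; ring
  have hwb : α * x b + β * w b = 1 := by
    rw [hα, hβ, ← hvu]; ring
  have hJ : ∀ j ≤ d, (PowerSeries.X : PowerSeries L) ^ N ∣
      (onLine (upF L F) x (fun i => α * x i + β * w i)).coeff j := by
    intro j hj
    rw [(h2 _ _ (upF L F) d hFu x w α β).1 j]
    apply Finset.dvd_sum
    intro i hi
    rw [Finset.mem_range] at hi
    exact Dvd.dvd.mul_left (hjd i (by omega)) _
  have hS : ∀ S : Fin d → Fin (n + 1), (∀ l, S l ≠ a) → (PowerSeries.X : PowerSeries L) ^ N ∣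
      dminor (upF L F) d x (fun i => α * x i + β * w i) S := by
    intro S hS
    rw [(h2 _ _ (upF L F) d hFu x w α β).2 S]
    exact Dvd.dvd.mul_left (hcon S hS) _
  -- reduction modulo `X ^ N`
  let π : PowerSeries L →+* PowerSeries L ⧸ Ideal.span {(PowerSeries.X : PowerSeries L) ^ N} :=
    Ideal.Quotient.mk _
  have hπ : ∀ f, π f = 0 ↔ (PowerSeries.X : PowerSeries L) ^ N ∣ f := by
    intro f
    rw [← Ideal.mem_span_singleton]
    exact Ideal.Quotient.eq_zero_iff_mem
  let ψ : MvPolynomial (Fin (n + 1)) (PowerSeries k) →+*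
      PowerSeries L ⧸ Ideal.span {(PowerSeries.X : PowerSeries L) ^ N} :=
    eval₂Hom (π.comp (up k L)) (fun i => π (α * x i + β * w i))
  have hψC : ψ.comp C = π.comp (up k L) := by
    ext s
    simp [ψ]
  have hψX : ∀ i, ψ (X i) = π (α * x i + β * w i) := by
    intro i
    simp [ψ]
  have hψx : ∀ i, ψ (C (x₀ i)) = π (x i) := by
    intro i
    have e : ψ (C (x₀ i)) = π (up k L (x₀ i)) := by
      have := congrArg (fun f => f (x₀ i)) hψC
      simpa using this
    rw [e, eq_comm, ← sub_eq_zero, ← map_sub, hπ]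
    exact hx i
  have hmap : F.map (π.comp (up k L)) = (upF L F).map π := by
    unfold upF
    rw [MvPolynomial.map_map]
  have hle : Ib F d x₀ a b ≤ RingHom.ker ψ := by
    apply Ib_le
    · intro j hj
      rw [RingHom.mem_ker, gj_eval, hψC, hmap]
      simp only [hψX, hψx]
      have e := onLine_map π (upF L F) x (fun i => α * x i + β * w i)
      rw [e, Polynomial.coeff_map, hπ]
      exact hJ j hj
    · intro S hS'
      rw [RingHom.mem_ker, gS_eval, hψC, hmap]
      simp only [hψX, hψx]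
      have e := dminor_map π (upF L F) d x (fun i => α * x i + β * w i) S
      rw [e, hπ]
      exact hS S hS'
    · rw [RingHom.mem_ker, hψX, hwa, map_zero]
    · rw [RingHom.mem_ker, map_sub, hψX, hwb, map_one, map_one, sub_self]
  have hrb : ψ (C (r b)) = 0 := hle (hI b)
  have hrb' : π (up k L (r b)) = 0 := by
    have := congrArg (fun f => f (r b)) hψC
    have e : ψ (C (r b)) = π (up k L (r b)) := by simpa using this
    rw [← e]
    exact hrb
  rw [hπ] at hrb'
  have h0 := (PowerSeries.X_pow_dvd_iff.1 hrb') (m b) (hmN b)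
  unfold up at h0
  rw [PowerSeries.coeff_map, map_eq_zero] at h0
  exact hr b h0

end Pool.Agent.WL
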