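import Pool.Agent.WL.Targets2

/-!
# Spaces of functions with bounded poles
-/

set_option autoImplicit false

open Polynomial

namespace Pool.Agent.WL.GG_

variable {k K : Type} [Field k] [Field K] [Algebra k K]

/-- The combination with polynomial coefficients. -/
noncomputable def Phi {δ : ℕ} (s : K) (ω : Fin δ → K) : (Fin δ → k[X]) →ₗ[k] K where
  toFun p := ∑ i, aeval s (p i) * ω i
  map_add' p q := by simp [add_mul, Finset.sum_add_distrib]
  map_smul' c p := by simp [Finset.smul_sum]

theorem Phi_apply {δ : ℕ} (s : K) (ω : Fin δ → K) (p : Fin δ → k[X]) :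
    Phi s ω p = ∑ i, aeval s (p i) * ω i := rfl

theorem Phi_mul {δ : ℕ} (s : K) (ω : Fin δ → K) (q : k[X]) (p : Fin δ → k[X]) :
    Phi s ω (fun i => q * p i) = aeval s q * Phi s ω p := by
  simp [Phi_apply, Finset.mul_sum, mul_assoc]

theorem aeval_ne {s : K} (hs : Transcendental k s) {q : k[X]} (hq : q ≠ 0) : aeval s q ≠ 0 := by
  intro h
  exact hs ⟨q, hq, h⟩

/-- Common denominators for one element. -/
theorem exists_denom {δ : ℕ} {s : K} (hs : Transcendental k s) (ω : Fin δ → K)
    (hω : Submodule.span (IntermediateField.adjoin k {s}) (Set.range ω) = ⊤) (a : K) :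
    ∃ (q : k[X]) (p : Fin δ → k[X]), q ≠ 0 ∧ aeval s q * a = Phi s ω p := by
  have ha : a ∈ Submodule.span (IntermediateField.adjoin k {s}) (Set.range ω) := by
    rw [hω]; trivial
  induction ha using Submodule.span_induction with
  | mem x hx =>
    obtain ⟨i, rfl⟩ := hx
    refine ⟨1, Pi.single i 1, one_ne_zero, ?_⟩
    rw [Phi_apply, Finset.sum_eq_single i]
    · simp
    · intro j _ hj
      simp [Pi.single_eq_of_ne hj]
    · simp
  | zero => exact ⟨1, 0, one_ne_zero, by simp⟩
  | add x y _ _ hx hy =>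
    obtain ⟨q, p, hq, h⟩ := hx
    obtain ⟨q', p', hq', h'⟩ := hy
    refine ⟨q * q', (fun i => q' * p i) + (fun i => q * p' i), mul_ne_zero hq hq', ?_⟩
    rw [map_add, Phi_mul, Phi_mul, ← h, ← h', map_mul]
    ring
  | smul c x _ hx =>
    obtain ⟨q, p, hq, h⟩ := hx
    obtain ⟨r, t, hrt⟩ := (IntermediateField.mem_adjoin_simple_iff k (c : K)).1 c.2
    by_cases ht : t = 0
    · have hc : (c : K) = 0 := by rw [hrt, ht]; simp
      refine ⟨1, 0, one_ne_zero, ?_⟩
      rw [Algebra.smul_def]
      have : algebraMap (IntermediateField.adjoin k {s}) K c = (c : K) := rfl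
      rw [this, hc]
      simp
    · refine ⟨q * t, fun i => r * p i, mul_ne_zero hq ht, ?_⟩
      rw [Phi_mul, ← h, Algebra.smul_def]
      have h1 : algebraMap (IntermediateField.adjoin k {s}) K c = (c : K) := rfl
      have h2 := aeval_ne hs ht
      rw [h1, hrt, map_mul]
      field_simp

/-- Common denominators for finitely many elements. -/
theorem exists_denoms {δ : ℕ} {s : K} (hs : Transcendental k s) (ω : Fin δ → K)
    (hω : Submodule.span (IntermediateField.adjoin k {s}) (Set.range ω) = ⊤) (T : Finset K) :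
    ∃ q : k[X], q ≠ 0 ∧ ∀ a ∈ T, ∃ p : Fin δ → k[X], aeval s q * a = Phi s ω p := by
  classical
  choose q p hq h using fun a => exists_denom hs ω hω a
  refine ⟨∏ a ∈ T, q a, Finset.prod_ne_zero_iff.2 fun a _ => hq a, ?_⟩
  intro a ha
  refine ⟨fun i => (∏ b ∈ T.erase a, q b) * p a i, ?_⟩
  rw [Phi_mul, ← h a, ← Finset.prod_erase_mul T q ha, map_mul]
  ring

theorem Phi_injective {δ : ℕ} {s : K} (hs : Transcendental k s) (ω : Fin δ → K)
    (hω : LinearIndependent (IntermediateField.adjoin k {s}) ω) :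
    Function.Injective (Phi (k := k) s ω) := by
  rw [← LinearMap.ker_eq_bot, LinearMap.ker_eq_bot']
  intro p hp
  rw [Phi_apply] at hp
  have hmem : ∀ i, aeval s (p i) ∈ IntermediateField.adjoin k {s} := by
    intro i
    exact (IntermediateField.mem_adjoin_simple_iff k _).2 ⟨p i, 1, by simp⟩
  have h := Fintype.linearIndependent_iff.1 hω (fun i => ⟨aeval s (p i), hmem i⟩) (by
    rw [← hp]
    refine Finset.sum_congr rfl fun i _ => ?_
    rw [Algebra.smul_def]
    rfl)
  funext i
  have hi := h i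
  by_contra hne
  exact aeval_ne hs hne (congrArg Subtype.val hi)

/-- The spaces. -/
noncomputable def Psi {δ : ℕ} (s : K) (ω : Fin δ → K) (m : ℕ) :
    (Fin δ → degreeLT k (m + 1)) →ₗ[k] K :=
  Phi s ω ∘ₗ LinearMap.pi fun i => (degreeLT k (m + 1)).subtype ∘ₗ LinearMap.proj i

theorem Psi_apply {δ : ℕ} (s : K) (ω : Fin δ → K) (m : ℕ) (p : Fin δ → degreeLT k (m + 1)) :
    Psi s ω m p = Phi s ω (fun i => (p i : k[X])) := rfl

theorem mem_range_Psi {δ : ℕ} (s : K) (ω : Fin δ → K) (m : ℕ) (f : K) :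
    f ∈ LinearMap.range (Psi (k := k) s ω m) ↔
      ∃ p : Fin δ → k[X], (∀ i, (p i).natDegree ≤ m) ∧ f = Phi s ω p := by
  constructor
  · rintro ⟨p, rfl⟩
    refine ⟨fun i => (p i : k[X]), fun i => ?_, rfl⟩
    have := (p i).2
    rw [mem_degreeLT] at this
    by_cases h0 : (p i : k[X]) = 0
    · simp [h0]
    · exact Nat.lt_succ_iff.1 ((natDegree_lt_iff_degree_lt h0).2 this)
  · rintro ⟨p, hp, rfl⟩
    refine ⟨fun i => ⟨p i, ?_⟩, rfl⟩
    rw [mem_degreeLT]
    exact lt_of_le_of_lt degree_le_natDegree (by exact_mod_cast Nat.lt_succ_iff.2 (hp i))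

theorem natDegree_det_le {n : ℕ} (M : Matrix (Fin n) (Fin n) k[X]) (d : ℕ)
    (h : ∀ i j, (M i j).natDegree ≤ d) : M.det.natDegree ≤ n * d := by
  rw [Matrix.det_apply]
  refine natDegree_sum_le_of_forall_le _ _ fun σ _ => ?_
  refine (natDegree_smul_le _ _).trans ?_
  refine (natDegree_prod_le _ _).trans ?_
  calc ∑ i, (M (σ i) i).natDegree ≤ ∑ _i : Fin n, d := Finset.sum_le_sum fun i _ => h _ _
    _ = n * d := by simp

theorem Psi_injective {δ : ℕ} {s : K} {ω : Fin δ → K}
    (h : Function.Injective (Phi (k := k) s ω)) (m : ℕ) :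
    Function.Injective (Psi (k := k) s ω m) := by
  intro p p' hp
  rw [Psi_apply, Psi_apply] at hp
  have := h hp
  funext i
  exact Subtype.ext (congrFun this i)

instance finite_degreeLT (n : ℕ) : Module.Finite k (degreeLT k n) :=
  Module.Finite.equiv (degreeLTEquiv k n).symm

theorem finrank_degreeLT (n : ℕ) : Module.finrank k (degreeLT k n) = n := by
  rw [(degreeLTEquiv k n).finrank_eq]
  simp

theorem finrank_range_Psi {δ : ℕ} {s : K} {ω : Fin δ → K}
    (h : Function.Injective (Phi (k := k) s ω)) (m : ℕ) :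
    Module.finrank k (LinearMap.range (Psi (k := k) s ω m)) = δ * (m + 1) := by
  rw [LinearMap.finrank_range_of_inj (Psi_injective h m), Module.finrank_pi_fintype]
  simp [finrank_degreeLT]

theorem natDegree_sum2 {δ : ℕ} (F : Fin δ → k[X]) (d : ℕ) (h : ∀ i, (F i).natDegree ≤ d) :
    (∑ i, F i).natDegree ≤ d :=
  natDegree_sum_le_of_forall_le _ _ fun i _ => h i

/-- Multiplication. -/
theorem Phi_mul_Phi {δ : ℕ} {s : K} {ω : Fin δ → K} {c : Fin δ → Fin δ → Fin δ → k[X]}
    (hc : ∀ i j, ω i * ω j = Phi s ω (c i j)) (p q : Fin δ → k[X]) :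
    Phi s ω p * Phi s ω q = Phi s ω (fun l => ∑ i, ∑ j, p i * q j * c i j l) := by
  rw [Phi_apply, Phi_apply, Phi_apply, Finset.sum_mul_sum]
  have h1 : ∀ i j, aeval s (p i) * ω i * (aeval s (q j) * ω j) =
      ∑ l, aeval s (p i * q j * c i j l) * ω l := by
    intro i j
    calc aeval s (p i) * ω i * (aeval s (q j) * ω j)
        = aeval s (p i) * aeval s (q j) * (ω i * ω j) := by ring
      _ = _ := by
        rw [hc i j, Phi_apply, Finset.mul_sum]
        refine Finset.sum_congr rfl fun l _ => ?_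
        rw [map_mul, map_mul]
        ring
  simp_rw [h1]
  rw [Finset.sum_congr rfl fun i _ => Finset.sum_comm, Finset.sum_comm]
  refine Finset.sum_congr rfl fun l _ => ?_
  rw [map_sum, Finset.sum_mul]
  refine Finset.sum_congr rfl fun i _ => ?_
  rw [map_sum, Finset.sum_mul]

/-- The lattice. -/
noncomputable def Nn {δ : ℕ} (k : Type) {K : Type} [Field k] [Field K] [Algebra k K] (s : K)
    (ω : Fin δ → K) : Submodule (Algebra.adjoin k {s}) K :=
  Submodule.span (Algebra.adjoin k {s}) (Set.range ω)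

theorem Phi_mem_Nn {δ : ℕ} (s : K) (ω : Fin δ → K) (p : Fin δ → k[X]) :
    Phi s ω p ∈ Nn k s ω := by
  rw [Phi_apply]
  refine Submodule.sum_mem _ fun i _ => ?_
  have h1 : aeval s (p i) ∈ Algebra.adjoin k {s} := by
    rw [Algebra.adjoin_singleton_eq_range_aeval]
    exact ⟨p i, rfl⟩
  have h2 : aeval s (p i) * ω i = (⟨aeval s (p i), h1⟩ : Algebra.adjoin k {s}) • ω i := by
    rw [Algebra.smul_def]
    rfl
  rw [h2]
  exact Submodule.smul_mem _ _ (Submodule.subset_span ⟨i, rfl⟩)

theorem integral_of_mul {δ : ℕ} {s : K} {ω : Fin δ → K} (h0 : ∃ i, ω i ≠ 0) (f : K)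
    (hf : ∀ i, f * ω i ∈ Nn k s ω) : IsIntegral (Algebra.adjoin k {s}) f := by
  refine isIntegral_of_smul_mem_submodule (Nn k s ω) ?_ ?_ f ?_
  · obtain ⟨i, hi⟩ := h0
    intro hbot
    have : ω i ∈ Nn k s ω := Submodule.subset_span ⟨i, rfl⟩
    rw [hbot] at this
    exact hi this
  · exact ⟨(Set.finite_range ω).toFinset, by simp [Nn]⟩
  · intro n hn
    rw [smul_eq_mul]
    unfold Nn at hn
    induction hn using Submodule.span_induction with
    | mem x hx =>
      obtain ⟨i, rfl⟩ := hx
      exact hf i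
    | zero => rw [mul_zero]; exact Submodule.zero_mem _
    | add x y _ _ hx hy => rw [mul_add]; exact Submodule.add_mem _ hx hy
    | smul a x _ hx => rw [mul_smul_comm]; exact Submodule.smul_mem _ _ hx

/-- The cofactor. -/
theorem exists_cofactor {δ : ℕ} {s : K} {ω : Fin δ → K} (h0 : ∃ i, ω i ≠ 0)
    (hinj : Function.Injective (Phi (k := k) s ω)) {f : K} (hf : f ≠ 0)
    (A : Fin δ → Fin δ → k[X]) (hA : ∀ i, f * ω i = Phi s ω (A i)) (d : ℕ)
    (hd : ∀ i j, (A i j).natDegree ≤ d) :
    ∃ (g : K) (P : k[X]), P ≠ 0 ∧ P.natDegree ≤ δ * d ∧ IsIntegral (Algebra.adjoin k {s}) g ∧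
      f * g = aeval s P := by
  classical
  let M : Matrix (Fin δ) (Fin δ) k[X] := Matrix.of A
  have hM : ∀ i j, M i j = A i j := fun _ _ => rfl
  have hdet : M.det ≠ 0 := by
    intro hd0
    obtain ⟨v, hv, hvM⟩ := Matrix.exists_vecMul_eq_zero_iff.2 hd0
    apply hv
    apply hinj
    rw [map_zero]
    have h1 : f * Phi s ω v = 0 := by
      rw [Phi_apply, Finset.mul_sum]
      have h2 : ∀ i, f * (aeval s (v i) * ω i) = ∑ l, aeval s (v i * M i l) * ω l := by
        intro i
        calc f * (aeval s (v i) * ω i) = aeval s (v i) * (f * ω i) := by ring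
          _ = _ := by
            rw [hA i, Phi_apply, Finset.mul_sum]
            refine Finset.sum_congr rfl fun l _ => ?_
            rw [map_mul, hM]
            ring
      rw [Finset.sum_congr rfl fun i _ => h2 i, Finset.sum_comm]
      refine Finset.sum_eq_zero fun l _ => ?_
      rw [← Finset.sum_mul, ← map_sum]
      have h3 : ∑ i, v i * M i l = 0 := congrFun hvM l
      rw [h3, map_zero, zero_mul]
    exact (mul_eq_zero.1 h1).resolve_left hf
  refine ⟨aeval s M.det / f, M.det, hdet, natDegree_det_le M d hd, ?_, by field_simp⟩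
  refine integral_of_mul h0 _ fun i => ?_
  have key : aeval s M.det / f * ω i = Phi s ω (fun l => M.adjugate i l) := by
    rw [div_mul_eq_mul_div, div_eq_iff hf]
    have h4 : Phi s ω (fun l => M.adjugate i l) * f =
        ∑ l, ∑ j, aeval s (M.adjugate i l * M l j) * ω j := by
      rw [Phi_apply, Finset.sum_mul]
      refine Finset.sum_congr rfl fun l _ => ?_
      calc aeval s (M.adjugate i l) * ω l * f = aeval s (M.adjugate i l) * (f * ω l) := by ring
        _ = _ := by
          rw [hA l, Phi_apply, Finset.mul_sum]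
          refine Finset.sum_congr rfl fun j _ => ?_
          rw [map_mul, hM]
          ring
    rw [h4, Finset.sum_comm]
    have h5 : ∀ j, ∑ l, aeval s (M.adjugate i l * M l j) * ω j =
        aeval s ((M.adjugate * M) i j) * ω j := by
      intro j
      rw [← Finset.sum_mul, ← map_sum, Matrix.mul_apply]
    rw [Finset.sum_congr rfl fun j _ => h5 j, Matrix.adjugate_mul, Finset.sum_eq_single i]
    · simp
    · intro j _ hj
      simp [Matrix.one_apply_ne hj.symm]
    · simp
  rw [key]
  exact Phi_mem_Nn s ω _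

end Pool.Agent.WL.GG_

namespace Pool.Agent.WL

open GG_

theorem p_G : T_G := by
  classical
  intro k K _ _ _ s hs hfin
  have hpos : 0 < Module.finrank (IntermediateField.adjoin k {s}) K := Module.finrank_pos
  obtain ⟨δ, hδ⟩ : ∃ δ, δ = Module.finrank (IntermediateField.adjoin k {s}) K := ⟨_, rfl⟩
  rw [← hδ] at hpos
  let B : Module.Basis (Fin δ) (IntermediateField.adjoin k {s}) K :=
    (Module.finBasis (IntermediateField.adjoin k {s}) K).reindex (finCongr hδ.symm)
  have hspan : Submodule.span (IntermediateField.adjoin k {s}) (Set.range B) = ⊤ := B.span_eq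
  obtain ⟨q, hq, hT⟩ := exists_denoms hs B hspan
    (Finset.univ.image fun ij : Fin δ × Fin δ => B ij.1 * B ij.2)
  have hq' := aeval_ne hs hq
  obtain ⟨ω, hω⟩ : ∃ ω : Fin δ → K, ω = fun i => aeval s q * B i := ⟨_, rfl⟩
  have hPhi : ∀ p : Fin δ → k[X], Phi s ω p = aeval s q * Phi s B p := by
    intro p
    rw [Phi_apply, Phi_apply, Finset.mul_sum, hω]
    refine Finset.sum_congr rfl fun i _ => ?_
    ring
  have hinj : Function.Injective (Phi (k := k) s ω) := by
    intro p p' h
    rw [hPhi, hPhi] at h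
    exact Phi_injective hs B B.linearIndependent (mul_left_cancel₀ hq' h)
  have h0 : ∃ i, ω i ≠ 0 := ⟨⟨0, hpos⟩, by rw [hω]; exact mul_ne_zero hq' (B.ne_zero _)⟩
  have hc' : ∀ i j, ∃ p : Fin δ → k[X], ω i * ω j = Phi s ω p := by
    intro i j
    obtain ⟨p, hp⟩ := hT (B i * B j) (Finset.mem_image.2 ⟨(i, j), Finset.mem_univ _, rfl⟩)
    refine ⟨p, ?_⟩
    rw [hPhi, ← hp, hω]
    ring
  choose c hc using hc'
  obtain ⟨c0, hc0⟩ : ∃ c0, ∀ i j l, (c i j l).natDegree ≤ c0 := by
    refine ⟨Finset.univ.sup fun t : Fin δ × Fin δ × Fin δ => (c t.1 t.2.1 t.2.2).natDegree, ?_⟩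
    intro i j l
    exact Finset.le_sup (f := fun t : Fin δ × Fin δ × Fin δ => (c t.1 t.2.1 t.2.2).natDegree)
      (Finset.mem_univ (i, j, l))
  have hmul : ∀ i j l (p p' : k[X]) (m m' : ℕ), p.natDegree ≤ m → p'.natDegree ≤ m' →
      (p * p' * c i j l).natDegree ≤ m + m' + c0 := by
    intro i j l p p' m m' hp hp'
    refine natDegree_mul_le.trans ?_
    have := natDegree_mul_le (p := p) (q := p')
    have := hc0 i j l
    omega
  refine ⟨δ, (δ + 1) * c0, fun m => LinearMap.range (Psi (k := k) s ω m), hpos, ?_, ?_, ?_, ?_,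
    ?_, ?_⟩
  · intro m m' hm f hf
    obtain ⟨p, hp, rfl⟩ := (mem_range_Psi s ω m f).1 hf
    exact (mem_range_Psi s ω m' _).2 ⟨p, fun i => (hp i).trans hm, rfl⟩
  · intro m
    infer_instance
  · intro m
    rw [finrank_range_Psi hinj]
    exact Nat.mul_le_mul_left _ (Nat.le_succ m)
  · intro m m' f hf g hg
    obtain ⟨p, hp, rfl⟩ := (mem_range_Psi s ω m f).1 hf
    obtain ⟨p', hp', rfl⟩ := (mem_range_Psi s ω m' g).1 hg
    refine (mem_range_Psi s ω _ _).2 ⟨_, fun l => ?_, Phi_mul_Phi hc p p'⟩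
    refine natDegree_sum2 _ _ fun i => natDegree_sum2 _ _ fun j => ?_
    refine (hmul i j l _ _ m m' (hp i) (hp' j)).trans ?_
    have : c0 ≤ (δ + 1) * c0 := Nat.le_mul_of_pos_left _ (Nat.succ_pos δ)
    omega
  · intro T
    obtain ⟨q', hq2, hT'⟩ := exists_denoms hs B hspan T
    choose! P hP using hT'
    refine ⟨aeval s q * aeval s q', mul_ne_zero hq' (aeval_ne hs hq2),
      T.sup fun a => Finset.univ.sup fun i => (P a i).natDegree, ?_⟩
    intro a ha
    refine (mem_range_Psi s ω _ _).2 ⟨P a, fun i => ?_, ?_⟩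
    · refine le_trans (Finset.le_sup (f := fun i => (P a i).natDegree) (Finset.mem_univ i)) ?_
      exact Finset.le_sup (f := fun a => Finset.univ.sup fun i => (P a i).natDegree) ha
    · rw [hPhi, ← hP a ha, mul_assoc]
  · intro m f hf
    obtain ⟨p, hp, rfl⟩ := (mem_range_Psi s ω m f).1 hf
    have hA : ∀ i, Phi s ω p * ω i = Phi s ω (fun l => ∑ j, p j * c j i l) := by
      intro i
      have h1 : ω i = Phi s ω (Pi.single i (1 : k[X])) := by
        rw [Phi_apply, Finset.sum_eq_single i]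
        · simp
        · intro j _ hj
          simp [Pi.single_eq_of_ne hj]
        · simp
      conv_lhs => rw [h1]
      rw [Phi_mul_Phi hc]
      congr 1
      funext l
      refine Finset.sum_congr rfl fun j _ => ?_
      rw [Finset.sum_eq_single i]
      · simp
      · intro b _ hb
        simp [Pi.single_eq_of_ne hb]
      · simp
    refine ⟨integral_of_mul h0 _ fun i => ?_, fun hne => ?_⟩
    · rw [hA i]
      exact Phi_mem_Nn s ω _
    · obtain ⟨g, P, hP, hdeg, hg, hfg⟩ := exists_cofactor h0 hinj hne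
        (fun i l => ∑ j, p j * c j i l) hA (m + c0) (by
          intro i l
          refine natDegree_sum2 _ _ fun j => ?_
          refine natDegree_mul_le.trans ?_
          exact Nat.add_le_add (hp j) (hc0 j i l))
      refine ⟨g, P, hP, hdeg.trans ?_, hg, hfg⟩
      have : δ * (m + c0) = δ * m + δ * c0 := by ring
      have h2 : (δ + 1) * c0 = δ * c0 + c0 := by ring
      omega

end Pool.Agent.WL
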