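import Pool.Agent.WL.Targets

/-!
# Coefficients along affine families of lines
-/

set_option autoImplicit false

open MvPolynomial

namespace Pool.Agent.WL

namespace GL_

variable {ι κ A : Type}

/-- `Q` is the derivative of the coefficients of `P`. -/
def Rel [CommRing A] (D : A → A) (P Q : Polynomial A) : Prop := ∀ j, D (P.coeff j) = Q.coeff j

section

variable [CommRing A]

theorem onLine_C (a : A) (x w : κ → A) : onLine (C a : MvPolynomial κ A) x w = Polynomial.C a := by
  unfold onLine; rw [eval₂_C]

theorem onLine_add (p q : MvPolynomial κ A) (x w : κ → A) :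
    onLine (p + q) x w = onLine p x w + onLine q x w := by
  unfold onLine; rw [eval₂_add]

theorem onLine_mul (p q : MvPolynomial κ A) (x w : κ → A) :
    onLine (p * q) x w = onLine p x w * onLine q x w := by
  unfold onLine; rw [eval₂_mul]

theorem onLine_X (i : κ) (x w : κ → A) :
    onLine (X i : MvPolynomial κ A) x w =
      Polynomial.C (x i) + Polynomial.X * Polynomial.C (w i) := by
  unfold onLine; rw [eval₂_X]

theorem onLine_zero (x w : κ → A) : onLine (0 : MvPolynomial κ A) x w = 0 := by
  unfold onLine; rw [eval₂_zero]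

end

section

variable [CommRing A]

/-- Derivations as maps. -/
structure IsDer (D : A → A) : Prop where
  zero : D 0 = 0
  add : ∀ a b, D (a + b) = D a + D b
  mul : ∀ a b, D (a * b) = D a * b + a * D b

variable {D : A → A} (hD : IsDer D)
include hD

theorem rel_add {P Q P' Q' : Polynomial A} (h : Rel D P Q) (h' : Rel D P' Q') :
    Rel D (P + P') (Q + Q') := by
  intro j
  rw [Polynomial.coeff_add, Polynomial.coeff_add, hD.add, h j, h' j]

theorem rel_mulX {P Q : Polynomial A} (h : Rel D P Q) :
    Rel D (P * Polynomial.X) (Q * Polynomial.X) := by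
  intro j
  rcases j with _ | j
  · rw [Polynomial.coeff_mul_X_zero, Polynomial.coeff_mul_X_zero, hD.zero]
  · rw [Polynomial.coeff_mul_X, Polynomial.coeff_mul_X, h j]

theorem rel_mulC {P Q : Polynomial A} (h : Rel D P Q) (a : A) :
    Rel D (P * Polynomial.C a) (Q * Polynomial.C a + P * Polynomial.C (D a)) := by
  intro j
  rw [Polynomial.coeff_mul_C, Polynomial.coeff_add, Polynomial.coeff_mul_C, Polynomial.coeff_mul_C,
    hD.mul, h j]

theorem rel_mulL {P Q : Polynomial A} (h : Rel D P Q) (a b : A) :
    Rel D (P * (Polynomial.C a + Polynomial.X * Polynomial.C b))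
      (Q * (Polynomial.C a + Polynomial.X * Polynomial.C b) +
        P * (Polynomial.C (D a) + Polynomial.X * Polynomial.C (D b))) := by
  have h1 := rel_add hD (rel_mulC hD h a) (rel_mulC hD (rel_mulX hD h) b)
  convert h1 using 1 <;> ring

end

/-- The chain rule. -/
theorem chain_rule [CommRing A] [Fintype κ] {B : Type} [CommRing B] {D : B → B} (hD : IsDer D)
    (f : A →+* B) (hf : ∀ a, D (f a) = 0) (F : MvPolynomial κ A) (x w : κ → B) :
    Rel D (onLine (F.map f) x w) (∑ i, onLine (pderiv i (F.map f)) x w *
      (Polynomial.C (D (x i)) + Polynomial.X * Polynomial.C (D (w i)))) := by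
  classical
  induction F using MvPolynomial.induction_on with
  | C a =>
    intro j
    rw [map_C, onLine_C]
    have : ∀ i, pderiv i (C (f a) : MvPolynomial κ B) = 0 := fun i => pderiv_C
    simp only [this, onLine_zero, zero_mul, Finset.sum_const_zero, Polynomial.coeff_zero,
      Polynomial.coeff_C]
    split_ifs
    · exact hf a
    · exact hD.zero
  | add p q hp hq =>
    have h := rel_add hD hp hq
    rw [← Finset.sum_add_distrib, ← onLine_add, ← map_add] at h
    convert h using 1
    refine Finset.sum_congr rfl fun i _ => ?_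
    rw [map_add, map_add, onLine_add, add_mul]
  | mul_X p n hp =>
    have h := rel_mulL hD hp (x n) (w n)
    rw [map_mul, map_X, onLine_mul, onLine_X]
    convert h using 1
    rw [Finset.sum_mul]
    have e1 : ∀ i, onLine (pderiv i (MvPolynomial.map f p * X n)) x w =
        onLine (pderiv i (MvPolynomial.map f p)) x w *
          (Polynomial.C (x n) + Polynomial.X * Polynomial.C (w n)) +
        (if i = n then onLine (MvPolynomial.map f p) x w else 0) := by
      intro i
      rw [pderiv_mul, pderiv_X, onLine_add, onLine_mul, onLine_mul, onLine_X]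
      by_cases hi : i = n
      · subst hi
        rw [Pi.single_eq_same, if_pos rfl]
        congr 1
        have : onLine (1 : MvPolynomial κ B) x w = 1 := by
          rw [← C_1, onLine_C, Polynomial.C_1]
        rw [this, mul_one]
      · rw [if_neg hi, Pi.single_eq_of_ne (fun h => hi h.symm), onLine_zero, mul_zero]
    have e2 : ∀ i, onLine (pderiv i (MvPolynomial.map f p * X n)) x w *
        (Polynomial.C (D (x i)) + Polynomial.X * Polynomial.C (D (w i))) =
        onLine (pderiv i (MvPolynomial.map f p)) x w *
          (Polynomial.C (D (x i)) + Polynomial.X * Polynomial.C (D (w i))) *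
          (Polynomial.C (x n) + Polynomial.X * Polynomial.C (w n)) +
        (if i = n then onLine (MvPolynomial.map f p) x w *
          (Polynomial.C (D (x n)) + Polynomial.X * Polynomial.C (D (w n))) else 0) := by
      intro i
      rw [e1 i]
      by_cases hi : i = n
      · subst hi; rw [if_pos rfl, if_pos rfl]; ring
      · rw [if_neg hi, if_neg hi]; ring
    rw [Finset.sum_congr rfl (fun i _ => e2 i), Finset.sum_add_distrib]
    congr 1
    rw [Finset.sum_ite_eq' Finset.univ n, if_pos (Finset.mem_univ _)]

end GL_

open GL_ in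
theorem p_GL : T_GL := by
  classical
  intro ι κ A _ _ _ F a b α β j
  set xU : κ → MvPolynomial ι A := fun i => C (a i) + ∑ l, C (α i l) * X l with hxU
  set wU : κ → MvPolynomial ι A := fun i => C (b i) + ∑ l, C (β i l) * X l with hwU
  refine ⟨(onLine (F.map (C : A →+* MvPolynomial ι A)) xU wU).coeff j, ?_⟩
  intro B _ φ u x w hx hw
  set ψ : MvPolynomial ι A →+* B := eval₂Hom φ u with hψ
  have hψ' : ∀ p : MvPolynomial ι A, eval u (p.map φ) = ψ p := by
    intro p; rw [eval_map]; rfl
  have hψx : (fun i => ψ (xU i)) = x := by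
    funext i
    rw [hx, hxU]
    simp only [map_add, map_sum, map_mul, hψ, coe_eval₂Hom, eval₂_C, eval₂_X]
  have hψw : (fun i => ψ (wU i)) = w := by
    funext i
    rw [hw, hwU]
    simp only [map_add, map_sum, map_mul, hψ, coe_eval₂Hom, eval₂_C, eval₂_X]
  have hψC : ψ.comp (C : A →+* MvPolynomial ι A) = φ := by
    ext r
    simp [hψ]
  have hon : ∀ (P : MvPolynomial κ A) (m : ℕ),
      ψ ((onLine (P.map (C : A →+* MvPolynomial ι A)) xU wU).coeff m) =
        (onLine (P.map φ) x w).coeff m := by
    intro P m
    have h := onLine_map ψ (P.map (C : A →+* MvPolynomial ι A)) xU wU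
    rw [hψx, hψw, map_map, hψC] at h
    rw [h, Polynomial.coeff_map]
  refine ⟨by rw [hψ']; exact hon F j, ?_⟩
  intro l
  rw [pderiv_map, hψ']
  have hD : IsDer (fun r : MvPolynomial ι A => pderiv l r) :=
    ⟨map_zero _, fun _ _ => map_add _ _ _, fun _ _ => pderiv_mul⟩
  have hDC : ∀ r : A, pderiv l (C r : MvPolynomial ι A) = 0 := fun r => pderiv_C
  have hch := chain_rule hD (C : A →+* MvPolynomial ι A) hDC F xU wU j
  have hDlin : ∀ (c : A) (γ : ι → A),
      pderiv l (C c + ∑ l', C (γ l') * X l' : MvPolynomial ι A) = C (γ l) := by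
    intro c γ
    rw [map_add, pderiv_C, zero_add, map_sum]
    rw [Finset.sum_eq_single l]
    · rw [pderiv_C_mul, pderiv_X_self]
      simp
    · intro l' _ hl'
      rw [pderiv_C_mul, pderiv_X_of_ne hl', mul_zero]
    · intro h; exact absurd (Finset.mem_univ _) h
  refine (congrArg ψ hch).trans ?_
  rw [Polynomial.finsetSum_coeff, map_sum, ← Finset.sum_add_distrib]
  refine Finset.sum_congr rfl fun i _ => ?_
  have hDx : pderiv l (xU i) = C (α i l) := hDlin _ _
  have hDw : pderiv l (wU i) = C (β i l) := hDlin _ _
  rw [hDx, hDw, mul_add, Polynomial.coeff_add, Polynomial.coeff_mul_C, ← mul_assoc,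
    Polynomial.coeff_mul_C, map_add, map_mul, map_mul, pderiv_map]
  have hCα : ∀ r : A, ψ (C r) = φ r := by intro r; simp [hψ]
  rw [hCα, hCα, hon, pderiv_map]
  rcases j with _ | j
  · rw [Polynomial.coeff_mul_X_zero, map_zero, if_pos rfl]; ring
  · rw [Polynomial.coeff_mul_X, if_neg (Nat.succ_ne_zero j), hon, Nat.add_sub_cancel]; ring

end Pool.Agent.WL
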