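import Pool.Agent.WL.Targets2

set_option autoImplicit false

/-!
# Good points form an open set
-/

open MvPolynomial

namespace Pool.Agent.WL

namespace GOOD_

variable {K : Type} [Field K] {n : ℕ}

/-- The coefficients of the form on the universal line. -/
noncomputable def H (F : MvPolynomial (Fin (n + 1)) K) (j : ℕ) :
    MvPolynomial (Fin (n + 1)) (MvPolynomial (Fin (n + 1)) K) :=
  (onLine ((F.map C).map C) (fun i => C (X i)) (fun i => X i)).coeff j

/-- The minors on the universal line. -/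
noncomputable def Mi (F : MvPolynomial (Fin (n + 1)) K) (d : ℕ) (S : Fin d → Fin (n + 1)) :
    MvPolynomial (Fin (n + 1)) (MvPolynomial (Fin (n + 1)) K) :=
  dminor ((F.map C).map C) d (fun i => C (X i)) (fun i => X i) S

theorem map_FF {M : Type} [Field M] (F : MvPolynomial (Fin (n + 1)) K)
    (ψ : MvPolynomial (Fin (n + 1)) K →+* M) (w : Fin (n + 1) → M) :
    (((F.map C).map C : MvPolynomial (Fin (n + 1)) (MvPolynomial (Fin (n + 1))
      (MvPolynomial (Fin (n + 1)) K)))).map (eval₂Hom ψ w) = F.map (ψ.comp C) := by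
  rw [MvPolynomial.map_map, eval₂Hom_comp_C, MvPolynomial.map_map]

theorem eval_H {M : Type} [Field M] (F : MvPolynomial (Fin (n + 1)) K)
    (ψ : MvPolynomial (Fin (n + 1)) K →+* M) (w : Fin (n + 1) → M) (j : ℕ) :
    eval₂Hom ψ w (H F j) = (onLine (F.map (ψ.comp C)) (fun i => ψ (X i)) w).coeff j := by
  have h := onLine_map (eval₂Hom ψ w)
    ((F.map C).map C : MvPolynomial (Fin (n + 1)) (MvPolynomial (Fin (n + 1))
      (MvPolynomial (Fin (n + 1)) K))) (fun i => C (X i)) (fun i => X i)
  rw [map_FF] at h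
  simp only [eval₂Hom_C, eval₂Hom_X'] at h
  rw [h, Polynomial.coeff_map]
  rfl

theorem eval_Mi {M : Type} [Field M] (F : MvPolynomial (Fin (n + 1)) K)
    (ψ : MvPolynomial (Fin (n + 1)) K →+* M) (w : Fin (n + 1) → M) (d : ℕ)
    (S : Fin d → Fin (n + 1)) :
    eval₂Hom ψ w (Mi F d S) = dminor (F.map (ψ.comp C)) d (fun i => ψ (X i)) w S := by
  have h := dminor_map (eval₂Hom ψ w)
    ((F.map C).map C : MvPolynomial (Fin (n + 1)) (MvPolynomial (Fin (n + 1))
      (MvPolynomial (Fin (n + 1)) K))) d (fun i => C (X i)) (fun i => X i) S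
  rw [map_FF] at h
  simp only [eval₂Hom_C, eval₂Hom_X'] at h
  exact h.symm

/-- The index set of the equations. -/
abbrev Ix (n d : ℕ) : Type := Fin (d + 1) ⊕ ((Fin d → Fin (n + 1)) ⊕ Unit)

/-- The equations. -/
noncomputable def eqn (F : MvPolynomial (Fin (n + 1)) K) (d : ℕ) (a : Fin (n + 1)) :
    Ix n d → MvPolynomial (Fin (n + 1)) (MvPolynomial (Fin (n + 1)) K) :=
  Sum.elim (fun j => H F j) (Sum.elim (fun S => Mi F d S) fun _ => X a)

/-- Their degrees. -/
def dgr (n d : ℕ) : Ix n d → ℕ :=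
  Sum.elim (fun j => (j : ℕ)) (Sum.elim (fun _ => d * (d - 1) / 2) fun _ => 1)

theorem hom_eqn (h2 : T_HOMJ) (F : MvPolynomial (Fin (n + 1)) K) (d : ℕ) (a : Fin (n + 1))
    (i : Ix n d) : (eqn F d a i).IsHomogeneous (dgr n d i) := by
  obtain ⟨e1, e2⟩ := h2 (Fin (n + 1)) (MvPolynomial (Fin (n + 1)) K)
    (F.map (C : K →+* MvPolynomial (Fin (n + 1)) K)) (fun i => X i)
  rcases i with j | S | u
  · exact e1 j
  · exact e2 d S
  · exact isHomogeneous_X _ a

end GOOD_

open GOOD_ in
/-- GOOD. -/
theorem p_GOOD (h1 : T_ELIM) (h2 : T_HOMJ) (h3 : T_DEG) (h4 : T_TRI) : T_GOOD := by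
  intro K _ n d F _ hF M _ _ _ x₀ hx₀ _ hfree
  obtain ⟨a, ha⟩ : ∃ a, x₀ a ≠ 0 := by
    by_contra h
    push Not at h
    exact hx₀ (funext h)
  have hF' : ∀ {M' : Type} [Field M'] (φ : K →+* M'), (F.map φ).IsHomogeneous d := fun φ =>
    hF.map φ
  obtain ⟨Δ, N, hΔ, hspan⟩ := h1 K (Fin (n + 1)) (Fin (n + 1)) M x₀ (Ix n d) (eqn F d a)
    (dgr n d) (hom_eqn h2 F d a) (by
      intro w hw
      set ψ : MvPolynomial (Fin (n + 1)) K →+* M :=
        (aeval x₀ : MvPolynomial (Fin (n + 1)) K →ₐ[K] M).toRingHom with hψ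
      have hψC : ψ.comp C = algebraMap K M := by
        ext c
        simp [hψ]
      have hψX : (fun i => ψ (X i)) = x₀ := by
        funext i
        simp [hψ]
      have hw' : ∀ i, eval₂Hom ψ w (eqn F d a i) = 0 := hw
      have hcoef : ∀ j : Fin (d + 1),
          (onLine (F.map (algebraMap K M)) x₀ w).coeff j = 0 := by
        intro j
        have h := hw' (Sum.inl j)
        change eval₂Hom ψ w (H F j) = 0 at h
        rw [eval_H, hψC, hψX] at h
        exact h
      have hmin : ∀ S, dminor (F.map (algebraMap K M)) d x₀ w S = 0 := by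
        intro S
        have h := hw' (Sum.inr (Sum.inl S))
        change eval₂Hom ψ w (Mi F d S) = 0 at h
        rw [eval_Mi, hψC, hψX] at h
        exact h
      have hwa : w a = 0 := by
        have h := hw' (Sum.inr (Sum.inr ()))
        change eval₂Hom ψ w (X a) = 0 at h
        rwa [eval₂Hom_X'] at h
      have hline : onLine (F.map (algebraMap K M)) x₀ w = 0 := by
        ext j
        rw [Polynomial.coeff_zero]
        by_cases hj : j ≤ d
        · exact hcoef ⟨j, by omega⟩
        · have hd := (h3 _ M (F.map (algebraMap K M)) d (hF' _) x₀ w).1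
          exact Polynomial.coeff_eq_zero_of_natDegree_lt (by omega)
      by_cases hc : ∀ c : M, w ≠ c • x₀
      · obtain ⟨S, hS⟩ := hfree w hline hc
        exact absurd (hmin S) hS
      · push Not at hc
        obtain ⟨c, hc⟩ := hc
        rw [hc] at hwa
        rw [Pi.smul_apply, smul_eq_mul] at hwa
        rcases mul_eq_zero.1 hwa with h | h
        · rw [hc, h, zero_smul]
        · exact absurd h ha)
  refine ⟨X a * Δ, ?_, ?_⟩
  · rw [map_mul, aeval_X]
    exact mul_ne_zero ha hΔ
  · intro M' _ φ x hx w hline hne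
    by_contra hno
    push Not at hno
    set ψ : MvPolynomial (Fin (n + 1)) K →+* M' := eval₂Hom φ x with hψ
    have hψC : ψ.comp C = φ := eval₂Hom_comp_C _ _
    have hψX : (fun i => ψ (X i)) = x := by
      funext i
      rw [hψ, eval₂Hom_X']
    have hxΔ : ψ (X a * Δ) ≠ 0 := hx
    rw [map_mul] at hxΔ
    have hxa : x a ≠ 0 := by
      have h := left_ne_zero_of_mul hxΔ
      rwa [hψ, eval₂Hom_X'] at h
    have hΔ' : ψ Δ ≠ 0 := right_ne_zero_of_mul hxΔ
    set w' : Fin (n + 1) → M' := fun i => (-w a) * x i + x a * w i with hw'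
    obtain ⟨t1, t2⟩ := h4 _ M' (F.map φ) d (hF' φ) x w (-w a) (x a)
    have hker : ∀ i, eval₂Hom ψ w' (eqn F d a i) = 0 := by
      intro i
      rcases i with j | S | u
      · change eval₂Hom ψ w' (H F j) = 0
        rw [eval_H, hψC, hψX, hw', t1]
        refine Finset.sum_eq_zero fun i _ => ?_
        rw [hline, Polynomial.coeff_zero, mul_zero]
      · change eval₂Hom ψ w' (Mi F d S) = 0
        rw [eval_Mi, hψC, hψX, hw', t2, hno S, mul_zero]
      · change eval₂Hom ψ w' (X a) = 0
        rw [eval₂Hom_X', hw']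
        ring
    have hle : Ideal.span (Set.range (eqn F d a)) ≤ RingHom.ker (eval₂Hom ψ w') := by
      rw [Ideal.span_le]
      rintro _ ⟨i, rfl⟩
      exact hker i
    have hzero : ∀ b, w' b = 0 := by
      intro b
      have h := hle (hspan b)
      rw [RingHom.mem_ker, map_mul, map_pow, eval₂Hom_C, eval₂Hom_X'] at h
      rcases mul_eq_zero.1 h with h | h
      · exact absurd h hΔ'
      · by_contra hb
        exact pow_ne_zero N hb h
    refine hne (w a / x a) ?_
    funext b
    have h := hzero b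
    rw [hw'] at h
    simp only at h
    rw [Pi.smul_apply, smul_eq_mul]
    field_simp
    linear_combination h

end Pool.Agent.WL
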