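import Pool.Agent.WL.Targets2

set_option autoImplicit false

/-!
# IRR: smooth forms are irreducible
-/

namespace Pool.Agent.WL

namespace IRR_

open MvPolynomial

variable {K σ : Type} [Field K]

theorem low_part (G : MvPolynomial σ K) (hG : 1 ≤ G.totalDegree) :
    (G - homogeneousComponent G.totalDegree G).totalDegree ≤ G.totalDegree - 1 := by
  have h1 : G - homogeneousComponent G.totalDegree G =
      ∑ i ∈ Finset.range G.totalDegree, homogeneousComponent i G := by
    have h2 := sum_homogeneousComponent G
    rw [Finset.sum_range_succ] at h2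
    rw [sub_eq_iff_eq_add]
    exact h2.symm
  rw [h1]
  refine totalDegree_finsetSum_le fun i hi => ?_
  have h3 := (homogeneousComponent_isHomogeneous i G).totalDegree_le
  have h4 := Finset.mem_range.1 hi
  omega

theorem top_mul (G H : MvPolynomial σ K) (hG : 1 ≤ G.totalDegree) (hH : 1 ≤ H.totalDegree)
    (hF : (G * H).IsHomogeneous (G.totalDegree + H.totalDegree)) :
    G * H = homogeneousComponent G.totalDegree G * homogeneousComponent H.totalDegree H := by
  set Gt := homogeneousComponent G.totalDegree G with hGt
  set Ht := homogeneousComponent H.totalDegree H with hHt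
  have h1 : Gt.IsHomogeneous G.totalDegree := homogeneousComponent_isHomogeneous _ _
  have h2 : Ht.IsHomogeneous H.totalDegree := homogeneousComponent_isHomogeneous _ _
  have h3 : (G * H - Gt * Ht).IsHomogeneous (G.totalDegree + H.totalDegree) :=
    hF.sub (h1.mul h2)
  by_contra hne
  have h4 : G * H - Gt * Ht ≠ 0 := sub_ne_zero.2 hne
  have h5 := h3.totalDegree h4
  have h6 : G * H - Gt * Ht = Gt * (H - Ht) + (G - Gt) * H := by ring
  have h7 : (G * H - Gt * Ht).totalDegree ≤ G.totalDegree + H.totalDegree - 1 := by
    rw [h6]
    refine (totalDegree_add _ _).trans (max_le ?_ ?_)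
    · refine (totalDegree_mul _ _).trans ?_
      have h8 := low_part H hH
      rw [← hHt] at h8
      have h9 := h1.totalDegree_le
      omega
    · refine (totalDegree_mul _ _).trans ?_
      have h8 := low_part G hG
      rw [← hGt] at h8
      omega
  omega

end IRR_

open MvPolynomial IRR_ Pool.Agent.WA in
/-- IRR: smooth forms are irreducible -/
theorem p_IRR : T_IRR := by
  intro K _ n d F hd hdn hF hsm
  have hF0 : F ≠ 0 := by
    intro h0
    have h1 := hsm K (fun _ => 1) (by rw [h0]; simp) (fun i => by rw [h0]; simp)
    have h2 := congrFun h1 0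
    exact one_ne_zero h2
  have hFd : F.totalDegree = d := hF.totalDegree hF0
  have hpos : ∀ G : MvPolynomial (Fin (n + 1)) K, G ≠ 0 → ¬ IsUnit G → 1 ≤ G.totalDegree := by
    intro G hG0 hGu
    by_contra hlt
    apply hGu
    have h0 : G.totalDegree = 0 := by omega
    rw [totalDegree_eq_zero_iff_eq_C] at h0
    rw [h0]
    have h1 : G.coeff 0 ≠ 0 := by
      intro h2
      rw [h2, C_0] at h0
      exact hG0 h0
    exact (IsUnit.mk0 _ h1).map C
  constructor
  · intro hu
    have h1 := hFd
    obtain ⟨u, hu'⟩ := hu
    have h2 : F.totalDegree = 0 := by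
      have h3 : F * (↑u⁻¹ : MvPolynomial (Fin (n + 1)) K) = 1 := by
        rw [← hu']; exact u.mul_inv
      have h4 := totalDegree_mul_of_isDomain hF0 (Units.ne_zero u⁻¹)
      rw [h3, totalDegree_one] at h4
      omega
    omega
  · intro G H hGH
    by_contra hcon
    push Not at hcon
    obtain ⟨hGu, hHu⟩ := hcon
    have hG0 : G ≠ 0 := by
      rintro rfl
      rw [zero_mul] at hGH
      exact hF0 hGH
    have hH0 : H ≠ 0 := by
      rintro rfl
      rw [mul_zero] at hGH
      exact hF0 hGH
    have hG1 := hpos G hG0 hGu
    have hH1 := hpos H hH0 hHu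
    have hdeg : G.totalDegree + H.totalDegree = d := by
      rw [← totalDegree_mul_of_isDomain hG0 hH0, ← hGH, hFd]
    have hn : 2 ≤ n := by
      rcases hdn with h | h
      · omega
      · exact h
    have htop := top_mul G H hG1 hH1 (by rw [← hGH, hdeg]; exact hF)
    rw [← hGH] at htop
    set Gt := homogeneousComponent G.totalDegree G with hGt
    set Ht := homogeneousComponent H.totalDegree H with hHt
    have h1 : Gt.IsHomogeneous G.totalDegree := homogeneousComponent_isHomogeneous _ _
    have h2 : Ht.IsHomogeneous H.totalDegree := homogeneousComponent_isHomogeneous _ _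
    let L := AlgebraicClosure K
    obtain ⟨x, hx, hx0⟩ := exists_common_zero (k := L) (σ := Fin (n + 1)) (ι := Bool)
      (fun b => if b then Gt.map (algebraMap K L) else Ht.map (algebraMap K L))
      (fun b => if b then G.totalDegree else H.totalDegree)
      (by rintro (_ | _) <;> simp <;> omega)
      (by
        rintro (_ | _)
        · simpa using h2.map _
        · simpa using h1.map _)
      (by simp; omega)
    have hG : aeval x Gt = 0 := by
      have := hx0 true
      simpa [eval_map, aeval_def] using this
    have hH : aeval x Ht = 0 := by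
      have := hx0 false
      simpa [eval_map, aeval_def] using this
    apply hx
    refine hsm L x ?_ fun i => ?_
    · rw [htop, map_mul, hG, zero_mul]
    · rw [htop, Derivation.leibniz, map_add, smul_eq_mul, smul_eq_mul, map_mul, map_mul, hG, hH,
        zero_mul, zero_mul, add_zero]

end Pool.Agent.WL
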