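import Pool.Agent.WL.Targets2
import Pool.Agent.WA.Smooth

/-!
# Good points in large characteristic

Ultraproducts of algebraically closed fields, as quotients of products.
-/

set_option autoImplicit false

namespace Pool.Agent.WL

open MvPolynomial Filter

namespace LARGE_

section

variable {k : ℕ → Type} [∀ n, Field (k n)] (U : Ultrafilter ℕ)

/-- The ideal of the families vanishing almost everywhere. -/
def zi (k : ℕ → Type) [∀ n, Field (k n)] (U : Ultrafilter ℕ) : Ideal (∀ n, k n) where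
  carrier := {f | ∀ᶠ n in (U : Filter ℕ), f n = 0}
  zero_mem' := Eventually.of_forall fun _ => rfl
  add_mem' := by
    intro a b ha hb
    filter_upwards [ha, hb] with n h1 h2
    rw [Pi.add_apply, h1, h2, add_zero]
  smul_mem' := by
    intro c a ha
    filter_upwards [ha] with n h1
    rw [smul_eq_mul, Pi.mul_apply, h1, mul_zero]

theorem mem_zi (f : ∀ n, k n) : f ∈ zi k U ↔ ∀ᶠ n in (U : Filter ℕ), f n = 0 := Iff.rfl

theorem zi_isMaximal : (zi k U).IsMaximal := by
  rw [Ideal.isMaximal_iff]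
  constructor
  · intro h
    rw [mem_zi] at h
    have h1 : ∀ᶠ _ in (U : Filter ℕ), False := by
      filter_upwards [h] with n hn
      exact one_ne_zero hn
    exact U.neBot.ne (eventually_false_iff_eq_bot.mp h1)
  · intro J x hJ hx hxJ
    have h1 : ∀ᶠ n in (U : Filter ℕ), x n ≠ 0 := by
      rw [mem_zi] at hx
      exact Ultrafilter.eventually_not.mpr hx
    have h2 : (1 - (fun n => (x n)⁻¹) * x : ∀ n, k n) ∈ J := by
      apply hJ
      rw [mem_zi]
      filter_upwards [h1] with n hn
      rw [Pi.sub_apply, Pi.mul_apply, Pi.one_apply, inv_mul_cancel₀ hn, sub_self]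
    have h3 : ((fun n => (x n)⁻¹) * x : ∀ n, k n) ∈ J := J.mul_mem_left _ hxJ
    have h4 := J.add_mem h2 h3
    rwa [sub_add_cancel] at h4

/-- The ultraproduct of a family of fields. -/
theorem exists_up : ∃ (M : Type) (_ : Field M) (cl : (∀ n, k n) →+* M), Function.Surjective cl ∧
    ∀ f, cl f = 0 ↔ ∀ᶠ n in (U : Filter ℕ), f n = 0 := by
  have hmax := zi_isMaximal (k := k) U
  refine ⟨(∀ n, k n) ⧸ zi k U, Ideal.Quotient.field _, Ideal.Quotient.mk _,
    Ideal.Quotient.mk_surjective, ?_⟩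
  intro f
  rw [Ideal.Quotient.eq_zero_iff_mem, mem_zi]

/-- The evaluation at an index. -/
def ev (k : ℕ → Type) [∀ n, Field (k n)] (n : ℕ) : (∀ n, k n) →+* k n := Pi.evalRingHom k n

theorem ev_apply (n : ℕ) (x : ∀ n, k n) : ev k n x = x n := rfl

end

section

variable {k : ℕ → Type} [∀ n, Field (k n)] {U : Ultrafilter ℕ} {M : Type} [Field M]
  {cl : (∀ n, k n) →+* M} (hs : Function.Surjective cl)
  (h0 : ∀ f, cl f = 0 ↔ ∀ᶠ n in (U : Filter ℕ), f n = 0)

include h0 in
theorem cl_eq (f g : ∀ n, k n) : cl f = cl g ↔ ∀ᶠ n in (U : Filter ℕ), f n = g n := by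
  rw [← sub_eq_zero, ← map_sub, h0]
  constructor
  · intro h
    filter_upwards [h] with n hn
    exact sub_eq_zero.mp hn
  · intro h
    filter_upwards [h] with n hn
    exact sub_eq_zero.mpr hn

include h0 in
theorem up_charZero (p : ℕ → ℕ) (hp : ∀ n, n < p n) (hchar : ∀ n, CharP (k n) (p n))
    (hU : ∀ m, ∀ᶠ n in (U : Filter ℕ), m ≤ n) : CharZero M := by
  apply charZero_of_inj_zero
  intro m hm
  have h1 : cl ((m : ∀ n, k n)) = 0 := by
    rw [map_natCast]
    exact hm
  rw [h0] at h1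
  by_contra hne
  obtain ⟨n, hn1, hn2⟩ := (h1.and (hU m)).exists
  rw [Pi.natCast_apply] at hn1
  have := hchar n
  rw [CharP.cast_eq_zero_iff (k n) (p n)] at hn1
  have h2 := Nat.le_of_dvd (Nat.pos_of_ne_zero hne) hn1
  have h3 := hp n
  omega

include hs in
theorem up_algClosed [∀ n, IsAlgClosed (k n)] : IsAlgClosed M := by
  apply IsAlgClosed.of_exists_root
  intro f hf hirr
  have hlift : f ∈ Polynomial.lifts cl := by
    rw [Polynomial.lifts_iff_coeff_lifts]
    intro i
    exact hs _
  obtain ⟨g, hg1, hg2, hg3⟩ := Polynomial.lifts_and_natDegree_eq_and_monic hlift hf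
  have hdeg : 0 < f.natDegree := hirr.natDegree_pos
  have hroot : ∀ n, ∃ a : k n, (g.map (ev k n)).eval a = 0 := by
    intro n
    obtain ⟨a, ha⟩ := IsAlgClosed.exists_root (g.map (ev k n)) (by
      rw [Polynomial.degree_eq_natDegree (hg3.map _).ne_zero, hg3.natDegree_map, hg2]
      exact_mod_cast hdeg.ne')
    exact ⟨a, ha⟩
  choose a ha using hroot
  refine ⟨cl a, ?_⟩
  rw [← hg1, Polynomial.eval_map_apply]
  have : g.eval a = 0 := by
    funext n
    have h1 := ha n
    have h2 : (g.map (ev k n)).eval (ev k n a) = ev k n (g.eval a) :=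
      Polynomial.eval_map_apply (ev k n) a
    rw [ev_apply, ev_apply, h1] at h2
    exact h2.symm
  rw [this, map_zero]

theorem eval_map_comp {σ A B : Type} [CommRing A] [CommRing B] (φ : A →+* B)
    (g : MvPolynomial σ A) (x : σ → A) : eval (fun i => φ (x i)) (g.map φ) = φ (eval x g) := by
  rw [eval_map, eval₂_comp]
  rfl

include h0 in
theorem eval_cl {σ : Type} (g : MvPolynomial σ (∀ n, k n)) (x : σ → ∀ n, k n) :
    eval (fun i => cl (x i)) (g.map cl) = 0 ↔
      ∀ᶠ n in (U : Filter ℕ), eval (fun i => x i n) (g.map (ev k n)) = 0 := by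
  rw [eval_map_comp, h0]
  refine eventually_congr (Eventually.of_forall fun n => ?_)
  have h : eval (fun i => x i n) (g.map (ev k n)) = (eval x g) n := eval_map_comp (ev k n) g x
  rw [h]

include hs in
theorem lift_vec {σ : Type} (x : σ → M) : ∃ y : σ → ∀ n, k n, x = fun i => cl (y i) := by
  choose y hy using fun i => hs (x i)
  exact ⟨y, funext fun i => (hy i).symm⟩

include h0 in
theorem vec_eq_zero {σ : Type} [Finite σ] (y : σ → ∀ n, k n) :
    (fun i => cl (y i)) = 0 ↔ ∀ᶠ n in (U : Filter ℕ), (fun i => y i n) = 0 := by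
  rw [funext_iff]
  simp only [Pi.zero_apply, h0]
  rw [← eventually_all]
  refine eventually_congr (Eventually.of_forall fun n => ?_)
  rw [funext_iff]
  rfl

/-- Families of forms of the same degree come from forms over the product. -/
theorem exists_form {σ : Type} [Finite σ] (d : ℕ) (F : ∀ n, MvPolynomial σ (k n))
    (hF : ∀ n, (F n).IsHomogeneous d) : ∃ G : MvPolynomial σ (∀ n, k n), G.IsHomogeneous d ∧
      ∀ n, G.map (ev k n) = F n := by
  classical
  have hfin : {μ : σ →₀ ℕ | μ.degree = d}.Finite := by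
    have := Fintype.ofFinite σ
    refine Set.Finite.subset ((Finset.univ : Finset σ).finsuppAntidiag d).finite_toSet ?_
    intro μ hμ
    rw [Finset.mem_coe, Finset.mem_finsuppAntidiag]
    refine ⟨?_, Finset.subset_univ _⟩
    have h1 : μ.degree = d := hμ
    rw [Finsupp.degree_eq_sum] at h1
    exact h1
  refine ⟨∑ μ ∈ hfin.toFinset, monomial μ (fun n => coeff μ (F n)), ?_, ?_⟩
  · apply IsHomogeneous.sum
    intro μ hμ
    apply isHomogeneous_monomial
    simpa using hμ
  · intro n
    rw [map_sum]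
    ext ν
    rw [coeff_sum]
    simp only [map_monomial, coeff_monomial]
    rw [Finset.sum_ite_eq']
    split_ifs with h
    · rfl
    · by_contra hne
      apply h
      rw [Set.Finite.mem_toFinset, Set.mem_ofPred_eq]
      have := hF n (Ne.symm hne)
      rw [← this, Finsupp.degree_eq_weight_one]
      rfl

include hs h0 in
theorem up_smooth {σ : Type} [Finite σ] [IsAlgClosed M]
    (G : MvPolynomial σ (∀ n, k n)) (hG : ∀ n, WA.SmoothForm (G.map (ev k n))) :
    WA.SmoothForm (G.map cl) := by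
  apply WA.smoothForm_of_algebraicClosure
  intro x hx hF
  by_contra hcon
  push Not at hcon
  have hbij := IsAlgClosed.algebraMap_bijective_of_isIntegral (k := M)
    (K := AlgebraicClosure M)
  choose x' hx' using fun i => hbij.2 (x i)
  obtain ⟨y, hy⟩ := lift_vec hs x'
  have hxe : x = (algebraMap M (AlgebraicClosure M)) ∘ x' :=
    funext fun i => (hx' i).symm
  have key : ∀ g : MvPolynomial σ (∀ n, k n), aeval x (g.map cl) = 0 →
      ∀ᶠ n in (U : Filter ℕ), eval (fun i => y i n) (g.map (ev k n)) = 0 := by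
    intro g hg
    rw [← eval_cl h0, ← hy]
    apply hbij.1
    rw [map_zero, ← hg, hxe, MvPolynomial.aeval_algebraMap_apply (AlgebraicClosure M) x']
    rfl
  have h1 := key G hF
  have h2 : ∀ i, ∀ᶠ n in (U : Filter ℕ),
      eval (fun i => y i n) (pderiv i (G.map (ev k n))) = 0 := by
    intro i
    have h3 := key (pderiv i G) (by rw [← pderiv_map]; exact hcon i)
    filter_upwards [h3] with n hn
    rw [pderiv_map]
    exact hn
  have h4 : ∀ᶠ n in (U : Filter ℕ), (fun i => y i n) = 0 := by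
    filter_upwards [h1, eventually_all.mpr h2] with n hn1 hn2
    apply hG n (k n) (fun i => y i n)
    · rw [aeval_eq_eval]
      exact hn1
    · intro i
      rw [aeval_eq_eval]
      exact hn2 i
  rw [← vec_eq_zero h0] at h4
  apply hx
  rw [hxe, hy, h4]
  funext i
  simp

end

/-- Bad lines of the members of a family give bad lines of the ultraproduct. -/
theorem not_allFree {k : ℕ → Type} [∀ n, Field (k n)] {U : Ultrafilter ℕ} {M : Type} [Field M]
    {cl : (∀ n, k n) →+* M} (hs : Function.Surjective cl)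
    (h0 : ∀ f, cl f = 0 ↔ ∀ᶠ n in (U : Filter ℕ), f n = 0) {N d : ℕ}
    (G : MvPolynomial (Fin (N + 1)) (∀ n, k n)) (y : Fin (N + 1) → ∀ n, k n)
    (hbad : ∀ᶠ n in (U : Filter ℕ), ¬ AllFree (G.map (ev k n)) d (fun i => y i n)) :
    ¬ AllFree (G.map cl) d (fun i => cl (y i)) := by
  intro hfree
  have h3 : ∀ᶠ n in (U : Filter ℕ), ∃ w : Fin (N + 1) → k n,
      onLine (G.map (ev k n)) (fun i => y i n) w = 0 ∧ (∀ c : k n, w ≠ c • (fun i => y i n)) ∧
      ∀ S : Fin d → Fin (N + 1), dminor (G.map (ev k n)) d (fun i => y i n) w S = 0 := by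
    filter_upwards [hbad] with n h4
    unfold AllFree at h4
    push Not at h4
    exact h4
  have h5 : ∀ n, ∃ w : Fin (N + 1) → k n, (∃ w : Fin (N + 1) → k n,
      onLine (G.map (ev k n)) (fun i => y i n) w = 0 ∧ (∀ c : k n, w ≠ c • (fun i => y i n)) ∧
      ∀ S : Fin d → Fin (N + 1), dminor (G.map (ev k n)) d (fun i => y i n) w S = 0) →
      onLine (G.map (ev k n)) (fun i => y i n) w = 0 ∧ (∀ c : k n, w ≠ c • (fun i => y i n)) ∧
      ∀ S : Fin d → Fin (N + 1), dminor (G.map (ev k n)) d (fun i => y i n) w S = 0 := by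
    intro n
    by_cases h : ∃ w : Fin (N + 1) → k n,
      onLine (G.map (ev k n)) (fun i => y i n) w = 0 ∧ (∀ c : k n, w ≠ c • (fun i => y i n)) ∧
      ∀ S : Fin d → Fin (N + 1), dminor (G.map (ev k n)) d (fun i => y i n) w S = 0
    · obtain ⟨w, hw⟩ := h
      exact ⟨w, fun _ => hw⟩
    · exact ⟨0, fun h' => absurd h' h⟩
  choose w hw using h5
  have h6 : ∀ᶠ n in (U : Filter ℕ), onLine (G.map (ev k n)) (fun i => y i n) (w n) = 0 ∧
      (∀ c : k n, w n ≠ c • (fun i => y i n)) ∧
      ∀ S : Fin d → Fin (N + 1), dminor (G.map (ev k n)) d (fun i => y i n) (w n) S = 0 := by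
    filter_upwards [h3] with n hn
    exact hw n hn
  let v : Fin (N + 1) → ∀ n, k n := fun i n => w n i
  obtain ⟨S, hS⟩ := hfree (fun i => cl (v i)) (by
    rw [onLine_map]
    ext j
    rw [Polynomial.coeff_map, Polynomial.coeff_zero, h0]
    filter_upwards [h6] with n hn
    have h8 := onLine_map (ev k n) G y v
    have h9 : onLine (G.map (ev k n)) (fun i => ev k n (y i)) (fun i => ev k n (v i)) = 0 :=
      hn.1
    rw [h9] at h8
    have h10 := congrArg (fun q => Polynomial.coeff q j) h8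
    simp only [Polynomial.coeff_zero, Polynomial.coeff_map] at h10
    exact h10.symm) (by
    intro c hc
    obtain ⟨c', rfl⟩ := hs c
    have h7 : ∀ i, ∀ᶠ n in (U : Filter ℕ), w n i = c' n * y i n := by
      intro i
      have h8 := congrFun hc i
      rw [Pi.smul_apply, smul_eq_mul, ← map_mul, cl_eq h0] at h8
      exact h8
    obtain ⟨n, hn1, hn2⟩ := ((eventually_all.mpr h7).and h6).exists
    apply hn2.2.1 (c' n)
    funext i
    rw [hn1 i]
    rfl)
  apply hS
  rw [dminor_map, h0]
  filter_upwards [h6] with n hn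
  have h8 := dminor_map (ev k n) G d y v S
  have h9 : dminor (G.map (ev k n)) d (fun i => ev k n (y i)) (fun i => ev k n (v i)) S = 0 :=
    hn.2.2 S
  rw [h9] at h8
  exact h8.symm

/-- The argument for a family. -/
theorem family (h1 : T_CHAR0) (k : ℕ → Type) [∀ n, Field (k n)] [∀ n, IsAlgClosed (k n)]
    (p : ℕ → ℕ) (hp : ∀ n, n < p n) (hchar : ∀ n, CharP (k n) (p n)) (N d : ℕ) (hN : 1 ≤ N)
    (hd : 1 ≤ d) (hNd : d = 1 ∨ 2 ≤ N) (F : ∀ n, MvPolynomial (Fin (N + 1)) (k n))
    (hF : ∀ n, (F n).IsHomogeneous d) (hsm : ∀ n, WA.SmoothForm (F n))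
    (hbad : ∀ n, ∀ x : Fin (N + 1) → k n, x ≠ 0 → eval x (F n) = 0 → ¬ AllFree (F n) d x) :
    False := by
  obtain ⟨G, hG, hGF⟩ := exists_form d F hF
  let U : Ultrafilter ℕ := hyperfilter ℕ
  have hU : ∀ m, ∀ᶠ n in (U : Filter ℕ), m ≤ n := by
    intro m
    have : (U : Filter ℕ) ≤ atTop := Nat.hyperfilter_le_atTop
    exact this (eventually_ge_atTop m)
  obtain ⟨M, hM, cl, hs, h0⟩ := exists_up (k := k) U
  have hc0 : CharZero M := up_charZero h0 p hp hchar hU
  have hac : IsAlgClosed M := up_algClosed hs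
  have hsm' : WA.SmoothForm (G.map cl) := up_smooth hs h0 G (by
    intro n
    rw [hGF n]
    exact hsm n)
  obtain ⟨x, hx0, hxF, hfree⟩ := h1 M N d (G.map cl) hN hd hNd (hG.map _) hsm'
  obtain ⟨y, rfl⟩ := lift_vec hs x
  rw [Ne, vec_eq_zero h0] at hx0
  rw [eval_cl h0] at hxF
  have h2 : ∀ᶠ n in (U : Filter ℕ), (fun i => y i n) ≠ 0 := Ultrafilter.eventually_not.mpr hx0
  refine not_allFree hs h0 G y ?_ hfree
  filter_upwards [h2, hxF] with n hn1 hn2
  rw [hGF n] at hn2 ⊢
  exact hbad n _ hn1 hn2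

end LARGE_

theorem p_LARGE (h1 : T_CHAR0) : T_LARGE := by
  intro N d hN hd hNd
  by_contra hcon
  push Not at hcon
  choose p hpF hp k hk hkcl hkchar F hhom hsm hbad using hcon
  exact LARGE_.family h1 k p hp hkchar N d hN hd hNd F hhom hsm hbad

end Pool.Agent.WL
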