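import Pool.Agent.WL.Targets

/-!
# The count of the arcs that have contact with a given point
-/

set_option autoImplicit false

open MvPolynomial

namespace Pool.Agent.WL

namespace LOSS_

lemma dvd_cancel {L : Type} [Field L] {N m : ℕ} {f : PowerSeries L}
    (h : (PowerSeries.X : PowerSeries L) ^ N ∣ PowerSeries.X ^ m * f) :
    (PowerSeries.X : PowerSeries L) ^ (N - m) ∣ f := by
  rcases le_or_gt m N with hm | hm
  · have e1 : (PowerSeries.X : PowerSeries L) ^ N = PowerSeries.X ^ m * PowerSeries.X ^ (N - m) := by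
      rw [← pow_add]
      congr 1
      omega
    rw [e1] at h
    exact (mul_dvd_mul_iff_left (pow_ne_zero m PowerSeries.X_ne_zero)).1 h
  · have e1 : N - m = 0 := by omega
    rw [e1, pow_zero]
    exact one_dvd f

lemma up_eval {E L : Type} [Field E] [Field L] [Algebra E L] {σ : Type}
    (G : MvPolynomial σ (PowerSeries E)) (y : σ → PowerSeries E) :
    eval (fun i => up E L (y i)) (G.map (up E L)) = up E L (eval y G) := by
  rw [eval_map]
  exact (eval₂_comp (up E L) y G).symm

lemma upF_upF {k E L : Type} [Field k] [Field E] [Field L] [Algebra k E] [Algebra k L]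
    [Algebra E L] [IsScalarTower k E L] {σ : Type} (F : MvPolynomial σ (PowerSeries k)) :
    (upF E F).map (up E L) = upF L F := by
  have e : (up E L).comp (up k E) = up k L := by
    refine RingHom.ext fun f => PowerSeries.ext fun a => ?_
    unfold up
    rw [RingHom.comp_apply, PowerSeries.coeff_map, PowerSeries.coeff_map, PowerSeries.coeff_map,
      ← IsScalarTower.algebraMap_apply]
  unfold upF
  rw [MvPolynomial.map_map, e]

/-- all coefficients -/
lemma all_coeff {E L : Type} [Field E] [Field L] [Algebra E L] (n N : ℕ)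
    (x : Fin (n + 1) → PowerSeries L) : ∃ T : Finset L, T.card ≤ (n + 1) * N ∧
    ∀ i, ∀ b < N, PowerSeries.coeff b (x i) ∈ IntermediateField.adjoin E (T : Set L) := by
  classical
  refine ⟨(Finset.univ ×ˢ Finset.range N).image
    (fun p : Fin (n + 1) × ℕ => PowerSeries.coeff p.2 (x p.1)), ?_, ?_⟩
  · refine Finset.card_image_le.trans ?_
    rw [Finset.card_product, Finset.card_range, Finset.card_univ, Fintype.card_fin]
  · intro i b hb
    apply IntermediateField.subset_adjoin
    rw [Finset.mem_coe, Finset.mem_image]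
    exact ⟨(i, b), by simp [hb], rfl⟩

lemma const_mul_ne {L : Type} [Field L] {f g : PowerSeries L}
    (hf : PowerSeries.constantCoeff f ≠ 0) (hg : PowerSeries.constantCoeff g ≠ 0) :
    PowerSeries.constantCoeff (f * g) ≠ 0 := by
  rw [map_mul]
  exact mul_ne_zero hf hg

lemma const_of_dvd {L : Type} [Field L] {C : ℕ} (hC : 1 ≤ C) {f : PowerSeries L}
    (h : (PowerSeries.X : PowerSeries L) ^ C ∣ f) : PowerSeries.constantCoeff f = 0 := by
  rw [← PowerSeries.X_dvd_iff]
  exact (dvd_pow_self _ (by omega)).trans h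

lemma const_up {E L : Type} [Field E] [Field L] [Algebra E L] (f : PowerSeries E) :
    PowerSeries.constantCoeff (up E L f) = algebraMap E L (PowerSeries.constantCoeff f) := by
  rw [← PowerSeries.coeff_zero_eq_constantCoeff_apply, ← PowerSeries.coeff_zero_eq_constantCoeff_apply]
  unfold up
  rw [PowerSeries.coeff_map]

lemma const_up_ne {E L : Type} [Field E] [Field L] [Algebra E L] {f : PowerSeries E} :
    PowerSeries.constantCoeff (up E L f) ≠ 0 ↔ PowerSeries.constantCoeff f ≠ 0 := by
  rw [const_up, Ne, Ne, map_eq_zero_iff _ (algebraMap E L).injective]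

/-- the coefficients of the line in the direction `ζ` -/
lemma line_zeta (h4 : T_TRI) {L σ : Type} [Field L] (F : MvPolynomial σ (PowerSeries L)) (d : ℕ)
    (hF : F.IsHomogeneous d) (x w : σ → PowerSeries L) (α β : PowerSeries L) (P : ℕ)
    (hP : ∀ i ≤ d, (PowerSeries.X : PowerSeries L) ^ P ∣ (onLine F x w).coeff i) (j : ℕ)
    (hj : j ≤ d) : (PowerSeries.X : PowerSeries L) ^ P ∣
      (onLine F x (fun i => α * x i + β * w i)).coeff j := by
  rw [(h4 σ _ F d hF x w α β).1 j]
  refine Finset.dvd_sum fun i hi => ?_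
  rw [Finset.mem_range] at hi
  exact Dvd.dvd.mul_left (hP i (by omega)) _

lemma line_scale (h4 : T_TRI) {L σ : Type} [Field L] (F : MvPolynomial σ (PowerSeries L)) (d : ℕ)
    (hF : F.IsHomogeneous d) (x w : σ → PowerSeries L) (β : PowerSeries L) (j : ℕ) :
    (onLine F x (fun i => β * w i)).coeff j = β ^ j * (onLine F x w).coeff j := by
  have h := (h4 σ _ F d hF x w 0 β).1 j
  have e : (fun i => (0 : PowerSeries L) * x i + β * w i) = fun i => β * w i := by
    funext i
    ring
  rw [e] at h
  rw [h, Finset.sum_eq_single_of_mem j (Finset.self_mem_range_succ j)]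
  · rw [Nat.sub_self, Nat.choose_zero_right]
    simp
  · intro i hi hij
    rw [Finset.mem_range] at hi
    have : j - i ≠ 0 := by omega
    rw [zero_pow this]
    ring

end LOSS_

open LOSS_ in
/-- LOSS -/
theorem p_LOSS (h1 : T_CNT) (h2 : T_CNT2) (h3 : T_CNT3) (h4 : T_TRI) (h5 : T_DEG) : T_LOSS := by
  intro k _ n d F x₀ a hd hdn hF hx₀ hfree
  classical
  obtain ⟨C0, hC0⟩ := hfree
  -- `FreeNear` with a positive number
  have hfr : ∀ (L : Type) [Field L] [Algebra k L] (x w : Fin (n + 1) → PowerSeries L),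
      (∀ i, (PowerSeries.X : PowerSeries L) ^ (C0 + 1) ∣ x i - up k L (x₀ i)) →
      (∃ i j, PowerSeries.constantCoeff (x i * w j - x j * w i) ≠ 0) →
      (∀ j ≤ d, (PowerSeries.X : PowerSeries L) ^ (C0 + 1) ∣ (onLine (upF L F) x w).coeff j) →
      ∃ S : Fin d → Fin (n + 1), (∀ l, S l ≠ a) ∧
        ¬ (PowerSeries.X : PowerSeries L) ^ (C0 + 1) ∣ dminor (upF L F) d x w S := by
    intro L _ _ x w g1 g2 g3
    have hp : (PowerSeries.X : PowerSeries L) ^ C0 ∣ PowerSeries.X ^ (C0 + 1) :=
      pow_dvd_pow _ (Nat.le_succ _)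
    obtain ⟨S, hS1, hS2⟩ := hC0 L x w (fun i => hp.trans (g1 i)) g2
      (fun j hj => hp.trans (g3 j hj))
    exact ⟨S, hS1, fun h => hS2 (hp.trans h)⟩
  refine ⟨2 * d * (C0 + 1), ?_⟩
  intro E L _ _ _ _ _ _ N g x y hx hy hyF hj
  have hdd : d * d ≤ n := by rw [← sq]; exact hdn
  have hFL : (upF L F).IsHomogeneous d := hF.map _
  -- closeness with exponent `C0 + 1`
  have hC1 : C0 + 1 ≤ 2 * d * (C0 + 1) := by nlinarith
  have hx1 : ∀ i, (PowerSeries.X : PowerSeries L) ^ (C0 + 1) ∣ x i - up k L (x₀ i) := fun i =>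
    (pow_dvd_pow _ hC1).trans (hx i)
  have hxa : PowerSeries.constantCoeff (x a) ≠ 0 := by
    have h6 := const_of_dvd (by omega) (hx1 a)
    rw [map_sub, sub_eq_zero] at h6
    rw [h6]
    exact const_up_ne.2 hx₀
  -- the form vanishes at `y`
  have hyL : eval (fun i => up E L (y i)) (upF L F) = 0 := by
    rw [← upF_upF (E := E) F, up_eval, hyF, map_zero]
  have hd0 : (onLine (upF L F) x (fun i => up E L (y i))).coeff d = 0 := by
    rw [(h5 _ _ (upF L F) d hFL x _).2.2, hyL]
  -- contact with exponent `N - d * g`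
  have hcon : ∀ j ≤ d, (PowerSeries.X : PowerSeries L) ^ (N - d * g) ∣
      (onLine (upF L F) x (fun i => up E L (y i))).coeff j := by
    intro j hjd
    rcases hjd.lt_or_eq with hlt | heq
    · refine (pow_dvd_pow _ ?_).trans (dvd_cancel (hj j hlt))
      have : j * g ≤ d * g := Nat.mul_le_mul_right g hlt.le
      omega
    · rw [heq, hd0]
      exact dvd_zero _
  have hgn : d * (d * g) ≤ n * g := by
    rw [← mul_assoc]
    exact Nat.mul_le_mul_right g hdd
  rcases Nat.eq_zero_or_pos N with hN0 | hNpos
  · refine ⟨∅, ?_, ?_⟩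
    · rw [hN0, Finset.card_empty]
      simp
    · intro i b hb
      omega
  -- the differences
  set ζ : Fin (n + 1) → PowerSeries L := fun i => x a * up E L (y i) - up E L (y a) * x i with hζ
  have hζtri : ζ = fun i => (-up E L (y a)) * x i + x a * up E L (y i) := by
    funext i
    rw [hζ]
    ring
  have hP0 : (fun e : ℕ => ∀ i, (PowerSeries.X : PowerSeries L) ^ e ∣ ζ i) 0 := fun i => by
    simp
  obtain ⟨e, he⟩ : ∃ e, e = Nat.findGreatest
      (fun e : ℕ => ∀ i, (PowerSeries.X : PowerSeries L) ^ e ∣ ζ i) N := ⟨_, rfl⟩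
  have heP : ∀ i, (PowerSeries.X : PowerSeries L) ^ e ∣ ζ i := by
    have := Nat.findGreatest_spec (P := fun e : ℕ => ∀ i, (PowerSeries.X : PowerSeries L) ^ e ∣ ζ i)
      (Nat.zero_le N) hP0
    rw [← he] at this
    exact this
  have heN : e ≤ N := by
    rw [he]
    exact Nat.findGreatest_le N
  have hemax : e < N → ∃ i, ¬ (PowerSeries.X : PowerSeries L) ^ (e + 1) ∣ ζ i := by
    intro hlt
    have := Nat.findGreatest_is_greatest (P := fun e : ℕ => ∀ i,
      (PowerSeries.X : PowerSeries L) ^ e ∣ ζ i) (n := N) (k := e + 1) (by omega) (by omega)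
    push Not at this
    exact this
  rcases Nat.eq_zero_or_pos e with he0 | hepos
  · -- the case `e = 0`
    rcases le_or_gt (d * g + (C0 + 1)) N with hbig | hsmall
    · obtain ⟨P, hP⟩ : ∃ P, N = P + d * g := ⟨N - d * g, by omega⟩
      have hPN : N - d * g = P := by omega
      rw [hPN] at hcon
      obtain ⟨b, hb⟩ := hemax (by omega)
      rw [he0, zero_add, pow_one, PowerSeries.X_dvd_iff] at hb
      obtain ⟨S, hS1, hS2⟩ := hfr L x (fun i => up E L (y i)) hx1
        ⟨a, b, by
          have e2 : x a * up E L (y b) - x b * up E L (y a) = ζ b := by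
            rw [hζ]
            ring
          rw [e2]
          exact hb⟩
        (fun j hjd => (pow_dvd_pow _ (by omega)).trans (hcon j hjd))
      obtain ⟨T, hT1, hT2⟩ := h1 k E L n d N P C0 F x y S (by omega)
        (fun j hjd => hcon j hjd.le) hS2
      refine ⟨T, ?_, hT2⟩
      rw [hP] at hT1 ⊢
      nlinarith
    · obtain ⟨T, hT1, hT2⟩ := all_coeff (E := E) n N x
      refine ⟨T, ?_, hT2⟩
      have h7 : d * N ≤ d * (d * g + (C0 + 1)) := Nat.mul_le_mul_left d hsmall.le
      nlinarith
  · -- the case `e ≥ 1`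
    have hya : PowerSeries.constantCoeff (y a) ≠ 0 := by
      intro hc
      obtain ⟨b, hb⟩ := hy
      have h8 := const_of_dvd hepos (heP b)
      rw [hζ] at h8
      simp only [map_sub, map_mul] at h8
      have h9 : PowerSeries.constantCoeff (up E L (y a)) = 0 := by
        rw [const_up, hc, map_zero]
      rw [h9, zero_mul, sub_zero] at h8
      exact mul_ne_zero hxa (const_up_ne.2 hb) h8
    choose η hη using heP
    have hη' : ∀ i, x a * up E L (y i) - up E L (y a) * x i = PowerSeries.X ^ e * η i := fun i =>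
      hη i
    have hnee : d * (d * e) ≤ n * e := by
      rw [← mul_assoc]
      exact Nat.mul_le_mul_right e hdd
    rcases le_or_gt (d * (e + g) + (C0 + 1)) N with hbig | hsmall
    · obtain ⟨P, hP⟩ : ∃ P, N = P + d * (e + g) := ⟨N - d * (e + g), by omega⟩
      have hde : e ≤ d * e := Nat.le_mul_of_pos_left e hd
      have hdeg : d * (e + g) = d * e + d * g := by ring
      -- contact of `η`
      have hcη : ∀ j ≤ d, (PowerSeries.X : PowerSeries L) ^ P ∣
          (onLine (upF L F) x η).coeff j := by
        intro j hjd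
        have h10 := line_zeta h4 (upF L F) d hFL x (fun i => up E L (y i)) (-up E L (y a)) (x a)
          (N - d * g) hcon j hjd
        rw [← hζtri] at h10
        have h11 : ζ = fun i => PowerSeries.X ^ e * η i := by
          funext i
          exact hη i
        rw [h11, line_scale h4 (upF L F) d hFL, ← pow_mul] at h10
        refine (pow_dvd_pow _ ?_).trans (dvd_cancel h10)
        have : e * j ≤ d * e := by rw [mul_comm]; exact Nat.mul_le_mul_right e hjd
        omega
      obtain ⟨b, hb⟩ := hemax (by omega)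
      have hηb : PowerSeries.constantCoeff (η b) ≠ 0 := by
        intro hc
        apply hb
        rw [hη b, pow_succ]
        exact mul_dvd_mul_left _ (PowerSeries.X_dvd_iff.2 hc)
      have hηa : η a = 0 := by
        have h12 := hη' a
        have h13 : (PowerSeries.X : PowerSeries L) ^ e * η a = 0 := by
          rw [← h12]
          ring
        exact (mul_eq_zero.1 h13).resolve_left (pow_ne_zero e PowerSeries.X_ne_zero)
      obtain ⟨S, hS1, hS2⟩ := hfr L x η hx1
        ⟨a, b, by
          rw [hηa, mul_zero, sub_zero]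
          exact const_mul_ne hxa hηb⟩
        (fun j hjd => (pow_dvd_pow _ (by omega)).trans (hcη j hjd))
      obtain ⟨T, hT1, hT2⟩ := h2 k E L n d N P C0 e F x η y a S hd hF (by omega) hxa hya hη'
        (fun j _ hjd => hcη j hjd) hS1 hS2
      refine ⟨T, ?_, hT2⟩
      have h14 : d * N = d * P + (d * (d * e) + d * (d * g)) := by
        rw [hP]
        ring
      nlinarith
    · obtain ⟨T, hT1, hT2⟩ := h3 E L n N e x η y a heN hya hη'
      refine ⟨T, ?_, hT2⟩
      have h7 : d * N ≤ d * (d * (e + g) + (C0 + 1)) := Nat.mul_le_mul_left d hsmall.le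
      have h15 : d * (d * (e + g) + (C0 + 1)) = d * (d * e) + d * (d * g) + d * (C0 + 1) := by
        ring
      nlinarith

end Pool.Agent.WL
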