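import Pool.Agent.WL.Targets

/-!
# Coefficients of minors are polynomials in the unknowns
-/

set_option autoImplicit false

open MvPolynomial

namespace Pool.Agent.WL

namespace MINP_

variable {n N M : ℕ} {k A B : Type} [CommRing k] [CommRing A] [CommRing B] [Algebra k A]
  [Algebra k B]

theorem map_xS (φ : A →+* B) (z : Idx n N M → A) (i : Fin (n + 1)) :
    PowerSeries.map φ (xS z i) = xS (fun j => φ (z j)) i := by
  ext a
  rw [PowerSeries.coeff_map, xS, xS, PowerSeries.coeff_mk, PowerSeries.coeff_mk]
  by_cases h : a < N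
  · rw [dif_pos h, dif_pos h]
  · rw [dif_neg h, dif_neg h, map_zero]

theorem map_qS (φ : A →+* B) (z : Idx n N M → A) :
    PowerSeries.map φ (qS z) = qS (fun j => φ (z j)) := by
  ext a
  rw [PowerSeries.coeff_map, qS, qS, PowerSeries.coeff_mk, PowerSeries.coeff_mk]
  by_cases h : a < N
  · rw [dif_pos h, dif_pos h]
  · rw [dif_neg h, dif_neg h, map_zero]

theorem map_map_alg (φ : A →ₐ[k] B) (f : PowerSeries k) :
    PowerSeries.map (φ : A →+* B) (PowerSeries.map (algebraMap k A) f) =
      PowerSeries.map (algebraMap k B) f := by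
  ext a
  simp

theorem map_phiS (φ : A →ₐ[k] B) (e : Fin M → PowerSeries k) (z : Idx n N M → A)
    (i : Fin (n + 1)) :
    PowerSeries.map (φ : A →+* B) (phiS e z i) = phiS e (fun j => φ (z j)) i := by
  rw [phiS, phiS, map_sum]
  apply Finset.sum_congr rfl
  intro b _
  rw [map_mul, PowerSeries.map_C, map_map_alg]
  rfl

theorem map_psiS (φ : A →ₐ[k] B) (e : Fin M → PowerSeries k) (z : Idx n N M → A)
    (i : Fin (n + 1)) :
    PowerSeries.map (φ : A →+* B) (psiS e z i) = psiS e (fun j => φ (z j)) i := by
  ext a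
  rw [PowerSeries.coeff_map, psiS, psiS, PowerSeries.coeff_mk, PowerSeries.coeff_mk,
    ← PowerSeries.coeff_map, map_sub, map_mul, map_phiS, map_xS, map_qS]
  rfl

theorem map_minor (φ : A →ₐ[k] B) (d : ℕ) (F : MvPolynomial (Fin (n + 1)) (PowerSeries k))
    (e : Fin M → PowerSeries k) (S : Fin d → Fin (n + 1)) (z : Idx n N M → A) :
    PowerSeries.map (φ : A →+* B) (dminor (F.map (PowerSeries.map (algebraMap k A))) d
      (xS z) (psiS e z) S) = dminor (F.map (PowerSeries.map (algebraMap k B))) d
      (xS fun j => φ (z j)) (psiS e fun j => φ (z j)) S := by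
  rw [← dminor_map, MvPolynomial.map_map]
  have h2 : (PowerSeries.map (φ : A →+* B)).comp (PowerSeries.map (algebraMap k A)) =
      PowerSeries.map (algebraMap k B) := by
    ext s : 1
    exact map_map_alg φ s
  have h3 : (fun i => PowerSeries.map (φ : A →+* B) (xS z i)) =
      xS (n := n) fun j => φ (z j) := by
    funext i
    exact map_xS (φ : A →+* B) z i
  have h4 : (fun i => PowerSeries.map (φ : A →+* B) (psiS e z i)) =
      psiS (n := n) e fun j => φ (z j) := by
    funext i
    exact map_psiS φ e z i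
  rw [h2, h3, h4]

theorem coeff_minor (φ : A →ₐ[k] B) (d c : ℕ) (F : MvPolynomial (Fin (n + 1)) (PowerSeries k))
    (e : Fin M → PowerSeries k) (S : Fin d → Fin (n + 1)) (z : Idx n N M → A)
    (z' : Idx n N M → B) (hz : ∀ j, φ (z j) = z' j) :
    φ (PowerSeries.coeff c (dminor (F.map (PowerSeries.map (algebraMap k A))) d
      (xS z) (psiS e z) S)) = PowerSeries.coeff c
      (dminor (F.map (PowerSeries.map (algebraMap k B))) d (xS z') (psiS e z') S) := by
  have hz' : (fun j => φ (z j)) = z' := funext hz
  rw [← hz', ← map_minor, PowerSeries.coeff_map]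
  rfl

end MINP_

open MINP_ in
theorem p_MINP : T_MINP := by
  intro k _ n d N M c F e S
  refine ⟨PowerSeries.coeff c (dminor
    (F.map (PowerSeries.map (algebraMap k (MvPolynomial (Idx n N M) k)))) d
    (xS fun j => (X j : MvPolynomial (Idx n N M) k))
    (psiS e fun j => (X j : MvPolynomial (Idx n N M) k)) S), fun L _ _ z => ?_⟩
  exact coeff_minor (aeval z) d c F e S (fun j => (X j : MvPolynomial (Idx n N M) k)) z
    (fun j => aeval_X z j)

end Pool.Agent.WL
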