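import Pool.Agent.WL.Targets

/-!
# Newton's method over power series for a square system
-/

set_option autoImplicit false

open MvPolynomial

namespace Pool.Agent.WL

namespace NEWT_

variable {k ι : Type} [Field k] [Fintype ι]

lemma eval_sub_dvd (hT : T_TAY) (P : MvPolynomial ι (PowerSeries k)) (u v : ι → PowerSeries k)
    (m : ℕ) (h : ∀ i, (PowerSeries.X : PowerSeries k) ^ m ∣ v i - u i) :
    (PowerSeries.X : PowerSeries k) ^ m ∣ eval v P - eval u P := by
  choose w hw using h
  obtain ⟨r, hr⟩ := hT ι (PowerSeries k) P u w (PowerSeries.X ^ m)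
  have hv : v = fun i => u i + PowerSeries.X ^ m * w i := by
    funext i
    rw [← hw i]
    ring
  rw [← hv] at hr
  rw [hr]
  refine ⟨∑ i, w i * eval u (pderiv i P) + PowerSeries.X ^ m * r, ?_⟩
  ring

lemma det_sub_dvd {d : ℕ} (A B : Matrix (Fin d) (Fin d) (PowerSeries k)) (m : ℕ)
    (h : ∀ i j, (PowerSeries.X : PowerSeries k) ^ m ∣ B i j - A i j) :
    (PowerSeries.X : PowerSeries k) ^ m ∣ B.det - A.det := by
  rw [← Ideal.mem_span_singleton, ← Ideal.Quotient.mk_eq_mk_iff_sub_mem, RingHom.map_det,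
    RingHom.map_det]
  congr 1
  ext i j
  simp only [RingHom.mapMatrix_apply, Matrix.map_apply]
  rw [Ideal.Quotient.mk_eq_mk_iff_sub_mem, Ideal.mem_span_singleton]
  exact h i j

/-- A power series that is not divisible by `X ^ (c + 1)`. -/
lemma exists_unit (c : ℕ) : ∀ f : PowerSeries k,
    ¬ (PowerSeries.X : PowerSeries k) ^ (c + 1) ∣ f →
    ∃ (v : ℕ) (w w' : PowerSeries k), v ≤ c ∧ f = PowerSeries.X ^ v * w ∧ w * w' = 1 := by
  induction c with
  | zero =>
    intro f h
    rw [zero_add, pow_one, PowerSeries.X_dvd_iff] at h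
    exact ⟨0, f, f⁻¹, le_rfl, by simp, PowerSeries.mul_inv_cancel f h⟩
  | succ c ih =>
    intro f h
    by_cases hX : (PowerSeries.X : PowerSeries k) ∣ f
    · obtain ⟨g, rfl⟩ := hX
      have hg : ¬ (PowerSeries.X : PowerSeries k) ^ (c + 1) ∣ g := by
        intro hg
        apply h
        rw [pow_succ']
        exact mul_dvd_mul_left _ hg
      obtain ⟨v, w, w', hv, hgw, hw⟩ := ih g hg
      refine ⟨v + 1, w, w', by omega, ?_, hw⟩
      rw [hgw, pow_succ']
      ring
    · rw [PowerSeries.X_dvd_iff] at hX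
      exact ⟨0, f, f⁻¹, Nat.zero_le _, by simp, PowerSeries.mul_inv_cancel f hX⟩

variable [DecidableEq ι]

lemma step (hT : T_TAY) {d c : ℕ} (G : Fin d → MvPolynomial ι (PowerSeries k)) (S : Fin d → ι)
    (M : ℕ) (u : ι → PowerSeries k)
    (hG : ∀ j, (PowerSeries.X : PowerSeries k) ^ (2 * c + 1 + M) ∣ eval u (G j))
    (hJ : ¬ (PowerSeries.X : PowerSeries k) ^ (c + 1) ∣
      (Matrix.of fun j l : Fin d => eval u (pderiv (S l) (G j))).det) :
    ∃ u' : ι → PowerSeries k,
      (∀ i, (PowerSeries.X : PowerSeries k) ^ (c + 1 + M) ∣ u' i - u i) ∧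
      (∀ j, (PowerSeries.X : PowerSeries k) ^ (2 * c + 1 + (M + 1)) ∣ eval u' (G j)) ∧
      ¬ (PowerSeries.X : PowerSeries k) ^ (c + 1) ∣
        (Matrix.of fun j l : Fin d => eval u' (pderiv (S l) (G j))).det := by
  set J : Matrix (Fin d) (Fin d) (PowerSeries k) :=
    Matrix.of fun j l : Fin d => eval u (pderiv (S l) (G j)) with hJdef
  obtain ⟨v, w, w', hv, hdet, hw⟩ := exists_unit c J.det hJ
  choose g hg using hG
  -- the step
  set a : Fin d → PowerSeries k :=
    fun l => -(w' * PowerSeries.X ^ (c - v) * (J.adjugate.mulVec g) l) with ha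
  set h : ι → PowerSeries k := fun i => ∑ l, if S l = i then a l else 0 with hh
  set u' : ι → PowerSeries k := fun i => u i + PowerSeries.X ^ (c + 1 + M) * h i with hu'
  have hdiff : ∀ i, (PowerSeries.X : PowerSeries k) ^ (c + 1 + M) ∣ u' i - u i := by
    intro i
    refine ⟨h i, ?_⟩
    simp only [hu']
    ring
  have hsum : ∀ j, ∑ i, h i * eval u (pderiv i (G j)) = (J.mulVec a) j := by
    intro j
    simp only [hh, Finset.sum_mul, Matrix.mulVec, dotProduct]
    rw [Finset.sum_comm]
    refine Finset.sum_congr rfl fun l _ => ?_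
    simp only [ite_mul, zero_mul, Finset.sum_ite_eq, Finset.mem_univ, if_true]
    rw [hJdef, Matrix.of_apply, mul_comm]
  have hJa : ∀ j, PowerSeries.X ^ (c + 1 + M) * (J.mulVec a) j = -eval u (G j) := by
    intro j
    have e1 : J.mulVec a = (-(w' * PowerSeries.X ^ (c - v)) * J.det) • g := by
      have e2 : a = (-(w' * PowerSeries.X ^ (c - v))) • (J.adjugate.mulVec g) := by
        funext l
        simp only [ha, Pi.smul_apply, smul_eq_mul]
        ring
      rw [e2, Matrix.mulVec_smul, Matrix.mulVec_mulVec, Matrix.mul_adjugate, Matrix.smul_mulVec,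
        Matrix.one_mulVec, smul_smul]
    rw [e1, Pi.smul_apply, smul_eq_mul, hdet, hg j]
    have e3 : (PowerSeries.X : PowerSeries k) ^ (2 * c + 1 + M) =
        PowerSeries.X ^ (c + 1 + M) * (PowerSeries.X ^ (c - v) * PowerSeries.X ^ v) := by
      rw [← pow_add, ← pow_add]
      congr 1
      omega
    rw [e3]
    linear_combination (-(PowerSeries.X ^ (c + 1 + M) * PowerSeries.X ^ (c - v) *
      PowerSeries.X ^ v * g j)) * hw
  refine ⟨u', hdiff, ?_, ?_⟩
  · intro j
    obtain ⟨r, hr⟩ := hT ι (PowerSeries k) (G j) u h (PowerSeries.X ^ (c + 1 + M))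
    have e1 : eval u' (G j) = (PowerSeries.X ^ (c + 1 + M)) ^ 2 * r := by
      rw [hu', hr, hsum, hJa]
      ring
    rw [e1, ← pow_mul]
    exact dvd_mul_of_dvd_left (pow_dvd_pow _ (by omega)) _
  · intro hcon
    apply hJ
    have e1 := det_sub_dvd J (Matrix.of fun j l : Fin d => eval u' (pderiv (S l) (G j))) (c + 1)
      (by
        intro i j
        rw [hJdef, Matrix.of_apply, Matrix.of_apply]
        refine (pow_dvd_pow _ (by omega : c + 1 ≤ c + 1 + M)).trans ?_
        exact eval_sub_dvd hT _ u u' _ hdiff)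
    have e2 := dvd_sub hcon e1
    rwa [sub_sub_cancel] at e2

end NEWT_

open NEWT_ in
theorem p_NEWT (h1 : T_TAY) : T_NEWT := by
  intro k ι _ _ _ d N c G S u hG hJ
  -- the sequence
  have hex : ∃ s : ℕ → (ι → PowerSeries k), s 0 = u ∧ ∀ t,
      ((∀ j, (PowerSeries.X : PowerSeries k) ^ (2 * c + 1 + (N + t)) ∣ eval (s t) (G j)) ∧
        ¬ (PowerSeries.X : PowerSeries k) ^ (c + 1) ∣
          (Matrix.of fun j l : Fin d => eval (s t) (pderiv (S l) (G j))).det) ∧
      ∀ i, (PowerSeries.X : PowerSeries k) ^ (c + 1 + (N + t)) ∣ s (t + 1) i - s t i := by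
    have hstep : ∀ (t : ℕ) (v : ι → PowerSeries k), ∃ v' : ι → PowerSeries k,
        ((∀ j, (PowerSeries.X : PowerSeries k) ^ (2 * c + 1 + (N + t)) ∣ eval v (G j)) ∧
        ¬ (PowerSeries.X : PowerSeries k) ^ (c + 1) ∣
          (Matrix.of fun j l : Fin d => eval v (pderiv (S l) (G j))).det) →
        ((∀ j, (PowerSeries.X : PowerSeries k) ^ (2 * c + 1 + (N + (t + 1))) ∣ eval v' (G j)) ∧
        ¬ (PowerSeries.X : PowerSeries k) ^ (c + 1) ∣
          (Matrix.of fun j l : Fin d => eval v' (pderiv (S l) (G j))).det) ∧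
        ∀ i, (PowerSeries.X : PowerSeries k) ^ (c + 1 + (N + t)) ∣ v' i - v i := by
      intro t v
      by_cases hv : ((∀ j, (PowerSeries.X : PowerSeries k) ^ (2 * c + 1 + (N + t)) ∣
          eval v (G j)) ∧ ¬ (PowerSeries.X : PowerSeries k) ^ (c + 1) ∣
          (Matrix.of fun j l : Fin d => eval v (pderiv (S l) (G j))).det)
      · obtain ⟨v', e1, e2, e3⟩ := step h1 G S (N + t) v hv.1 hv.2
        exact ⟨v', fun _ => ⟨⟨e2, e3⟩, e1⟩⟩
      · exact ⟨v, fun h => absurd h hv⟩
    choose nx hnx using hstep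
    set s : ℕ → (ι → PowerSeries k) := fun t => Nat.rec u (fun t v => nx t v) t with hs
    have hs0 : s 0 = u := rfl
    have hs1 : ∀ t, s (t + 1) = nx t (s t) := fun t => rfl
    have hinv : ∀ t, ((∀ j, (PowerSeries.X : PowerSeries k) ^ (2 * c + 1 + (N + t)) ∣
        eval (s t) (G j)) ∧ ¬ (PowerSeries.X : PowerSeries k) ^ (c + 1) ∣
          (Matrix.of fun j l : Fin d => eval (s t) (pderiv (S l) (G j))).det) := by
      intro t
      induction t with
      | zero => exact ⟨hG, hJ⟩
      | succ t ih =>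
        rw [hs1]
        exact (hnx t (s t) ih).1
    refine ⟨s, hs0, fun t => ⟨hinv t, ?_⟩⟩
    rw [hs1]
    exact (hnx t (s t) (hinv t)).2
  obtain ⟨s, hs0, hs⟩ := hex
  -- the sequence is Cauchy
  have hcau : ∀ t r : ℕ, ∀ i,
      (PowerSeries.X : PowerSeries k) ^ (c + 1 + (N + t)) ∣ s (t + r) i - s t i := by
    intro t r
    induction r with
    | zero =>
      intro i
      simp
    | succ r ih =>
      intro i
      have e1 := ih i
      have e2 := (hs (t + r)).2 i
      have e3 : (PowerSeries.X : PowerSeries k) ^ (c + 1 + (N + t)) ∣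
          s (t + r + 1) i - s (t + r) i := (pow_dvd_pow _ (by omega)).trans e2
      have e4 := dvd_add e3 e1
      rwa [sub_add_sub_cancel] at e4
  -- the limit
  set u' : ι → PowerSeries k :=
    fun i => PowerSeries.mk fun a => PowerSeries.coeff a (s (a + 1) i) with hu'
  have hlim : ∀ t i, (PowerSeries.X : PowerSeries k) ^ (c + 1 + (N + t)) ∣ u' i - s t i := by
    intro t i
    rw [PowerSeries.X_pow_dvd_iff]
    intro m hm
    rw [map_sub, hu', PowerSeries.coeff_mk, ← map_sub]
    rcases le_total (m + 1) t with hmt | hmt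
    · obtain ⟨r, hr⟩ := Nat.exists_eq_add_of_le hmt
      have e1 := hcau (m + 1) r i
      rw [← hr, PowerSeries.X_pow_dvd_iff] at e1
      have e2 := e1 m (by omega)
      rw [← neg_sub, map_neg, e2, neg_zero]
    · obtain ⟨r, hr⟩ := Nat.exists_eq_add_of_le hmt
      have e1 := hcau t r i
      rw [← hr, PowerSeries.X_pow_dvd_iff] at e1
      exact e1 m hm
  refine ⟨u', ?_, ?_⟩
  · intro i
    have := hlim 0 i
    rwa [hs0, add_zero] at this
  · intro j
    have hall : ∀ t : ℕ, (PowerSeries.X : PowerSeries k) ^ t ∣ eval u' (G j) := by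
      intro t
      have e1 := eval_sub_dvd h1 (G j) (s t) u' _ (hlim t)
      have e2 := (hs t).1.1 j
      have e3 : (PowerSeries.X : PowerSeries k) ^ t ∣ eval u' (G j) - eval (s t) (G j) :=
        (pow_dvd_pow _ (by omega)).trans e1
      have e4 : (PowerSeries.X : PowerSeries k) ^ t ∣ eval (s t) (G j) :=
        (pow_dvd_pow _ (by omega)).trans e2
      have e5 := dvd_add e3 e4
      rwa [sub_add_cancel] at e5
    ext m
    have := hall (m + 1)
    rw [PowerSeries.X_pow_dvd_iff] at this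
    rw [this m (Nat.lt_succ_self m), map_zero]

end Pool.Agent.WL
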