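import Pool.Agent.WL.Targets
import Pool.Agent.WL.NEWT

/-!
# Counting the coefficients of approximate solutions of a system of maximal rank
-/

set_option autoImplicit false

open MvPolynomial

namespace Pool.Agent.WL

namespace NC_

variable {E L : Type} [Field E] [Field L] [Algebra E L] {ι : Type}

/-- Truncation with coefficients in `B`. -/
noncomputable def vv (B : IntermediateField E L) (u : PowerSeries L) (b : ℕ) : PowerSeries B := by
  classical
  exact PowerSeries.mk fun m => if m < b then
    (if h : PowerSeries.coeff m u ∈ B then ⟨PowerSeries.coeff m u, h⟩ else 0) else 0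

lemma coeff_vv (B : IntermediateField E L) (u : PowerSeries L) (b : ℕ)
    (h : ∀ m < b, PowerSeries.coeff m u ∈ B) (m : ℕ) :
    PowerSeries.coeff m (PowerSeries.map (algebraMap B L) (vv B u b)) =
      if m < b then PowerSeries.coeff m u else 0 := by
  rw [PowerSeries.coeff_map, vv, PowerSeries.coeff_mk]
  split_ifs with h1 h2
  · rfl
  · exact absurd (h m h1) h2
  · exact map_zero _

lemma vv_dvd (B : IntermediateField E L) (u : PowerSeries L) (b : ℕ)
    (h : ∀ m < b, PowerSeries.coeff m u ∈ B) :
    (PowerSeries.X : PowerSeries L) ^ b ∣ u - PowerSeries.map (algebraMap B L) (vv B u b) := by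
  rw [PowerSeries.X_pow_dvd_iff]
  intro m hm
  rw [map_sub, coeff_vv B u b h m, if_pos hm, sub_self]

lemma upF_map (B : IntermediateField E L) (G : MvPolynomial ι (PowerSeries E)) :
    (upF B G).map (PowerSeries.map (algebraMap B L)) = upF L G := by
  have hcomp : (PowerSeries.map (algebraMap B L)).comp (PowerSeries.map (algebraMap E B)) =
      PowerSeries.map (algebraMap E L) := by
    ext f a
    simp only [RingHom.comp_apply, PowerSeries.coeff_map]
    rfl
  rw [upF, upF, up, up, MvPolynomial.map_map, hcomp]

lemma eval_up (B : IntermediateField E L) (H : MvPolynomial ι (PowerSeries B))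
    (v : ι → PowerSeries B) :
    eval (fun i => PowerSeries.map (algebraMap B L) (v i))
      (H.map (PowerSeries.map (algebraMap B L))) = PowerSeries.map (algebraMap B L) (eval v H) := by
  rw [MvPolynomial.eval_map (PowerSeries.map (algebraMap B L))
    (fun i => PowerSeries.map (algebraMap B L) (v i)) H]
  have e2 := MvPolynomial.eval₂_comp_left (PowerSeries.map (algebraMap B L))
    (RingHom.id (PowerSeries B)) v H
  rw [RingHom.comp_id] at e2
  exact e2.symm

end NC_

open NC_ NEWT_ in
theorem p_NC (h1 : T_TAY) : T_NC := by
  classical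
  intro E L _ _ _ ι _ d P c G S u B hG hJ hout hlow i a
  -- `S` is injective
  have hS : Function.Injective S := by
    intro l l' hll
    by_contra hne
    apply hJ
    have : (Matrix.of fun j l : Fin d => eval u (pderiv (S l) (upF L (G j)))).det = 0 := by
      apply Matrix.det_zero_of_column_eq hne
      intro j
      simp only [Matrix.of_apply, hll]
    rw [this]
    exact dvd_zero _
  induction a using Nat.strong_induction_on generalizing i with
  | _ a ih =>
  intro ha
  by_cases hi : i ∈ Set.range S
  swap
  · exact hout i hi a (by omega)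
  by_cases hac : a ≤ c
  · exact hlow i a hac
  push Not at hac
  obtain ⟨l0, rfl⟩ := hi
  set β : PowerSeries B →+* PowerSeries L := PowerSeries.map (algebraMap B L) with hβ
  set bd : ι → ℕ := fun i => if i ∈ Set.range S then a else P with hbd
  have hbda : ∀ i, a ≤ bd i := by
    intro i
    simp only [hbd]
    split_ifs
    · exact le_rfl
    · omega
  have hmem : ∀ i, ∀ m < bd i, PowerSeries.coeff m (u i) ∈ B := by
    intro i m hm
    simp only [hbd] at hm
    split_ifs at hm with h
    · exact ih m hm i (by omega)
    · exact hout i h m hm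
  set v : ι → PowerSeries B := fun i => vv B (u i) (bd i) with hv
  have hdv : ∀ i, (PowerSeries.X : PowerSeries L) ^ (bd i) ∣ u i - β (v i) :=
    fun i => vv_dvd B (u i) (bd i) (hmem i)
  have hda : ∀ i, (PowerSeries.X : PowerSeries L) ^ a ∣ u i - β (v i) :=
    fun i => (pow_dvd_pow _ (hbda i)).trans (hdv i)
  choose w hw using hda
  -- the values over `B`
  set g : Fin d → PowerSeries B := fun j => eval v (upF B (G j)) with hg
  set JB : Matrix (Fin d) (Fin d) (PowerSeries B) :=
    Matrix.of fun j l : Fin d => eval v (pderiv (S l) (upF B (G j))) with hJB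
  have hgβ : ∀ j, eval (fun i => β (v i)) (upF L (G j)) = β (g j) := by
    intro j
    rw [← upF_map B (G j)]
    exact eval_up B _ v
  have hJβ : ∀ i j, eval (fun i => β (v i)) (pderiv i (upF L (G j))) =
      β (eval v (pderiv i (upF B (G j)))) := by
    intro i j
    rw [← upF_map B (G j), MvPolynomial.pderiv_map]
    exact eval_up B _ v
  -- Taylor
  have hT : ∀ j, (PowerSeries.X : PowerSeries L) ^ (a + c + 1) ∣
      β (g j) + PowerSeries.X ^ a * ∑ l, β (JB j l) * w (S l) := by
    intro j
    obtain ⟨r, hr⟩ := h1 ι (PowerSeries L) (upF L (G j)) (fun i => β (v i)) w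
      (PowerSeries.X ^ a)
    have e0 : (fun i => β (v i) + PowerSeries.X ^ a * w i) = u := by
      funext i
      rw [← hw i]
      ring
    rw [e0, hgβ] at hr
    have e1 : ∑ i, w i * eval (fun i => β (v i)) (pderiv i (upF L (G j))) =
        ∑ l, β (JB j l) * w (S l) +
        ∑ i ∈ Finset.univ.filter (fun i => i ∉ Set.range S),
          w i * eval (fun i => β (v i)) (pderiv i (upF L (G j))) := by
      rw [← Finset.sum_filter_add_sum_filter_not Finset.univ (fun i => i ∈ Set.range S)]
      congr 1
      have e2 : Finset.univ.filter (fun i => i ∈ Set.range S) = Finset.univ.image S := by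
        ext i
        simp
      rw [e2, Finset.sum_image (fun x _ y _ h => hS h)]
      refine Finset.sum_congr rfl fun l _ => ?_
      rw [hJβ, hJB, Matrix.of_apply, mul_comm]
    have e3 : (PowerSeries.X : PowerSeries L) ^ (a + c + 1) ∣ PowerSeries.X ^ a *
        ∑ i ∈ Finset.univ.filter (fun i => i ∉ Set.range S),
          w i * eval (fun i => β (v i)) (pderiv i (upF L (G j))) := by
      rw [Finset.mul_sum]
      refine Finset.dvd_sum fun i hi => ?_
      rw [Finset.mem_filter] at hi
      have e4 : (PowerSeries.X : PowerSeries L) ^ P ∣ PowerSeries.X ^ a * w i := by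
        rw [← hw i]
        have e5 := hdv i
        have e6 : bd i = P := by
          simp only [hbd]
          rw [if_neg hi.2]
        rwa [e6] at e5
      rw [← mul_assoc]
      exact dvd_mul_of_dvd_left ((pow_dvd_pow _ (by omega)).trans e4) _
    have e7 : (PowerSeries.X : PowerSeries L) ^ (a + c + 1) ∣ (PowerSeries.X ^ a) ^ 2 * r := by
      rw [← pow_mul]
      exact dvd_mul_of_dvd_left (pow_dvd_pow _ (by omega)) _
    have e8 : (PowerSeries.X : PowerSeries L) ^ (a + c + 1) ∣ eval u (upF L (G j)) :=
      (pow_dvd_pow _ (by omega)).trans (hG j)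
    have e9 := dvd_sub (dvd_sub e8 e7) e3
    have e10 : eval u (upF L (G j)) - (PowerSeries.X ^ a) ^ 2 * r - PowerSeries.X ^ a *
        ∑ i ∈ Finset.univ.filter (fun i => i ∉ Set.range S),
          w i * eval (fun i => β (v i)) (pderiv i (upF L (G j))) =
        β (g j) + PowerSeries.X ^ a * ∑ l, β (JB j l) * w (S l) := by
      rw [hr, e1]
      ring
    rwa [e10] at e9
  -- multiply by the adjugate
  have hadj : (PowerSeries.X : PowerSeries L) ^ (a + c + 1) ∣
      β ((JB.adjugate.mulVec g) l0) + PowerSeries.X ^ a * (β JB.det * w (S l0)) := by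
    have e1 : (PowerSeries.X : PowerSeries L) ^ (a + c + 1) ∣
        ∑ j, β (JB.adjugate l0 j) *
          (β (g j) + PowerSeries.X ^ a * ∑ l, β (JB j l) * w (S l)) :=
      Finset.dvd_sum fun j _ => dvd_mul_of_dvd_right (hT j) _
    have e2 : ∑ j, β (JB.adjugate l0 j) *
          (β (g j) + PowerSeries.X ^ a * ∑ l, β (JB j l) * w (S l)) =
        β ((JB.adjugate.mulVec g) l0) + PowerSeries.X ^ a * (β JB.det * w (S l0)) := by
      simp only [mul_add, Finset.sum_add_distrib]
      congr 1
      · simp only [Matrix.mulVec, dotProduct, map_sum, map_mul]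
      · have e3 : ∀ l, ∑ j, β (JB.adjugate l0 j) * β (JB j l) =
            if l0 = l then β JB.det else 0 := by
          intro l
          have e4 := congrFun (congrFun (Matrix.adjugate_mul JB) l0) l
          rw [Matrix.mul_apply] at e4
          have e5 := congrArg β e4
          rw [map_sum] at e5
          simp only [map_mul] at e5
          rw [e5, Matrix.smul_apply, Matrix.one_apply]
          split_ifs <;> simp
        calc ∑ j, β (JB.adjugate l0 j) * (PowerSeries.X ^ a * ∑ l, β (JB j l) * w (S l))
            = PowerSeries.X ^ a * ∑ l, (∑ j, β (JB.adjugate l0 j) * β (JB j l)) * w (S l) := by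
              simp only [Finset.mul_sum, Finset.sum_mul]
              rw [Finset.sum_comm]
              refine Finset.sum_congr rfl fun l _ => ?_
              refine Finset.sum_congr rfl fun j _ => ?_
              ring
          _ = PowerSeries.X ^ a * (β JB.det * w (S l0)) := by
              congr 1
              simp only [e3, ite_mul, zero_mul]
              simp
    rwa [e2] at e1
  -- the order of the determinant
  have hdet : ¬ (PowerSeries.X : PowerSeries B) ^ (c + 1) ∣ JB.det := by
    intro hcon
    apply hJ
    have e1 : (PowerSeries.X : PowerSeries L) ^ (c + 1) ∣ β JB.det := by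
      have := map_dvd β hcon
      rwa [map_pow, hβ, PowerSeries.map_X] at this
    have e2 := det_sub_dvd (JB.map β)
      (Matrix.of fun j l : Fin d => eval u (pderiv (S l) (upF L (G j)))) (c + 1) (by
        intro j l
        rw [Matrix.map_apply, hJB, Matrix.of_apply, Matrix.of_apply, ← hJβ]
        apply eval_sub_dvd h1
        intro i
        exact (pow_dvd_pow _ (by omega : c + 1 ≤ a)).trans ⟨w i, hw i⟩)
    have e3 : (JB.map β).det = β JB.det := by
      rw [RingHom.map_det]
      rfl
    rw [e3] at e2
    have e4 := dvd_add e2 e1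
    rwa [sub_add_cancel] at e4
  obtain ⟨c', ω, ω', hc', hω, hωω⟩ := exists_unit c JB.det hdet
  set h0 : PowerSeries B := (JB.adjugate.mulVec g) l0 with hh0
  have hfin : (PowerSeries.X : PowerSeries L) ^ (a + c + 1) ∣
      β (h0 * ω') + PowerSeries.X ^ (a + c') * w (S l0) := by
    have e1 := dvd_mul_of_dvd_left hadj (β ω')
    have e2 : (β h0 + PowerSeries.X ^ a * (β JB.det * w (S l0))) * β ω' =
        β (h0 * ω') + PowerSeries.X ^ (a + c') * w (S l0) := by
      rw [hω, map_mul, map_mul, map_pow]
      have e3 : β PowerSeries.X = PowerSeries.X := by rw [hβ, PowerSeries.map_X]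
      have e4 : β ω * β ω' = 1 := by rw [← map_mul, hωω, map_one]
      rw [e3, pow_add]
      linear_combination (PowerSeries.X ^ a * PowerSeries.X ^ c' * w (S l0)) * e4
    rwa [e2] at e1
  rw [PowerSeries.X_pow_dvd_iff] at hfin
  have hco := hfin (a + c') (by omega)
  rw [map_add, PowerSeries.coeff_X_pow_mul', if_pos le_rfl, Nat.sub_self] at hco
  have hu : PowerSeries.coeff a (u (S l0)) = PowerSeries.coeff 0 (w (S l0)) := by
    have e1 := congrArg (PowerSeries.coeff a) (hw (S l0))
    rw [map_sub, PowerSeries.coeff_X_pow_mul', if_pos le_rfl, Nat.sub_self, hv, hβ,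
      coeff_vv B _ _ (hmem (S l0)) a] at e1
    have e2 : bd (S l0) = a := by
      simp only [hbd]
      rw [if_pos (Set.mem_range_self l0)]
    rw [e2, if_neg (lt_irrefl a), sub_zero] at e1
    exact e1
  have e5 : PowerSeries.coeff 0 (w (S l0)) = -(algebraMap B L) (PowerSeries.coeff (a + c') (h0 * ω')) := by
    rw [hβ, PowerSeries.coeff_map] at hco
    linear_combination hco
  rw [hu, e5]
  exact neg_mem (SetLike.coe_mem _)

end Pool.Agent.WL
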