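import Pool.Agent.WL.Targets2

/-!
# Free lines near a free line
-/

set_option autoImplicit false

open MvPolynomial WithZero Topology
open Pool.Agent.WA

namespace Pool.Agent.WL

namespace NEAR_

section Scale

variable {σ A : Type} [Fintype σ] [CommRing A]

theorem onLine_hom {F : MvPolynomial σ A} {m : ℕ} (hF : F.IsHomogeneous m) (b : A)
    (x w : σ → A) :
    onLine F (fun i => b * x i) (fun i => b * w i) = Polynomial.C (b ^ m) * onLine F x w := by
  unfold onLine
  rw [eval₂_eq', eval₂_eq', Finset.mul_sum]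
  refine Finset.sum_congr rfl ?_
  intro μ hμ
  have h1 : ∑ i, μ i = m := by
    have h2 := hF.degree_eq_sum_deg_support hμ
    rw [h2]
    symm
    refine Finset.sum_subset (Finset.subset_univ _) ?_
    intro i _ hi
    exact Finsupp.notMem_support_iff.mp hi
  have h3 : ∀ i, (Polynomial.C (b * x i) + Polynomial.X * Polynomial.C (b * w i)) ^ μ i =
      Polynomial.C b ^ μ i * (Polynomial.C (x i) + Polynomial.X * Polynomial.C (w i)) ^ μ i := by
    intro i
    rw [← mul_pow]
    congr 1
    rw [Polynomial.C_mul, Polynomial.C_mul]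
    ring
  simp only [h3]
  rw [Finset.prod_mul_distrib, Finset.prod_pow_eq_pow_sum, h1, Polynomial.C_pow]
  ring

omit [Fintype σ] in
theorem onLine_C_mul (F : MvPolynomial σ A) (a : A) (x w : σ → A) :
    onLine (C a * F) x w = Polynomial.C a * onLine F x w := by
  unfold onLine
  rw [eval₂_mul, eval₂_C]

theorem onLine_scale {F : MvPolynomial σ A} {m : ℕ} (hF : F.IsHomogeneous m) (a b : A)
    (x w : σ → A) :
    onLine (C a * F) (fun i => b * x i) (fun i => b * w i) =
      Polynomial.C (a * b ^ m) * onLine F x w := by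
  rw [onLine_C_mul, onLine_hom hF, Polynomial.C_mul]
  ring

theorem dminor_scale {F : MvPolynomial σ A} {d : ℕ} (hF : F.IsHomogeneous d) (a b : A)
    (x w : σ → A) (S : Fin d → σ) :
    dminor (C a * F) d (fun i => b * x i) (fun i => b * w i) S =
      (a * b ^ (d - 1)) ^ d * dminor F d x w S := by
  have h1 : dmat (C a * F) d (fun i => b * x i) (fun i => b * w i) =
      (a * b ^ (d - 1)) • dmat F d x w := by
    ext l i
    have h2 : pderiv i (C a * F) = C a * pderiv i F := by
      rw [Derivation.leibniz]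
      simp
    simp only [dmat, Matrix.smul_apply, smul_eq_mul]
    rw [h2, onLine_scale hF.pderiv, Polynomial.coeff_C_mul]
  unfold dminor
  rw [h1, Matrix.submatrix_smul, Pi.smul_apply, Pi.smul_apply, Matrix.det_smul, Fintype.card_fin]

end Scale

section Congr

variable {σ A : Type} [CommRing A]

theorem dvd_onLine (F : MvPolynomial σ A) (t : A) {x x' w w' : σ → A}
    (hx : ∀ i, t ∣ x' i - x i) (hw : ∀ i, t ∣ w' i - w i) (j : ℕ) :
    t ∣ (onLine F x' w').coeff j - (onLine F x w).coeff j := by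
  let φ := Ideal.Quotient.mk (Ideal.span {t})
  have hφ : ∀ a b : A, φ a = φ b ↔ t ∣ a - b := by
    intro a b
    rw [← sub_eq_zero, ← map_sub, Ideal.Quotient.eq_zero_iff_mem, Ideal.mem_span_singleton]
  have h1 : (fun i => φ (x' i)) = fun i => φ (x i) := by
    funext i
    exact (hφ _ _).mpr (hx i)
  have h2 : (fun i => φ (w' i)) = fun i => φ (w i) := by
    funext i
    exact (hφ _ _).mpr (hw i)
  rw [← hφ, ← Polynomial.coeff_map, ← Polynomial.coeff_map, ← onLine_map, ← onLine_map, h1, h2]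

theorem dvd_dminor (F : MvPolynomial σ A) (d : ℕ) (t : A) {x x' w w' : σ → A}
    (hx : ∀ i, t ∣ x' i - x i) (hw : ∀ i, t ∣ w' i - w i) (S : Fin d → σ) :
    t ∣ dminor F d x' w' S - dminor F d x w S := by
  let φ := Ideal.Quotient.mk (Ideal.span {t})
  have hφ : ∀ a b : A, φ a = φ b ↔ t ∣ a - b := by
    intro a b
    rw [← sub_eq_zero, ← map_sub, Ideal.Quotient.eq_zero_iff_mem, Ideal.mem_span_singleton]
  have h1 : (fun i => φ (x' i)) = fun i => φ (x i) := by
    funext i
    exact (hφ _ _).mpr (hx i)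
  have h2 : (fun i => φ (w' i)) = fun i => φ (w i) := by
    funext i
    exact (hφ _ _).mpr (hw i)
  rw [← hφ, ← dminor_map, ← dminor_map, h1, h2]

end Congr

/-- The statement over power series. -/
theorem series (h4 : T_NEWT) (h5 : T_GL) (h6 : T_DEG) {k : Type} [Field k] {n d : ℕ}
    (F : MvPolynomial (Fin (n + 1)) (PowerSeries k)) (hF : F.IsHomogeneous d)
    (x z : Fin (n + 1) → PowerSeries k) (S : Fin d → Fin (n + 1))
    (h0 : onLine F x z = 0) (hS : dminor F d x z S ≠ 0) (N : ℕ) :
    ∃ P : ℕ, ∀ y : Fin (n + 1) → PowerSeries k,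
      (∀ i, (PowerSeries.X : PowerSeries k) ^ P ∣ y i - z i) → eval y F = 0 →
      ∃ x' : Fin (n + 1) → PowerSeries k,
        (∀ i, (PowerSeries.X : PowerSeries k) ^ N ∣ x' i - x i) ∧ onLine F x' y = 0 ∧
        dminor F d x' y S ≠ 0 := by
  obtain ⟨c, hc⟩ : ∃ c : ℕ, ¬ (PowerSeries.X : PowerSeries k) ^ (c + 1) ∣ dminor F d x z S := by
    by_contra hcon
    push Not at hcon
    apply hS
    ext a
    rw [map_zero]
    exact PowerSeries.X_pow_dvd_iff.mp (hcon a) a (Nat.lt_succ_self a)
  refine ⟨2 * c + 1 + N, ?_⟩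
  intro y hy hy0
  have hG := fun j : Fin d => h5 (Fin (n + 1)) (Fin (n + 1)) (PowerSeries k) F (fun _ => 0) y
    (fun i l => if i = l then 1 else 0) (fun _ _ => 0) (j : ℕ)
  choose G hG using hG
  have hG1 : ∀ (j : Fin d) (u : Fin (n + 1) → PowerSeries k),
      eval u (G j) = (onLine F u y).coeff j ∧
      ∀ l, eval u (pderiv l (G j)) = (onLine (pderiv l F) u y).coeff j := by
    intro j u
    have h1 := hG j (PowerSeries k) (RingHom.id _) u u y (by intro i; simp) (by intro i; simp)
    rw [map_id, map_id] at h1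
    refine ⟨h1.1, ?_⟩
    intro l
    rw [h1.2 l]
    simp
  have hJ : ∀ u : Fin (n + 1) → PowerSeries k,
      (Matrix.of fun j l : Fin d => eval u (pderiv (S l) (G j))).det = dminor F d u y S := by
    intro u
    unfold dminor
    congr 1
    funext j l
    simp only [Matrix.of_apply, Matrix.submatrix_apply, id, dmat]
    exact (hG1 j u).2 (S l)
  have hxx : ∀ (t : PowerSeries k) (i : Fin (n + 1)), t ∣ x i - x i := by
    intro t i
    rw [sub_self]
    exact dvd_zero t
  have h1 : ∀ j : Fin d, (PowerSeries.X : PowerSeries k) ^ (2 * c + 1 + N) ∣ eval x (G j) := by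
    intro j
    rw [(hG1 j x).1]
    have h2 := dvd_onLine F ((PowerSeries.X : PowerSeries k) ^ (2 * c + 1 + N)) (hxx _) hy (j : ℕ)
    rw [h0, Polynomial.coeff_zero, sub_zero] at h2
    exact h2
  have hle : (PowerSeries.X : PowerSeries k) ^ (c + 1) ∣
      (PowerSeries.X : PowerSeries k) ^ (2 * c + 1 + N) := pow_dvd_pow _ (by omega)
  have h2 : ¬ (PowerSeries.X : PowerSeries k) ^ (c + 1) ∣ dminor F d x y S := by
    intro h3
    apply hc
    have h4 := dvd_dminor F d ((PowerSeries.X : PowerSeries k) ^ (c + 1)) (hxx _)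
      (fun i => hle.trans (hy i)) S
    exact (dvd_iff_dvd_of_dvd_sub h4).mp h3
  obtain ⟨u, hu1, hu2⟩ := h4 k (Fin (n + 1)) d N c G S x h1 (by rw [hJ]; exact h2)
  refine ⟨u, fun i => (pow_dvd_pow _ (by omega)).trans (hu1 i), ?_, ?_⟩
  · obtain ⟨hd1, -, hd3⟩ := h6 (Fin (n + 1)) (PowerSeries k) F d hF u y
    ext1 j
    rw [Polynomial.coeff_zero]
    rcases lt_trichotomy j d with hj | hj | hj
    · have h3 := hu2 ⟨j, hj⟩
      rw [(hG1 ⟨j, hj⟩ u).1] at h3
      exact h3
    · rw [hj, hd3, hy0]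
    · exact Polynomial.coeff_eq_zero_of_natDegree_lt (lt_of_le_of_lt hd1 hj)
  · intro h3
    apply h2
    have h4 := dvd_dminor F d ((PowerSeries.X : PowerSeries k) ^ (c + 1)) (x' := u) (x := x)
      (w' := y) (w := y)
      (fun i => (pow_dvd_pow _ (by omega)).trans (hu1 i))
      (fun i => by rw [sub_self]; exact dvd_zero _) S
    rw [h3, zero_sub] at h4
    exact (dvd_neg.mp h4)

end NEAR_

open NEAR_ in
theorem p_NEAR (h1 : T_PAR) (h2 : T_RES) (h3 : T_E) (h4 : T_NEWT) (h5 : T_GL) (h6 : T_DEG) :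
    T_NEAR := by
  intro k K _ _ _ _ hK n d F v hv hd hF x z S h0 hS θ hθ
  obtain ⟨s, hs, -, -⟩ := h1 k K 0 v Fin.elim0 hv (fun l => l.elim0)
    ⟨fun l => l.elim0, fun l => l.elim0⟩
  obtain ⟨io, hio⟩ := h3 k K v s hv (h2 k K hK v hv) hs
  have hFE : (FE v F).IsHomogeneous d := hF.map _
  classical
  -- the integer `M`
  have hbd : ∀ T : Finset (Compl v), ∃ M : ℕ, ∀ a ∈ T, vE v (emb v s ^ M * a) ≤ 1 := by
    intro T
    induction T using Finset.induction_on with
    | empty => exact ⟨0, by simp⟩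
    | insert a T ha ih =>
      obtain ⟨M, hM⟩ := ih
      obtain ⟨M', hM'⟩ := exists_le_zpow hs.ne_zero hs.lt_one (vE v a)
      refine ⟨M + M', ?_⟩
      intro b hb
      have hle : ∀ m : ℕ, v s ^ m ≤ 1 := fun m => pow_le_one₀ zero_le hs.lt_one.le
      rw [Finset.mem_insert] at hb
      rcases hb with rfl | hb
      · rw [map_mul, map_pow, val_emb, pow_add]
        have h8 : v s ^ M' * vE v b ≤ 1 := by
          rw [zpow_neg, zpow_natCast] at hM'
          calc v s ^ M' * vE v b ≤ v s ^ M' * (v s ^ M')⁻¹ := by gcongr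
            _ = 1 := mul_inv_cancel₀ (pow_ne_zero _ hs.ne_zero)
        calc v s ^ M * v s ^ M' * vE v b = v s ^ M * (v s ^ M' * vE v b) := by rw [mul_assoc]
          _ ≤ 1 * 1 := mul_le_mul' (hle M) h8
          _ = 1 := one_mul 1
      · have h8 := hM b hb
        rw [map_mul, map_pow, val_emb] at h8 ⊢
        calc v s ^ (M + M') * vE v b = v s ^ M' * (v s ^ M * vE v b) := by
              rw [pow_add, mul_comm (v s ^ M), mul_assoc]
          _ ≤ 1 * 1 := mul_le_mul' (hle M') h8
          _ = 1 := one_mul 1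
  obtain ⟨M, hM⟩ := hbd ((FE v F).coeffs ∪ (Finset.univ.image x ∪ Finset.univ.image z))
  set a : Compl v := emb v s ^ M with ha
  have hs0 : emb v s ≠ 0 := by
    intro h
    have h7 := val_emb v s
    rw [h, map_zero] at h7
    exact hs.ne_zero h7.symm
  have ha0 : a ≠ 0 := pow_ne_zero _ hs0
  have hva : vE v a = v s ^ M := by rw [ha, map_pow, val_emb]
  have hva0 : v s ^ M ≠ 0 := pow_ne_zero _ hs.ne_zero
  have hlx : ∀ i, ∃ g, io g = a * x i := fun i => hio.surj _ (hM _ (by simp))
  have hlz : ∀ i, ∃ g, io g = a * z i := fun i => hio.surj _ (hM _ (by simp))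
  choose x₀ hx₀ using hlx
  choose z₀ hz₀ using hlz
  obtain ⟨F', hF'⟩ : ∃ F' : MvPolynomial (Fin (n + 1)) (PowerSeries k),
      F'.map io = C a * FE v F := by
    have h8 : C a * FE v F ∈ Set.range (MvPolynomial.map (σ := Fin (n + 1)) io) := by
      rw [mem_range_map_iff_coeffs_subset]
      intro b hb
      rw [Finset.mem_coe, mem_coeffs_iff] at hb
      obtain ⟨μ, hμ, rfl⟩ := hb
      rw [mem_support_iff, coeff_C_mul] at hμ
      rw [coeff_C_mul]
      refine hio.surj _ (hM _ ?_)
      refine Finset.mem_union_left _ ?_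
      exact coeff_mem_coeffs μ (right_ne_zero_of_mul hμ)
    exact h8
  have hF'hom : F'.IsHomogeneous d := by
    have h8 : (F'.map io).IsHomogeneous d := by
      rw [hF']
      exact hFE.C_mul a
    intro μ hμ
    apply h8
    rw [coeff_map]
    intro h9
    apply hμ
    apply hio.inj
    rw [h9, map_zero]
  have hline : ∀ (p q : Fin (n + 1) → Compl v) (p' q' : Fin (n + 1) → PowerSeries k),
      (∀ i, io (p' i) = a * p i) → (∀ i, io (q' i) = a * q i) →
      (onLine F' p' q' = 0 ↔ onLine (FE v F) p q = 0) ∧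
      (dminor F' d p' q' S = 0 ↔ dminor (FE v F) d p q S = 0) := by
    intro p q p' q' hp hq
    have e1 : (fun i => io (p' i)) = fun i => a * p i := funext hp
    have e2 : (fun i => io (q' i)) = fun i => a * q i := funext hq
    constructor
    · have h8 := onLine_map io F' p' q'
      rw [hF', e1, e2, onLine_scale hFE] at h8
      constructor
      · intro h9
        rw [h9, Polynomial.map_zero] at h8
        rcases mul_eq_zero.mp h8 with h10 | h10
        · exact absurd h10 (by
            rw [Polynomial.C_eq_zero]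
            exact mul_ne_zero ha0 (pow_ne_zero _ ha0))
        · exact h10
      · intro h9
        rw [h9, mul_zero] at h8
        exact (Polynomial.map_eq_zero_iff hio.inj).mp h8.symm
    · have h8 := dminor_map io F' d p' q' S
      rw [hF', e1, e2, dminor_scale hFE] at h8
      constructor
      · intro h9
        rw [h9, map_zero] at h8
        rcases mul_eq_zero.mp h8 with h10 | h10
        · exact absurd h10 (pow_ne_zero _ (mul_ne_zero ha0 (pow_ne_zero _ ha0)))
        · exact h10
      · intro h9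
        rw [h9, mul_zero] at h8
        apply hio.inj
        rw [← h8, map_zero]
  obtain ⟨h0', hS'⟩ := hline x z x₀ z₀ hx₀ hz₀
  obtain ⟨N, hN⟩ := exists_pow_le hs.lt_one (c := v s ^ M * θ) (mul_ne_zero hva0 hθ)
  obtain ⟨P, hP⟩ := series h4 h5 h6 F' hF'hom x₀ z₀ S (h0'.mpr h0) (fun h => hS (hS'.mp h)) N
  refine ⟨v s ^ P, pow_ne_zero _ hs.ne_zero, ?_⟩
  intro y hy hy0
  have hle : ∀ m : ℕ, v s ^ m ≤ 1 := fun m => pow_le_one₀ zero_le hs.lt_one.le
  have hdiff : ∀ i, vE v (a * y i - a * z i) ≤ v s ^ P := by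
    intro i
    rw [← mul_sub, map_mul, hva]
    calc v s ^ M * vE v (y i - z i) ≤ 1 * v s ^ P := mul_le_mul' (hle M) (hy i)
      _ = v s ^ P := one_mul _
  have hly : ∀ i, ∃ g, io g = a * y i := by
    intro i
    apply hio.surj
    have h8 : a * y i = (a * y i - a * z i) + a * z i := by ring
    rw [h8]
    refine (Valuation.map_add _ _ _).trans (max_le ((hdiff i).trans (hle P)) ?_)
    exact hM _ (by simp)
  choose y₀ hy₀ using hly
  obtain ⟨x', hx'1, hx'2, hx'3⟩ := hP y₀ (by
    intro i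
    rw [← hio.ord, map_sub, hy₀, hz₀]
    exact hdiff i) (by
    apply hio.inj
    rw [map_zero]
    have h8 : io (eval y₀ F') = eval (fun i => io (y₀ i)) (F'.map io) := by
      rw [eval_map]
      exact (eval₂_comp_left io (RingHom.id _) y₀ F')
    rw [h8, hF']
    have e1 : (fun i => io (y₀ i)) = fun i => a * y i := funext hy₀
    rw [e1, map_mul, eval_C]
    have h9 : eval (fun i => a * y i) (FE v F) = a ^ d * eval y (FE v F) := by
      have h10 := onLine_hom hFE a (fun _ => 0) y
      have h11 := (h6 _ _ _ _ hFE (fun _ => 0) y).2.2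
      have h12 := (h6 _ _ _ _ hFE (fun _ => a * 0) (fun i => a * y i)).2.2
      rw [← h12, ← h11]
      rw [h10, Polynomial.coeff_C_mul]
    rw [h9, hy0, mul_zero, mul_zero])
  refine ⟨fun i => a⁻¹ * io (x' i), ?_, ?_, ?_⟩
  · intro i
    have h8 : a⁻¹ * io (x' i) - x i = a⁻¹ * io (x' i - x₀ i) := by
      rw [map_sub, hx₀]
      field_simp
    rw [h8, map_mul, map_inv₀, hva]
    have h9 : vE v (io (x' i - x₀ i)) ≤ v s ^ N := (hio.ord _ _).mpr (hx'1 i)
    calc (v s ^ M)⁻¹ * vE v (io (x' i - x₀ i)) ≤ (v s ^ M)⁻¹ * (v s ^ M * θ) :=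
          mul_le_mul' le_rfl (h9.trans hN)
      _ = θ := by rw [← mul_assoc, inv_mul_cancel₀ hva0, one_mul]
  · refine ((hline _ _ x' y₀ ?_ hy₀).1).mp hx'2
    intro i
    rw [mul_inv_cancel_left₀ ha0]
  · intro h8
    apply hx'3
    refine ((hline _ _ x' y₀ ?_ hy₀).2).mpr h8
    intro i
    rw [mul_inv_cancel_left₀ ha0]

end Pool.Agent.WL
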