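import Pool.Agent.WL.Targets

/-!
# Descent of solutions to an algebraically closed field
-/

set_option autoImplicit false

open MvPolynomial

namespace Pool.Agent.WL

theorem p_NS : T_NS := by
  intro k _ _ σ _ f g L _ _ z hz hg
  by_contra hcon
  have h1 : ∀ z₀ : σ → k, (∀ h ∈ f, eval z₀ h = 0) → eval z₀ g = 0 := by
    intro z₀ h0
    by_contra hne
    exact hcon ⟨z₀, h0, hne⟩
  have he : ∀ (z₀ : σ → k) (h : MvPolynomial σ k), aeval z₀ h = eval z₀ h := fun z₀ h => by
    rw [aeval_eq_eval]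
  have h2 : g ∈ vanishingIdeal k (zeroLocus k (Ideal.span (f : Set (MvPolynomial σ k)))) := by
    rw [mem_vanishingIdeal_iff]
    intro z₀ hz₀
    rw [zeroLocus_span] at hz₀
    rw [he]
    exact h1 z₀ fun h hh => (he z₀ h).symm.trans (hz₀ h (by exact_mod_cast hh))
  rw [vanishingIdeal_zeroLocus_eq_radical] at h2
  obtain ⟨r, hr⟩ := h2
  have h4 : Ideal.span (f : Set (MvPolynomial σ k)) ≤
      RingHom.ker (aeval z : MvPolynomial σ k →ₐ[k] L) := by
    rw [Ideal.span_le]
    intro h hh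
    exact hz h (by exact_mod_cast hh)
  have h5 : aeval z (g ^ r) = 0 := h4 hr
  rw [map_pow] at h5
  exact hg (eq_zero_of_pow_eq_zero h5)

end Pool.Agent.WL
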