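import Pool.Agent.WL.Targets

/-!
# Adapted bases
-/

set_option autoImplicit false

namespace Pool.Agent.WL

namespace ORD_

theorem aux (k : Type) [Field k] : ∀ (n : ℕ) (V : Submodule k (PowerSeries k))
    [FiniteDimensional k V], Module.finrank k V = n →
    ∃ (M : ℕ) (e : Fin M → PowerSeries k) (o : Fin M → ℕ), Adapted V M e o := by
  intro n
  induction n with
  | zero =>
    intro V _ hV
    have hbot : V = ⊥ := Submodule.finrank_eq_zero.1 hV
    refine ⟨0, Fin.elim0, Fin.elim0, ⟨hV.symm, fun a => a.elim0, fun a => a.elim0,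
      fun a => a.elim0, fun a => a.elim0, fun f hf => ⟨Fin.elim0, ?_⟩⟩⟩
    rw [hbot, Submodule.mem_bot] at hf
    rw [hf]
    simp
  | succ n ih =>
    intro V _ hV
    have hne : V ≠ ⊥ := by
      intro h
      rw [Submodule.finrank_eq_zero.2 h] at hV
      omega
    have hex : ∃ a, ∃ f ∈ V, PowerSeries.coeff a f ≠ 0 := by
      obtain ⟨g, hg, hg0⟩ := Submodule.exists_mem_ne_zero_of_ne_bot hne
      by_contra hc
      push Not at hc
      apply hg0
      ext a
      rw [hc a g hg, map_zero]
    classical
    obtain ⟨o₀, ho₀⟩ : ∃ o₀, o₀ = Nat.find hex := ⟨_, rfl⟩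
    obtain ⟨f0, hf0, hc0⟩ := Nat.find_spec hex
    rw [← ho₀] at hc0
    have hmin : ∀ a < o₀, ∀ g ∈ V, PowerSeries.coeff a g = 0 := by
      intro a ha g hg
      by_contra hc
      rw [ho₀] at ha
      exact Nat.find_min hex ha ⟨g, hg, hc⟩
    obtain ⟨f, hf, hf1⟩ : ∃ f ∈ V, PowerSeries.coeff o₀ f = 1 := by
      refine ⟨(PowerSeries.coeff o₀ f0)⁻¹ • f0, V.smul_mem _ hf0, ?_⟩
      rw [map_smul, smul_eq_mul, inv_mul_cancel₀ hc0]
    set φ : V →ₗ[k] k := (PowerSeries.coeff o₀ : PowerSeries k →ₗ[k] k).comp V.subtype with hφ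
    have hsurj : LinearMap.range φ = ⊤ := by
      rw [LinearMap.range_eq_top]
      intro c
      refine ⟨c • ⟨f, hf⟩, ?_⟩
      rw [map_smul, hφ]
      simp [hf1]
    have hrk := LinearMap.finrank_range_add_finrank_ker φ
    rw [hsurj, finrank_top, Module.finrank_self, hV] at hrk
    set W : Submodule k (PowerSeries k) := (LinearMap.ker φ).map V.subtype with hW
    have hWmem : ∀ g, g ∈ W ↔ g ∈ V ∧ PowerSeries.coeff o₀ g = 0 := by
      intro g
      rw [hW, Submodule.mem_map]
      constructor
      · rintro ⟨y, hy, rfl⟩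
        exact ⟨y.2, hy⟩
      · rintro ⟨h1, h2⟩
        exact ⟨⟨g, h1⟩, h2, rfl⟩
    have hWV : W ≤ V := fun g hg => ((hWmem g).1 hg).1
    have hWfin : FiniteDimensional k W := Submodule.finiteDimensional_of_le hWV
    have hWrk : Module.finrank k W = n := by
      rw [hW, Submodule.finrank_map_subtype_eq]
      omega
    obtain ⟨M', e', o', hA⟩ := ih W hWrk
    have hlt : ∀ b, o₀ < o' b := by
      intro b
      by_contra hc
      push Not at hc
      obtain ⟨h1, h2⟩ := (hWmem _).1 (hA.mem b)
      have h3 := hA.lead b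
      rcases hc.lt_or_eq with h | h
      · rw [hmin _ h _ h1] at h3
        exact zero_ne_one h3
      · rw [h, h2] at h3
        exact zero_ne_one h3
    refine ⟨M' + 1, Fin.cons f e', Fin.cons o₀ o', ?_, ?_, ?_, ?_, ?_, ?_⟩
    · rw [hV, hA.card, hWrk]
    · intro a b hab
      induction a using Fin.cases with
      | zero =>
        induction b using Fin.cases with
        | zero => exact absurd hab (lt_irrefl _)
        | succ b => rw [Fin.cons_zero, Fin.cons_succ]; exact hlt b
      | succ a =>
        induction b using Fin.cases with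
        | zero => exact absurd hab (Fin.not_lt_zero _)
        | succ b =>
          rw [Fin.cons_succ, Fin.cons_succ]
          exact hA.mono (Fin.succ_lt_succ_iff.1 hab)
    · intro b
      induction b using Fin.cases with
      | zero => exact hf
      | succ b => exact hWV (hA.mem b)
    · intro b a ha
      induction b using Fin.cases with
      | zero =>
        rw [Fin.cons_zero] at ha ⊢
        exact hmin a ha f hf
      | succ b =>
        rw [Fin.cons_succ] at ha ⊢
        exact hA.low b a ha
    · intro b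
      induction b using Fin.cases with
      | zero => exact hf1
      | succ b => exact hA.lead b
    · intro g hg
      have h1 : g - PowerSeries.coeff o₀ g • f ∈ W := by
        rw [hWmem]
        refine ⟨V.sub_mem hg (V.smul_mem _ hf), ?_⟩
        rw [map_sub, map_smul, hf1, smul_eq_mul, mul_one, sub_self]
      obtain ⟨t, ht⟩ := hA.span _ h1
      refine ⟨Fin.cons (PowerSeries.coeff o₀ g) t, ?_⟩
      rw [Fin.sum_univ_succ]
      simp only [Fin.cons_zero, Fin.cons_succ]
      rw [← ht]
      abel

end ORD_

/-- ORD -/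
theorem p_ORD : T_ORD := fun k _ V _ => ORD_.aux k _ V rfl

end Pool.Agent.WL
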