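import Pool.Agent.WL.Targets2

set_option autoImplicit false

/-! A parameter near one at other places. -/

open WithZero Topology
open Pool.Agent.WA

namespace Pool.Agent.WL

namespace PAR_

theorem le_one_of_isIntegral {k K : Type} [Field k] [Field K] [Algebra k K]
    {v : Valuation K ℤᵐ⁰} (hv : PlaceOf k v) {x : K} (hx : IsIntegral k x) : v x ≤ 1 := by
  have hle : ∀ c : k, v (algebraMap k K c) ≤ 1 := by
    intro c
    by_cases hc : c = 0
    · simp [hc]
    · exact (hv.2 c hc).le
  let f : k →+* v.integer := RingHom.codRestrict (algebraMap k K) v.integer hle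
  have hf : (algebraMap v.integer K).comp f = algebraMap k K := by
    ext c
    rfl
  obtain ⟨p, hp, hpx⟩ := hx
  have h1 : IsIntegral v.integer x := by
    refine ⟨p.map f, hp.map f, ?_⟩
    rw [Polynomial.eval₂_map, hf]
    exact hpx
  exact (Valuation.integer.integers v).isIntegral_iff_v_le_one.1 h1

theorem eq_one_of_isAlgebraic {k K : Type} [Field k] [Field K] [Algebra k K]
    {v : Valuation K ℤᵐ⁰} (hv : PlaceOf k v) {x : K} (hx : IsAlgebraic k x) (h0 : v x ≠ 0) :
    v x = 1 := by
  have h1 : v x ≤ 1 := le_one_of_isIntegral hv hx.isIntegral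
  have h2 : v x⁻¹ ≤ 1 := le_one_of_isIntegral hv hx.inv.isIntegral
  refine le_antisymm h1 ?_
  rw [map_inv₀] at h2
  by_contra h
  have h3 : v x < 1 := lt_of_not_ge h
  have h4 : v x * (v x)⁻¹ = 1 := mul_inv_cancel₀ h0
  have h5 : v x * (v x)⁻¹ ≤ v x * 1 := mul_le_mul_right h2 _
  rw [h4, mul_one] at h5
  exact h h5

end PAR_

open PAR_ in
theorem p_PAR : T_PAR := by
  intro k K _ _ _ r v w hv hw hI
  obtain ⟨π, hπ⟩ := exists_isUnif v hv.1
  have hw' : ∀ l, ∃ c : ℤᵐ⁰, c ≠ 0 ∧ c < 1 := fun l => by
    obtain ⟨ρ, hρ⟩ := exists_isUnif (w l) (hw l).1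
    exact ⟨_, hρ.ne_zero, hρ.lt_one⟩
  choose cw hcw0 hcw1 using hw'
  obtain ⟨s, hs⟩ := approx_field (fun j : Option (Fin r) => j.elim v w)
    (by
      intro j
      cases j with
      | none => exact hv.1
      | some l => exact (hw l).1)
    (by
      intro i j hij
      cases i with
      | none =>
        cases j with
        | none => exact absurd rfl hij
        | some l => exact hI.1 l
      | some l =>
        cases j with
        | none => exact fun h => hI.1 l h.symm
        | some l' => exact hI.2 l l' fun h => hij (by rw [h]))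
    (fun j => j.elim π fun _ => 1) (fun j => j.elim (v π ^ 2) cw)
    (by
      intro j
      cases j with
      | none => exact pow_ne_zero _ hπ.ne_zero
      | some l => exact hcw0 l)
  have h1 : v (s - π) ≤ v π ^ 2 := hs none
  have h2 : v π ^ 2 < v π := by
    have := mul_lt_mul_of_pos_left hπ.lt_one (zero_lt_iff.2 hπ.ne_zero)
    rwa [mul_one, ← pow_two] at this
  have h3 : v s = v π := by
    have h4 := v.map_add_eq_of_lt_right (h1.trans_lt h2)
    rwa [sub_add_cancel] at h4
  have hU : IsUnif v s := ⟨by rw [h3]; exact hπ.ne_zero, by rw [h3]; exact hπ.lt_one,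
    by rw [h3]; exact hπ.gen⟩
  refine ⟨s, hU, fun l => ?_, ?_⟩
  · exact (hs (some l)).trans_lt (hcw1 l)
  · intro hs
    have := eq_one_of_isAlgebraic hv hs hU.ne_zero
    exact hU.lt_one.ne this

end Pool.Agent.WL
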