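import Pool.Agent.WL.Targets2

/-!
# Valuations of functions with bounded poles
-/

set_option autoImplicit false

open Polynomial WithZero
open Pool.Agent.WA

namespace Pool.Agent.WL.ZERO_

variable {k K : Type} [Field k] [Field K] [Algebra k K]

theorem val_const {v : Valuation K ℤᵐ⁰} (hv : PlaceOf k v) (c : k) :
    v (algebraMap k K c) ≤ 1 := by
  by_cases hc : c = 0
  · simp [hc]
  · exact (hv.2 c hc).le

theorem val_aeval_le {v : Valuation K ℤᵐ⁰} (hv : PlaceOf k v) {s : K} (hs : v s ≤ 1)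
    (P : k[X]) : v (aeval s P) ≤ 1 := by
  rw [aeval_eq_sum_range]
  refine v.map_sum_le fun i _ => ?_
  rw [Algebra.smul_def, map_mul, map_pow]
  exact mul_le_one' (val_const hv _) (pow_le_one' hs i)

theorem val_adjoin_le {v : Valuation K ℤᵐ⁰} (hv : PlaceOf k v) {s : K} (hs : v s ≤ 1)
    (x : Algebra.adjoin k {s}) : v (x : K) ≤ 1 := by
  obtain ⟨y, hy⟩ := x
  rw [Algebra.adjoin_singleton_eq_range_aeval] at hy
  obtain ⟨P, hP⟩ := hy
  show v y ≤ 1
  rw [← hP]
  exact val_aeval_le hv hs P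

theorem val_integral_le {v : Valuation K ℤᵐ⁰} (hv : PlaceOf k v) {s : K} (hs : v s ≤ 1) {f : K}
    (hf : IsIntegral (Algebra.adjoin k {s}) f) : v f ≤ 1 := by
  obtain ⟨p, hp, hpf⟩ := hf
  let φ : Algebra.adjoin k {s} →+* v.integer :=
    { toFun := fun x => ⟨(x : K), val_adjoin_le hv hs x⟩
      map_one' := rfl
      map_zero' := rfl
      map_mul' := fun _ _ => rfl
      map_add' := fun _ _ => rfl }
  have h1 : IsIntegral v.integer f := by
    refine ⟨p.map φ, hp.map φ, ?_⟩
    rw [eval₂_map]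
    exact hpf
  exact (Valuation.integer.integers v).mem_of_integral h1

/-- Vanishing order at a point `a`. -/
theorem val_root {v : Valuation K ℤᵐ⁰} (hv : PlaceOf k v) {s : K} (a : k)
    (hs : v (s - algebraMap k K a) < 1) {P : k[X]} (hP : P ≠ 0) :
    v (aeval s P) = v (s - algebraMap k K a) ^ P.rootMultiplicity a := by
  obtain ⟨Q, hQ, hdvd⟩ := P.exists_eq_pow_rootMultiplicity_mul_and_not_dvd hP a
  have h1 : aeval s P = (s - algebraMap k K a) ^ P.rootMultiplicity a * aeval s Q := by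
    conv_lhs => rw [hQ]
    simp
  have hQa : Q.eval a ≠ 0 := fun h => hdvd (dvd_iff_isRoot.2 h)
  have hs1 : v s ≤ 1 := by
    have : s = (s - algebraMap k K a) + algebraMap k K a := by ring
    rw [this]
    exact v.map_add_le hs.le (val_const hv a)
  have h2 : v (aeval s Q) = 1 := by
    obtain ⟨R, hR⟩ := X_sub_C_dvd_sub_C_eval (p := Q) (a := a)
    have h3 : aeval s Q = algebraMap k K (Q.eval a) + (s - algebraMap k K a) * aeval s R := by
      have := congrArg (aeval s) hR
      simp only [map_sub, map_mul, aeval_C, aeval_X] at this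
      rw [← this]
      ring
    rw [h3]
    rw [Valuation.map_add_eq_of_lt_left]
    · exact hv.2 _ hQa
    · rw [hv.2 _ hQa, map_mul]
      exact mul_lt_one_of_lt_of_le hs (val_aeval_le hv hs1 R)
  rw [h1, map_mul, map_pow, h2, mul_one]

theorem pow_le_pow_imp {g : ℤᵐ⁰} (hg : g ≠ 0) (hg1 : g < 1) {a b : ℕ} (h : g ^ b ≤ g ^ a) :
    a ≤ b := by
  by_contra hlt
  push Not at hlt
  have h1 : g ^ a < g ^ b := pow_lt_pow_right_of_lt_one₀ (zero_lt_iff.mpr hg) hg1 hlt
  exact absurd h (not_le.mpr h1)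

/-- The statement at the place `v`. -/
theorem at_v {s f : K} {D : ℕ} (h : ∃ (g : K) (P : Polynomial k), P ≠ 0 ∧ P.natDegree ≤ D ∧
    IsIntegral (Algebra.adjoin k {s}) g ∧ f * g = aeval s P) {v : Valuation K ℤᵐ⁰}
    (hv : PlaceOf k v) (hs : IsUnif v s) {a : ℕ} (ha : v f ≤ v s ^ a) : a ≤ D := by
  obtain ⟨g, P, hP, hdeg, hg, hfg⟩ := h
  have hs0 : v (s - algebraMap k K 0) < 1 := by simpa using hs.lt_one
  have h1 := val_root hv 0 hs0 hP
  rw [← hfg, map_mul, map_zero, sub_zero] at h1
  have h2 : v s ^ P.rootMultiplicity 0 ≤ v s ^ a := by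
    rw [← h1]
    calc v f * v g ≤ v f * 1 := mul_le_mul' le_rfl (val_integral_le hv hs.lt_one.le hg)
      _ = v f := mul_one _
      _ ≤ _ := ha
  have h3 := pow_le_pow_imp hs.ne_zero hs.lt_one h2
  have h4 : P.rootMultiplicity 0 ≤ P.natDegree := by
    have := natDegree_le_of_dvd (pow_rootMultiplicity_dvd P 0) hP
    simpa using this
  omega

end Pool.Agent.WL.ZERO_

namespace Pool.Agent.WL

open ZERO_

theorem p_ZERO : T_ZERO := by
  intro k K _ _ _ s f D hf hg v w hv hw hs hs1
  refine ⟨val_integral_le hv hs.lt_one.le hf, ?_, ?_⟩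
  · refine val_integral_le hw ?_ hf
    have : s = (s - 1) + 1 := by ring
    rw [this]
    exact w.map_add_le hs1.le (by simp)
  · intro a ha
    refine ⟨at_v hg hv hs ha, ?_⟩
    obtain ⟨g, P, hP, hdeg, hg, hfg⟩ := hg
    have hs0 : v (s - algebraMap k K 0) < 1 := by simpa using hs.lt_one
    have hw1 : w (s - algebraMap k K 1) < 1 := by simpa using hs1
    have h1 := val_root hv 0 hs0 hP
    have h2 := val_root hw 1 hw1 hP
    rw [← hfg, map_mul, map_zero, sub_zero] at h1
    rw [← hfg, map_mul, map_one] at h2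
    have h3 : v s ^ P.rootMultiplicity 0 ≤ v s ^ a := by
      rw [← h1]
      calc v f * v g ≤ v f * 1 := mul_le_mul' le_rfl (val_integral_le hv hs.lt_one.le hg)
        _ = v f := mul_one _
        _ ≤ _ := ha
    have h4 := pow_le_pow_imp hs.ne_zero hs.lt_one h3
    have h5 : P.rootMultiplicity 0 + P.rootMultiplicity 1 ≤ P.natDegree := by
      have hcop : IsCoprime ((X - C (0 : k)) ^ P.rootMultiplicity 0)
          ((X - C (1 : k)) ^ P.rootMultiplicity 1) := by
        refine IsCoprime.pow ?_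
        exact isCoprime_X_sub_C_of_isUnit_sub (by simp)
      have h6 := natDegree_le_of_dvd
        (hcop.mul_dvd (pow_rootMultiplicity_dvd P 0) (pow_rootMultiplicity_dvd P 1)) hP
      rw [natDegree_mul (pow_ne_zero _ (X_sub_C_ne_zero _)) (pow_ne_zero _ (X_sub_C_ne_zero _)),
        natDegree_pow, natDegree_pow, natDegree_X_sub_C, natDegree_X_sub_C] at h6
      simpa using h6
    have hws : w s ≤ 1 := by
      have : s = (s - 1) + 1 := by ring
      rw [this]
      exact w.map_add_le hs1.le (by simp)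
    calc w (s - 1) ^ (D - a) ≤ w (s - 1) ^ P.rootMultiplicity 1 :=
          pow_le_pow_right_of_le_one' hs1.le (by omega)
      _ = w f * w g := h2.symm
      _ ≤ w f * 1 := mul_le_mul' le_rfl (val_integral_le hw hws hg)
      _ = w f := mul_one _

end Pool.Agent.WL
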