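import Pool.Agent.WL.Targets2
import Pool.Agent.WL.ZERO

/-!
# All data at a place
-/

set_option autoImplicit false

open MvPolynomial WithZero
open Pool.Agent.WA

namespace Pool.Agent.WL.PKG_

variable {k K : Type} [Field k] [Field K] [Algebra k K]

/-- The space of power series that belongs to a space of functions. -/
def Vp {v : Valuation K ℤᵐ⁰} {s : K} {io : PowerSeries k →+* Compl v} (h : Emb v s io)
    (W : Submodule k K) : Submodule k (PowerSeries k) where
  carrier := {g | ∃ f ∈ W, io g = WA.emb v f}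
  zero_mem' := ⟨0, W.zero_mem, by simp⟩
  add_mem' := by
    rintro a b ⟨f, hf, ha⟩ ⟨g, hg, hb⟩
    exact ⟨f + g, W.add_mem hf hg, by rw [map_add, map_add, ha, hb]⟩
  smul_mem' := by
    rintro c a ⟨f, hf, ha⟩
    refine ⟨c • f, W.smul_mem c hf, ?_⟩
    rw [PowerSeries.smul_eq_C_mul, map_mul, h.const, ha, Algebra.smul_def, map_mul]

theorem mem_Vp {v : Valuation K ℤᵐ⁰} {s : K} {io : PowerSeries k →+* Compl v} (h : Emb v s io)
    (W : Submodule k K) (g : PowerSeries k) : g ∈ Vp h W ↔ ∃ f ∈ W, io g = WA.emb v f := Iff.rfl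

theorem Vp_mono {v : Valuation K ℤᵐ⁰} {s : K} {io : PowerSeries k →+* Compl v} (h : Emb v s io)
    {W W' : Submodule k K} (hW : W ≤ W') : Vp h W ≤ Vp h W' := by
  rintro g ⟨f, hf, hg⟩
  exact ⟨f, hW hf, hg⟩

theorem exists_lift {v : Valuation K ℤᵐ⁰} {s : K} {io : PowerSeries k →+* Compl v}
    (h : Emb v s io) {f : K} (hf : v f ≤ 1) : ∃ g, io g = WA.emb v f := by
  apply h.surj
  show (Valued.v : Valuation (Compl v) ℤᵐ⁰) _ ≤ 1
  rw [val_emb]
  exact hf

/-- The comparison map. -/
theorem exists_equiv {v : Valuation K ℤᵐ⁰} {s : K} {io : PowerSeries k →+* Compl v}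
    (h : Emb v s io) {W : Submodule k K} (hW : ∀ f ∈ W, v f ≤ 1) :
    ∃ L : W ≃ₗ[k] Vp h W, ∀ f : W, io (L f : PowerSeries k) = WA.emb v (f : K) := by
  classical
  choose g hg using fun f : W => exists_lift h (hW f f.2)
  have hadd : ∀ f f' : W, g (f + f') = g f + g f' := by
    intro f f'
    apply h.inj
    rw [map_add, hg, hg, hg, Submodule.coe_add, map_add]
  have hsmul : ∀ (c : k) (f : W), g (c • f) = c • g f := by
    intro c f
    apply h.inj
    rw [PowerSeries.smul_eq_C_mul, map_mul, h.const, hg, hg, Submodule.coe_smul,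
      Algebra.smul_def, map_mul]
  let L : W →ₗ[k] Vp h W :=
    { toFun := fun f => ⟨g f, f, f.2, hg f⟩
      map_add' := fun f f' => Subtype.ext (hadd f f')
      map_smul' := fun c f => Subtype.ext (hsmul c f) }
  have hL : ∀ f : W, ((L f : Vp h W) : PowerSeries k) = g f := fun _ => rfl
  have hbij : Function.Bijective L := by
    constructor
    · intro f f' hff
      have h1 : g f = g f' := by rw [← hL, ← hL, hff]
      have h2 : WA.emb v (f : K) = WA.emb v (f' : K) := by rw [← hg, ← hg, h1]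
      exact Subtype.ext ((WA.emb v).injective h2)
    · rintro ⟨g', f, hf, hg'⟩
      refine ⟨⟨f, hf⟩, Subtype.ext ?_⟩
      rw [hL]
      apply h.inj
      rw [hg, hg']
  exact ⟨LinearEquiv.ofBijective L hbij, fun f => hg f⟩

/-- Linear algebra: a nonzero element with vanishing coefficients. -/
theorem exists_coeff_zero (W : Submodule k (PowerSeries k)) [FiniteDimensional k W] (N : ℕ)
    (hN : N < Module.finrank k W) :
    ∃ g ∈ W, g ≠ 0 ∧ (PowerSeries.X : PowerSeries k) ^ N ∣ g := by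
  let φ : W →ₗ[k] (Fin N → k) :=
    LinearMap.pi fun i => (PowerSeries.coeff (R := k) (i : ℕ)) ∘ₗ W.subtype
  have h1 : LinearMap.ker φ ≠ ⊥ := by
    apply LinearMap.ker_ne_bot_of_finrank_lt
    simpa using hN
  obtain ⟨g, hg, hg0⟩ := Submodule.exists_mem_ne_zero_of_ne_bot h1
  refine ⟨g, g.2, ?_, ?_⟩
  · intro h
    exact hg0 (Subtype.ext h)
  · rw [PowerSeries.X_pow_dvd_iff]
    intro m hm
    have h2 := congrFun (LinearMap.mem_ker.1 hg) ⟨m, hm⟩
    exact h2

end Pool.Agent.WL.PKG_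

namespace Pool.Agent.WL

open PKG_

theorem p_PKG (h1 : T_RES) (h2 : T_G) (h3 : T_PAR) (h4 : T_ZERO) (h5 : T_E) : T_PKG := by
  classical
  intro k K _ _ _ _ hFF n d r F v w hv hw hvw hF
  obtain ⟨s, hs, hsw, hst⟩ := h3 k K r v w hv hw hvw
  have hfinK := hFF s hst
  obtain ⟨δ, c₀, V, hδ, hmono, hfin, hdim, hmul, hexh, hint⟩ := h2 k K s hst hfinK
  obtain ⟨io, hio⟩ := h5 k K v s hv (h1 k K hFF v hv) hs
  -- valuations of elements of `V m`
  have hv1 : ∀ m, ∀ f ∈ V m, v f ≤ 1 := fun m f hf =>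
    ZERO_.val_integral_le hv hs.lt_one.le (hint m f hf).1
  have hsw1 : ∀ l, w l s ≤ 1 := by
    intro l
    have : s = (s - 1) + 1 := by ring
    rw [this]
    exact (w l).map_add_le (hsw l).le (by simp)
  have hw1 : ∀ m, ∀ f ∈ V m, ∀ l, w l f ≤ 1 := fun m f hf l =>
    ZERO_.val_integral_le (hw l) (hsw1 l) (hint m f hf).1
  have hord : ∀ m, ∀ f ∈ V m, f ≠ 0 → ∀ a : ℕ, v f ≤ v s ^ a → a ≤ δ * m + c₀ :=
    fun m f hf hf0 a ha => ZERO_.at_v ((hint m f hf).2 hf0) hv hs ha
  have hlow : ∀ m, ∀ f ∈ V m, f ≠ 0 → ∀ a : ℕ, v f ≤ v s ^ a → ∀ l,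
      w l (s - 1) ^ (δ * m + c₀ - a) ≤ w l f := fun m f hf hf0 a ha l =>
    ((h4 k K s f (δ * m + c₀) (hint m f hf).1 ((hint m f hf).2 hf0) v (w l) hv (hw l) hs
      (hsw l)).2.2 a ha).2
  -- the coefficients of `F`
  obtain ⟨b, hb, m₁, hm₁⟩ := hexh (F.support.image fun μ => coeff μ F)
  have hbF : ∀ μ, b * coeff μ F ∈ V m₁ := by
    intro μ
    by_cases hμ : μ ∈ F.support
    · exact hm₁ _ (Finset.mem_image.2 ⟨μ, hμ, rfl⟩)
    · rw [notMem_support_iff.1 hμ, mul_zero]
      exact Submodule.zero_mem _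
  choose g hg using fun μ => exists_lift hio (hv1 m₁ _ (hbF μ))
  let F' : MvPolynomial (Fin (n + 1)) (PowerSeries k) := ∑ μ ∈ F.support, monomial μ (g μ)
  have hF'map : F'.map io = C (WA.emb v b) * FE v F := by
    have e1 : FE v F = ∑ μ ∈ F.support, monomial μ (WA.emb v (coeff μ F)) := by
      conv_lhs => rw [F.as_sum]
      rw [FE, map_sum]
      simp only [map_monomial]
    rw [e1, map_sum, Finset.mul_sum]
    refine Finset.sum_congr rfl fun μ _ => ?_
    rw [map_monomial, hg, C_mul_monomial, map_mul]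
  have hF'coeff : ∀ μ, io (coeff μ F') = WA.emb v (b * coeff μ F) := by
    intro μ
    rw [← coeff_map, hF'map, coeff_C_mul, coeff_map, map_mul]
  let c : ℕ := δ + c₀ + m₁
  have hδc : ∀ m, V (m + c₀) ≤ V (m + c) := fun m => hmono (by omega)
  refine ⟨s, io, δ, c, V, fun m => Vp hio (V m), b, F', fun l => w l (s - 1) ^ (δ + c₀),
    { emb := hio
      mem_iff := fun m g => Iff.rfl
      lift := ?_
      fam := ?_
      ne := hb
      map := hF'map
      hom := ?_
      exh := hexh
      fin := hfin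
      wle := hw1
      κne := ?_
      pi := ?_ }⟩
  · intro m f hf
    obtain ⟨g', hg'⟩ := exists_lift hio (hv1 m f hf)
    exact ⟨g', ⟨f, hf, hg'⟩, hg'⟩
  · refine
      { pos := hδ
        fin := ?_
        mono := fun m m' hm => Vp_mono hio (hmono hm)
        dim := ?_
        ord := ?_
        mul := ?_
        coeff := ?_ }
    · intro m
      obtain ⟨L, _⟩ := exists_equiv hio (hv1 m)
      have := hfin m
      exact Module.Finite.equiv L
    · intro m
      obtain ⟨L, _⟩ := exists_equiv hio (hv1 m)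
      have h := L.finrank_eq
      have h' := hdim m
      show δ * m ≤ Module.finrank k (Vp hio (V m)) + c
      omega
    · rintro m g' ⟨f, hf, hg'⟩ hX
      have h6 : v f ≤ v s ^ (δ * m + c + 1) := by
        rw [← hio.ord, hg'] at hX
        change (Valued.v : Valuation (Compl v) ℤᵐ⁰) _ ≤ _ at hX
        rw [val_emb] at hX
        exact hX
      by_cases hf0 : f = 0
      · apply hio.inj
        rw [hg', hf0, map_zero, map_zero]
      · have := hord m f hf hf0 _ h6
        omega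
    · rintro m m' g₁ ⟨f₁, hf₁, hg₁⟩ g₂ ⟨f₂, hf₂, hg₂⟩
      refine ⟨f₁ * f₂, hmono (by omega : m + m' + c₀ ≤ m + m' + c) (hmul m m' _ hf₁ _ hf₂), ?_⟩
      rw [map_mul, map_mul, hg₁, hg₂]
    · intro μ
      exact ⟨b * coeff μ F, hmono (by omega : m₁ ≤ c) (hbF μ), hF'coeff μ⟩
  · refine IsHomogeneous.sum _ _ _ fun μ hμ => ?_
    refine isHomogeneous_monomial _ ?_
    rw [Finsupp.degree_apply]
    exact (hF.degree_eq_sum_deg_support hμ).symm
  · intro l
    apply pow_ne_zero
    rw [Valuation.ne_zero_iff]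
    intro h
    have h6 : s = 1 := sub_eq_zero.1 h
    have h7 := hs.lt_one
    rw [h6, map_one] at h7
    exact lt_irrefl _ h7
  · intro N
    have hm : N < δ * (N / δ + 1) := by
      have := Nat.lt_mul_div_succ N hδ
      exact this
    have hm' : δ * (N / δ + 1) ≤ N + δ := by
      have := Nat.mul_div_le N δ
      rw [mul_add, mul_one]
      omega
    obtain ⟨L, hL⟩ := exists_equiv hio (hv1 (N / δ + 1))
    have h6 := hfin (N / δ + 1)
    have h7 : FiniteDimensional k (Vp hio (V (N / δ + 1))) := Module.Finite.equiv L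
    obtain ⟨g', ⟨f, hf, hg'⟩, hg0, hX⟩ := exists_coeff_zero (Vp hio (V (N / δ + 1))) N (by
      rw [← L.finrank_eq]
      exact lt_of_lt_of_le hm (hdim _))
    have hf0 : f ≠ 0 := by
      rintro rfl
      apply hg0
      apply hio.inj
      rw [hg', map_zero, map_zero]
    have hvf : v f ≤ v s ^ N := by
      rw [← hio.ord, hg'] at hX
      change (Valued.v : Valuation (Compl v) ℤᵐ⁰) _ ≤ _ at hX
      rw [val_emb] at hX
      exact hX
    refine ⟨f, N / δ + 1, hf, hf0, hvf, by omega, fun l => ?_⟩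
    refine le_trans ?_ (hlow _ f hf hf0 N hvf l)
    exact pow_le_pow_right_of_le_one' (hsw l).le (by omega)

end Pool.Agent.WL
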