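import Pool.Agent.WL.Targets2

/-!
# Residues of functions at a place
-/

set_option autoImplicit false

open WithZero

namespace Pool.Agent.WL

namespace RES_

/-- A valuation that is trivial on a subfield is at most one on algebraic elements. -/
theorem val_le_one {L K : Type} [Field L] [Field K] [Algebra L K] (v : Valuation K ℤᵐ⁰)
    (hv : ∀ a : L, a ≠ 0 → v (algebraMap L K a) = 1) (s : K) (hs : IsAlgebraic L s) :
    v s ≤ 1 := by
  obtain ⟨P, hP0, hP⟩ := hs
  by_contra hlt
  rw [not_le] at hlt
  have h1 : v (∑ i ∈ Finset.range (P.natDegree + 1), P.coeff i • s ^ i) =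
      v (P.coeff P.natDegree • s ^ P.natDegree) := by
    apply Valuation.map_sum_eq_of_lt (j := P.natDegree)
    · exact Finset.self_mem_range_succ _
    · intro i hi
      have hi1 : i ≠ P.natDegree := by simpa using (Finset.mem_sdiff.mp hi).2
      have hi2 : i < P.natDegree :=
        lt_of_le_of_ne (Nat.lt_succ_iff.mp (Finset.mem_range.mp (Finset.mem_sdiff.mp hi).1)) hi1
      rw [Algebra.smul_def, Algebra.smul_def, map_mul, map_mul, map_pow, map_pow]
      rw [hv (P.coeff P.natDegree) (Polynomial.leadingCoeff_ne_zero.mpr hP0), one_mul]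
      have h2 : v (algebraMap L K (P.coeff i)) ≤ 1 := by
        by_cases h0 : P.coeff i = 0
        · rw [h0, map_zero, map_zero]
          exact zero_le
        · exact (hv _ h0).le
      calc v (algebraMap L K (P.coeff i)) * v s ^ i ≤ 1 * v s ^ i := mul_le_mul_left h2 _
        _ = v s ^ i := one_mul _
        _ < v s ^ P.natDegree := pow_lt_pow_right₀ hlt hi2
  rw [← Polynomial.aeval_eq_sum_range, hP, map_zero, Algebra.smul_def, map_mul,
    hv (P.coeff P.natDegree) (Polynomial.leadingCoeff_ne_zero.mpr hP0), one_mul, map_pow] at h1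
  have h3 : v s ≠ 0 := (lt_trans zero_lt_one hlt).ne'
  exact pow_ne_zero _ h3 h1.symm

end RES_

open RES_ in
theorem p_RES : T_RES := by
  intro k K _ _ _ _ hK v hv x hx
  by_contra hcon
  push Not at hcon
  have hcle : ∀ c : k, v (algebraMap k K c) ≤ 1 := by
    intro c
    by_cases hc : c = 0
    · rw [hc, map_zero, map_zero]
      exact zero_le
    · exact (hv.2 c hc).le
  have h1 : ∀ c : k, v (x - algebraMap k K c) = 1 := fun c =>
    le_antisymm ((Valuation.map_sub _ _ _).trans (max_le hx (hcle c))) (hcon c)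
  have h2 : ∀ p : Polynomial k, p ≠ 0 → v (Polynomial.aeval x p) = 1 := by
    intro p hp
    have h3 := (IsAlgClosed.splits p).eq_prod_roots
    rw [h3, map_mul, Polynomial.aeval_C, map_mul,
      hv.2 _ (Polynomial.leadingCoeff_ne_zero.mpr hp), one_mul, map_multiset_prod,
      map_multiset_prod, Multiset.map_map, Multiset.map_map]
    apply Multiset.prod_eq_one
    intro a ha
    obtain ⟨c, -, rfl⟩ := Multiset.mem_map.mp ha
    simp [h1 c]
  have htr : Transcendental k x := by
    rintro ⟨p, hp, hp0⟩
    have h4 := h2 p hp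
    rw [hp0, map_zero] at h4
    exact zero_ne_one h4
  have hfin := hK x htr
  have h5 : ∀ a : IntermediateField.adjoin k {x}, a ≠ 0 →
      v (algebraMap (IntermediateField.adjoin k {x}) K a) = 1 := by
    intro a ha
    obtain ⟨p, q, hpq⟩ := (IntermediateField.mem_adjoin_simple_iff k (a : K)).mp a.2
    have ha' : (a : K) ≠ 0 := fun h => ha (Subtype.ext h)
    have hp : p ≠ 0 := by
      rintro rfl
      rw [map_zero, zero_div] at hpq
      exact ha' hpq
    have hq : q ≠ 0 := by
      rintro rfl
      rw [map_zero, div_zero] at hpq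
      exact ha' hpq
    show v (a : K) = 1
    rw [hpq, map_div₀, h2 p hp, h2 q hq, div_one]
  have h6 : ∀ s : K, v s ≤ 1 := fun s => val_le_one v h5 s (Algebra.IsAlgebraic.isAlgebraic s)
  obtain ⟨s, hs0, hs1⟩ := hv.1
  apply hs1
  refine le_antisymm (h6 s) ?_
  have h7 := h6 s⁻¹
  rw [map_inv₀] at h7
  exact (one_le_inv₀ (zero_lt_iff.mpr (inv_ne_zero hs0))).mpr h7 |>.trans_eq (inv_inv _)

end Pool.Agent.WL
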