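import Pool.Agent.WL.Targets2

set_option autoImplicit false

/-!
# RSLT: elimination of a variable
-/

namespace Pool.Agent.WL

namespace RSLT_

open MvPolynomial

variable {K σ : Type} [Field K]

/-- the ring of polynomials in the other variables -/
abbrev P (K : Type) {σ : Type} [Field K] (i : σ) : Type := MvPolynomial {j : σ // j ≠ i} K

/-- polynomials in `X i` over the ring of the other variables -/
noncomputable def e (K : Type) {σ : Type} [Field K] (i : σ) :
    MvPolynomial σ K ≃ₐ[K] Polynomial (P K i) :=
  letI := Classical.decEq σ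
  (renameEquiv K (Equiv.optionSubtypeNe i).symm).trans (optionEquivLeft K _)

theorem e_symm_C (i : σ) (c : P K i) : (e K i).symm (Polynomial.C c) = rename Subtype.val c := by
  classical
  rw [AlgEquiv.symm_apply_eq]
  have h : ((e K i : MvPolynomial σ K →ₐ[K] Polynomial (P K i)).comp
      (rename Subtype.val)) = (Polynomial.CAlgHom : P K i →ₐ[P K i] _).restrictScalars K := by
    apply MvPolynomial.algHom_ext
    intro j
    simp only [AlgHom.comp_apply, rename_X, AlgEquiv.coe_toAlgHom, AlgHom.coe_restrictScalars',
      Polynomial.CAlgHom_apply, e]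
    simp only [AlgEquiv.trans_apply, renameEquiv_apply, rename_X]
    have h1 := @Equiv.optionSubtypeNe_symm_of_ne σ (Classical.decEq σ) i j.1 j.2
    rw [h1]
    simp
  exact (DFunLike.congr_fun h c).symm

theorem notMem_vars (i : σ) (c : P K i) : i ∉ (rename Subtype.val c : MvPolynomial σ K).vars := by
  classical
  intro h
  have h1 := vars_rename (Subtype.val : {j : σ // j ≠ i} → σ) c h
  rw [Finset.mem_image] at h1
  obtain ⟨j, -, hj⟩ := h1
  exact j.2 hj

end RSLT_

open MvPolynomial RSLT_ in
/-- RSLT: elimination of a variable -/
theorem p_RSLT : T_RSLT := by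
  intro K σ _ _ F Δ i hF hd hdvd
  set f := e K i F with hf
  set δ := e K i Δ with hδ
  have hfi : Irreducible f := (MulEquiv.irreducible_iff (e K i)).2 hF
  have hfd : f.natDegree ≠ 0 := by
    intro h0
    apply hd
    have h1 : f = Polynomial.C (f.coeff 0) := Polynomial.eq_C_of_natDegree_eq_zero h0
    have h2 : F = rename Subtype.val (f.coeff 0) := by
      rw [← e_symm_C, ← h1, hf, AlgEquiv.symm_apply_apply]
    have h3 : i ∉ F.vars := by
      rw [h2]
      exact notMem_vars i _
    exact pderiv_eq_zero_of_notMem_vars h3
  have hprim := hfi.isPrimitive hfd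
  set L := FractionRing (P K i)
  have hfL : Irreducible (f.map (algebraMap (P K i) L)) :=
    (hprim.irreducible_iff_irreducible_map_fraction_map).1 hfi
  have hnd : ¬ f.map (algebraMap (P K i) L) ∣ δ.map (algebraMap (P K i) L) := by
    intro h
    have h1 : f ∣ δ := hprim.dvd_of_fraction_map_dvd_fraction_map h
    exact hdvd ((map_dvd_iff (e K i)).1 h1)
  obtain ⟨a, b, hab⟩ := (Irreducible.coprime_iff_not_dvd hfL).2 hnd
  obtain ⟨r, hr, hra⟩ := IsLocalization.integerNormalization_spec (nonZeroDivisors (P K i)) a
  obtain ⟨s, hs, hsb⟩ := IsLocalization.integerNormalization_spec (nonZeroDivisors (P K i)) b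
  set A := IsLocalization.integerNormalization (nonZeroDivisors (P K i)) a
  set B := IsLocalization.integerNormalization (nonZeroDivisors (P K i)) b
  have hinj : Function.Injective (Polynomial.map (algebraMap (P K i) L)) :=
    Polynomial.map_injective _ (IsFractionRing.injective _ _)
  have hkey : (Polynomial.C s * A) * f + (Polynomial.C r * B) * δ = Polynomial.C (r * s) := by
    apply hinj
    rw [Polynomial.map_add, Polynomial.map_mul, Polynomial.map_mul, Polynomial.map_mul,
      Polynomial.map_mul, hra, hsb, Polynomial.map_C, Polynomial.map_C, Polynomial.map_C,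
      Algebra.smul_def, Algebra.smul_def, Polynomial.algebraMap_apply, Polynomial.algebraMap_apply,
      map_mul (algebraMap (P K i) L), Polynomial.C_mul]
    linear_combination (Polynomial.C (algebraMap (P K i) L r) *
      Polynomial.C (algebraMap (P K i) L s)) * hab
  refine ⟨(e K i).symm (Polynomial.C s * A), (e K i).symm (Polynomial.C r * B),
    rename Subtype.val (r * s), ?_, ?_, notMem_vars i _⟩
  · apply (e K i).injective
    rw [map_add, map_mul (e K i) _ F, map_mul (e K i) _ Δ, AlgEquiv.apply_symm_apply,
      AlgEquiv.apply_symm_apply, ← e_symm_C, AlgEquiv.apply_symm_apply]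
    exact hkey
  · intro h0
    have h1 : r * s = 0 := by
      apply rename_injective _ Subtype.val_injective
      rw [h0, map_zero]
    rcases mul_eq_zero.1 h1 with h | h
    · exact nonZeroDivisors.ne_zero hr h
    · exact nonZeroDivisors.ne_zero hs h

end Pool.Agent.WL
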