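import Pool.Agent.WL.Targets2

/-!
# Approximation at one place
-/

set_option autoImplicit false

open MvPolynomial WithZero Topology
open Pool.Agent.WA

namespace Pool.Agent.WL

namespace SINGLE_

section Scale

variable {σ A : Type} [CommRing A]

/-- Scaling of both vectors of a line. -/
theorem onLine_scale {F : MvPolynomial σ A} {d : ℕ} (hF : F.IsHomogeneous d) (c : A)
    (x w : σ → A) : onLine F (fun i => c * x i) (fun i => c * w i) =
      Polynomial.C (c ^ d) * onLine F x w := by
  have h : onLine F (fun i => c * x i) (fun i => c * w i) =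
      eval₂ Polynomial.C (fun i => Polynomial.C c *
        (Polynomial.C (x i) + Polynomial.X * Polynomial.C (w i))) F := by
    unfold onLine
    congr 1
    funext i
    rw [map_mul, map_mul]
    ring
  rw [h]
  unfold onLine
  classical
  rw [eval₂_eq, eval₂_eq, Finset.mul_sum]
  refine Finset.sum_congr rfl fun μ hμ => ?_
  have hdeg : ∑ i ∈ μ.support, μ i = d := by
    have := hF (mem_support_iff.mp hμ)
    rw [← this]
    simp [Finsupp.weight_apply, Finsupp.sum]
  simp_rw [mul_pow]
  rw [Finset.prod_mul_distrib, Finset.prod_pow_eq_pow_sum, hdeg, map_pow]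
  ring

theorem eval_scale {F : MvPolynomial σ A} {d : ℕ} (hF : F.IsHomogeneous d) (c : A)
    (x : σ → A) : eval (fun i => c * x i) F = c ^ d * eval x F := by
  classical
  rw [eval_eq, eval_eq, Finset.mul_sum]
  refine Finset.sum_congr rfl fun μ hμ => ?_
  have hdeg : ∑ i ∈ μ.support, μ i = d := by
    have := hF (mem_support_iff.mp hμ)
    rw [← this]
    simp [Finsupp.weight_apply, Finsupp.sum]
  simp_rw [mul_pow]
  rw [Finset.prod_mul_distrib, Finset.prod_pow_eq_pow_sum, hdeg]
  ring

theorem onLine_C_mul (b : A) (F : MvPolynomial σ A) (x w : σ → A) :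
    onLine (C b * F) x w = Polynomial.C b * onLine F x w := by
  unfold onLine
  rw [eval₂_mul, eval₂_C]

theorem dminor_scale {F : MvPolynomial σ A} {d : ℕ} (hF : F.IsHomogeneous d) (c : A)
    (x w : σ → A) (S : Fin d → σ) : dminor F d (fun i => c * x i) (fun i => c * w i) S =
      (c ^ (d - 1)) ^ d * dminor F d x w S := by
  have h : (dmat F d (fun i => c * x i) (fun i => c * w i)).submatrix id S =
      c ^ (d - 1) • (dmat F d x w).submatrix id S := by
    ext l i
    simp only [Matrix.submatrix_apply, id_eq, Matrix.smul_apply, smul_eq_mul, dmat]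
    rw [onLine_scale (hF.pderiv), Polynomial.coeff_C_mul]
  unfold dminor
  rw [h, Matrix.det_smul, Fintype.card_fin]

theorem dminor_C_mul (b : A) (F : MvPolynomial σ A) (d : ℕ) (x w : σ → A) (S : Fin d → σ) :
    dminor (C b * F) d x w S = b ^ d * dminor F d x w S := by
  have h : (dmat (C b * F) d x w).submatrix id S = b • (dmat F d x w).submatrix id S := by
    ext l i
    simp only [Matrix.submatrix_apply, id_eq, Matrix.smul_apply, smul_eq_mul, dmat]
    rw [pderiv_C_mul, onLine_C_mul, Polynomial.coeff_C_mul]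
  unfold dminor
  rw [h, Matrix.det_smul, Fintype.card_fin]

end Scale

/-- Freeness of lines does not depend on the scaling of the form and of the point. -/
theorem allFree_scale {σ M : Type} [Field M] {F : MvPolynomial σ M} {d : ℕ}
    (hF : F.IsHomogeneous d) {x : σ → M} (h : AllFree F d x) {b c : M} (hb : b ≠ 0)
    (hc : c ≠ 0) : AllFree (C b * F) d (fun i => c * x i) := by
  intro w hw hne
  have hw' : w = fun i => c * (c⁻¹ * w i) := by
    funext i
    rw [mul_inv_cancel_left₀ hc]
  have h0 : onLine F x (fun i => c⁻¹ * w i) = 0 := by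
    rw [hw', onLine_C_mul, onLine_scale hF] at hw
    rcases mul_eq_zero.mp hw with h1 | h1
    · exact absurd (Polynomial.C_eq_zero.mp h1) hb
    · rcases mul_eq_zero.mp h1 with h2 | h2
      · exact absurd (Polynomial.C_eq_zero.mp h2) (pow_ne_zero _ hc)
      · exact h2
  obtain ⟨S, hS⟩ := h (fun i => c⁻¹ * w i) h0 (by
    intro e he
    apply hne e
    funext i
    have h1 := congrFun he i
    rw [Pi.smul_apply, smul_eq_mul] at h1 ⊢
    have h2 : w i = c * (c⁻¹ * w i) := (mul_inv_cancel_left₀ hc _).symm
    rw [h2, h1]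
    ring)
  refine ⟨S, ?_⟩
  rw [hw', dminor_C_mul, dminor_scale hF]
  exact mul_ne_zero (pow_ne_zero _ hb) (mul_ne_zero (pow_ne_zero _ (pow_ne_zero _ hc)) hS)

section Place

variable {k K : Type} [Field k] [Field K] [Algebra k K] {v : Valuation K ℤᵐ⁰} {s : K}
  {io : PowerSeries k →+* Compl v}

/-- Homomorphisms from power series to fields extend to the completion. -/
theorem exists_ext (hE : Emb v s io) (M : Type) [Field M] (φ : PowerSeries k →+* M)
    (hφ : Function.Injective φ) : ∃ ψ : Compl v →+* M, ∀ g, ψ (io g) = φ g := by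
  let _ : Algebra (PowerSeries k) (Compl v) := io.toAlgebra
  have hmap : ∀ g, algebraMap (PowerSeries k) (Compl v) g = io g := fun _ => rfl
  have hfr : IsFractionRing (PowerSeries k) (Compl v) := by
    refine ⟨?_, ?_, ?_⟩
    · intro y
      rw [hmap, isUnit_iff_ne_zero]
      intro h0
      have h1 : (y : PowerSeries k) = 0 := hE.inj (by rw [h0, map_zero])
      exact nonZeroDivisors.ne_zero y.2 h1
    · intro z
      by_cases hz : vE v z ≤ 1
      · obtain ⟨g, hg⟩ := hE.surj z hz
        refine ⟨(g, 1), ?_⟩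
        simp only [OneMemClass.coe_one, map_one, mul_one]
        rw [hmap, hg]
      · have hz0 : z ≠ 0 := by
          rintro rfl
          apply hz
          rw [map_zero]
          exact zero_le
        obtain ⟨g, hg⟩ := hE.surj z⁻¹ (by
          rw [map_inv₀]
          exact inv_le_one_of_one_le₀ (not_le.mp hz).le)
        have hg0 : g ≠ 0 := by
          rintro rfl
          rw [map_zero] at hg
          exact inv_ne_zero hz0 hg.symm
        refine ⟨(1, ⟨g, mem_nonZeroDivisors_of_ne_zero hg0⟩), ?_⟩
        change z * algebraMap (PowerSeries k) (Compl v) g = algebraMap (PowerSeries k) (Compl v) 1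
        rw [hmap, hg, map_one, mul_inv_cancel₀ hz0]
    · intro x y hxy
      refine ⟨1, ?_⟩
      have : x = y := hE.inj hxy
      rw [this]
  refine ⟨IsFractionRing.lift hφ, fun g => ?_⟩
  exact IsFractionRing.lift_algebraMap hφ g

theorem val_unit (hE : Emb v s io) {q : PowerSeries k} (hq : PowerSeries.constantCoeff q ≠ 0) :
    vE v (io q) = 1 := by
  have hle : ∀ g, vE v (io g) ≤ 1 := by
    intro g
    have := (hE.ord g 0).2 (by simp)
    simpa using this
  have hu : q * q⁻¹ = 1 := PowerSeries.mul_inv_cancel q hq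
  have h1 : vE v (io q) * vE v (io q⁻¹) = 1 := by
    rw [← map_mul, ← map_mul, hu, map_one, map_one]
  apply le_antisymm (hle q)
  rw [← h1]
  exact mul_le_of_le_one_right' (hle _)

end Place

end SINGLE_

open SINGLE_ in
theorem p_SINGLE (h1 : T_PKG) (h2 : T_A) (h3 : T_FREE) : T_SINGLE := by
  intro k K _ _ _ _ hK n d F v hv hd hdn hF x hx0 hx hgood θ hθ
  obtain ⟨s, io, δ, c, V, V', b, F', κ, hP⟩ := h1 k K hK n d 0 F v Fin.elim0 hv
    (fun l => l.elim0) ⟨fun l => l.elim0, fun l => l.elim0⟩ hF
  have hE := hP.emb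
  have hio0 : ∀ g, io g = 0 → g = 0 := fun g hg => hE.inj (by rw [hg, map_zero])
  have hemb : Function.Injective (emb v) := (emb v).injective
  have hb0 : emb v b ≠ 0 := (map_ne_zero _).mpr hP.ne
  -- scaling of the point
  obtain ⟨a, ha⟩ := Finite.exists_max (fun i => vE v (x i))
  have hxa : x a ≠ 0 := by
    intro h
    apply hx0
    funext i
    have h4 := ha i
    simp only [h, map_zero] at h4
    exact (Valuation.zero_iff _).mp (le_antisymm h4 zero_le)
  have hvxa : vE v (x a) ≠ 0 := (Valuation.ne_zero_iff _).mpr hxa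
  have hsc : ∀ i, ∃ g, io g = (x a)⁻¹ * x i := by
    intro i
    apply hE.surj
    rw [map_mul, map_inv₀]
    exact inv_mul_le_one_of_le₀ (ha i) zero_le
  choose x₀ hx₀ using hsc
  have hx₀a : x₀ a = 1 := by
    apply hE.inj
    rw [hx₀, map_one, inv_mul_cancel₀ hxa]
  have hca : PowerSeries.constantCoeff (x₀ a) ≠ 0 := by
    rw [hx₀a, map_one]
    exact one_ne_zero
  -- values of the form
  have hval : ∀ φ : Fin (n + 1) → PowerSeries k, io (eval φ F') =
      emb v b * eval (fun i => io (φ i)) (FE v F) := by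
    intro φ
    have h4 : eval (fun i => io (φ i)) (F'.map io) = io (eval φ F') := by
      rw [eval_map, eval₂_comp]
      rfl
    rw [← h4, hP.map, map_mul, eval_C]
  have hFE : (FE v F).IsHomogeneous d := hF.map _
  have hzero : eval x₀ F' = 0 := by
    apply hio0
    rw [hval]
    have h4 : (fun i => io (x₀ i)) = fun i => (x a)⁻¹ * x i := funext hx₀
    rw [h4, eval_scale hFE, hx, mul_zero, mul_zero]
  -- freeness
  have hG : GoodPt F' d x₀ := by
    intro M _ φ hφ
    obtain ⟨ψ, hψ⟩ := exists_ext hE M φ hφ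
    have h4 : F'.map φ = C (ψ (emb v b)) * (FE v F).map ψ := by
      have h5 : φ = ψ.comp io := by
        ext g
        exact (hψ g).symm
      rw [h5, ← map_map, hP.map, map_mul, map_C]
    have h6 : (fun i => φ (x₀ i)) = fun i => ψ (x a)⁻¹ * ψ (x i) := by
      funext i
      rw [← hψ, hx₀, map_mul]
    rw [h4, h6]
    exact allFree_scale (hFE.map _) (hgood M ψ ψ.injective)
      ((map_ne_zero _).mpr hb0) ((map_ne_zero _).mpr (inv_ne_zero hxa))
  have hfn := h3 k n d F' x₀ a hd hP.hom hca hG
  -- the precision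
  have hvs : vE v (io PowerSeries.X) = v s := by rw [hE.par, val_emb]
  obtain ⟨e, he⟩ := exists_pow_le hE.unif.lt_one
    (mul_ne_zero hθ (inv_ne_zero hvxa) : θ * (vE v (x a))⁻¹ ≠ 0)
  have he' : vE v (x a) * v s ^ e ≤ θ := by
    calc vE v (x a) * v s ^ e ≤ vE v (x a) * (θ * (vE v (x a))⁻¹) := mul_le_mul' le_rfl he
      _ = θ := by rw [mul_comm, inv_mul_cancel_right₀ hvxa]
  obtain ⟨m, φ, r, q, hφV, hφF, hq, hφ⟩ := h2 k n d F' δ c V' x₀ a hd hdn hP.hom hP.fam hzero hca
    hfn e
  choose f hfV hf using fun i => (hP.mem_iff m (φ i)).1 (hφV i)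
  have hfF : eval f F = 0 := by
    apply hemb
    have h4 : eval (fun i => emb v (f i)) (FE v F) = emb v (eval f F) := by
      rw [eval_map, eval₂_comp]
      rfl
    have h5 := hval φ
    rw [hφF, map_zero, funext hf, h4] at h5
    rw [map_zero]
    rcases mul_eq_zero.mp h5.symm with h6 | h6
    · exact absurd h6 hb0
    · exact h6
  -- the factor
  set u : Compl v := io (PowerSeries.X ^ r * q) with hu
  have hvu : vE v u = v s ^ r := by
    rw [hu, map_mul, map_pow, map_mul, map_pow, hvs, val_unit hE hq, mul_one]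
  have hs0 : v s ≠ 0 := hE.unif.ne_zero
  have hs1 : v s ≤ 1 := hE.unif.lt_one.le
  have hu0 : u ≠ 0 := by
    rw [← Valuation.ne_zero_iff (vE v), hvu]
    exact pow_ne_zero _ hs0
  obtain ⟨c', hc'⟩ := dense_emb hE.unif (x a / u) θ hθ
  have hc'' : vE v (emb v c' - x a / u) ≤ θ := hc'
  refine ⟨fun i => c' * f i, ?_, fun i => ?_⟩
  · rw [eval_scale hF, hfF, mul_zero]
  · have hxi : x i = x a * io (x₀ i) := by
      rw [hx₀, mul_inv_cancel_left₀ hxa]
    have hsplit : emb v (c' * f i) - x i =
        emb v c' * (io (φ i) - u * io (x₀ i)) + (emb v c' - x a / u) * (u * io (x₀ i)) := by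
      rw [map_mul, ← hf i, hxi]
      field_simp
      ring
    have h7 : vE v (io (φ i) - u * io (x₀ i)) ≤ v s ^ (r + e) := by
      rw [hu, ← map_mul, ← map_sub]
      exact (hE.ord _ _).2 (hφ i)
    have h8 : vE v (io (x₀ i)) ≤ 1 := by
      have := (hE.ord (x₀ i) 0).2 (by simp)
      simpa using this
    have h9 : vE v (emb v c') ≤ max θ (vE v (x a / u)) := by
      have h10 : emb v c' = (emb v c' - x a / u) + x a / u := by ring
      rw [h10]
      exact (Valuation.map_add _ _ _).trans (max_le_max hc'' le_rfl)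
    rw [hsplit]
    refine (vE v).map_add_le ?_ ?_
    · rw [map_mul]
      refine (mul_le_mul' h9 h7).trans ?_
      rcases le_total θ (vE v (x a / u)) with h11 | h11
      · rw [max_eq_right h11, map_div₀, hvu, pow_add]
        have h12 : vE v (x a) / v s ^ r * (v s ^ r * v s ^ e) = vE v (x a) * v s ^ e := by
          rw [← mul_assoc, div_mul_cancel₀ _ (pow_ne_zero _ hs0)]
        rw [h12]
        exact he'
      · rw [max_eq_left h11]
        exact mul_le_of_le_one_right' (pow_le_one' hs1 _)
    · rw [map_mul, map_mul, hvu]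
      refine (mul_le_mul' hc'' (mul_le_mul' (pow_le_one' hs1 r) h8)).trans ?_
      rw [mul_one, mul_one]

end Pool.Agent.WL
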