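import Pool.Agent.WL.Targets

/-!
# Values of a form on a span
-/

set_option autoImplicit false

open MvPolynomial

namespace Pool.Agent.WL

namespace SPAN_

variable {k L : Type} [Field k] [Field L] [Algebra k L] {V : ℕ → Submodule k (PowerSeries k)}
  {c : ℕ}

/-- The span over the extension. -/
noncomputable def W (L : Type) [Field L] [Algebra k L] (V : ℕ → Submodule k (PowerSeries k))
    (m : ℕ) : Submodule L (PowerSeries L) :=
  Submodule.span L (up k L '' (V m : Set (PowerSeries k)))

theorem W_mono (hV : Monotone V) {m m' : ℕ} (h : m ≤ m') : W L V m ≤ W L V m' :=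
  Submodule.span_mono (Set.image_mono (hV h))

theorem up_mem {m : ℕ} {f : PowerSeries k} (hf : f ∈ V m) : up k L f ∈ W L V m :=
  Submodule.subset_span ⟨f, hf, rfl⟩

theorem W_mul (hmul : ∀ m m', ∀ f ∈ V m, ∀ g ∈ V m', f * g ∈ V (m + m' + c)) {m m' : ℕ}
    {a b : PowerSeries L} (ha : a ∈ W L V m) (hb : b ∈ W L V m') :
    a * b ∈ W L V (m + m' + c) := by
  unfold W at ha
  induction ha using Submodule.span_induction with
  | zero => rw [zero_mul]; exact Submodule.zero_mem _
  | add x y _ _ hx hy => rw [add_mul]; exact Submodule.add_mem _ hx hy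
  | smul r x _ hx => rw [smul_mul_assoc]; exact Submodule.smul_mem _ _ hx
  | mem x hx =>
    obtain ⟨f, hf, rfl⟩ := hx
    unfold W at hb
    induction hb using Submodule.span_induction with
    | zero => rw [mul_zero]; exact Submodule.zero_mem _
    | add x y _ _ hx hy => rw [mul_add]; exact Submodule.add_mem _ hx hy
    | smul r x _ hx => rw [mul_smul_comm]; exact Submodule.smul_mem _ _ hx
    | mem y hy =>
      obtain ⟨g, hg, rfl⟩ := hy
      rw [← map_mul]
      exact up_mem (hmul m m' f hf g hg)

theorem prod_mem (hmul : ∀ m m', ∀ f ∈ V m, ∀ g ∈ V m', f * g ∈ V (m + m' + c)) {ι : Type}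
    {m : ℕ} {φ : ι → PowerSeries L} (hφ : ∀ i, φ i ∈ W L V m) (s : Multiset ι) (hs : s ≠ 0) :
    (s.map φ).prod ∈ W L V (s.card * m + (s.card - 1) * c) := by
  induction s using Multiset.induction_on with
  | empty => exact absurd rfl hs
  | cons a s ih =>
    by_cases h : s = 0
    · subst h
      simpa using hφ a
    · have h1 := W_mul hmul (hφ a) (ih h)
      rw [Multiset.map_cons, Multiset.prod_cons, Multiset.card_cons]
      have hc : 1 ≤ s.card := by
        rw [Nat.one_le_iff_ne_zero, Ne, Multiset.card_eq_zero]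
        exact h
      obtain ⟨r, hr⟩ : ∃ r, s.card = r + 1 := ⟨s.card - 1, by omega⟩
      rw [hr] at h1 ⊢
      have e : m + ((r + 1) * m + (r + 1 - 1) * c) + c =
          (r + 1 + 1) * m + (r + 1 + 1 - 1) * c := by
        simp only [Nat.add_sub_cancel]
        ring
      rwa [e] at h1

end SPAN_

open SPAN_ in
theorem p_SPAN : T_SPAN := by
  classical
  intro k _ n d F δ c V hd hF hV m L _ _ φ hφ
  change eval φ (upF L F) ∈ W L V (d * m + (d + 1) * c)
  unfold upF
  rw [eval_map, eval₂_eq]
  refine Submodule.sum_mem _ fun μ hμ => ?_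
  have hμ0 : MvPolynomial.coeff μ F ≠ 0 := mem_support_iff.1 hμ
  have hc : up k L (MvPolynomial.coeff μ F) ∈ W L V c := up_mem (hV.coeff μ)
  have hdeg : (Finsupp.toMultiset μ).card = d := by
    rw [Finsupp.card_toMultiset]
    exact (hF.degree_eq_sum_deg_support hμ).symm
  have hne : Finsupp.toMultiset μ ≠ 0 := by
    intro h
    rw [h, Multiset.card_zero] at hdeg
    omega
  have h2 := prod_mem hV.mul (fun i => (hφ i : φ i ∈ W L V m)) _ hne
  rw [hdeg, Finset.prod_multiset_map_count, Finsupp.toFinset_toMultiset] at h2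
  simp only [Finsupp.count_toMultiset] at h2
  have h3 := W_mul hV.mul hc h2
  obtain ⟨r, rfl⟩ : ∃ r, d = r + 1 := ⟨d - 1, by omega⟩
  have e : c + ((r + 1) * m + (r + 1 - 1) * c) + c = (r + 1) * m + (r + 1 + 1) * c := by
    simp only [Nat.add_sub_cancel]
    ring
  rwa [e] at h3

end Pool.Agent.WL
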