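import Pool.Agent.WL.Targets2
import Pool.Agent.WL.FIRST

/-!
# Weak approximation: one more place
-/

set_option autoImplicit false

open MvPolynomial WithZero Topology
open Pool.Agent.WA

namespace Pool.Agent.WL

namespace STEP_

section lines

variable {σ M : Type} [Field M] {F : MvPolynomial σ M} {d : ℕ}

lemma line_smul (h5 : T_TRI) (hF : F.IsHomogeneous d) {x w z : σ → M} {c : M} (hc : c ≠ 0)
    (hz : z = fun i => c * w i) (h : onLine F x z = 0) : onLine F x w = 0 := by
  have h1 := (h5 σ M F d hF x w 0 c).1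
  have e0 : (fun i => 0 * x i + c * w i) = z := by
    rw [hz]
    funext i
    ring
  rw [e0] at h1
  ext j
  have h2 := h1 j
  rw [h, Polynomial.coeff_zero, Finset.sum_range_succ, Nat.sub_self, pow_zero,
    Finset.sum_eq_zero, zero_add] at h2
  · rw [Polynomial.coeff_zero]
    have h3 : c ^ j * (onLine F x w).coeff j = 0 := by
      rw [h2]
      simp
    rcases mul_eq_zero.mp h3 with h4 | h4
    · exact absurd h4 (pow_ne_zero _ hc)
    · exact h4
  · intro i hi
    rw [Finset.mem_range] at hi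
    rw [zero_pow (by omega)]
    ring

lemma minor_smul (h5 : T_TRI) (hF : F.IsHomogeneous d) {x w z : σ → M} {c : M}
    (hz : z = fun i => c * w i) {S : Fin d → σ} (h : dminor F d x z S ≠ 0) :
    dminor F d x w S ≠ 0 := by
  have h1 := (h5 σ M F d hF x w 0 c).2 S
  have e0 : (fun i => 0 * x i + c * w i) = z := by
    rw [hz]
    funext i
    ring
  rw [e0] at h1
  rw [h1] at h
  exact right_ne_zero_of_mul h

lemma line_symm (h6 : T_SYM) (h7 : T_DEG) (hF : F.IsHomogeneous d) {x w : σ → M}
    (h : onLine F x w = 0) : onLine F w x = 0 := by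
  ext j
  rw [Polynomial.coeff_zero]
  by_cases hj : j ≤ d
  · rw [(h6 σ M F d hF x w).1 j hj, h, Polynomial.coeff_zero]
  · exact Polynomial.coeff_eq_zero_of_natDegree_lt
      (lt_of_le_of_lt (h7 σ M F d hF w x).1 (not_le.mp hj))

lemma minor_symm (h6 : T_SYM) (hF : F.IsHomogeneous d) {x w : σ → M} {S : Fin d → σ}
    (h : dminor F d x w S ≠ 0) : dminor F d w x S ≠ 0 := by
  rcases (h6 σ M F d hF x w).2 S with h1 | h1
  · rwa [h1]
  · rw [h1]
    exact neg_ne_zero.mpr h

end lines

end STEP_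

open STEP_ FIRST_ in
theorem p_STEP (h1 : T_DENS) (h2 : T_CHAIN) (h3 : T_MOVE) (h4 : T_NEAR) (h5 : T_TRI)
    (h6 : T_SYM) (h7 : T_DEG) : T_STEP := by
  intro k K _ _ _ _ hfun hC1 n d r F Δ hG v w hv hw hind x y hx hFx hFy hΔy θ η hθ hη
  obtain ⟨π, hπ⟩ := exists_isUnif v hv.1
  have : Infinite K := Infinite.of_injective (algebraMap k K) (algebraMap k K).injective
  let _ : Algebra K (Compl v) := (emb v).toAlgebra
  have halg : ∀ (z : Fin (n + 1) → Compl v) (G : MvPolynomial (Fin (n + 1)) K),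
      aeval z G = eval z (FE v G) := by
    intro z G
    rw [aeval_def, eval_map]
    rfl
  have hd2 : d = 1 ∨ 2 ≤ n := by
    have h1 := hG.one_le
    have h4 := hG.sq_le
    rcases Nat.lt_or_ge d 2 with h | h
    · left
      omega
    · right
      nlinarith
  have hFh : (FE v F).IsHomogeneous d := hG.hom.map _
  -- small radii
  have hrad : ∀ (p : Fin (n + 1) → Compl v), p ≠ 0 → ∀ ρ : ℤᵐ⁰, ρ ≠ 0 →
      ∃ ρ' : ℤᵐ⁰, ρ' ≠ 0 ∧ ρ' ≤ ρ ∧ ∀ q : Fin (n + 1) → Compl v,
        (∀ i, vE v (q i - p i) ≤ ρ') → q ≠ 0 := by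
    intro p hp ρ hρ
    obtain ⟨l, hl⟩ : ∃ l, p l ≠ 0 := by
      by_contra h
      simp only [not_exists, not_not] at h
      exact hp (funext h)
    have hpl : vE v (p l) ≠ 0 := (Valuation.ne_zero_iff _).mpr hl
    have hlt : vE v (emb v π) * vE v (p l) < vE v (p l) := by
      calc vE v (emb v π) * vE v (p l) < 1 * vE v (p l) := by
            rw [mul_lt_mul_iff_left₀ (zero_lt_iff.mpr hpl)]
            exact (isUnif_emb hπ).lt_one
        _ = vE v (p l) := one_mul _
    refine ⟨min ρ (vE v (emb v π) * vE v (p l)), ?_, min_le_left _ _, ?_⟩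
    · rcases min_choice ρ (vE v (emb v π) * vE v (p l)) with h | h
      · rw [h]
        exact hρ
      · rw [h]
        exact mul_ne_zero (isUnif_emb hπ).ne_zero hpl
    · rintro q hq rfl
      have h4 := hq l
      rw [Pi.zero_apply, zero_sub, Valuation.map_neg] at h4
      exact absurd (h4.trans (min_le_right _ _)) (not_le.mpr hlt)
  obtain ⟨θ', hθ'0, hθ'θ, hθ'⟩ := hrad x hx θ hθ
  obtain ⟨x', hx'x, hFx', hΔx', hx'alg⟩ := h1 K (Compl v) (emb v π) (isUnif_emb hπ)
    (fun e c hc => dense_emb hπ e c hc) n d F Δ hG.one_le hd2 hG.hom hG.smooth hG.ndvd x hx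
    (by rw [halg]; exact hFx) θ' hθ'0
  obtain ⟨z, hz0, hYz, hx'z⟩ := h2 K (Compl v) hC1 n d F hG.one_le hG.sq_le hG.hom y x' hFy hFx'
    hx'alg
  rw [halg] at hFx' hΔx'
  have hx'0 : x' ≠ 0 := hθ' x' hx'x
  set Y : Fin (n + 1) → Compl v := fun i => emb v (y i) with hY
  have hYz' : onLine (FE v F) Y z = 0 := hYz
  have hx'z' : onLine (FE v F) x' z = 0 := hx'z
  -- good points
  have hgood : ∀ p : Fin (n + 1) → Compl v, eval p (FE v Δ) ≠ 0 → AllFree (FE v F) d p := by
    intro p hp
    apply hG.good (Compl v) (emb v) p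
    rwa [← eval_map]
  have hFY : ∀ (y' : Fin (n + 1) → K) (G : MvPolynomial (Fin (n + 1)) K),
      eval (fun i => emb v (y' i)) (FE v G) = emb v (eval y' G) := by
    intro y' G
    exact (MvPolynomial.map_eval (emb v) y' G).symm
  have hgY : AllFree (FE v F) d Y := by
    apply hgood
    rw [hY, hFY]
    exact (map_ne_zero_iff _ (emb v).injective).mpr hΔy
  have hgx' : AllFree (FE v F) d x' := hgood x' hΔx'
  obtain ⟨ρ0, hρ00, hρ0θ, hρ0⟩ := exists_near hπ n Δ x' hΔx' θ hθ
  obtain ⟨ρ, hρ, hρρ0, hρ'⟩ := hrad x' hx'0 ρ0 hρ00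
  -- the main step
  have key : ∃ y' : Fin (n + 1) → K, eval y' F = 0 ∧
      (∀ i, vE v (emb v (y' i) - x' i) ≤ ρ) ∧
      ∀ l, ∃ c : K, c ≠ 0 ∧ ∀ i, w l (c * y' i - y i) ≤ η l := by
    by_cases hzY : ∃ c : Compl v, z = fun i => c * Y i
    · obtain ⟨c, hc⟩ := hzY
      have hc0 : c ≠ 0 := by
        rintro rfl
        apply hz0
        rw [hc]
        funext i
        simp
      have hx'Y : onLine (FE v F) x' Y = 0 := line_smul h5 hFh hc0 hc hx'z'
      by_cases hxY : ∃ c' : Compl v, x' = c' • Y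
      · obtain ⟨c', hc'⟩ := hxY
        have hc'0 : c' ≠ 0 := by
          rintro rfl
          apply hx'0
          rw [hc', zero_smul]
        obtain ⟨B, hB1, hB⟩ := exists_common_bound (vE v) Y
        have hB0 : B ≠ 0 := fun h => by
          rw [h] at hB1
          exact absurd hB1 (not_le.mpr zero_lt_one)
        have hvc' : vE v c' ≠ 0 := (Valuation.ne_zero_iff _).mpr hc'0
        set ρ2 : ℤᵐ⁰ := min (ρ * B⁻¹) (vE v (emb v π) * vE v c') with hρ2
        have hρ20 : ρ2 ≠ 0 := by
          rcases min_choice (ρ * B⁻¹) (vE v (emb v π) * vE v c') with h | h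
          · rw [hρ2, h]
            exact mul_ne_zero hρ (inv_ne_zero hB0)
          · rw [hρ2, h]
            exact mul_ne_zero (isUnif_emb hπ).ne_zero hvc'
        obtain ⟨e, he⟩ := dense_emb hπ c' ρ2 hρ20
        have he0 : e ≠ 0 := by
          rintro rfl
          rw [map_zero, zero_sub, Valuation.map_neg] at he
          have hlt : vE v (emb v π) * vE v c' < vE v c' := by
            calc vE v (emb v π) * vE v c' < 1 * vE v c' := by
                  rw [mul_lt_mul_iff_left₀ (zero_lt_iff.mpr hvc')]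
                  exact (isUnif_emb hπ).lt_one
              _ = vE v c' := one_mul _
          exact absurd (he.trans (min_le_right _ _)) (not_le.mpr hlt)
        refine ⟨fun i => e * y i, ?_, ?_, ?_⟩
        · have e1 := eval_map_smul (RingHom.id K) hG.hom y e
          rw [MvPolynomial.map_id] at e1
          simp only [RingHom.id_apply] at e1
          rw [e1, hFy, mul_zero]
        · intro i
          have e1 : emb v (e * y i) - x' i = (emb v e - c') * Y i := by
            rw [hc', map_mul, Pi.smul_apply, smul_eq_mul, hY]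
            ring
          rw [e1, map_mul]
          calc vE v (emb v e - c') * vE v (Y i) ≤ (ρ * B⁻¹) * B :=
                mul_le_mul' (he.trans (min_le_left _ _)) (hB i)
            _ = ρ := inv_mul_cancel_right₀ hB0 ρ
        · intro l
          refine ⟨e⁻¹, inv_ne_zero he0, fun i => ?_⟩
          rw [inv_mul_cancel_left₀ he0, sub_self, map_zero]
          exact bot_le
      · have hYx' : onLine (FE v F) Y x' = 0 := line_symm h6 h7 hFh hx'Y
        obtain ⟨S, hS⟩ := hgY x' hYx' (fun c' hc' => hxY ⟨c', hc'⟩)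
        exact h3 k K hfun n d r F v w hv hw hind hG.one_le hG.hom x' y S hx'0 hx'Y
          (minor_symm h6 hFh hS) ρ η hρ hη
    · obtain ⟨S, hS⟩ := hgY z hYz' (fun c hc => hzY ⟨c, hc⟩)
      by_cases hzx : ∃ c : Compl v, z = fun i => c * x' i
      · obtain ⟨c, hc⟩ := hzx
        have hc0 : c ≠ 0 := by
          rintro rfl
          apply hz0
          rw [hc]
          funext i
          simp
        have hYx' : onLine (FE v F) Y x' = 0 := line_smul h5 hFh hc0 hc hYz'
        have hS' : dminor (FE v F) d Y x' S ≠ 0 := minor_smul h5 hFh hc hS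
        exact h3 k K hfun n d r F v w hv hw hind hG.one_le hG.hom x' y S hx'0
          (line_symm h6 h7 hFh hYx') (minor_symm h6 hFh hS') ρ η hρ hη
      · obtain ⟨S', hS'⟩ := hgx' z hx'z' (fun c hc => hzx ⟨c, hc⟩)
        obtain ⟨ρ1, hρ1, hnear⟩ := h4 k K hfun n d F v hv hG.one_le hG.hom x' z S' hx'z' hS' ρ hρ
        obtain ⟨y1, hFy1, hy1z, hy1w⟩ := h3 k K hfun n d r F v w hv hw hind hG.one_le hG.hom z y S
          hz0 (line_symm h6 h7 hFh hYz') (minor_symm h6 hFh hS) ρ1 η hρ1 hη
        obtain ⟨x'', hx''x', hline, hmin⟩ := hnear (fun i => emb v (y1 i)) hy1z (by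
          rw [hFY, hFy1, map_zero])
        choose c hc0 hc using hy1w
        have hx''0 : x'' ≠ 0 := hρ' x'' hx''x'
        obtain ⟨y2, hFy2, hy2x'', hy2w⟩ := h3 k K hfun n d r F v w hv hw hind hG.one_le hG.hom x''
          y1 S' hx''0 hline hmin ρ (fun l => η l * (w l (c l))⁻¹) hρ (fun l =>
            mul_ne_zero (hη l) (inv_ne_zero ((Valuation.ne_zero_iff _).mpr (hc0 l))))
        refine ⟨y2, hFy2, ?_, ?_⟩
        · intro i
          have e1 : emb v (y2 i) - x' i = (emb v (y2 i) - x'' i) + (x'' i - x' i) := by ring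
          rw [e1]
          exact (vE v).map_add_le (hy2x'' i) (hx''x' i)
        · intro l
          obtain ⟨c', hc'0, hc'⟩ := hy2w l
          refine ⟨c l * c', mul_ne_zero (hc0 l) hc'0, fun i => ?_⟩
          have e1 : c l * c' * y2 i - y i = c l * (c' * y2 i - y1 i) + (c l * y1 i - y i) := by
            ring
          rw [e1]
          apply (w l).map_add_le _ (hc l i)
          rw [map_mul]
          have hwc : w l (c l) ≠ 0 := (Valuation.ne_zero_iff _).mpr (hc0 l)
          calc w l (c l) * w l (c' * y2 i - y1 i) ≤ w l (c l) * (η l * (w l (c l))⁻¹) :=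
                mul_le_mul' le_rfl (hc' i)
            _ = η l := by
                rw [mul_comm, inv_mul_cancel_right₀ hwc]
  obtain ⟨y', hFy', hy'x', hy'w⟩ := key
  refine ⟨y', hFy', hρ0 y' (fun i => (hy'x' i).trans hρρ0), ?_, hy'w⟩
  intro i
  have e : emb v (y' i) - x i = (emb v (y' i) - x' i) + (x' i - x i) := by ring
  rw [e]
  exact (vE v).map_add_le ((hy'x' i).trans (hρρ0.trans hρ0θ)) ((hx'x i).trans hθ'θ)

end Pool.Agent.WL
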