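import Pool.Agent.WL.Targets

/-!
# The value of the form at a solution of the refined system
-/

set_option autoImplicit false

open MvPolynomial

namespace Pool.Agent.WL

theorem p_STR (h1 : T_BIN) : T_STR := by
  intro σ A _ F d N x q φ hd hF hS
  obtain ⟨ψ, B, hφ, h0, hj⟩ := hS
  have e : φ = fun i => q * x i + PowerSeries.X ^ N * ψ i := funext hφ
  rw [e, h1 σ (PowerSeries A) F d hF x ψ q (PowerSeries.X ^ N), Finset.sum_range_succ]
  have key : ∀ m : ℕ, m + 1 ≤ d → ∑ j ∈ Finset.range (m + 1),
      q ^ (d - j) * ((PowerSeries.X : PowerSeries A) ^ N) ^ j * (onLine F x ψ).coeff j =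
      q ^ (d - m) * (PowerSeries.X ^ N) ^ (m + 1) * B m := by
    intro m
    induction m with
    | zero =>
      intro _
      rw [Finset.sum_range_one, h0]
      ring
    | succ m ih =>
      intro hm
      rw [Finset.sum_range_succ, ih (by omega), hj m (by omega)]
      have e1 : d - m = d - (m + 1) + 1 := by omega
      rw [e1]
      ring
  obtain ⟨m, rfl⟩ : ∃ m, d = m + 1 := ⟨d - 1, by omega⟩
  rw [key m le_rfl]
  have e2 : (PowerSeries.X : PowerSeries A) ^ ((m + 1) * N) = (PowerSeries.X ^ N) ^ (m + 1) := by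
    rw [← pow_mul, mul_comm]
  rw [e2]
  refine dvd_add ?_ ?_
  · rw [mul_right_comm]
    exact dvd_mul_left _ _
  · rw [mul_right_comm]
    exact dvd_mul_left _ _

end Pool.Agent.WL
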