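import Pool.Agent.WL.Targets

/-!
# The two points of a line may be exchanged
-/

set_option autoImplicit false

open MvPolynomial

namespace Pool.Agent.WL

namespace SYM_

variable {σ A : Type} [CommRing A]

theorem onLine_eval (F : MvPolynomial σ A) (w x : σ → A) :
    onLine F w x = eval (fun i => (Polynomial.X : Polynomial A) * Polynomial.C (x i) +
      1 * Polynomial.C (w i)) (F.map Polynomial.C) := by
  unfold onLine
  rw [eval_map]
  congr 1
  funext i
  ring

theorem coeff_swap (h1 : T_BIN) (h2 : T_DEG) (F : MvPolynomial σ A) (d : ℕ)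
    (hF : F.IsHomogeneous d) (x w : σ → A) (j : ℕ) (hj : j ≤ d) :
    (onLine F w x).coeff j = (onLine F x w).coeff (d - j) := by
  have hF' : (F.map (Polynomial.C : A →+* Polynomial A)).IsHomogeneous d := hF.map _
  have e := h1 σ (Polynomial A) (F.map Polynomial.C) d hF' (fun i => Polynomial.C (x i))
    (fun i => Polynomial.C (w i)) Polynomial.X 1
  rw [← onLine_eval F w x] at e
  rw [e, Polynomial.finsetSum_coeff]
  have e2 : ∀ i, (onLine (F.map (Polynomial.C : A →+* Polynomial A))
      (fun i => Polynomial.C (x i)) (fun i => Polynomial.C (w i))).coeff i =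
      Polynomial.C ((onLine F x w).coeff i) := by
    intro i
    have := onLine_map (Polynomial.C : A →+* Polynomial A) F x w
    rw [this, Polynomial.coeff_map]
  have e3 : ∀ i ∈ Finset.range (d + 1), ((Polynomial.X : Polynomial A) ^ (d - i) * 1 ^ i *
      (onLine (F.map (Polynomial.C : A →+* Polynomial A))
      (fun i => Polynomial.C (x i)) (fun i => Polynomial.C (w i))).coeff i).coeff j =
      if i = d - j then (onLine F x w).coeff (d - j) else 0 := by
    intro i hi
    have hi' : i ≤ d := by have := Finset.mem_range.mp hi; omega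
    rw [e2, one_pow, mul_one, Polynomial.coeff_mul_C, Polynomial.coeff_X_pow]
    by_cases h : i = d - j
    · rw [if_pos (by omega), if_pos h, one_mul, h]
    · rw [if_neg (by omega), if_neg h, zero_mul]
  rw [Finset.sum_congr rfl e3, Finset.sum_ite_eq' , if_pos (Finset.mem_range.mpr (by omega))]

end SYM_

open SYM_ in
theorem p_SYM (h1 : T_BIN) (h2 : T_DEG) : T_SYM := by
  classical
  intro σ A _ F d hF x w
  refine ⟨fun j hj => coeff_swap h1 h2 F d hF x w j hj, fun S => ?_⟩
  have hm : (dmat F d w x).submatrix id S =
      ((dmat F d x w).submatrix id S).submatrix (Fin.revPerm : Equiv.Perm (Fin d)) id := by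
    ext l i
    simp only [Matrix.submatrix_apply, dmat, id]
    have hd : 1 ≤ d := by have := l.2; omega
    have hp : (pderiv (S i) F).IsHomogeneous (d - 1) := hF.pderiv
    rw [coeff_swap h1 h2 (pderiv (S i) F) (d - 1) hp x w l (by have := l.2; omega)]
    congr 1
    simp only [Fin.revPerm_apply, Fin.val_rev]
    omega
  have hdet : dminor F d w x S =
      ((Equiv.Perm.sign (Fin.revPerm : Equiv.Perm (Fin d)) : ℤ) : A) * dminor F d x w S := by
    unfold dminor
    rw [hm, Matrix.det_permute]
  rw [hdet]
  rcases Int.units_eq_one_or (Equiv.Perm.sign (Fin.revPerm : Equiv.Perm (Fin d))) with h | h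
  · left; rw [h]; simp
  · right; rw [h]; simp

end Pool.Agent.WL
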