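import Pool.Agent.WL.Targets

/-!
# Change of the direction of a line
-/

set_option autoImplicit false

open MvPolynomial

namespace Pool.Agent.WL

namespace TRI_

variable {σ A : Type} [CommRing A]

lemma coeff_pow (α : A) (m k : ℕ) :
    ((1 + Polynomial.X * Polynomial.C α : Polynomial A) ^ m).coeff k =
      (m.choose k : A) * α ^ k := by
  have h : (1 + Polynomial.X * Polynomial.C α : Polynomial A) ^ m =
      ((1 + Polynomial.X : Polynomial A) ^ m).comp (Polynomial.C α * Polynomial.X) := by
    simp only [Polynomial.pow_comp, Polynomial.add_comp, Polynomial.one_comp,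
      Polynomial.X_comp]
    rw [mul_comm]
  rw [h, Polynomial.comp_C_mul_X_coeff, Polynomial.coeff_one_add_X_pow]

lemma coeff_term (α β c : A) (m i j : ℕ) :
    ((1 + Polynomial.X * Polynomial.C α : Polynomial A) ^ m *
      (Polynomial.X * Polynomial.C β) ^ i * Polynomial.C c).coeff j =
      if i ≤ j then (m.choose (j - i) : A) * α ^ (j - i) * β ^ i * c else 0 := by
  have h : (1 + Polynomial.X * Polynomial.C α : Polynomial A) ^ m *
      (Polynomial.X * Polynomial.C β) ^ i * Polynomial.C c =
      ((1 + Polynomial.X * Polynomial.C α : Polynomial A) ^ m * Polynomial.C (β ^ i * c)) *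
        Polynomial.X ^ i := by
    rw [mul_pow, Polynomial.C_mul, Polynomial.C_pow]
    ring
  rw [h, Polynomial.coeff_mul_X_pow']
  split_ifs with hij
  · rw [Polynomial.coeff_mul_C, coeff_pow]
    ring
  · rfl

lemma expand (h1 : T_BIN) (F : MvPolynomial σ A) (d : ℕ) (hF : F.IsHomogeneous d)
    (x w : σ → A) (α β : A) :
    onLine F x (fun i => α * x i + β * w i) = ∑ i ∈ Finset.range (d + 1),
      (1 + Polynomial.X * Polynomial.C α) ^ (d - i) * (Polynomial.X * Polynomial.C β) ^ i *
        Polynomial.C ((onLine F x w).coeff i) := by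
  have h2 := h1 σ (Polynomial A) (F.map Polynomial.C) d (hF.map _)
    (fun i => Polynomial.C (x i)) (fun i => Polynomial.C (w i))
    (1 + Polynomial.X * Polynomial.C α) (Polynomial.X * Polynomial.C β)
  rw [onLine_map] at h2
  simp only [Polynomial.coeff_map] at h2
  rw [← h2]
  unfold onLine
  rw [eval_map]
  congr 1
  funext i
  rw [Polynomial.C_add, Polynomial.C_mul, Polynomial.C_mul]
  ring

lemma coeff_big (h1 : T_BIN) (F : MvPolynomial σ A) (d : ℕ) (hF : F.IsHomogeneous d)
    (x w : σ → A) (j : ℕ) (hj : d < j) : (onLine F x w).coeff j = 0 := by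
  have h2 := expand h1 F d hF x w 0 1
  have h3 : (fun i => (0 : A) * x i + 1 * w i) = w := by
    funext i
    ring
  rw [h3] at h2
  rw [h2, Polynomial.finsetSum_coeff]
  refine Finset.sum_eq_zero fun i hi => ?_
  rw [Finset.mem_range] at hi
  rw [coeff_term]
  split_ifs with hij
  · have : j - i ≠ 0 := by omega
    rw [zero_pow this]
    ring
  · rfl

lemma coeff_tri (h1 : T_BIN) (F : MvPolynomial σ A) (d : ℕ) (hF : F.IsHomogeneous d)
    (x w : σ → A) (α β : A) (j : ℕ) :
    (onLine F x (fun i => α * x i + β * w i)).coeff j = ∑ i ∈ Finset.range (j + 1),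
    ((d - i).choose (j - i) : A) * α ^ (j - i) * β ^ i * (onLine F x w).coeff i := by
  rw [expand h1 F d hF, Polynomial.finsetSum_coeff]
  simp only [coeff_term]
  rw [← Finset.sum_filter]
  have h2 : ∀ i ∈ Finset.range (j + 1), i ∉ (Finset.range (d + 1)).filter (fun i => i ≤ j) →
      ((d - i).choose (j - i) : A) * α ^ (j - i) * β ^ i * (onLine F x w).coeff i = 0 := by
    intro i hi hi'
    rw [Finset.mem_filter, Finset.mem_range] at hi'
    rw [Finset.mem_range] at hi
    rw [coeff_big h1 F d hF x w i (by omega), mul_zero]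
  refine Finset.sum_subset ?_ h2
  intro i hi
  rw [Finset.mem_filter] at hi
  rw [Finset.mem_range]
  omega

/-- the triangular matrix -/
def TM (d : ℕ) (α β : A) : Matrix (Fin d) (Fin d) A := fun l k =>
  if (k : ℕ) ≤ l then (((d - 1 - k : ℕ)).choose (l - k) : A) * α ^ ((l : ℕ) - k) * β ^ (k : ℕ)
  else 0

lemma det_TM (d : ℕ) (α β : A) : (TM d α β).det = β ^ (d * (d - 1) / 2) := by
  have h : (TM d α β).BlockTriangular OrderDual.toDual := by
    intro l k hlk
    have : (l : ℕ) < k := hlk
    unfold TM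
    rw [if_neg (by omega)]
  rw [Matrix.det_of_lowerTriangular _ h]
  have h2 : ∀ l : Fin d, TM d α β l l = β ^ (l : ℕ) := by
    intro l
    unfold TM
    simp
  rw [Finset.prod_congr rfl fun l _ => h2 l, Finset.prod_pow_eq_pow_sum,
    Fin.sum_univ_eq_sum_range (fun l => l) d, Finset.sum_range_id]

lemma dmat_tri (h1 : T_BIN) (F : MvPolynomial σ A) (d : ℕ) (hF : F.IsHomogeneous d)
    (x w : σ → A) (α β : A) :
    dmat F d x (fun i => α * x i + β * w i) = TM d α β * dmat F d x w := by
  ext l i
  rw [Matrix.mul_apply]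
  unfold dmat TM
  rw [coeff_tri h1 (pderiv i F) (d - 1) hF.pderiv]
  have h2 : ∑ k : Fin d, (if (k : ℕ) ≤ l then
      (((d - 1 - k : ℕ)).choose (l - k) : A) * α ^ ((l : ℕ) - k) * β ^ (k : ℕ) else 0) *
      (onLine (pderiv i F) x w).coeff k = ∑ k ∈ Finset.range d, (if k ≤ (l : ℕ) then
      (((d - 1 - k : ℕ)).choose (l - k) : A) * α ^ ((l : ℕ) - k) * β ^ k else 0) *
      (onLine (pderiv i F) x w).coeff k :=
    Fin.sum_univ_eq_sum_range (fun k => (if k ≤ (l : ℕ) then
      (((d - 1 - k : ℕ)).choose (l - k) : A) * α ^ ((l : ℕ) - k) * β ^ k else 0) *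
      (onLine (pderiv i F) x w).coeff k) d
  rw [h2]
  have h3 : ∀ k ∈ Finset.range (l + 1),
      ((d - 1 - k : ℕ).choose (l - k) : A) * α ^ ((l : ℕ) - k) * β ^ k *
        (onLine (pderiv i F) x w).coeff k = (if k ≤ (l : ℕ) then
      (((d - 1 - k : ℕ)).choose (l - k) : A) * α ^ ((l : ℕ) - k) * β ^ k else 0) *
      (onLine (pderiv i F) x w).coeff k := by
    intro k hk
    rw [Finset.mem_range] at hk
    rw [if_pos (by omega)]
  rw [Finset.sum_congr rfl h3]
  refine Finset.sum_subset ?_ ?_
  · intro k hk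
    rw [Finset.mem_range] at hk ⊢
    have := l.2
    omega
  · intro k _ hk
    rw [Finset.mem_range] at hk
    rw [if_neg (by omega), zero_mul]

end TRI_

open TRI_ in
/-- TRI -/
theorem p_TRI (h1 : T_BIN) : T_TRI := by
  intro σ A _ F d hF x w α β
  refine ⟨coeff_tri h1 F d hF x w α β, fun S => ?_⟩
  unfold dminor
  rw [dmat_tri h1 F d hF]
  have h2 : (TM d α β * dmat F d x w).submatrix id S =
      TM d α β * (dmat F d x w).submatrix id S := by
    ext l k
    simp [Matrix.mul_apply, Matrix.submatrix_apply]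
  rw [h2, Matrix.det_mul, det_TM]

end Pool.Agent.WL
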