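import Pool.Agent.WL.FIN2
import Pool.Agent.WL.BIN
import Pool.Agent.WL.DEG
import Pool.Agent.WL.TRI
import Pool.Agent.WL.SYM
import Pool.Agent.WL.EUL
import Pool.Agent.WL.AVOID
import Pool.Agent.WL.TAY
import Pool.Agent.WL.HOMJ
import Pool.Agent.WL.GL
import Pool.Agent.WL.RANK
import Pool.Agent.WL.HT
import Pool.Agent.WL.NS
import Pool.Agent.WL.ELIM
import Pool.Agent.WL.ORD
import Pool.Agent.WL.COMB
import Pool.Agent.WL.SPAN
import Pool.Agent.WL.SYSF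
import Pool.Agent.WL.STR
import Pool.Agent.WL.CONTACT
import Pool.Agent.WL.NC
import Pool.Agent.WL.MINP
import Pool.Agent.WL.ZR
import Pool.Agent.WL.CNT
import Pool.Agent.WL.CNT2
import Pool.Agent.WL.CNT3
import Pool.Agent.WL.LOSS
import Pool.Agent.WL.FREE
import Pool.Agent.WL.NEWT
import Pool.Agent.WL.CA
import Pool.Agent.WL.CB
import Pool.Agent.WL.FINN
import Pool.Agent.WL.RES
import Pool.Agent.WL.PAR
import Pool.Agent.WL.GG
import Pool.Agent.WL.ZERO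
import Pool.Agent.WL.COD
import Pool.Agent.WL.EE
import Pool.Agent.WL.PKG
import Pool.Agent.WL.GOOD
import Pool.Agent.WL.IRR
import Pool.Agent.WL.RSLT
import Pool.Agent.WL.CHAIN
import Pool.Agent.WL.SINGLE
import Pool.Agent.WL.MOVE
import Pool.Agent.WL.NEAR
import Pool.Agent.WL.FIRST
import Pool.Agent.WL.STEP
import Pool.Agent.WL.GENF
import Pool.Agent.WL.CHAR0
import Pool.Agent.WL.LARGE

/-!
# All targets, part 1
-/

set_option autoImplicit false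

namespace Pool.Agent.WL

theorem a_TRI : T_TRI := p_TRI p_BIN
theorem a_SYM : T_SYM := p_SYM p_BIN p_DEG
theorem a_AVOID : T_AVOID := p_AVOID p_EUL
theorem a_RANK : T_RANK := p_RANK p_DEG
theorem a_STR : T_STR := p_STR p_BIN
theorem a_CON : T_CON := p_CON a_TRI p_DEG
theorem a_NC : T_NC := p_NC p_TAY
theorem a_NEWT : T_NEWT := p_NEWT p_TAY
theorem a_ZR : T_ZR := p_ZR p_ORD p_COMB p_SPAN a_STR
theorem a_CNT : T_CNT := p_CNT a_NC p_GL
theorem a_CNT2 : T_CNT2 := p_CNT2 a_NC p_GL p_DEG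
theorem a_LOSS : T_LOSS := p_LOSS a_CNT a_CNT2 p_CNT3 a_TRI p_DEG
theorem a_FREE : T_FREE := p_FREE a_AVOID a_TRI p_DEG
theorem a_A : T_A := p_A p_HT p_NS p_ORD p_COMB a_ZR p_SYSF a_CON a_LOSS a_TRI p_DEG
theorem a_B : T_B := p_B p_HT p_NS p_ORD p_COMB a_ZR p_SYSF p_MINP a_CNT a_TRI p_DEG
theorem a_PKG : T_PKG := p_PKG p_RES p_G p_PAR p_ZERO p_E
theorem a_GOOD : T_GOOD := p_GOOD p_ELIM p_HOMJ p_DEG a_TRI
theorem a_CHAIN : T_CHAIN := p_CHAIN p_DEG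
theorem a_SINGLE : T_SINGLE := p_SINGLE a_PKG a_A a_FREE
theorem a_MOVE : T_MOVE := p_MOVE a_PKG a_B p_COD p_RES a_TRI a_SYM p_DEG
theorem a_NEAR : T_NEAR := p_NEAR p_PAR p_RES p_E a_NEWT p_GL p_DEG
theorem a_FIRST (h : T_DENS) : T_FIRST := p_FIRST h a_SINGLE
theorem a_STEP (h : T_DENS) : T_STEP := p_STEP h a_CHAIN a_MOVE a_NEAR a_TRI a_SYM p_DEG
theorem a_GENF : T_GENF := p_GENF a_RANK p_DEG
theorem a_CHAR0 : T_CHAR0 := p_CHAR0 p_IRR a_GENF a_GOOD p_NS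
theorem a_LARGE : T_LARGE := p_LARGE a_CHAR0
theorem a_WA (h : T_DENS) : T_WA := wam (a_FIRST h) (a_STEP h)

end Pool.Agent.WL
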