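import Pool.Agent.WL.Targets4
import Pool.Agent.WL.FIN2

/-!
# The final statements from the targets, part 4
-/

set_option autoImplicit false

open MvPolynomial WithZero Topology
open Pool.Agent.WA

namespace Pool.Agent.WL

namespace FIN4_

/-- Weak approximation for forms with good linear sections. -/
theorem of_QA (hWA : T_WA) (hQA0 : T_QA0) (hQAS : T_QAS) (hREDR : T_REDR) (k K : Type) [Field k]
    [IsAlgClosed k] [Field K] [Algebra k K] (hfun : FunField k K) (hC1 : C1 K) (n' d : ℕ)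
    (hd : 2 ≤ d) (hn' : d ^ 2 ≤ n') (t : ℕ) : ∀ F : MvPolynomial (Fin (n' + t + 1)) K,
    F.IsHomogeneous d → SmoothForm F → QA K (n' + t) n' d F → WAOne k K (n' + t) F := by
  have hinf : Infinite K := Infinite.of_injective (algebraMap k K) (algebraMap k K).injective
  induction t with
  | zero =>
    intro F hF hsm hQ
    obtain ⟨Δ, h1, h2⟩ := hQA0 K n' d F (by omega) hF hQ
    exact hWA k K hfun hC1 n' d F Δ ⟨by omega, hn', hF, hsm, h1, h2⟩
  | succ t ih =>
    intro F hF hsm hQ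
    obtain ⟨ρ, hρ, hρ'⟩ := hQAS K (n' + t) n' d F (by omega) hQ
    exact hREDR k K (n' + t) d F ρ hd (by nlinarith) hF hsm hρ fun h hh hsF hss =>
      ih (sec F h) hsF hss (hρ' h hh)

end FIN4_

open FIN4_ FIN2_ in
/-- The fourth statement: degrees with binomials prime to `p`. -/
theorem fourth (hWA : T_WA) (hFIN : T_FIN) (hIRR : T_IRR) (hONE : T_ONE) (hGENA : T_GENA)
    (hOPA : T_OPA) (hQA0 : T_QA0) (hQAS : T_QAS) (hREDR : T_REDR) (n d : ℕ) (hd : 1 ≤ d)
    (hn : d ^ 2 ≤ n) (hn2 : d ^ 2 + d ≤ n + 2) (p : ℕ) [Fact p.Prime]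
    (hp : ∀ l < d, ¬ p ∣ (d - 1).choose l) (k : Type) [Field k] [IsAlgClosed k]
    [CharP k p] (K : Type) [Field K] [Algebra (RatFunc k) K] [FiniteDimensional (RatFunc k) K]
    (F : MvPolynomial (Fin (n + 1)) K) (hF : F.IsHomogeneous d)
    (hsm : ∀ x : Fin (n + 1) → AlgebraicClosure K, x ≠ 0 → MvPolynomial.aeval x F = 0 →
      ∃ i, MvPolynomial.aeval x (MvPolynomial.pderiv i F) ≠ 0)
    (m : ℕ) (v : Fin m → Valuation K (WithZero (Multiplicative ℤ)))
    (hnt : ∀ j, ∃ a : K, v j a ≠ 0 ∧ v j a ≠ 1)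
    (htr : ∀ j (c : k), c ≠ 0 → v j (algebraMap (RatFunc k) K (RatFunc.C c)) = 1)
    (hne : ∀ i j, i ≠ j → ¬ (v i).IsEquiv (v j))
    (x : ∀ j, Fin (n + 1) → UniformSpace.Completion (WithVal (v j)))
    (hx : ∀ j, x j ≠ 0 ∧
        MvPolynomial.eval₂
          ((UniformSpace.Completion.coeRingHom : WithVal (v j) →+* _).comp
            (WithVal.equiv (v j)).symm.toRingHom) (x j) F = 0)
    (U : ∀ j, Set (Fin (n + 1) → UniformSpace.Completion (WithVal (v j))))
    (hU : ∀ j, IsOpen (U j) ∧ x j ∈ U j) :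
    ∃ y : Fin (n + 1) → K, y ≠ 0 ∧ MvPolynomial.eval y F = 0 ∧
        ∀ j, ∃ c : UniformSpace.Completion (WithVal (v j)), c ≠ 0 ∧
          (fun i => c * ((UniformSpace.Completion.coeRingHom : WithVal (v j) →+* _).comp
            (WithVal.equiv (v j)).symm.toRingHom) (y i)) ∈ U j := by
  have hsm' : SmoothForm F := smoothForm_of_algebraicClosure hsm
  refine frozen_of_one k K n F ?_ m v hnt htr hne x hx U hU
  intro _ _
  have hfun : FunField k K := hFIN k K
  have hC1 : C1 K := C1.functionField k K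
  have hchK : CharP K p := by
    have h1 : CharP (RatFunc k) p := inferInstance
    exact charP_of_injective_algebraMap (algebraMap (RatFunc k) K).injective p
  rcases eq_or_lt_of_le hd with h1 | h2
  · subst h1
    exact waOne_of_good hWA k K hfun hC1 n 1 F 1 (hONE K n F (by simpa using hn) hF hsm')
  · obtain ⟨n', rfl⟩ : ∃ n', n = n' + (d - 2) := ⟨n - (d - 2), by omega⟩
    have h2d : 2 ≤ d := h2
    have hn' : d ^ 2 ≤ n' := by omega
    have h2n : 2 * d ≤ n' := by nlinarith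
    have hirr : Irreducible F := hIRR K (n' + (d - 2)) d F hd (Or.inr (by omega)) hF hsm'
    obtain ⟨M, _, _, _, a, x₀, ha, hx₀, hFx, hall⟩ := hGENA K (n' + (d - 2)) n' d F hd hF hsm'
      hirr (fun l hl h => hp l hl ((CharP.cast_eq_zero_iff K p _).mp h)) (by omega) (by omega)
      (by omega) (by omega)
    have hQ : QA K (n' + (d - 2)) n' d F :=
      hOPA K (n' + (d - 2)) n' d F hd hF hirr.ne_zero M a x₀ ha hx₀ hFx hall
    exact of_QA hWA hQA0 hQAS hREDR k K hfun hC1 n' d h2d hn' (d - 2) F hF hsm' hQ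

end Pool.Agent.WL
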