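import Pool.Agent.WL.Targets4
import Pool.Agent.WL.GPT
import Pool.Agent.WL.CHAR0

/-!
# Generic linear sections have a point with all lines free
-/

set_option autoImplicit false

open MvPolynomial

namespace Pool.Agent.WL

namespace GENA_

section Sub

variable {A : Type} [CommRing A] {n n' : ℕ}

theorem lsub_C (c : A) (a : Fin (n + 1) → Fin (n' + 1) → A) :
    lsub (C c : MvPolynomial (Fin (n + 1)) A) a = C c := by
  unfold lsub
  rw [aeval_C]
  rfl

theorem lsub_add (F G : MvPolynomial (Fin (n + 1)) A) (a : Fin (n + 1) → Fin (n' + 1) → A) :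
    lsub (F + G) a = lsub F a + lsub G a := by
  unfold lsub
  rw [map_add]

theorem lsub_mul (F G : MvPolynomial (Fin (n + 1)) A) (a : Fin (n + 1) → Fin (n' + 1) → A) :
    lsub (F * G) a = lsub F a * lsub G a := by
  unfold lsub
  rw [map_mul]

theorem lsub_X (i : Fin (n + 1)) (a : Fin (n + 1) → Fin (n' + 1) → A) :
    lsub (X i : MvPolynomial (Fin (n + 1)) A) a = ∑ j, C (a i j) * X j := by
  unfold lsub
  rw [aeval_X]

theorem lsub_zero (a : Fin (n + 1) → Fin (n' + 1) → A) :
    lsub (0 : MvPolynomial (Fin (n + 1)) A) a = 0 := by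
  unfold lsub
  rw [map_zero]

theorem lin_hom (i : Fin (n + 1)) (a : Fin (n + 1) → Fin (n' + 1) → A) :
    (∑ j, C (a i j) * X j : MvPolynomial (Fin (n' + 1)) A).IsHomogeneous 1 := by
  refine IsHomogeneous.sum _ _ _ fun j _ => ?_
  have h : (C (a i j) * X j : MvPolynomial (Fin (n' + 1)) A).IsHomogeneous (0 + 1) :=
    (isHomogeneous_C _ _).mul (isHomogeneous_X _ _)
  simpa using h

theorem lsub_hom {d : ℕ} (F : MvPolynomial (Fin (n + 1)) A) (hF : F.IsHomogeneous d)
    (a : Fin (n + 1) → Fin (n' + 1) → A) : (lsub F a).IsHomogeneous d := by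
  unfold lsub
  have h := hF.aeval (fun i => ∑ j, C (a i j) * X j) (fun i => lin_hom i a)
  simpa using h

theorem eval_lsub (F : MvPolynomial (Fin (n + 1)) A) (a : Fin (n + 1) → Fin (n' + 1) → A)
    (x : Fin (n' + 1) → A) : eval x (lsub F a) = eval (fun i => ∑ j, a i j * x j) F := by
  induction F using MvPolynomial.induction_on with
  | C c => rw [lsub_C, eval_C, eval_C]
  | add p q hp hq => rw [lsub_add, eval_add, eval_add, hp, hq]
  | mul_X p i hp =>
    rw [lsub_mul, eval_mul, hp, lsub_X, eval_mul, eval_X, map_sum]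
    simp only [eval_mul, eval_C, eval_X]

theorem onLine_sum {ι σ : Type} (s : Finset ι) (f : ι → MvPolynomial σ A) (x w : σ → A) :
    onLine (∑ i ∈ s, f i) x w = ∑ i ∈ s, onLine (f i) x w := by
  classical
  induction s using Finset.induction_on with
  | empty => rw [Finset.sum_empty, Finset.sum_empty, GPT_.onLine_zero]
  | insert i s hi ih => rw [Finset.sum_insert hi, Finset.sum_insert hi, GPT_.onLine_add, ih]

theorem onLine_lsub (F : MvPolynomial (Fin (n + 1)) A) (a : Fin (n + 1) → Fin (n' + 1) → A)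
    (x w : Fin (n' + 1) → A) : onLine (lsub F a) x w =
      onLine F (fun i => ∑ j, a i j * x j) (fun i => ∑ j, a i j * w j) := by
  induction F using MvPolynomial.induction_on with
  | C c => rw [lsub_C, GPT_.onLine_C, GPT_.onLine_C]
  | add p q hp hq => rw [lsub_add, GPT_.onLine_add, GPT_.onLine_add, hp, hq]
  | mul_X p i hp =>
    rw [lsub_mul, GPT_.onLine_mul, hp, lsub_X, GPT_.onLine_mul, GPT_.onLine_X, onLine_sum]
    congr 1
    simp only [GPT_.onLine_mul, GPT_.onLine_C, GPT_.onLine_X, map_sum, Polynomial.C_mul,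
      Finset.mul_sum]
    rw [← Finset.sum_add_distrib]
    refine Finset.sum_congr rfl fun j _ => ?_
    ring

theorem pderiv_lsub (F : MvPolynomial (Fin (n + 1)) A) (a : Fin (n + 1) → Fin (n' + 1) → A)
    (j : Fin (n' + 1)) : pderiv j (lsub F a) = ∑ i, C (a i j) * lsub (pderiv i F) a := by
  classical
  induction F using MvPolynomial.induction_on with
  | C c =>
    rw [lsub_C, pderiv_C]
    simp only [pderiv_C, lsub_zero, mul_zero, Finset.sum_const_zero]
  | add p q hp hq =>
    rw [lsub_add, map_add, hp, hq, ← Finset.sum_add_distrib]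
    refine Finset.sum_congr rfl fun i _ => ?_
    rw [map_add, lsub_add, mul_add]
  | mul_X p k hp =>
    rw [lsub_mul, pderiv_mul, hp, Finset.sum_mul]
    have e1 : ∀ i, C (a i j) * lsub (pderiv i (p * X k)) a =
        C (a i j) * lsub (pderiv i p) a * lsub (X k) a +
        (if i = k then C (a i j) * lsub p a else 0) := by
      intro i
      rw [pderiv_mul, lsub_add, lsub_mul, lsub_mul, mul_add, mul_assoc]
      congr 1
      by_cases h : i = k
      · subst h
        rw [pderiv_X_self, if_pos rfl]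
        have : lsub (1 : MvPolynomial (Fin (n + 1)) A) a = 1 := by
          unfold lsub
          rw [map_one]
        rw [this, mul_one]
      · rw [pderiv_X_of_ne (fun h' => h h'.symm), if_neg h, lsub_zero, mul_zero, mul_zero]
    rw [Finset.sum_congr rfl fun i _ => e1 i, Finset.sum_add_distrib]
    congr 1
    rw [Finset.sum_ite_eq' Finset.univ k, if_pos (Finset.mem_univ k), lsub_X, map_sum]
    have e2 : ∀ i, pderiv j (C (a k i) * X i : MvPolynomial (Fin (n' + 1)) A) =
        if i = j then C (a k i) else 0 := by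
      intro i
      rw [pderiv_C_mul]
      by_cases h : i = j
      · subst h
        rw [pderiv_X_self, if_pos rfl, mul_one]
      · rw [pderiv_X_of_ne h, if_neg h, mul_zero]
    rw [Finset.sum_congr rfl fun i _ => e2 i, Finset.sum_ite_eq' Finset.univ j,
      if_pos (Finset.mem_univ j)]
    ring

theorem dmat_lsub (F : MvPolynomial (Fin (n + 1)) A) (a : Fin (n + 1) → Fin (n' + 1) → A)
    (d : ℕ) (x w : Fin (n' + 1) → A) (l : Fin d) (j : Fin (n' + 1)) :
    dmat (lsub F a) d x w l j =
      ∑ i, a i j * dmat F d (fun i => ∑ j, a i j * x j) (fun i => ∑ j, a i j * w j) l i := by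
  unfold dmat
  rw [pderiv_lsub, onLine_sum, Polynomial.finsetSum_coeff]
  refine Finset.sum_congr rfl fun i _ => ?_
  rw [GPT_.onLine_mul, GPT_.onLine_C, Polynomial.coeff_C_mul, onLine_lsub]

end Sub

/-- A field with algebraically independent elements. -/
theorem exists_indep (k₀ : Type) [Field k₀] (ι : Type) : ∃ (M : Type) (_ : Field M)
    (_ : IsAlgClosed M) (_ : Algebra k₀ M) (a : ι → M), AlgebraicIndependent k₀ a := by
  refine ⟨AlgebraicClosure (FractionRing (MvPolynomial ι k₀)), inferInstance, inferInstance,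
    inferInstance, fun μ => algebraMap (MvPolynomial ι k₀) _ (X μ), ?_⟩
  have hinj : Function.Injective (algebraMap (MvPolynomial ι k₀)
      (AlgebraicClosure (FractionRing (MvPolynomial ι k₀)))) := by
    rw [IsScalarTower.algebraMap_eq (MvPolynomial ι k₀) (FractionRing (MvPolynomial ι k₀)) _]
    exact (algebraMap (FractionRing (MvPolynomial ι k₀))
      (AlgebraicClosure (FractionRing (MvPolynomial ι k₀)))).injective.comp
        (IsFractionRing.injective (MvPolynomial ι k₀) (FractionRing (MvPolynomial ι k₀)))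
  have h2 : AlgebraicIndependent k₀ (X : ι → MvPolynomial ι k₀) := algebraicIndependent_X _ _
  exact h2.map' (f := IsScalarTower.toAlgHom k₀ (MvPolynomial ι k₀) _) hinj

/-- The matrix with the columns `ξ - A ζ` and `A`. -/
noncomputable def mtx {R : Type} [CommRing R] {n m : ℕ} (ξ : Fin (n + 1) → R) (ζ : Fin m → R)
    (A : Fin (n + 1) × Fin m → R) (i : Fin (n + 1)) : Fin (m + 1) → R :=
  Fin.cons (ξ i - ∑ j, A (i, j) * ζ j) (fun j => A (i, j))

theorem map_mtx {R S : Type} [CommRing R] [CommRing S] (φ : R →+* S) {n m : ℕ}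
    (ξ : Fin (n + 1) → R) (ζ : Fin m → R) (A : Fin (n + 1) × Fin m → R) (i : Fin (n + 1))
    (j : Fin (m + 1)) : φ (mtx ξ ζ A i j) =
      mtx (fun i => φ (ξ i)) (fun j => φ (ζ j)) (fun ij => φ (A ij)) i j := by
  unfold mtx
  refine Fin.cases ?_ (fun j => ?_) j
  · rw [Fin.cons_zero, Fin.cons_zero, map_sub, map_sum]
    simp only [map_mul]
  · rw [Fin.cons_succ, Fin.cons_succ]

theorem mtx_mul {R : Type} [CommRing R] {n m : ℕ} (ξ : Fin (n + 1) → R) (ζ : Fin m → R)
    (A : Fin (n + 1) × Fin m → R) (i : Fin (n + 1)) :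
    ∑ j, mtx ξ ζ A i j * (Fin.cons 1 ζ : Fin (m + 1) → R) j = ξ i := by
  unfold mtx
  rw [Fin.sum_univ_succ]
  simp only [Fin.cons_zero, Fin.cons_succ]
  ring

theorem indep_mat {K L M : Type} [Field K] [Field L] [Field M] [Algebra K L] [Algebra L M]
    [Algebra K M] [IsScalarTower K L M] (n m d : ℕ) (F : MvPolynomial (Fin (n + 1)) K)
    (hd : 1 ≤ d) (hdeg : T_DEG) (hF : F.IsHomogeneous d) (hF0 : F ≠ 0) (ξ : Fin (n + 1) → L)
    (hξ : ∀ g : MvPolynomial (Fin (n + 1)) K, aeval ξ g = 0 ↔ F ∣ g)
    (ζ : Fin (m + 1) → M) (A : Fin (n + 1) × Fin (m + 1) → M)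
    (hind : AlgebraicIndependent L (Sum.elim ζ A)) :
    AlgebraicIndependent K (fun ij : Fin (n + 1) × Fin (m + 1 + 1) =>
      mtx (fun i => algebraMap L M (ξ i)) ζ A ij.1 ij.2) := by
  classical
  rw [algebraicIndependent_iff]
  intro p hp
  let S := Fin (m + 1) ⊕ (Fin (n + 1) × Fin (m + 1))
  let R := MvPolynomial (Fin (n + 1)) K
  let P : MvPolynomial S R := aeval (fun ij : Fin (n + 1) × Fin (m + 1 + 1) =>
    mtx (fun i => (C (X i : R) : MvPolynomial S R)) (fun j => X (Sum.inl j))
      (fun ij => X (Sum.inr ij)) ij.1 ij.2) p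
  -- values of `P`
  have hval : ∀ (Ω : Type) [Field Ω] [Algebra K Ω] (ψ : R →ₐ[K] Ω) (ζ' : Fin (m + 1) → Ω)
      (A' : Fin (n + 1) × Fin (m + 1) → Ω), eval₂ (ψ : R →+* Ω) (Sum.elim ζ' A') P =
        aeval (fun ij : Fin (n + 1) × Fin (m + 1 + 1) =>
          mtx (fun i => ψ (X i)) ζ' A' ij.1 ij.2) p := by
    intro Ω _ _ ψ ζ' A'
    have e0 : eval₂ (ψ : R →+* Ω) (Sum.elim ζ' A') P =
        (eval₂Hom (ψ : R →+* Ω) (Sum.elim ζ' A')) P := rfl
    rw [e0, map_aeval]
    have e1 : ((eval₂Hom (ψ : R →+* Ω) (Sum.elim ζ' A')).comp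
        (algebraMap K (MvPolynomial S R))) = algebraMap K Ω := by
      ext c
      rw [RingHom.comp_apply, IsScalarTower.algebraMap_apply K R (MvPolynomial S R),
        algebraMap_eq, coe_eval₂Hom, eval₂_C]
      exact ψ.commutes c
    rw [e1, aeval_def]
    have e2 : (fun i => (eval₂Hom (ψ : R →+* Ω) (Sum.elim ζ' A')) ((fun ij : Fin (n + 1) ×
        Fin (m + 1 + 1) => mtx (fun i => (C (X i : R) : MvPolynomial S R))
          (fun j => X (Sum.inl j)) (fun ij => X (Sum.inr ij)) ij.1 ij.2) i)) =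
        (fun ij : Fin (n + 1) × Fin (m + 1 + 1) =>
          mtx (fun i => ψ (X i)) ζ' A' ij.1 ij.2) := by
      funext ij
      simp only
      rw [map_mtx]
      congr 1
      · funext i
        rw [coe_eval₂Hom, eval₂_C]
        rfl
      · funext j
        rw [coe_eval₂Hom, eval₂_X]
        rfl
      · funext ij'
        rw [coe_eval₂Hom, eval₂_X]
        rfl
    rw [e2]
    rfl
  -- the coefficients of `P` vanish at `ξ`
  have hP0 : P.map (aeval ξ : R →ₐ[K] L).toRingHom = 0 := by
    have h1 := hval M ((IsScalarTower.toAlgHom K L M).comp (aeval ξ)) ζ A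
    have h2 : (fun i => ((IsScalarTower.toAlgHom K L M).comp (aeval ξ : R →ₐ[K] L)) (X i)) =
        (fun i => algebraMap L M (ξ i)) := by
      funext i
      rw [AlgHom.comp_apply, aeval_X]
      rfl
    rw [h2, hp] at h1
    have h3 : aeval (Sum.elim ζ A) (P.map (aeval ξ : R →ₐ[K] L).toRingHom) =
        eval₂ (((IsScalarTower.toAlgHom K L M).comp (aeval ξ : R →ₐ[K] L)) : R →+* M)
          (Sum.elim ζ A) P := by
      rw [aeval_def, eval₂_map]
      rfl
    rw [h1] at h3
    exact (algebraicIndependent_iff.1 hind) _ h3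
  have hco : ∀ ν, F ∣ P.coeff ν := by
    intro ν
    have h := congrArg (coeff ν) hP0
    rw [coeff_map, coeff_zero] at h
    exact (hξ _).1 h
  -- a generic matrix
  obtain ⟨Ω, _, _, _, b, hb⟩ := exists_indep K (Fin (n + 1) × Fin (m + 1 + 1))
  let b0 : Fin (n + 1) → Ω := fun i => b (i, 0)
  let b1 : Fin (n + 1) → Ω := fun i => b (i, 1)
  have hb1 : eval b1 (F.map (algebraMap K Ω)) ≠ 0 := by
    rw [eval_map, ← aeval_def]
    intro h
    have hinj : Function.Injective (fun i : Fin (n + 1) => (i, (1 : Fin (m + 1 + 1)))) := by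
      intro i i' h
      exact congrArg Prod.fst h
    have hb2 := hb.comp _ hinj
    exact hF0 ((algebraicIndependent_iff.1 hb2) F h)
  have hdg := hdeg _ _ (F.map (algebraMap K Ω)) d (hF.map _) b0 b1
  obtain ⟨s, hs⟩ := IsAlgClosed.exists_root (onLine (F.map (algebraMap K Ω)) b0 b1) (by
    intro h
    have h3 : (onLine (F.map (algebraMap K Ω)) b0 b1).coeff d ≠ 0 := by
      rw [hdg.2.2]
      exact hb1
    have h4 : (onLine (F.map (algebraMap K Ω)) b0 b1).natDegree = 0 :=
      Polynomial.natDegree_eq_of_degree_eq_some (by rw [h]; rfl)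
    have h5 := Polynomial.le_natDegree_of_ne_zero h3
    omega)
  rw [Polynomial.IsRoot, GPT_.onLine_eval, eval_map, ← aeval_def] at hs
  let ξ' : Fin (n + 1) → Ω := fun i => b0 i + s * b1 i
  have hz := hval Ω (aeval ξ') (Pi.single 0 s) (fun ij => b (ij.1, ij.2.succ))
  have hz1 : eval₂ ((aeval ξ' : R →ₐ[K] Ω) : R →+* Ω)
      (Sum.elim (Pi.single 0 s) (fun ij => b (ij.1, ij.2.succ))) P = 0 := by
    rw [eval₂_eq]
    refine Finset.sum_eq_zero fun ν _ => ?_
    obtain ⟨g, hg⟩ := hco ν
    have : ((aeval ξ' : R →ₐ[K] Ω) : R →+* Ω) (P.coeff ν) = 0 := by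
      rw [hg, map_mul]
      have : ((aeval ξ' : R →ₐ[K] Ω) : R →+* Ω) F = 0 := hs
      rw [this, zero_mul]
    rw [this, zero_mul]
  have hz2 : (fun ij : Fin (n + 1) × Fin (m + 1 + 1) => mtx (fun i => (aeval ξ' : R →ₐ[K] Ω) (X i))
      (Pi.single 0 s) (fun ij => b (ij.1, ij.2.succ)) ij.1 ij.2) = b := by
    funext ij
    obtain ⟨i, j⟩ := ij
    unfold mtx
    refine Fin.cases ?_ (fun j => ?_) j
    · have e : (aeval ξ' : R →ₐ[K] Ω) (X i) = ξ' i := aeval_X _ _
      rw [Fin.cons_zero]
      simp only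
      rw [e, Finset.sum_eq_single (0 : Fin (m + 1))]
      · rw [Pi.single_eq_same]
        have : (Fin.succ (0 : Fin (m + 1))) = (1 : Fin (m + 1 + 1)) := rfl
        simp only [ξ', b0, b1, this]
        ring
      · intro j _ hj
        rw [Pi.single_eq_of_ne hj, mul_zero]
      · intro h
        exact absurd (Finset.mem_univ _) h
    · rw [Fin.cons_succ]
  rw [hz1, hz2] at hz
  exact (algebraicIndependent_iff.1 hb) p hz.symm


theorem alg_mono {K L M : Type} [Field K] [Field L] [Field M] [Algebra K M] [Algebra L M]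
    (A : IntermediateField K M) (B : IntermediateField L M) (h : ∀ x ∈ A, x ∈ B) {y : M}
    (hy : IsAlgebraic A y) : IsAlgebraic B y := by
  obtain ⟨p, hp0, hp⟩ := hy
  let φ : A →+* B :=
    { toFun := fun x => ⟨x.1, h x.1 x.2⟩
      map_one' := rfl
      map_zero' := rfl
      map_mul' := fun _ _ => rfl
      map_add' := fun _ _ => rfl }
  refine ⟨p.map φ, ?_, ?_⟩
  · intro h0
    exact hp0 ((Polynomial.map_eq_zero φ).1 h0)
  · rw [Polynomial.aeval_def, Polynomial.eval₂_map]
    exact hp

/-- The elements algebraic over a finitely generated field. -/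
noncomputable def Gs {L M : Type} [Field L] [Field M] [Algebra L M] (s : Finset M) : Subfield M :=
  (algebraicClosure (IntermediateField.adjoin L (s : Set M)) M).toSubfield

theorem mem_Gs {L M : Type} [Field L] [Field M] [Algebra L M] (s : Finset M) (x : M) :
    x ∈ Gs (L := L) s ↔ IsAlgebraic (IntermediateField.adjoin L (s : Set M)) x := by
  unfold Gs
  exact mem_algebraicClosure_iff

theorem Gs_count {L M ι : Type} [Field L] [Field M] [Algebra L M] [Fintype ι] (A : ι → M)
    (hA : AlgebraicIndependent L A) (s : Finset M) (h : ∀ i, A i ∈ Gs (L := L) s) :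
    Fintype.card ι ≤ s.card :=
  Pool.Agent.WA.card_le_of_algebraic A hA s fun i =>
    IntermediateField.isAlgebraic_adjoin_iff.mp ((mem_Gs s _).1 (h i))

theorem Gs_base {L M : Type} [Field L] [Field M] [Algebra L M] (s : Finset M) (c : L) :
    algebraMap L M c ∈ Gs (L := L) s := by
  rw [mem_Gs]
  have h : algebraMap L M c ∈ IntermediateField.adjoin L (s : Set M) :=
    IntermediateField.algebraMap_mem _ c
  exact isAlgebraic_algebraMap (⟨_, h⟩ : IntermediateField.adjoin L (s : Set M))

theorem Gs_sub {L M : Type} [Field L] [Field M] [Algebra L M] (s : Finset M) (x : M)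
    (hx : x ∈ s) : x ∈ Gs (L := L) s := by
  rw [mem_Gs]
  have h : x ∈ IntermediateField.adjoin L (s : Set M) := IntermediateField.subset_adjoin _ _ hx
  exact isAlgebraic_algebraMap (⟨_, h⟩ : IntermediateField.adjoin L (s : Set M))

theorem Gs_alg {K L M : Type} [Field K] [Field L] [Field M] [Algebra K L] [Algebra L M]
    [Algebra K M] [IsScalarTower K L M] {ι : Type} (ξ : ι → L) (s T : Finset M) (hT : T ⊆ s)
    (y : M) (hy : IsAlgebraic (IntermediateField.adjoin K
      (Set.range (fun i => algebraMap L M (ξ i)) ∪ (T : Set M))) y) : y ∈ Gs (L := L) s := by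
  rw [mem_Gs]
  set B := IntermediateField.adjoin L (s : Set M) with hB
  have h : IntermediateField.adjoin K (Set.range (fun i => algebraMap L M (ξ i)) ∪ (T : Set M)) ≤
      B.restrictScalars K := by
    apply IntermediateField.adjoin_le_iff.2
    rintro x (⟨i, rfl⟩ | hx)
    · exact B.algebraMap_mem (ξ i)
    · exact IntermediateField.subset_adjoin L (s : Set M) (hT hx)
  exact alg_mono _ B (fun x hx => h hx) hy

theorem dmat_mem {K M : Type} [Field K] [Field M] [Algebra K M] (G : Subfield M)
    (hK : ∀ c : K, algebraMap K M c ∈ G) {n : ℕ} (F : MvPolynomial (Fin (n + 1)) K) (d : ℕ)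
    (x w : Fin (n + 1) → M) (hx : ∀ i, x i ∈ G) (hw : ∀ i, w i ∈ G) (l : Fin d)
    (i : Fin (n + 1)) : dmat (F.map (algebraMap K M)) d x w l i ∈ G := by
  let ψ : K →+* G := (algebraMap K M).codRestrict G hK
  have e : F.map (algebraMap K M) = (F.map ψ).map G.subtype := by
    rw [MvPolynomial.map_map]
    rfl
  have h := dmat_map G.subtype (F.map ψ) d (fun i => (⟨x i, hx i⟩ : G)) (fun i => ⟨w i, hw i⟩)
  have h' := congrFun (congrFun h l) i
  rw [e]
  have e2 : dmat ((F.map ψ).map G.subtype) d x w l i =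
    ((dmat (F.map ψ) d (fun i => (⟨x i, hx i⟩ : G)) (fun i => ⟨w i, hw i⟩) l i : G) : M) := h'
  rw [e2]
  exact Subtype.property _

/-- The entries of the matrix in the case of a nonzero relation. -/
theorem col_mem {M : Type} [Field M] (G : Subfield M) {n : ℕ} (c D : Fin (n + 1) → M)
    (i₀ : Fin (n + 1)) (hD : ∀ i, D i ∈ G) (hD0 : D i₀ ≠ 0) (hc : ∀ i, i ≠ i₀ → c i ∈ G)
    (h : ∑ i, c i * D i = 0) : ∀ i, c i ∈ G := by
  classical
  intro i
  by_cases hi : i = i₀
  · subst hi
    rw [← Finset.add_sum_erase Finset.univ _ (Finset.mem_univ i)] at h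
    have h1 : ∑ k ∈ Finset.univ.erase i, c k * D k ∈ G :=
      sum_mem fun k hk => mul_mem (hc k (Finset.ne_of_mem_erase hk)) (hD k)
    have h2 : c i = -(∑ k ∈ Finset.univ.erase i, c k * D k) * (D i)⁻¹ := by
      rw [eq_mul_inv_iff_mul_eq₀ hD0]
      linear_combination h
    rw [h2]
    exact mul_mem (neg_mem h1) (inv_mem (hD i))
  · exact hc i hi

theorem main {K L M : Type} [Field K] [Field L] [Field M] [Algebra K L] [Algebra L M]
    [Algebra K M] [IsScalarTower K L M] (n m d : ℕ) (F : MvPolynomial (Fin (n + 1)) K)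
    (h1 : T_NFB) (h2 : T_DIMF) (hd : 1 ≤ d) (hF : F.IsHomogeneous d)
    (hS : Pool.Agent.WA.SmoothForm F)
    (hch : ∀ l < d, ((d - 1).choose l : K) ≠ 0) (hmd : m + 1 + d ≤ n + 2) (h2d : 2 * d ≤ n + 2)
    (ξ : Fin (n + 1) → L) (hξ : ∀ g : MvPolynomial (Fin (n + 1)) K, aeval ξ g = 0 ↔ F ∣ g)
    (ζ : Fin (m + 1) → M) (A : Fin (n + 1) × Fin (m + 1) → M)
    (hind : AlgebraicIndependent L A) (w' : Fin (m + 1 + 1) → M) (b' : Fin (m + 1))
    (hw0 : w' 0 = 0) (hwb : w' b'.succ = 1)
    (hl : onLine (F.map (algebraMap K M)) (fun i => algebraMap L M (ξ i))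
      (fun i => ∑ j, mtx (fun i => algebraMap L M (ξ i)) ζ A i j * w' j) = 0)
    (lam : Fin d → M) (l₀ : Fin d) (hl₀ : lam l₀ = 1)
    (hlam : ∀ j : Fin (m + 1 + 1), ∑ i, mtx (fun i => algebraMap L M (ξ i)) ζ A i j *
      (∑ l, lam l * dmat (F.map (algebraMap K M)) d (fun i => algebraMap L M (ξ i))
        (fun i => ∑ j, mtx (fun i => algebraMap L M (ξ i)) ζ A i j * w' j) l i) = 0) : False := by
  classical
  set ξM : Fin (n + 1) → M := fun i => algebraMap L M (ξ i) with hξM
  set FM := F.map (algebraMap K M) with hFM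
  set v : Fin (n + 1) → M := fun i => ∑ j, mtx ξM ζ A i j * w' j with hv
  have hξ' : ∀ g : MvPolynomial (Fin (n + 1)) K, aeval ξM g = 0 ↔ F ∣ g := by
    intro g
    rw [← hξ g]
    have e : aeval ξM g = algebraMap L M (aeval ξ g) := by
      rw [hξM]
      exact (aeval_algebraMap_apply M ξ g)
    rw [e, map_eq_zero]
  have hv1 : ∀ i, v i = A (i, b') + ∑ j ∈ Finset.univ.erase b', A (i, j) * w' j.succ := by
    intro i
    simp only [hv]
    rw [Fin.sum_univ_succ, hw0, mul_zero, zero_add, ← Finset.add_sum_erase _ _ (Finset.mem_univ b'),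
      hwb, mul_one]
    rfl
  set D : Fin (n + 1) → M := fun i => ∑ l, lam l * dmat FM d ξM v l i with hD
  have hcol : ∀ j : Fin (m + 1), ∑ i, A (i, j) * D i = 0 := by
    intro j
    exact hlam j.succ
  -- the last column
  have hfin : ∀ (s : Finset M), (∀ i, v i ∈ Gs (L := L) s) →
      (∀ j, j ≠ b' → w' j.succ ∈ Gs (L := L) s) →
      (∀ i j, j ≠ b' → A (i, j) ∈ Gs (L := L) s) → ∀ ij, A ij ∈ Gs (L := L) s := by
    intro s hvs hws hAs ij
    obtain ⟨i, j⟩ := ij
    by_cases hj : j = b'
    · subst hj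
      have e : A (i, j) = v i - ∑ k ∈ Finset.univ.erase j, A (i, k) * w' k.succ := by
        rw [hv1 i]
        ring
      rw [e]
      refine sub_mem (hvs i) (sum_mem fun k hk => ?_)
      have hk' := Finset.ne_of_mem_erase hk
      exact mul_mem (hAs i k hk') (hws k hk')
    · exact hAs i j hj
  have hcardW : ((Finset.univ.erase b').image (fun j => w' j.succ)).card ≤ m := by
    refine Finset.card_image_le.trans ?_
    rw [Finset.card_erase_of_mem (Finset.mem_univ _)]
    simp
  have hcardN : Fintype.card (Fin (n + 1) × Fin (m + 1)) = (n + 1) * (m + 1) := by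
    rw [Fintype.card_prod, Fintype.card_fin, Fintype.card_fin]
  by_cases hD0 : ∀ i, D i = 0
  · -- the relation is trivial
    have hmin : ∀ S : Fin d → Fin (n + 1), dminor FM d ξM v S = 0 := by
      intro S
      unfold dminor
      rw [← Matrix.exists_vecMul_eq_zero_iff]
      refine ⟨lam, fun h => ?_, ?_⟩
      · rw [h] at hl₀
        simp at hl₀
      · funext k
        have := hD0 (S k)
        simp only [hD] at this
        rw [Matrix.vecMul, Pi.zero_apply]
        exact this
    obtain ⟨T, hT, hTalg⟩ := h1 K n d F hd hF hS hch M ξM v hξ' hl hmin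
    set s : Finset M := T ∪ ((Finset.univ.erase b').image (fun j => w' j.succ) ∪
      ((Finset.univ ×ˢ Finset.univ.erase b').image A)) with hs
    have hG := hfin s (fun i => Gs_alg ξ s T Finset.subset_union_left _ (hTalg i))
      (fun j hj => Gs_sub s _ (by
        rw [hs]
        refine Finset.mem_union_right _ (Finset.mem_union_left _ ?_)
        exact Finset.mem_image_of_mem (fun j => w' (Fin.succ j))
          (Finset.mem_erase.2 ⟨hj, Finset.mem_univ _⟩)))
      (fun i j hj => Gs_sub s _ (by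
        rw [hs]
        refine Finset.mem_union_right _ (Finset.mem_union_right _ ?_)
        exact Finset.mem_image_of_mem A (Finset.mem_product.2
          ⟨Finset.mem_univ _, Finset.mem_erase.2 ⟨hj, Finset.mem_univ _⟩⟩)))
    have hc := Gs_count A hind s hG
    have hcA : ((Finset.univ ×ˢ Finset.univ.erase b').image A).card ≤ (n + 1) * m := by
      refine Finset.card_image_le.trans ?_
      rw [Finset.card_product, Finset.card_erase_of_mem (Finset.mem_univ _)]
      simp
    have hcs : s.card ≤ T.card + (m + (n + 1) * m) := by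
      rw [hs]
      refine (Finset.card_union_le _ _).trans (Nat.add_le_add_left ?_ _)
      exact (Finset.card_union_le _ _).trans (Nat.add_le_add hcardW hcA)
    rw [hcardN] at hc
    have e : (n + 1) * (m + 1) = (n + 1) * m + (n + 1) := by ring
    omega
  · push Not at hD0
    obtain ⟨i₀, hi₀⟩ := hD0
    obtain ⟨T, hT, hTalg⟩ : ∃ T : Finset M, T.card + d ≤ n + 1 ∧
        ∀ i, IsAlgebraic (IntermediateField.adjoin K (Set.range ξM ∪ (T : Set M))) (v i) := by
      by_cases hmin : ∀ S : Fin d → Fin (n + 1), dminor FM d ξM v S = 0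
      · obtain ⟨T, hT, hTalg⟩ := h1 K n d F hd hF hS hch M ξM v hξ' hl hmin
        exact ⟨T, by omega, hTalg⟩
      · push Not at hmin
        obtain ⟨S, hS'⟩ := hmin
        exact h2 K n d F hF M ξM v S hl hS'
    set s : Finset M := (T ∪ (Finset.univ.erase l₀).image lam) ∪
      ((Finset.univ.erase b').image (fun j => w' j.succ) ∪
      ((Finset.univ.erase i₀ ×ˢ Finset.univ.erase b').image A)) with hs
    have hvG : ∀ i, v i ∈ Gs (L := L) s := fun i => Gs_alg ξ s T
      (Finset.subset_union_left.trans Finset.subset_union_left) _ (hTalg i)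
    have hKG : ∀ c : K, algebraMap K M c ∈ Gs (L := L) s := by
      intro c
      rw [IsScalarTower.algebraMap_apply K L M]
      exact Gs_base s _
    have hlG : ∀ l, lam l ∈ Gs (L := L) s := by
      intro l
      by_cases h : l = l₀
      · rw [h, hl₀]
        exact one_mem _
      · refine Gs_sub s _ ?_
        rw [hs]
        refine Finset.mem_union_left _ (Finset.mem_union_right _ ?_)
        exact Finset.mem_image_of_mem _ (Finset.mem_erase.2 ⟨h, Finset.mem_univ _⟩)
    have hDG : ∀ i, D i ∈ Gs (L := L) s := by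
      intro i
      refine sum_mem fun l _ => mul_mem (hlG l) ?_
      exact dmat_mem (Gs (L := L) s) hKG F d ξM v (fun i => Gs_base s _) hvG l i
    have hG := hfin s hvG
      (fun j hj => Gs_sub s _ (by
        rw [hs]
        refine Finset.mem_union_right _ (Finset.mem_union_left _ ?_)
        exact Finset.mem_image_of_mem (fun j => w' (Fin.succ j))
          (Finset.mem_erase.2 ⟨hj, Finset.mem_univ _⟩)))
      (fun i j hj => col_mem (Gs (L := L) s) (fun i => A (i, j)) D i₀ hDG hi₀
        (fun k hk => Gs_sub s _ (by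
          rw [hs]
          refine Finset.mem_union_right _ (Finset.mem_union_right _ ?_)
          exact Finset.mem_image_of_mem A (Finset.mem_product.2
            ⟨Finset.mem_erase.2 ⟨hk, Finset.mem_univ _⟩,
              Finset.mem_erase.2 ⟨hj, Finset.mem_univ _⟩⟩))) (hcol j) i)
    have hc := Gs_count A hind s hG
    have hcA : ((Finset.univ.erase i₀ ×ˢ Finset.univ.erase b').image A).card ≤ n * m := by
      refine Finset.card_image_le.trans ?_
      rw [Finset.card_product, Finset.card_erase_of_mem (Finset.mem_univ _),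
        Finset.card_erase_of_mem (Finset.mem_univ _)]
      simp
    have hcl : ((Finset.univ.erase l₀).image lam).card ≤ d - 1 := by
      refine Finset.card_image_le.trans ?_
      rw [Finset.card_erase_of_mem (Finset.mem_univ _)]
      simp
    have hcs : s.card ≤ (T.card + (d - 1)) + (m + n * m) := by
      rw [hs]
      refine (Finset.card_union_le _ _).trans (Nat.add_le_add ?_ ?_)
      · exact (Finset.card_union_le _ _).trans (Nat.add_le_add_left hcl _)
      · exact (Finset.card_union_le _ _).trans (Nat.add_le_add hcardW hcA)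
    rw [hcardN] at hc
    have e : (n + 1) * (m + 1) = n * m + n + m + 1 := by ring
    omega

end GENA_

open GENA_ in
theorem p_GENA (h1 : T_NFB) (h2 : T_DIMF) (h3 : T_TRI) (h4 : T_DEG) (_ : T_RANK) : T_GENA := by
  classical
  intro K _ n n' d F hd hF hS hirr hch hn1 hnn hnd h2d
  obtain ⟨m, rfl⟩ : ∃ m, n' = m + 1 := ⟨n' - 1, by omega⟩
  obtain ⟨L, _, _, _, ξ, hξ, -⟩ := CHAR0_.exists_generic F hirr
  obtain ⟨M, _, _, _, z, hz⟩ := exists_indep L (Fin (m + 1) ⊕ (Fin (n + 1) × Fin (m + 1)))
  let _ : Algebra K M := ((algebraMap L M).comp (algebraMap K L)).toAlgebra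
  have _ : IsScalarTower K L M := IsScalarTower.of_algebraMap_eq fun _ => rfl
  set ζ : Fin (m + 1) → M := fun j => z (Sum.inl j) with hζ
  set A : Fin (n + 1) × Fin (m + 1) → M := fun ij => z (Sum.inr ij) with hA
  have hzz : Sum.elim ζ A = z := by
    funext k
    cases k <;> rfl
  have hindA : AlgebraicIndependent L A := hz.comp _ Sum.inr_injective
  set ξM : Fin (n + 1) → M := fun i => algebraMap L M (ξ i) with hξM
  set a : Fin (n + 1) → Fin (m + 1 + 1) → M := fun i j => mtx ξM ζ A i j with ha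
  set x₀ : Fin (m + 1 + 1) → M := Fin.cons 1 ζ with hx₀
  have hax : (fun i => ∑ j, a i j * x₀ j) = ξM := by
    funext i
    exact mtx_mul ξM ζ A i
  have hx0 : x₀ 0 = 1 := by
    rw [hx₀, Fin.cons_zero]
  have hFξ : eval ξM (F.map (algebraMap K M)) = 0 := by
    rw [eval_map, ← aeval_def]
    have e : aeval ξM F = algebraMap L M (aeval ξ F) := by
      rw [hξM]
      exact (aeval_algebraMap_apply M ξ F)
    rw [e, (hξ F).2 dvd_rfl, map_zero]
  refine ⟨M, inferInstance, inferInstance, inferInstance, a, x₀, ?_, ?_, ?_, ?_⟩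
  · exact indep_mat n m d F hd h4 hF hirr.ne_zero ξ hξ ζ A (by rw [hzz]; exact hz)
  · intro h
    rw [h] at hx0
    simp at hx0
  · rw [eval_lsub, hax]
    exact hFξ
  intro w hw hwne
  by_contra hcon
  push Not at hcon
  set G := lsub (F.map (algebraMap K M)) a with hG
  have hGh : G.IsHomogeneous d := lsub_hom _ (hF.map _) a
  obtain ⟨b, hb⟩ : ∃ b, w b - w 0 * x₀ b ≠ 0 := by
    by_contra hall
    push Not at hall
    apply hwne (w 0)
    funext i
    rw [Pi.smul_apply, smul_eq_mul]
    exact sub_eq_zero.1 (hall i)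
  have hb0 : b ≠ 0 := by
    rintro rfl
    apply hb
    rw [hx0]
    ring
  set β : M := (w b - w 0 * x₀ b)⁻¹ with hβ
  set α : M := -(β * w 0) with hα
  set w' : Fin (m + 1 + 1) → M := fun i => α * x₀ i + β * w i with hw'
  have hw'0 : w' 0 = 0 := by
    simp only [hw', hα, hx0]
    ring
  have hw'b : w' b = 1 := by
    have e : w' b = (w b - w 0 * x₀ b)⁻¹ * (w b - w 0 * x₀ b) := by
      simp only [hw', hα, hβ]
      ring
    rw [e, inv_mul_cancel₀ hb]
  have hl : onLine G x₀ w' = 0 := by
    ext j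
    rw [(h3 _ _ G d hGh x₀ w α β).1 j, Polynomial.coeff_zero]
    refine Finset.sum_eq_zero fun i _ => ?_
    rw [hw, Polynomial.coeff_zero, mul_zero]
  have hm : ∀ S : Fin d → Fin (m + 1 + 1), ((dmat G d x₀ w').submatrix id S).det = 0 := by
    intro S
    have h := (h3 _ _ G d hGh x₀ w α β).2 S
    rw [hcon S, mul_zero] at h
    exact h
  obtain ⟨lam, l₀, hl₀, hlam⟩ := GPT_.exists_row _ hm
  obtain ⟨b', rfl⟩ := Fin.exists_succ_eq_of_ne_zero hb0
  refine main n m d F h1 h2 hd hF hS hch hnd h2d ξ hξ ζ A hindA w' b' hw'0 hw'b ?_ lam l₀ hl₀ ?_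
  · rw [hG, onLine_lsub, hax] at hl
    exact hl
  · intro j
    have h := hlam j
    have e : ∀ l, dmat G d x₀ w' l j = ∑ i, a i j * dmat (F.map (algebraMap K M)) d ξM
        (fun i => ∑ j, a i j * w' j) l i := by
      intro l
      rw [hG, dmat_lsub, hax]
    simp only [e, Finset.mul_sum] at h
    rw [Finset.sum_comm] at h
    rw [← h]
    refine Finset.sum_congr rfl fun i _ => ?_
    rw [Finset.mul_sum]
    refine Finset.sum_congr rfl fun l _ => ?_
    simp only [ha, hξM]
    ring

end Pool.Agent.WL
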