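import Pool.Agent.WL.Targets4
import Pool.Agent.WL.RANK
import Pool.Agent.WL.HOMJ

/-!
# Few lines through the generic point are not free
-/

set_option autoImplicit false

open MvPolynomial
open Pool.Agent.WA

namespace Pool.Agent.WL

namespace NFB_

/-! ## Lines: change of the base point -/

section Lines

variable {σ A : Type} [CommRing A]

/-- the line with the base point moved along the line -/
lemma onLine_shift (G : MvPolynomial σ A) (x w : σ → A) (s : A) :
    onLine G (fun i => x i + s * w i) w = (onLine G x w).comp (Polynomial.X + Polynomial.C s) := by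
  unfold onLine
  have h := MvPolynomial.eval₂_comp_left
    (Polynomial.compRingHom (Polynomial.X + Polynomial.C s)) (Polynomial.C : A →+* Polynomial A)
    (fun i => Polynomial.C (x i) + Polynomial.X * Polynomial.C (w i)) G
  have h0 : ∀ p : Polynomial A, Polynomial.compRingHom (Polynomial.X + Polynomial.C s) p =
      p.comp (Polynomial.X + Polynomial.C s) := fun p => rfl
  rw [← h0, h]
  have h1 : (Polynomial.compRingHom (Polynomial.X + Polynomial.C s)).comp
      (Polynomial.C : A →+* Polynomial A) = Polynomial.C := by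
    ext a
    simp
  rw [h1]
  have h2 : (⇑(Polynomial.compRingHom (Polynomial.X + Polynomial.C s)) ∘
      fun i => Polynomial.C (x i) + Polynomial.X * Polynomial.C (w i)) =
      fun i => Polynomial.C (x i + s * w i) + Polynomial.X * Polynomial.C (w i) := by
    funext i
    simp only [Function.comp_apply, Polynomial.coe_compRingHom_apply, Polynomial.C_comp,
      Polynomial.X_comp, map_add, map_mul]
    ring
  rw [h2]

/-- the new coefficients of a relation -/
noncomputable def mu (d : ℕ) (lam : Fin d → A) (s : A) (l : ℕ) : A :=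
  ∑ m : Fin d, lam m * ((Polynomial.X - Polynomial.C s) ^ l : Polynomial A).coeff m

/-- a relation between the coefficients is carried along the line -/
lemma rel_shift (d : ℕ) (W : Polynomial A) (lam : Fin d → A) (s : A)
    (hd : W.natDegree < d) (h : ∑ m : Fin d, lam m * W.coeff m = 0) :
    ∑ l ∈ Finset.range d, mu d lam s l * (W.comp (Polynomial.X + Polynomial.C s)).coeff l = 0 := by
  set V := W.comp (Polynomial.X + Polynomial.C s) with hV
  have hVd : V.natDegree < d := by
    refine lt_of_le_of_lt ?_ hd
    refine Polynomial.natDegree_comp_le.trans ?_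
    have : (Polynomial.X + Polynomial.C s : Polynomial A).natDegree ≤ 1 :=
      (Polynomial.natDegree_add_le _ _).trans (max_le Polynomial.natDegree_X_le (by simp))
    calc W.natDegree * (Polynomial.X + Polynomial.C s : Polynomial A).natDegree
        ≤ W.natDegree * 1 := Nat.mul_le_mul_left _ this
      _ = W.natDegree := mul_one _
  have hW : W = V.comp (Polynomial.X - Polynomial.C s) := by
    rw [hV, Polynomial.comp_assoc]
    simp
  have hW2 : W = ∑ l ∈ Finset.range d, Polynomial.C (V.coeff l) *
      (Polynomial.X - Polynomial.C s) ^ l := by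
    rw [hW]
    conv_lhs => rw [V.as_sum_range' d hVd]
    rw [Polynomial.sum_comp]
    refine Finset.sum_congr rfl fun l _ => ?_
    rw [Polynomial.monomial_comp]
  have h2 : ∀ m : ℕ, W.coeff m = ∑ l ∈ Finset.range d, V.coeff l *
      ((Polynomial.X - Polynomial.C s) ^ l : Polynomial A).coeff m := by
    intro m
    conv_lhs => rw [hW2]
    rw [Polynomial.finsetSum_coeff]
    exact Finset.sum_congr rfl fun l _ => Polynomial.coeff_C_mul _
  rw [← h]
  simp only [mu, h2, Finset.sum_mul, Finset.mul_sum]
  rw [Finset.sum_comm]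
  refine Finset.sum_congr rfl fun m _ => Finset.sum_congr rfl fun l _ => ?_
  ring

end Lines

/-! ## The direction is algebraic over the new base point and the relation -/

section Alg

variable {K Ω : Type} [Field K] [Field Ω] [Algebra K Ω]

/-- A smooth form whose derivatives at `u` are combinations of the lower coefficients on the
line from `x` to `u`: the point `u` is algebraic over the coefficients and `x`. -/
lemma alg_over (h1 : T_DEG) (n d : ℕ) (F : MvPolynomial (Fin (n + 1)) K) (hd : 1 ≤ d)
    (hF : F.IsHomogeneous d) (hs : SmoothForm F) (E : IntermediateField K Ω)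
    (x u : Fin (n + 1) → Ω) (hx : ∀ i, x i ∈ E) (m : ℕ → Ω) (hm : ∀ l, l + 1 < d → m l ∈ E)
    (hu : aeval u F = 0)
    (hrel : ∀ i, ∑ l ∈ Finset.range (d - 1), m l *
      (onLine ((pderiv i F).map (algebraMap K Ω)) x u).coeff l +
      (onLine ((pderiv i F).map (algebraMap K Ω)) x u).coeff (d - 1) = 0) :
    ∀ b, IsAlgebraic E (u b) := by
  classical
  by_contra hcon
  push Not at hcon
  obtain ⟨κ, _, _, z, hz, hdeg⟩ := exists_degeneration E u hcon
  apply hz
  refine hs κ z ?_ ?_
  · refine hdeg d F hF Empty (fun a => a.elim) (fun a => a.elim) (fun a => a.elim)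
      (fun a => a.elim) (fun a => a.elim) (fun a => a.elim) ?_
    rw [hu]
    simp
  · intro i
    -- the coefficients as polynomials in the direction
    set G := pderiv i F with hG
    have hGh : G.IsHomogeneous (d - 1) := hF.pderiv
    let xE : Fin (n + 1) → E := fun j => ⟨x j, hx j⟩
    let q : ℕ → MvPolynomial (Fin (n + 1)) E := fun l =>
      (onLine ((G.map (algebraMap K E)).map C) (fun j => C (xE j)) (fun j => X j)).coeff l
    have hq : ∀ l, (q l).IsHomogeneous l := fun l =>
      HOMJ_.gr_onLine (G.map (algebraMap K E)) xE l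
    let φ : MvPolynomial (Fin (n + 1)) E →+* Ω := eval₂Hom (algebraMap E Ω) u
    have hφ : ∀ l, φ (q l) = (onLine (G.map (algebraMap K Ω)) x u).coeff l := by
      intro l
      have h := onLine_map φ ((G.map (algebraMap K E)).map C) (fun j => C (xE j)) (fun j => X j)
      have h2 : (((G.map (algebraMap K E)).map (C : E →+* MvPolynomial (Fin (n + 1)) E)).map φ) =
          G.map (algebraMap K Ω) := by
        rw [MvPolynomial.map_map, MvPolynomial.map_map]
        have hc : (φ.comp (C : E →+* MvPolynomial (Fin (n + 1)) E)).comp (algebraMap K E) =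
            algebraMap K Ω := by
          refine RingHom.ext fun a => ?_
          simp only [RingHom.comp_apply, φ, coe_eval₂Hom, eval₂_C]
          rfl
        rw [hc]
      have h3 : (fun j => φ (C (xE j))) = x := by
        funext j
        simp only [φ, coe_eval₂Hom, eval₂_C]
        rfl
      have h4 : (fun j => φ (X j)) = u := by
        funext j
        simp only [φ, coe_eval₂Hom, eval₂_X]
      rw [h2, h3, h4] at h
      rw [h, Polynomial.coeff_map]
    have hφs : ∀ l, φ (q l) = ∑ μ ∈ (q l).support,
        algebraMap E Ω (coeff μ (q l)) * aeval u (monomial μ (1 : K)) := by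
      intro l
      simp only [φ, coe_eval₂Hom]
      rw [eval₂_eq]
      refine Finset.sum_congr rfl fun μ _ => ?_
      rw [aeval_monomial, map_one, one_mul]
      rfl
    have hrel' : aeval u G = (onLine (G.map (algebraMap K Ω)) x u).coeff (d - 1) := by
      have := (h1 (Fin (n + 1)) Ω (G.map (algebraMap K Ω)) (d - 1) (hGh.map _) x u).2.2
      rw [this, eval_map, aeval_def]
    refine hdeg (d - 1) G hGh ((l : Fin (d - 1)) × {μ // μ ∈ (q l).support})
      (fun a => - (m a.1 * algebraMap E Ω (coeff a.2.1 (q a.1)))) ?_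
      (fun a => monomial a.2.1 (1 : K)) (fun a => (a.1 : ℕ)) ?_ (fun a => a.1.2) ?_
    · intro a
      refine neg_mem (mul_mem (hm _ (by have := a.1.2; omega)) ?_)
      exact (coeff a.2.1 (q a.1)).2
    · intro a
      refine isHomogeneous_monomial _ ?_
      have := hq a.1 (mem_support_iff.1 a.2.2)
      rw [Finsupp.degree_eq_weight_one]
      exact this
    · rw [hrel']
      have h5 := hrel i
      rw [← hG] at h5
      have h6 : (onLine (G.map (algebraMap K Ω)) x u).coeff (d - 1) =
          - ∑ l ∈ Finset.range (d - 1), m l *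
            (onLine (G.map (algebraMap K Ω)) x u).coeff l := by
        rw [eq_neg_iff_add_eq_zero, add_comm]
        exact h5
      rw [h6, Fintype.sum_sigma, Finset.sum_range, ← Finset.sum_neg_distrib]
      refine Finset.sum_congr rfl fun l _ => ?_
      rw [← hφ l, hφs l, Finset.mul_sum, ← Finset.sum_neg_distrib]
      rw [← Finset.sum_coe_sort (q (l : ℕ)).support]
      refine Finset.sum_congr rfl fun μ _ => ?_
      ring

end Alg

/-! ## Counting -/

section Count

variable {K Ω : Type} [Field K] [Field Ω] [Algebra K Ω]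

/-- Dependent coordinates are algebraic over fewer elements. -/
lemma dep_finset {n : ℕ} (x : Fin (n + 1) → Ω) (F : MvPolynomial (Fin (n + 1)) K) (hF0 : F ≠ 0)
    (hF : aeval x F = 0) : ∃ B : Finset Ω, B.card ≤ n ∧
      ∀ i, IsAlgebraic (Algebra.adjoin K (B : Set Ω)) (x i) := by
  classical
  obtain ⟨t, hB⟩ := (AlgebraicIndependent.matroid K Ω).exists_isBasis (Set.range x)
    (Set.subset_univ _)
  have ht : t ⊆ Set.range x := hB.subset
  have hfin : t.Finite := (Set.finite_range x).subset ht
  refine ⟨hfin.toFinset, ?_, ?_⟩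
  · by_contra hcon
    have h2 : n + 1 ≤ hfin.toFinset.card := by omega
    have h3 : hfin.toFinset ⊆ Finset.univ.image x := by
      intro y hy
      rw [Set.Finite.mem_toFinset] at hy
      obtain ⟨i, hi⟩ := ht hy
      exact Finset.mem_image.2 ⟨i, Finset.mem_univ i, hi⟩
    have h4 : (Finset.univ.image x).card ≤ n + 1 := by
      refine Finset.card_image_le.trans ?_
      simp
    have h5 : hfin.toFinset = Finset.univ.image x :=
      Finset.eq_of_subset_of_card_le h3 (h4.trans h2)
    have hinj : Function.Injective x := by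
      have h6 : (Finset.univ.image x).card = (Finset.univ : Finset (Fin (n + 1))).card := by
        rw [Finset.card_univ, Fintype.card_fin]
        rw [h5] at h2
        omega
      have h7 := Finset.card_image_iff.1 h6
      rw [Finset.coe_univ, Set.injOn_univ] at h7
      exact h7
    have h8 : t = Set.range x := by
      refine Set.Subset.antisymm ht ?_
      rintro _ ⟨i, rfl⟩
      have : x i ∈ hfin.toFinset := by
        rw [h5]
        exact Finset.mem_image_of_mem x (Finset.mem_univ i)
      exact (Set.Finite.mem_toFinset hfin).1 this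
    subst h8
    have h9 : AlgebraicIndependent K x := AlgebraicIndependent.of_subtype_range hinj hB.indep
    exact hF0 (algebraicIndependent_iff.1 h9 F hF)
  · intro i
    rw [hfin.coe_toFinset]
    exact (AlgebraicIndependent.matroid_isBasis_iff.mp hB).2.2 _ ⟨i, rfl⟩

/-- The coordinates of a generic point without one of them are independent. -/
lemma indep_coords {n d : ℕ} (ξ : Fin (n + 1) → Ω) (F : MvPolynomial (Fin (n + 1)) K)
    (hd : 1 ≤ d) (hh : F.IsHomogeneous d) (hF0 : F ≠ 0)
    (hF : ∀ g : MvPolynomial (Fin (n + 1)) K, aeval ξ g = 0 → F ∣ g) :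
    ∃ j, AlgebraicIndependent K (fun i : {i : Fin (n + 1) // i ≠ j} => ξ i) := by
  classical
  obtain ⟨m, hm⟩ := MvPolynomial.support_nonempty.2 hF0
  have hmd : m.degree = d := by
    rw [Finsupp.degree_eq_weight_one]
    exact hh (mem_support_iff.1 hm)
  have hm0 : m ≠ 0 := by
    rintro rfl
    simp at hmd
    omega
  obtain ⟨j, hj⟩ := Finsupp.ne_iff.1 hm0
  have hdj : 0 < degreeOf j F := by
    refine lt_of_lt_of_le (Nat.pos_of_ne_zero hj) ?_
    exact monomial_le_degreeOf j hm
  refine ⟨j, ?_⟩
  rw [algebraicIndependent_iff]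
  intro p hp
  by_contra hp0
  have h1 : aeval ξ (rename Subtype.val p) = 0 := by
    rw [aeval_rename]
    exact hp
  obtain ⟨g, hg⟩ := hF _ h1
  have hinj : Function.Injective (Subtype.val : {i : Fin (n + 1) // i ≠ j} → Fin (n + 1)) :=
    Subtype.val_injective
  have h2 : rename Subtype.val p ≠ 0 := by
    rw [Ne, map_eq_zero_iff _ (rename_injective _ hinj)]
    exact hp0
  have hg0 : g ≠ 0 := by
    rintro rfl
    rw [mul_zero] at hg
    exact h2 hg
  have h3 : degreeOf j (rename Subtype.val p) = 0 := by
    refine Nat.le_zero.1 (degreeOf_le_iff.2 fun μ hμ => ?_)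
    rw [Nat.le_zero]
    by_contra h0
    have h4 : j ∈ (rename (Subtype.val : {i : Fin (n + 1) // i ≠ j} → Fin (n + 1)) p).vars := by
      rw [mem_vars_iff_mem_support]
      exact ⟨μ, hμ, Finsupp.mem_support_iff.2 h0⟩
    obtain ⟨i, -, hi⟩ := mem_vars_rename _ _ h4
    exact i.2 hi
  rw [hg, degreeOf_mul_eq hF0 hg0] at h3
  omega

/-- A transcendence basis of the direction over the point, and enough independent elements. -/
lemma exists_T {n : ℕ} (ξ w : Fin (n + 1) → Ω) (j : Fin (n + 1))
    (hj : AlgebraicIndependent K (fun i : {i : Fin (n + 1) // i ≠ j} => ξ i)) :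
    ∃ J T : Finset Ω, AlgebraicIndependent K ((↑) : J → Ω) ∧ n + T.card ≤ J.card ∧
      (∀ y ∈ J, y ∈ Set.range ξ ∪ Set.range w) ∧
      ∀ i, IsAlgebraic (IntermediateField.adjoin K (Set.range ξ ∪ (T : Set Ω))) (w i) := by
  classical
  set I₀ : Set Ω := Set.range (fun i : {i : Fin (n + 1) // i ≠ j} => ξ i) with hI₀
  have hind : (AlgebraicIndependent.matroid K Ω).Indep I₀ := by
    rw [AlgebraicIndependent.matroid_indep_iff]
    exact hj.to_subtype_range
  have hI₀ξ : I₀ ⊆ Set.range ξ := by
    rintro _ ⟨i, rfl⟩
    exact ⟨i, rfl⟩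
  obtain ⟨t, hB, hIt⟩ := hind.subset_isBasis_of_subset
    (X := Set.range ξ ∪ Set.range w) (hI₀ξ.trans Set.subset_union_left) (Set.subset_univ _)
  have hfin : t.Finite := ((Set.finite_range ξ).union (Set.finite_range w)).subset hB.subset
  have hIfin : I₀.Finite := Set.finite_range _
  refine ⟨hfin.toFinset, hfin.toFinset.filter (fun y => y ∉ Set.range ξ), ?_, ?_, ?_, ?_⟩
  · have h1 : AlgebraicIndependent K ((↑) : t → Ω) := hB.indep
    refine h1.comp (fun y : hfin.toFinset => (⟨y.1, (Set.Finite.mem_toFinset hfin).1 y.2⟩ : t)) ?_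
    intro a b hab
    exact Subtype.ext (congrArg (fun z : t => (z : Ω)) hab)
  · have hcI : hIfin.toFinset.card = n := by
      have h1 : hIfin.toFinset = Finset.univ.image
          (fun i : {i : Fin (n + 1) // i ≠ j} => ξ i) := by
        ext y
        simp [hI₀]
      rw [h1, Finset.card_image_of_injective _ hj.injective, Finset.card_univ,
        Fintype.card_subtype_compl, Fintype.card_fin]
      simp
    have hdisj : Disjoint hIfin.toFinset (hfin.toFinset.filter (fun y => y ∉ Set.range ξ)) := by
      rw [Finset.disjoint_left]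
      intro y hy hy2
      rw [Set.Finite.mem_toFinset] at hy
      exact (Finset.mem_filter.1 hy2).2 (hI₀ξ hy)
    have hsub : hIfin.toFinset ∪ (hfin.toFinset.filter (fun y => y ∉ Set.range ξ)) ⊆
        hfin.toFinset := by
      refine Finset.union_subset ?_ (Finset.filter_subset _ _)
      intro y hy
      rw [Set.Finite.mem_toFinset] at hy ⊢
      exact hIt hy
    have h2 := Finset.card_le_card hsub
    rw [Finset.card_union_of_disjoint hdisj, hcI] at h2
    exact h2
  · intro y hy
    exact hB.subset ((Set.Finite.mem_toFinset hfin).1 hy)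
  · intro i
    have h1 : IsAlgebraic (Algebra.adjoin K t) (w i) :=
      (AlgebraicIndependent.matroid_isBasis_iff.mp hB).2.2 _ (Or.inr ⟨i, rfl⟩)
    have h2 : w i ∈ (AlgebraicIndependent.matroid K Ω).closure t := by
      rw [AlgebraicIndependent.matroid_closure_eq]
      exact h1
    have h3 : t ⊆ Set.range ξ ∪
        ((hfin.toFinset.filter (fun y => y ∉ Set.range ξ) : Finset Ω) : Set Ω) := by
      intro y hy
      by_cases hyξ : y ∈ Set.range ξ
      · exact Or.inl hyξ
      · right
        rw [Finset.mem_coe, Finset.mem_filter, Set.Finite.mem_toFinset]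
        exact ⟨hy, hyξ⟩
    have h4 := (AlgebraicIndependent.matroid K Ω).closure_subset_closure h3 h2
    rw [AlgebraicIndependent.matroid_closure_eq] at h4
    exact IntermediateField.isAlgebraic_adjoin_iff.mpr h4

end Count

/-! ## The relation over the extension -/

section Rel

/-- All maximal minors vanish: the rows are dependent. -/
lemma exists_lam {σ M : Type} [Fintype σ] [Field M] (d : ℕ) (A : Matrix (Fin d) σ M)
    (h : ∀ S : Fin d → σ, (A.submatrix id S).det = 0) :
    ∃ lam : Fin d → M, (∃ l, lam l ≠ 0) ∧ ∀ i, ∑ l, lam l * A l i = 0 := by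
  classical
  have h1 : ¬ ∀ v : Fin d → M, ∃ u : σ → M, A.mulVec u = v := by
    rw [← RANK_.minors d A]
    rintro ⟨S, hS⟩
    exact hS (h S)
  push Not at h1
  obtain ⟨v, hv⟩ := h1
  have hlt : LinearMap.range A.mulVecLin < ⊤ := by
    rw [lt_top_iff_ne_top]
    intro htop
    have : v ∈ LinearMap.range A.mulVecLin := by
      rw [htop]
      trivial
    obtain ⟨u, hu⟩ := this
    exact hv u hu
  obtain ⟨f, hf0, hf⟩ := Submodule.exists_le_ker_of_lt_top _ hlt
  have hfv : ∀ v : Fin d → M, f v = ∑ l, v l * f (fun j => if l = j then 1 else 0) := by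
    intro v
    rw [LinearMap.pi_apply_eq_sum_univ f v]
    rfl
  refine ⟨fun l => f (fun j => if l = j then 1 else 0), ?_, ?_⟩
  · by_contra hcon
    push Not at hcon
    apply hf0
    refine LinearMap.ext fun v => ?_
    rw [hfv v]
    simp [hcon]
  · intro i
    have h2 : A.mulVec (Pi.single i 1) ∈ LinearMap.ker f := hf ⟨Pi.single i 1, rfl⟩
    rw [LinearMap.mem_ker, hfv] at h2
    refine Eq.trans (Finset.sum_congr rfl fun l _ => ?_) h2
    rw [Matrix.mulVec_single_one, mul_comm]
    rfl

/-- The top coefficient of the transported relation does not vanish. -/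
lemma mu_ne_zero {M Ω : Type} [Field M] [Field Ω] [Algebra M Ω] (s : Ω)
    (hs : Transcendental M s) (d : ℕ) (lam : Fin d → M) (hlam : ∃ l, lam l ≠ 0)
    (hb : ∀ l < d, ((d - 1).choose l : M) ≠ 0) :
    mu d (fun l => algebraMap M Ω (lam l)) s (d - 1) ≠ 0 := by
  classical
  set P : Polynomial M := ∑ m : Fin d, Polynomial.C (lam m * ((d - 1).choose m : M) *
    (-1) ^ (d - 1 - (m : ℕ))) * Polynomial.X ^ (d - 1 - (m : ℕ)) with hP
  have h1 : mu d (fun l => algebraMap M Ω (lam l)) s (d - 1) = Polynomial.aeval s P := by
    rw [hP, map_sum]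
    refine Finset.sum_congr rfl fun m _ => ?_
    rw [sub_eq_add_neg, ← Polynomial.C_neg, Polynomial.coeff_X_add_C_pow]
    rw [map_mul, Polynomial.aeval_C, map_pow, Polynomial.aeval_X, map_mul, map_mul, map_pow,
      map_neg, map_one, map_natCast, neg_pow s]
    ring
  rw [h1]
  intro h0
  have hP0 : P = 0 := by
    by_contra hne
    exact hs ⟨P, hne, h0⟩
  obtain ⟨m₀, hm₀⟩ := hlam
  have h2 : P.coeff (d - 1 - (m₀ : ℕ)) = lam m₀ * ((d - 1).choose m₀ : M) *
      (-1) ^ (d - 1 - (m₀ : ℕ)) := by
    rw [hP, Polynomial.finsetSum_coeff, Finset.sum_eq_single m₀]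
    · rw [Polynomial.coeff_C_mul_X_pow, if_pos rfl]
    · intro m _ hm
      rw [Polynomial.coeff_C_mul_X_pow, if_neg]
      intro heq
      apply hm
      have h3 := m.2
      have h4 := m₀.2
      refine Fin.ext ?_
      omega
    · intro h; exact absurd (Finset.mem_univ _) h
  rw [hP0, Polynomial.coeff_zero] at h2
  have h3 : lam m₀ * ((d - 1).choose m₀ : M) * (-1) ^ (d - 1 - (m₀ : ℕ)) ≠ 0 :=
    mul_ne_zero (mul_ne_zero hm₀ (hb _ m₀.2)) (pow_ne_zero _ (by simp))
  exact h3 h2.symm

/-- The count in an extension with a transcendental element. -/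
lemma main (h1 : T_DEG) {K M Ω : Type} [Field K] [Field M] [Field Ω] [Algebra K M] [Algebra M Ω]
    [Algebra K Ω] [IsScalarTower K M Ω] (s : Ω) (hst : Transcendental M s) (n d : ℕ)
    (F : MvPolynomial (Fin (n + 1)) K) (hd : 1 ≤ d) (hF : F.IsHomogeneous d) (hs : SmoothForm F)
    (hb : ∀ l < d, ((d - 1).choose l : K) ≠ 0) (ξ w : Fin (n + 1) → M)
    (hξ : ∀ g : MvPolynomial (Fin (n + 1)) K, aeval ξ g = 0 ↔ F ∣ g)
    (hline : onLine (F.map (algebraMap K M)) ξ w = 0)
    (hminor : ∀ S : Fin d → Fin (n + 1), dminor (F.map (algebraMap K M)) d ξ w S = 0) :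
    ∃ T : Finset M, T.card + 1 ≤ d ∧
      ∀ i, IsAlgebraic (IntermediateField.adjoin K (Set.range ξ ∪ (T : Set M))) (w i) := by
  classical
  have hF0 : F ≠ 0 := by
    rintro rfl
    have h := hs K (fun _ => 1) (by simp) (by simp)
    exact one_ne_zero (congrFun h 0)
  let e : M →+* Ω := algebraMap M Ω
  have hcomp : e.comp (algebraMap K M) = algebraMap K Ω :=
    (IsScalarTower.algebraMap_eq K M Ω).symm
  -- the relation between the rows
  obtain ⟨lam, hlam0, hlam⟩ := exists_lam d (dmat (F.map (algebraMap K M)) d ξ w) hminor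
  set x : Fin (n + 1) → Ω := fun i => e (ξ i) + s * e (w i) with hx
  set u : Fin (n + 1) → Ω := fun i => e (w i) with hu
  set μ : ℕ → Ω := mu d (fun l => e (lam l)) s with hμ
  have hμ0 : μ (d - 1) ≠ 0 := by
    refine mu_ne_zero s hst d lam hlam0 fun l hl => ?_
    have := hb l hl
    rw [← map_natCast (algebraMap K M)]
    exact (map_ne_zero_iff _ (algebraMap K M).injective).2 this
  have hrel : ∀ i, ∑ l ∈ Finset.range d, μ l *
      (onLine ((pderiv i F).map (algebraMap K Ω)) x u).coeff l = 0 := by
    intro i
    have h2 : onLine ((pderiv i F).map (algebraMap K Ω)) x u =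
        ((onLine (pderiv i (F.map (algebraMap K M))) ξ w).map e).comp
          (Polynomial.X + Polynomial.C s) := by
      rw [hx, hu, onLine_shift]
      congr 1
      rw [pderiv_map, ← onLine_map, MvPolynomial.map_map, hcomp]
    rw [h2]
    refine rel_shift d _ (fun l => e (lam l)) s ?_ ?_
    · have h3 := (h1 (Fin (n + 1)) M (pderiv i (F.map (algebraMap K M))) (d - 1)
        (hF.map _).pderiv ξ w).1
      refine lt_of_le_of_lt Polynomial.natDegree_map_le ?_
      omega
    · have h3 := hlam i
      have h4 := congrArg e h3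
      rw [map_sum, map_zero] at h4
      rw [← h4]
      refine Finset.sum_congr rfl fun l _ => ?_
      rw [map_mul, Polynomial.coeff_map]
      rfl
  -- zeros
  have hlineΩ : onLine (F.map (algebraMap K Ω)) (fun i => e (ξ i)) (fun i => e (w i)) = 0 := by
    have h2 := onLine_map e (F.map (algebraMap K M)) ξ w
    rw [MvPolynomial.map_map, hcomp, hline, Polynomial.map_zero] at h2
    exact h2
  have hu0 : aeval u F = 0 := by
    have h2 := (h1 (Fin (n + 1)) Ω (F.map (algebraMap K Ω)) d (hF.map _)
      (fun i => e (ξ i)) (fun i => e (w i))).2.2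
    rw [hlineΩ, Polynomial.coeff_zero, eval_map] at h2
    exact h2.symm
  have hx0 : aeval x F = 0 := by
    have h2 := (h1 (Fin (n + 1)) Ω (F.map (algebraMap K Ω)) d (hF.map _)
      x (fun i => e (w i))).2.1
    rw [hx, onLine_shift, hlineΩ, Polynomial.zero_comp, Polynomial.coeff_zero, eval_map] at h2
    exact h2.symm
  -- the direction is algebraic over the new base point and the relation
  set m : ℕ → Ω := fun l => μ l / μ (d - 1) with hm
  set D : Finset Ω := (Finset.range (d - 1)).image m with hD
  set E : IntermediateField K Ω := IntermediateField.adjoin K (Set.range x ∪ (D : Set Ω)) with hE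
  have halg : ∀ b, IsAlgebraic E (u b) := by
    refine alg_over h1 n d F hd hF hs E x u ?_ m ?_ hu0 ?_
    · intro i
      exact IntermediateField.subset_adjoin K _ (Or.inl ⟨i, rfl⟩)
    · intro l hl
      refine IntermediateField.subset_adjoin K _ (Or.inr ?_)
      rw [Finset.mem_coe, hD]
      exact Finset.mem_image_of_mem m (Finset.mem_range.2 (by omega))
    · intro i
      have h2 := hrel i
      have h3 : d = (d - 1) + 1 := by omega
      rw [h3, Finset.sum_range_succ] at h2
      have h4 : ∑ l ∈ Finset.range (d - 1), m l *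
          (onLine ((pderiv i F).map (algebraMap K Ω)) x u).coeff l =
          (∑ l ∈ Finset.range (d - 1), μ l *
            (onLine ((pderiv i F).map (algebraMap K Ω)) x u).coeff l) / μ (d - 1) := by
        rw [Finset.sum_div]
        refine Finset.sum_congr rfl fun l _ => ?_
        rw [hm]
        ring
      rw [h4, div_add' _ _ _ hμ0, mul_comm _ (μ (d - 1)), h2, zero_div]
  -- counting
  obtain ⟨B₀, hB₀c, hB₀⟩ := dep_finset (K := K) x F hF0 hx0
  obtain ⟨j, hj⟩ := indep_coords (K := K) ξ F hd hF hF0 (fun g => (hξ g).1)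
  obtain ⟨J, T, hJ, hJT, hJm, hw⟩ := exists_T (K := K) ξ w j hj
  refine ⟨T, ?_, hw⟩
  set B : Finset Ω := B₀ ∪ D ∪ {s} with hB
  have hBc : B.card ≤ n + (d - 1) + 1 := by
    have h2 : D.card ≤ d - 1 := by
      refine Finset.card_image_le.trans ?_
      rw [Finset.card_range]
    refine (Finset.card_union_le _ _).trans ?_
    rw [Finset.card_singleton]
    have := Finset.card_union_le B₀ D
    omega
  set Mat := AlgebraicIndependent.matroid K Ω with hMat
  have hclB : ∀ y : Ω, y ∈ Mat.closure (B : Set Ω) ↔
      IsAlgebraic (Algebra.adjoin K (B : Set Ω)) y := by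
    intro y
    rw [hMat, AlgebraicIndependent.matroid_closure_eq]
    rfl
  have hxB : ∀ i, x i ∈ Mat.closure (B : Set Ω) := by
    intro i
    have h2 : x i ∈ Mat.closure (B₀ : Set Ω) := by
      rw [hMat, AlgebraicIndependent.matroid_closure_eq]
      exact hB₀ i
    refine Mat.closure_subset_closure ?_ h2
    intro y hy
    rw [hB, Finset.coe_union, Finset.coe_union]
    exact Or.inl (Or.inl hy)
  have hDB : (D : Set Ω) ⊆ Mat.closure (B : Set Ω) := by
    refine Set.Subset.trans ?_ (Mat.subset_closure (B : Set Ω) (Set.subset_univ _))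
    intro y hy
    rw [hB, Finset.coe_union, Finset.coe_union]
    exact Or.inl (Or.inr hy)
  have hsB : IsAlgebraic (Algebra.adjoin K (B : Set Ω)) s := by
    rw [← hclB]
    refine Mat.subset_closure (B : Set Ω) (Set.subset_univ _) ?_
    rw [hB, Finset.coe_union]
    exact Or.inr (by simp)
  have huB : ∀ b, IsAlgebraic (Algebra.adjoin K (B : Set Ω)) (u b) := by
    intro b
    rw [← hclB]
    have h2 : u b ∈ Mat.closure (Set.range x ∪ (D : Set Ω)) := by
      rw [hMat, AlgebraicIndependent.matroid_closure_eq]
      exact IntermediateField.isAlgebraic_adjoin_iff.mp (halg b)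
    refine Mat.closure_subset_closure_of_subset_closure ?_ h2
    refine Set.union_subset ?_ hDB
    rintro _ ⟨i, rfl⟩
    exact hxB i
  have hξB : ∀ i, IsAlgebraic (Algebra.adjoin K (B : Set Ω)) (e (ξ i)) := by
    intro i
    have h2 : e (ξ i) = x i - s * u i := by
      rw [hx, hu]
      ring
    rw [h2]
    exact ((hclB _).1 (hxB i)).sub (hsB.mul (huB i))
  have hind : AlgebraicIndependent K
      (Sum.elim (fun _ : Unit => s) (algebraMap M Ω ∘ ((↑) : J → M))) := by
    refine AlgebraicIndependent.sumElim_comp hJ ?_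
    rw [algebraicIndependent_unique_type_iff]
    exact hst
  have hcard := card_le_of_algebraic _ hind B ?_
  · rw [Fintype.card_sum, Fintype.card_unit, Fintype.card_coe] at hcard
    omega
  · rintro (a | a)
    · exact hsB
    · rcases hJm a.1 a.2 with ⟨i, hi⟩ | ⟨i, hi⟩
      · have := hξB i
        rw [hi] at this
        exact this
      · have := huB i
        rw [hu] at this
        simp only at this
        rw [hi] at this
        exact this

end Rel

end NFB_

open NFB_ in
/-- Few lines through the generic point are not free. -/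
theorem p_NFB (h1 : T_DEG) : T_NFB := by
  intro K _ n d F hd hF hs hb M _ _ ξ w hξ hline hminor
  have hst : Transcendental M
      (algebraMap (Polynomial M) (FractionRing (Polynomial M)) Polynomial.X) :=
    (transcendental_algebraMap_iff (IsFractionRing.injective (Polynomial M)
      (FractionRing (Polynomial M)))).2 (Polynomial.transcendental_X M)
  exact main h1 _ hst n d F hd hF hs hb ξ w hξ hline hminor

end Pool.Agent.WL
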