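import Pool.Agent.WL.Targets4
import Pool.Agent.WL.DIVR

/-!
# WL-OPA: from generic to most linear sections
-/

set_option autoImplicit false

open MvPolynomial

namespace Pool.Agent.WL

namespace OPA_

section Sub

variable {A B : Type} [CommRing A] [CommRing B] {n n' : ℕ}

theorem lsub_map (φ : A →+* B) (F : MvPolynomial (Fin (n + 1)) A)
    (a : Fin (n + 1) → Fin (n' + 1) → A) :
    (lsub F a).map φ = lsub (F.map φ) (fun i j => φ (a i j)) := by
  unfold lsub
  induction F using MvPolynomial.induction_on with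
  | C r => simp
  | add p q hp hq => simp only [map_add, hp, hq]
  | mul_X p i hp => simp only [map_mul, hp, aeval_X, map_X, map_sum, map_C]

theorem lin_hom (i : Fin (n + 1)) (a : Fin (n + 1) → Fin (n' + 1) → A) :
    (∑ j, C (a i j) * X j : MvPolynomial (Fin (n' + 1)) A).IsHomogeneous 1 := by
  refine IsHomogeneous.sum _ _ _ fun j _ => ?_
  have h : (C (a i j) * X j : MvPolynomial (Fin (n' + 1)) A).IsHomogeneous (0 + 1) :=
    (isHomogeneous_C _ _).mul (isHomogeneous_X _ _)
  simpa using h

theorem lsub_hom {d : ℕ} (F : MvPolynomial (Fin (n + 1)) A) (hF : F.IsHomogeneous d)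
    (a : Fin (n + 1) → Fin (n' + 1) → A) : (lsub F a).IsHomogeneous d := by
  unfold lsub
  have h := hF.aeval (fun i => ∑ j, C (a i j) * X j) (fun i => lin_hom i a)
  simpa using h

theorem eval_lsub (F : MvPolynomial (Fin (n + 1)) A) (a : Fin (n + 1) → Fin (n' + 1) → A)
    (x : Fin (n' + 1) → A) : eval x (lsub F a) = eval (fun i => ∑ j, a i j * x j) F := by
  unfold lsub
  induction F using MvPolynomial.induction_on with
  | C c => simp
  | add p q hp hq => simp only [map_add, hp, hq]
  | mul_X p i hp => simp only [map_mul, hp, aeval_X, eval_X, map_sum, eval_C]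

/-- The value of a form at the first unit vector. -/
theorem eval_unit {m d : ℕ} (G : MvPolynomial (Fin (m + 1)) A) (hG : G.IsHomogeneous d) :
    eval (Pi.single 0 1 : Fin (m + 1) → A) G = G.coeff (Finsupp.single 0 d) := by
  classical
  rw [eval_eq']
  by_cases h0 : G.coeff (Finsupp.single 0 d) = 0
  · rw [h0]
    refine Finset.sum_eq_zero fun μ hμ => ?_
    have hne : ∃ j : Fin m, μ j.succ ≠ 0 := by
      by_contra hall
      simp only [not_exists, not_not] at hall
      have hdeg : ∑ i, μ i = d := by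
        by_contra h
        exact (mem_support_iff.1 hμ) (hG.coeff_eq_zero (by rwa [Finsupp.degree_eq_sum]))
      rw [Fin.sum_univ_succ, Finset.sum_eq_zero (fun j _ => hall j), add_zero] at hdeg
      have : μ = Finsupp.single 0 d := by
        ext i
        refine Fin.cases ?_ (fun j => ?_) i
        · simp [hdeg]
        · simp [hall j]
      rw [this] at hμ
      exact (mem_support_iff.1 hμ) h0
    obtain ⟨j, hj⟩ := hne
    rw [Finset.prod_eq_zero (Finset.mem_univ j.succ), mul_zero]
    rw [Pi.single_eq_of_ne (Fin.succ_ne_zero j), zero_pow hj]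
  · rw [Finset.sum_eq_single_of_mem _ (mem_support_iff.2 h0)]
    · rw [Finset.prod_eq_one, mul_one]
      intro i _
      refine Fin.cases ?_ (fun j => ?_) i
      · simp
      · simp
    · intro μ hμ hne
      have hne : ∃ j : Fin m, μ j.succ ≠ 0 := by
        by_contra hall
        simp only [not_exists, not_not] at hall
        have hdeg : ∑ i, μ i = d := by
          by_contra h
          exact (mem_support_iff.1 hμ) (hG.coeff_eq_zero (by rwa [Finsupp.degree_eq_sum]))
        rw [Fin.sum_univ_succ, Finset.sum_eq_zero (fun j _ => hall j), add_zero] at hdeg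
        apply hne
        ext i
        refine Fin.cases ?_ (fun j => ?_) i
        · simp [hdeg]
        · simp [hall j]
      obtain ⟨j, hj⟩ := hne
      rw [Finset.prod_eq_zero (Finset.mem_univ j.succ), mul_zero]
      rw [Pi.single_eq_of_ne (Fin.succ_ne_zero j), zero_pow hj]

omit [CommRing B] in
theorem ren {σ τ : Type} (f : σ → τ) (F : MvPolynomial σ A) :
    eval₂ (C : A →+* MvPolynomial τ A) (fun i => X (f i)) F = rename f F := by
  induction F using MvPolynomial.induction_on with
  | C c => simp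
  | add p q hp hq => rw [eval₂_add, hp, hq, map_add]
  | mul_X p i hp => rw [eval₂_mul, hp, eval₂_X, map_mul, rename_X]

/-- The leading coefficient of the universal linear section. -/
theorem lead_ne_zero {K : Type} [Field K] {d : ℕ} (F : MvPolynomial (Fin (n + 1)) K)
    (hF : F.IsHomogeneous d) (hF0 : F ≠ 0) :
    (lsub (F.map (C : K →+* MvPolynomial (Fin (n + 1) × Fin (n' + 1)) K))
      (fun i j => X (i, j))).coeff (Finsupp.single 0 d) ≠ 0 := by
  rw [← eval_unit _ (lsub_hom _ (hF.map _) _), eval_lsub]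
  have h1 : (fun i => ∑ j, (X (i, j) : MvPolynomial (Fin (n + 1) × Fin (n' + 1)) K) *
      (Pi.single 0 1 : Fin (n' + 1) → MvPolynomial (Fin (n + 1) × Fin (n' + 1)) K) j) =
      fun i => X (i, 0) := by
    funext i
    rw [Finset.sum_eq_single (0 : Fin (n' + 1))]
    · simp
    · intro j _ hj
      rw [Pi.single_eq_of_ne hj, mul_zero]
    · intro h
      exact absurd (Finset.mem_univ _) h
  rw [h1, eval_map]
  have h2 : eval₂ (C : K →+* MvPolynomial (Fin (n + 1) × Fin (n' + 1)) K)
      (fun i => X (i, 0)) F = rename (fun i : Fin (n + 1) => (i, (0 : Fin (n' + 1)))) F :=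
    ren (fun i : Fin (n + 1) => (i, (0 : Fin (n' + 1)))) F
  rw [h2]
  intro h3
  apply hF0
  refine rename_injective (fun i : Fin (n + 1) => (i, (0 : Fin (n' + 1)))) ?_ ?_
  · intro i j hij
    exact (Prod.mk.inj hij).1
  · rw [h3, map_zero]

end Sub

/-- Specialization of a polynomial in the coefficients of a form. -/
theorem spec {k₀ S T τ σ : Type} [CommRing k₀] [CommRing S] [CommRing T] (ι : k₀ →+* S)
    (s : S →+* T) (c : τ → S) (Δ : MvPolynomial (τ ⊕ σ) k₀) :
    (eval₂ ((C : S →+* MvPolynomial σ S).comp ι) (Sum.elim (fun μ => C (c μ)) X) Δ).map s =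
      eval₂ (C.comp (s.comp ι)) (Sum.elim (fun μ => C (s (c μ))) X) Δ := by
  have h1 : (MvPolynomial.map (σ := σ) s).comp
      (eval₂Hom ((C : S →+* MvPolynomial σ S).comp ι) (Sum.elim (fun μ => C (c μ)) X)) =
      eval₂Hom (C.comp (s.comp ι)) (Sum.elim (fun μ => C (s (c μ))) X) := by
    apply ringHom_ext
    · intro a
      simp
    · rintro (μ | i)
      · simp
      · simp
  exact congrArg (fun f => f Δ) h1

theorem spec_eval {k₀ S T τ σ : Type} [CommRing k₀] [CommRing S] [CommRing T] (ι : k₀ →+* S)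
    (s : S →+* T) (x : σ → T) (c : τ → S) (Δ : MvPolynomial (τ ⊕ σ) k₀) :
    eval₂ s x (eval₂ ((C : S →+* MvPolynomial σ S).comp ι) (Sum.elim (fun μ => C (c μ)) X) Δ) =
      eval₂ (s.comp ι) (Sum.elim (fun μ => s (c μ)) x) Δ := by
  have h1 : (eval₂Hom s x).comp
      (eval₂Hom ((C : S →+* MvPolynomial σ S).comp ι) (Sum.elim (fun μ => C (c μ)) X)) =
      eval₂Hom (s.comp ι) (Sum.elim (fun μ => s (c μ)) x) := by
    apply ringHom_ext
    · intro a
      simp
    · rintro (μ | i)
      · simp
      · simp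
  exact congrArg (fun f => f Δ) h1

end OPA_

open OPA_ in
theorem p_OPA (h1 : T_UNI) : T_OPA := by
  intro K _ n n' d F hd hF hF0 M _ _ _ a x₀ hind hx₀ hx hfree
  obtain ⟨Δ₁, hΔ₁, hΔ₁f⟩ := h1 K n' d M (lsub (F.map (algebraMap K M)) a) hd
    (lsub_hom _ (hF.map _) _) x₀ hx₀ hx hfree
  set FU : MvPolynomial (Fin (n' + 1)) (MvPolynomial (Fin (n + 1) × Fin (n' + 1)) K) :=
    lsub (F.map C) (fun i j => X (i, j)) with hFU
  have hFUh : FU.IsHomogeneous d := lsub_hom _ (hF.map _) _
  set Δ₂ : MvPolynomial (Fin (n' + 1)) (MvPolynomial (Fin (n + 1) × Fin (n' + 1)) K) :=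
    eval₂ ((C : MvPolynomial (Fin (n + 1) × Fin (n' + 1)) K →+* _).comp C)
      (Sum.elim (fun μ : Mon n' d => C (FU.coeff μ.1)) X) Δ₁ with hΔ₂
  obtain ⟨N, q, r, hdiv, hrd⟩ := DIVR_.mdiv n' d FU Δ₂ hFUh
  have hα : FU.coeff (Finsupp.single 0 d) ≠ 0 := lead_ne_zero F hF hF0
  have hmap : ∀ (T : Type) [CommRing T] (φ : K →+* T) (b : Fin (n + 1) → Fin (n' + 1) → T),
      FU.map (eval₂Hom φ (fun ij => b ij.1 ij.2)) = lsub (F.map φ) b := by
    intro T _ φ b
    have e : (eval₂Hom φ (fun ij : Fin (n + 1) × Fin (n' + 1) => b ij.1 ij.2)).comp C = φ := by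
      ext c
      simp
    rw [hFU, lsub_map, MvPolynomial.map_map, e]
    congr 1
    funext i j
    simp
  -- the remainder is not zero
  set sM : MvPolynomial (Fin (n + 1) × Fin (n' + 1)) K →+* M :=
    eval₂Hom (algebraMap K M) (fun ij => a ij.1 ij.2) with hsM
  have hsMinj : Function.Injective sM := hind
  have hsMC : sM.comp C = algebraMap K M := by
    ext c
    simp [hsM]
  have hr : r ≠ 0 := by
    intro h0
    have h2 := congrArg (fun p => eval₂ sM x₀ p) hdiv
    simp only [eval₂_mul, eval₂_pow, eval₂_C, h0, add_zero] at h2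
    have h3 : eval₂ sM x₀ FU = 0 := by
      rw [← eval_map, hsM, hmap]
      exact hx
    rw [h3, mul_zero] at h2
    rcases mul_eq_zero.1 h2 with h4 | h4
    · have h5 := eq_zero_of_pow_eq_zero h4
      exact hα (hsMinj (by rw [h5, map_zero]))
    · apply hΔ₁
      rw [hΔ₂, spec_eval, hsMC] at h4
      rw [← h4, aeval_def]
      congr 1
      funext t
      rcases t with μ | i
      · simp only [Sum.elim_inl]
        rw [← hmap M (algebraMap K M) a, coeff_map]
      · rfl
  obtain ⟨m, hm⟩ := ne_zero_iff.1 hr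
  refine ⟨FU.coeff (Finsupp.single 0 d) * coeff m r, mul_ne_zero hα hm, ?_⟩
  intro b hb
  rw [eval_mul] at hb
  have hb1 := left_ne_zero_of_mul hb
  have hb2 := right_ne_zero_of_mul hb
  set s : MvPolynomial (Fin (n + 1) × Fin (n' + 1)) K →+* K :=
    eval (fun ij => b ij.1 ij.2) with hs
  have hFb : FU.map s = lsub F b := by
    have h2 := hmap K (RingHom.id K) b
    rw [MvPolynomial.map_id] at h2
    exact h2
  have hsC : s.comp C = RingHom.id K := by
    ext c
    simp [hs]
  refine ⟨Δ₂.map s, ?_, ?_⟩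
  · intro hdvd
    have h3 := congrArg (MvPolynomial.map s) hdiv
    rw [map_mul, map_add, map_mul, hFb] at h3
    have h4 : lsub F b ∣ r.map s := by
      have h5 : r.map s = MvPolynomial.map s (C (FU.coeff (Finsupp.single 0 d)) ^ N) * Δ₂.map s -
          MvPolynomial.map s q * lsub F b := by
        rw [h3]
        ring
      rw [h5]
      exact dvd_sub (Dvd.dvd.mul_left hdvd _) (Dvd.intro_left _ rfl)
    refine DIVR_.not_dvd n' d (lsub F b) _ ?_ ?_ ?_ h4
    · rw [← hFb, coeff_map]
      exact hb1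
    · rw [ne_zero_iff]
      exact ⟨m, by rw [coeff_map]; exact hb2⟩
    · intro m' hm'
      apply hrd
      intro h0
      apply hm'
      rw [coeff_map, h0, map_zero]
  · intro M' _ φ x hx'
    refine hΔ₁f M' φ _ x ((lsub_hom _ hF _).map φ) ?_
    intro h0
    apply hx'
    have h2 : eval₂ φ x (Δ₂.map s) = eval₂ (φ.comp s) x Δ₂ := by
      rw [eval₂_map]
    rw [h2, hΔ₂, spec_eval, RingHom.comp_assoc, hsC, RingHom.comp_id, ← h0]
    congr 1
    funext t
    rcases t with μ | i
    · simp only [Sum.elim_inl]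
      rw [coeff_map, ← hFb, coeff_map]
      rfl
    · rfl

end Pool.Agent.WL
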