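import Pool.Agent.WL.Targets4

/-!
# Weak approximation and free lines: square substitutions
-/

set_option autoImplicit false

open MvPolynomial

namespace Pool.Agent.WL

namespace QA0_

/-- Linear change of the coordinates of a vector. -/
def act {A : Type} [CommRing A] {n : ℕ} (a : Fin (n + 1) → Fin (n + 1) → A)
    (x : Fin (n + 1) → A) (i : Fin (n + 1)) : A := ∑ j, a i j * x j

variable {A B : Type} [CommRing A] [CommRing B] {n : ℕ}

lemma lsub_map (φ : A →+* B) (F : MvPolynomial (Fin (n + 1)) A)
    (a : Fin (n + 1) → Fin (n + 1) → A) :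
    (lsub F a).map φ = lsub (F.map φ) (fun i j => φ (a i j)) := by
  unfold lsub
  induction F using MvPolynomial.induction_on with
  | C r => simp
  | add p q hp hq => simp only [map_add, hp, hq]
  | mul_X p i hp => simp only [map_mul, hp, aeval_X, map_X, map_sum, map_C]

lemma eval₂_lsub (φ : A →+* B) (x : Fin (n + 1) → B) (G : MvPolynomial (Fin (n + 1)) A)
    (b : Fin (n + 1) → Fin (n + 1) → A) :
    eval₂ φ x (lsub G b) = eval₂ φ (act (fun i j => φ (b i j)) x) G := by
  unfold lsub
  induction G using MvPolynomial.induction_on with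
  | C r => simp
  | add p q hp hq => simp only [map_add, eval₂_add, hp, hq]
  | mul_X p i hp =>
    simp only [map_mul, eval₂_mul, hp, aeval_X, eval₂_X]
    congr 1
    rw [eval₂_sum]
    simp [act]

lemma lsub_lsub (G : MvPolynomial (Fin (n + 1)) A) (a b : Matrix (Fin (n + 1)) (Fin (n + 1)) A)
    (h : b * a = 1) : lsub (lsub G b) a = G := by
  unfold lsub
  induction G using MvPolynomial.induction_on with
  | C r => simp
  | add p q hp hq => simp only [map_add, hp, hq]
  | mul_X p i hp =>
    simp only [map_mul, hp, aeval_X]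
    congr 1
    simp only [map_sum, map_mul, aeval_X, aeval_C]
    simp only [Finset.mul_sum, ← mul_assoc]
    rw [Finset.sum_comm]
    have h1 : ∀ k, ∑ j, (algebraMap A (MvPolynomial (Fin (n + 1)) A)) (b i j) * C (a j k) * X k =
        C ((b * a) i k) * X k := by
      intro k
      rw [Matrix.mul_apply, map_sum, Finset.sum_mul]
      refine Finset.sum_congr rfl fun j _ => ?_
      rw [map_mul]
      rfl
    rw [Finset.sum_congr rfl fun k _ => h1 k, h]
    simp [Matrix.one_apply, Finset.sum_ite_eq]

lemma onLine_lsub (F : MvPolynomial (Fin (n + 1)) A) (a : Fin (n + 1) → Fin (n + 1) → A)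
    (x w : Fin (n + 1) → A) : onLine (lsub F a) x w = onLine F (act a x) (act a w) := by
  unfold onLine
  rw [eval₂_lsub]
  congr 1
  funext i
  simp only [act, map_sum, map_mul, Finset.mul_sum, ← Finset.sum_add_distrib]
  refine Finset.sum_congr rfl fun j _ => ?_
  ring

lemma pderiv_lsub (F : MvPolynomial (Fin (n + 1)) A) (a : Fin (n + 1) → Fin (n + 1) → A)
    (j : Fin (n + 1)) :
    pderiv j (lsub F a) = ∑ i, C (a i j) * lsub (pderiv i F) a := by
  unfold lsub
  induction F using MvPolynomial.induction_on with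
  | C r => simp
  | add p q hp hq => simp only [map_add, hp, hq, mul_add, Finset.sum_add_distrib]
  | mul_X p k hp =>
    have h1 : pderiv j (∑ l, C (a k l) * X l : MvPolynomial (Fin (n + 1)) A) = C (a k j) := by
      rw [map_sum]
      simp [pderiv_X, Pi.single_apply]
    simp only [map_mul, aeval_X, pderiv_mul, hp, h1, pderiv_X, map_add, mul_add,
      Finset.sum_add_distrib]
    congr 1
    · rw [Finset.sum_mul]
      refine Finset.sum_congr rfl fun i _ => ?_
      ring
    · rw [Finset.sum_eq_single k]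
      · simp
        ring
      · intro i _ hi
        simp [hi.symm]
      · simp

lemma hom_lsub (F : MvPolynomial (Fin (n + 1)) A) (a : Fin (n + 1) → Fin (n + 1) → A) (d : ℕ)
    (h : F.IsHomogeneous d) : (lsub F a).IsHomogeneous d := by
  have := h.aeval (fun i => ∑ j, C (a i j) * X j : Fin (n + 1) → MvPolynomial (Fin (n + 1)) A)
    (n := 1) (fun i => IsHomogeneous.sum _ _ _ fun j _ => by
      simpa using (isHomogeneous_C _ (a i j)).mul (isHomogeneous_X A j))
  rw [one_mul] at this
  exact this

lemma act_act (a b : Matrix (Fin (n + 1)) (Fin (n + 1)) A) (h : a * b = 1)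
    (x : Fin (n + 1) → A) : act a (act b x) = x := by
  have : (a * b).mulVec x = x := by rw [h, Matrix.one_mulVec]
  rw [← Matrix.mulVec_mulVec] at this
  exact this

end QA0_

theorem p_QA0 (h1 : T_RANK) (_h2 : T_DEG) : T_QA0 := by
  intro K _ _ n d F hd hF hQ
  obtain ⟨ρ, hρ, hQ⟩ := hQ
  -- the generic determinant
  let D : MvPolynomial (Fin (n + 1) × Fin (n + 1)) K :=
    (Matrix.of fun i j => (X (i, j) : MvPolynomial (Fin (n + 1) × Fin (n + 1)) K)).det
  have hDe : ∀ a : Fin (n + 1) × Fin (n + 1) → K,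
      eval a D = (Matrix.of fun i j => a (i, j)).det := by
    intro a
    rw [RingHom.map_det]
    congr 1
    ext i j
    simp
  have hD : D ≠ 0 := by
    intro h
    have := hDe (fun ij => (1 : Matrix (Fin (n + 1)) (Fin (n + 1)) K) ij.1 ij.2)
    rw [h] at this
    have h' : (Matrix.of fun i j => (1 : Matrix (Fin (n + 1)) (Fin (n + 1)) K) i j) = 1 := rfl
    simp only [map_zero] at this
    rw [h', Matrix.det_one] at this
    exact zero_ne_one this
  have hne : ρ * D ≠ 0 := mul_ne_zero hρ hD
  obtain ⟨a0, ha0⟩ : ∃ a0, eval a0 (ρ * D) ≠ 0 := by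
    by_contra hcon
    push Not at hcon
    exact hne (MvPolynomial.funext fun x => by rw [hcon x, map_zero])
  rw [map_mul] at ha0
  have hρa := left_ne_zero_of_mul ha0
  have hDa := right_ne_zero_of_mul ha0
  rw [hDe] at hDa
  set a : Matrix (Fin (n + 1)) (Fin (n + 1)) K := Matrix.of fun i j => a0 (i, j) with ha
  have hu : IsUnit a.det := isUnit_iff_ne_zero.2 hDa
  set b : Matrix (Fin (n + 1)) (Fin (n + 1)) K := a⁻¹ with hb
  have hba : b * a = 1 := Matrix.nonsing_inv_mul a hu
  have hab : a * b = 1 := Matrix.mul_nonsing_inv a hu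
  obtain ⟨Δa, hΔ, hall⟩ := hQ a hρa
  refine ⟨lsub Δa b, ?_, ?_⟩
  · rintro ⟨Q, hQ'⟩
    apply hΔ
    refine ⟨lsub Q a, ?_⟩
    have h7 : lsub (lsub Δa b) a = lsub (F * Q) a := congrArg (fun P => lsub P a) hQ'
    rw [QA0_.lsub_lsub Δa a b hba] at h7
    rw [h7]
    unfold lsub
    rw [map_mul]
  · intro M _ φ x hx
    rw [QA0_.eval₂_lsub] at hx
    have hall' := hall M φ _ hx
    set aφ : Matrix (Fin (n + 1)) (Fin (n + 1)) M := a.map φ with haφ
    set bφ : Matrix (Fin (n + 1)) (Fin (n + 1)) M := b.map φ with hbφ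
    have hbaφ : bφ * aφ = 1 := by
      rw [haφ, hbφ, ← Matrix.map_mul, hba, Matrix.map_one _ (map_zero φ) (map_one φ)]
    have habφ : aφ * bφ = 1 := by
      rw [haφ, hbφ, ← Matrix.map_mul, hab, Matrix.map_one _ (map_zero φ) (map_one φ)]
    rw [QA0_.lsub_map] at hall'
    change AllFree (lsub (F.map φ) aφ) d (QA0_.act bφ x) at hall'
    intro w hw hwx
    set x' := QA0_.act bφ x with hx'
    set w' := QA0_.act bφ w with hw'
    have hax : QA0_.act aφ x' = x := QA0_.act_act aφ bφ habφ x
    have haw : QA0_.act aφ w' = w := QA0_.act_act aφ bφ habφ w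
    have h3 : onLine (lsub (F.map φ) aφ) x' w' = 0 := by
      rw [QA0_.onLine_lsub, hax, haw, hw]
    have h4 : ∀ c : M, w' ≠ c • x' := by
      intro c hc
      apply hwx c
      have h8 : QA0_.act aφ (c • x') = c • QA0_.act aφ x' := by
        funext i
        simp only [QA0_.act, Pi.smul_apply, smul_eq_mul, Finset.mul_sum]
        refine Finset.sum_congr rfl fun j _ => ?_
        ring
      rw [← haw, hc, h8, hax]
    have h5 := hall' w' h3 h4
    have hFh : (F.map φ).IsHomogeneous d := hF.map φ
    rw [h1 _ _ _ d (QA0_.hom_lsub _ _ d hFh) hd] at h5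
    rw [h1 _ _ _ d hFh hd]
    intro g hg
    obtain ⟨u, hu⟩ := h5 g hg
    refine ⟨QA0_.act aφ u, ?_⟩
    rw [← hu]
    have h6 : ∀ j, onLine (pderiv j (lsub (F.map φ) aφ)) x' w' =
        ∑ i, Polynomial.C (aφ i j) * onLine (pderiv i (F.map φ)) x w := by
      intro j
      rw [QA0_.pderiv_lsub]
      have : ∀ G : Fin (n + 1) → MvPolynomial (Fin (n + 1)) M,
          onLine (∑ i, C (aφ i j) * G i) x' w' =
          ∑ i, Polynomial.C (aφ i j) * onLine (G i) x' w' := by
        intro G
        unfold onLine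
        rw [eval₂_sum]
        simp
      rw [this]
      refine Finset.sum_congr rfl fun i _ => ?_
      rw [QA0_.onLine_lsub, hax, haw]
    simp only [h6, Finset.mul_sum]
    rw [Finset.sum_comm]
    refine Finset.sum_congr rfl fun i _ => ?_
    simp only [QA0_.act, map_sum, map_mul, Finset.sum_mul]
    refine Finset.sum_congr rfl fun j _ => ?_
    ring

end Pool.Agent.WL
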