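import Pool.Agent.WL.Targets4

/-!
# QAS: hyperplane sections and linear sections
-/

set_option autoImplicit false

open MvPolynomial
open Pool.Agent.WA

namespace Pool.Agent.WL

namespace QAS_

/-- the matrix with the additional last row `∑ j, h j * b j` -/
noncomputable def ext {A : Type} [CommRing A] {n n' : ℕ} (h : Fin (n + 1) → A)
    (b : Fin (n + 1) → Fin (n' + 1) → A) (i : Fin (n + 1 + 1)) (j' : Fin (n' + 1)) : A :=
  Fin.snoc (α := fun _ => A) (fun i => b i j') (∑ j, h j * b j j') i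

lemma ext_castSucc {A : Type} [CommRing A] {n n' : ℕ} (h : Fin (n + 1) → A)
    (b : Fin (n + 1) → Fin (n' + 1) → A) (i : Fin (n + 1)) (j' : Fin (n' + 1)) :
    ext h b i.castSucc j' = b i j' := by
  unfold ext
  rw [Fin.snoc_castSucc]

lemma ext_last {A : Type} [CommRing A] {n n' : ℕ} (h : Fin (n + 1) → A)
    (b : Fin (n + 1) → Fin (n' + 1) → A) (j' : Fin (n' + 1)) :
    ext h b (Fin.last (n + 1)) j' = ∑ j, h j * b j j' := by
  unfold ext
  rw [Fin.snoc_last]

/-- ring homomorphisms -/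
lemma map_ext {A B : Type} [CommRing A] [CommRing B] {n n' : ℕ} (φ : A →+* B)
    (h : Fin (n + 1) → A) (b : Fin (n + 1) → Fin (n' + 1) → A) (i : Fin (n + 1 + 1))
    (j' : Fin (n' + 1)) :
    φ (ext h b i j') = ext (fun j => φ (h j)) (fun i j => φ (b i j)) i j' := by
  refine Fin.lastCases ?_ (fun i => ?_) i
  · rw [ext_last, ext_last, map_sum]
    exact Finset.sum_congr rfl fun j _ => map_mul _ _ _
  · rw [ext_castSucc, ext_castSucc]

/-- linear sections of hyperplane sections -/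
lemma lsub_sec {K : Type} [Field K] {n n' : ℕ} (F : MvPolynomial (Fin (n + 1 + 1)) K)
    (h : Fin (n + 1) → K) (b : Fin (n + 1) → Fin (n' + 1) → K) :
    lsub (sec F h) b = lsub F (ext h b) := by
  unfold lsub sec
  rw [← AlgHom.comp_apply, comp_aeval]
  congr 1
  refine congrArg _ ?_
  funext i
  refine Fin.lastCases ?_ (fun i => ?_) i
  · rw [Fin.snoc_last]
    simp only [map_sum, map_mul, aeval_X, ext_last, Finset.sum_mul, Finset.mul_sum]
    rw [Finset.sum_comm]
    refine Finset.sum_congr rfl fun j' _ => Finset.sum_congr rfl fun j _ => ?_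
    have e1 : (aeval fun i => ∑ j, C (b i j) * X j : MvPolynomial (Fin (n + 1)) K →ₐ[K]
        MvPolynomial (Fin (n' + 1)) K) (C (h j)) = C (h j) := by
      rw [aeval_C]
      rfl
    rw [e1]
    ring
  · rw [Fin.snoc_castSucc, aeval_X]
    simp only [ext_castSucc]

lemma eval_aeval {σ τ K : Type} [Field K] (g : σ → MvPolynomial τ K) (x : τ → K)
    (p : MvPolynomial σ K) : eval x (aeval g p) = eval (fun i => eval x (g i)) p := by
  induction p using MvPolynomial.induction_on with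
  | C a => rw [aeval_C, algebraMap_eq, eval_C, eval_C]
  | add p q hp hq => rw [map_add, map_add, map_add, hp, hq]
  | mul_X p i hp => rw [map_mul, map_mul, map_mul, aeval_X, eval_X, hp]

lemma exists_point {K σ : Type} [Field K] [Infinite K] {p : MvPolynomial σ K} (hp : p ≠ 0) :
    ∃ a : σ → K, eval a p ≠ 0 := by
  by_contra hcon
  push Not at hcon
  apply hp
  apply MvPolynomial.funext
  intro x
  rw [hcon x, map_zero]

/-- a point outside the zeros of `ρ` of the form `ext h b` -/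
lemma exists_ext {K : Type} [Field K] [Infinite K] {n n' : ℕ} (hn : n' ≤ n)
    (ρ : MvPolynomial (Fin (n + 1 + 1) × Fin (n' + 1)) K) (hρ : ρ ≠ 0) :
    ∃ (h : Fin (n + 1) → K) (b : Fin (n + 1) → Fin (n' + 1) → K),
      eval (fun ij => ext h b ij.1 ij.2) ρ ≠ 0 := by
  classical
  obtain ⟨e, he⟩ : ∃ e : Fin (n' + 1) → Fin (n + 1), e = Fin.castLE (by omega) := ⟨_, rfl⟩
  have heinj : Function.Injective e := by
    rw [he]; exact Fin.castLE_injective _
  obtain ⟨f, hf⟩ : ∃ f : Fin (n' + 1) × Fin (n' + 1) → Fin (n + 1 + 1) × Fin (n' + 1),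
      f = fun ij => ((e ij.1).castSucc, ij.2) := ⟨_, rfl⟩
  have hfinj : Function.Injective f := by
    rw [hf]
    rintro ⟨i, j⟩ ⟨i', j'⟩ hij
    simp only [Prod.mk.injEq] at hij
    rw [heinj (Fin.castSucc_injective _ hij.1), hij.2]
  obtain ⟨D, hD⟩ : ∃ D : MvPolynomial (Fin (n + 1 + 1) × Fin (n' + 1)) K,
      D = rename f (Matrix.mvPolynomialX (Fin (n' + 1)) (Fin (n' + 1)) K).det := ⟨_, rfl⟩
  have hD0 : D ≠ 0 := by
    rw [hD]
    intro h0
    have h1 := rename_injective f hfinj (h0.trans (map_zero (rename f)).symm)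
    exact Matrix.det_mvPolynomialX_ne_zero (Fin (n' + 1)) K h1
  obtain ⟨a, ha⟩ := exists_point (mul_ne_zero hρ hD0)
  rw [map_mul] at ha
  have ha1 : eval a ρ ≠ 0 := left_ne_zero_of_mul ha
  have ha2 : eval a D ≠ 0 := right_ne_zero_of_mul ha
  obtain ⟨A, hA⟩ : ∃ A : Matrix (Fin (n' + 1)) (Fin (n' + 1)) K, A = fun i j => a (f (i, j)) :=
    ⟨_, rfl⟩
  have hdet : A.det ≠ 0 := by
    have h1 : eval a D = A.det := by
      rw [hD, eval_rename, RingHom.map_det]
      congr 1
      ext i j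
      simp [Matrix.mvPolynomialX, hA]
    rwa [h1] at ha2
  obtain ⟨c, hc⟩ : ∃ c : Fin (n' + 1) → K,
      c = Matrix.vecMul (fun j => a (Fin.last (n + 1), j)) A⁻¹ := ⟨_, rfl⟩
  have hcA : Matrix.vecMul c A = fun j => a (Fin.last (n + 1), j) := by
    rw [hc, Matrix.vecMul_vecMul, Matrix.nonsing_inv_mul A (isUnit_iff_ne_zero.2 hdet),
      Matrix.vecMul_one]
  refine ⟨fun j => ∑ i, if e i = j then c i else 0, fun j j' => a (j.castSucc, j'), ?_⟩
  have hfin : (fun ij : Fin (n + 1 + 1) × Fin (n' + 1) =>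
      ext (fun j => ∑ i, if e i = j then c i else 0) (fun j j' => a (j.castSucc, j'))
        ij.1 ij.2) = a := by
    funext ij
    obtain ⟨i, j'⟩ := ij
    refine Fin.lastCases ?_ (fun i => ?_) i
    · show ext _ _ (Fin.last (n + 1)) j' = _
      rw [ext_last]
      have h1 := congrFun hcA j'
      rw [← h1]
      simp only [Finset.sum_mul]
      rw [Finset.sum_comm]
      unfold Matrix.vecMul dotProduct
      refine Finset.sum_congr rfl fun i _ => ?_
      simp only [ite_mul, zero_mul]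
      rw [Finset.sum_ite_eq Finset.univ (e i) (fun j => c i * a (j.castSucc, j'))]
      rw [if_pos (Finset.mem_univ _), hA, hf]
    · show ext _ _ i.castSucc j' = _
      rw [ext_castSucc]
  rw [hfin]
  exact ha1

end QAS_

theorem p_QAS : T_QAS := by
  intro K _ _ n n' d F hn hQ
  obtain ⟨ρ, hρ, hρa⟩ := hQ
  obtain ⟨h₀, b₀, hhb⟩ := QAS_.exists_ext hn ρ hρ
  -- the polynomial in `h`
  obtain ⟨ρ', hρ'⟩ : ∃ ρ' : MvPolynomial (Fin (n + 1)) K,
      ρ' = aeval (fun ij : Fin (n + 1 + 1) × Fin (n' + 1) =>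
        QAS_.ext (fun j => (X j : MvPolynomial (Fin (n + 1)) K)) (fun i j => C (b₀ i j))
          ij.1 ij.2) ρ := ⟨_, rfl⟩
  have e1 : ∀ h : Fin (n + 1) → K, eval h ρ' =
      eval (fun ij => QAS_.ext h b₀ ij.1 ij.2) ρ := by
    intro h
    rw [hρ', QAS_.eval_aeval]
    congr 1
    refine congrArg _ ?_
    funext ij
    rw [QAS_.map_ext]
    simp
  refine ⟨ρ', ?_, ?_⟩
  · intro h0
    apply hhb
    rw [← e1, h0, map_zero]
  · intro h hh
    -- the polynomial in `b`
    obtain ⟨ρh, hρh⟩ : ∃ ρh : MvPolynomial (Fin (n + 1) × Fin (n' + 1)) K,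
        ρh = aeval (fun ij : Fin (n + 1 + 1) × Fin (n' + 1) =>
          QAS_.ext (fun j => (C (h j) : MvPolynomial (Fin (n + 1) × Fin (n' + 1)) K))
            (fun i j => X (i, j)) ij.1 ij.2) ρ := ⟨_, rfl⟩
    have e2 : ∀ b : Fin (n + 1) → Fin (n' + 1) → K, eval (fun ij => b ij.1 ij.2) ρh =
        eval (fun ij => QAS_.ext h b ij.1 ij.2) ρ := by
      intro b
      rw [hρh, QAS_.eval_aeval]
      congr 1
      refine congrArg _ ?_
      funext ij
      rw [QAS_.map_ext]
      simp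
    refine ⟨ρh, ?_, ?_⟩
    · intro h0
      apply hh
      rw [e1, ← e2, h0, map_zero]
    · intro b hb
      rw [e2] at hb
      obtain ⟨Δ, hΔ, hall⟩ := hρa (QAS_.ext h b) hb
      refine ⟨Δ, ?_, ?_⟩
      · rw [QAS_.lsub_sec]
        exact hΔ
      · intro M _ φ x hx
        rw [QAS_.lsub_sec]
        exact hall M φ x hx

end Pool.Agent.WL
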