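import Pool.Agent.WL.Targets4
import Pool.Agent.WL.RED

/-!
# Weak approximation from weak approximation for most hyperplane sections
-/

set_option autoImplicit false

open MvPolynomial WithZero Topology
open Pool.Agent.WA

namespace Pool.Agent.WL

namespace REDR_

/-- Dehomogenisation, outside of one more hypersurface. -/
theorem dehom2 {K : Type} [Field K] [Infinite K] (n e : ℕ)
    (Δ : MvPolynomial (Fin (n + 1 + 1)) K) (ρ : MvPolynomial (Fin (n + 1)) K)
    (h0 : Δ ≠ 0) (hh : Δ.IsHomogeneous e) (hρ : ρ ≠ 0) (s : Fin (n + 1) → Set K)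
    (hs : ∀ i, (s i).Infinite) :
    ∃ h : Fin (n + 1) → K, (∀ i, h i ∈ s i) ∧
      eval (Fin.snoc (α := fun _ => K) h (-1)) Δ ≠ 0 ∧ eval h ρ ≠ 0 := by
  set P : MvPolynomial (Fin (n + 1)) K :=
    aeval (Fin.snoc (α := fun _ => MvPolynomial (Fin (n + 1)) K) (fun j => X j) (-1)) Δ with hP
  have hev : ∀ h : Fin (n + 1) → K, eval h P = eval (Fin.snoc (α := fun _ => K) h (-1)) Δ := by
    intro h
    rw [hP, ← MvPolynomial.coe_aeval_eq_eval, ← MvPolynomial.coe_aeval_eq_eval]
    show (aeval h) ((aeval _) Δ) = (aeval _) Δ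
    rw [← AlgHom.comp_apply]
    congr 1
    apply MvPolynomial.algHom_ext
    intro i
    rw [AlgHom.comp_apply, aeval_X, aeval_X]
    refine Fin.lastCases ?_ (fun j => ?_) i
    · rw [Fin.snoc_last, Fin.snoc_last]
      simp
    · rw [Fin.snoc_castSucc, Fin.snoc_castSucc, aeval_X]
  have hP0 : P ≠ 0 := by
    obtain ⟨h, -, hΔ⟩ := RED_.dehom n e Δ h0 hh (fun _ => Set.univ) (fun _ => Set.infinite_univ)
    intro h1
    apply hΔ
    rw [← hev, h1, map_zero]
  by_contra hcon
  push Not at hcon
  apply mul_ne_zero hP0 hρ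
  apply MvPolynomial.funext_set s hs
  intro h hh'
  rw [map_zero, map_mul, hev]
  by_cases h1 : eval (Fin.snoc (α := fun _ => K) h (-1)) Δ = 0
  · rw [h1, zero_mul]
  · rw [hcon h (fun i => hh' i (Set.mem_univ i)) h1, mul_zero]

end REDR_

open RED_ REDR_ in
theorem p_REDR (h1 : T_IRR) (h2 : T_DUAL) (h3 : T_SEC) (h4 : T_SECL) (h5 : T_DENS) : T_REDR := by
  intro k K _ _ _ _ n d F ρ₀ hd hn hF hsm hρ₀ hW m v hv hne x hx U hU
  classical
  have hinf : Infinite K := Infinite.of_injective (algebraMap k K) (algebraMap k K).injective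
  have hirr : Irreducible F := h1 K (n + 1) d F (by omega) (Or.inr (by omega)) hF hsm
  obtain ⟨e, Δ, hΔ0, hΔh, hΔF⟩ := h2 K (n + 1) d F hd hF hirr
  have hndvd : ¬ F ∣ X 0 := by
    intro h
    have h6 : F.totalDegree = d := hF.totalDegree hirr.ne_zero
    obtain ⟨G, hG⟩ := h
    have hG0 : G ≠ 0 := by
      rintro rfl
      rw [mul_zero] at hG
      exact X_ne_zero _ hG
    have h7 := totalDegree_mul_of_isDomain hirr.ne_zero hG0
    rw [← hG, totalDegree_X, h6] at h7
    omega
  choose π hπ using fun j => exists_isUnif (v j) (hv j).1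
  choose c hc0 hc using fun j => exists_ball_subset_pi (hπ j) ((hU j).1.mem_nhds (hU j).2)
  -- points with nonzero first coordinate
  have hpt : ∀ j, ∃ x' : Fin (n + 1 + 1) → Compl (v j), (∀ i, vE (v j) (x' i - x j i) ≤ c j) ∧
      eval x' (FE (v j) F) = 0 ∧ x' 0 ≠ 0 := by
    intro j
    let _ : Algebra K (Compl (v j)) := (emb (v j)).toAlgebra
    have halg : ∀ (z : Fin (n + 1 + 1) → Compl (v j)) (G : MvPolynomial (Fin (n + 1 + 1)) K),
        aeval z G = eval z (FE (v j) G) := by
      intro z G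
      rw [aeval_def, eval_map]
      rfl
    obtain ⟨x', hx'x, hFx', hΔx', -⟩ := h5 K (Compl (v j)) (emb (v j) (π j)) (isUnif_emb (hπ j))
      (fun e c hc => dense_emb (hπ j) e c hc) (n + 1) d F (X 0) (by omega) (Or.inr (by omega)) hF
      hsm hndvd (x j) (hx j).1 (by rw [halg]; exact (hx j).2) (c j) (hc0 j)
    rw [halg] at hFx'
    rw [aeval_X] at hΔx'
    exact ⟨x', hx'x, hFx', hΔx'⟩
  choose x' hx'x hFx' hx'0 using hpt
  -- local sections
  have hsl := fun j => h4 (Compl (v j)) (emb (v j) (π j)) (isUnif_emb (hπ j)) n d (FE (v j) F)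
    (by omega) (hF.map _) (smooth_map _ F hsm) (x' j) ⟨0, hx'0 j⟩ (hFx' j) (c j) (hc0 j)
  choose hh ρ hρ0 hρ using hsl
  -- the global hyperplane
  have hsmall := exists_small v (fun j => (hv j).1) hne ρ hρ0
  obtain ⟨z, hz0, hz⟩ := hsmall
  let s : Fin (n + 1) → Set K := fun i => {κ | ∀ j, vE (v j) (emb (v j) κ - hh j i) ≤ ρ j}
  have hs : ∀ i, (s i).Infinite := by
    intro i
    obtain ⟨κ, hκ⟩ := dense_emb_pi v (fun j => (hv j).1) hne (fun j => hh j i) ρ hρ0
    have hinfk : Infinite k := inferInstance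
    refine Set.infinite_of_injective_forall_mem (f := fun a : k => κ + algebraMap k K a * z)
      ?_ ?_
    · intro a b hab
      have h6 : algebraMap k K a * z = algebraMap k K b * z := add_left_cancel hab
      exact (algebraMap k K).injective (mul_right_cancel₀ hz0 h6)
    · intro a j
      have e1 : emb (v j) (κ + algebraMap k K a * z) - hh j i =
          (emb (v j) κ - hh j i) + emb (v j) (algebraMap k K a * z) := by
        rw [map_add]; ring
      rw [e1]
      refine (vE (v j)).map_add_le (hκ j) ?_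
      rw [val_emb, map_mul]
      have h7 : v j (algebraMap k K a) ≤ 1 := by
        by_cases ha : a = 0
        · rw [ha, map_zero, map_zero]
          exact zero_le_one
        · exact ((hv j).2 a ha).le
      calc v j (algebraMap k K a) * v j z ≤ 1 * v j z := mul_le_mul' h7 le_rfl
        _ = v j z := one_mul _
        _ ≤ ρ j := hz j
  obtain ⟨h, hhs, hΔh', hρh⟩ := dehom2 n e Δ ρ₀ hΔ0 hΔh hρ₀ s hs
  obtain ⟨hsec1, hsec2⟩ := h3 K n d F hF hsm e Δ hΔh hΔF h hΔh'
  choose x'' hx''0 hx''s hx''c using fun j => hρ j (fun i => emb (v j) (h i)) (fun i => hhs i j)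
  -- weak approximation for the section
  let ξ : ∀ j, (Fin (n + 1) → Compl (v j)) → (Fin (n + 1 + 1) → Compl (v j)) := fun j y =>
    Fin.snoc (α := fun _ => Compl (v j)) y (∑ i, emb (v j) (h i) * y i)
  have hξ : ∀ j, Continuous (ξ j) := by
    intro j
    refine continuous_pi fun i => ?_
    refine Fin.lastCases ?_ (fun l => ?_) i
    · simp only [ξ, Fin.snoc_last]
      exact continuous_finsetSum _ fun l _ => continuous_const.mul (continuous_apply l)
    · simp only [ξ, Fin.snoc_castSucc]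
      exact continuous_apply l
  obtain ⟨y, hy0, hyF, hyU⟩ := hW h hρh hsec1 hsec2 m v hv hne x''
    (fun j => ⟨hx''0 j, by
      show eval (x'' j) ((sec F h).map (emb (v j))) = 0
      rw [map_sec]
      exact hx''s j⟩)
    (fun j => ξ j ⁻¹' U j) (fun j => ⟨(hU j).1.preimage (hξ j), by
      show ξ j (x'' j) ∈ U j
      refine hc j _ fun l => ?_
      have e1 : ξ j (x'' j) l - x j l = (ξ j (x'' j) l - x' j l) + (x' j l - x j l) := by ring
      rw [e1]
      exact (vE (v j)).map_add_le (hx''c j l) (hx'x j l)⟩)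
  refine ⟨Fin.snoc (α := fun _ => K) y (∑ i, h i * y i), ?_, ?_, fun j => ?_⟩
  · intro h0
    apply hy0
    funext i
    have := congrFun h0 i.castSucc
    rwa [Fin.snoc_castSucc] at this
  · rw [← eval_sec]
    exact hyF
  · obtain ⟨b, hb0, hb⟩ := hyU j
    refine ⟨b, hb0, ?_⟩
    have e1 : (fun i => b * emb (v j) (Fin.snoc (α := fun _ => K) y (∑ i, h i * y i) i)) =
        ξ j (fun i => b * emb (v j) (y i)) := by
      funext i
      refine Fin.lastCases ?_ (fun l => ?_) i
      · simp only [ξ, Fin.snoc_last]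
        rw [map_sum, Finset.mul_sum]
        refine Finset.sum_congr rfl fun l _ => ?_
        rw [map_mul]
        ring
      · simp only [ξ, Fin.snoc_castSucc]
    rw [e1]
    exact hb

end Pool.Agent.WL
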