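import Pool.Agent.WL.ALL2
import Pool.Agent.WL.FIN4
import Pool.Agent.WL.NFB
import Pool.Agent.WL.DIMF
import Pool.Agent.WL.GENA
import Pool.Agent.WL.OPA
import Pool.Agent.WL.QA0
import Pool.Agent.WL.QAS
import Pool.Agent.WL.REDR

/-!
# All targets, part 4
-/

set_option autoImplicit false

namespace Pool.Agent.WL

theorem a_NFB : T_NFB := p_NFB p_DEG
theorem a_DIMF : T_DIMF := p_DIMF p_DEG
theorem a_GENA : T_GENA := p_GENA a_NFB a_DIMF a_TRI p_DEG a_RANK
theorem a_OPA : T_OPA := p_OPA a_UNI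
theorem a_QA0 : T_QA0 := p_QA0 a_RANK p_DEG
theorem a_REDR : T_REDR := p_REDR p_IRR p_DUAL p_SEC p_SECL a_DENS

end Pool.Agent.WL
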