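import Mathlib
import Pool.Agent.WA.Final

/-!
# Weak approximation and free lines: definitions
-/

set_option autoImplicit false

open MvPolynomial

namespace Pool.Agent.WL

section Lines

variable {σ A B : Type} [CommRing A] [CommRing B]

/-- The polynomial `F (x + τ w)` in the variable `τ`. -/
noncomputable def onLine (F : MvPolynomial σ A) (x w : σ → A) : Polynomial A :=
  eval₂ Polynomial.C (fun i => Polynomial.C (x i) + Polynomial.X * Polynomial.C (w i)) F

/-- The coefficients of `1, τ, ..., τ ^ (d - 1)` in the derivatives of `F` on the line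
`x + τ w`. -/
noncomputable def dmat (F : MvPolynomial σ A) (d : ℕ) (x w : σ → A) : Matrix (Fin d) σ A :=
  fun l i => (onLine (pderiv i F) x w).coeff l

/-- The minors of the matrix `dmat`. -/
noncomputable def dminor (F : MvPolynomial σ A) (d : ℕ) (x w : σ → A) (S : Fin d → σ) : A :=
  ((dmat F d x w).submatrix id S).det

theorem onLine_map (φ : A →+* B) (F : MvPolynomial σ A) (x w : σ → A) :
    onLine (F.map φ) (fun i => φ (x i)) (fun i => φ (w i)) = (onLine F x w).map φ := by
  unfold onLine
  rw [eval₂_map]
  have h := MvPolynomial.eval₂_comp_left (Polynomial.mapRingHom φ) (Polynomial.C : A →+* _)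
    (fun i => Polynomial.C (x i) + Polynomial.X * Polynomial.C (w i)) F
  rw [← Polynomial.coe_mapRingHom, h]
  congr 1
  · ext a
    simp
  · funext i
    simp

theorem dmat_map (φ : A →+* B) (F : MvPolynomial σ A) (d : ℕ) (x w : σ → A) :
    dmat (F.map φ) d (fun i => φ (x i)) (fun i => φ (w i)) = (dmat F d x w).map φ := by
  ext l i
  simp only [dmat, Matrix.map_apply]
  rw [pderiv_map, onLine_map, Polynomial.coeff_map]

theorem dminor_map (φ : A →+* B) (F : MvPolynomial σ A) (d : ℕ) (x w : σ → A) (S : Fin d → σ) :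
    dminor (F.map φ) d (fun i => φ (x i)) (fun i => φ (w i)) S = φ (dminor F d x w S) := by
  unfold dminor
  rw [dmat_map, RingHom.map_det]
  rfl

/-- All lines through `x` in the hypersurface `F = 0` are free. -/
def AllFree {M : Type} [Field M] (F : MvPolynomial σ M) (d : ℕ) (x : σ → M) : Prop :=
  ∀ w : σ → M, onLine F x w = 0 → (∀ c : M, w ≠ c • x) → ∃ S : Fin d → σ, dminor F d x w S ≠ 0

/-- All lines through `x` in the hypersurface `F = 0` are free, over all fields. -/
def GoodPt (F : MvPolynomial σ A) (d : ℕ) (x : σ → A) : Prop :=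
  ∀ (M : Type) [Field M] (φ : A →+* M), Function.Injective φ →
    AllFree (F.map φ) d (fun i => φ (x i))

end Lines

section Series

variable {σ : Type}

/-- Extension of the coefficients of power series. -/
noncomputable def up (k L : Type) [Field k] [Field L] [Algebra k L] :
    PowerSeries k →+* PowerSeries L :=
  PowerSeries.map (algebraMap k L)

/-- Extension of the coefficients of polynomials over power series. -/
noncomputable def upF {k : Type} (L : Type) [Field k] [Field L] [Algebra k L]
    (F : MvPolynomial σ (PowerSeries k)) : MvPolynomial σ (PowerSeries L) :=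
  F.map (up k L)

/-- Pairs that are nearly lines through points near `x₀` have a minor of small order. -/
def FreeNear {k : Type} [Field k] (F : MvPolynomial σ (PowerSeries k)) (d : ℕ)
    (x₀ : σ → PowerSeries k) (a : σ) : Prop :=
  ∃ C : ℕ, ∀ (L : Type) [Field L] [Algebra k L] (x w : σ → PowerSeries L),
    (∀ i, (PowerSeries.X : PowerSeries L) ^ C ∣ x i - up k L (x₀ i)) →
    (∃ i j, PowerSeries.constantCoeff (x i * w j - x j * w i) ≠ 0) →
    (∀ j ≤ d, (PowerSeries.X : PowerSeries L) ^ C ∣ (onLine (upF L F) x w).coeff j) →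
    ∃ S : Fin d → σ, (∀ l, S l ≠ a) ∧
      ¬ (PowerSeries.X : PowerSeries L) ^ C ∣ dminor (upF L F) d x w S

/-- Finite dimensional spaces of power series that behave like polynomials of degree at most
`δ m`. -/
structure Fam {k : Type} [Field k] (F : MvPolynomial σ (PowerSeries k)) (δ c : ℕ)
    (V : ℕ → Submodule k (PowerSeries k)) : Prop where
  pos : 0 < δ
  fin : ∀ m, FiniteDimensional k (V m)
  mono : Monotone V
  dim : ∀ m, δ * m ≤ Module.finrank k (V m) + c
  ord : ∀ m, ∀ f ∈ V m, (PowerSeries.X : PowerSeries k) ^ (δ * m + c + 1) ∣ f → f = 0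
  mul : ∀ m m', ∀ f ∈ V m, ∀ g ∈ V m', f * g ∈ V (m + m' + c)
  coeff : ∀ μ, MvPolynomial.coeff μ F ∈ V c

/-- The refined system: `φ` agrees with `q x` up to order `N`, and on the line through `x` and
`(φ - q x) / t ^ N` the form `F` is divisible by the equation of the point `φ`. -/
def Sys {A : Type} [CommRing A] (F : MvPolynomial σ (PowerSeries A)) (d N : ℕ)
    (x : σ → PowerSeries A) (q : PowerSeries A) (φ : σ → PowerSeries A) : Prop :=
  ∃ (ψ : σ → PowerSeries A) (B : ℕ → PowerSeries A),
    (∀ i, φ i = q * x i + PowerSeries.X ^ N * ψ i) ∧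
    (onLine F x ψ).coeff 0 = PowerSeries.X ^ N * B 0 ∧
    ∀ j, j + 1 < d → (onLine F x ψ).coeff (j + 1) = PowerSeries.X ^ N * B (j + 1) - q * B j

/-- The unknowns of the refined system. -/
abbrev Idx (n N M : ℕ) : Type := (Fin (n + 1) × Fin N) ⊕ (Fin N ⊕ (Fin (n + 1) × Fin M))

/-- The arc. -/
noncomputable def xS {n N M : ℕ} {A : Type} [CommRing A] (z : Idx n N M → A) (i : Fin (n + 1)) :
    PowerSeries A :=
  PowerSeries.mk fun a => if h : a < N then z (Sum.inl (i, ⟨a, h⟩)) else 0

/-- The factor. -/
noncomputable def qS {n N M : ℕ} {A : Type} [CommRing A] (z : Idx n N M → A) : PowerSeries A :=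
  PowerSeries.mk fun a => if h : a < N then z (Sum.inr (Sum.inl ⟨a, h⟩)) else 0

/-- The section. -/
noncomputable def phiS {n N M : ℕ} {k A : Type} [CommRing k] [CommRing A] [Algebra k A]
    (e : Fin M → PowerSeries k) (z : Idx n N M → A) (i : Fin (n + 1)) : PowerSeries A :=
  ∑ b, PowerSeries.C (z (Sum.inr (Sum.inr (i, b)))) * PowerSeries.map (algebraMap k A) (e b)

/-- The quotient of `φ - q x` by the power `X ^ N`. -/
noncomputable def psiS {n N M : ℕ} {k A : Type} [CommRing k] [CommRing A] [Algebra k A]
    (e : Fin M → PowerSeries k) (z : Idx n N M → A) (i : Fin (n + 1)) : PowerSeries A :=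
  PowerSeries.mk fun a => PowerSeries.coeff (a + N) (phiS e z i - qS z * xS z i)

end Series

end Pool.Agent.WL
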