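import Mathlib

namespace Pool.Agent.WL

theorem LUC_small (p : ℕ) [hp : Fact p.Prime] (m l : ℕ) (hm : m < p) (hl : l ≤ m) :
    ¬ p ∣ m.choose l := by
  intro h
  have h1 : p ∣ m.factorial := by
    rw [← Nat.choose_mul_factorial_mul_factorial hl, mul_assoc]
    exact Dvd.dvd.mul_right h _
  have := (hp.out.dvd_factorial).1 h1
  omega

/-- `p` divides no binomial coefficient of `c p^e - 1`, `1 ≤ c ≤ p` (Lucas) -/
theorem LUC_ndvd (p : ℕ) [hp : Fact p.Prime] (c : ℕ) (hc1 : 1 ≤ c) (hc : c ≤ p) (e : ℕ) :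
    ∀ l < c * p ^ e, ¬ p ∣ (c * p ^ e - 1).choose l := by
  induction e with
  | zero =>
    intro l hl
    rw [pow_zero, mul_one] at hl ⊢
    exact LUC_small p _ _ (by omega) (by omega)
  | succ e ih =>
    intro l hl h
    have hp0 := hp.out.pos
    have hd0 : 0 < c * p ^ e := by positivity
    obtain ⟨D, hD⟩ : ∃ D, c * p ^ e = D + 1 := ⟨c * p ^ e - 1, by omega⟩
    have h1 : c * p ^ (e + 1) - 1 = (p - 1) + p * D := by
      have : c * p ^ (e + 1) = p * (D + 1) := by rw [← hD]; ring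
      rw [this, mul_add, mul_one]
      omega
    have h2 : (c * p ^ (e + 1) - 1) % p = p - 1 := by
      rw [h1, Nat.add_mul_mod_self_left]
      exact Nat.mod_eq_of_lt (by omega)
    have h3 : (c * p ^ (e + 1) - 1) / p = c * p ^ e - 1 := by
      rw [h1, Nat.add_mul_div_left _ _ hp0, Nat.div_eq_of_lt (by omega), hD]
      omega
    have h4 := Choose.choose_modEq_choose_mod_mul_choose_div_nat (n := c * p ^ (e + 1) - 1) (k := l)
      (p := p)
    rw [h2, h3] at h4
    have h5 : p ∣ (p - 1).choose (l % p) * (c * p ^ e - 1).choose (l / p) :=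
      (Nat.ModEq.dvd_iff h4 dvd_rfl).1 h
    rcases hp.out.dvd_mul.1 h5 with h6 | h6
    · exact LUC_small p _ _ (by omega) (by have := Nat.mod_lt l hp0; omega) h6
    · refine ih (l / p) ?_ h6
      rw [Nat.div_lt_iff_lt_mul hp0]
      calc l < c * p ^ (e + 1) := hl
        _ = c * p ^ e * p := by ring

end Pool.Agent.WL
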