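import Pool.Agent.WL.Defs

/-!
# Weak approximation and free lines: targets, part 1 (lines, power series, algebra)
-/

set_option autoImplicit false

open MvPolynomial

namespace Pool.Agent.WL

/-! ## Forms on lines -/

/-- The expansion of a form on a line. -/
def T_BIN : Prop := ∀ (σ A : Type) [CommRing A] (F : MvPolynomial σ A) (d : ℕ),
  F.IsHomogeneous d → ∀ (x w : σ → A) (α β : A), eval (fun i => α * x i + β * w i) F =
    ∑ j ∈ Finset.range (d + 1), α ^ (d - j) * β ^ j * (onLine F x w).coeff j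

/-- Degree and extreme coefficients. -/
def T_DEG : Prop := ∀ (σ A : Type) [CommRing A] (F : MvPolynomial σ A) (d : ℕ),
  F.IsHomogeneous d → ∀ (x w : σ → A), (onLine F x w).natDegree ≤ d ∧
    (onLine F x w).coeff 0 = eval x F ∧ (onLine F x w).coeff d = eval w F

/-- Change of the direction of a line. -/
def T_TRI : Prop := ∀ (σ A : Type) [CommRing A] (F : MvPolynomial σ A) (d : ℕ),
  F.IsHomogeneous d → ∀ (x w : σ → A) (α β : A),
  (∀ j, (onLine F x (fun i => α * x i + β * w i)).coeff j = ∑ i ∈ Finset.range (j + 1),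
    ((d - i).choose (j - i) : A) * α ^ (j - i) * β ^ i * (onLine F x w).coeff i) ∧
  ∀ S : Fin d → σ, dminor F d x (fun i => α * x i + β * w i) S =
    β ^ (d * (d - 1) / 2) * dminor F d x w S

/-- The two points of a line may be exchanged. -/
def T_SYM : Prop := ∀ (σ A : Type) [CommRing A] (F : MvPolynomial σ A) (d : ℕ),
  F.IsHomogeneous d → ∀ (x w : σ → A),
  (∀ j ≤ d, (onLine F w x).coeff j = (onLine F x w).coeff (d - j)) ∧
  ∀ S : Fin d → σ, dminor F d w x S = dminor F d x w S ∨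
    dminor F d w x S = - dminor F d x w S

/-- Euler's relation on a line. -/
def T_EUL : Prop := ∀ (σ A : Type) [Fintype σ] [CommRing A] (F : MvPolynomial σ A) (d : ℕ),
  F.IsHomogeneous d → ∀ (x w : σ → A) (l : Fin d),
  ∑ i, x i * dmat F d x w l i = ((d - (l : ℕ) : ℕ) : A) * (onLine F x w).coeff l

/-- Minors without the column `a` are enough. -/
def T_AVOID : Prop := ∀ (σ A : Type) [Fintype σ] [CommRing A] (F : MvPolynomial σ A) (d : ℕ),
  F.IsHomogeneous d → ∀ (x w : σ → A) (a : σ) (J : Ideal A), IsUnit (x a) →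
  (∀ j < d, (onLine F x w).coeff j ∈ J) →
  (∀ S : Fin d → σ, (∀ l, S l ≠ a) → dminor F d x w S ∈ J) →
  ∀ S : Fin d → σ, dminor F d x w S ∈ J

/-- Taylor expansion of order one. -/
def T_TAY : Prop := ∀ (ι A : Type) [Fintype ι] [CommRing A] (G : MvPolynomial ι A)
  (u h : ι → A) (t : A), ∃ r : A, eval (fun i => u i + t * h i) G =
    eval u G + t * ∑ i, h i * eval u (pderiv i G) + t ^ 2 * r

/-- The expansion coefficients are forms in the direction. -/
def T_HOMJ : Prop := ∀ (σ A : Type) [CommRing A] (F : MvPolynomial σ A) (x : σ → A),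
  (∀ j, ((onLine (F.map C) (fun i => C (x i)) (fun i => X i)).coeff j :
    MvPolynomial σ A).IsHomogeneous j) ∧
  ∀ (d : ℕ) (S : Fin d → σ), (dminor (F.map C) d (fun i => C (x i)) (fun i => X i) S :
    MvPolynomial σ A).IsHomogeneous (d * (d - 1) / 2)

/-- Expansion coefficients along affine families of lines are polynomials in the parameters. -/
def T_GL : Prop := ∀ (ι κ A : Type) [Fintype ι] [Fintype κ] [CommRing A] (F : MvPolynomial κ A)
  (a b : κ → A) (α β : κ → ι → A) (j : ℕ), ∃ G : MvPolynomial ι A, ∀ (B : Type) [CommRing B]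
  (φ : A →+* B) (u : ι → B) (x w : κ → B), (∀ i, x i = φ (a i) + ∑ l, φ (α i l) * u l) →
  (∀ i, w i = φ (b i) + ∑ l, φ (β i l) * u l) →
  eval u (G.map φ) = (onLine (F.map φ) x w).coeff j ∧
  ∀ l, eval u (pderiv l (G.map φ)) =
    ∑ i, φ (α i l) * (onLine (pderiv i (F.map φ)) x w).coeff j +
    ∑ i, φ (β i l) * (if j = 0 then 0 else (onLine (pderiv i (F.map φ)) x w).coeff (j - 1))

/-- Free lines by surjectivity on forms of degree `d - 1`. -/
def T_RANK : Prop := ∀ (σ M : Type) [Fintype σ] [Field M] (F : MvPolynomial σ M) (d : ℕ),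
  F.IsHomogeneous d → 1 ≤ d → ∀ (x w : σ → M),
  ((∃ S : Fin d → σ, dminor F d x w S ≠ 0) ↔ ∀ g : Polynomial M, g.natDegree < d →
    ∃ u : σ → M, ∑ i, Polynomial.C (u i) * onLine (pderiv i F) x w = g)

/-! ## Generic points -/

/-- Through a common zero `P` of `r` polynomials over `k` there is a generic common zero that
specialises to `P` and generates a field of transcendence degree at least `card σ - r`. -/
def T_HT : Prop := ∀ (k : Type) [Field k] (σ : Type) [Fintype σ] (P : σ → k)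
  (f : Finset (MvPolynomial σ k)), (∀ g ∈ f, eval P g = 0) →
  ∃ (L : Type) (_ : Field L) (_ : Algebra k L) (z : σ → L), (∀ g ∈ f, aeval z g = 0) ∧
    (∀ g : MvPolynomial σ k, aeval z g = 0 → eval P g = 0) ∧
    ∀ T : Finset L, (∀ i, z i ∈ IntermediateField.adjoin k (T : Set L)) →
      Fintype.card σ ≤ T.card + f.card

/-- Descent of solutions of equations and inequations to an algebraically closed field. -/
def T_NS : Prop := ∀ (k : Type) [Field k] [IsAlgClosed k] (σ : Type) [Finite σ]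
  (f : Finset (MvPolynomial σ k)) (g : MvPolynomial σ k) (L : Type) [Field L] [Algebra k L]
  (z : σ → L), (∀ h ∈ f, aeval z h = 0) → aeval z g ≠ 0 →
  ∃ z₀ : σ → k, (∀ h ∈ f, eval z₀ h = 0) ∧ eval z₀ g ≠ 0

/-- The main theorem of elimination theory. -/
def T_ELIM : Prop := ∀ (K : Type) [Field K] (σ τ : Type) [Finite σ] [Finite τ] (M : Type)
  [Field M] [IsAlgClosed M] [Algebra K M] (x₀ : σ → M) (ι : Type) [Finite ι]
  (h : ι → MvPolynomial τ (MvPolynomial σ K)) (e : ι → ℕ), (∀ i, (h i).IsHomogeneous (e i)) →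
  (∀ w : τ → M, (∀ i, eval₂ (aeval x₀ : MvPolynomial σ K →ₐ[K] M).toRingHom w (h i) = 0) →
    w = 0) →
  ∃ (Δ : MvPolynomial σ K) (N : ℕ), aeval x₀ Δ ≠ 0 ∧
    ∀ b : τ, C Δ * X b ^ N ∈ Ideal.span (Set.range h)

/-! ## Power series -/

/-- A basis with increasing orders. -/
structure Adapted {k : Type} [Field k] (V : Submodule k (PowerSeries k)) (M : ℕ)
    (e : Fin M → PowerSeries k) (o : Fin M → ℕ) : Prop where
  card : M = Module.finrank k V
  mono : StrictMono o
  mem : ∀ b, e b ∈ V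
  low : ∀ b, ∀ a < o b, PowerSeries.coeff a (e b) = 0
  lead : ∀ b, PowerSeries.coeff (o b) (e b) = 1
  span : ∀ f ∈ V, ∃ t : Fin M → k, f = ∑ b, t b • e b

def T_ORD : Prop := ∀ (k : Type) [Field k] (V : Submodule k (PowerSeries k))
  [FiniteDimensional k V], ∃ (M : ℕ) (e : Fin M → PowerSeries k) (o : Fin M → ℕ),
    Adapted V M e o

/-- Combinations of an adapted basis over an extension field. -/
def T_COMB : Prop := ∀ (k : Type) [Field k] (V : Submodule k (PowerSeries k)) (M : ℕ)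
  (e : Fin M → PowerSeries k) (o : Fin M → ℕ), Adapted V M e o → ∀ (L : Type) [Field L]
  [Algebra k L] (t : Fin M → L),
  (∀ A : ℕ, (∀ a < A, PowerSeries.coeff a (∑ b, PowerSeries.C (t b) * up k L (e b)) = 0) →
    ∀ b, o b < A → t b = 0) ∧
  ((∀ b, PowerSeries.coeff (o b) (∑ b, PowerSeries.C (t b) * up k L (e b)) = 0) →
    ∀ b, t b = 0)

/-- Values of the form on combinations. -/
def T_SPAN : Prop := ∀ (k : Type) [Field k] (n d : ℕ)
  (F : MvPolynomial (Fin (n + 1)) (PowerSeries k)) (δ c : ℕ)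
  (V : ℕ → Submodule k (PowerSeries k)), 1 ≤ d → F.IsHomogeneous d → Fam F δ c V →
  ∀ (m : ℕ) (L : Type) [Field L] [Algebra k L] (φ : Fin (n + 1) → PowerSeries L),
  (∀ i, φ i ∈ Submodule.span L (up k L '' (V m : Set (PowerSeries k)))) →
  eval φ (upF L F) ∈ Submodule.span L (up k L '' (V (d * m + (d + 1) * c) : Set (PowerSeries k)))

/-- The refined system is given by polynomial equations in the unknowns. -/
def T_SYSF : Prop := ∀ (k : Type) [Field k] (n d N M : ℕ)
  (F : MvPolynomial (Fin (n + 1)) (PowerSeries k)) (e : Fin M → PowerSeries k) (O : Finset ℕ),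
  1 ≤ d → ∃ f : Finset (MvPolynomial (Idx n N M) k), f.card ≤ (n + 1) * N + d * N + O.card ∧
    ∀ (L : Type) [Field L] [Algebra k L] (z : Idx n N M → L), (∀ g ∈ f, aeval z g = 0) ↔
      (Sys (upF L F) d N (xS z) (qS z) (phiS e z) ∧
        ∀ o ∈ O, PowerSeries.coeff o (eval (phiS e z) (upF L F)) = 0)

/-- Solutions of the refined system: the value of the form. -/
def T_STR : Prop := ∀ (σ A : Type) [CommRing A] (F : MvPolynomial σ (PowerSeries A)) (d N : ℕ)
  (x : σ → PowerSeries A) (q : PowerSeries A) (φ : σ → PowerSeries A), 1 ≤ d →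
  F.IsHomogeneous d → Sys F d N x q φ → (PowerSeries.X : PowerSeries A) ^ (d * N) ∣ eval φ F

/-- Solutions of the refined system: contact. -/
def T_CON : Prop := ∀ (σ L : Type) [Field L] (F : MvPolynomial σ (PowerSeries L)) (d N i : ℕ)
  (x : σ → PowerSeries L) (q : PowerSeries L) (φ : σ → PowerSeries L), 1 ≤ d →
  F.IsHomogeneous d → Sys F d N x q φ → eval φ F = 0 → i ≤ N →
  (PowerSeries.X : PowerSeries L) ^ i ∣ q →
  ∃ (y : σ → PowerSeries L) (q' : PowerSeries L), (∀ l, φ l = PowerSeries.X ^ i * y l) ∧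
    q = PowerSeries.X ^ i * q' ∧ eval y F = 0 ∧
    (∀ l, (PowerSeries.X : PowerSeries L) ^ (N - i) ∣ y l - q' * x l) ∧
    ∀ j, (PowerSeries.X : PowerSeries L) ^ N ∣ (onLine F x y).coeff j

/-- Counting the coefficients of approximate solutions of a system of maximal rank. -/
def T_NC : Prop := ∀ (E L : Type) [Field E] [Field L] [Algebra E L] (ι : Type) [Fintype ι]
  (d P c : ℕ) (G : Fin d → MvPolynomial ι (PowerSeries E)) (S : Fin d → ι)
  (u : ι → PowerSeries L) (B : IntermediateField E L),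
  (∀ j, (PowerSeries.X : PowerSeries L) ^ P ∣ eval u (upF L (G j))) →
  ¬ (PowerSeries.X : PowerSeries L) ^ (c + 1) ∣
    (Matrix.of fun j l : Fin d => eval u (pderiv (S l) (upF L (G j)))).det →
  (∀ i, i ∉ Set.range S → ∀ a < P, PowerSeries.coeff a (u i) ∈ B) →
  (∀ i, ∀ a ≤ c, PowerSeries.coeff a (u i) ∈ B) →
  ∀ i a, a + c < P → PowerSeries.coeff a (u i) ∈ B

/-- Coefficients of minors are polynomials in the unknowns. -/
def T_MINP : Prop := ∀ (k : Type) [Field k] (n d N M c : ℕ)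
  (F : MvPolynomial (Fin (n + 1)) (PowerSeries k)) (e : Fin M → PowerSeries k)
  (S : Fin d → Fin (n + 1)), ∃ g : MvPolynomial (Idx n N M) k, ∀ (L : Type) [Field L]
  [Algebra k L] (z : Idx n N M → L), aeval z g =
    PowerSeries.coeff c (dminor (upF L F) d (xS z) (psiS e z) S)

/-- Few further equations force the vanishing of the form. -/
def T_ZR : Prop := ∀ (k : Type) [Field k] (n d : ℕ)
  (F : MvPolynomial (Fin (n + 1)) (PowerSeries k)) (δ c : ℕ)
  (V : ℕ → Submodule k (PowerSeries k)), 1 ≤ d → F.IsHomogeneous d → Fam F δ c V →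
  ∀ (N m M : ℕ) (e : Fin M → PowerSeries k), (∀ b, e b ∈ V m) →
  ∃ O : Finset ℕ, O.card ≤ δ * (d * m + (d + 1) * c) + c + 1 - d * N ∧
    ∀ (L : Type) [Field L] [Algebra k L] (z : Idx n N M → L),
    Sys (upF L F) d N (xS z) (qS z) (phiS e z) →
    (∀ o ∈ O, PowerSeries.coeff o (eval (phiS e z) (upF L F)) = 0) →
    eval (phiS e z) (upF L F) = 0

/-- The count of the arcs near a free line. -/
def T_CNT : Prop := ∀ (k E L : Type) [Field k] [Field E] [Field L] [Algebra k E] [Algebra k L]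
  [Algebra E L] [IsScalarTower k E L] (n d N P c : ℕ)
  (F : MvPolynomial (Fin (n + 1)) (PowerSeries k)) (x : Fin (n + 1) → PowerSeries L)
  (y : Fin (n + 1) → PowerSeries E) (S : Fin d → Fin (n + 1)), P ≤ N →
  (∀ j < d, (PowerSeries.X : PowerSeries L) ^ P ∣
    (onLine (upF L F) x (fun i => up E L (y i))).coeff j) →
  ¬ (PowerSeries.X : PowerSeries L) ^ (c + 1) ∣
    dminor (upF L F) d x (fun i => up E L (y i)) S →
  ∃ T : Finset L, T.card + d * P ≤ (n + 1) * N + d * (2 * c + 1) ∧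
    ∀ i, ∀ b < N, PowerSeries.coeff b (x i) ∈ IntermediateField.adjoin E (T : Set L)

/-- The count of the arcs near a free line through a point near the arc. -/
def T_CNT2 : Prop := ∀ (k E L : Type) [Field k] [Field E] [Field L] [Algebra k E] [Algebra k L]
  [Algebra E L] [IsScalarTower k E L] (n d N P c e : ℕ)
  (F : MvPolynomial (Fin (n + 1)) (PowerSeries k)) (x η : Fin (n + 1) → PowerSeries L)
  (y : Fin (n + 1) → PowerSeries E) (a : Fin (n + 1)) (S : Fin d → Fin (n + 1)),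
  1 ≤ d → F.IsHomogeneous d → P + e ≤ N → PowerSeries.constantCoeff (x a) ≠ 0 →
  PowerSeries.constantCoeff (y a) ≠ 0 →
  (∀ i, x a * up E L (y i) - up E L (y a) * x i = PowerSeries.X ^ e * η i) →
  (∀ j, 1 ≤ j → j ≤ d → (PowerSeries.X : PowerSeries L) ^ P ∣ (onLine (upF L F) x η).coeff j) →
  (∀ l, S l ≠ a) →
  ¬ (PowerSeries.X : PowerSeries L) ^ (c + 1) ∣ dminor (upF L F) d x η S →
  ∃ T : Finset L, T.card + d * P + n * e ≤ (n + 1) * N + d * (2 * c + 1) ∧
    ∀ i, ∀ b < N, PowerSeries.coeff b (x i) ∈ IntermediateField.adjoin E (T : Set L)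

/-- The count of the arcs near a given point. -/
def T_CNT3 : Prop := ∀ (E L : Type) [Field E] [Field L] [Algebra E L] (n N e : ℕ)
  (x η : Fin (n + 1) → PowerSeries L) (y : Fin (n + 1) → PowerSeries E) (a : Fin (n + 1)),
  e ≤ N → PowerSeries.constantCoeff (y a) ≠ 0 →
  (∀ i, x a * up E L (y i) - up E L (y a) * x i = PowerSeries.X ^ e * η i) →
  ∃ T : Finset L, T.card + n * e ≤ (n + 1) * N ∧
    ∀ i, ∀ b < N, PowerSeries.coeff b (x i) ∈ IntermediateField.adjoin E (T : Set L)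

/-- The count of the arcs that have contact with a given point. -/
def T_LOSS : Prop := ∀ (k : Type) [Field k] (n d : ℕ)
  (F : MvPolynomial (Fin (n + 1)) (PowerSeries k)) (x₀ : Fin (n + 1) → PowerSeries k)
  (a : Fin (n + 1)), 1 ≤ d → d ^ 2 ≤ n → F.IsHomogeneous d →
  PowerSeries.constantCoeff (x₀ a) ≠ 0 → FreeNear F d x₀ a →
  ∃ C : ℕ, ∀ (E L : Type) [Field E] [Field L] [Algebra k E] [Algebra k L] [Algebra E L]
    [IsScalarTower k E L] (N g : ℕ) (x : Fin (n + 1) → PowerSeries L)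
    (y : Fin (n + 1) → PowerSeries E),
    (∀ i, (PowerSeries.X : PowerSeries L) ^ C ∣ x i - up k L (x₀ i)) →
    (∃ b, PowerSeries.constantCoeff (y b) ≠ 0) → eval y (upF E F) = 0 →
    (∀ j < d, (PowerSeries.X : PowerSeries L) ^ N ∣
      PowerSeries.X ^ (j * g) * (onLine (upF L F) x (fun i => up E L (y i))).coeff j) →
    ∃ T : Finset L, T.card + d * N ≤ (n + 1) * N + (n + 1) * g + C ∧
      ∀ i, ∀ b < N, PowerSeries.coeff b (x i) ∈ IntermediateField.adjoin E (T : Set L)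

/-- From exact freeness at `x₀` to approximate freeness near `x₀`. -/
def T_FREE : Prop := ∀ (k : Type) [Field k] (n d : ℕ)
  (F : MvPolynomial (Fin (n + 1)) (PowerSeries k)) (x₀ : Fin (n + 1) → PowerSeries k)
  (a : Fin (n + 1)), 1 ≤ d → F.IsHomogeneous d → PowerSeries.constantCoeff (x₀ a) ≠ 0 →
  GoodPt F d x₀ → FreeNear F d x₀ a

/-- Approximation of one arc. -/
def T_A : Prop := ∀ (k : Type) [Field k] [IsAlgClosed k] (n d : ℕ)
  (F : MvPolynomial (Fin (n + 1)) (PowerSeries k)) (δ c : ℕ)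
  (V : ℕ → Submodule k (PowerSeries k)) (x₀ : Fin (n + 1) → PowerSeries k) (a : Fin (n + 1)),
  1 ≤ d → d ^ 2 ≤ n → F.IsHomogeneous d → Fam F δ c V → eval x₀ F = 0 →
  PowerSeries.constantCoeff (x₀ a) ≠ 0 → FreeNear F d x₀ a → ∀ e : ℕ,
  ∃ (m : ℕ) (φ : Fin (n + 1) → PowerSeries k) (r : ℕ) (q : PowerSeries k),
    (∀ i, φ i ∈ V m) ∧ eval φ F = 0 ∧ PowerSeries.constantCoeff q ≠ 0 ∧
    ∀ i, (PowerSeries.X : PowerSeries k) ^ (r + e) ∣ φ i - PowerSeries.X ^ r * q * x₀ i

/-- Moving along a free line. -/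
def T_B : Prop := ∀ (k : Type) [Field k] [IsAlgClosed k] (n d : ℕ)
  (F : MvPolynomial (Fin (n + 1)) (PowerSeries k)) (δ c : ℕ)
  (V : ℕ → Submodule k (PowerSeries k)) (x₀ : Fin (n + 1) → PowerSeries k) (a : Fin (n + 1))
  (m₀ : ℕ) (y : Fin (n + 1) → PowerSeries k) (S : Fin d → Fin (n + 1))
  (p : ℕ → PowerSeries k) (mp : ℕ → ℕ) (U : Submodule k (PowerSeries k)) (c' : ℕ),
  1 ≤ d → F.IsHomogeneous d → Fam F δ c V → PowerSeries.constantCoeff (x₀ a) ≠ 0 →
  (∀ i, y i ∈ V m₀) → onLine F x₀ y = 0 → dminor F d x₀ y S ≠ 0 →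
  (∀ N, p N ∈ V (mp N) ∧ (PowerSeries.X : PowerSeries k) ^ N ∣ p N ∧ p N ≠ 0 ∧
    δ * mp N ≤ N + c) →
  (∀ m, Module.finrank k (V m) ≤ Module.finrank k (V m ⊓ U : Submodule k (PowerSeries k)) + c') →
  ∀ e : ℕ, ∃ (N m : ℕ) (φ : Fin (n + 1) → PowerSeries k) (r : ℕ) (q : PowerSeries k),
    (∀ i, φ i ∈ V m) ∧ eval φ F = 0 ∧ PowerSeries.constantCoeff q ≠ 0 ∧
    (∀ i, (PowerSeries.X : PowerSeries k) ^ (r + e) ∣ φ i - PowerSeries.X ^ r * q * x₀ i) ∧
    ∀ i, φ i - p N * y i ∈ U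

/-- Existence of lines near a given line, over power series. -/
def T_NEWT : Prop := ∀ (k ι : Type) [Field k] [Fintype ι] [DecidableEq ι] (d N c : ℕ)
  (G : Fin d → MvPolynomial ι (PowerSeries k)) (S : Fin d → ι) (u : ι → PowerSeries k),
  (∀ j, (PowerSeries.X : PowerSeries k) ^ (2 * c + 1 + N) ∣ eval u (G j)) →
  ¬ (PowerSeries.X : PowerSeries k) ^ (c + 1) ∣
    (Matrix.of fun j l : Fin d => eval u (pderiv (S l) (G j))).det →
  ∃ u' : ι → PowerSeries k, (∀ i, (PowerSeries.X : PowerSeries k) ^ (c + 1 + N) ∣ u' i - u i) ∧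
    ∀ j, eval u' (G j) = 0

end Pool.Agent.WL
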