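import Pool.Agent.WL.Targets2

/-!
# Weak approximation and free lines: targets, part 3 (hyperplane sections, generic forms)
-/

set_option autoImplicit false

open MvPolynomial WithZero Topology
open Pool.Agent.WA

namespace Pool.Agent.WL

/-! ## Hyperplane sections -/

/-- The section of a form by the hyperplane `x (n + 1) = ∑ j, h j * x j`. -/
noncomputable def sec {A : Type} [CommRing A] {n : ℕ} (F : MvPolynomial (Fin (n + 1 + 1)) A)
    (h : Fin (n + 1) → A) : MvPolynomial (Fin (n + 1)) A :=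
  aeval (Fin.snoc (α := fun _ => MvPolynomial (Fin (n + 1)) A) (fun j => X j)
    (∑ j, C (h j) * X j)) F

/-- The derivatives of a form are algebraically dependent modulo the form. -/
def T_DUAL : Prop := ∀ (K : Type) [Field K] (n d : ℕ) (F : MvPolynomial (Fin (n + 1)) K),
  2 ≤ d → F.IsHomogeneous d → Irreducible F → ∃ (e : ℕ) (Δ : MvPolynomial (Fin (n + 1)) K),
    Δ ≠ 0 ∧ Δ.IsHomogeneous e ∧ F ∣ aeval (fun i => pderiv i F) Δ

/-- Smooth hyperplane sections. -/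
def T_SEC : Prop := ∀ (K : Type) [Field K] (n d : ℕ) (F : MvPolynomial (Fin (n + 1 + 1)) K),
  F.IsHomogeneous d → SmoothForm F → ∀ (e : ℕ) (Δ : MvPolynomial (Fin (n + 1 + 1)) K),
  Δ.IsHomogeneous e → F ∣ aeval (fun i => pderiv i F) Δ → ∀ h : Fin (n + 1) → K,
  eval (Fin.snoc (α := fun _ => K) h (-1)) Δ ≠ 0 →
  (sec F h).IsHomogeneous d ∧ SmoothForm (sec F h)

/-- Local points of hyperplane sections near a given point. -/
def T_SECL : Prop := ∀ (E : Type) [Field E] [hv : Valued E ℤᵐ⁰] [CompleteSpace E] (π : E),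
  IsUnif hv.v π → ∀ (n d : ℕ) (F : MvPolynomial (Fin (n + 1 + 1)) E), 1 ≤ n →
  F.IsHomogeneous d → SmoothForm F → ∀ x : Fin (n + 1 + 1) → E,
  (∃ j : Fin (n + 1), x j.castSucc ≠ 0) → eval x F = 0 → ∀ θ : ℤᵐ⁰, θ ≠ 0 →
  ∃ (h : Fin (n + 1) → E) (ρ : ℤᵐ⁰), ρ ≠ 0 ∧ ∀ h' : Fin (n + 1) → E,
    (∀ j, hv.v (h' j - h j) ≤ ρ) → ∃ x' : Fin (n + 1) → E, x' ≠ 0 ∧ eval x' (sec F h') = 0 ∧
      ∀ i, hv.v (Fin.snoc (α := fun _ => E) x' (∑ j, h' j * x' j) i - x i) ≤ θ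

/-- Weak approximation for all smooth forms of degree `d` in `n + 1` variables. -/
def WAll (k K : Type) [Field k] [Field K] [Algebra k K] (n d : ℕ) : Prop :=
  ∀ F : MvPolynomial (Fin (n + 1)) K, F.IsHomogeneous d → SmoothForm F →
  ∀ (m : ℕ) (v : Fin m → Valuation K ℤᵐ⁰), (∀ j, PlaceOf k (v j)) →
  (∀ i j, i ≠ j → ¬ (v i).IsEquiv (v j)) → ∀ (x : ∀ j, Fin (n + 1) → Compl (v j)),
  (∀ j, x j ≠ 0 ∧ eval (x j) (FE (v j) F) = 0) →
  ∀ (U : ∀ j, Set (Fin (n + 1) → Compl (v j))), (∀ j, IsOpen (U j) ∧ x j ∈ U j) →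
  ∃ y : Fin (n + 1) → K, y ≠ 0 ∧ eval y F = 0 ∧
    ∀ j, ∃ c : Compl (v j), c ≠ 0 ∧ (fun i => c * emb (v j) (y i)) ∈ U j

/-- Reduction to hyperplane sections. -/
def T_RED : Prop := ∀ (k K : Type) [Field k] [IsAlgClosed k] [Field K] [Algebra k K] (n d : ℕ),
  2 ≤ d → 2 ≤ n → WAll k K n d → WAll k K (n + 1) d

/-- Smooth linear forms. -/
def T_ONE : Prop := ∀ (K : Type) [Field K] (n : ℕ) (F : MvPolynomial (Fin (n + 1)) K), 1 ≤ n →
  F.IsHomogeneous 1 → SmoothForm F → Good K n 1 F 1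

/-! ## Generic forms -/

/-- The monomials of degree `d`. -/
abbrev Mon (n d : ℕ) : Type := {μ : Fin (n + 1) →₀ ℕ // ∑ i, μ i = d}

/-- Generic forms have points with all lines free. -/
def T_GPT : Prop := ∀ (k₀ : Type) [Field k₀] (n d : ℕ) (M : Type) [Field M] [IsAlgClosed M]
  [Algebra k₀ M] (F : MvPolynomial (Fin (n + 1)) M), 1 ≤ d → 1 ≤ n → F.IsHomogeneous d →
  AlgebraicIndependent k₀ (fun μ : Mon n d => F.coeff μ.1) →
  ∃ x₀ : Fin (n + 1) → M, x₀ ≠ 0 ∧ eval x₀ F = 0 ∧ AllFree F d x₀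

/-- Good pairs of a form and a point form an open set. -/
def T_UNI : Prop := ∀ (k₀ : Type) [Field k₀] (n d : ℕ) (M : Type) [Field M] [IsAlgClosed M]
  [Algebra k₀ M] (F : MvPolynomial (Fin (n + 1)) M), 1 ≤ d → F.IsHomogeneous d →
  ∀ x₀ : Fin (n + 1) → M, x₀ ≠ 0 → eval x₀ F = 0 → AllFree F d x₀ →
  ∃ Δ : MvPolynomial (Mon n d ⊕ Fin (n + 1)) k₀,
    aeval (Sum.elim (fun μ => F.coeff μ.1) x₀) Δ ≠ 0 ∧
    ∀ (M' : Type) [Field M'] (φ : k₀ →+* M') (F' : MvPolynomial (Fin (n + 1)) M')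
      (x : Fin (n + 1) → M'), F'.IsHomogeneous d →
      eval₂ φ (Sum.elim (fun μ => F'.coeff μ.1) x) Δ ≠ 0 → AllFree F' d x

/-- Polynomials that do not vanish at a point of the generic form are not divisible by most
forms. -/
def T_DIVR : Prop := ∀ (k₀ : Type) [Field k₀] (n d : ℕ) (M : Type) [Field M] [Algebra k₀ M]
  (F : MvPolynomial (Fin (n + 1)) M) (x₀ : Fin (n + 1) → M)
  (Δ : MvPolynomial (Mon n d ⊕ Fin (n + 1)) k₀), 1 ≤ d → F.IsHomogeneous d →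
  AlgebraicIndependent k₀ (fun μ : Mon n d => F.coeff μ.1) → eval x₀ F = 0 →
  aeval (Sum.elim (fun μ => F.coeff μ.1) x₀) Δ ≠ 0 →
  ∃ ρ : MvPolynomial (Mon n d) k₀, ρ ≠ 0 ∧ ∀ (K : Type) [Field K] (φ : k₀ →+* K)
    (F' : MvPolynomial (Fin (n + 1)) K), F'.IsHomogeneous d →
    eval₂ φ (fun μ => F'.coeff μ.1) ρ ≠ 0 →
    ¬ F' ∣ eval₂ (C.comp φ) (Sum.elim (fun μ => C (F'.coeff μ.1)) X) Δ

end Pool.Agent.WL
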