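import Pool.Agent.WL.Targets3

/-!
# Weak approximation and free lines: targets, part 4 (general linear sections)
-/

set_option autoImplicit false

open MvPolynomial WithZero Topology
open Pool.Agent.WA

namespace Pool.Agent.WL

/-- Few lines through the generic point are not free. -/
def T_NFB : Prop := ∀ (K : Type) [Field K] (n d : ℕ) (F : MvPolynomial (Fin (n + 1)) K), 1 ≤ d →
  F.IsHomogeneous d → SmoothForm F → (∀ l < d, ((d - 1).choose l : K) ≠ 0) →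
  ∀ (M : Type) [Field M] [Algebra K M] (ξ w : Fin (n + 1) → M),
  (∀ g : MvPolynomial (Fin (n + 1)) K, aeval ξ g = 0 ↔ F ∣ g) →
  onLine (F.map (algebraMap K M)) ξ w = 0 →
  (∀ S : Fin d → Fin (n + 1), dminor (F.map (algebraMap K M)) d ξ w S = 0) →
  ∃ T : Finset M, T.card + 1 ≤ d ∧
    ∀ i, IsAlgebraic (IntermediateField.adjoin K (Set.range ξ ∪ (T : Set M))) (w i)

/-- The dimension of the family of free lines through a point. -/
def T_DIMF : Prop := ∀ (K : Type) [Field K] (n d : ℕ) (F : MvPolynomial (Fin (n + 1)) K),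
  F.IsHomogeneous d → ∀ (M : Type) [Field M] [Algebra K M] (ξ w : Fin (n + 1) → M)
  (S : Fin d → Fin (n + 1)), onLine (F.map (algebraMap K M)) ξ w = 0 →
  dminor (F.map (algebraMap K M)) d ξ w S ≠ 0 →
  ∃ T : Finset M, T.card + d ≤ n + 1 ∧
    ∀ i, IsAlgebraic (IntermediateField.adjoin K (Set.range ξ ∪ (T : Set M))) (w i)

/-- Linear substitution. -/
noncomputable def lsub {A : Type} [CommRing A] {n n' : ℕ} (F : MvPolynomial (Fin (n + 1)) A)
    (a : Fin (n + 1) → Fin (n' + 1) → A) : MvPolynomial (Fin (n' + 1)) A :=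
  aeval (fun i => ∑ j, C (a i j) * X j) F

/-- Generic linear sections have a point with all lines free. -/
def T_GENA : Prop := ∀ (K : Type) [Field K] (n n' d : ℕ) (F : MvPolynomial (Fin (n + 1)) K),
  1 ≤ d → F.IsHomogeneous d → SmoothForm F → Irreducible F →
  (∀ l < d, ((d - 1).choose l : K) ≠ 0) → 1 ≤ n' → n' ≤ n → n' + d ≤ n + 2 → 2 * d ≤ n + 2 →
  ∃ (M : Type) (_ : Field M) (_ : IsAlgClosed M) (_ : Algebra K M)
    (a : Fin (n + 1) → Fin (n' + 1) → M) (x₀ : Fin (n' + 1) → M),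
    AlgebraicIndependent K (fun ij : Fin (n + 1) × Fin (n' + 1) => a ij.1 ij.2) ∧ x₀ ≠ 0 ∧
    eval x₀ (lsub (F.map (algebraMap K M)) a) = 0 ∧
    AllFree (lsub (F.map (algebraMap K M)) a) d x₀

/-- Most linear sections of dimension `n'` have good points. -/
def QA (K : Type) [Field K] (n n' d : ℕ) (F : MvPolynomial (Fin (n + 1)) K) : Prop :=
  ∃ ρ : MvPolynomial (Fin (n + 1) × Fin (n' + 1)) K, ρ ≠ 0 ∧
    ∀ a : Fin (n + 1) → Fin (n' + 1) → K, eval (fun ij => a ij.1 ij.2) ρ ≠ 0 →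
    ∃ Δ : MvPolynomial (Fin (n' + 1)) K, ¬ lsub F a ∣ Δ ∧
      ∀ (M : Type) [Field M] (φ : K →+* M) (x : Fin (n' + 1) → M), eval₂ φ x Δ ≠ 0 →
        AllFree ((lsub F a).map φ) d x

/-- From generic to most linear sections. -/
def T_OPA : Prop := ∀ (K : Type) [Field K] (n n' d : ℕ) (F : MvPolynomial (Fin (n + 1)) K),
  1 ≤ d → F.IsHomogeneous d → F ≠ 0 → ∀ (M : Type) [Field M] [IsAlgClosed M] [Algebra K M]
  (a : Fin (n + 1) → Fin (n' + 1) → M) (x₀ : Fin (n' + 1) → M),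
  AlgebraicIndependent K (fun ij : Fin (n + 1) × Fin (n' + 1) => a ij.1 ij.2) → x₀ ≠ 0 →
  eval x₀ (lsub (F.map (algebraMap K M)) a) = 0 →
  AllFree (lsub (F.map (algebraMap K M)) a) d x₀ → QA K n n' d F

/-- Square substitutions. -/
def T_QA0 : Prop := ∀ (K : Type) [Field K] [Infinite K] (n d : ℕ)
  (F : MvPolynomial (Fin (n + 1)) K), 1 ≤ d → F.IsHomogeneous d → QA K n n d F →
  ∃ Δ : MvPolynomial (Fin (n + 1)) K, ¬ F ∣ Δ ∧ ∀ (M : Type) [Field M] (φ : K →+* M)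
    (x : Fin (n + 1) → M), eval₂ φ x Δ ≠ 0 → AllFree (F.map φ) d x

/-- Hyperplane sections and linear sections. -/
def T_QAS : Prop := ∀ (K : Type) [Field K] [Infinite K] (n n' d : ℕ)
  (F : MvPolynomial (Fin (n + 1 + 1)) K), n' ≤ n → QA K (n + 1) n' d F →
  ∃ ρ : MvPolynomial (Fin (n + 1)) K, ρ ≠ 0 ∧ ∀ h : Fin (n + 1) → K, eval h ρ ≠ 0 →
    QA K n n' d (sec F h)

/-- Weak approximation for one form. -/
def WAOne (k K : Type) [Field k] [Field K] [Algebra k K] (n : ℕ)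
    (F : MvPolynomial (Fin (n + 1)) K) : Prop :=
  ∀ (m : ℕ) (v : Fin m → Valuation K ℤᵐ⁰), (∀ j, PlaceOf k (v j)) →
  (∀ i j, i ≠ j → ¬ (v i).IsEquiv (v j)) → ∀ (x : ∀ j, Fin (n + 1) → Compl (v j)),
  (∀ j, x j ≠ 0 ∧ eval (x j) (FE (v j) F) = 0) →
  ∀ (U : ∀ j, Set (Fin (n + 1) → Compl (v j))), (∀ j, IsOpen (U j) ∧ x j ∈ U j) →
  ∃ y : Fin (n + 1) → K, y ≠ 0 ∧ eval y F = 0 ∧
    ∀ j, ∃ c : Compl (v j), c ≠ 0 ∧ (fun i => c * emb (v j) (y i)) ∈ U j

/-- Weak approximation from weak approximation for most hyperplane sections. -/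
def T_REDR : Prop := ∀ (k K : Type) [Field k] [IsAlgClosed k] [Field K] [Algebra k K] (n d : ℕ)
  (F : MvPolynomial (Fin (n + 1 + 1)) K) (ρ : MvPolynomial (Fin (n + 1)) K), 2 ≤ d → 2 ≤ n →
  F.IsHomogeneous d → SmoothForm F → ρ ≠ 0 →
  (∀ h : Fin (n + 1) → K, eval h ρ ≠ 0 → (sec F h).IsHomogeneous d → SmoothForm (sec F h) →
    WAOne k K n (sec F h)) → WAOne k K (n + 1) F

end Pool.Agent.WL
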