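import Pool.Agent.WL.Targets2

/-!
# Weak approximation from the steps
-/

set_option autoImplicit false

open MvPolynomial WithZero Topology
open Pool.Agent.WA

namespace Pool.Agent.WL

namespace WAM_

/-- Induction over the places. -/
theorem induct (hF1 : T_FIRST) (hST : T_STEP) (k K : Type) [Field k] [IsAlgClosed k] [Field K]
    [Algebra k K] (hfun : FunField k K) (hC1 : C1 K) (n d : ℕ)
    (F Δ : MvPolynomial (Fin (n + 1)) K) (hG : Good K n d F Δ) (m : ℕ)
    (v : Fin m → Valuation K ℤᵐ⁰) (hv : ∀ j, PlaceOf k (v j))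
    (hne : ∀ i j, i ≠ j → ¬ (v i).IsEquiv (v j)) (x : ∀ j, Fin (n + 1) → Compl (v j))
    (hx : ∀ j, x j ≠ 0 ∧ eval (x j) (FE (v j) F) = 0) (θ : Fin m → ℤᵐ⁰) (hθ : ∀ j, θ j ≠ 0) :
    ∀ t : ℕ, 0 < t → t ≤ m → ∃ y : Fin (n + 1) → K, eval y F = 0 ∧ eval y Δ ≠ 0 ∧
      ∀ j : Fin m, (j : ℕ) < t → ∃ c : K, c ≠ 0 ∧
        ∀ i, vE (v j) (emb (v j) (c * y i) - x j i) ≤ θ j := by
  intro t
  induction t with
  | zero => intro h; exact absurd h (lt_irrefl 0)
  | succ t ih =>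
    intro _ htm
    set j₀ : Fin m := ⟨t, htm⟩ with hj₀
    rcases Nat.eq_zero_or_pos t with ht | ht
    · subst ht
      obtain ⟨y, hy, hyΔ, hyx⟩ := hF1 k K hfun n d F Δ hG (v j₀) (hv j₀) (x j₀) (hx j₀).1
        (hx j₀).2 (θ j₀) (hθ j₀)
      refine ⟨y, hy, hyΔ, fun j hj => ⟨1, one_ne_zero, fun i => ?_⟩⟩
      have : j = j₀ := Fin.ext (by simp only [hj₀]; omega)
      subst this
      rw [one_mul]
      exact hyx i
    · obtain ⟨y, hy, hyΔ, hyx⟩ := ih ht (by omega)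
      -- the other places
      let w : Fin t → Valuation K ℤᵐ⁰ := fun l => v ⟨l, by omega⟩
      choose c hc hcx using fun l : Fin t => hyx ⟨l, by omega⟩ l.2
      have hw : ∀ l, PlaceOf k (w l) := fun l => hv _
      have hind : Indep (v j₀) w := by
        refine ⟨fun l => hne _ _ ?_, fun l l' hl => hne _ _ ?_⟩
        · intro h
          have := congrArg Fin.val h
          simp only [hj₀] at this
          omega
        · intro h
          exact hl (Fin.ext (by simpa using congrArg Fin.val h))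
      let η : Fin t → ℤᵐ⁰ := fun l => θ ⟨l, by omega⟩ * (w l (c l))⁻¹
      have hη : ∀ l, η l ≠ 0 := fun l =>
        mul_ne_zero (hθ _) (inv_ne_zero ((Valuation.ne_zero_iff _).mpr (hc l)))
      obtain ⟨y', hy', hy'Δ, hy'x, hy'w⟩ := hST k K hfun hC1 n d t F Δ hG (v j₀) w (hv j₀) hw hind
        (x j₀) y (hx j₀).1 (hx j₀).2 hy hyΔ (θ j₀) η (hθ j₀) hη
      refine ⟨y', hy', hy'Δ, fun j hj => ?_⟩
      rcases Nat.lt_succ_iff_lt_or_eq.mp hj with hlt | heq
      · obtain ⟨c', hc', hc'y⟩ := hy'w ⟨j, hlt⟩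
        have hjj : (⟨((⟨j, hlt⟩ : Fin t) : ℕ), by omega⟩ : Fin m) = j := Fin.ext rfl
        refine ⟨c ⟨j, hlt⟩ * c', mul_ne_zero (hc _) hc', fun i => ?_⟩
        have e : emb (v j) (c ⟨j, hlt⟩ * c' * y' i) - x j i =
            emb (v j) (c ⟨j, hlt⟩ * (c' * y' i - y i)) +
              (emb (v j) (c ⟨j, hlt⟩ * y i) - x j i) := by
          rw [mul_sub, map_sub]; ring_nf
        rw [e]
        refine (vE (v j)).map_add_le ?_ (hcx ⟨j, hlt⟩ i)
        rw [val_emb, map_mul]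
        have h1 : w ⟨j, hlt⟩ (c' * y' i - y i) ≤ θ j * (w ⟨j, hlt⟩ (c ⟨j, hlt⟩))⁻¹ := hc'y i
        have h2 : w ⟨j, hlt⟩ (c ⟨j, hlt⟩) ≠ 0 := (Valuation.ne_zero_iff _).mpr (hc _)
        calc v j (c ⟨j, hlt⟩) * v j (c' * y' i - y i)
            ≤ w ⟨j, hlt⟩ (c ⟨j, hlt⟩) * (θ j * (w ⟨j, hlt⟩ (c ⟨j, hlt⟩))⁻¹) :=
              mul_le_mul' le_rfl h1
          _ = θ j := by
              rw [mul_comm, mul_assoc, inv_mul_cancel₀ h2, mul_one]
      · have : j = j₀ := Fin.ext heq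
        subst this
        exact ⟨1, one_ne_zero, fun i => by rw [one_mul]; exact hy'x i⟩

end WAM_

open WAM_ in
theorem wam (hF1 : T_FIRST) (hST : T_STEP) : T_WA := by
  intro k K _ _ _ _ hfun hC1 n d F Δ hG m v hv hne x hx U hU
  have hdn : d < n + 1 := by
    have h1 := hG.one_le
    have h2 := hG.sq_le
    nlinarith
  by_cases hm : m = 0
  · subst hm
    obtain ⟨y, hy0, hy⟩ := hC1 (Fin (n + 1)) Unit (fun _ y => eval y F) (fun _ => d)
      (fun _ => hG.one_le) (fun _ => IsForm.of_mvPolynomial hG.hom) (by simpa using hdn)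
    exact ⟨y, hy0, hy (), fun j => j.elim0⟩
  have hpos : 0 < m := Nat.pos_of_ne_zero hm
  choose π hπ using fun j => exists_isUnif (v j) (hv j).1
  choose c hc0 hc using fun j => exists_ball_subset_pi (hπ j) ((hU j).1.mem_nhds (hU j).2)
  have hl : ∀ j, ∃ l, x j l ≠ 0 := by
    intro j
    by_contra h
    simp only [not_exists, not_not] at h
    exact (hx j).1 (funext h)
  choose l hl using hl
  let θ : Fin m → ℤᵐ⁰ := fun j => min (c j) (vE (v j) (emb (v j) (π j)) * vE (v j) (x j (l j)))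
  have hxl : ∀ j, vE (v j) (x j (l j)) ≠ 0 := fun j => (Valuation.ne_zero_iff _).mpr (hl j)
  have hθ0 : ∀ j, θ j ≠ 0 := by
    intro j
    rcases min_choice (c j) (vE (v j) (emb (v j) (π j)) * vE (v j) (x j (l j))) with h | h
    · show min _ _ ≠ 0
      rw [h]
      exact hc0 j
    · show min _ _ ≠ 0
      rw [h]
      exact mul_ne_zero (isUnif_emb (hπ j)).ne_zero (hxl j)
  have hθc : ∀ j, θ j ≤ c j := fun j => min_le_left _ _
  have hθx : ∀ j, θ j < vE (v j) (x j (l j)) := by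
    intro j
    refine lt_of_le_of_lt (min_le_right _ _) ?_
    calc vE (v j) (emb (v j) (π j)) * vE (v j) (x j (l j)) < 1 * vE (v j) (x j (l j)) := by
          rw [mul_lt_mul_iff_left₀ (zero_lt_iff.mpr (hxl j))]
          exact (isUnif_emb (hπ j)).lt_one
      _ = vE (v j) (x j (l j)) := one_mul _
  obtain ⟨y, hy, hyΔ, hyx⟩ := induct hF1 hST k K hfun hC1 n d F Δ hG m v hv hne x hx θ hθ0 m
    hpos le_rfl
  choose b hb hbx using fun j : Fin m => hyx j j.2
  refine ⟨y, ?_, hy, fun j => ⟨emb (v j) (b j), ?_, ?_⟩⟩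
  · rintro rfl
    have h1 := hbx ⟨0, hpos⟩ (l ⟨0, hpos⟩)
    rw [Pi.zero_apply, mul_zero, map_zero, zero_sub, Valuation.map_neg] at h1
    exact absurd h1 (not_le.mpr (hθx _))
  · exact (map_ne_zero _).mpr (hb j)
  · refine hc j _ fun i => ?_
    rw [← map_mul]
    exact (hbx j i).trans (hθc j)

end Pool.Agent.WL
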